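import Pool.Agent.SLW.Mineka

/-!
# The window lemma of the project SLOW CHANGE

`cv κ v n` is the convolution of two sequences. If `v` lives on `[0, B]` and changes by at most
`δ` under a shift by `h`, then `cv κ v` changes by at most `δ` times the mass of `κ` in the window
`[n - B, n + h]`; and this mass times the mass of `v` is at most the sum of `cv κ v` over the
window `[n - B, n + h + B]`.
-/

open Finset Polynomial

namespace HexObs

namespace SLW

/-- The convolution `(κ * v) (n)`. -/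
noncomputable def cv (κ v : ℕ → ℝ) (n : ℕ) : ℝ := ∑ b ∈ range (n + 1), v b * κ (n - b)

lemma cv_eq (κ v : ℕ → ℝ) (n : ℕ) : cv κ v n = ∑ s ∈ range (n + 1), v (n - s) * κ s := by
  unfold cv
  rw [← Finset.sum_range_reflect (fun b => v b * κ (n - b)) (n + 1)]
  apply Finset.sum_congr rfl
  intro s hs
  rw [Finset.mem_range] at hs
  have h1 : n + 1 - 1 - s = n - s := by omega
  have h2 : n - (n - s) = s := by omega
  rw [h1, h2]

lemma cv_anti (κ v : ℕ → ℝ) (n : ℕ) : cv κ v n = ∑ p ∈ antidiagonal n, v p.1 * κ p.2 := by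
  rw [Finset.Nat.sum_antidiagonal_eq_sum_range_succ (fun i j => v i * κ j) n]
  rfl

lemma cv_nonneg {κ v : ℕ → ℝ} (hκ : ∀ s, 0 ≤ κ s) (hv : ∀ b, 0 ≤ v b) (n : ℕ) : 0 ≤ cv κ v n :=
  Finset.sum_nonneg fun _ _ => mul_nonneg (hv _) (hκ _)

lemma cv_mono {κ κ' v : ℕ → ℝ} (hκ : ∀ s, κ s ≤ κ' s) (hv : ∀ b, 0 ≤ v b) (n : ℕ) :
    cv κ v n ≤ cv κ' v n :=
  Finset.sum_le_sum fun _ _ => mul_le_mul_of_nonneg_left (hκ _) (hv _)

lemma cv_abs {κ κ' v : ℕ → ℝ} (hκ : ∀ s, |κ s| ≤ κ' s) (hv : ∀ b, 0 ≤ v b) (n : ℕ) :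
    |cv κ v n| ≤ cv κ' v n := by
  unfold cv
  refine (Finset.abs_sum_le_sum_abs _ _).trans (Finset.sum_le_sum fun b _ => ?_)
  rw [abs_mul, abs_of_nonneg (hv b)]
  exact mul_le_mul_of_nonneg_left (hκ _) (hv _)

/-- A shift of the length changes the convolution by `δ` times the mass of `κ` in the window. -/
theorem cv_shift {κ κ' v : ℕ → ℝ} {δ : ℝ} {B h : ℕ} (hκ : ∀ s, |κ s| ≤ κ' s)
    (hB : ∀ b, B < b → v b = 0)
    (hδ : ∀ b, |v (b + h) - v b| ≤ δ) (hh : ∀ b, b < h → |v b| ≤ δ) (n : ℕ) :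
    |cv κ v (n + h) - cv κ v n| ≤ δ * ∑ s ∈ Icc (n - B) (n + h), κ' s := by
  have hκ0 : ∀ s, 0 ≤ κ' s := fun s => (abs_nonneg _).trans (hκ s)
  have hδ0 : 0 ≤ δ := (abs_nonneg _).trans (hδ 0)
  have e2 : cv κ v n = ∑ s ∈ range (n + h + 1), (if s ≤ n then v (n - s) else 0) * κ s := by
    rw [cv_eq]
    have hsub : range (n + 1) ⊆ range (n + h + 1) := by
      apply Finset.range_subset_range.2; omega
    rw [← Finset.sum_subset hsub]
    · apply Finset.sum_congr rfl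
      intro s hs
      rw [Finset.mem_range] at hs
      rw [if_pos (by omega)]
    · intro s _ hs
      rw [Finset.mem_range] at hs
      rw [if_neg (by omega), zero_mul]
  rw [e2, cv_eq, ← Finset.sum_sub_distrib]
  have hsub : Icc (n - B) (n + h) ⊆ range (n + h + 1) := by
    intro s hs
    rw [Finset.mem_Icc] at hs
    rw [Finset.mem_range]; omega
  have key : ∀ s ∈ range (n + h + 1), |v (n + h - s) * κ s - (if s ≤ n then v (n - s) else 0) * κ s|
      ≤ if s ∈ Icc (n - B) (n + h) then δ * κ' s else 0 := by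
    intro s hs
    rw [Finset.mem_range] at hs
    rw [← sub_mul, abs_mul]
    by_cases hs1 : s ≤ n
    · rw [if_pos hs1]
      have e : n + h - s = n - s + h := by omega
      rw [e]
      split_ifs with hs2
      · exact mul_le_mul (hδ _) (hκ _) (abs_nonneg _) hδ0
      · rw [Finset.mem_Icc] at hs2
        have h1 : v (n - s) = 0 := hB _ (by omega)
        have h2 : v (n - s + h) = 0 := hB _ (by omega)
        rw [h1, h2]; simp
    · rw [if_neg hs1, sub_zero, if_pos (by rw [Finset.mem_Icc]; omega)]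
      exact mul_le_mul (hh _ (by omega)) (hκ _) (abs_nonneg _) hδ0
  refine (Finset.abs_sum_le_sum_abs _ _).trans ((Finset.sum_le_sum key).trans ?_)
  rw [← Finset.sum_filter, Finset.mul_sum]
  have e3 : (range (n + h + 1)).filter (fun s => s ∈ Icc (n - B) (n + h)) = Icc (n - B) (n + h) := by
    ext s
    simp only [Finset.mem_filter, Finset.mem_range, Finset.mem_Icc]
    omega
  rw [e3]

/-- The mass of `v` times the mass of `κ` in a window is at most the sum of the convolution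
over a larger window. -/
theorem cv_window {κ v : ℕ → ℝ} {B lo hi : ℕ} (hκ : ∀ s, 0 ≤ κ s) (hv : ∀ b, 0 ≤ v b) :
    (∑ b ∈ range (B + 1), v b) * ∑ s ∈ Icc lo hi, κ s ≤ ∑ n ∈ Icc lo (hi + B), cv κ v n := by
  rw [Finset.sum_mul_sum, ← Finset.sum_product']
  have e : ∑ n ∈ Icc lo (hi + B), cv κ v n
      = ∑ x ∈ (Icc lo (hi + B)).sigma (fun n => antidiagonal n), v x.2.1 * κ x.2.2 := by
    rw [Finset.sum_sigma]
    exact Finset.sum_congr rfl fun n _ => cv_anti κ v n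
  rw [e]
  have hinj : Set.InjOn (fun p : ℕ × ℕ => (⟨p.1 + p.2, p⟩ : (_ : ℕ) × ℕ × ℕ))
      ((range (B + 1) ×ˢ Icc lo hi : Finset (ℕ × ℕ)) : Set (ℕ × ℕ)) := by
    intro p _ q _ h
    simpa using (Sigma.mk.inj_iff.1 h).2
  have e4 : ∑ p ∈ range (B + 1) ×ˢ Icc lo hi, v p.1 * κ p.2
      = ∑ x ∈ (range (B + 1) ×ˢ Icc lo hi).image
          (fun p : ℕ × ℕ => (⟨p.1 + p.2, p⟩ : (_ : ℕ) × ℕ × ℕ)), v x.2.1 * κ x.2.2 := by
    rw [Finset.sum_image hinj]
  rw [e4]
  apply Finset.sum_le_sum_of_subset_of_nonneg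
  · intro x hx
    rw [Finset.mem_image] at hx
    obtain ⟨p, hp, rfl⟩ := hx
    rw [Finset.mem_product, Finset.mem_range, Finset.mem_Icc] at hp
    rw [Finset.mem_sigma, Finset.mem_Icc, Finset.HasAntidiagonal.mem_antidiagonal]
    refine ⟨⟨?_, ?_⟩, rfl⟩
    · show lo ≤ p.1 + p.2
      omega
    · show p.1 + p.2 ≤ hi + B
      omega
  · intro x _ _
    exact mul_nonneg (hv _) (hκ _)

/-- **Window lemma.** The change of the convolution under a shift of the length, relative to the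
convolution itself (with `κ'` in place of `κ`) in a window: `δ` is a sup norm bound for the change
of `v`, and `δ * N ≤ η * mass v`. -/
theorem window {κ κ' v : ℕ → ℝ} {δ η N W : ℝ} {B h : ℕ} (hκ : ∀ s, |κ s| ≤ κ' s)
    (hv : ∀ b, 0 ≤ v b) (hB : ∀ b, B < b → v b = 0)
    (hδ : ∀ b, |v (b + h) - v b| ≤ δ) (hh : ∀ b, b < h → |v b| ≤ δ)
    (hW : W ≤ ∑ b ∈ range (B + 1), v b) (hN : 0 < N) (hη : 0 ≤ η) (hNW : δ * N ≤ η * W) (n : ℕ) :
    |cv κ v (n + h) - cv κ v n| ≤ η / N * ∑ j ∈ Icc (n - B) (n + h + B), cv κ' v j := by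
  have hκ0 : ∀ s, 0 ≤ κ' s := fun s => (abs_nonneg _).trans (hκ s)
  have h1 := cv_shift hκ hB hδ hh n
  have h2 : (∑ b ∈ range (B + 1), v b) * ∑ s ∈ Icc (n - B) (n + h), κ' s
      ≤ ∑ j ∈ Icc (n - B) (n + h + B), cv κ' v j := cv_window hκ0 hv
  have hS : 0 ≤ ∑ s ∈ Icc (n - B) (n + h), κ' s := Finset.sum_nonneg fun _ _ => hκ0 _
  refine h1.trans ?_
  have h3 : δ ≤ η * W / N := by
    rw [le_div_iff₀ hN]; exact hNW
  calc δ * ∑ s ∈ Icc (n - B) (n + h), κ' s ≤ (η * W / N) * ∑ s ∈ Icc (n - B) (n + h), κ' s :=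
        mul_le_mul_of_nonneg_right h3 hS
    _ = η / N * (W * ∑ s ∈ Icc (n - B) (n + h), κ' s) := by ring
    _ ≤ η / N * ∑ j ∈ Icc (n - B) (n + h + B), cv κ' v j := by
        apply mul_le_mul_of_nonneg_left _ (div_nonneg hη hN.le)
        exact (mul_le_mul_of_nonneg_right hW hS).trans h2

/-- The window lemma with errors: `x` is the true quantity, within `e` of the convolution. -/
theorem window_err {κ κ' v x y e : ℕ → ℝ} {δ η N W : ℝ} {B h : ℕ} (hκ : ∀ s, |κ s| ≤ κ' s)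
    (hv : ∀ b, 0 ≤ v b) (hB : ∀ b, B < b → v b = 0)
    (hδ : ∀ b, |v (b + h) - v b| ≤ δ) (hh : ∀ b, b < h → |v b| ≤ δ)
    (hW : W ≤ ∑ b ∈ range (B + 1), v b) (hN : 0 < N) (hη : 0 ≤ η) (hNW : δ * N ≤ η * W) (n : ℕ)
    (hx1 : |x (n + h) - cv κ v (n + h)| ≤ e (n + h)) (hx0 : |x n - cv κ v n| ≤ e n)
    (hy : ∀ j ∈ Icc (n - B) (n + h + B), cv κ' v j ≤ y j) :
    |x (n + h) - x n| ≤ η / N * ∑ j ∈ Icc (n - B) (n + h + B), y j + e (n + h) + e n := by
  have h1 := window hκ hv hB hδ hh hW hN hη hNW n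
  have h2 : ∑ j ∈ Icc (n - B) (n + h + B), cv κ' v j ≤ ∑ j ∈ Icc (n - B) (n + h + B), y j :=
    Finset.sum_le_sum hy
  have h3 : η / N * ∑ j ∈ Icc (n - B) (n + h + B), cv κ' v j
      ≤ η / N * ∑ j ∈ Icc (n - B) (n + h + B), y j :=
    mul_le_mul_of_nonneg_left h2 (div_nonneg hη hN.le)
  have e1 : x (n + h) - x n = (x (n + h) - cv κ v (n + h)) + (cv κ v (n + h) - cv κ v n)
      - (x n - cv κ v n) := by ring
  rw [e1]
  refine (abs_sub _ _).trans ?_
  have h4 := abs_add_le (x (n + h) - cv κ v (n + h)) (cv κ v (n + h) - cv κ v n)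
  linarith

/-! ## The chain of `K` factors of one class and a top factor -/

lemma sum_coeff_eq {p : ℝ[X]} {B : ℕ} (hB : ∀ b, B < b → p.coeff b = 0) :
    ∑ b ∈ range (B + 1), p.coeff b = p.eval 1 := by
  rw [Polynomial.eval_eq_sum_range' (n := B + 1)]
  · simp
  · by_contra hcon
    have h1 : B < p.natDegree := by omega
    have h2 := hB _ h1
    rw [Polynomial.coeff_natDegree, Polynomial.leadingCoeff_eq_zero] at h2
    rw [h2] at h1
    simp at h1

lemma coeff_mul_nonneg' {p q : ℝ[X]} (hp : ∀ i, 0 ≤ p.coeff i) (hq : ∀ i, 0 ≤ q.coeff i) (i : ℕ) :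
    0 ≤ (p * q).coeff i := by
  rw [Polynomial.coeff_mul]
  exact Finset.sum_nonneg fun _ _ => mul_nonneg (hp _) (hq _)

lemma coeff_pow_nonneg' {p : ℝ[X]} (hp : ∀ i, 0 ≤ p.coeff i) (K : ℕ) (i : ℕ) :
    0 ≤ (p ^ K).coeff i := by
  induction K generalizing i with
  | zero =>
    rw [pow_zero, Polynomial.coeff_one]
    split_ifs <;> norm_num
  | succ K ih =>
    rw [pow_succ]
    exact coeff_mul_nonneg' ih hp i

lemma coeff_mul_low {p q : ℝ[X]} {N : ℕ} (hq : ∀ i, i < N → q.coeff i = 0) {b : ℕ} (hb : b < N) :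
    (p * q).coeff b = 0 := by
  rw [Polynomial.coeff_mul]
  apply Finset.sum_eq_zero
  intro x hx
  rw [Finset.HasAntidiagonal.mem_antidiagonal] at hx
  rw [hq x.2 (by omega), mul_zero]

lemma coeff_mul_high {p q : ℝ[X]} {P Q : ℕ} (hp : ∀ i, P < i → p.coeff i = 0)
    (hq : ∀ i, Q < i → q.coeff i = 0) {b : ℕ} (hb : P + Q < b) : (p * q).coeff b = 0 := by
  rw [Polynomial.coeff_mul]
  apply Finset.sum_eq_zero
  intro x hx
  rw [Finset.HasAntidiagonal.mem_antidiagonal] at hx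
  by_cases h : P < x.1
  · rw [hp _ h, zero_mul]
  · rw [hq x.2 (by omega), mul_zero]

lemma coeff_pow_high {p : ℝ[X]} {P : ℕ} (hp : ∀ i, P < i → p.coeff i = 0) (K : ℕ) :
    ∀ b, K * P < b → (p ^ K).coeff b = 0 := by
  induction K with
  | zero =>
    intro b hb
    rw [pow_zero, Polynomial.coeff_one, if_neg (by omega)]
  | succ K ih =>
    intro b hb
    rw [pow_succ]
    apply coeff_mul_high ih hp
    rw [Nat.succ_mul] at hb
    exact hb

/-- **One block.** `f` is the polynomial of the lengths of one of the `K` small factors (support in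
`[0, P]`), `w` that of the top factor (support in `[N, Q]`, coefficients at most `Cw * w(1) / N`),
`f` overlaps its shift by `h` (`g` is the overlap, of mass at least `c` times the mass of `f`).
Then the convolution with `f ^ K * w` changes by `(2 Cw / sqrt (c (K + 1))) / N` times its sum over
a window of radius about `K P + Q`. -/
theorem block {κ κ' : ℕ → ℝ} (hκ : ∀ s, |κ s| ≤ κ' s) {f g w : ℝ[X]} {h : ℕ} {m c Cw : ℝ}
    (hm : 0 < m) (hc : 0 < c) (hf : ∀ i, 0 ≤ f.coeff i)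
    (hg : ∀ i, 0 ≤ g.coeff i) (hgf : ∀ i, g.coeff i ≤ f.coeff i)
    (hgs : ∀ i, g.coeff i ≤ f.coeff (i + h)) (hfm : f.eval 1 = m) (hgm : c * m ≤ g.eval 1)
    {N P Q K : ℕ} (hP : ∀ i, P < i → f.coeff i = 0) (hQ : ∀ i, Q < i → w.coeff i = 0)
    (hN : ∀ i, i < N → w.coeff i = 0) (hN0 : 0 < N) (hhN : h ≤ N) (hw : ∀ i, 0 ≤ w.coeff i)
    (hCw0 : 0 ≤ Cw) (hCw : ∀ i, w.coeff i ≤ Cw * w.eval 1 / N) (n : ℕ) :
    |cv κ (fun b => (f ^ K * w).coeff b) (n + h) - cv κ (fun b => (f ^ K * w).coeff b) n|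
      ≤ (2 * Cw / Real.sqrt (c * (K + 1))) / N
        * ∑ j ∈ Icc (n - (K * P + Q)) (n + h + (K * P + Q)),
            cv κ' (fun b => (f ^ K * w).coeff b) j := by
  have hN' : (0 : ℝ) < N := by exact_mod_cast hN0
  have hfK : ∀ i, 0 ≤ (f ^ K).coeff i := coeff_pow_nonneg' hf K
  have hv : ∀ b, 0 ≤ (f ^ K * w).coeff b := coeff_mul_nonneg' hfK hw
  have hB : ∀ b, K * P + Q < b → (f ^ K * w).coeff b = 0 := fun b hb =>
    coeff_mul_high (coeff_pow_high hP K) hQ hb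
  have hw1 : 0 ≤ w.eval 1 := by
    rw [← sum_coeff_eq hQ]
    exact Finset.sum_nonneg fun _ _ => hw _
  have hM : ∀ i, |w.coeff i| ≤ Cw * w.eval 1 / N := fun i => by
    rw [abs_of_nonneg (hw i)]; exact hCw i
  have hM0 : 0 ≤ Cw * w.eval 1 / N := (abs_nonneg _).trans (hM 0)
  have hs : 0 ≤ 2 / Real.sqrt (c * (K + 1)) := div_nonneg (by norm_num) (Real.sqrt_nonneg _)
  have hmK : (0 : ℝ) ≤ m ^ K := pow_nonneg hm.le K
  refine window (δ := m ^ K * (2 / Real.sqrt (c * (K + 1))) * (Cw * w.eval 1 / N))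
    (W := (f ^ K * w).eval 1) hκ hv hB ?_ ?_ ?_ hN' ?_ ?_ n
  · intro b
    exact mineka_point hm hc hf hg hgf hgs hfm hgm hM K b
  · intro b hb
    rw [coeff_mul_low hN (by omega), abs_zero]
    exact mul_nonneg (mul_nonneg hmK hs) hM0
  · rw [sum_coeff_eq hB]
  · exact div_nonneg (mul_nonneg (by norm_num) hCw0) (Real.sqrt_nonneg _)
  · rw [Polynomial.eval_mul, Polynomial.eval_pow, hfm]
    apply le_of_eq
    field_simp

end SLW

end HexObs
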