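import Pool.Agent.TIW.Lit
import Pool.Agent.TIP.DefsS
import Pool.Agent.SLW.Conv

/-!
SLW: slow change (doc nu34/SLOW_84): the literals of the rows. Words end at the tip. r = 2 ^ l is the scale of a level,
`PW.mZ (2 ^ l)` its length. Weight of a word with n letters: xc ^ n.
-/

set_option autoImplicit false

namespace HexObs

namespace SLW

open Finset TS SDN TIW

open scoped ENNReal

/-- classes of chains of the scale l: bridges, small against 2 ^ l, unique as beginnings, of even length -/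
structure Chn (l : ℕ) (Ch : Set (List Bool)) : Prop where
  bu : Ch ⊆ BU
  size : ∀ V ∈ Ch, ∀ i, i ≤ V.length → 64 * hn (vx oo up V i) < 2 ^ l
  uniq : ∀ V ∈ Ch, ∀ V' ∈ Ch, ∀ E E' : List Bool, Saw HP oo up E → Saw HP oo up E' → V ++ E = V' ++ E' → V = V'
  even : ∀ V ∈ Ch, Even V.length

/-- the lengths of the chains -/
noncomputable def vL (Ch : Set (List Bool)) (b : ℕ) : ℝ := ({V | V ∈ Ch ∧ V.length = b}.ncard : ℝ) * xc ^ b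

open Classical in
/-- the lengths of the ends with the cutoff -/
noncomputable def eL (l b : ℕ) : ℝ :=
  ∑ E ∈ (sawF b).filter (fun E => E ∈ Hp (2 ^ l)), xc ^ b * chi (2 ^ l) E

open Classical in
/-- the lengths of the far parts with the weight θ -/
noncomputable def kF (l : ℕ) (θ : List Bool → ℝ) (s : ℕ) : ℝ :=
  ∑ A ∈ (sawF s).filter (fun A => A ∈ Fe (4 * 2 ^ l)), xc ^ s * θ A

/-- the decompositions t = A ++ (V ++ E) of the scale l: A = t.take i, E = t.drop j -/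
def Dc (l : ℕ) (Ch : Set (List Bool)) (t : List Bool) (i j : ℕ) : Prop :=
  i ≤ j ∧ t.take i ∈ Fe (4 * 2 ^ l) ∧ (t.take j).drop i ∈ Ch ∧ t.drop j ∈ Hp (2 ^ l)

open Classical in
/-- the weight of the level l, with a weight θ of the far part -/
noncomputable def NT (l : ℕ) (Ch : Set (List Bool)) (θ : List Bool → ℝ) (t : List Bool) : ℝ :=
  ∑ p ∈ ((range (t.length + 1)) ×ˢ (range (t.length + 1))).filter (fun p => Dc l Ch t p.1 p.2),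
    chi (2 ^ l) (t.drop p.2) * θ (t.take p.1)

open Classical in
/-- the number of the decompositions -/
noncomputable def NQ (l : ℕ) (Ch : Set (List Bool)) (t : List Bool) : ℝ :=
  ((((range (t.length + 1)) ×ˢ (range (t.length + 1))).filter (fun p => Dc l Ch t p.1 p.2)).card : ℝ)

open Classical in
/-- the number of the decompositions with the tip well inside -/
noncomputable def NI (l : ℕ) (Ch : Set (List Bool)) (t : List Bool) : ℝ :=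
  ((((range (t.length + 1)) ×ˢ (range (t.length + 1))).filter (fun p => Dc l Ch t p.1 p.2 ∧
    (2 : ℤ) ^ l ≤ 64 * ip (en (t.drop p.2)) up ∧ 4 * hn (en (t.drop p.2)) ≤ 3 * 2 ^ l)).card : ℝ)

/-- the weight of the level l -/
noncomputable def N1 (l : ℕ) (Ch : Set (List Bool)) (t : List Bool) : ℝ := NT l Ch (fun _ => 1) t

/-- S4a: the identity -/
def ConvId : Prop := ∀ (l : ℕ) (Ch : Set (List Bool)) (θ : List Bool → ℝ) (n : ℕ), Chn l Ch →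
  ∑ t ∈ sawF n, xc ^ n * NT l Ch θ t = cv (cv (kF l θ) (eL l)) (vL Ch) n

/-- S4b: the weights hardly see a small end -/
def OscS : Prop := ∀ (l rho : ℕ) (Ch : Set (List Bool)) (A Y : List Bool), Chn l Ch → 128 * rho ≤ 2 ^ l → 1 ≤ rho →
  A ++ Y ∈ SA → (∀ i, i ≤ Y.length → hn (vx oo up Y i) < rho) →
    |N1 l Ch (A ++ Y) - N1 l Ch A| ≤ 32 * rho / 2 ^ l * NI l Ch A ∧ NI l Ch A ≤ NQ l Ch (A ++ Y)

/-- S5a: second moments, uniform in n and l -/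
def MomU : Prop := ∃ C : ℝ, 0 < C ∧ ∀ l n : ℕ, ∑ t ∈ sawF n, xc ^ n * NP (2 ^ l) t ^ 2 ≤ (C * Ub l) ^ 2 * (cS n * xc ^ n)

/-- S5b: first moment against the mass of the class of the chains; second moment of the number of the decompositions -/
def MomV : Prop := ∃ C : ℝ, 0 < C ∧ ∀ (l n : ℕ) (Ch : Set (List Bool)) (B : ℕ), Chn l Ch → (∀ V ∈ Ch, V.length ≤ B) →
  ∑ t ∈ sawF n, xc ^ n * N1 l Ch t ≤ C * (∑ b ∈ range (B + 1), vL Ch b) * Ub l * (cS n * xc ^ n) ∧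
  ∑ t ∈ sawF n, xc ^ n * NQ l Ch t ^ 2 ≤ (C * Ub l) ^ 2 * (cS n * xc ^ n)

/-- S7: the ends with the cutoff, exact lengths, both parities -/
def ELow : Prop := ∀ a A : ℝ, 0 < a → a ≤ A → ∃ (c : ℝ) (l0 : ℕ), 0 < c ∧ ∀ l b : ℕ, l0 ≤ l →
  a * PW.mZ (2 ^ l) ≤ b → (b : ℝ) ≤ A * PW.mZ (2 ^ l) →
    ENNReal.ofReal (c * (Ub l / PW.mZ (2 ^ l))) * NTA.Xb l ≤ ENNReal.ofReal (eL l b)

/-- a class of ends of the scale l -/
structure EndC (l m : ℕ) (CY a A : ℝ) (YY : Set (List Bool)) : Prop where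
  size : ∀ Y ∈ YY, ∀ i, i ≤ Y.length → hn (vx oo up Y i) < 2 ^ (l + m)
  low : ∀ Y ∈ YY, a * PW.mZ (2 ^ l) ≤ Y.length
  high : ∀ Y ∈ YY, (Y.length : ℝ) ≤ A * PW.mZ (2 ^ l)
  mass : ∀ b : ℕ, gf {Y | Y ∈ YY ∧ Y.length = b} ≤ ENNReal.ofReal (CY * (Ub l / PW.mZ (2 ^ l))) * NTA.Xb l

open Classical in
/-- nice words of the level l: many cuts with a free half ball and an end in YY -/
noncomputable def NcS (l : ℕ) (YY : Set (List Bool)) (κ : ℝ) : Set (List Bool) :=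
  {t | κ * Ub l ≤ (((range (t.length + 1)).filter fun k => t.take k ∈ Fe (4 * 2 ^ l) ∧ t.drop k ∈ YY).card : ℝ)}

open Classical in
/-- S6: nice words are dominated by the weight of the level -/
def LowU : Prop := ∀ (m : ℕ) (CY a A κ : ℝ), 0 < a → a ≤ A → 0 < κ → 0 < CY → ∃ (C : ℝ) (l0 : ℕ), 0 < C ∧
  ∀ (l n B : ℕ) (Ch YY : Set (List Bool)) (Φ θ : List Bool → ℝ), l0 ≤ l → Chn l Ch → (∀ V ∈ Ch, V.length ≤ B) →
    (B : ℝ) ≤ a / 2 * PW.mZ (2 ^ l) → EndC l m CY a A YY → (∀ t, 0 ≤ Φ t) → (∀ t, 0 ≤ θ t) →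
    (∀ A1 Y, A1 ++ Y ∈ SA → (∀ i, i ≤ Y.length → hn (vx oo up Y i) < 2 ^ (l + m) + 2 ^ (l + 1)) →
      |Φ (A1 ++ Y) - Φ A1| ≤ θ A1) →
    Ub l * (∑ b ∈ range (B + 1), vL Ch b) * ∑ t ∈ (sawF n).filter (fun t => t ∈ NcS l YY κ), xc ^ n * Φ t ≤
      C * ∑ t ∈ sawF n, xc ^ n * (N1 l Ch t * Φ t) + C * ∑ t ∈ sawF n, xc ^ n * NT l Ch θ t

/-- S3: chains: the law of the length hardly sees a shift by h -/
def ChainSt : Prop := ∀ η a : ℝ, 0 < η → 0 < a → ∃ (w : ℝ) (q l0 : ℕ), 0 < w ∧ ∀ l : ℕ, l0 ≤ l →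
  ∃ (Ch : Set (List Bool)) (B : ℕ), Chn l Ch ∧ (∀ V ∈ Ch, V.length ≤ B) ∧ 1 ≤ B ∧ (B : ℝ) ≤ a / 2 * PW.mZ (2 ^ l) ∧
    w ≤ ∑ b ∈ range (B + 1), vL Ch b ∧ ∀ h : ℕ, Even h → (h : ℝ) * 2 ^ q ≤ PW.mZ (2 ^ l) → ∃ δ : ℝ,
      (∀ b, |vL Ch (b + h) - vL Ch b| ≤ δ) ∧ (∀ b, b < h → |vL Ch b| ≤ δ) ∧ δ * B ≤ η * ∑ b ∈ range (B + 1), vL Ch b

/-- the numbers c_n mu^(-n) -/
def AReg : Prop := ∃ C : ℝ, 0 < C ∧ (∀ n' n : ℕ, n' ≤ n → cS n' * xc ^ n' ≤ C * (cS n * xc ^ n)) ∧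
  ∀ n' n : ℕ, n ≤ n' → n' ≤ 4 * n → 1 ≤ n → cS n' * xc ^ n' ≤ C * (cS n * xc ^ n)

/-- S8: the ends of row N: outside a class Q of small mass the lengths are resolved -/
def EndsU : Prop := ∀ (η e : ℝ) (m : ℕ), 0 < η → 0 < e → ∃ (C a A : ℝ) (b1 : ℕ), 0 < C ∧ 0 < a ∧ a ≤ A ∧ ∀ b : ℕ, b1 ≤ b →
  ∃ Q : Set (List Bool), gf {Y | Y ∈ SA ∧ rev Y ∈ TIP.GT b η ∧ TIP.In (2 ^ (b + m)) Y ∧ Y ∈ Q} ≤
      ENNReal.ofReal (e * Ub b) * NTA.Xb b ∧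
    (∀ Y, Y ∈ SA → rev Y ∈ TIP.GT b η → TIP.In (2 ^ (b + m)) Y → Y ∉ Q →
      a * PW.mZ (2 ^ b) ≤ Y.length ∧ (Y.length : ℝ) ≤ A * PW.mZ (2 ^ b)) ∧
    ∀ l : ℕ, gf {Y | Y ∈ SA ∧ rev Y ∈ TIP.GT b η ∧ TIP.In (2 ^ (b + m)) Y ∧ Y ∉ Q ∧ Y.length = l} ≤
      ENNReal.ofReal (C * (Ub b / PW.mZ (2 ^ b))) * NTA.Xb b

/-- S9': niceness at all levels up to the macroscopic scale -/
def NiceU : Prop := ∀ ε : ℝ, 0 < ε → ∃ (κ CY a A : ℝ) (m c0 k0 l0 : ℕ), 0 < κ ∧ 0 < CY ∧ 0 < a ∧ a ≤ A ∧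
  ∀ k n l : ℕ, k0 ≤ k → TIP.Sc k n → l0 ≤ l → l + c0 ≤ k → ∃ YY : Set (List Bool), EndC l m CY a A YY ∧
    TOG.Pn n {t | t ∉ NcS l YY κ} ≤ ε

/-- the goal on words: F = functional of the walk that hardly sees an end of size less than 2 ^ (k - c1) -/
def SlowF : Prop := ∀ ε : ℝ, 0 < ε → ∃ τ : ℝ, 0 < τ ∧ ∀ c1 : ℕ, ∃ c2 k0 : ℕ, ∀ k n h : ℕ, k0 ≤ k → TIP.Sc k n → Even h →
  h * 2 ^ c2 ≤ n → ∀ F : List Bool → ℝ, (∀ t, |F t| ≤ 1) →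
    (∀ A Y, A ++ Y ∈ SA → (∀ i, i ≤ Y.length → hn (vx oo up Y i) < 2 ^ (k - c1)) → |F (A ++ Y) - F A| ≤ τ) →
    |xc ^ (n + h) * ∑ t ∈ sawF (n + h), F t - xc ^ n * ∑ t ∈ sawF n, F t| ≤ ε * (cS n * xc ^ n)

end SLW

end HexObs
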