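import Pool.Agent.TIW.Lit

/-!
# SLOW, S4: splitting identities for words with exactly `n` letters (helper92)

* `Wd j` : all words with `j` letters; `sum_split`;
* `cut_id` : the sum over the cuts of the self-avoiding words with `n` letters is a convolution in the length, when every
  far part can be glued to every end;
* `end_id` : the same for the ends (two pieces);
* `chain_id`: three pieces, with the weight `xc ^ n`.
-/

set_option autoImplicit false

namespace HexObs

namespace SLW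

open Finset TS SDN TIW

/-- all the words with `j` letters -/
noncomputable def Wd (j : ℕ) : Finset (List Bool) := (List.finite_length_eq Bool j).toFinset

lemma mem_Wd {j : ℕ} {w : List Bool} : w ∈ Wd j ↔ w.length = j := by
  unfold Wd
  rw [Set.Finite.mem_toFinset]
  exact Iff.rfl

/-- words with `n` letters: the first `k` and the others -/
lemma sum_split {n k : ℕ} (hk : k ≤ n) (f : List Bool → ℝ) :
    ∑ t ∈ Wd n, f t = ∑ A ∈ Wd k, ∑ Y ∈ Wd (n - k), f (A ++ Y) := by
  rw [← sum_product' (Wd k) (Wd (n - k)) fun A Y => f (A ++ Y)]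
  refine sum_bij' (fun t _ => (t.take k, t.drop k)) (fun p _ => p.1 ++ p.2) ?_ ?_ ?_ ?_ ?_
  · intro t ht
    rw [mem_Wd] at ht
    rw [mem_product, mem_Wd, mem_Wd, List.length_take, List.length_drop, ht]
    exact ⟨min_eq_left hk, rfl⟩
  · intro p hp
    rw [mem_product, mem_Wd, mem_Wd] at hp
    rw [mem_Wd, List.length_append, hp.1, hp.2]
    omega
  · intro t _
    exact List.take_append_drop k t
  · intro p hp
    rw [mem_product, mem_Wd, mem_Wd] at hp
    ext1
    · show (p.1 ++ p.2).take k = p.1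
      rw [← hp.1, List.take_left]
    · show (p.1 ++ p.2).drop k = p.2
      rw [← hp.1, List.drop_left]
  · intro t _
    show f t = f (t.take k ++ t.drop k)
    rw [List.take_append_drop]

/-- the self-avoiding words with `n` letters among all -/
lemma sum_saw (n : ℕ) (f : List Bool → ℝ) : ∑ t ∈ sawF n, f t = ∑ t ∈ Wd n, TIP.ind (t ∈ SA) * f t := by
  classical
  have h : sawF n = (Wd n).filter fun t => t ∈ SA := by
    ext t
    rw [mem_sawF, mem_filter, mem_Wd]
    exact Iff.rfl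
  rw [h, sum_filter]
  refine sum_congr rfl fun t _ => ?_
  by_cases h1 : t ∈ SA
  · rw [if_pos h1, TIP.ind_pos h1, one_mul]
  · rw [if_neg h1, TIP.ind_neg h1, zero_mul]

lemma SA_take {A Y : List Bool} (h : A ++ Y ∈ SA) : A ∈ SA := by
  refine ⟨fun i _ _ => Set.mem_univ _, fun i k hik hk => ?_⟩
  have h1 := h.inj i k hik (by rw [List.length_append]; omega)
  rwa [vx_append (by omega), vx_append (by omega)] at h1

/-- **one cut**: the sum over the cuts is a convolution -/
theorem cut_id (φ ψ : List Bool → ℝ) (hgl : ∀ A Y, φ A ≠ 0 → ψ Y ≠ 0 → A ∈ SA → A ++ Y ∈ SA) (n : ℕ) :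
    ∑ t ∈ sawF n, ∑ k ∈ range (n + 1), φ (t.take k) * ψ (t.drop k) =
      ∑ k ∈ range (n + 1), (∑ A ∈ sawF k, φ A) * ∑ Y ∈ Wd (n - k), ψ Y := by
  rw [sum_comm]
  refine sum_congr rfl fun k hk => ?_
  rw [mem_range] at hk
  have hk' : k ≤ n := by omega
  rw [sum_saw, sum_split hk', sum_saw, sum_mul_sum]
  refine sum_congr rfl fun A hA => sum_congr rfl fun Y _ => ?_
  rw [mem_Wd] at hA
  have e1 : (A ++ Y).take k = A := by rw [← hA, List.take_left]
  have e2 : (A ++ Y).drop k = Y := by rw [← hA, List.drop_left]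
  rw [e1, e2]
  by_cases h1 : φ A = 0
  · rw [h1]
    ring
  by_cases h2 : ψ Y = 0
  · rw [h2]
    ring
  by_cases h3 : A ∈ SA
  · rw [TIP.ind_pos h3, TIP.ind_pos (hgl A Y h1 h2 h3)]
    ring
  · rw [TIP.ind_neg h3, TIP.ind_neg fun h => h3 (SA_take h)]
    ring

/-- **the ends**: two pieces -/
theorem end_id (φ ψ : List Bool → ℝ) (m : ℕ) :
    ∑ Y ∈ Wd m, ∑ j ∈ range (m + 1), φ (Y.take j) * ψ (Y.drop j) =
      ∑ j ∈ range (m + 1), (∑ V ∈ Wd j, φ V) * ∑ E ∈ Wd (m - j), ψ E := by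
  rw [sum_comm]
  refine sum_congr rfl fun k hk => ?_
  rw [mem_range] at hk
  have hk' : k ≤ m := by omega
  rw [sum_split hk', sum_mul_sum]
  refine sum_congr rfl fun A hA => sum_congr rfl fun Y _ => ?_
  rw [mem_Wd] at hA
  have e1 : (A ++ Y).take k = A := by rw [← hA, List.take_left]
  have e2 : (A ++ Y).drop k = Y := by rw [← hA, List.drop_left]
  rw [e1, e2]

/-- mass of the words with exactly `n` letters, fugacity `xc` -/
noncomputable def mW (φ : List Bool → ℝ) (n : ℕ) : ℝ := xc ^ n * ∑ w ∈ Wd n, φ w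

/-- the same for the self-avoiding words -/
noncomputable def mS (φ : List Bool → ℝ) (n : ℕ) : ℝ := xc ^ n * ∑ w ∈ sawF n, φ w

theorem mW_conv (φ ψ : List Bool → ℝ) (m : ℕ) :
    mW (fun Y => ∑ j ∈ range (Y.length + 1), φ (Y.take j) * ψ (Y.drop j)) m =
      ∑ j ∈ range (m + 1), mW φ j * mW ψ (m - j) := by
  unfold mW
  have h : ∑ Y ∈ Wd m, ∑ j ∈ range (Y.length + 1), φ (Y.take j) * ψ (Y.drop j) =
      ∑ Y ∈ Wd m, ∑ j ∈ range (m + 1), φ (Y.take j) * ψ (Y.drop j) :=
    sum_congr rfl fun Y hY => by rw [mem_Wd.1 hY]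
  rw [h, end_id, mul_sum]
  refine sum_congr rfl fun j hj => ?_
  rw [mem_range] at hj
  have e : xc ^ m = xc ^ j * xc ^ (m - j) := by
    rw [← pow_add]
    congr 1
    omega
  rw [e]
  ring

theorem mS_conv (φ ψ : List Bool → ℝ) (hgl : ∀ A Y, φ A ≠ 0 → ψ Y ≠ 0 → A ∈ SA → A ++ Y ∈ SA) (n : ℕ) :
    mS (fun t => ∑ k ∈ range (t.length + 1), φ (t.take k) * ψ (t.drop k)) n =
      ∑ k ∈ range (n + 1), mS φ k * mW ψ (n - k) := by
  unfold mS mW
  have h : ∑ Y ∈ sawF n, ∑ j ∈ range (Y.length + 1), φ (Y.take j) * ψ (Y.drop j) =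
      ∑ Y ∈ sawF n, ∑ j ∈ range (n + 1), φ (Y.take j) * ψ (Y.drop j) :=
    sum_congr rfl fun Y hY => by rw [(mem_sawF.1 hY).1]
  rw [h, cut_id φ ψ hgl, mul_sum]
  refine sum_congr rfl fun j hj => ?_
  rw [mem_range] at hj
  have e : xc ^ n = xc ^ j * xc ^ (n - j) := by
    rw [← pow_add]
    congr 1
    omega
  rw [e]
  ring

end SLW

end HexObs
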