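import Pool.Agent.SLW.DefsB
import Pool.Agent.TIP.DefsN

/-!
SLW, row B7: right parts have no long factor without good local bridges (helper15), from YBad (helper41) and GtB (helper47).
-/

set_option autoImplicit false

namespace HexObs

namespace SLW

open Finset TS SDN TIW HexObs.SIM NTA

open scoped ENNReal

lemma coord_row {v : Pt} {R : ℤ} (hR : 1 ≤ R) (h : ∀ dir, |row dir v| ≤ R) : |v.1| ≤ 8 * R ∧ |v.2| ≤ 8 * R := by
  have h1 := h false
  have h2 := h true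
  clear h
  obtain ⟨x, y⟩ := v
  unfold row lvl ip hd up at *
  simp only [Bool.false_eq_true, if_false, if_true] at *
  rw [abs_le] at *
  rw [abs_le]
  refine ⟨⟨?_, ?_⟩, ?_, ?_⟩ <;> omega

/-- words of the box -/
lemma in_WL {K : ℕ} {t : List Bool} (ht : t ∈ WL K) : TIP.In (2 ^ (K + 3)) t := by
  intro i hi
  have h1 : (1 : ℤ) ≤ 2 ^ K := one_le_pow₀ (by norm_num)
  obtain ⟨h2, h3⟩ := coord_row h1 (ht.2 i hi)
  have e1 : (oo : Pt).1 = 0 := rfl
  have e2 : (oo : Pt).2 = 0 := rfl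
  have e3 : ((2 ^ (K + 3) : ℕ) : ℤ) = 8 * 2 ^ K := by
    push_cast
    ring
  refine ⟨?_, ?_⟩
  · rw [e1, sub_zero, e3]
    exact h2
  · rw [e2, sub_zero, e3]
    exact h3

/-- **row B7** -/
theorem lzB_of {κ : ℝ} {C : ℕ} (hY : TIP.YBad κ C) (hG : GtB) : LzB κ C := by
  intro e J c2 he
  obtain ⟨η, c0, b0, hη, hg⟩ := hG (e / 2) J (half_pos he)
  obtain ⟨J0, b1, hy⟩ := hY η 1 (c2 + J + 3) hη
  obtain ⟨N, hN⟩ := exists_pow_lt_of_lt_one (half_pos he) (show (1 / 2 : ℝ) < 1 by norm_num)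
  refine ⟨c0 + J0 + N + c2, b0 + b1, fun c K b hb hbc hcK hKJ => ?_⟩
  obtain ⟨J', hJ'⟩ : ∃ J', J' = K + 3 - b := ⟨_, rfl⟩
  have h1 := hg c K b (by omega) (by omega) hcK hKJ
  have h2 := hy b J' (by omega) (by omega)
  have hbJ : b + J' = K + 3 := by omega
  have hsub : {R | R ∈ BotS c K ∧ R ∈ TIP.Lz κ C b (2 ^ (c - b - c2))} ⊆
      {R | R ∈ BotS c K ∧ rev R ∉ TIP.GT b η} ∪
        {Y | Y ∈ SA ∧ rev Y ∈ TIP.GT b η ∧ TIP.In (2 ^ (b + J')) Y ∧
          ∃ n : ℕ, 2 ^ J' ≤ n * 2 ^ (c2 + J + 3) ∧ Y ∈ TIP.Lz κ C b n} := by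
    rintro R ⟨hR, hL⟩
    by_cases hr : rev R ∈ TIP.GT b η
    · refine Or.inr ⟨hR.1.1, hr, ?_, 2 ^ (c - b - c2), ?_, hL⟩
      · rw [hbJ]
        exact in_WL hR.1
      · rw [← pow_add]
        exact Nat.pow_le_pow_right (by norm_num) (by omega)
    · exact Or.inl ⟨hR, hr⟩
  have hUb := TS.Ub_pos b
  have h3 : ENNReal.ofReal (Ub b / (2 : ℝ) ^ (1 * J')) * Xb b ≤ ENNReal.ofReal (e / 2 * Ub K) * Xb K := by
    refine mul_le_mul' (ENNReal.ofReal_le_ofReal ?_) (Xb_mono (by omega))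
    have h4 : (1 : ℝ) / 2 ^ (1 * J') ≤ e / 2 := by
      rw [one_mul]
      calc (1 : ℝ) / 2 ^ J' ≤ 1 / 2 ^ N := by
            apply one_div_le_one_div_of_le (by positivity)
            exact pow_le_pow_right₀ (by norm_num) (by omega)
        _ = (1 / 2) ^ N := by rw [div_pow, one_pow]
        _ ≤ e / 2 := hN.le
    calc Ub b / (2 : ℝ) ^ (1 * J') = 1 / 2 ^ (1 * J') * Ub b := by ring
      _ ≤ e / 2 * Ub b := mul_le_mul_of_nonneg_right h4 hUb.le
      _ ≤ e / 2 * Ub K := mul_le_mul_of_nonneg_left (Ub_mono (by omega)) (by positivity)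
  refine (gf_mono hsub).trans ((gf_union_le _ _).trans ((add_le_add h1 (h2.trans h3)).trans (le_of_eq ?_)))
  have hUK := TS.Ub_pos K
  rw [← add_mul, ← ENNReal.ofReal_add (by positivity) (by positivity)]
  congr 2
  ring

end SLW

end HexObs
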