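import Pool.Agent.SDN.SplitP
import Pool.Agent.SIM.TopDefs

/-!
SLOW: the words of a box are finite in number; the right parts `BotS c K`.
-/

set_option autoImplicit false

namespace HexObs

namespace SLW

open Finset TS SDN SIM

open scoped ENNReal

/-- the words of the box K -/
theorem WL_fin (K : ℕ) : (WL K).Finite :=
  (List.finite_length_le Bool (100 * 4 ^ K)).subset fun _ ht => WL_length ht

/-- **the right parts are finite in number** -/
theorem BotS_fin (c K : ℕ) : (BotS c K).Finite := (WL_fin K).subset fun _ ht => ht.1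

/-- a sum over a finite set of words -/
theorem sum_fin {S : Set (List Bool)} (hS : S.Finite) (f : List Bool → ℝ≥0∞) [DecidablePred (· ∈ S)] :
    ∑' t, (if t ∈ S then f t else 0) = ∑ t ∈ hS.toFinset, f t := by
  rw [tsum_eq_sum (s := hS.toFinset) fun t ht => if_neg fun h => ht (hS.mem_toFinset.2 h)]
  exact Finset.sum_congr rfl fun t ht => if_pos (hS.mem_toFinset.1 ht)

/-- the mass of a finite set of words -/
theorem gf_fin {S : Set (List Bool)} (hS : S.Finite) : gf S = ∑ t ∈ hS.toFinset, wE t := by
  classical
  have e : S = ((hS.toFinset : Finset (List Bool)) : Set (List Bool)) := by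
    ext t
    rw [Finset.mem_coe, hS.mem_toFinset]
  unfold gf
  conv_lhs => rw [e]
  exact Finset.tsum_subtype hS.toFinset wE

theorem gf_fin_ne_top {S : Set (List Bool)} (hS : S.Finite) : gf S ≠ ⊤ := by
  rw [gf_fin hS]
  exact (ENNReal.sum_lt_top.2 fun t _ => ENNReal.ofReal_lt_top).ne

theorem gf_BotS_ne_top (c K : ℕ) : gf (BotS c K) ≠ ⊤ := gf_fin_ne_top (BotS_fin c K)

end SLW

end HexObs
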