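import Pool.Agent.SLW.PubF

/-!
# Slow change, the question (helper90)

`lims_sparse`: a slowly changing sequence in a compact set converges as soon as, for every `η > 0`, it converges along some
sequence `φ → ∞` of indices with `φ (j + 1) ≤ (1 + η) φ j`. **`q1_sparse`**: this for the laws of the curves.
-/

set_option autoImplicit false

namespace NTSF

open Filter Topology MeasureTheory

/-- the last place before n -/
lemma last_place {φ : ℕ → ℕ} (hφ : Tendsto φ atTop atTop) (j0 : ℕ) {n : ℕ} (hn : φ j0 ≤ n) :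
    ∃ j : ℕ, j0 ≤ j ∧ φ j ≤ n ∧ n < φ (j + 1) := by
  classical
  obtain ⟨J, hJ⟩ := eventually_atTop.1 (hφ.eventually_gt_atTop n)
  have hex : ∃ i : ℕ, n < φ (j0 + i) := ⟨J, hJ _ (by omega)⟩
  obtain ⟨i, hi⟩ : ∃ i, i = Nat.find hex := ⟨_, rfl⟩
  have h1 : n < φ (j0 + i) := hi ▸ Nat.find_spec hex
  rcases Nat.eq_zero_or_pos i with h0 | h0
  · rw [h0, add_zero] at h1
    omega
  · have h2 : ¬ n < φ (j0 + (i - 1)) := Nat.find_min hex (by omega)
    refine ⟨j0 + (i - 1), by omega, not_lt.1 h2, ?_⟩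
    rw [show j0 + (i - 1) + 1 = j0 + i by omega]
    exact h1

theorem lims_sparse {X : Type*} [MetricSpace X] {x : ℕ → X} {K : Set X} (hK : IsCompact K) (hx : ∀ n, x n ∈ K)
    (hs : ∀ ε : ℝ, 0 < ε → ∃ δ : ℝ, 0 < δ ∧ ∀ n m : ℕ, 1 / δ ≤ n → (m : ℝ) ≤ δ * n → dist (x (n + m)) (x n) ≤ ε)
    (h : ∀ η : ℝ, 0 < η → ∃ φ : ℕ → ℕ, Tendsto φ atTop atTop ∧ (∀ᶠ j in atTop, (φ (j + 1) : ℝ) ≤ (1 + η) * φ j) ∧
      ∃ y, Tendsto (fun j => x (φ j)) atTop (𝓝 y)) : ∃ y, Tendsto x atTop (𝓝 y) := by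
  have key : ∀ ε : ℝ, 0 < ε → ∃ z : X, ∀ y ∈ Lims x, dist y z ≤ ε := by
    intro ε hε
    obtain ⟨δ, hδ, h1⟩ := hs ε hε
    obtain ⟨φ, hφ, hr, z, hz⟩ := h δ hδ
    obtain ⟨j1, hj1⟩ := eventually_atTop.1 hr
    refine ⟨z, ?_⟩
    rintro y ⟨θ, hθ, hy⟩
    -- the places
    have hex : ∀ n : ℕ, φ j1 ≤ n → ∃ j : ℕ, j1 ≤ j ∧ φ j ≤ n ∧ n < φ (j + 1) := fun n hn => last_place hφ j1 hn
    choose! j hj1' hj2 hj3 using hex
    have hjt : Tendsto (fun k => j (θ k)) atTop atTop := by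
      rw [tendsto_atTop_atTop]
      intro M
      obtain ⟨B, hB⟩ : ∃ B : ℕ, ∀ i, i ≤ M → φ i ≤ B := by
        refine ⟨(Finset.range (M + 1)).sup φ, fun i hi => ?_⟩
        exact Finset.le_sup (f := φ) (Finset.mem_range.2 (Nat.lt_succ_of_le hi))
      obtain ⟨k0, hk0⟩ := eventually_atTop.1
        ((hθ.tendsto_atTop.eventually_ge_atTop B).and (hθ.tendsto_atTop.eventually_ge_atTop (φ j1)))
      refine ⟨k0, fun k hk => ?_⟩
      obtain ⟨h4, h5⟩ := hk0 k hk
      by_contra hcon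
      push Not at hcon
      have h6 := hj3 (θ k) h5
      have h7 := hB (j (θ k) + 1) (by omega)
      omega
    have hev : ∀ᶠ k in atTop, dist (x (θ k)) (x (φ (j (θ k)))) ≤ ε := by
      have h2 : Tendsto (fun k => ((φ (j (θ k)) : ℕ) : ℝ)) atTop atTop := tendsto_natCast_atTop_atTop.comp (hφ.comp hjt)
      filter_upwards [h2.eventually_ge_atTop (1 / δ), hθ.tendsto_atTop.eventually_ge_atTop (φ j1)] with k h3 h4
      have a1 := hj1' (θ k) h4
      have a2 := hj2 (θ k) h4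
      have a3 := hj3 (θ k) h4
      obtain ⟨m, hm⟩ := Nat.exists_eq_add_of_le a2
      have a4 := hj1 _ a1
      have e : x (θ k) = x (φ (j (θ k)) + m) := by rw [← hm]
      rw [e]
      refine h1 _ m h3 ?_
      have a5 : (θ k : ℝ) < φ (j (θ k) + 1) := by exact_mod_cast a3
      have a6 : (θ k : ℝ) = φ (j (θ k)) + m := by exact_mod_cast hm
      nlinarith
    have h8 : Tendsto (fun k => dist (x (θ k)) (x (φ (j (θ k))))) atTop (𝓝 (dist y z)) := hy.dist (hz.comp hjt)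
    exact le_of_tendsto h8 hev
  have hsub : ∀ y ∈ Lims x, ∀ y' ∈ Lims x, y = y' := by
    intro y hy y' hy'
    by_contra hne
    have hd : 0 < dist y y' := dist_pos.2 hne
    obtain ⟨z, hz⟩ := key (dist y y' / 3) (by positivity)
    have h2 := hz y hy
    have h3 := hz y' hy'
    have h4 := dist_triangle_right y y' z
    linarith
  obtain ⟨y, hy⟩ := lims_nonempty hK hx
  refine ⟨y, tendsto_of_subseq_tendsto fun ns hns => ?_⟩
  obtain ⟨ψ, hψ, hns'⟩ := strictMono_subseq_of_tendsto_atTop hns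
  obtain ⟨z, -, θ, hθ, hlim⟩ := hK.tendsto_subseq (x := fun k => x (ns (ψ k))) (fun k => hx _)
  have hz : z = y := hsub z ⟨fun k => ns (ψ (θ k)), hns'.comp hθ, hlim⟩ y hy
  exact ⟨fun k => ψ (θ k), hz ▸ hlim⟩

namespace Mg

open HexObs hiding pos

open HexObs.TOG HexObs.OneS HexObs.SDN HexObs.TS HexObs.TIW

open Pool.Agent.NTS.Res

open scoped Classical

section

variable {m : ℕ → ℝ} (hS : SlowG m) (hlo : ∃ c : ℝ, 0 < c ∧ ∀ k : ℕ, c * (2 : ℝ) ^ (4 / 3 * (k : ℝ)) ≤ m k)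
  (hc : ∀ n, 0 < cS n) (hO : OneFacts) (h1 : OneSt)

include hS hlo hc hO h1

/-- **the laws converge iff they converge along sequences of step numbers with ratios arbitrarily near to one** -/
theorem q1_sparse : (∃ ν : ProbabilityMeasure C(unitInterval, ℂ), LawTo (fun n => n) (ν : Measure C(unitInterval, ℂ))) ↔
    ∀ η : ℝ, 0 < η → ∃ φ : ℕ → ℕ, Tendsto φ atTop atTop ∧ (∀ᶠ j in atTop, (φ (j + 1) : ℝ) ≤ (1 + η) * φ j) ∧
      ∃ ν : ProbabilityMeasure C(unitInterval, ℂ), LawTo φ (ν : Measure C(unitInterval, ℂ)) := by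
  have tr : ∀ φ : ℕ → ℕ, (∃ y, Tendsto (fun j => LevyProkhorov.ofMeasure (PM (φ j))) atTop (𝓝 y)) ↔
      ∃ ν : ProbabilityMeasure C(unitInterval, ℂ), LawTo φ (ν : Measure C(unitInterval, ℂ)) := by
    intro φ
    constructor
    · rintro ⟨y, hy⟩
      refine ⟨y.toMeasure, (lawTo_iff _).2 ?_⟩
      exact (LevyProkhorov.continuous_toMeasure_probabilityMeasure.tendsto y).comp hy
    · rintro ⟨ν, hν⟩
      exact ⟨_, (toLP_cont.tendsto ν).comp ((lawTo_iff ν).1 hν)⟩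
  constructor
  · intro h η hη
    refine ⟨fun n => n, tendsto_id, ?_, h⟩
    filter_upwards [eventually_ge_atTop ⌈1 / η⌉₊] with j hj
    have h2 : 1 / η ≤ j := (Nat.le_ceil _).trans (by exact_mod_cast hj)
    rw [div_le_iff₀ hη] at h2
    push_cast
    linarith
  · intro h
    obtain ⟨K, hK, hPK⟩ := exists_K hO
    have hK' : IsCompact (LevyProkhorov.ofMeasure '' K) := hK.image toLP_cont
    rw [← tr]
    refine lims_sparse (x := fun n => LevyProkhorov.ofMeasure (PM n)) hK' (fun n => Set.mem_image_of_mem _ (hPK n))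
      (fun ε hε => ?_) fun η hη => ?_
    · obtain ⟨δ, hδ, h2⟩ := slow_all hS hlo hc hO h1 hε
      exact ⟨δ, hδ, fun n k hn hk => (h2 n k hn hk).2.2⟩
    · obtain ⟨φ, a, b, d⟩ := h η hη
      exact ⟨φ, a, b, (tr φ).2 d⟩

/-- the public form -/
theorem slow_pub :
    (∀ ε : ℝ, 0 < ε → ∃ δ : ℝ, 0 < δ ∧ ∀ n m : ℕ, 1 / δ ≤ n → (m : ℝ) ≤ δ * n →
      |((saw (n + m)).card : ℝ) / (Real.sqrt (2 + Real.sqrt 2) ^ m * (saw n).card) - 1| ≤ ε ∧
      |size (n + m) / size n - 1| ≤ ε ∧ levyProkhorovDist (law (n + m)) (law n) ≤ ε) ∧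
    ((∃ ν : ProbabilityMeasure C(unitInterval, ℂ), LawTo (fun n => n) (ν : Measure C(unitInterval, ℂ))) ↔
      ∀ η : ℝ, 0 < η → ∃ φ : ℕ → ℕ, Tendsto φ atTop atTop ∧ (∀ᶠ j in atTop, (φ (j + 1) : ℝ) ≤ (1 + η) * φ j) ∧
        ∃ ν : ProbabilityMeasure C(unitInterval, ℂ), LawTo φ (ν : Measure C(unitInterval, ℂ))) ∧
    IsCompact WL ∧ IsConnected WL ∧
    ((∃ ν : ProbabilityMeasure C(unitInterval, ℂ), LawTo (fun n => n) (ν : Measure C(unitInterval, ℂ))) ∨
      ¬ WL.Countable) := by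
  refine ⟨fun ε hε => ?_, q1_sparse hS hlo hc hO h1, ?_, ?_, ?_⟩
  · obtain ⟨δ, hδ, h2⟩ := slow_all hS hlo hc hO h1 hε
    obtain ⟨d, hd⟩ : ∃ d : ℝ, d = min δ 1 := ⟨_, rfl⟩
    have hd0 : 0 < d := hd ▸ lt_min hδ one_pos
    refine ⟨d, hd0, fun n m hn hm => ?_⟩
    have k1 : 1 / δ ≤ n := le_trans (one_div_le_one_div_of_le hd0 (hd ▸ min_le_left _ _)) hn
    have k2 : (m : ℝ) ≤ δ * n := hm.trans (mul_le_mul_of_nonneg_right (hd ▸ min_le_left _ _) (Nat.cast_nonneg _))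
    have k3 : 1 ≤ n := by
      have : (1 : ℝ) ≤ n := by
        refine le_trans ?_ hn
        rw [le_div_iff₀ hd0, one_mul]
        exact hd ▸ min_le_right _ _
      exact_mod_cast this
    obtain ⟨a1, a2, a3⟩ := h2 n m k1 k2
    refine ⟨?_, a2, a3⟩
    have e : ((saw (n + m)).card : ℝ) / (Real.sqrt (2 + Real.sqrt 2) ^ m * (saw n).card) = rr n m := by
      have b1 := card_three (n := n) k3
      have b2 := card_three (n := n + m) (by omega)
      have b3 : (2 : ℝ) * (saw n).card = 3 * cS n := by exact_mod_cast b1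
      have b4 : (2 : ℝ) * (saw (n + m)).card = 3 * cS (n + m) := by exact_mod_cast b2
      have b5 : (0 : ℝ) < cS n := by exact_mod_cast hc n
      have b7 : ((saw n).card : ℝ) = 3 / 2 * cS n := by linarith
      have b8 : ((saw (n + m)).card : ℝ) = 3 / 2 * cS (n + m) := by linarith
      have hx := xc_pos
      rw [← xc_inv, b7, b8]
      unfold rr
      rw [div_pow, one_pow]
      field_simp
    rw [e]
    exact a1
  all_goals obtain ⟨K, hK, hPK⟩ := exists_K hO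
  · rw [← lims_PM]
    let _ : MetricSpace (ProbabilityMeasure C(unitInterval, ℂ)) := TopologicalSpace.metrizableSpaceMetric _
    exact lims_compact hK hPK
  · rw [← lims_PM]
    let _ : MetricSpace (ProbabilityMeasure C(unitInterval, ℂ)) := TopologicalSpace.metrizableSpaceMetric _
    exact lims_connected hK hPK h1.cur
  · let _ : MetricSpace (ProbabilityMeasure C(unitInterval, ℂ)) := TopologicalSpace.metrizableSpaceMetric _
    rcases lims_cases hK hPK h1.cur with ⟨y, hy⟩ | h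
    · left
      exact ⟨y, (lawTo_iff y).2 hy⟩
    · right
      rw [← lims_PM]
      exact h

end

end Mg

end NTSF
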