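import Pool.Agent.NTS.MergeZ
import Pool.Agent.SLW.Defs
import Pool.Agent.SLW.PubQ

/-!
# Slow change, the public side (helper90): from the literal `SLW.SlowF`
-/

set_option autoImplicit false

namespace NTSF

namespace Mg

open Finset MeasureTheory Filter Topology

open HexObs hiding pos

open HexObs.TOG HexObs.OneS HexObs.SDN HexObs.TS HexObs.TIW

open Pool.Agent.NTS.Res

open scoped Classical

/-- the literal of SLW -/
theorem slowG_of (h : HexObs.SLW.SlowF) : SlowG fun k => PW.mZ (2 ^ k) := by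
  intro ε hε
  obtain ⟨τ, hτ, h1⟩ := h ε hε
  refine ⟨τ, hτ, fun c1 => ?_⟩
  obtain ⟨c2, k0, h2⟩ := h1 c1
  refine ⟨c2, k0, fun k n r hk hn hr hrn F hF hF2 => ?_⟩
  have h3 := h2 k n r hk hn hr hrn F hF hF2
  rw [EF.sawF_eq, EF.sawF_eq] at h3
  exact h3

theorem oneSt : OneSt :=
  ⟨ratio_one cS_pos (softOut_ah niceSt) ratio2_M, (one_core (oneFacts finE) (softOut_ah niceSt) ratio2_M cS_pos).2,
    (one_core (oneFacts finE) (softOut_ah niceSt) ratio2_M cS_pos).1⟩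

/-- **slow change** from the literal -/
theorem slow_change_of (h : HexObs.SLW.SlowF) :
    (∀ ε : ℝ, 0 < ε → ∃ δ : ℝ, 0 < δ ∧ ∀ n m : ℕ, 1 / δ ≤ n → (m : ℝ) ≤ δ * n →
      |((saw (n + m)).card : ℝ) / (Real.sqrt (2 + Real.sqrt 2) ^ m * (saw n).card) - 1| ≤ ε ∧
      |size (n + m) / size n - 1| ≤ ε ∧ levyProkhorovDist (law (n + m)) (law n) ≤ ε) ∧
    ((∃ ν : ProbabilityMeasure C(unitInterval, ℂ), LawTo (fun n => n) (ν : Measure C(unitInterval, ℂ))) ↔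
      ∀ η : ℝ, 0 < η → ∃ φ : ℕ → ℕ, Tendsto φ atTop atTop ∧ (∀ᶠ j in atTop, (φ (j + 1) : ℝ) ≤ (1 + η) * φ j) ∧
        ∃ ν : ProbabilityMeasure C(unitInterval, ℂ), LawTo φ (ν : Measure C(unitInterval, ℂ))) ∧
    IsCompact WL ∧ IsConnected WL ∧
    ((∃ ν : ProbabilityMeasure C(unitInterval, ℂ), LawTo (fun n => n) (ν : Measure C(unitInterval, ℂ))) ∨
      ¬ WL.Countable) :=
  slow_pub (slowG_of h) (VF.mLow VF.sharpZ) cS_pos (oneFacts finE) oneSt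

/-- the counting part -/
theorem slow_count_of (h : HexObs.SLW.SlowF) : ∀ ε : ℝ, 0 < ε → ∃ δ : ℝ, 0 < δ ∧ ∀ n m : ℕ, 1 / δ ≤ n → (m : ℝ) ≤ δ * n →
    |((saw (n + m)).card : ℝ) / (Real.sqrt (2 + Real.sqrt 2) ^ m * (saw n).card) - 1| ≤ ε := by
  intro ε hε
  obtain ⟨δ, hδ, h1⟩ := (slow_change_of h).1 ε hε
  exact ⟨δ, hδ, fun n m hn hm => (h1 n m hn hm).1⟩

/-- the curves -/
theorem slow_curves_of (h : HexObs.SLW.SlowF) :
    (∀ ε : ℝ, 0 < ε → ∃ δ : ℝ, 0 < δ ∧ ∀ n m : ℕ, 1 / δ ≤ n → (m : ℝ) ≤ δ * n →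
      |size (n + m) / size n - 1| ≤ ε ∧ levyProkhorovDist (law (n + m)) (law n) ≤ ε) ∧
    ((∃ ν : ProbabilityMeasure C(unitInterval, ℂ), LawTo (fun n => n) (ν : Measure C(unitInterval, ℂ))) ↔
      ∀ η : ℝ, 0 < η → ∃ φ : ℕ → ℕ, Tendsto φ atTop atTop ∧ (∀ᶠ j in atTop, (φ (j + 1) : ℝ) ≤ (1 + η) * φ j) ∧
        ∃ ν : ProbabilityMeasure C(unitInterval, ℂ), LawTo φ (ν : Measure C(unitInterval, ℂ))) ∧
    IsCompact WL ∧ IsConnected WL ∧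
    ((∃ ν : ProbabilityMeasure C(unitInterval, ℂ), LawTo (fun n => n) (ν : Measure C(unitInterval, ℂ))) ∨
      ¬ WL.Countable) := by
  refine ⟨fun ε hε => ?_, (slow_change_of h).2⟩
  obtain ⟨δ, hδ, h1⟩ := (slow_change_of h).1 ε hε
  exact ⟨δ, hδ, fun n m hn hm => (h1 n m hn hm).2⟩

end Mg

end NTSF
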