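import Pool.Agent.SLW.SlowFin
import Pool.Agent.SLW.PubZ

/-!
# Slow change, no hypothesis (helper90)

`slow_count`: the numbers of the walks; `slow_curves`: the sizes and the laws of the curves.
-/

set_option autoImplicit false

namespace NTSF

namespace Mg

open Finset MeasureTheory Filter Topology

open HexObs hiding pos

open Pool.Agent.NTS.Res

open scoped Classical

/-- **the numbers of the walks change slowly** -/
theorem slow_count : ∀ ε : ℝ, 0 < ε → ∃ δ : ℝ, 0 < δ ∧ ∀ n m : ℕ, 1 / δ ≤ n → (m : ℝ) ≤ δ * n →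
    |((saw (n + m)).card : ℝ) / (Real.sqrt (2 + Real.sqrt 2) ^ m * (saw n).card) - 1| ≤ ε :=
  slow_count_of HexObs.SLW.slowF

/-- **the sizes and the laws of the curves change slowly** -/
theorem slow_curves :
    (∀ ε : ℝ, 0 < ε → ∃ δ : ℝ, 0 < δ ∧ ∀ n m : ℕ, 1 / δ ≤ n → (m : ℝ) ≤ δ * n →
      |size (n + m) / size n - 1| ≤ ε ∧ levyProkhorovDist (law (n + m)) (law n) ≤ ε) ∧
    ((∃ ν : ProbabilityMeasure C(unitInterval, ℂ), LawTo (fun n => n) (ν : Measure C(unitInterval, ℂ))) ↔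
      ∀ η : ℝ, 0 < η → ∃ φ : ℕ → ℕ, Tendsto φ atTop atTop ∧ (∀ᶠ j in atTop, (φ (j + 1) : ℝ) ≤ (1 + η) * φ j) ∧
        ∃ ν : ProbabilityMeasure C(unitInterval, ℂ), LawTo φ (ν : Measure C(unitInterval, ℂ))) ∧
    IsCompact WL ∧ IsConnected WL ∧
    ((∃ ν : ProbabilityMeasure C(unitInterval, ℂ), LawTo (fun n => n) (ν : Measure C(unitInterval, ℂ))) ∨
      ¬ WL.Countable) :=
  slow_curves_of HexObs.SLW.slowF

/-- **slow change** -/
theorem slow_change :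
    (∀ ε : ℝ, 0 < ε → ∃ δ : ℝ, 0 < δ ∧ ∀ n m : ℕ, 1 / δ ≤ n → (m : ℝ) ≤ δ * n →
      |((saw (n + m)).card : ℝ) / (Real.sqrt (2 + Real.sqrt 2) ^ m * (saw n).card) - 1| ≤ ε ∧
      |size (n + m) / size n - 1| ≤ ε ∧ levyProkhorovDist (law (n + m)) (law n) ≤ ε) ∧
    ((∃ ν : ProbabilityMeasure C(unitInterval, ℂ), LawTo (fun n => n) (ν : Measure C(unitInterval, ℂ))) ↔
      ∀ η : ℝ, 0 < η → ∃ φ : ℕ → ℕ, Tendsto φ atTop atTop ∧ (∀ᶠ j in atTop, (φ (j + 1) : ℝ) ≤ (1 + η) * φ j) ∧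
        ∃ ν : ProbabilityMeasure C(unitInterval, ℂ), LawTo φ (ν : Measure C(unitInterval, ℂ))) ∧
    IsCompact WL ∧ IsConnected WL ∧
    ((∃ ν : ProbabilityMeasure C(unitInterval, ℂ), LawTo (fun n => n) (ν : Measure C(unitInterval, ℂ))) ∨
      ¬ WL.Countable) :=
  slow_change_of HexObs.SLW.slowF

end Mg

end NTSF
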