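import Pool.Agent.SLW.ARegOf
import Pool.Agent.TPC.AN
import Pool.Agent.TPC.XUp
import Pool.Agent.TPC.XLow

/-!
SLW: the row AReg, no hypothesis (helpers 59, 90).
-/

set_option autoImplicit false

namespace HexObs

namespace SLW

theorem aReg : AReg := by
  obtain ⟨c, C, hc, -, h⟩ := TPC.an_const TPC.xUp TPC.xLow
  exact aReg_of hc h

end SLW

end HexObs
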