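import Pool.Agent.SLW.FpLenM
import Pool.Agent.EN.LatC

/-!
SLW, row S3, upper side: first cut pieces with a cut in [s / 2, s) and exactly b letters: weight at most C / m k.
-/

set_option autoImplicit false

namespace HexObs

namespace SLW

open Finset TS SDN NTW NTA PtC RP JNT

open scoped ENNReal

/-- first cut pieces with a cut in [s / 2, s), low, in a tube -/
def VC (s : ℕ) (D : ℝ) : Set (List Bool) :=
  {w | w ∈ FPs s ∧ hgt w ≤ 2 * s ∧ (∀ i, i ≤ w.length → |(lat w i : ℝ)| ≤ D) ∧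
    ∃ x y, w = x ++ y ∧ x ∈ BU ∧ y ∈ BU ∧ s ≤ 2 * hgt x ∧ hgt x < s}

/-- the last cut before s -/
lemma last_cut {s : ℕ} {D : ℝ} {w : List Bool} (hw : w ∈ VC s D) :
    ∃ (c : ℕ) (x P : List Bool), s ≤ 2 * c ∧ c < s ∧ x ∈ Brd c ∧ P ∈ EN.LB.Tp (s - c) ∧ w = x ++ P := by
  classical
  obtain ⟨⟨j, hj⟩, -, -, x0, y0, e0, ⟨c0, hx0⟩, ⟨d0, hy0⟩, h1, h2⟩ := hw
  rw [hgt_eq hx0] at h1 h2
  have hcut0 : Cut w c0 := ⟨x0, y0, d0, hx0, hy0, e0⟩
  obtain ⟨c, hc⟩ : ∃ c, c = Nat.findGreatest (fun c => Cut w c) (s - 1) := ⟨_, rfl⟩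
  have hge : c0 ≤ c := by
    rw [hc]
    exact Nat.le_findGreatest (by omega) hcut0
  have hle : c ≤ s - 1 := by
    rw [hc]
    exact Nat.findGreatest_le _
  have hcut : Cut w c := by
    rw [hc]
    exact Nat.findGreatest_spec (P := fun c => Cut w c) (m := c0) (by omega) hcut0
  have hmax : ∀ c', c < c' → c' < s → ¬ Cut w c' := by
    intro c' h3 h4 h5
    have := Nat.le_findGreatest (P := fun c => Cut w c) (n := s - 1) (m := c') (by omega) h5
    omega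
  obtain ⟨x, P, b, hx, hP, e⟩ := hcut
  have hjb : j = c + b := Brd_height hj.1 (e ▸ Brd_append hx hP)
  have hsj := hj.2.1
  refine ⟨c, x, P, by omega, by omega, hx, ⟨b, by omega, hP, ?_, ?_⟩, e⟩
  · rintro rfl
    have := Brd_height hP nil_mem_Brd
    omega
  · intro a' b' s' u' hs' hu' e'
    by_contra hcon
    rw [not_or] at hcon
    obtain ⟨n1, n2⟩ := hcon
    have ha : a' ≠ 0 := by
      rintro rfl
      rw [Brd_zero] at hs'
      exact n1 hs'
    have hb : b' ≠ 0 := by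
      rintro rfl
      rw [Brd_zero] at hu'
      exact n2 hu'
    have hab : b = a' + b' := Brd_height hP (e' ▸ Brd_append hs' hu')
    have hcut' : Cut w (c + a') := ⟨x ++ s', u', b', Brd_append hx hs', hu', by rw [e, e', List.append_assoc]⟩
    rcases Nat.lt_or_ge (c + a') s with h3 | h3
    · exact hmax (c + a') (by omega) h3 hcut'
    · exact hj.2.2 (c + a') h3 (by omega) hcut'

/-- **the upper bound**, every number of letters -/
theorem upLen_of {m : ℕ → ℝ} (hm : MLow m) (hu : MUp m) (hS : NaB.SingleB m) : ∀ (H : ℕ) (K : ℝ), 1 ≤ H → 1 ≤ K →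
    ∃ C : ℝ, 1 ≤ C ∧ ∀ k s b : ℕ, 1 ≤ k → H * 2 ^ k ≤ s → s ≤ 2 * (H * 2 ^ k) →
      gf {w | w ∈ VC s (K * 2 ^ k) ∧ w.length = b} ≤ ENNReal.ofReal (C / m k) := by
  intro H K hH hK
  obtain ⟨C, hC, hlam⟩ := FL.lam_up hm hS
  obtain ⟨Cm, hCm, hu⟩ := hu
  have hCW := Num2Aux.CW_pos
  have hK0 : 0 < K := by linarith
  have hCm0 : 0 < Cm := by linarith
  have hH0 : (1 : ℝ) ≤ H := by exact_mod_cast hH
  refine ⟨1 + 40 * K * C * (6 + CW) * H * Cm, by
    have : 0 ≤ 40 * K * C * (6 + CW) * H * Cm := by positivity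
    linarith, fun k s b hk hs1 hs2 => ?_⟩
  have hmk := hm.pos k
  have hmk1 := hm.pos (k - 1)
  have hk1 : k - 1 + 1 = k := by omega
  obtain ⟨X, hX⟩ : ∃ X : ℕ, X = ⌈K * 2 ^ k⌉₊ := ⟨_, rfl⟩
  have hX1 : K * 2 ^ k ≤ X := by
    rw [hX]
    exact Nat.le_ceil _
  have hX2 : (X : ℝ) ≤ K * 2 ^ k + 1 := by
    rw [hX]
    exact (Nat.ceil_lt_add_one (by positivity)).le
  have h2k : (1 : ℝ) ≤ K * 2 ^ k := one_le_mul_of_one_le_of_one_le hK (one_le_pow₀ (by norm_num))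
  obtain ⟨I, hI⟩ : ∃ I : Finset ℕ, I = (range s).filter (fun c => s ≤ 2 * c) := ⟨_, rfl⟩
  obtain ⟨W, hW⟩ : ∃ W : ℕ → Set (List Bool), W = fun c => {w | ∃ P ∈ EN.LB.Tp (s - c),
    ∃ x ∈ {x | x ∈ Brd c ∧ |latE x| ≤ (X : ℤ) ∧ x.length = b - P.length}, w = x ++ P} := ⟨_, rfl⟩
  have hcov : {w | w ∈ VC s (K * 2 ^ k) ∧ w.length = b} ⊆ ⋃ c ∈ I, W c := by
    rintro w ⟨hw, hb⟩
    obtain ⟨c, x, P, h1, h2, h3, h4, h5⟩ := last_cut hw
    rw [Set.mem_iUnion₂]
    refine ⟨c, by rw [hI]; exact mem_filter.2 ⟨Finset.mem_range.2 h2, h1⟩, ?_⟩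
    rw [hW]
    refine ⟨P, h4, x, ⟨h3, ?_, ?_⟩, h5⟩
    · have h6 := hw.2.2.1 x.length (by rw [h5, List.length_append]; omega)
      rw [h5, lat_append (by omega)] at h6
      have h7 : |(latE x : ℝ)| ≤ (X : ℝ) := h6.trans hX1
      exact_mod_cast h7
    · rw [← hb, h5, List.length_append]
      omega
  have hone : ∀ c ∈ I, gf (W c) ≤ ENNReal.ofReal (40 * K * C * (6 + CW) * H * Cm / m k * (uu c * KK' (s - c))) := by
    intro c hc
    rw [hI, mem_filter, Finset.mem_range] at hc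
    obtain ⟨hc1, hc2⟩ := hc
    have h2p : (2 : ℕ) ^ k = 2 * 2 ^ (k - 1) := by
      rw [← pow_succ', hk1]
    have hck : 2 ^ (k - 1) ≤ c := by
      have h3 : 2 ^ k ≤ H * 2 ^ k := Nat.le_mul_of_pos_left _ hH
      omega
    have h4 : gf (W c) ≤ gf (EN.LB.Tp (s - c)) *
        ENNReal.ofReal ((2 * X + 1) * (C * (Ub (k - 1) / (4 ^ (k - 1) * m (k - 1))))) := by
      rw [hW]
      exact EN.LB.gf_dep' (Q := fun P => {x | x ∈ Brd c ∧ |latE x| ≤ (X : ℤ) ∧ x.length = b - P.length})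
        (fun w hw => hw) fun P _ => hlam (k - 1) c (b - P.length) X hck
    refine h4.trans ?_
    have hUp := Ub_pos (k - 1)
    rw [EN.LB.gf_Tp, ← ENNReal.ofReal_mul (KK_nonneg _)]
    refine ENNReal.ofReal_le_ofReal ?_
    have hup := uu_pos c
    have hKK := KK_nonneg (s - c)
    have e1 : Ub (k - 1) ≤ (6 + CW) * (2 * (H * 2 ^ k)) * uu c := by
      have f1 : Ub (k - 1) ≤ UU c := UU_mono hck
      have f2 : UU c ≤ (6 + CW) * (c * uu c) := UU_le_mul (by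
        have := Nat.one_le_two_pow (n := k - 1)
        omega)
      have f3 : (c : ℝ) ≤ 2 * (H * 2 ^ k) := by
        have : c ≤ 2 * (H * 2 ^ k) := by omega
        exact_mod_cast this
      calc Ub (k - 1) ≤ (6 + CW) * (c * uu c) := f1.trans f2
        _ ≤ (6 + CW) * (2 * (H * 2 ^ k) * uu c) := by gcongr
        _ = _ := by ring
    have e2 : (2 * (X : ℝ) + 1) ≤ 5 * (K * 2 ^ k) := by linarith
    have e3 : (4 : ℝ) ^ k = 4 * 4 ^ (k - 1) := by
      rw [← pow_succ', hk1]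
    have e4 : m k ≤ Cm * m (k - 1) := by
      have := hu (k - 1)
      rwa [hk1] at this
    have e5 : (4 : ℝ) ^ k = 2 ^ k * 2 ^ k := by
      rw [← mul_pow]
      norm_num
    have e6 : 1 / (4 ^ (k - 1) * m (k - 1)) ≤ 4 * Cm / (4 ^ k * m k) := by
      rw [div_le_div_iff₀ (by positivity) (by positivity), e3]
      calc 1 * (4 * 4 ^ (k - 1) * m k) ≤ 1 * (4 * 4 ^ (k - 1) * (Cm * m (k - 1))) := by gcongr
        _ = 4 * Cm * (4 ^ (k - 1) * m (k - 1)) := by ring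
    have e7 : (2 * (X : ℝ) + 1) * (C * (Ub (k - 1) / (4 ^ (k - 1) * m (k - 1)))) ≤
        40 * K * C * (6 + CW) * H * Cm / m k * uu c := by
      calc (2 * (X : ℝ) + 1) * (C * (Ub (k - 1) / (4 ^ (k - 1) * m (k - 1))))
          = (2 * (X : ℝ) + 1) * (C * (Ub (k - 1) * (1 / (4 ^ (k - 1) * m (k - 1))))) := by ring
        _ ≤ (5 * (K * 2 ^ k)) * (C * (((6 + CW) * (2 * (H * 2 ^ k)) * uu c) * (4 * Cm / (4 ^ k * m k)))) := by gcongr
        _ = 40 * K * C * (6 + CW) * H * Cm / m k * uu c := by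
            rw [e5]
            field_simp
            ring
    calc KK' (s - c) * ((2 * (X : ℝ) + 1) * (C * (Ub (k - 1) / (4 ^ (k - 1) * m (k - 1)))))
        ≤ KK' (s - c) * (40 * K * C * (6 + CW) * H * Cm / m k * uu c) := mul_le_mul_of_nonneg_left e7 hKK
      _ = _ := by ring
  have hA : 0 ≤ 40 * K * C * (6 + CW) * H * Cm / m k := by positivity
  refine (gf_mono hcov).trans ((BAR.gf_bi_le _ _).trans ((Finset.sum_le_sum hone).trans ?_))
  rw [← ENNReal.ofReal_sum_of_nonneg (fun c _ => mul_nonneg hA (mul_nonneg (uu_pos c).le (KK_nonneg _))), ← Finset.mul_sum]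
  refine ENNReal.ofReal_le_ofReal ?_
  have hsum : ∑ c ∈ I, uu c * KK' (s - c) ≤ 1 := by
    have h1 : ∑ c ∈ I, uu c * KK' (s - c) ≤ ∑ c ∈ range s, uu c * KK' (s - c) := by
      rw [hI]
      exact Finset.sum_le_sum_of_subset_of_nonneg (Finset.filter_subset _ _) fun c _ _ =>
        mul_nonneg (uu_pos c).le (KK_nonneg _)
    rcases Nat.eq_zero_or_pos s with h0 | h0
    · rw [h0] at h1
      rw [h0]
      simp only [Finset.range_zero, Finset.sum_empty] at h1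
      linarith
    · have h2 := KK_renewal (s - 1)
      rw [show s - 1 + 1 = s by omega] at h2
      linarith
  calc 40 * K * C * (6 + CW) * H * Cm / m k * ∑ c ∈ I, uu c * KK' (s - c)
      ≤ 40 * K * C * (6 + CW) * H * Cm / m k * 1 := mul_le_mul_of_nonneg_left hsum hA
    _ ≤ (1 + 40 * K * C * (6 + CW) * H * Cm) / m k := by
        rw [mul_one, div_le_div_iff_of_pos_right hmk]
        linarith

/-- **the upper bound**, no hypothesis -/
theorem upLen : ∀ (H : ℕ) (K : ℝ), 1 ≤ H → 1 ≤ K → ∃ C : ℝ, 1 ≤ C ∧ ∀ k s b : ℕ, 1 ≤ k → H * 2 ^ k ≤ s →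
    s ≤ 2 * (H * 2 ^ k) → gf {w | w ∈ VC s (K * 2 ^ k) ∧ w.length = b} ≤ ENNReal.ofReal (C / PW.mZ (2 ^ k)) :=
  upLen_of mlow_M mup_M singleB_M

end SLW

end HexObs
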