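import Pool.Agent.SLW.ChainM
import Pool.Agent.SLW.UpLen

/-!
SLW, row S3: chains whose length law hardly sees a shift, no hypothesis.
-/

set_option autoImplicit false

namespace HexObs

namespace SLW

theorem upLenV : ChM.UpLenV := fun H K hH hK => by
  obtain ⟨C, hC, h⟩ := upLen H K hH hK
  exact ⟨C, 1, hC, h⟩

/-- **chains whose length law hardly sees a shift** -/
theorem chainSt : ChainSt := ChM.chainSt_of upLenV

end SLW

end HexObs
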