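import Pool.Agent.TIW.Mom2

/-!
# SLOW, S5: the second moment of the number of the cuts, exact n, uniform in the scale up to the macroscopic ones (helper77)

* `aS n` = number of the walks of `n` steps times `xc ^ n`; `AnMono C`: `aS n' ≤ C aS n` for `n' ≤ n`;
* `sq_count` : `∑ NP r t ^ 2` over the words with `n` letters is at most twelve times the number of the words `Z`, `t'`, cut of
  `t'`, `Z` a low bridge, `|Z| + |t'| = n`;
* **`mom1`, `mom2`** : `E_n [NP r] ≤ C' UU r`, `E_n [NP r ^ 2] ≤ (C' UU r) ^ 2`, `C' = 12 C`, every `n`, every `r`.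
No toggles, no lower bound for `n` in terms of `r`.
-/

set_option autoImplicit false

namespace HexObs

namespace SLW

open Finset TS SDN TIW

open scoped Classical

/-- the weighted number of the walks -/
noncomputable def aS (n : ℕ) : ℝ := (cS n : ℝ) * xc ^ n

/-- monotone up to a constant -/
def AnMono (C : ℝ) : Prop := ∀ n' n : ℕ, n' ≤ n → aS n' ≤ C * aS n

/-- low bridges -/
noncomputable def BZ (r : ℕ) : Finset (List Bool) := (HpF r).filter fun Z => Z ∈ BU ∧ 3 * (hgt Z : ℤ) < r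

lemma BZ_mass (r : ℕ) : ∑ Z ∈ BZ r, xc ^ Z.length ≤ UU r := by
  have h2 := TIP.gf_low r
  have h3 : gf (BZ r : Set (List Bool)) ≤ gf {V | V ∈ BU ∧ hgt V ≤ r} := by
    refine gf_mono fun Z hZ => ?_
    rw [Finset.mem_coe] at hZ
    unfold BZ at hZ
    rw [Finset.mem_filter] at hZ
    refine ⟨hZ.2.1, ?_⟩
    have := hZ.2.2
    omega
  rw [gf_finset] at h3
  exact (ENNReal.ofReal_le_ofReal_iff (Num2Aux.UU_pos r).le).1 (h3.trans h2)

lemma sawN_pre {n : ℕ} {A E : List Bool} (h : A ++ E ∈ SawN n) : A ∈ SA := by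
  refine ⟨fun _ _ _ => Set.mem_univ _, fun i k hik hk => ?_⟩
  have h1 := h.2.inj i k hik (by rw [List.length_append]; omega)
  rwa [vx_append (by omega), vx_append (by omega)] at h1

/-- removing a low bridge -/
lemma pairs_le (r n : ℕ) : ∑ t ∈ sawF n, ∑ k ∈ cu r t, (JJ r (t.drop k)).card ≤
    ∑ Z ∈ (BZ r).filter (fun Z => Z.length ≤ n), ∑ t ∈ sawF (n - Z.length), (cu r t).card := by
  have h1 : ∑ t ∈ sawF n, ∑ k ∈ cu r t, (JJ r (t.drop k)).card =
      ((sawF n).sigma fun t => (cu r t).sigma fun k => JJ r (t.drop k)).card := by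
    rw [Finset.card_sigma]
    exact Finset.sum_congr rfl fun t _ => (Finset.card_sigma _ _).symm
  have h2 : ∑ Z ∈ (BZ r).filter (fun Z => Z.length ≤ n), ∑ t ∈ sawF (n - Z.length), (cu r t).card =
      (((BZ r).filter (fun Z => Z.length ≤ n)).sigma fun Z => (sawF (n - Z.length)).sigma fun t => cu r t).card := by
    rw [Finset.card_sigma]
    exact Finset.sum_congr rfl fun Z _ => (Finset.card_sigma _ _).symm
  rw [h1, h2]
  refine Finset.card_le_card_of_injOn (fun x => ⟨(x.1.drop x.2.1).take x.2.2,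
    ⟨x.1.take x.2.1 ++ (x.1.drop x.2.1).drop x.2.2, x.2.1⟩⟩) ?_ ?_
  · rintro ⟨t, k, j⟩ hx
    rw [Finset.mem_coe, Finset.mem_sigma, Finset.mem_sigma] at hx
    obtain ⟨ht, hk, hj⟩ := hx
    simp only at ht hk hj
    rw [mem_sawF] at ht
    unfold cu at hk
    rw [Finset.mem_filter, Finset.mem_range] at hk
    unfold JJ at hj
    rw [Finset.mem_filter, Finset.mem_range, List.length_drop] at hj
    obtain ⟨hk1, hk2, hk3⟩ := hk
    obtain ⟨hj1, hj2, hj3, hj4⟩ := hj
    have hlen : t.length = n := ht.1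
    have e1 : (t.drop k).take j ++ (t.drop k).drop j = t.drop k := List.take_append_drop _ _
    have e2 : t.take k ++ t.drop k = t := List.take_append_drop _ _
    have hA : t.take k ∈ SA := sawN_pre (n := n) (E := t.drop k) (by rwa [e2])
    have hlk : (t.take k).length = k := by
      rw [List.length_take]
      omega
    rw [Finset.mem_coe, Finset.mem_sigma, Finset.mem_sigma, Finset.mem_filter]
    simp only
    have hZl : ((t.drop k).take j).length = j := by
      rw [List.length_take, List.length_drop]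
      omega
    refine ⟨⟨?_, ?_⟩, ?_, ?_⟩
    · unfold BZ
      rw [Finset.mem_filter, mem_HpF]
      exact ⟨Hp_pre (by rw [e1]; exact hk3), hj2, hj3⟩
    · omega
    · rw [mem_sawF, hZl]
      refine ⟨?_, fe_app hA hk2 hj4⟩
      rw [List.length_append, hlk, List.length_drop, List.length_drop]
      omega
    · unfold cu
      rw [Finset.mem_filter, Finset.mem_range, List.length_append, hlk]
      refine ⟨by omega, ?_, ?_⟩
      · rw [List.take_append_of_le_length hlk.ge, List.take_of_length_le hlk.le]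
        exact hk2
      · rw [List.drop_append_of_le_length hlk.ge, List.drop_of_length_le hlk.le, List.nil_append]
        exact hj4
  · rintro ⟨t, k, j⟩ hx ⟨t', k', j'⟩ hx' he
    rw [Finset.mem_coe, Finset.mem_sigma, Finset.mem_sigma] at hx hx'
    obtain ⟨ht, hk, hj⟩ := hx
    obtain ⟨ht', hk', hj'⟩ := hx'
    simp only at ht hk hj ht' hk' hj'
    unfold cu at hk hk'
    rw [Finset.mem_filter, Finset.mem_range] at hk hk'
    unfold JJ at hj hj'
    rw [Finset.mem_filter, Finset.mem_range, List.length_drop] at hj hj'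
    simp only [Sigma.mk.injEq, heq_eq_eq] at he
    obtain ⟨e1, e2, e3⟩ := he
    subst e3
    have hk1 := hk.1
    have hk1' := hk'.1
    have hj1 := hj.1
    have hj1' := hj'.1
    have e4 := congrArg List.length e1
    rw [List.length_take, List.length_take, List.length_drop, List.length_drop] at e4
    have e5 : j = j' := by omega
    subst e5
    have hl : (t.take k).length = (t'.take k).length := by
      rw [List.length_take, List.length_take]
      omega
    obtain ⟨e6, e7⟩ := List.append_inj e2 hl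
    have e8 : t = t' := by
      rw [← List.take_append_drop k t, ← List.take_append_drop k t', e6, ← List.take_append_drop j (t.drop k),
        ← List.take_append_drop j (t'.drop k), e1, e7]
    subst e8
    rfl

/-- the weighted sums -/
noncomputable def f1 (r n : ℕ) : ℝ := xc ^ n * ∑ t ∈ sawF n, NP r t
noncomputable def f2 (r n : ℕ) : ℝ := xc ^ n * ∑ t ∈ sawF n, NP r t ^ 2

lemma f1_nonneg (r n : ℕ) : 0 ≤ f1 r n :=
  mul_nonneg (pow_nonneg xc_pos.le _) (Finset.sum_nonneg fun _ _ => Nat.cast_nonneg _)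

/-- **removing a low bridge, weights** -/
theorem f2_le (r n : ℕ) {F : ℝ} (hF0 : 0 ≤ F) (hF : ∀ m, m ≤ n → f1 r m ≤ F) : f2 r n ≤ 12 * UU r * F := by
  have hx := xc_pos
  have h1 : ∑ t ∈ sawF n, NP r t ^ 2 ≤ 12 * ∑ Z ∈ (BZ r).filter (fun Z => Z.length ≤ n),
      ∑ t ∈ sawF (n - Z.length), NP r t := by
    have h2 : ∑ t ∈ sawF n, NP r t ^ 2 ≤ 12 * ((∑ t ∈ sawF n, ∑ k ∈ cu r t, (JJ r (t.drop k)).card : ℕ) : ℝ) := by
      push_cast
      rw [Finset.mul_sum]
      exact Finset.sum_le_sum fun t _ => np_sq r t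
    have h3 : ((∑ t ∈ sawF n, ∑ k ∈ cu r t, (JJ r (t.drop k)).card : ℕ) : ℝ) ≤
        ((∑ Z ∈ (BZ r).filter (fun Z => Z.length ≤ n), ∑ t ∈ sawF (n - Z.length), (cu r t).card : ℕ) : ℝ) := by
      exact_mod_cast pairs_le r n
    have h4 : ((∑ Z ∈ (BZ r).filter (fun Z => Z.length ≤ n), ∑ t ∈ sawF (n - Z.length), (cu r t).card : ℕ) : ℝ) =
        ∑ Z ∈ (BZ r).filter (fun Z => Z.length ≤ n), ∑ t ∈ sawF (n - Z.length), NP r t := by
      push_cast
      rfl
    rw [h4] at h3
    linarith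
  have h2 : f2 r n ≤ 12 * ∑ Z ∈ (BZ r).filter (fun Z => Z.length ≤ n), xc ^ Z.length * f1 r (n - Z.length) := by
    unfold f2
    have h3 : xc ^ n * ∑ t ∈ sawF n, NP r t ^ 2 ≤ xc ^ n * (12 * ∑ Z ∈ (BZ r).filter (fun Z => Z.length ≤ n),
      ∑ t ∈ sawF (n - Z.length), NP r t) := mul_le_mul_of_nonneg_left h1 (pow_nonneg hx.le _)
    refine h3.trans (le_of_eq ?_)
    rw [mul_left_comm, Finset.mul_sum]
    congr 1
    refine Finset.sum_congr rfl fun Z hZ => ?_
    have hZn : Z.length ≤ n := (Finset.mem_filter.1 hZ).2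
    unfold f1
    rw [← mul_assoc, ← pow_add, Nat.add_sub_cancel' hZn]
  have h3 : ∑ Z ∈ (BZ r).filter (fun Z => Z.length ≤ n), xc ^ Z.length * f1 r (n - Z.length) ≤ UU r * F := by
    calc _ ≤ ∑ Z ∈ (BZ r).filter (fun Z => Z.length ≤ n), xc ^ Z.length * F :=
          Finset.sum_le_sum fun Z _ => mul_le_mul_of_nonneg_left (hF _ (Nat.sub_le _ _)) (pow_nonneg hx.le _)
      _ ≤ ∑ Z ∈ BZ r, xc ^ Z.length * F :=
          Finset.sum_le_sum_of_subset_of_nonneg (Finset.filter_subset _ _) fun Z _ _ =>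
            mul_nonneg (pow_nonneg hx.le _) hF0
      _ = (∑ Z ∈ BZ r, xc ^ Z.length) * F := by rw [Finset.sum_mul]
      _ ≤ _ := mul_le_mul_of_nonneg_right (BZ_mass r) hF0
  linarith

lemma card_sawF' (n : ℕ) : (sawF n).card = cS n := by
  unfold sawF cS
  exact (Set.ncard_eq_toFinset_card _ (sawN_fin n)).symm

/-- Cauchy-Schwarz -/
lemma f1_sq (r n : ℕ) : f1 r n ^ 2 ≤ aS n * f2 r n := by
  have h1 : (∑ t ∈ sawF n, NP r t) ^ 2 ≤ (sawF n).card * ∑ t ∈ sawF n, NP r t ^ 2 := sq_sum_le_card_mul_sum_sq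
  rw [card_sawF'] at h1
  unfold f1 f2 aS
  have hx := xc_pos
  calc _ = (xc ^ n) ^ 2 * (∑ t ∈ sawF n, NP r t) ^ 2 := by ring
    _ ≤ (xc ^ n) ^ 2 * (cS n * ∑ t ∈ sawF n, NP r t ^ 2) := mul_le_mul_of_nonneg_left h1 (by positivity)
    _ = _ := by ring

/-- **first moment**, weights -/
theorem f1_le {C : ℝ} (hC : AnMono C) (hC0 : 0 ≤ C) (r n : ℕ) : f1 r n ≤ 12 * C * UU r * aS n := by
  have hU := (Num2Aux.UU_pos r).le
  have hx := xc_pos
  have ha : ∀ m, 0 ≤ aS m := fun m => mul_nonneg (Nat.cast_nonneg _) (pow_nonneg hx.le _)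
  obtain ⟨m, hm, hmax⟩ := Finset.exists_max_image (range (n + 1)) (fun m => f1 r m) ⟨0, by simp⟩
  rw [Finset.mem_range] at hm
  have h1 : f2 r m ≤ 12 * UU r * f1 r m := f2_le r m (f1_nonneg r m) fun m' hm' => hmax m' (by
    rw [Finset.mem_range]
    omega)
  have h2 := f1_sq r m
  have h3 : f1 r m ^ 2 ≤ (C * aS n) * (12 * UU r * f1 r m) := by
    refine h2.trans ?_
    have hf2 : 0 ≤ f2 r m := mul_nonneg (pow_nonneg hx.le _) (Finset.sum_nonneg fun t _ => sq_nonneg _)
    exact mul_le_mul (hC m n (by omega)) h1 hf2 (mul_nonneg hC0 (ha n))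
  have h4 : f1 r n ≤ f1 r m := hmax n (by simp)
  have h5 : 0 ≤ 12 * C * UU r * aS n := by
    have := ha n
    positivity
  rcases (f1_nonneg r m).eq_or_lt with h0 | h0
  · rw [← h0] at h4
    linarith
  · have h6 : f1 r m * f1 r m ≤ (12 * C * UU r * aS n) * f1 r m := by nlinarith
    exact h4.trans (le_of_mul_le_mul_right h6 h0)

/-- **second moment**, weights -/
theorem f2_le' {C : ℝ} (hC : AnMono C) (hC0 : 0 ≤ C) (r n : ℕ) : f2 r n ≤ (12 * C * UU r) * (12 * C * UU r) * aS n := by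
  have hU := (Num2Aux.UU_pos r).le
  have hx := xc_pos
  have ha : ∀ m, 0 ≤ aS m := fun m => mul_nonneg (Nat.cast_nonneg _) (pow_nonneg hx.le _)
  have h1 : ∀ m, m ≤ n → f1 r m ≤ 12 * C * UU r * (C * aS n) := fun m hm =>
    (f1_le hC hC0 r m).trans (mul_le_mul_of_nonneg_left (hC m n hm) (by positivity))
  have h2 : 0 ≤ 12 * C * UU r * (C * aS n) := by
    have := ha n
    positivity
  refine (f2_le r n h2 h1).trans (le_of_eq ?_)
  ring

/-- **the mean number of the cuts** -/
theorem mom1 {C : ℝ} (hC : AnMono C) (hC0 : 0 ≤ C) (r n : ℕ) : ∑ t ∈ sawF n, (1 / cS n : ℝ) * NP r t ≤ 12 * C * UU r := by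
  have hU := (Num2Aux.UU_pos r).le
  have hx := pow_pos xc_pos n
  rw [← Finset.mul_sum]
  rcases Nat.eq_zero_or_pos (cS n) with h0 | h0
  · rw [h0]
    simp only [Nat.cast_zero, div_zero, zero_mul]
    positivity
  · have hc : (0 : ℝ) < cS n := by exact_mod_cast h0
    have h1 := f1_le hC hC0 r n
    unfold f1 aS at h1
    have h2 : ∑ t ∈ sawF n, NP r t ≤ 12 * C * UU r * cS n := by
      refine le_of_mul_le_mul_left ?_ hx
      linarith
    rw [one_div, inv_mul_le_iff₀ hc]
    linarith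

/-- **the second moment of the number of the cuts** -/
theorem mom2 {C : ℝ} (hC : AnMono C) (hC0 : 0 ≤ C) (r n : ℕ) :
    ∑ t ∈ sawF n, (1 / cS n : ℝ) * NP r t ^ 2 ≤ (12 * C * UU r) ^ 2 := by
  have hx := pow_pos xc_pos n
  rw [← Finset.mul_sum]
  rcases Nat.eq_zero_or_pos (cS n) with h0 | h0
  · rw [h0]
    simp only [Nat.cast_zero, div_zero, zero_mul]
    positivity
  · have hc : (0 : ℝ) < cS n := by exact_mod_cast h0
    have h1 := f2_le' hC hC0 r n
    unfold f2 aS at h1
    have h2 : ∑ t ∈ sawF n, NP r t ^ 2 ≤ (12 * C * UU r) ^ 2 * cS n := by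
      refine le_of_mul_le_mul_left ?_ hx
      linarith
    rw [one_div, inv_mul_le_iff₀ hc]
    linarith

end SLW

end HexObs
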