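import Pool.Agent.SLW.Defs
import Pool.Agent.SLW.Mom

/-!
# SLOW, S5a: `momU : AReg → MomU` (helper77)
-/

set_option autoImplicit false

namespace HexObs

namespace SLW

open Finset TS SDN TIW

open scoped Classical

theorem momU (h : AReg) : MomU := by
  obtain ⟨C, hC, h1, -⟩ := h
  have hA : AnMono C := h1
  refine ⟨12 * C, by positivity, fun l n => ?_⟩
  have h2 := f2_le' hA hC.le (2 ^ l) n
  unfold f2 aS at h2
  rw [Finset.mul_sum] at h2
  refine h2.trans (le_of_eq ?_)
  unfold Ub
  ring

end SLW

end HexObs
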