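import Pool.Agent.SLW.ConvId
import Pool.Agent.SLW.MomU

/-!
SLW, S5b: first moment of the weight against the mass of the chains, second moment of the number of the decompositions.
-/

set_option autoImplicit false

namespace HexObs

namespace SLW

open Finset TS SDN TIW

lemma card_sawF (n : ℕ) : ((sawF n).card : ℝ) = cS n := by
  unfold sawF cS
  rw [Set.ncard_eq_toFinset_card _ (sawN_fin n)]

lemma sum_one (n : ℕ) : ∑ _t ∈ sawF n, xc ^ n = cS n * xc ^ n := by
  rw [sum_const, nsmul_eq_mul, card_sawF]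

lemma Fe_anti {r s : ℕ} (h : r ≤ s) : Fe s ⊆ Fe r := fun _ hA i hi hp => le_trans (by exact_mod_cast h) (hA i hi hp)

/-- first moment of the number of the cuts -/
lemma np_one {C : ℝ} (hC : 0 < C)
    (h : ∀ l n : ℕ, ∑ t ∈ sawF n, xc ^ n * NP (2 ^ l) t ^ 2 ≤ (C * Ub l) ^ 2 * (cS n * xc ^ n)) (l n : ℕ) :
    ∑ t ∈ sawF n, xc ^ n * NP (2 ^ l) t ≤ C * Ub l * (cS n * xc ^ n) := by
  obtain ⟨a, ha⟩ : ∃ a, a = C * Ub l := ⟨_, rfl⟩
  have ha0 : 0 < a := by
    rw [ha]
    exact mul_pos hC (Ub_pos l)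
  have h2 := h l n
  rw [← ha] at h2 ⊢
  have h1 : ∀ t, xc ^ n * NP (2 ^ l) t ≤ 1 / (2 * a) * (xc ^ n * NP (2 ^ l) t ^ 2) + a / 2 * xc ^ n := by
    intro t
    have hx : 0 ≤ xc ^ n := pow_nonneg xc_pos.le _
    have e : 1 / (2 * a) * (xc ^ n * NP (2 ^ l) t ^ 2) + a / 2 * xc ^ n - xc ^ n * NP (2 ^ l) t =
        1 / (2 * a) * xc ^ n * (NP (2 ^ l) t - a) ^ 2 := by
      field_simp
      ring
    have e2 : 0 ≤ 1 / (2 * a) * xc ^ n * (NP (2 ^ l) t - a) ^ 2 := by positivity
    linarith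
  calc ∑ t ∈ sawF n, xc ^ n * NP (2 ^ l) t
      ≤ ∑ t ∈ sawF n, (1 / (2 * a) * (xc ^ n * NP (2 ^ l) t ^ 2) + a / 2 * xc ^ n) := sum_le_sum fun t _ => h1 t
    _ = 1 / (2 * a) * ∑ t ∈ sawF n, xc ^ n * NP (2 ^ l) t ^ 2 + a / 2 * (cS n * xc ^ n) := by
        have e1 : ∑ _t ∈ sawF n, a / 2 * xc ^ n = a / 2 * (cS n * xc ^ n) := by rw [← mul_sum, sum_one]
        rw [sum_add_distrib, e1, mul_sum]
    _ ≤ 1 / (2 * a) * (a ^ 2 * (cS n * xc ^ n)) + a / 2 * (cS n * xc ^ n) := by
        have : 0 ≤ 1 / (2 * a) := by positivity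
        gcongr
    _ = a * (cS n * xc ^ n) := by
        field_simp
        ring

/-- far part and end without the chain -/
lemma pair_le (l m : ℕ) : cv (kF l fun _ => 1) (eL l) m ≤ ∑ t ∈ sawF m, xc ^ m * NP (2 ^ l) t := by
  classical
  have key := congrFun (mS_cv (fun A => TIP.ind (A ∈ Fe (4 * 2 ^ l)) * (fun _ => (1 : ℝ)) A)
    (fun E => TIP.ind (E ∈ Hp (2 ^ l)) * chi (2 ^ l) E) (by
      intro A E h1 h2 h3
      have i1 : A ∈ Fe (4 * 2 ^ l) := by
        by_contra h
        exact h1 (by rw [TIP.ind_neg h, zero_mul])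
      have i3 : E ∈ Hp (2 ^ l) := by
        by_contra h
        exact h2 (by rw [TIP.ind_neg h, zero_mul])
      exact glue_SA (by omega : 2 ^ l ≤ 4 * 2 ^ l) h3 i1 i3)) m
  rw [kF_mS, eL_mW, cv_comm] at key
  rw [← key]
  unfold mS
  rw [mul_sum]
  refine sum_le_sum fun t ht => mul_le_mul_of_nonneg_left ?_ (pow_nonneg xc_pos.le _)
  unfold NP cu
  rw [card_filter]
  push_cast
  refine sum_le_sum fun k hk => ?_
  by_cases h1 : t.take k ∈ Fe (4 * 2 ^ l)
  · by_cases h3 : t.drop k ∈ Hp (2 ^ l)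
    · rw [if_pos ⟨Fe_anti (by omega : 2 * 2 ^ l ≤ 4 * 2 ^ l) h1, h3⟩, TIP.ind_pos h1, TIP.ind_pos h3, one_mul, one_mul,
        one_mul]
      exact chi_le _ _
    · rw [TIP.ind_neg h3, zero_mul, mul_zero]
      split_ifs <;> norm_num
  · rw [TIP.ind_neg h1, zero_mul, zero_mul]
    split_ifs <;> norm_num

/-- the parts behind the far part -/
lemma drop_eq {t : List Bool} {i j : ℕ} (h : i ≤ j) : t.drop i = (t.take j).drop i ++ t.drop j := by
  rw [List.drop_take]
  have h1 : t.drop j = (t.drop i).drop (j - i) := by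
    rw [List.drop_drop]
    congr 1
    omega
  rw [h1, List.take_append_drop]

/-- the number of the decompositions is at most the number of the cuts of the next scale -/
lemma nq_le {l : ℕ} {Ch : Set (List Bool)} (hC : Chn l Ch) (t : List Bool) : NQ l Ch t ≤ NP (2 ^ (l + 1)) t := by
  classical
  unfold NQ NP
  have h : (((range (t.length + 1)) ×ˢ (range (t.length + 1))).filter (fun p => Dc l Ch t p.1 p.2)).card ≤
      (cu (2 ^ (l + 1)) t).card := by
    refine card_le_card_of_injOn (fun p => p.1) ?_ ?_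
    · rintro ⟨i, j⟩ hp
      rw [Finset.mem_coe, mem_filter, mem_product] at hp
      obtain ⟨⟨hi, hj⟩, h1, h2, h3, h4⟩ := hp
      rw [Finset.mem_coe]
      unfold cu
      rw [mem_filter]
      refine ⟨hi, ?_, ?_⟩
      · have e : 2 * 2 ^ (l + 1) = 4 * 2 ^ l := by ring
        rw [e]
        exact h2
      · have e : 2 ^ (l + 1) = 2 * 2 ^ l := by ring
        rw [e]
        show t.drop i ∈ Hp (2 * 2 ^ l)
        rw [drop_eq h1]
        exact bu_hp (hC.bu h3) (by
          intro k hk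
          have := hC.size _ h3 k hk
          push_cast
          exact this) h4
    · rintro ⟨i, j⟩ hp ⟨i', j'⟩ hp' he
      simp only at he
      subst he
      rw [Finset.mem_coe, mem_filter, mem_product] at hp hp'
      obtain ⟨⟨hi, hj⟩, h1, h2, h3, h4⟩ := hp
      obtain ⟨⟨hi', hj'⟩, h1', h2', h3', h4'⟩ := hp'
      simp only [mem_range] at hi hj hj' h1 h1' h3 h3' h4 h4'
      have e := hC.uniq _ h3 _ h3' _ _ h4.1 h4'.1 (by rw [← drop_eq h1, ← drop_eq h1'])
      have e2 := congrArg List.length e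
      rw [List.length_drop, List.length_drop, List.length_take, List.length_take] at e2
      have e3 : j = j' := by omega
      rw [e3]
  exact_mod_cast h

/-- **S5b** -/
theorem momV (hM : MomU) (hA : AReg) : MomV := by
  obtain ⟨C, hC, hM⟩ := hM
  obtain ⟨C', hC', hA, -⟩ := hA
  refine ⟨C * (C' + 2), by positivity, fun l n Ch B hCh hB => ⟨?_, ?_⟩⟩
  · have hv0 : ∀ b, 0 ≤ vL Ch b := by
      intro b
      unfold vL
      have := pow_nonneg xc_pos.le b
      positivity
    have hU := Ub_pos l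
    have hG : 0 ≤ (cS n : ℝ) * xc ^ n := mul_nonneg (Nat.cast_nonneg _) (pow_nonneg xc_pos.le _)
    have h1 : ∑ t ∈ sawF n, xc ^ n * N1 l Ch t = cv (cv (kF l fun _ => 1) (eL l)) (vL Ch) n := convId l Ch (fun _ => 1) n hCh
    rw [h1]
    unfold cv
    have h2 : ∀ b ∈ range (n + 1), vL Ch b * cv (kF l fun _ => 1) (eL l) (n - b) ≤
        vL Ch b * (C * C' * Ub l * (cS n * xc ^ n)) := by
      intro b hb
      refine mul_le_mul_of_nonneg_left ?_ (hv0 b)
      refine (pair_le l (n - b)).trans ((np_one hC hM l (n - b)).trans ?_)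
      have h3 := hA (n - b) n (Nat.sub_le _ _)
      calc C * Ub l * (cS (n - b) * xc ^ (n - b)) ≤ C * Ub l * (C' * (cS n * xc ^ n)) := by gcongr
        _ = C * C' * Ub l * (cS n * xc ^ n) := by ring
    have h4 : ∑ b ∈ range (n + 1), vL Ch b ≤ ∑ b ∈ range (B + 1), vL Ch b := by
      rw [← sum_subset (s₁ := (range (n + 1)).filter fun b => b ≤ B) (s₂ := range (n + 1)) (filter_subset _ _)]
      · refine sum_le_sum_of_subset_of_nonneg ?_ fun b _ _ => hv0 b
        intro b hb
        rw [mem_filter] at hb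
        rw [mem_range]
        omega
      · intro b hb hb'
        have hbB : B < b := by
          rw [mem_filter] at hb'
          by_contra h
          exact hb' ⟨hb, by omega⟩
        unfold vL
        have e : {V | V ∈ Ch ∧ V.length = b} = ∅ := by
          ext V
          refine ⟨fun h => ?_, fun h => absurd h (Set.notMem_empty _)⟩
          have := hB V h.1
          have := h.2
          omega
        rw [e, Set.ncard_empty, Nat.cast_zero, zero_mul]
    refine (sum_le_sum h2).trans ?_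
    rw [← sum_mul]
    have h5 : 0 ≤ ∑ b ∈ range (B + 1), vL Ch b := sum_nonneg fun b _ => hv0 b
    calc (∑ b ∈ range (n + 1), vL Ch b) * (C * C' * Ub l * (cS n * xc ^ n))
        ≤ (∑ b ∈ range (B + 1), vL Ch b) * (C * (C' + 2) * Ub l * (cS n * xc ^ n)) := by
          have h6 : C * C' ≤ C * (C' + 2) := mul_le_mul_of_nonneg_left (by linarith) hC.le
          have h7 : C * C' * Ub l ≤ C * (C' + 2) * Ub l := mul_le_mul_of_nonneg_right h6 hU.le
          have h8 : C * C' * Ub l * (cS n * xc ^ n) ≤ C * (C' + 2) * Ub l * (cS n * xc ^ n) :=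
            mul_le_mul_of_nonneg_right h7 hG
          have h9 : 0 ≤ C * C' * Ub l * (cS n * xc ^ n) := by positivity
          exact mul_le_mul h4 h8 h9 h5
      _ = C * (C' + 2) * (∑ b ∈ range (B + 1), vL Ch b) * Ub l * (cS n * xc ^ n) := by ring
  · have hU := Ub_pos l
    have hG : 0 ≤ (cS n : ℝ) * xc ^ n := mul_nonneg (Nat.cast_nonneg _) (pow_nonneg xc_pos.le _)
    have h1 : ∀ t, xc ^ n * NQ l Ch t ^ 2 ≤ xc ^ n * NP (2 ^ (l + 1)) t ^ 2 := by
      intro t
      have h0 : 0 ≤ NQ l Ch t := by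
        unfold NQ
        positivity
      exact mul_le_mul_of_nonneg_left (pow_le_pow_left₀ h0 (nq_le hCh t) 2) (pow_nonneg xc_pos.le _)
    refine (sum_le_sum fun t _ => h1 t).trans ((hM (l + 1) n).trans ?_)
    refine mul_le_mul_of_nonneg_right ?_ hG
    have h2 := Ub_succ l
    have h3 := Ub_pos (l + 1)
    refine pow_le_pow_left₀ (by positivity) ?_ 2
    calc C * Ub (l + 1) ≤ C * (2 * Ub l) := by gcongr
      _ = C * 2 * Ub l := by ring
      _ ≤ C * (C' + 2) * Ub l :=
          mul_le_mul_of_nonneg_right (mul_le_mul_of_nonneg_left (by linarith) hC.le) hU.le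

/-- **S5b**, from the numbers c_n mu^(-n) only -/
theorem momV_of (hA : AReg) : MomV := momV (momU hA) hA

end SLW

end HexObs
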