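import Pool.Agent.SLW.StripB

/-!
SLW, B6: the double counting at the tip for right parts, from the strip event (helper44).
-/

set_option autoImplicit false

namespace HexObs

namespace SLW

open Finset TS SDN HexObs.SIM NTA

open scoped ENNReal

namespace ExBP

open TIP in
/-- a decomposition near the tip: the far part is in PB -/
lemma pb_of {c K b D w : ℕ} {R A Y : List Bool} (hR : R ∈ BotS c K) (hst : ¬ StB c w R) (hRA : R = A ++ Y) (hY : In D Y)
    (hw : 3 * 2 ^ (b + 1) + 12 * D ≤ w) (hc : 1 ≤ c) (hD : 2 * D < 2 ^ (c - 1)) : A ∈ PB (c - 1) K b := by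
  classical
  obtain ⟨hRW, a0, ha0, hlev0, hpos⟩ := hR
  have hD0 : (0 : ℤ) ≤ D := Int.natCast_nonneg D
  have hRRc : RR c = RR (c - 1) + 3 * 2 ^ (c - 1) := by
    unfold RR
    have h1 : (2 : ℤ) ^ c = 2 * 2 ^ (c - 1) := by
      rw [← pow_succ']
      congr 1
      omega
    rw [h1]
    ring
  have hDz : (2 * D : ℤ) < 2 ^ (c - 1) := by exact_mod_cast hD
  have hex : ∃ i, RR (c - 1) ≤ lev R i := ⟨a0, by
    have : (0 : ℤ) < 2 ^ (c - 1) := by positivity
    linarith⟩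
  obtain ⟨a, ha, hmin⟩ : ∃ a, RR (c - 1) ≤ lev R a ∧ ∀ i, i < a → lev R i < RR (c - 1) :=
    ⟨Nat.find hex, Nat.find_spec hex, fun i hi => not_le.1 (Nat.find_min hex hi)⟩
  have haa0 : a ≤ a0 := by
    by_contra hcon
    have h1 := hmin a0 (by omega)
    have : (0 : ℤ) < 2 ^ (c - 1) := by positivity
    linarith
  have hlen : R.length = A.length + Y.length := by rw [hRA, List.length_append]
  -- levels behind A
  have hbeh : ∀ l, l ≤ Y.length → |ip (vx oo up R (A.length + l) - tipv A) up| ≤ 6 * (D : ℤ) ∧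
      ∀ d ∈ dirs, |ip (vx oo up R (A.length + l) - tipv A) d| ≤ 6 * (D : ℤ) := by
    intro l hl
    have h11 : vx oo up R (A.length + l) - tipv A = mulE (rotTo up (tipd A)) (vx oo up Y l) := by
      rw [hRA, vx_general]
      unfold tipv tipd
      abel
    have h12 := hY l hl
    obtain ⟨h13, h14⟩ := h12
    have z1 : (oo : Pt).1 = 0 := rfl
    have z2 : (oo : Pt).2 = 0 := rfl
    rw [z1, sub_zero] at h13
    rw [z2, sub_zero] at h14
    obtain ⟨h15, h16⟩ := NgC.coord_rot (frame_dir (tipd_mem A)).1 h13 h14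
    have h17 : ∀ d ∈ dirs, |ip (vx oo up R (A.length + l) - tipv A) d| ≤ 6 * (D : ℤ) := fun d hd => by
      rw [h11]
      have h18 := NgU.ip_le hd h15 h16
      linarith
    exact ⟨h17 up upd, h17⟩
  have haA : a ≤ A.length := by
    by_contra hcon
    obtain ⟨l, hl⟩ : ∃ l, a0 = A.length + l := ⟨a0 - A.length, by omega⟩
    have h1 := (hbeh l (by omega)).1
    rw [← hl, ip_sub_left] at h1
    have h2 := hmin A.length (by omega)
    have h3 : ip (tipv A) up = lev R A.length := by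
      have h5 : vx oo up R A.length = vx oo up A A.length := by
        rw [hRA]
        exact vx_append (by omega)
      unfold lev TIP.tipv
      rw [h5]
    have h4 : lev R a0 = ip (vx oo up R a0) up := rfl
    rw [abs_le] at h1
    rw [h3, ← h4] at h1
    linarith [h1.1, h1.2]
  have hlA : ∀ i, i ≤ A.length → lev A i = lev R i := fun i hi => by
    rw [hRA]
    exact (lev_append (by omega)).symm
  have hAW : A ∈ WL K := by
    refine ⟨?_, fun i hi dir => ?_⟩
    · have := SA_take hRW.1 A.length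
      rw [hRA, List.take_left' rfl] at this
      exact this
    · have := hRW.2 i (by rw [hRA, List.length_append]; omega) dir
      rwa [hRA, vx_append (by omega)] at this
  by_contra hnot
  have hband : ∀ i, a ≤ i → i ≤ A.length →
      lv (TIP.fr A (vx oo up A i)) ≤ 0 ∧ -(3 * 2 ^ (b + 1)) ≤ lv (TIP.fr A (vx oo up A i)) := by
    intro i hi1 hi2
    by_contra hc2
    refine hnot ⟨hAW, a, i, hi1, hi2, by rw [hlA a haA]; exact ha, fun j h1 h2 => ?_, ?_⟩
    · rw [hlA j (by omega)]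
      exact hpos j h1 (by omega)
    · by_cases h8 : 0 < lv (TIP.fr A (vx oo up A i))
      · exact Or.inl h8
      · right
        by_contra h9
        exact hc2 ⟨not_lt.1 h8, not_lt.1 h9⟩
  refine hst ⟨tipd A, tipd_mem A, a, by omega, hmin, fun j hj1 hj2 => ?_⟩
  have hwz : (3 * 2 ^ (b + 1) + 12 * D : ℤ) ≤ w := by exact_mod_cast hw
  have ht1 : |ip (tipv R - tipv A) (tipd A)| ≤ 6 * (D : ℤ) := by
    have h1 := (hbeh Y.length le_rfl).2 (tipd A) (tipd_mem A)
    rw [← hlen] at h1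
    exact h1
  have hsp : ∀ p : Pt, ip (p - tipv R) (tipd A) = ip (p - tipv A) (tipd A) - ip (tipv R - tipv A) (tipd A) := by
    intro p
    have : p - tipv A = (p - tipv R) + (tipv R - tipv A) := by abel
    rw [this, ip_add_left]
    ring
  rw [hsp, abs_le]
  rw [abs_le] at ht1
  have hp2 : (0 : ℤ) ≤ 2 ^ (b + 1) := by positivity
  rcases Nat.lt_or_ge A.length j with h10 | h10
  · obtain ⟨l, rfl⟩ : ∃ l, j = A.length + l := ⟨j - A.length, by omega⟩
    have h17 := (hbeh l (by omega)).2 (tipd A) (tipd_mem A)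
    rw [abs_le] at h17
    constructor <;> linarith [h17.1, h17.2, ht1.1, ht1.2]
  · obtain ⟨h11, h12⟩ := hband j hj1 h10
    have h13 := NgU.lv_fr A (vx oo up A j)
    have h14 : vx oo up R j = vx oo up A j := by
      rw [hRA]
      exact vx_append (by omega)
    rw [h14, ← h13]
    constructor <;> linarith [ht1.1, ht1.2]

end ExBP

open ExBP in
/-- **B6** -/
theorem exB_of (hS : StripB) : ExB := by
  intro η e J hη he
  obtain ⟨cs, hstrip⟩ := hS e J he
  obtain ⟨Ce, kt, hCe0, htip⟩ := TIP.tip_PB η hη (J + 1)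
  refine ⟨Ce, cs + kt + 6, hCe0, fun c K b hb hcK hKJ => ?_⟩
  refine ⟨{R | StB c (2 ^ (c - cs)) R}, ?_, fun ρ x q D hD hρ hx hq => ?_⟩
  · refine hstrip c K _ ?_ (by omega) hcK hKJ
    rw [← pow_add]
    exact Nat.pow_le_pow_right (by norm_num) (by omega)
  -- numbers
  have hkc : (2 : ℕ) ^ (c - (cs + kt + 6)) * 2 ^ (cs + kt + 6) = 2 ^ c := by
    rw [← pow_add]
    congr 1
    omega
  have hDp : D ≤ 2 ^ (c - (cs + kt + 6)) := by
    by_contra hcon
    push Not at hcon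
    have h1 : (2 : ℕ) ^ (c - (cs + kt + 6)) * 2 ^ (cs + kt + 6) < D * 2 ^ (cs + kt + 6) :=
      Nat.mul_lt_mul_of_pos_right hcon (by positivity)
    omega
  have hp : (2 : ℕ) ^ (c - (cs + kt + 6)) * 64 ≤ 2 ^ (c - cs) := by
    calc (2 : ℕ) ^ (c - (cs + kt + 6)) * 64 = 2 ^ (c - (cs + kt + 6) + 6) := by rw [pow_add]; norm_num
      _ ≤ 2 ^ (c - cs) := Nat.pow_le_pow_right (by norm_num) (by omega)
  have hp1 : (2 : ℕ) ^ (c - (cs + kt + 6)) * 4 ≤ 2 ^ (c - 1) := by
    calc (2 : ℕ) ^ (c - (cs + kt + 6)) * 4 = 2 ^ (c - (cs + kt + 6) + 2) := by rw [pow_add]; norm_num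
      _ ≤ 2 ^ (c - 1) := Nat.pow_le_pow_right (by norm_num) (by omega)
  have hp0 : 0 < (2 : ℕ) ^ (c - (cs + kt + 6)) := by positivity
  have hw : 3 * 2 ^ (b + 1) + 12 * D ≤ 2 ^ (c - cs) := by
    have h1 : (2 : ℕ) ^ b ≤ 2 ^ (c - (cs + kt + 6)) := Nat.pow_le_pow_right (by norm_num) (by omega)
    have h3 : (2 : ℕ) ^ (b + 1) = 2 * 2 ^ b := by rw [pow_succ]; ring
    rw [h3]
    omega
  have hDc : 2 * D < 2 ^ (c - 1) := by omega
  have h1 := TIP.NgC.right_part (RR := {R | R ∈ BotS c K ∧ R ∉ {R | StB c (2 ^ (c - cs)) R}})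
    (TA := TIP.PB (c - 1) K b ∩ TIP.GT b η) (σ := fun A Y => ρ A Y ∧ TIP.In D Y) (x := x) (q := q)
    (fun R hR A Y hRA hσ => ⟨pb_of hR.1 hR.2 hRA hσ.2 hw (by omega) hDc, hρ A Y hσ.1⟩) hx
  have h2 : gf (TIP.PB (c - 1) K b ∩ TIP.GT b η) * Xb b ≤ ENNReal.ofReal (Ce * Ub K) * Xb K :=
    htip (c - 1) K b (by omega) (by omega) (by omega) (by omega)
  calc gf {R | R ∈ BotS c K ∧ R ∉ {R | StB c (2 ^ (c - cs)) R} ∧ q ≤ (TIP.nD D ρ R : ℝ)} * (ENNReal.ofReal q * Xb b)
      ≤ gf {R | R ∈ {R | R ∈ BotS c K ∧ R ∉ {R | StB c (2 ^ (c - cs)) R}} ∧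
          q ≤ (TIP.NgC.nS (fun A Y => ρ A Y ∧ TIP.In D Y) R : ℝ)} * (ENNReal.ofReal q * Xb b) := by
        refine mul_le_mul' (gf_mono fun R hR => ⟨⟨hR.1, hR.2.1⟩, ?_⟩) le_rfl
        exact hR.2.2
    _ = ENNReal.ofReal q * gf {R | R ∈ {R | R ∈ BotS c K ∧ R ∉ {R | StB c (2 ^ (c - cs)) R}} ∧
          q ≤ (TIP.NgC.nS (fun A Y => ρ A Y ∧ TIP.In D Y) R : ℝ)} * Xb b := by ring
    _ ≤ gf (TIP.PB (c - 1) K b ∩ TIP.GT b η) * x * Xb b := mul_le_mul' h1 le_rfl
    _ = gf (TIP.PB (c - 1) K b ∩ TIP.GT b η) * Xb b * x := by ring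
    _ ≤ ENNReal.ofReal (Ce * Ub K) * Xb K * x := mul_le_mul' h2 le_rfl

/-- **B6, no hypothesis** -/
theorem exB : ExB := exB_of stripB

end SLW

end HexObs
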