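import Pool.Agent.TIP.Ne
import Pool.Agent.TIP.FreeC

/-!
SLW, row GtB (helper47), part 1: first passage bridges with few cuts. Bridges over the height R all of whose cuts of height
at most R have at most m cuts before them have the mass m / UU R at most.
-/

set_option autoImplicit false

namespace HexObs

namespace SLW

open Finset TS SDN SIM

open scoped ENNReal

namespace Gt

open TIP

/-- a nonempty bridge has at least two cuts -/
lemma nc_two {Y : List Bool} (hY : Y ∈ BU) (hne : Y ≠ []) : 2 ≤ nc Y := by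
  classical
  have hl : 0 < Y.length := List.length_pos_iff.2 hne
  unfold nc
  have h1 : ({0, Y.length} : Finset ℕ) ⊆ (range (Y.length + 1)).filter fun j => Y.take j ∈ BU ∧ Y.drop j ∈ BU := by
    intro j hj
    rw [mem_insert, mem_singleton] at hj
    rcases hj with rfl | rfl
    · refine mem_filter.2 ⟨mem_range.2 (by omega), ?_, ?_⟩
      · rw [List.take_zero]
        exact nil_BU
      · rwa [List.drop_zero]
    · refine mem_filter.2 ⟨mem_range.2 (by omega), ?_, ?_⟩
      · rwa [List.take_length]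
      · rw [List.drop_length]
        exact nil_BU
  have h2 := card_le_card h1
  rw [card_pair (by omega)] at h2
  exact h2

/-- the mass of the bridges of height at most R -/
lemma UU_low (R : ℕ) : ENNReal.ofReal (UU R) ≤ gf {V | V ∈ BU ∧ hgt V ≤ R} := by
  have h1 : ⋃ h ∈ range (R + 1), Brd h ⊆ {V | V ∈ BU ∧ hgt V ≤ R} := by
    intro V hV
    rw [Set.mem_iUnion₂] at hV
    obtain ⟨h, hh, hV⟩ := hV
    refine ⟨⟨h, hV⟩, ?_⟩
    rw [TS.hgt_eq hV]
    have := mem_range.1 hh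
    omega
  refine le_trans (le_trans (le_of_eq ?_) (BAR.gf_bi_eq (range (R + 1)) (fun h => Brd h)
    (fun i j w hi hj => Brd_height hi hj))) (gf_mono h1)
  unfold UU
  rw [ENNReal.ofReal_sum_of_nonneg fun t _ => (uu_pos t).le]
  exact sum_congr rfl fun t _ => (RareA.BT_uu t).symm

/-- low bridges have many cuts, up to a small part of the mass -/
lemma low_nc (R m : ℕ) :
    gf {N | N ∈ BU ∧ hgt N ≤ R} ≤ gf {N | (N ∈ BU ∧ hgt N ≤ R) ∧ m + 1 ≤ nc N} + m := by
  obtain ⟨F, hF⟩ : ∃ F : ℕ → Set (List Bool), F = fun k => {V | (V ∈ BU ∧ hgt V ≤ R) ∧ nc V = k} := ⟨_, rfl⟩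
  have hsub : {N | N ∈ BU ∧ hgt N ≤ R} ⊆ {N | (N ∈ BU ∧ hgt N ≤ R) ∧ m + 1 ≤ nc N} ∪ ⋃ k ∈ Icc 1 m, F k := by
    intro V hV
    by_cases h : m + 1 ≤ nc V
    · exact Or.inl ⟨hV, h⟩
    · right
      rw [Set.mem_iUnion₂]
      refine ⟨nc V, ?_, ?_⟩
      · rw [mem_Icc]
        have := nc_pos hV.1
        omega
      · rw [hF]
        exact ⟨hV, rfl⟩
  refine (gf_mono hsub).trans ((gf_union_le _ _).trans (add_le_add le_rfl ?_))
  refine (GgJumpAux.gf_biUnion_le _ _).trans ?_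
  have hk : ∀ k ∈ Icc 1 m, gf (F k) ≤ 1 := by
    intro k _
    rw [hF]
    refine FreeA.ac_le_one fpOne fpAC (R := R) (fun V hV => hV.1.1) ?_ (fun V hV => hV.1.2)
    rintro W ⟨hW, hWk⟩ X ⟨hX, hXk⟩ Y hY rfl
    by_contra hne
    have h1 := nc_app hX.1 hY
    have h2 := nc_two hY hne
    omega
  refine (sum_le_sum hk).trans (le_of_eq ?_)
  rw [sum_const, Nat.card_Icc, nsmul_eq_mul, mul_one, Nat.add_sub_cancel]

/-- first passage bridges with few cuts -/
def Few (R m : ℕ) : Set (List Bool) :=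
  {W | W ∈ FP R ∧ ∀ N P, N ∈ BU → P ∈ BU → W = N ++ P → hgt N ≤ R → nc N ≤ m}

/-- **few cuts are rare** -/
theorem few_fp (R m : ℕ) : gf (Few R m) * ENNReal.ofReal (UU R) ≤ m := by
  obtain ⟨S, hS⟩ : ∃ S : Set (List Bool), S = {N | (N ∈ BU ∧ hgt N ≤ R) ∧ m + 1 ≤ nc N} := ⟨_, rfl⟩
  have hSB : S ⊆ BU := by
    rw [hS]
    exact fun N hN => hN.1.1
  have hSR : ∀ W ∈ S, hgt W ≤ R := by
    rw [hS]
    exact fun N hN => hN.1.2
  have h1 : gf (Few R m) + gf (FP R ∩ St1 (Mi S)) ≤ 1 := by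
    have hdis : Disjoint (Few R m) (FP R ∩ St1 (Mi S)) := by
      rw [Set.disjoint_left]
      rintro W ⟨-, hW⟩ ⟨-, X, hX, Y, hY, he⟩
      have hXS : X ∈ S := hX.1
      have h2 := hW X Y (hSB hXS) hY he (hSR X hXS)
      rw [hS] at hXS
      have := hXS.2
      omega
    rw [← fpOne R, ← gf_union hdis]
    refine gf_mono ?_
    rintro W (hW | hW)
    · exact hW.1
    · exact hW.1
  have h2 : gf (Mi S) ≤ gf (FP R ∩ St1 (Mi S)) :=
    fpAC R (Mi S) (fun W hW => hSB hW.1) (fun W hW X hX Y hY he => hW.2 X hX.1 Y hY he) (fun W hW => hSR W hW.1)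
  have h3 : ENNReal.ofReal (UU R) ≤ gf (Mi S) * ENNReal.ofReal (UU R) + m := by
    refine (UU_low R).trans ((low_nc R m).trans (add_le_add ?_ le_rfl))
    rw [← hS]
    exact miMass R S hSB hSR
  have h4 : gf (Mi S) * ENNReal.ofReal (UU R) + gf (Few R m) * ENNReal.ofReal (UU R) ≤
      gf (Mi S) * ENNReal.ofReal (UU R) + m := by
    rw [← add_mul]
    calc (gf (Mi S) + gf (Few R m)) * ENNReal.ofReal (UU R) ≤ 1 * ENNReal.ofReal (UU R) := by
          refine mul_le_mul' ?_ le_rfl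
          rw [add_comm]
          exact (add_le_add le_rfl h2).trans h1
      _ = ENNReal.ofReal (UU R) := one_mul _
      _ ≤ _ := h3
  refine ENNReal.le_of_add_le_add_left (ENNReal.mul_ne_top ?_ ENNReal.ofReal_ne_top) h4
  exact ne_top_of_le_ne_top ENNReal.one_ne_top ((h2.trans le_add_self).trans h1)

end Gt

end SLW

end HexObs
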