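import Pool.Agent.SIM.TopGeo
import Pool.Agent.SIM.TopFd
import Pool.Agent.SIM.FirstC
import Pool.Agent.SIM.TailWin
import Pool.Agent.NTA.LongQ

/-!
SLW, row GtB (helper47), part 2: a word that starts with a leaf has two cuts over its start, or its first leaf has no cut in
one of two windows over its foot.
-/

set_option autoImplicit false

namespace HexObs

namespace SLW

open Finset TS SDN NTW NTA SIM

open scoped ENNReal

namespace Gt

/-- the leaves without a cut in one of two windows over the foot -/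
def Sw (kc J e1 r1 e2 r2 : ℕ) : Set (List Bool) :=
  {g | g ∈ BrR (2 ^ (kc + 4)) (2 ^ (kc + J + 2)) ∧ (g ∈ NoCutH e1 r1 ∨ g ∈ NoCutH e2 r2)}

/-- **two cuts over the start** -/
theorem geo {kc J e1 r1 e2 r2 : ℕ} {t : List Bool} (ht : t ∈ BotS (kc + 5) (kc + J)) (he : e1 + r1 < e2)
    (hr : e2 + r2 ≤ kc + 3) :
    t ∈ FirstR kc J (EN.One (Sw kc J e1 r1 e2 r2)) ∨ ∃ W1 W2 R' : List Bool, t = W1 ++ (W2 ++ R') ∧ W1 ∈ BU ∧ W2 ∈ BU ∧
      2 ^ e1 ≤ hgt W1 ∧ 2 ^ e2 ≤ hgt W2 + 2 ^ (e1 + r1) ∧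
      ∀ X Y, X ∈ BU → Y ∈ BU → W1 = X ++ Y → Y ++ (W2 ++ R') ∈ BotS (kc + 3) (kc + J + 1) := by
  obtain ⟨htW, m, u, e, hF, he0⟩ := botS_sub (by omega) ht
  by_cases hh : ∀ g, PosL t u e 0 g → g ∈ BrR (2 ^ (kc + 4)) (2 ^ (kc + J + 2)) → g ∈ Sw kc J e1 r1 e2 r2
  · left
    refine ⟨htW, m, u, e, hF, he0, 1, le_rfl, hF.1, fun ms hms hpos _ _ hB => ?_⟩
    obtain ⟨g, rfl⟩ := List.length_eq_one_iff.1 hms
    have h1 := hpos 0 (by simp)
    simp only [List.getElem_cons_zero] at h1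
    exact ⟨g, hh g h1 (hB g List.mem_cons_self), rfl⟩
  right
  push Not at hh
  obtain ⟨g, hpos, hgB, hgS⟩ := hh
  have hg1 : g ∉ NoCutH e1 r1 := fun h => hgS ⟨hgB, Or.inl h⟩
  have hg2 : g ∉ NoCutH e2 r2 := fun h => hgS ⟨hgB, Or.inr h⟩
  obtain ⟨-, a, ha, hR, hup⟩ := ht
  obtain ⟨hm, hG, hbig, hsm, hst, hfin⟩ := hF
  have hle := hG.le
  have hlt0 := hG.lt 0 (by omega)
  simp only [Nat.zero_add] at hlt0
  rw [he0] at hlt0
  have hmono : ∀ c, 1 ≤ c → c ≤ m → e 1 ≤ e c := by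
    intro c hac
    induction c, hac using Nat.le_induction with
    | base => intro _; exact le_rfl
    | succ c _ ih =>
      intro hc
      have h3 := ih (by omega)
      have h4 := hG.lt c (by omega)
      omega
  have he1t : e 1 ≤ t.length := (hmono m hm le_rfl).trans hle
  -- the first leaf goes up
  have hu : ¬ Even u := by
    intro hu
    have h1 := hG.lo0 1 (by omega) (by omega)
    rw [he0, lev_zero, lev_one] at h1
    unfold Tight.sg at h1
    rw [if_pos hu, if_pos hu] at h1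
    omega
  have hsg : ∀ y : ℤ, Tight.sg u y = y := by
    intro y
    unfold Tight.sg
    rw [if_neg hu]
  obtain ⟨D, hD⟩ : ∃ D, D = dD false u := ⟨_, rfl⟩
  have hDup : D = up := by
    rw [hD]
    unfold dD
    rw [if_neg hu]
    rfl
  have hDm : D ∈ dirs := by rw [hD]; exact dD_mem _ _
  have hxD : ∀ k, xD D t k = lev t k := by
    intro k
    rw [hD, xD_lev, hsg]
  have hpos1 : ∀ i, 0 < i → i ≤ e 1 → 0 < lev t i := by
    intro i i1 i2
    rcases Nat.lt_or_ge a i with h1 | h1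
    · have h2 := hsm 0 (by omega) a i (by omega) h1.le i2
      rw [Nat.add_zero, hsg, hsg] at h2
      omega
    · exact hup i i1 h1
  obtain ⟨hh', hD1, hD2, hgh⟩ := hgB
  obtain ⟨v, v1, v2, v3, v4, v5⟩ := hpos
  rw [he0] at v2
  simp only [Nat.zero_add] at v3 v4
  obtain ⟨z, hz⟩ : ∃ z, z = v + g.length := ⟨_, rfl⟩
  have hzl : z ≤ t.length := by omega
  have hlev : ∀ k, 1 ≤ k → k ≤ g.length → lev g k - lev g 1 = xD D t (v + k) - xD D t (v + 1) := by
    intro k k1 k2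
    rw [v5 k k1 k2, hxD, hxD, Nat.add_zero, hsg]
  have q1 : 2 ^ (e1 + r1) < 2 ^ e2 := Nat.pow_lt_pow_right (by norm_num) he
  have q2 : 2 ^ e1 ≤ 2 ^ (e1 + r1) := Nat.pow_le_pow_right (by norm_num) (by omega)
  have q3 : 2 ^ e2 ≤ 2 ^ (e2 + r2) := Nat.pow_le_pow_right (by norm_num) (by omega)
  have q4 : 2 ^ (e2 + r2) ≤ 2 ^ (kc + 3) := Nat.pow_le_pow_right (by norm_num) hr
  have q5 : 2 ^ (kc + 4) = 2 * 2 ^ (kc + 3) := by ring
  have q6 : 1 ≤ 2 ^ e1 := Nat.one_le_two_pow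
  -- a cut from a window
  have hcut : ∀ e' r', e' + r' ≤ kc + 3 → g ∉ NoCutH e' r' → ∃ p H : ℕ, CutAt D t (v + 1) z p ∧
      lev t p - lev t (v + 1) = 3 * H - 2 ∧ 2 ^ e' ≤ H ∧ H ≤ 2 ^ (e' + r') ∧ 3 * 2 ^ (kc + 3) ≤ lev t z - lev t p := by
    intro e' r' her hn
    unfold NoCutH at hn
    rw [Set.mem_ofPred_eq] at hn
    push Not at hn
    obtain ⟨A, B, hA, hB, hg, w1, w2⟩ := hn
    have hw3 : 2 ^ (e' + r') ≤ 2 ^ (kc + 3) := Nat.pow_le_pow_right (by norm_num) her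
    have hadd : hgt A + hgt B = hh' := by
      obtain ⟨a, ha⟩ := hA
      obtain ⟨b, hb⟩ := hB
      rw [hgt_eq ha, hgt_eq hb]
      rw [← hg] at hgh
      exact Brd_height (Brd_append ha hb) hgh
    have hA0 : A ≠ [] := by
      rintro rfl
      have h3 : hgt ([] : List Bool) = 0 := hgt_eq nil_mem_Brd
      have h4 : 0 < 2 ^ e' := by positivity
      omega
    have hB0 : B ≠ [] := by
      rintro rfl
      have h3 : hgt ([] : List Bool) = 0 := hgt_eq nil_mem_Brd
      have h4 : 0 < 2 ^ (kc + 3) := by positivity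
      omega
    rw [← hg] at hlev
    obtain ⟨c1, c2, c3⟩ := cut_of_split hDm hA hB hA0 hB0 hlev
    rw [hg, ← hz] at c1 c2
    rw [hxD, hxD] at c2 c3
    refine ⟨v + A.length, hgt A, c1, c3, w1, w2, ?_⟩
    rw [c2]
    have h5 : 2 ^ (kc + 3) ≤ hgt B := by omega
    have h6 : ((2 ^ (kc + 3) : ℕ) : ℤ) ≤ (hgt B : ℤ) := by exact_mod_cast h5
    push_cast at h6
    omega
  obtain ⟨p1, G1, a1, a2, a3, a4, a5⟩ := hcut e1 r1 (by omega) hg1
  obtain ⟨p2, G2, b1, b2, b3, b4, b5⟩ := hcut e2 r2 hr hg2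
  have hG12 : G1 < G2 := by omega
  have q12 : p1 < p2 := by
    refine cut_lt a1 b1 ?_
    rw [hxD, hxD]
    omega
  have hp2 : p2 < z := b1.2.1
  -- the word before a cut
  have hpre : ∀ p H : ℕ, CutAt D t (v + 1) z p → lev t p - lev t (v + 1) = 3 * H - 2 → 1 ≤ H →
      ∃ n : ℕ, t.take p ∈ Brd n ∧ lev t p = 3 * n := by
    intro p H hp hH hH1
    have hp' := hp.2.1
    have hv0 := hpos1 (v + 1) (by omega) (by have := hp.1; omega)
    obtain ⟨n, n1, n2⟩ := cut_word (D := D) htW.1 (Nat.zero_le p) (by omega) (by rw [hDup]; rfl) hp.2.2.1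
      (fun i i1 i2 => by
        rw [hxD, hxD, hxD, lev_zero]
        refine ⟨hpos1 i i1 (by omega), ?_⟩
        rcases Nat.lt_or_ge i (v + 1) with h1 | h1
        · have h2 : i = 1 := by omega
          rw [h2, lev_one]
          omega
        · have := hp.2.2.2.1 i h1 i2
          rwa [hxD, hxD] at this)
    rw [hxD, hxD, lev_zero, sub_zero] at n2
    rw [List.drop_zero, Nat.sub_zero] at n1
    exact ⟨n, n1, n2⟩
  obtain ⟨n1, m1, m1'⟩ := hpre p1 G1 a1 a2 (by omega)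
  obtain ⟨n2, m2, m2'⟩ := cut_mid htW.1 hzl a1 b1 q12.le
  rw [hxD, hxD] at m2'
  have hv0 := hpos1 (v + 1) (by omega) (by have := a1.1; omega)
  have l1 : (t.take p1).length = p1 := by
    rw [List.length_take]
    omega
  have hdec : t = t.take p1 ++ ((t.drop p1).take (p2 - p1) ++ t.drop p2) := by
    have e2 : (t.drop p1).take (p2 - p1) ++ t.drop p2 = t.drop p1 := by
      have := List.take_append_drop (p2 - p1) (t.drop p1)
      rwa [List.drop_drop, Nat.add_sub_cancel' q12.le] at this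
    rw [e2, List.take_append_drop]
  have hbot : t.drop p2 ∈ BotS (kc + 3) (kc + J + 1) := by
    rw [hD] at b1
    refine bot_mem htW hzl b1 ?_
    rw [← hD, hxD, hxD]
    unfold RR
    omega
  refine ⟨t.take p1, (t.drop p1).take (p2 - p1), t.drop p2, hdec, ⟨n1, m1⟩, ⟨n2, m2⟩, ?_, ?_, ?_⟩
  · rw [hgt_eq m1]
    have h1 : (3 : ℤ) * n1 ≥ 3 * G1 - 1 := by omega
    omega
  · rw [hgt_eq m2]
    omega
  · intro X Y hX hY hXY
    have hXl : X.length ≤ p1 := by
      rw [← l1, hXY, List.length_append]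
      omega
    have hdr : t.drop X.length = Y ++ ((t.drop p1).take (p2 - p1) ++ t.drop p2) := by
      conv_lhs => rw [hdec, hXY, List.append_assoc]
      rw [List.drop_left' rfl]
    have hYW : Y ++ (t.drop p1).take (p2 - p1) ∈ BU := NTA.LQ.BU_app hY ⟨n2, m2⟩
    obtain ⟨n3, hn3⟩ := hYW
    have h3 := mem_Brd.1 hn3
    rw [← hdr]
    have hd : dx up t X.length = dD false u := by
      rw [← hD, hDup]
      obtain ⟨x, hx⟩ := hX
      have h4 : dx up t X.length = dx up X X.length := by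
        conv_lhs => rw [hdec, hXY, List.append_assoc]
        exact dx_append le_rfl
      rw [h4]
      exact (mem_Brd.1 hx).2.2.1
    refine ⟨drop_WL htW (by omega) hd, ?_⟩
    obtain ⟨-, a', ha', hR', hup'⟩ := hbot
    rw [hdr, ← List.append_assoc]
    refine ⟨(Y ++ (t.drop p1).take (p2 - p1)).length + a', ?_, ?_, ?_⟩
    · rw [List.length_append (as := Y ++ (t.drop p1).take (p2 - p1))]
      omega
    · rw [lev_cat h3.2.2.1, h3.2.2.2]
      omega
    · intro i i1 i2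
      rcases Nat.lt_or_ge (Y ++ (t.drop p1).take (p2 - p1)).length i with h5 | h5
      · obtain ⟨k, rfl⟩ : ∃ k, i = (Y ++ (t.drop p1).take (p2 - p1)).length + k := ⟨i - _, (Nat.add_sub_cancel' h5.le).symm⟩
        rw [lev_cat h3.2.2.1, h3.2.2.2]
        have := hup' k (by omega) (by omega)
        omega
      · rw [lev_append (by omega)]
        exact (h3.1 i i1 h5).1

end Gt

end SLW

end HexObs
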