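import Pool.Agent.SLW.DefsB
import Pool.Agent.SLW.GtFP
import Pool.Agent.SLW.GtGeo
import Pool.Agent.SIM.NoCutEv
import Pool.Agent.TIP.ClsB

/-!
SLW, row GtB (helper47): the start of a right part is a good tip of the scale b. No renewal theory: first passage bridges
over 2 ^ b with few cuts have a mass at most η, the rest behind them starts with a leaf; if this does not exist, the first
leaf has no cut in one of two windows over its foot (small norm).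
-/

set_option autoImplicit false

namespace HexObs

namespace SLW

open Finset TS SDN NTW NTA SIM TIP

open scoped ENNReal

namespace Gt

lemma BotS_mono {b b' K K' : ℕ} (hb : b' ≤ b) (hK : K ≤ K') : BotS b K ⊆ BotS b' K' := by
  rintro t ⟨h1, a, h2, h3, h4⟩
  refine ⟨⟨h1.1, fun i hi dir => (h1.2 i hi dir).trans (pow_le_pow_right₀ (by norm_num) hK)⟩, a, h2, ?_, h4⟩
  unfold RR at *
  have : (2 : ℤ) ^ b' ≤ 2 ^ b := pow_le_pow_right₀ (by norm_num) hb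
  omega

/-- the cover -/
lemma cover {c J b e1 r1 e2 r2 : ℕ} {η : ℝ} (hc : 6 ≤ c) (he : e1 + r1 < e2)
    (hr : e2 + r2 ≤ c - 6 + 3) (hb : b + 2 ≤ e1) (h2 : 2 * 2 ^ (e1 + r1) ≤ 2 ^ e2) :
    {R | R ∈ BotS c (c + J) ∧ rev R ∉ GT b η} ⊆
      FirstR (c - 6) (J + 6) (EN.One (Sw (c - 6) (J + 6) e1 r1 e2 r2)) ∪
        {R | ∃ W ∈ Few (2 ^ b) ⌊η * Ub b⌋₊, ∃ R' ∈ BotS (c - 6 + 3) (c + J + 1), R = W ++ R'} := by
  rintro R ⟨hR, hG⟩
  have hKK : c - 6 + (J + 6) = c + J := by omega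
  have h3 : R ∈ BotS (c - 6 + 5) (c - 6 + (J + 6)) := by
    rw [hKK]
    exact BotS_mono (by omega) le_rfl hR
  rcases geo h3 he hr with h4 | ⟨W1, W2, R', h4, h5, h6, h7, h8, h9⟩
  · exact Or.inl h4
  right
  have p1 : 2 ^ b ≤ 2 ^ e1 := Nat.pow_le_pow_right (by norm_num) (by omega)
  obtain ⟨W, hW, Y, hY, hWY⟩ := fpDec (2 ^ b) W1 h5 (by omega)
  refine ⟨W, ⟨hW, fun N P hN hP hNP hNh => ?_⟩, Y ++ (W2 ++ R'), ?_, ?_⟩
  · by_contra hc
    push Not at hc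
    refine hG ?_
    have h10 : R = N ++ ((P ++ (Y ++ W2)) ++ R') := by
      rw [h4, hWY, hNP]
      simp only [List.append_assoc]
    rw [h10]
    have hYW := BU_app hY h6
    refine ne_B hN hNh (BU_app hP hYW) ?_ ?_
    · rw [hgt_app hP hYW, hgt_app hY h6]
      have p2 : 2 ^ (b + 2) ≤ 2 ^ e1 := Nat.pow_le_pow_right (by norm_num) hb
      have p3 : 2 ^ e1 ≤ 2 ^ (e1 + r1) := Nat.pow_le_pow_right (by norm_num) (by omega)
      have p4 : 2 ^ (b + 2) = 2 * 2 ^ (b + 1) := by ring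
      omega
    · have h11 := Nat.lt_floor_add_one (η * Ub b)
      have h12 : (⌊η * Ub b⌋₊ : ℝ) + 1 ≤ (nc N : ℝ) := by exact_mod_cast hc
      linarith
  · have := h9 W Y hW.1 hY hWY
    rwa [hKK] at this
  · rw [h4, hWY, List.append_assoc]

end Gt

open Gt

/-- **row GtB** -/
theorem gtB : GtB := by
  intro e J0 he
  obtain ⟨C1, k1, hC1, hF⟩ := first_l
  obtain ⟨C2, k2, hC2, hB⟩ := tot_BotS
  obtain ⟨D0, hD0, hX⟩ := Xb_pow
  obtain ⟨K', cc, hK', hcc, hW⟩ := tail_win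
  obtain ⟨J, hJ⟩ : ∃ J, J = J0 + 6 := ⟨_, rfl⟩
  have hC10 : 0 < C1 := by linarith
  have hC20 : 0 < C2 := by linarith
  have hD00 : 0 < D0 := by linarith
  have hK0 : 0 < K' := by linarith
  obtain ⟨δ, hδd⟩ : ∃ δ : ℝ, δ = e / (4 * C1 ^ J * (2 * D0) ^ J0) := ⟨_, rfl⟩
  have hδ : 0 < δ := by
    rw [hδd]
    positivity
  obtain ⟨d, h0, hd⟩ := depth_exists (X := K' * (1 + 2 ^ (J + 2)) ^ 2) hcc hδ
  obtain ⟨A, hA⟩ : ∃ A : ℝ, A = C2 ^ (J0 + 11) * (2 * D0) ^ J0 := ⟨_, rfl⟩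
  have hA0 : 0 < A := by
    rw [hA]
    positivity
  have hd0 : 4 ≤ d 1 := by
    have := (hd 0).1
    rw [h0] at this
    simpa using this
  have hd1 : d 1 + 4 ≤ d 2 := (hd 1).1
  refine ⟨e / (2 * A), 8 + d 2, k1 + k2, by positivity, fun c K b hb0 hb hcK hKJ => ?_⟩
  obtain ⟨kc, hkc⟩ : ∃ kc, kc = c - 6 := ⟨_, rfl⟩
  have hkJ : kc + J = c + J0 := by omega
  have hU := Ub_pos K
  have hUkc := Ub_pos kc
  have hUb := Ub_pos b
  -- the two windows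
  obtain ⟨e2, he2⟩ : ∃ e2, e2 = kc - d 1 := ⟨_, rfl⟩
  obtain ⟨r2, hr2⟩ : ∃ r2, r2 = d 1 - 1 := ⟨_, rfl⟩
  obtain ⟨e1, he1⟩ : ∃ e1, e1 = kc - d 2 := ⟨_, rfl⟩
  obtain ⟨r1, hr1⟩ : ∃ r1, r1 = d 2 - d 1 - 1 := ⟨_, rfl⟩
  have hUN : UU (2 ^ (kc + J + 2)) / Ub kc ≤ 2 ^ (J + 2) := by
    rw [div_le_iff₀ hUkc, show kc + J + 2 = kc + (J + 2) by omega]
    exact Ub_add kc (J + 2)
  have hUN0 : 0 ≤ UU (2 ^ (kc + J + 2)) / Ub kc := div_nonneg (Num2Aux.UU_pos _).le hUkc.le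
  have w2 : SmD DmJ kc {g | g ∈ BrR (2 ^ (kc + 4)) (2 ^ (kc + J + 2)) ∧ g ∈ NoCutH e2 r2} δ := by
    refine LQ.SmD_le ?_ (QF.SmD_mono ?_ (hW kc (2 ^ (kc + J + 2)) e2 r2 (by omega) (by omega)))
    swap
    · rintro g ⟨g1, g2⟩
      exact ⟨g1, Or.inr g2⟩
    have h3 := (hd 0).2
    rw [h0] at h3
    simp only [Nat.zero_add, Nat.sub_zero] at h3
    rw [show kc - (e2 + r2) = 1 by omega, hr2]
    refine le_trans ?_ h3
    gcongr
  have w1 : SmD DmJ kc {g | g ∈ BrR (2 ^ (kc + 4)) (2 ^ (kc + J + 2)) ∧ g ∈ NoCutH e1 r1} δ := by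
    refine LQ.SmD_le ?_ (QF.SmD_mono ?_ (hW kc (2 ^ (kc + J + 2)) e1 r1 (by omega) (by omega)))
    swap
    · rintro g ⟨g1, g2⟩
      exact ⟨g1, Or.inr g2⟩
    have h3 := (hd 1).2
    simp only [Nat.reduceAdd] at h3
    rw [show kc - (e1 + r1) = d 1 + 1 by omega, hr1]
    refine le_trans ?_ h3
    gcongr
  have hS : SmR DmJ kc (EN.One (Sw kc J e1 r1 e2 r2)) (2 * δ) := by
    refine EN.smR_one (LQ.SmD_le (by linarith) (QF.SmD_mono ?_ (LQ.SmD_union hδ.le hδ.le w1 w2)))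
    rintro g ⟨h1, h2 | h2⟩
    · exact Or.inl ⟨h1, h2⟩
    · exact Or.inr ⟨h1, h2⟩
  -- masses of the box c + J0 against the box K
  have hUX : ∀ x : ℝ, 0 ≤ x → ENNReal.ofReal (x * Ub (c + J0)) * Xb (c + J0) ≤
      ENNReal.ofReal (x * (2 * D0) ^ J0 * Ub K) * Xb K := by
    intro x hx
    obtain ⟨C, hC⟩ : ∃ C, c + J0 = K + C := ⟨c + J0 - K, by omega⟩
    have hCJ : C ≤ J0 := by omega
    rw [hC]
    calc ENNReal.ofReal (x * Ub (K + C)) * Xb (K + C)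
        ≤ ENNReal.ofReal (x * (2 ^ C * Ub K)) * (ENNReal.ofReal (D0 ^ C) * Xb K) :=
          mul_le_mul' (ENNReal.ofReal_le_ofReal (mul_le_mul_of_nonneg_left (Ub_add K C) hx)) (hX K C)
      _ = ENNReal.ofReal (x * (2 * D0) ^ C * Ub K) * Xb K := by
          rw [← mul_assoc, ← ENNReal.ofReal_mul (by positivity), mul_pow]
          congr 2
          ring
      _ ≤ ENNReal.ofReal (x * (2 * D0) ^ J0 * Ub K) * Xb K := by
          refine mul_le_mul' (ENNReal.ofReal_le_ofReal ?_) le_rfl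
          have h1 : (2 * D0) ^ C ≤ (2 * D0) ^ J0 := pow_le_pow_right₀ (by linarith) hCJ
          gcongr
  have hev1 : gf (FirstR kc J (EN.One (Sw kc J e1 r1 e2 r2))) ≤ ENNReal.ofReal (e / 2 * Ub K) * Xb K := by
    refine (hF kc J _ (2 * δ) (by omega) (by omega) (by positivity) hS).trans ?_
    rw [hkJ]
    refine (hUX (C1 ^ J * (2 * δ)) (by positivity)).trans (le_of_eq ?_)
    congr 3
    rw [hδd]
    field_simp
    ring
  -- the second event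
  have hev2 : gf {R | ∃ W ∈ Few (2 ^ b) ⌊e / (2 * A) * Ub b⌋₊, ∃ R' ∈ BotS (kc + 3) (c + J0 + 1), R = W ++ R'} ≤
      ENNReal.ofReal (e / 2 * Ub K) * Xb K := by
    have h1 : gf {R | ∃ W ∈ Few (2 ^ b) ⌊e / (2 * A) * Ub b⌋₊, ∃ R' ∈ BotS (kc + 3) (c + J0 + 1), R = W ++ R'} ≤
        gf (Few (2 ^ b) ⌊e / (2 * A) * Ub b⌋₊) * gf (BotS (kc + 3) (c + J0 + 1)) :=
      gf_le_mul fun R hR => hR
    have h2 : gf (Few (2 ^ b) ⌊e / (2 * A) * Ub b⌋₊) ≤ ENNReal.ofReal (e / (2 * A)) := by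
      have h3 := few_fp (2 ^ b) ⌊e / (2 * A) * Ub b⌋₊
      have h4 : ((⌊e / (2 * A) * Ub b⌋₊ : ℕ) : ℝ≥0∞) ≤ ENNReal.ofReal (e / (2 * A)) * ENNReal.ofReal (UU (2 ^ b)) := by
        rw [← ENNReal.ofReal_mul (by positivity), ← ENNReal.ofReal_natCast]
        exact ENNReal.ofReal_le_ofReal (Nat.floor_le (by positivity))
      refine (ENNReal.mul_le_mul_iff_left ?_ ENNReal.ofReal_ne_top).1 (h3.trans h4)
      exact (ENNReal.ofReal_pos.2 hUb).ne'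
    have h5 : gf (BotS (kc + 3) (c + J0 + 1)) ≤ ENNReal.ofReal (A * Ub K) * Xb K := by
      refine (gf_mono (BotS_mono le_rfl (by omega))).trans ((hB (kc + 3) (c + J0) (by omega) (by omega)).trans ?_)
      rw [show c + J0 - (kc + 3) + 8 = J0 + 11 by omega, hA]
      exact hUX _ (by positivity)
    refine h1.trans ((mul_le_mul' h2 h5).trans (le_of_eq ?_))
    rw [← mul_assoc, ← ENNReal.ofReal_mul (by positivity)]
    congr 2
    field_simp
  have hcov := cover (c := c) (J := J0) (b := b) (e1 := e1) (r1 := r1) (e2 := e2) (r2 := r2)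
    (η := e / (2 * A)) (by omega) (by omega) (by omega) (by omega) (by
      rw [← pow_succ']
      exact Nat.pow_le_pow_right (by norm_num) (by omega))
  rw [← hkc, ← hJ] at hcov
  have hsub : {R | R ∈ BotS c K ∧ rev R ∉ GT b (e / (2 * A))} ⊆
      {R | R ∈ BotS c (c + J0) ∧ rev R ∉ GT b (e / (2 * A))} := fun R hR => ⟨BotS_mono le_rfl hKJ hR.1, hR.2⟩
  refine (gf_mono (hsub.trans hcov)).trans ((gf_union_le _ _).trans ((add_le_add hev1 hev2).trans (le_of_eq ?_)))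
  rw [← add_mul, ← ENNReal.ofReal_add (by positivity) (by positivity)]
  congr 2
  ring

end SLW

end HexObs
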