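import Pool.Agent.SLW.DefsB
import Pool.Agent.TIW.InnF
import Pool.Agent.TIW.Osc
import Pool.Agent.TIW.Hpm

/-!
SLW, S6 in the Boltzmann form (helper14, doc nu34/SLOW_14): in the ensemble of the right parts (words of the box that start
with a leaf going up) the nice words of a level are dominated by the weight of the level. Total masses only, no lengths.
-/

set_option autoImplicit false

namespace HexObs

namespace SLW

open Finset TS SDN TIW SIM

open scoped ENNReal

namespace LB

open Classical in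
lemma gf_ite (S : Set (List Bool)) : gf S = ∑' t : List Bool, if t ∈ S then wE t else 0 := by
  unfold gf
  rw [tsum_subtype S wE]
  refine tsum_congr fun t => ?_
  by_cases h : t ∈ S
  · rw [Set.indicator_of_mem h, if_pos h]
  · rw [Set.indicator_of_notMem h, if_neg h]

/-- the sum over all the cuts -/
lemma cut_sum (f : List Bool → List Bool → ℝ≥0∞) :
    ∑' A : List Bool, ∑' Y : List Bool, f A Y =
      ∑' t : List Bool, ∑ k ∈ range (t.length + 1), f (t.take k) (t.drop k) := by
  classical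
  have e1 : ∀ t : List Bool, ∑ k ∈ range (t.length + 1), f (t.take k) (t.drop k) =
      ∑' k : ℕ, if k ≤ t.length then f (t.take k) (t.drop k) else 0 := by
    intro t
    rw [tsum_eq_sum (s := range (t.length + 1)) (fun k hk => if_neg (by rw [mem_range] at hk; omega))]
    exact sum_congr rfl fun k hk => (if_pos (by rw [mem_range] at hk; omega)).symm
  have e2 : ∑' t : List Bool, ∑ k ∈ range (t.length + 1), f (t.take k) (t.drop k) =
      ∑' t : List Bool, ∑' k : ℕ, (fun t k => if k ≤ t.length then f (t.take k) (t.drop k) else 0) t k :=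
    tsum_congr e1
  rw [e2, ← ENNReal.tsum_prod, ← ENNReal.tsum_prod]
  symm
  refine tsum_eq_tsum_of_ne_zero_bij (fun p => (p.1.1 ++ p.1.2, p.1.1.length)) ?_ ?_ ?_
  · rintro ⟨⟨A, Y⟩, h1⟩ ⟨⟨A', Y'⟩, h2⟩ h
    simp only [Prod.mk.injEq] at h
    obtain ⟨h3, h4⟩ := h
    obtain ⟨h5, h6⟩ := List.append_inj h3 h4
    exact Subtype.ext (Prod.ext h5 h6)
  · rintro ⟨t, k⟩ h
    rw [Function.mem_support] at h
    by_cases hk : k ≤ t.length
    · refine ⟨⟨(t.take k, t.drop k), ?_⟩, ?_⟩
      · rw [Function.mem_support]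
        intro h0
        refine h ?_
        show (if k ≤ t.length then f (t.take k) (t.drop k) else 0) = 0
        rw [if_pos hk]
        exact h0
      · show (t.take k ++ t.drop k, (t.take k).length) = (t, k)
        rw [List.take_append_drop, List.length_take, min_eq_left hk]
    · exact absurd (if_neg hk) h
  · rintro ⟨⟨A, Y⟩, h⟩
    show (if A.length ≤ (A ++ Y).length then f ((A ++ Y).take A.length) ((A ++ Y).drop A.length) else 0) = f A Y
    rw [if_pos (by rw [List.length_append]; omega), List.take_left' rfl, List.drop_left' rfl]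

/-- the far parts -/
def RA (c K l : ℕ) (YY : Set (List Bool)) : Set (List Bool) :=
  {A | A ∈ Fe (4 * 2 ^ l) ∧ ∃ Y, Y ∈ YY ∧ A ++ Y ∈ BotS c K}

open Classical in
/-- the weight of the ends with the cutoff -/
noncomputable def eT (l : ℕ) : ℝ≥0∞ := ∑' E : List Bool, if E ∈ Hp (2 ^ l) then wE E * ENNReal.ofReal (chi (2 ^ l) E) else 0

open Classical in
/-- nice words: the sum over the cuts -/
lemma step1 {c K l m : ℕ} {κ : ℝ} {YY : Set (List Bool)} {Φ θ : List Bool → ℝ}
    (hY : ∀ Y ∈ YY, ∀ i, i ≤ Y.length → hn (vx oo up Y i) < 2 ^ (l + m))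
    (hosc : ∀ A1 Y, A1 ++ Y ∈ SA → (∀ i, i ≤ Y.length → hn (vx oo up Y i) < 2 ^ (l + m) + 2 ^ (l + 1)) →
      |Φ (A1 ++ Y) - Φ A1| ≤ θ A1) :
    ENNReal.ofReal (κ * Ub l) * ∑' t : List Bool,
        (if t ∈ BotS c K ∧ t ∈ NcS l YY κ then wE t * ENNReal.ofReal (Φ t) else 0) ≤
      (∑' A : List Bool, if A ∈ RA c K l YY then wE A * ENNReal.ofReal (Φ A + θ A) else 0) * gf YY := by
  obtain ⟨F, hF⟩ : ∃ F : List Bool → List Bool → ℝ≥0∞, F = fun A Y =>
    (if A ∈ RA c K l YY then wE A * ENNReal.ofReal (Φ A + θ A) else 0) * (if Y ∈ YY then wE Y else 0) := ⟨_, rfl⟩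
  have e1 : (∑' A : List Bool, if A ∈ RA c K l YY then wE A * ENNReal.ofReal (Φ A + θ A) else 0) * gf YY =
      ∑' A : List Bool, ∑' Y : List Bool, F A Y := by
    rw [gf_ite YY, ← ENNReal.tsum_mul_right, hF]
    exact tsum_congr fun A => ENNReal.tsum_mul_left.symm
  rw [e1, cut_sum, ← ENNReal.tsum_mul_left]
  refine ENNReal.tsum_le_tsum fun t => ?_
  by_cases h : t ∈ BotS c K ∧ t ∈ NcS l YY κ
  · rw [if_pos h]
    obtain ⟨h1, h2⟩ := h
    obtain ⟨S, hS⟩ : ∃ S : Finset ℕ, S = (range (t.length + 1)).filter fun k => t.take k ∈ Fe (4 * 2 ^ l) ∧ t.drop k ∈ YY :=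
      ⟨_, rfl⟩
    have h3 : κ * Ub l ≤ (S.card : ℝ) := by
      rw [hS]
      exact h2
    have h4 : ENNReal.ofReal (κ * Ub l) ≤ (S.card : ℝ≥0∞) := by
      rw [← ENNReal.ofReal_natCast]
      exact ENNReal.ofReal_le_ofReal h3
    calc ENNReal.ofReal (κ * Ub l) * (wE t * ENNReal.ofReal (Φ t))
        ≤ (S.card : ℝ≥0∞) * (wE t * ENNReal.ofReal (Φ t)) := mul_le_mul' h4 le_rfl
      _ = ∑ k ∈ S, wE t * ENNReal.ofReal (Φ t) := by rw [sum_const, nsmul_eq_mul]
      _ ≤ ∑ k ∈ S, F (t.take k) (t.drop k) := by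
          refine sum_le_sum fun k hk => ?_
          rw [hS, mem_filter, mem_range] at hk
          obtain ⟨hk1, hk2, hk3⟩ := hk
          have ht : t.take k ++ t.drop k = t := List.take_append_drop k t
          have hRA : t.take k ∈ RA c K l YY := ⟨hk2, t.drop k, hk3, by rw [ht]; exact h1⟩
          rw [hF]
          show _ ≤ (if t.take k ∈ RA c K l YY then wE (t.take k) * ENNReal.ofReal (Φ (t.take k) + θ (t.take k)) else 0) *
            (if t.drop k ∈ YY then wE (t.drop k) else 0)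
          rw [if_pos hRA, if_pos hk3]
          have hw : wE t = wE (t.take k) * wE (t.drop k) := by
            conv_lhs => rw [← ht]
            exact wE_append _ _
          have ho := hosc (t.take k) (t.drop k) (by rw [ht]; exact h1.1.1) fun i hi => by
            have := hY _ hk3 i hi
            have h5 : (0 : ℤ) ≤ 2 ^ (l + 1) := by positivity
            linarith
          rw [ht, abs_le] at ho
          rw [hw]
          calc wE (t.take k) * wE (t.drop k) * ENNReal.ofReal (Φ t)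
              ≤ wE (t.take k) * wE (t.drop k) * ENNReal.ofReal (Φ (t.take k) + θ (t.take k)) :=
                mul_le_mul' le_rfl (ENNReal.ofReal_le_ofReal (by linarith))
            _ = _ := by ring
      _ ≤ ∑ k ∈ range (t.length + 1), F (t.take k) (t.drop k) := by
          refine sum_le_sum_of_subset ?_
          rw [hS]
          exact filter_subset _ _
  · rw [if_neg h, mul_zero]
    exact zero_le

/-! ### the closure -/

lemma Hp_cat {l : ℕ} {Ch : Set (List Bool)} (hC : Chn l Ch) {V E : List Bool} (hV : V ∈ Ch) (hE : E ∈ Hp (2 ^ l)) :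
    V ++ E ∈ Hp (2 * 2 ^ l) := by
  have h1 : E ∈ SSt (2 ^ l) := Hp_SSt l hE
  have h2 := BAR.SSt_cat (BU_hgt (hC.bu hV)) h1
  have h3 := BAR.pos_SSt h2
  refine ⟨⟨fun i hi1 hi2 => h3 i hi1 hi2, h2.inj⟩, fun i hi => ?_⟩
  have h0 : (1 : ℤ) ≤ 2 ^ l := one_le_pow₀ (by norm_num)
  rcases Nat.le_or_ge i V.length with h4 | h4
  · rw [vx_append (by omega)]
    have := hC.size V hV i h4
    have h5 := hn_nonneg (vx oo up V i)
    push_cast
    linarith
  · obtain ⟨j, rfl⟩ := Nat.exists_eq_add_of_le h4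
    rw [List.length_append] at hi
    rw [vx_app]
    have h5 := hn_add (en V) (mulE (rt V) (vx oo up E j))
    rw [hn_mulE (nrm_rt V)] at h5
    have h6 := hE.2 j (by omega)
    have h7 := hC.size V hV V.length le_rfl
    have h8 : (vx oo up V V.length : Pt) = en V := rfl
    rw [h8] at h7
    have h9 := hn_nonneg (en V)
    push_cast at h6 ⊢
    linarith

lemma row_hn (dir : Bool) {p q : Pt} {R S : ℤ} (hp : |row dir p| ≤ R) (hq : hn q < S) : |row dir (p + q)| ≤ R + S + 2 := by
  have h1 : lvl dir (p + q) = lvl dir p + lvl dir q := by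
    unfold lvl
    rw [ip_add_left]
  have h2 : |lvl dir q| ≤ hn q := OscA.ip_abs q (by cases dir <;> decide)
  unfold row at *
  rw [abs_le] at *
  constructor <;> omega

/-- the classes are closed -/
lemma clo {c K l m : ℕ} {YY Ch : Set (List Bool)} (hC : Chn l Ch) (hlc : l + m + 5 ≤ c) (hcK : c ≤ K)
    (hY : ∀ Y ∈ YY, ∀ i, i ≤ Y.length → hn (vx oo up Y i) < 2 ^ (l + m)) {A V E : List Bool} (hA : A ∈ RA c K l YY)
    (hV : V ∈ Ch) (hE : E ∈ Hp (2 ^ l)) : A ++ (V ++ E) ∈ BotS (c - 1) (K + 1) := by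
  obtain ⟨hF, Y, hYY, hW, a, ha, h1, h2⟩ := hA
  have hAS : A ∈ SA := by
    have := SA_take hW.1 A.length
    rwa [List.take_left' rfl] at this
  have hVE := Hp_cat hC hV hE
  have hSA : A ++ (V ++ E) ∈ SA := glue_SA (by omega : 2 * 2 ^ l ≤ 4 * 2 ^ l) hAS hF hVE
  obtain ⟨d, rfl⟩ : ∃ d, c = d + 1 := ⟨c - 1, by omega⟩
  rw [Nat.add_sub_cancel]
  have p1 : (2 : ℤ) ^ (l + m) ≤ 2 ^ d := pow_le_pow_right₀ (by norm_num) (by omega)
  have p2 : (2 : ℤ) ^ (l + 4) ≤ 2 ^ K := pow_le_pow_right₀ (by norm_num) (by omega)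
  have p3 : (2 : ℤ) ^ (l + 4) = 16 * 2 ^ l := by rw [pow_add]; ring
  have p4 : (1 : ℤ) ≤ 2 ^ l := one_le_pow₀ (by norm_num)
  have p5 : (2 : ℤ) ^ (K + 1) = 2 * 2 ^ K := by rw [pow_add]; ring
  have p6 : (2 : ℤ) ^ (d + 1) = 2 * 2 ^ d := by rw [pow_add]; ring
  have p7 : (1 : ℤ) ≤ 2 ^ d := one_le_pow₀ (by norm_num)
  have hl : ∀ (B : List Bool) (i : ℕ), i ≤ A.length → lev (A ++ B) i = lev A i := fun B i hi => lev_append (by omega)
  refine ⟨⟨hSA, fun i hi dir => ?_⟩, ?_⟩
  · rw [List.length_append] at hi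
    rcases Nat.le_or_ge i A.length with h3 | h3
    · rw [vx_append (by omega)]
      have h4 := hW.2 i (by rw [List.length_append]; omega) dir
      rw [vx_append (by omega)] at h4
      linarith
    · obtain ⟨j, rfl⟩ := Nat.exists_eq_add_of_le h3
      rw [vx_app]
      have h4 := hW.2 A.length (by rw [List.length_append]; omega) dir
      rw [vx_append (by omega)] at h4
      have h5 := hVE.2 j (by omega)
      rw [← hn_mulE (nrm_rt A)] at h5
      have h6 := row_hn dir h4 h5
      have h7 : (vx oo up A A.length : Pt) = en A := rfl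
      rw [h7] at h6
      push_cast at h6
      linarith
  · rcases Nat.le_or_ge a A.length with h3 | h3
    · refine ⟨a, by rw [List.length_append]; omega, ?_, fun i hi hia => ?_⟩
      · rw [hl _ a h3]
        rw [hl _ a h3] at h1
        unfold RR at h1 ⊢
        linarith
      · rw [hl _ i (by omega)]
        have := h2 i hi hia
        rwa [hl _ i (by omega)] at this
    · obtain ⟨j, rfl⟩ := Nat.exists_eq_add_of_le h3
      rw [List.length_append] at ha
      refine ⟨A.length, by rw [List.length_append]; omega, ?_, fun i hi hia => ?_⟩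
      · rw [hl _ _ le_rfl]
        have h4 : lev (A ++ Y) (A.length + j) = lev A A.length + ip (mulE (rt A) (vx oo up Y j)) up := by
          unfold lev
          rw [vx_app, ip_add_left]
          rfl
        have h5 := OscA.ip_abs (mulE (rt A) (vx oo up Y j)) upd'
        rw [hn_mulE (nrm_rt A), abs_le] at h5
        have h6 := hY Y hYY j (by omega)
        rw [h4] at h1
        unfold RR at h1 ⊢
        linarith [h5.2]
      · rw [hl _ i hia]
        have := h2 i hi (by omega)
        rwa [hl _ i hia] at this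

/-! ### the weight of the level -/

open Classical in
lemma NT_ofReal {l : ℕ} {Ch : Set (List Bool)} {ψ : List Bool → ℝ} (hψ : ∀ A, 0 ≤ ψ A) (t : List Bool) :
    ENNReal.ofReal (NT l Ch ψ t) = ∑ i ∈ range (t.length + 1), ∑ j ∈ range (t.length + 1),
      if Dc l Ch t i j then ENNReal.ofReal (chi (2 ^ l) (t.drop j)) * ENNReal.ofReal (ψ (t.take i)) else 0 := by
  unfold NT
  rw [ENNReal.ofReal_sum_of_nonneg (fun p _ => mul_nonneg (chi_nonneg _ _) (hψ _)), sum_filter, sum_product]
  refine sum_congr rfl fun i _ => sum_congr rfl fun j _ => ?_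
  by_cases h : Dc l Ch t i j
  · rw [if_pos h, if_pos h, ENNReal.ofReal_mul (chi_nonneg _ _)]
  · rw [if_neg h, if_neg h]

open Classical in
/-- the weight of the level from below -/
lemma step2 {c K l m : ℕ} {YY Ch : Set (List Bool)} {ψ : List Bool → ℝ} (hψ : ∀ A, 0 ≤ ψ A) (hC : Chn l Ch)
    (hlc : l + m + 5 ≤ c) (hcK : c ≤ K) (hY : ∀ Y ∈ YY, ∀ i, i ≤ Y.length → hn (vx oo up Y i) < 2 ^ (l + m)) :
    (∑' A : List Bool, if A ∈ RA c K l YY then wE A * ENNReal.ofReal (ψ A) else 0) * (gf Ch * eT l) ≤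
      ∑' t : List Bool, if t ∈ BotS (c - 1) (K + 1) then wE t * ENNReal.ofReal (NT l Ch ψ t) else 0 := by
  obtain ⟨a, ha⟩ : ∃ a : List Bool → ℝ≥0∞, a = fun A => if A ∈ RA c K l YY then wE A * ENNReal.ofReal (ψ A) else 0 :=
    ⟨_, rfl⟩
  obtain ⟨v, hv⟩ : ∃ v : List Bool → ℝ≥0∞, v = fun V => if V ∈ Ch then wE V else 0 := ⟨_, rfl⟩
  obtain ⟨e, he⟩ : ∃ e : List Bool → ℝ≥0∞, e = fun E =>
    if E ∈ Hp (2 ^ l) then wE E * ENNReal.ofReal (chi (2 ^ l) E) else 0 := ⟨_, rfl⟩
  have e1 : gf Ch * eT l = ∑' V : List Bool, ∑' E : List Bool, v V * e E := by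
    have h1 : gf Ch = ∑' V, v V := by rw [gf_ite Ch, hv]
    have h2 : eT l = ∑' E, e E := by rw [eT, he]
    rw [h1, h2, ← ENNReal.tsum_mul_right]
    exact tsum_congr fun V => ENNReal.tsum_mul_left.symm
  have e2 : (∑' A : List Bool, if A ∈ RA c K l YY then wE A * ENNReal.ofReal (ψ A) else 0) * (gf Ch * eT l) =
      ∑' t : List Bool, ∑ i ∈ range (t.length + 1), a (t.take i) *
        ∑ j ∈ range ((t.drop i).length + 1), v ((t.drop i).take j) * e ((t.drop i).drop j) := by
    have h1 : (∑' A : List Bool, if A ∈ RA c K l YY then wE A * ENNReal.ofReal (ψ A) else 0) = ∑' A, a A := by rw [ha]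
    rw [h1, e1, cut_sum (fun V E => v V * e E), ← ENNReal.tsum_mul_right,
      ← cut_sum (fun A Y => a A * ∑ j ∈ range (Y.length + 1), v (Y.take j) * e (Y.drop j))]
    exact tsum_congr fun A => ENNReal.tsum_mul_left.symm
  rw [e2]
  refine ENNReal.tsum_le_tsum fun t => ?_
  by_cases ht : t ∈ BotS (c - 1) (K + 1)
  · rw [if_pos ht, NT_ofReal hψ, mul_sum]
    refine sum_le_sum fun i hi => ?_
    rw [mem_range] at hi
    rw [mul_sum, mul_sum]
    have hlen : (t.drop i).length = t.length - i := List.length_drop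
    have h1 : ∑ j ∈ range ((t.drop i).length + 1), a (t.take i) * (v ((t.drop i).take j) * e ((t.drop i).drop j)) ≤
        ∑ j ∈ range ((t.drop i).length + 1), wE t *
          (if Dc l Ch t i (i + j) then ENNReal.ofReal (chi (2 ^ l) (t.drop (i + j))) * ENNReal.ofReal (ψ (t.take i)) else 0) := by
      refine sum_le_sum fun j hj => ?_
      rw [mem_range, hlen] at hj
      have g1 : (t.drop i).drop j = t.drop (i + j) := List.drop_drop
      have g2 : (t.drop i).take j = (t.take (i + j)).drop i := by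
        rw [List.drop_take, Nat.add_sub_cancel_left]
      rw [g1, ha, hv, he]
      show (if t.take i ∈ RA c K l YY then wE (t.take i) * ENNReal.ofReal (ψ (t.take i)) else 0) *
        ((if (t.drop i).take j ∈ Ch then wE ((t.drop i).take j) else 0) *
          (if t.drop (i + j) ∈ Hp (2 ^ l) then wE (t.drop (i + j)) * ENNReal.ofReal (chi (2 ^ l) (t.drop (i + j))) else 0)) ≤ _
      by_cases c1 : t.take i ∈ RA c K l YY
      · by_cases c2 : (t.drop i).take j ∈ Ch
        · by_cases c3 : t.drop (i + j) ∈ Hp (2 ^ l)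
          · have hD : Dc l Ch t i (i + j) := ⟨by omega, c1.1, by rw [← g2]; exact c2, c3⟩
            rw [if_pos c1, if_pos c2, if_pos c3, if_pos hD]
            have hw : wE t = wE (t.take i) * (wE ((t.drop i).take j) * wE (t.drop (i + j))) := by
              rw [← g1, ← wE_append, List.take_append_drop, ← wE_append, List.take_append_drop]
            rw [hw]
            exact le_of_eq (by ring)
          · rw [if_neg c3, mul_zero, mul_zero]
            exact zero_le
        · rw [if_neg c2, zero_mul, mul_zero]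
          exact zero_le
      · rw [if_neg c1, zero_mul]
        exact zero_le
    refine h1.trans ?_
    rw [hlen]
    rw [← sum_image (f := fun j => wE t *
          (if Dc l Ch t i j then ENNReal.ofReal (chi (2 ^ l) (t.drop j)) * ENNReal.ofReal (ψ (t.take i)) else 0))
          (g := fun j => i + j) (s := range (t.length - i + 1)) (fun x _ y _ h => Nat.add_left_cancel h)]
    refine sum_le_sum_of_subset ?_
    intro j hj
    rw [mem_image] at hj
    obtain ⟨j', hj', rfl⟩ := hj
    rw [mem_range] at hj' ⊢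
    omega
  · rw [if_neg ht]
    refine le_of_eq (sum_eq_zero fun i hi => ?_)
    rw [mem_range] at hi
    by_cases c1 : t.take i ∈ RA c K l YY
    · refine mul_eq_zero.2 (Or.inr (sum_eq_zero fun j hj => ?_))
      by_cases c2 : (t.drop i).take j ∈ Ch
      · by_cases c3 : (t.drop i).drop j ∈ Hp (2 ^ l)
        · exfalso
          have := clo hC hlc hcK hY c1 c2 c3
          rw [List.take_append_drop, List.take_append_drop] at this
          exact ht this
        · rw [he]
          show _ * (if (t.drop i).drop j ∈ Hp (2 ^ l) then _ else 0) = _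
          rw [if_neg c3, mul_zero]
      · rw [hv]
        show (if (t.drop i).take j ∈ Ch then _ else 0) * _ = _
        rw [if_neg c2, zero_mul]
    · rw [ha]
      show (if t.take i ∈ RA c K l YY then _ else 0) * _ = _
      rw [if_neg c1, zero_mul]

open Classical in
/-- the ends from below -/
lemma eT_low : ∃ (c : ℝ) (l0 : ℕ), 0 < c ∧ ∀ l : ℕ, l0 ≤ l → ENNReal.ofReal (c * Ub l) * NTA.Xb l ≤ eT l := by
  obtain ⟨c, l0, hc, h⟩ := hpLow
  refine ⟨c, l0, hc, fun l hl => (h l hl).trans ?_⟩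
  rw [gf_ite, eT]
  refine ENNReal.tsum_le_tsum fun E => ?_
  by_cases hE : E ∈ {E | E ∈ Hp (2 ^ l) ∧ E.length % 2 = 0 ∧ (2 : ℤ) ^ l ≤ 16 * ip (en E) up ∧ 32 * hn (en E) ≤ 15 * 2 ^ l}
  · rw [if_pos hE]
    obtain ⟨h1, -, h2, h3⟩ := hE
    rw [if_pos h1]
    have hr : (0 : ℝ) < ((2 ^ l : ℕ) : ℝ) := by positivity
    have h4 : ((2 ^ l : ℕ) : ℝ) ≤ 16 * (ip (en E) up : ℝ) := by
      push_cast
      exact_mod_cast h2
    have h5 : 32 * (hn (en E) : ℝ) ≤ 15 * ((2 ^ l : ℕ) : ℝ) := by
      push_cast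
      exact_mod_cast h3
    have h6 : chi (2 ^ l) E = 1 := by
      have g1 : (1 : ℝ) ≤ 32 * (ip (en E) up : ℝ) / ((2 ^ l : ℕ) : ℝ) - 1 := by
        rw [le_sub_iff_add_le, le_div_iff₀ hr]
        linarith
      have g2 : (1 : ℝ) ≤ 16 - 32 * (hn (en E) : ℝ) / ((2 ^ l : ℕ) : ℝ) := by
        rw [le_sub_comm, div_le_iff₀ hr]
        linarith
      have g3 : ∀ x : ℝ, 1 ≤ x → cl1 x = 1 := fun x hx => by
        unfold cl1
        rw [min_eq_left hx, max_eq_right zero_le_one]
      unfold chi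
      rw [g3 _ g1, g3 _ g2, min_self]
    rw [h6, ENNReal.ofReal_one, mul_one]
  · rw [if_neg hE]
    exact zero_le

end LB

open LB

open Classical in
/-- **S6, Boltzmann form**: nice words are dominated by the weight of the level -/
theorem lowB (m : ℕ) (CY κ : ℝ) (hCY : 0 < CY) (hκ : 0 < κ) : ∃ (C : ℝ) (l0 : ℕ), 0 < C ∧
    ∀ (l c K : ℕ) (Ch YY : Set (List Bool)) (Φ θ : List Bool → ℝ), l0 ≤ l → l + m + 5 ≤ c → c ≤ K → Chn l Ch →
    (∀ Y ∈ YY, ∀ i, i ≤ Y.length → hn (vx oo up Y i) < 2 ^ (l + m)) → gf YY ≤ ENNReal.ofReal (CY * Ub l) * NTA.Xb l →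
    (∀ t, 0 ≤ Φ t) → (∀ t, 0 ≤ θ t) →
    (∀ A1 Y, A1 ++ Y ∈ SA → (∀ i, i ≤ Y.length → hn (vx oo up Y i) < 2 ^ (l + m) + 2 ^ (l + 1)) →
      |Φ (A1 ++ Y) - Φ A1| ≤ θ A1) →
    ENNReal.ofReal (Ub l) * gf Ch * ∑' t : List Bool,
        (if t ∈ BotS c K ∧ t ∈ NcS l YY κ then wE t * ENNReal.ofReal (Φ t) else 0) ≤
      ENNReal.ofReal C * ((∑' t : List Bool,
          if t ∈ BotS (c - 1) (K + 1) then wE t * ENNReal.ofReal (N1 l Ch t * Φ t) else 0) +
        ∑' t : List Bool, if t ∈ BotS (c - 1) (K + 1) then wE t * ENNReal.ofReal (NT l Ch θ t) else 0) := by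
  obtain ⟨cE, l0, hcE, hlow⟩ := eT_low
  refine ⟨2 * (CY / (κ * cE)), l0, by positivity, fun l c K Ch YY Φ θ hl hlc hcK hC hY hYm hΦ hθ hosc => ?_⟩
  obtain ⟨X, hX⟩ : ∃ X : ℝ≥0∞, X = ∑' t : List Bool,
    (if t ∈ BotS c K ∧ t ∈ NcS l YY κ then wE t * ENNReal.ofReal (Φ t) else 0) := ⟨_, rfl⟩
  obtain ⟨G, hG⟩ : ∃ G : ℝ≥0∞, G =
    ∑' A : List Bool, if A ∈ RA c K l YY then wE A * ENNReal.ofReal (Φ A + θ A) else 0 := ⟨_, rfl⟩
  obtain ⟨R, hR⟩ : ∃ R : ℝ≥0∞, R = ∑' t : List Bool,
    if t ∈ BotS (c - 1) (K + 1) then wE t * ENNReal.ofReal (NT l Ch (fun A => Φ A + θ A) t) else 0 := ⟨_, rfl⟩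
  have s1 : ENNReal.ofReal (κ * Ub l) * X ≤ G * gf YY := by
    rw [hX, hG]
    exact step1 hY hosc
  have s2 : G * (gf Ch * eT l) ≤ R := by
    rw [hG, hR]
    exact step2 (fun A => add_nonneg (hΦ A) (hθ A)) hC hlc hcK hY
  have s3 := hlow l hl
  have s4 : R ≤ 2 * ((∑' t : List Bool,
          if t ∈ BotS (c - 1) (K + 1) then wE t * ENNReal.ofReal (N1 l Ch t * Φ t) else 0) +
        ∑' t : List Bool, if t ∈ BotS (c - 1) (K + 1) then wE t * ENNReal.ofReal (NT l Ch θ t) else 0) := by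
    rw [hR, ← ENNReal.tsum_add, ← ENNReal.tsum_mul_left]
    refine ENNReal.tsum_le_tsum fun t => ?_
    by_cases ht : t ∈ BotS (c - 1) (K + 1)
    · rw [if_pos ht, if_pos ht, if_pos ht, ← mul_add, ← mul_assoc, mul_comm (2 : ℝ≥0∞), mul_assoc]
      refine mul_le_mul' le_rfl ?_
      have hN : 0 ≤ N1 l Ch t := sum_nonneg fun p _ => mul_nonneg (chi_nonneg _ _) zero_le_one
      have hT : 0 ≤ NT l Ch θ t := sum_nonneg fun p _ => mul_nonneg (chi_nonneg _ _) (hθ _)
      have h1 : NT l Ch (fun A => Φ A + θ A) t ≤ N1 l Ch t * Φ t + 2 * NT l Ch θ t := by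
        unfold N1 NT
        rw [sum_mul, mul_sum, ← sum_add_distrib]
        refine sum_le_sum fun p hp => ?_
        obtain ⟨hp1, hp2⟩ := mem_filter.1 hp
        obtain ⟨d1, d2, d3, d4⟩ := hp2
        rw [mem_product, mem_range, mem_range] at hp1
        have e1 : t.take p.1 ++ t.drop p.1 = t := List.take_append_drop p.1 t
        have e2 : t.drop p.1 = (t.take p.2).drop p.1 ++ t.drop p.2 := by
          have h3 : t.drop p.1 = (t.drop p.1).take (p.2 - p.1) ++ (t.drop p.1).drop (p.2 - p.1) :=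
            (List.take_append_drop _ _).symm
          rw [List.drop_drop, show p.1 + (p.2 - p.1) = p.2 by omega] at h3
          rw [List.drop_take]
          exact h3
        have h2 := hosc (t.take p.1) (t.drop p.1) (by rw [e1]; exact ht.1.1) fun i hi => by
          have h4 := Hp_cat hC d3 d4
          rw [← e2] at h4
          have h5 := h4.2 i hi
          have h6 : (0 : ℤ) ≤ 2 ^ (l + m) := by positivity
          have h7 : (2 : ℤ) ^ (l + 1) = 2 * 2 ^ l := by rw [pow_add]; ring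
          push_cast at h5
          rw [h7]
          linarith
        rw [e1, abs_le] at h2
        have h3 := chi_nonneg (2 ^ l) (t.drop p.2)
        have h4 : Φ (t.take p.1) + θ (t.take p.1) ≤ Φ t + 2 * θ (t.take p.1) := by linarith
        calc chi (2 ^ l) (t.drop p.2) * (Φ (t.take p.1) + θ (t.take p.1))
            ≤ chi (2 ^ l) (t.drop p.2) * (Φ t + 2 * θ (t.take p.1)) := mul_le_mul_of_nonneg_left h4 h3
          _ = _ := by ring
      calc ENNReal.ofReal (NT l Ch (fun A => Φ A + θ A) t)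
          ≤ ENNReal.ofReal (N1 l Ch t * Φ t + 2 * NT l Ch θ t) := ENNReal.ofReal_le_ofReal h1
        _ ≤ ENNReal.ofReal (2 * (N1 l Ch t * Φ t + NT l Ch θ t)) := by
            refine ENNReal.ofReal_le_ofReal ?_
            have := mul_nonneg hN (hΦ t)
            linarith
        _ = 2 * (ENNReal.ofReal (N1 l Ch t * Φ t) + ENNReal.ofReal (NT l Ch θ t)) := by
            rw [ENNReal.ofReal_mul (by norm_num), ENNReal.ofReal_add (mul_nonneg hN (hΦ t)) hT]
            congr 1
            norm_num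
    · rw [if_neg ht]
      exact zero_le
  have hU := TS.Ub_pos l
  have hk : ENNReal.ofReal (κ * cE) ≠ 0 := by
    rw [Ne, ENNReal.ofReal_eq_zero, not_le]
    positivity
  have main : ENNReal.ofReal (κ * cE) * (ENNReal.ofReal (Ub l) * gf Ch * X) ≤ ENNReal.ofReal CY * R := by
    calc ENNReal.ofReal (κ * cE) * (ENNReal.ofReal (Ub l) * gf Ch * X)
        = ENNReal.ofReal cE * gf Ch * (ENNReal.ofReal (κ * Ub l) * X) := by
          rw [ENNReal.ofReal_mul hκ.le, ENNReal.ofReal_mul hκ.le]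
          ring
      _ ≤ ENNReal.ofReal cE * gf Ch * (G * (ENNReal.ofReal (CY * Ub l) * NTA.Xb l)) :=
          mul_le_mul' le_rfl (s1.trans (mul_le_mul' le_rfl hYm))
      _ = ENNReal.ofReal CY * (G * (gf Ch * (ENNReal.ofReal (cE * Ub l) * NTA.Xb l))) := by
          rw [ENNReal.ofReal_mul hCY.le, ENNReal.ofReal_mul hcE.le]
          ring
      _ ≤ ENNReal.ofReal CY * (G * (gf Ch * eT l)) := mul_le_mul' le_rfl (mul_le_mul' le_rfl (mul_le_mul' le_rfl s3))
      _ ≤ _ := mul_le_mul' le_rfl s2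
  rw [← hX]
  refine (ENNReal.mul_le_mul_iff_right hk ENNReal.ofReal_ne_top).1 ?_
  refine main.trans ((mul_le_mul' le_rfl s4).trans (le_of_eq ?_))
  have e : ENNReal.ofReal (2 * (CY / (κ * cE))) = 2 * ENNReal.ofReal (CY / (κ * cE)) := by
    rw [ENNReal.ofReal_mul (by norm_num)]
    congr 1
    norm_num
  have e' : ENNReal.ofReal CY = ENNReal.ofReal (κ * cE) * ENNReal.ofReal (CY / (κ * cE)) := by
    rw [← ENNReal.ofReal_mul (by positivity)]
    congr 1
    field_simp
  rw [e, e']
  ring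

/-- the literal `LowB` of DefsB -/
theorem low_B : LowB := fun m CY κ h1 h2 => lowB m CY κ h1 h2

end SLW

end HexObs
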