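import Pool.Agent.SLW.DefsB
import Pool.Agent.TIW.Mom2
import Pool.Agent.TIP.ClsB

/-!
SLW, second moments of the number of the cuts in the ensemble of the right parts (helper65).

* `cutsum` : sums over words and cuts = sums over pairs;
* `mom_abs`: a class FA of far parts with a free half ball, a class T with all the glued words in T:
  `gf FA * gf (Hp r) ≤ 12 U gf T`, and the second moment of the number of the cuts is at most `(12 U) ^ 2 gf T`;
* **`momB : MomB`**.
-/

set_option autoImplicit false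

namespace HexObs

namespace SLW

open Finset TS SDN TIW HexObs.SIM

open scoped ENNReal

open scoped Classical

namespace MB

/-- sums over words and cuts as sums over pairs -/
lemma cutsum (FA HE : Set (List Bool)) (D : List Bool → Finset ℕ)
    (hD : ∀ t k, k ∈ D t ↔ k ≤ t.length ∧ t.take k ∈ FA ∧ t.drop k ∈ HE) (g : List Bool → List Bool → ℝ≥0∞) :
    ∑' t : List Bool, ∑ k ∈ D t, g (t.take k) (t.drop k) = ∑' p : FA × HE, g p.1 p.2 := by
  have h1 : ∀ t : List Bool, ∑ k ∈ D t, g (t.take k) (t.drop k) =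
      ∑' k : {k // k ∈ D t}, g (t.take k.1) (t.drop k.1) := by
    intro t
    rw [tsum_fintype, Finset.sum_coe_sort (D t) fun k => g (t.take k) (t.drop k)]
  simp_rw [h1]
  rw [← ENNReal.tsum_sigma' fun x : (Σ t : List Bool, {k // k ∈ D t}) => g (x.1.take x.2.1) (x.1.drop x.2.1)]
  let e : FA × HE ≃ (Σ t : List Bool, {k // k ∈ D t}) :=
    { toFun := fun p => ⟨p.1.1 ++ p.2.1, p.1.1.length, by
        rw [hD, List.take_left' rfl, List.drop_left' rfl]
        exact ⟨by rw [List.length_append]; omega, p.1.2, p.2.2⟩⟩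
      invFun := fun x => (⟨x.1.take x.2.1, ((hD _ _).1 x.2.2).2.1⟩, ⟨x.1.drop x.2.1, ((hD _ _).1 x.2.2).2.2⟩)
      left_inv := by
        rintro ⟨⟨A, hA⟩, ⟨E, hE⟩⟩
        simp only [List.take_left', List.drop_left']
      right_inv := by
        rintro ⟨t, k, hk⟩
        have h2 := ((hD _ _).1 hk).1
        have h3 : (t.take k).length = k := by rw [List.length_take]; omega
        have h4 : t.take k ++ t.drop k = t := List.take_append_drop k t
        refine Sigma.ext h4 ?_
        refine (Subtype.heq_iff_coe_eq fun j => ?_).2 h3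
        simp only [h4] }
  rw [← Equiv.tsum_eq e]
  refine tsum_congr fun p => ?_
  show g ((p.1.1 ++ p.2.1).take p.1.1.length) ((p.1.1 ++ p.2.1).drop p.1.1.length) = g p.1 p.2
  rw [List.take_left' rfl, List.drop_left' rfl]

/-- sums over pairs of products -/
lemma pair_gf (P Q : Set (List Bool)) : ∑' p : P × Q, wE p.1.1 * wE p.2.1 = gf P * gf Q := by
  unfold gf
  rw [← ENNReal.tsum_mul_right]
  simp_rw [← ENNReal.tsum_mul_left]
  rw [ENNReal.tsum_prod (f := fun (a : P) (b : Q) => wE a.1 * wE b.1)]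

/-- the same with a weight of the second word -/
lemma pair_wt (P Q : Set (List Bool)) (f : List Bool → ℝ≥0∞) :
    ∑' p : P × Q, wE p.1.1 * (wE p.2.1 * f p.2.1) = gf P * ∑' E : Q, wE E.1 * f E.1 := by
  unfold gf
  rw [← ENNReal.tsum_mul_right]
  simp_rw [← ENNReal.tsum_mul_left]
  rw [ENNReal.tsum_prod (f := fun (a : P) (b : Q) => wE a.1 * (wE b.1 * f b.1))]

/-- the cuts of the scale r with the far part in RA -/
noncomputable def cuA (r : ℕ) (RA : Set (List Bool)) (t : List Bool) : Finset ℕ := (cu r t).filter fun k => t.take k ∈ RA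

lemma mem_cuA {r : ℕ} {RA : Set (List Bool)} {t : List Bool} {k : ℕ} : k ∈ cuA r RA t ↔
    k ≤ t.length ∧ t.take k ∈ RA ∩ Fe (2 * r) ∧ t.drop k ∈ Hp r := by
  unfold cuA cu
  rw [Finset.mem_filter, Finset.mem_filter, Finset.mem_range]
  constructor
  · rintro ⟨⟨h1, h2, h3⟩, h4⟩
    exact ⟨by omega, ⟨h4, h2⟩, h3⟩
  · rintro ⟨h1, ⟨h4, h2⟩, h3⟩
    exact ⟨⟨by omega, h2, h3⟩, h4⟩

/-- **the pairs of cuts**, with a class of far parts -/
theorem np_sqA (r : ℕ) (RA : Set (List Bool)) (t : List Bool) :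
    ((cuA r RA t).card : ℝ) ^ 2 ≤ 12 * ∑ k ∈ cuA r RA t, ((JJ r (t.drop k)).card : ℝ) := by
  obtain ⟨dd, hdd⟩ : ∃ dd : ℕ → Pt, dd = fun k => de (t.take k) := ⟨_, rfl⟩
  have hmap : ∀ k ∈ cuA r RA t, dd k ∈ dirs := fun k _ => by
    rw [hdd]
    exact de_mem _
  have hc : ((cuA r RA t).card : ℝ) = ∑ d ∈ dirs, (((cuA r RA t).filter fun k => dd k = d).card : ℝ) := by
    rw [Finset.card_eq_sum_card_fiberwise hmap]
    push_cast
    rfl
  have h6 : dirs.card = 6 := by decide
  have h1 : ((cuA r RA t).card : ℝ) ^ 2 ≤ 6 * ∑ d ∈ dirs, (((cuA r RA t).filter fun k => dd k = d).card : ℝ) ^ 2 := by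
    rw [hc]
    have := sq_sum_le_card_mul_sum_sq (s := dirs) (f := fun d => (((cuA r RA t).filter fun k => dd k = d).card : ℝ))
    rw [h6] at this
    exact_mod_cast this
  have h2 : ∑ d ∈ dirs, (((cuA r RA t).filter fun k => dd k = d).card : ℝ) ^ 2 ≤
      ∑ d ∈ dirs, ∑ k ∈ (cuA r RA t).filter (fun k => dd k = d), 2 * ((JJ r (t.drop k)).card : ℝ) := by
    refine Finset.sum_le_sum fun d _ => (sq_le_ord _).trans ?_
    rw [Finset.mul_sum]
    refine Finset.sum_le_sum fun k hk => ?_
    refine mul_le_mul_of_nonneg_left ?_ (by norm_num)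
    have h3 : (((cuA r RA t).filter fun k => dd k = d).filter fun k' => k ≤ k').card ≤ (JJ r (t.drop k)).card := by
      refine Finset.card_le_card_of_injOn (fun k' => k' - k) ?_ ?_
      · intro k' hk'
        rw [Finset.mem_coe, Finset.mem_filter, Finset.mem_filter] at hk'
        rw [Finset.mem_filter] at hk
        obtain ⟨⟨hk1, hk2⟩, hkk⟩ := hk'
        obtain ⟨hk3, hk4⟩ := hk
        rw [mem_cuA] at hk1 hk3
        have e1 : t.take k' = t.take k ++ (t.drop k).take (k' - k) := by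
          rw [← List.take_add, show k + (k' - k) = k' by omega]
        have e2 : t.drop k' = (t.drop k).drop (k' - k) := by
          rw [List.drop_drop, show k + (k' - k) = k' by omega]
        have e3 : (t.drop k).take (k' - k) ++ (t.drop k).drop (k' - k) = t.drop k := List.take_append_drop _ _
        have e4 : de (t.take k') = de (t.take k) := by
          rw [hdd] at hk2 hk4
          exact hk2.trans hk4.symm
        have h5 := zbu r (t.take k) ((t.drop k).take (k' - k)) ((t.drop k).drop (k' - k)) (by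
          rw [← e1]
          exact hk1.2.1.2) (by
          rw [e3]
          exact hk3.2.2) (by rw [← e1]; exact e4)
        show k' - k ∈ (JJ r (t.drop k) : Set ℕ)
        rw [Finset.mem_coe]
        unfold JJ
        rw [Finset.mem_filter, Finset.mem_range, List.length_drop]
        refine ⟨by omega, h5.1, h5.2, ?_⟩
        rw [← e2]
        exact hk1.2.2
      · intro a ha b hb he
        rw [Finset.mem_coe, Finset.mem_filter] at ha hb
        simp only at he
        have := ha.2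
        have := hb.2
        omega
    exact_mod_cast h3
  have h4 : ∑ d ∈ dirs, ∑ k ∈ (cuA r RA t).filter (fun k => dd k = d), 2 * ((JJ r (t.drop k)).card : ℝ) =
      ∑ k ∈ cuA r RA t, 2 * ((JJ r (t.drop k)).card : ℝ) := Finset.sum_fiberwise_of_maps_to hmap _
  rw [h4, ← Finset.mul_sum] at h2
  linarith

/-- the splittings of the ends: a product bound -/
lemma sum_JJ (r : ℕ) : ∑' E : Hp r, wE E.1 * ((JJ r E.1).card : ℝ≥0∞) ≤ ENNReal.ofReal (UU r) * gf (Hp r) := by
  have h0 : ∑' E : Hp r, wE E.1 * ((JJ r E.1).card : ℝ≥0∞) ≤ ∑' E : List Bool, wE E * ((JJ r E).card : ℝ≥0∞) :=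
    ENNReal.tsum_comp_le_tsum_of_injective Subtype.val_injective fun E : List Bool => wE E * ((JJ r E).card : ℝ≥0∞)
  refine h0.trans ?_
  have h1 : ∀ E : List Bool, wE E * ((JJ r E).card : ℝ≥0∞) = ∑ j ∈ JJ r E, wE (E.take j) * wE (E.drop j) := by
    intro E
    have h2 : ∀ j ∈ JJ r E, wE (E.take j) * wE (E.drop j) = wE E := fun j _ => by
      rw [← wE_append, List.take_append_drop]
    rw [Finset.sum_congr rfl h2, Finset.sum_const, nsmul_eq_mul, mul_comm]
  simp_rw [h1]
  rw [cutsum {Z | Z ∈ BU ∧ 3 * (hgt Z : ℤ) < r} (Hp r) (JJ r) (fun t k => ?_) fun a b => wE a * wE b, pair_gf]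
  · refine mul_le_mul' ((gf_mono ?_).trans (TIP.gf_low r)) le_rfl
    rintro Z ⟨h2, h3⟩
    exact ⟨h2, by omega⟩
  · unfold JJ
    rw [Finset.mem_filter, Finset.mem_range, Set.mem_ofPred_eq]
    constructor
    · rintro ⟨h2, h3, h4, h5⟩
      exact ⟨by omega, ⟨h3, h4⟩, h5⟩
    · rintro ⟨h2, ⟨h3, h4⟩, h5⟩
      exact ⟨by omega, h3, h4, h5⟩

/-- second moment against the product of the masses -/
lemma mom_two (r : ℕ) (RA : Set (List Bool)) :
    ∑' t : List Bool, wE t * ENNReal.ofReal (((cuA r RA t).card : ℝ) ^ 2) ≤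
      ENNReal.ofReal (12 * UU r) * (gf (RA ∩ Fe (2 * r)) * gf (Hp r)) := by
  have h1 : ∀ t : List Bool, wE t * ENNReal.ofReal (((cuA r RA t).card : ℝ) ^ 2) ≤
      ENNReal.ofReal 12 * ∑ k ∈ cuA r RA t, wE (t.take k) * (wE (t.drop k) * ((JJ r (t.drop k)).card : ℝ≥0∞)) := by
    intro t
    have h2 := ENNReal.ofReal_le_ofReal (np_sqA r RA t)
    rw [ENNReal.ofReal_mul (by norm_num), ENNReal.ofReal_sum_of_nonneg fun k _ => Nat.cast_nonneg _] at h2
    simp_rw [ENNReal.ofReal_natCast] at h2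
    refine (mul_le_mul' le_rfl h2).trans (le_of_eq ?_)
    rw [← mul_assoc, mul_comm (wE t), mul_assoc, Finset.mul_sum]
    congr 1
    refine Finset.sum_congr rfl fun k _ => ?_
    rw [← mul_assoc, ← wE_append, List.take_append_drop]
  refine (ENNReal.tsum_le_tsum h1).trans ?_
  rw [ENNReal.tsum_mul_left, cutsum (RA ∩ Fe (2 * r)) (Hp r) (cuA r RA) (fun t k => mem_cuA)
    fun a b => wE a * (wE b * ((JJ r b).card : ℝ≥0∞)), pair_wt (RA ∩ Fe (2 * r)) (Hp r) fun b => ((JJ r b).card : ℝ≥0∞),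
    ENNReal.ofReal_mul (by norm_num)]
  calc ENNReal.ofReal 12 * (gf (RA ∩ Fe (2 * r)) * ∑' E : Hp r, wE E.1 * ((JJ r E.1).card : ℝ≥0∞))
      ≤ ENNReal.ofReal 12 * (gf (RA ∩ Fe (2 * r)) * (ENNReal.ofReal (UU r) * gf (Hp r))) := by
        gcongr
        exact sum_JJ r
    _ = _ := by ring

/-- **the abstract second moment** -/
theorem mom_abs {r : ℕ} {RA T : Set (List Bool)} (hr : 0 < r) (hT : gf T ≠ ∞)
    (hg : ∀ A E, A ∈ RA → A ∈ Fe (2 * r) → E ∈ Hp r → A ++ E ∈ T) :
    gf (RA ∩ Fe (2 * r)) * gf (Hp r) ≤ ENNReal.ofReal (12 * UU r) * gf T ∧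
    ∑' t : List Bool, wE t * ENNReal.ofReal (((cuA r RA t).card : ℝ) ^ 2) ≤
      ENNReal.ofReal ((12 * UU r) ^ 2) * gf T := by
  have hU : 0 < UU r := Num2Aux.UU_pos r
  obtain ⟨M1, hM1⟩ : ∃ M1, M1 = gf (RA ∩ Fe (2 * r)) * gf (Hp r) := ⟨_, rfl⟩
  have hnil : ([] : List Bool) ∈ Hp r := by
    refine ⟨⟨fun i h1 h2 => ?_, fun i k h1 h2 => ?_⟩, fun i hi => ?_⟩
    · simp only [List.length_nil] at h2
      omega
    · simp only [List.length_nil] at h2
      omega
    · simp only [List.length_nil, Nat.le_zero] at hi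
      subst hi
      show hn oo < r
      have : hn oo = 0 := by decide
      rw [this]
      exact_mod_cast hr
  have hfin : M1 ≠ ∞ := by
    rw [hM1]
    refine ENNReal.mul_ne_top ?_ ?_
    · refine ne_top_of_le_ne_top hT (gf_mono ?_)
      rintro A ⟨h1, h2⟩
      have := hg A [] h1 h2 hnil
      rwa [List.append_nil] at this
    · have h1 : Hp r = (HpF r : Set (List Bool)) := by
        ext E
        rw [Finset.mem_coe, mem_HpF]
      rw [h1, gf_finset]
      exact ENNReal.ofReal_ne_top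
  have h2 := mom_two r RA
  rw [← hM1] at h2
  have h3 : M1 = ∑' t : List Bool, wE t * ((cuA r RA t).card : ℝ≥0∞) := by
    rw [hM1, ← pair_gf, ← cutsum (RA ∩ Fe (2 * r)) (Hp r) (cuA r RA) (fun t k => mem_cuA) fun a b => wE a * wE b]
    refine tsum_congr fun t => ?_
    have h4 : ∀ j ∈ cuA r RA t, wE (t.take j) * wE (t.drop j) = wE t := fun j _ => by
      rw [← wE_append, List.take_append_drop]
    rw [Finset.sum_congr rfl h4, Finset.sum_const, nsmul_eq_mul, mul_comm]
  have h4 : ∀ t : List Bool, wE t * ((cuA r RA t).card : ℝ≥0∞) ≤ ENNReal.ofReal (6 * UU r) * T.indicator wE t +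
      ENNReal.ofReal (1 / (24 * UU r)) * (wE t * ENNReal.ofReal (((cuA r RA t).card : ℝ) ^ 2)) := by
    intro t
    rcases (cuA r RA t).eq_empty_or_nonempty with h5 | ⟨k, hk⟩
    · rw [h5, Finset.card_empty, Nat.cast_zero, mul_zero]
      exact zero_le
    · have h6 : t ∈ T := by
        obtain ⟨h7, ⟨h8, h9⟩, h10⟩ := mem_cuA.1 hk
        have := hg _ _ h8 h9 h10
        rwa [List.take_append_drop] at this
      rw [Set.indicator_of_mem h6]
      generalize (cuA r RA t).card = N
      have h7 : (N : ℝ) ≤ 6 * UU r + 1 / (24 * UU r) * (N : ℝ) ^ 2 := by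
        have h8 : 0 ≤ ((N : ℝ) - 12 * UU r) ^ 2 / (24 * UU r) := by positivity
        have h9 : ((N : ℝ) - 12 * UU r) ^ 2 / (24 * UU r) = 1 / (24 * UU r) * (N : ℝ) ^ 2 - N + 6 * UU r := by
          field_simp
          ring
        linarith
      have h8 := ENNReal.ofReal_le_ofReal h7
      rw [ENNReal.ofReal_natCast, ENNReal.ofReal_add (by positivity) (by positivity),
        ENNReal.ofReal_mul (p := 1 / (24 * UU r)) (by positivity)] at h8
      calc wE t * (N : ℝ≥0∞) ≤ wE t * (ENNReal.ofReal (6 * UU r) +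
          ENNReal.ofReal (1 / (24 * UU r)) * ENNReal.ofReal ((N : ℝ) ^ 2)) := mul_le_mul' le_rfl h8
        _ = _ := by ring
  have h5 : M1 ≤ ENNReal.ofReal (6 * UU r) * gf T + ENNReal.ofReal (1 / 2) * M1 := by
    have h6 := ENNReal.tsum_le_tsum h4
    rw [← h3, ENNReal.tsum_add, ENNReal.tsum_mul_left, ENNReal.tsum_mul_left] at h6
    have h7 : ∑' t : List Bool, T.indicator wE t = gf T := by
      unfold gf
      rw [_root_.tsum_subtype]
    rw [h7] at h6
    refine h6.trans (add_le_add le_rfl ?_)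
    refine (mul_le_mul' le_rfl h2).trans (le_of_eq ?_)
    rw [← mul_assoc, ← ENNReal.ofReal_mul (by positivity)]
    congr 2
    field_simp
    norm_num
  have h6 : M1 ≤ ENNReal.ofReal (12 * UU r) * gf T := by
    have e1 : M1 = ENNReal.ofReal (1 / 2) * M1 + ENNReal.ofReal (1 / 2) * M1 := by
      rw [← add_mul, ← ENNReal.ofReal_add (by norm_num) (by norm_num)]
      norm_num
    have h7 : ENNReal.ofReal (1 / 2) * M1 ≠ ∞ := ENNReal.mul_ne_top ENNReal.ofReal_ne_top hfin
    nth_rw 1 [e1] at h5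
    have h8 : ENNReal.ofReal (1 / 2) * M1 ≤ ENNReal.ofReal (6 * UU r) * gf T :=
      (ENNReal.add_le_add_iff_right h7).1 h5
    calc M1 = ENNReal.ofReal (1 / 2) * M1 + ENNReal.ofReal (1 / 2) * M1 := e1
      _ ≤ ENNReal.ofReal (6 * UU r) * gf T + ENNReal.ofReal (6 * UU r) * gf T := add_le_add h8 h8
      _ = _ := by
        rw [← add_mul, ← ENNReal.ofReal_add (by positivity) (by positivity)]
        congr 2
        ring
  rw [← hM1]
  refine ⟨h6, h2.trans ?_⟩
  calc ENNReal.ofReal (12 * UU r) * M1 ≤ ENNReal.ofReal (12 * UU r) * (ENNReal.ofReal (12 * UU r) * gf T) :=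
        mul_le_mul' le_rfl h6
    _ = _ := by
      rw [← mul_assoc, ← ENNReal.ofReal_mul (by positivity), sq]

/-! ### right parts -/

/-- the far part of a right part is a right part -/
lemma botS_far {c K l : ℕ} {A E : List Bool} (h : A ++ E ∈ BotS (c + 1) K)
    (hE : ∀ i, i ≤ E.length → hn (vx oo up E i) < 2 ^ l) (hl : l ≤ c) : A ∈ BotS c K := by
  obtain ⟨⟨hSA, hbox⟩, a, ha, hR, hpos⟩ := h
  have hp : (2 : ℤ) ^ l ≤ 2 ^ c := pow_le_pow_right₀ (by norm_num) hl
  have h2 : (2 : ℤ) ^ (c + 1) = 2 * 2 ^ c := by rw [pow_succ]; ring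
  have h0 : (0 : ℤ) < 2 ^ c := by positivity
  unfold RR at hR
  rw [h2] at hR
  have hA : A ∈ WL K := by
    refine ⟨?_, fun i hi dir => ?_⟩
    · have := SA_take hSA A.length
      rwa [List.take_left' rfl] at this
    · have := hbox i (by rw [List.length_append]; omega) dir
      rwa [vx_append (by omega)] at this
  rcases Nat.lt_or_ge A.length a with h1 | h1
  · refine ⟨hA, A.length, le_rfl, ?_, fun i i1 i2 => ?_⟩
    · obtain ⟨i, rfl⟩ : ∃ i, a = A.length + i := ⟨a - A.length, by omega⟩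
      rw [List.length_append] at ha
      have h3 : lev (A ++ E) (A.length + i) = lev A A.length + ip (mulE (rt A) (vx oo up E i)) up := by
        unfold lev
        rw [vx_app, ip_add_left]
        rfl
      have h4 : ip (mulE (rt A) (vx oo up E i)) up ≤ hn (vx oo up E i) := by
        rw [← hn_mulE (nrm_rt A) (vx oo up E i)]
        exact ip_le_hn _ upd'
      have h5 := hE i (by omega)
      unfold RR
      rw [h3] at hR
      linarith
    · have := hpos i i1 (by omega)
      rwa [lev_append (by omega)] at this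
  · refine ⟨hA, a, h1, ?_, fun i i1 i2 => ?_⟩
    · rw [lev_append (by omega)] at hR
      unfold RR
      linarith
    · have := hpos i i1 i2
      rwa [lev_append (by omega)] at this

/-- gluing an end of small size -/
lemma botS_glue {c K l : ℕ} {A E : List Bool} (hA : A ∈ BotS c K) (hF : A ∈ Fe (2 * 2 ^ l)) (hE : E ∈ Hp (2 ^ l))
    (hl : l ≤ K) : A ++ E ∈ BotS c (K + 1) := by
  obtain ⟨⟨hSA, hbox⟩, a, ha, hR, hpos⟩ := hA
  have hp : (2 : ℤ) ^ l ≤ 2 ^ K := pow_le_pow_right₀ (by norm_num) hl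
  have h2 : (2 : ℤ) ^ (K + 1) = 2 * 2 ^ K := by rw [pow_succ]; ring
  have h0 : (0 : ℤ) < 2 ^ K := by positivity
  refine ⟨⟨fe_app hSA hF hE, fun i hi dir => ?_⟩, a, by rw [List.length_append]; omega, ?_, fun i i1 i2 => ?_⟩
  · rw [h2]
    rcases Nat.lt_or_ge A.length i with h1 | h1
    · obtain ⟨j, rfl⟩ : ∃ j, i = A.length + j := ⟨i - A.length, by omega⟩
      rw [List.length_append] at hi
      have h3 := hbox A.length le_rfl dir
      have h4 := hE.2 j (by omega)
      push_cast at h4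
      have hdir : hd dir ∈ dirs := by cases dir <;> decide
      have h5 : |ip (mulE (rt A) (vx oo up E j)) (hd dir)| ≤ hn (vx oo up E j) := by
        rw [← hn_mulE (nrm_rt A) (vx oo up E j), abs_le]
        exact ⟨neg_hn_le_ip _ hdir, ip_le_hn _ hdir⟩
      have h6 : lvl dir (vx oo up (A ++ E) (A.length + j)) =
          lvl dir (vx oo up A A.length) + ip (mulE (rt A) (vx oo up E j)) (hd dir) := by
        unfold lvl
        rw [vx_app, ip_add_left]
        rfl
      unfold row at h3 ⊢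
      rw [h6]
      generalize lvl dir (vx oo up A A.length) = x at h3 ⊢
      generalize ip (mulE (rt A) (vx oo up E j)) (hd dir) = y at h5 ⊢
      generalize hn (vx oo up E j) = z at h4 h5
      generalize (2 : ℤ) ^ K = N at *
      generalize (2 : ℤ) ^ l = M at *
      rw [abs_le] at *
      constructor <;> omega
    · have := hbox i h1 dir
      rw [vx_append (by omega)]
      linarith
  · rwa [lev_append (by omega)]
  · rw [lev_append (by omega)]
    exact hpos i i1 i2

lemma botS_box {c K K' : ℕ} (h : K ≤ K') : BotS c K ⊆ BotS c K' := by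
  rintro t ⟨h1, h2⟩
  exact ⟨⟨h1.1, fun i hi dir => (h1.2 i hi dir).trans (pow_le_pow_right₀ (by norm_num) h)⟩, h2⟩

/-- **the number of the cuts in the ensemble of the right parts**: product of the masses, second moment; with the class of
the far parts -/
theorem mom_botS : ∀ J : ℕ, ∃ (A : ℝ) (c0 : ℕ), 0 < A ∧ ∀ l c K : ℕ, l + c0 ≤ c + 1 → c + 1 ≤ K → K ≤ c + 1 + J →
    gf (BotS c K ∩ Fe (2 * 2 ^ l)) * gf (Hp (2 ^ l)) ≤ ENNReal.ofReal (A * Ub l * Ub K) * NTA.Xb K ∧
    ∑' t : List Bool, wE t * ENNReal.ofReal (((cuA (2 ^ l) (BotS c K) t).card : ℝ) ^ 2) ≤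
      ENNReal.ofReal (A * Ub l ^ 2 * Ub K) * NTA.Xb K := by
  intro J
  obtain ⟨C, k0, hC, h⟩ := TIP.tot_BotS
  have hC0 : 0 < C := by linarith
  refine ⟨144 * C ^ (J + 9), k0 + 2, by positivity, fun l c K h1 h2 h3 => ?_⟩
  have hU := Ub_pos K
  have hl := Ub_pos l
  have hT : gf (BotS c (K + 1)) ≤ ENNReal.ofReal (C ^ (J + 9) * Ub K) * NTA.Xb K := by
    refine (gf_mono (botS_box (show K + 1 ≤ K + 3 by omega))).trans ((h c K (by omega) (by omega)).trans ?_)
    refine mul_le_mul' (ENNReal.ofReal_le_ofReal ?_) le_rfl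
    exact mul_le_mul_of_nonneg_right (pow_le_pow_right₀ hC (by omega)) hU.le
  have hTf : gf (BotS c (K + 1)) ≠ ∞ :=
    ne_top_of_le_ne_top (ENNReal.mul_ne_top ENNReal.ofReal_ne_top (NTA.Xb_ne_top K)) hT
  have hpow : 0 < 2 ^ l := by positivity
  obtain ⟨k1, k2⟩ := mom_abs (RA := BotS c K) hpow hTf fun A E a1 a2 a3 => botS_glue a1 a2 a3 (by omega)
  have hUb : UU (2 ^ l) = Ub l := rfl
  rw [hUb] at k1 k2
  constructor
  · refine k1.trans ((mul_le_mul' le_rfl hT).trans ?_)
    rw [← mul_assoc, ← ENNReal.ofReal_mul (by positivity)]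
    refine mul_le_mul' (ENNReal.ofReal_le_ofReal ?_) le_rfl
    have h4 : 0 ≤ C ^ (J + 9) * Ub l * Ub K := by positivity
    nlinarith
  · refine k2.trans ((mul_le_mul' le_rfl hT).trans (le_of_eq ?_))
    rw [← mul_assoc, ← ENNReal.ofReal_mul (by positivity)]
    congr 2
    ring

end MB

open MB

/-- **B10: second moments, right parts** -/
theorem momB : MomB := by
  intro J
  obtain ⟨A, c0, hA, h⟩ := mom_botS J
  refine ⟨A, c0 + 2, hA, fun l c K h1 h2 h3 => ?_⟩
  obtain ⟨c', rfl⟩ : ∃ c', c = c' + 1 := ⟨c - 1, by omega⟩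
  refine le_trans (ENNReal.tsum_le_tsum fun t => ?_) (h l c' K (by omega) h2 h3).2
  split_ifs with ht
  · refine mul_le_mul' le_rfl (ENNReal.ofReal_le_ofReal ?_)
    have h4 : cu (2 ^ l) t ⊆ cuA (2 ^ l) (BotS c' K) t := by
      intro k hk
      unfold cuA
      rw [Finset.mem_filter]
      refine ⟨hk, ?_⟩
      unfold cu at hk
      rw [Finset.mem_filter] at hk
      have h5 := hk.2.2.2
      refine botS_far (l := l) (E := t.drop k) (by rwa [List.take_append_drop]) (fun i hi => ?_) (by omega)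
      have := h5 i hi
      push_cast at this
      exact this
    have h5 : NP (2 ^ l) t ≤ ((cuA (2 ^ l) (BotS c' K) t).card : ℝ) := by
      unfold NP
      exact_mod_cast Finset.card_le_card h4
    have h6 : 0 ≤ NP (2 ^ l) t := Nat.cast_nonneg _
    exact pow_le_pow_left₀ h6 h5 2
  · exact zero_le

end SLW

end HexObs
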