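import Pool.Agent.SLW.DefsB
import Pool.Agent.TIP.NfC
import Pool.Agent.TIW.Nice

/-!
SLW, B8 (helper84): niceness of the right parts at every level, from ExB, LzB, YBad.
-/

set_option autoImplicit false

namespace HexObs

namespace SLW

open Finset TS SDN TIW SIM TIP TIP.Nf

open scoped ENNReal

namespace NB

/-- cancellation of the mass of the tips -/
lemma cancelB {b : ℕ} {μ Z : ℝ≥0∞} {q y a : ℝ} (hq : 0 < q) (ha : 0 ≤ a)
    (h : μ * (ENNReal.ofReal q * NTA.Xb b) ≤ (ENNReal.ofReal a * Z) * (ENNReal.ofReal y * NTA.Xb b)) :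
    μ ≤ ENNReal.ofReal (a * y / q) * Z := by
  have e1 : ENNReal.ofReal q ≠ 0 := by
    rw [Ne, ENNReal.ofReal_eq_zero, not_le]
    exact hq
  have e2 : ENNReal.ofReal (a * y / q) * ENNReal.ofReal q = ENNReal.ofReal a * ENNReal.ofReal y := by
    rw [← ENNReal.ofReal_mul' hq.le, ← ENNReal.ofReal_mul ha]
    congr 1
    field_simp
  have h1 : (μ * ENNReal.ofReal q) * NTA.Xb b ≤ ((ENNReal.ofReal (a * y / q) * Z) * ENNReal.ofReal q) * NTA.Xb b := by
    calc (μ * ENNReal.ofReal q) * NTA.Xb b = μ * (ENNReal.ofReal q * NTA.Xb b) := by ring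
      _ ≤ (ENNReal.ofReal a * Z) * (ENNReal.ofReal y * NTA.Xb b) := h
      _ = ((ENNReal.ofReal a * ENNReal.ofReal y) * Z) * NTA.Xb b := by ring
      _ = ((ENNReal.ofReal (a * y / q) * ENNReal.ofReal q) * Z) * NTA.Xb b := by rw [e2]
      _ = _ := by ring
  have h2 := (ENNReal.mul_le_mul_iff_left (NTA.Xb_ne_zero b) (NTA.Xb_ne_top b)).1 h1
  exact (ENNReal.mul_le_mul_iff_left e1 ENNReal.ofReal_ne_top).1 h2

/-- right parts are not small -/
lemma botS_big {c K s : ℕ} {R : List Bool} (hR : R ∈ BotS c K) (hs : 3 * s < 3 * 2 ^ c) : ¬ In s R := by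
  intro h
  obtain ⟨-, a, ha, h1, -⟩ := hR
  have p1 : |(vx oo up R a).1 - 0| ≤ (s : ℤ) := (h a ha).1
  have p2 : |(vx oo up R a).2 - 0| ≤ (s : ℤ) := (h a ha).2
  rw [sub_zero, abs_le] at p1 p2
  have h2 : lev R a = (vx oo up R a).1 + 2 * (vx oo up R a).2 := by
    unfold lev
    simp only [ip, up]
    ring
  have h3 : (RR c : ℤ) = 3 * 2 ^ c - 2 := rfl
  have hs' : 3 * (s : ℤ) < 3 * 2 ^ c := by exact_mod_cast hs
  rw [h2, h3] at h1
  omega

end NB

open NB

open Classical in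
theorem niceB_of {κ : ℝ} {C : ℕ} (hκ : 0 < κ) (hLz : LzB κ C) (hY : YBad κ C) (hE : ExB) : NiceB := by
  have hW := neW
  have hYM : YMassG := ymassG
  intro e J he
  obtain ⟨η, hηd⟩ : ∃ η : ℝ, η = κ / 8 := ⟨_, rfl⟩
  have hη : 0 < η := by rw [hηd]; positivity
  obtain ⟨J1, b1, hY⟩ := hY η 1 2 hη
  obtain ⟨C1, cE, hC1, hE⟩ := hE η (e / 4) J hη (by positivity)
  obtain ⟨CU, κ0, r0, hCU, hκ0, hUA⟩ := uah6
  obtain ⟨cL, bL, hLz⟩ := hLz (e / 4) J (cE + 3) (by positivity)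
  -- the choice of m
  obtain ⟨m, hm1, hm2', hm3⟩ : ∃ m : ℕ, J1 ≤ m ∧ 2 * C + 3 ≤ 2 ^ m ∧ (8 * C1 / κ) * (1 / 2) ^ m ≤ e / 4 := by
    obtain ⟨m0, hm0⟩ := ex_pow (K := 8 * C1 / κ) (e := e / 4) (by positivity)
    refine ⟨max (max J1 (2 * C + 3)) m0, (le_max_left _ _).trans (le_max_left _ _), ?_, hm0 _ (le_max_right _ _)⟩
    have h1 : 2 * C + 3 ≤ max (max J1 (2 * C + 3)) m0 := (le_max_right _ _).trans (le_max_left _ _)
    exact h1.trans Nat.lt_two_pow_self.le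
  have hm2 : 2 * C ≤ 2 ^ m := by omega
  obtain ⟨C2, hC2, hYM⟩ := hYM η (m + 1) hη
  -- the choice of j
  obtain ⟨j, hj⟩ := ex_Ub (K := 64 * C1 * CU * C2 / κ ^ 2) (e := e / 4) (by positivity) (by positivity)
  obtain ⟨bU, hbU⟩ : ∃ bU : ℕ, ∀ b, bU ≤ b → 8 ≤ κ * Ub b := by
    obtain ⟨B, hB⟩ := Ub_big
    obtain ⟨n, hn⟩ := exists_nat_ge (8 / κ)
    refine ⟨B * n, fun b hb => ?_⟩
    have h1 := hB b n hb
    have h2 : (n : ℝ) ≤ 8 ^ n := by
      exact_mod_cast (Nat.lt_pow_self (by norm_num : 1 < 8)).le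
    have h3 : 8 / κ ≤ Ub b := hn.trans (h2.trans h1)
    rw [div_le_iff₀ hκ] at h3
    linarith
  refine ⟨κ0 / 2 ^ j, η, j + 3, m + 1, j + 3 + cE + cL + (2 * m + 100), b1 + bL + bU + r0, by positivity, hη,
    fun c K l hl hlc hcK hKJ => ?_⟩
  obtain ⟨b, hb⟩ : ∃ b : ℕ, b = l + (j + 3) := ⟨_, rfl⟩
  rw [← hb]
  obtain ⟨B, hBe, hEx⟩ := hE c K b (by omega) hcK hKJ
  have hLm := hLz c K b (by omega) (by omega) hcK hKJ
  have hU : 0 < Ub b := Ub_pos b
  have hUK : 0 < Ub K := Ub_pos K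
  have h8 := hbU b (by omega)
  -- the numbers
  obtain ⟨h, hh⟩ : ∃ h : ℕ, h = ⌈κ * Ub b / 8⌉₊ := ⟨_, rfl⟩
  have hh1 : 1 ≤ h := by
    rw [hh, Nat.one_le_iff_ne_zero, Nat.ne_zero_iff_zero_lt, Nat.ceil_pos]
    positivity
  have hq : κ * Ub b / 8 ≤ (h : ℝ) := by
    rw [hh]
    exact Nat.le_ceil _
  have hh2 : (h : ℝ) < κ * Ub b / 8 + 1 := by
    rw [hh]
    exact Nat.ceil_lt_add_one (by positivity)
  have hηh : η * Ub b ≤ (h : ℝ) := by
    rw [hηd]
    calc κ / 8 * Ub b = κ * Ub b / 8 := by ring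
      _ ≤ h := hq
  obtain ⟨r, hr⟩ : ∃ r : ℕ, r = 2 ^ (b - j) := ⟨_, rfl⟩
  have hr0 : r0 ≤ r := by
    rw [hr]
    have h1 : r0 ≤ b - j := by omega
    exact h1.trans Nat.lt_two_pow_self.le
  have hUr : UU r = Ub (b - j) := by rw [hr]; rfl
  have hUj : Ub b ≤ 2 ^ j * UU r := by
    have := Ub_steps (b - j) j
    rw [Nat.sub_add_cancel (by omega)] at this
    rw [hUr]
    exact this
  have hκU : κ0 / 2 ^ j * Ub b ≤ κ0 * UU r := by
    rw [div_mul_eq_mul_div, div_le_iff₀ (by positivity)]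
    nlinarith
  have hUl : Ub l ≤ Ub b := by
    unfold Ub
    exact UU_mono (Nat.pow_le_pow_right (by norm_num) (by omega))
  -- the events
  obtain ⟨EJ, hEJ⟩ : ∃ EJ : ℕ → Set (List Bool), EJ = fun J => {t | t ∈ BotS c K ∧ t ∉ B ∧ κ * Ub b / 8 ≤
    (nD (2 ^ (b + (J + 1))) (RB κ C b (J + 1) (C * 2 ^ b) η) t : ℝ)} := ⟨_, rfl⟩
  obtain ⟨EA, hEA⟩ : ∃ EA : Set (List Bool), EA = {t | t ∈ BotS c K ∧ t ∉ B ∧ κ * Ub b / 8 ≤
    (nD (2 ^ (b + (m + 1))) (RA (κ0 * UU r) r b (C * 2 ^ b) (2 ^ (b + (m + 1))) η h) t : ℝ)} := ⟨_, rfl⟩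
  obtain ⟨Js, hJs⟩ : ∃ Js : Finset ℕ, Js = (range (c + 1)).filter fun J => m ≤ J ∧ b + (J + 1) + cE ≤ c := ⟨_, rfl⟩
  -- the covering
  have hcov : {R | R ∈ BotS c K ∧ R ∉ NcS l (YN b (m + 1) η) (κ0 / 2 ^ j)} ⊆
      (({R | R ∈ BotS c K ∧ R ∈ B} ∪ {R | R ∈ BotS c K ∧ R ∈ Lz κ C b (2 ^ (c - b - (cE + 3)))}) ∪
        ⋃ J ∈ Js, EJ J) ∪ EA := by
    rintro t ⟨ht, hbad⟩
    by_cases hBt : t ∈ B
    · exact Or.inl (Or.inl (Or.inl ⟨ht, hBt⟩))
    by_cases hLt : t ∈ Lz κ C b (2 ^ (c - b - (cE + 3)))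
    · exact Or.inl (Or.inl (Or.inr ⟨ht, hLt⟩))
    have hsa : t ∈ SA := ht.1.1
    have hpow : 2 ^ (c - b - (cE + 3)) * 2 ^ b = 2 ^ (c - (cE + 3)) := by
      rw [← pow_add]
      congr 1
      omega
    have hpow2 : 2 ^ (c - (cE + 3)) < 2 ^ c := Nat.pow_lt_pow_right (by norm_num) (by omega)
    have hNz : t ∉ Nz κ C b := fun hN => hLt ⟨[], t, [], by rw [List.nil_append, List.append_nil], hN, by
      rw [hpow]
      exact botS_big ht (by omega)⟩
    obtain ⟨X, Z1, Z2, Z3, Y0, hd⟩ := dt_of hW hsa hNz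
    have h4 : 4 * h ≤ nc Z2 := by
      have h5 : (4 : ℝ) * h ≤ nc Z2 := by
        have := hd.n2
        linarith
      exact_mod_cast h5
    have hY0 : In (2 ^ (c - (cE + 3))) Y0 := by
      by_contra hcon
      refine hLt ⟨X ++ (Z1 ++ (Z2 ++ Z3)), Y0, [], ?_, hd.nz, by rwa [hpow]⟩
      rw [hd.eq]
      simp only [List.append_assoc, List.append_nil]
    have hex : ∃ J, In (2 ^ (b + J)) Y0 := by
      refine ⟨c - (cE + 3) - b, in_mono hY0 (Nat.pow_le_pow_right (by norm_num) (by omega))⟩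
    have hJm : Nat.find hex ≤ c - (cE + 3) - b :=
      Nat.find_min' hex (in_mono hY0 (Nat.pow_le_pow_right (by norm_num) (by omega)))
    have hN : ((NCa b (b - j) (2 ^ (b + (m + 1))) η t).ncard : ℝ) < κ0 / 2 ^ j * Ub b := by
      have h5 : ((NCa b (b - j) (2 ^ (b + (m + 1))) η t).ncard : ℝ) ≤
          (((range (t.length + 1)).filter fun k => t.take k ∈ Fe (4 * 2 ^ l) ∧ t.drop k ∈ YN b (m + 1) η).card : ℝ) := by
        have h6 : NCa b (b - j) (2 ^ (b + (m + 1))) η t ⊆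
            ((((range (t.length + 1)).filter fun k => t.take k ∈ Fe (4 * 2 ^ l) ∧ t.drop k ∈ YN b (m + 1) η).image
              fun k => t.drop k : Finset (List Bool)) : Set (List Bool)) := by
          rintro Y ⟨y1, y2, A, rfl, y3⟩
          rw [mem_coe, mem_image]
          refine ⟨A.length, ?_, List.drop_left' rfl⟩
          rw [mem_filter, mem_range, List.length_append, List.take_left' rfl, List.drop_left' rfl]
          refine ⟨by omega, ?_, SA_suf hsa, y1, y2⟩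
          have e1 : b - j = (l + 2) + 1 := by omega
          rw [e1] at y3
          have e2 : 4 * 2 ^ l = 2 ^ (l + 2) := by
            rw [pow_add]
            ring
          rw [e2]
          exact Fe_of_FreeT y3
        have h7 := Set.ncard_le_ncard h6 (Finset.finite_toSet _)
        rw [Set.ncard_coe_finset] at h7
        exact_mod_cast h7.trans card_image_le
      have h6 : (((range (t.length + 1)).filter fun k => t.take k ∈ Fe (4 * 2 ^ l) ∧ t.drop k ∈ YN b (m + 1) η).card : ℝ) <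
          κ0 / 2 ^ j * Ub l := by
        by_contra hcon
        exact hbad (not_lt.1 hcon)
      have h7 : κ0 / 2 ^ j * Ub l ≤ κ0 / 2 ^ j * Ub b := mul_le_mul_of_nonneg_left hUl (by positivity)
      linarith
    rcases Nat.lt_or_ge m (Nat.find hex) with hJ | hJ
    · -- case B
      have h5 := Nat.find_spec hex
      have h6 := Nat.find_min hex (m := Nat.find hex - 1) (by omega)
      obtain ⟨J', hJd⟩ : ∃ J', J' = Nat.find hex := ⟨_, rfl⟩
      rw [← hJd] at h5 h6 hJ hJm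
      have h7 : ¬ In (2 ^ (J' - 1) * 2 ^ b) Y0 := by
        rwa [← pow_add, add_comm (J' - 1) b]
      have h9 : 2 ^ J' = 2 * 2 ^ (J' - 1) := by
        rw [← pow_succ']
        congr 1
        omega
      refine Or.inl (Or.inr ?_)
      rw [Set.mem_iUnion₂]
      refine ⟨J', ?_, ?_⟩
      · rw [hJs, mem_filter, mem_range]
        omega
      · rw [hEJ]
        refine ⟨ht, hBt, hq.trans ?_⟩
        have h11 : 2 * C ≤ 2 ^ J' := hm2.trans (Nat.pow_le_pow_right (by norm_num) (by omega))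
        have h12 : 2 ^ (J' + 1) ≤ 2 ^ (J' - 1) * 2 ^ 2 := by
          rw [pow_succ, h9]
          omega
        exact_mod_cast caseB hW hd hh1 hηh h4 h12 h5 h7 h11
    · -- case A
      refine Or.inr ?_
      rw [hEA]
      refine ⟨ht, hBt, hq.trans ?_⟩
      have h5 : In (2 ^ (b + m)) Y0 := in_mono (Nat.find_spec hex) (Nat.pow_le_pow_right (by norm_num) (by omega))
      exact_mod_cast caseA hW hd hh1 hηh h4 h5 hm2 (by rw [hr]) hκU hN
  -- the mass of the cases B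
  have hB1 : ∀ J' ∈ Js, gf (EJ J') ≤ ENNReal.ofReal (8 * C1 / κ * (1 / 2) ^ (J' + 1) * Ub K) * NTA.Xb K := by
    intro J' hJ
    rw [hJs, mem_filter, mem_range] at hJ
    obtain ⟨-, j1, j2⟩ := hJ
    have hD : 2 ^ (b + (J' + 1)) * 2 ^ cE ≤ 2 ^ c := by
      rw [← pow_add]
      exact Nat.pow_le_pow_right (by norm_num) j2
    have h5 := hEx (RB κ C b (J' + 1) (C * 2 ^ b) η) (ENNReal.ofReal (Ub b / (2 : ℝ) ^ (1 * (J' + 1))) * NTA.Xb b)
      (κ * Ub b / 8) (2 ^ (b + (J' + 1))) hD (fun A Y h => h.1.gt) (fun A => ?_) (by positivity)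
    · rw [hEJ]
      refine (cancelB (by positivity) (by positivity) h5).trans (le_of_eq ?_)
      congr 2
      rw [one_mul, one_div, inv_pow]
      field_simp
    · refine le_trans (gf_mono ?_) (hY b (J' + 1) (by omega) (by omega))
      rintro Y ⟨⟨-, y1, y2, y3⟩, y4⟩
      exact ⟨y1, y2, y4, y3⟩
  -- the mass of the case A
  have hA1 : gf EA ≤ ENNReal.ofReal (e / 4 * Ub K) * NTA.Xb K := by
    have hD : 2 ^ (b + (m + 1)) * 2 ^ cE ≤ 2 ^ c := by
      rw [← pow_add]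
      exact Nat.pow_le_pow_right (by norm_num) (by omega)
    have hUp : 0 < UU r := by rw [hUr]; exact Ub_pos _
    have hFw : ∀ A, gf {Y | RA (κ0 * UU r) r b (C * 2 ^ b) (2 ^ (b + (m + 1))) η h A Y ∧ In (2 ^ (b + (m + 1))) Y} ≤
        ENNReal.ofReal (8 * CU * C2 / κ * UU r) * NTA.Xb b := by
      intro A
      have h5 := fw_mass (A := A) (κ0 := κ0 * UU r) (η := η) (q := h) (r := r) (b := b) (E := 2 * (C * 2 ^ b))
        (D := 2 ^ (b + (m + 1))) (hUA r hr0 (2 ^ b) A) (hYM b)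
      have h6 : ENNReal.ofReal (κ * Ub b / 8) * gf {Y | Fw (κ0 * UU r) r b (2 * (C * 2 ^ b)) (2 ^ (b + (m + 1))) η h A Y} ≤
          ENNReal.ofReal (κ * Ub b / 8) * (ENNReal.ofReal (8 * CU * C2 / κ * UU r) * NTA.Xb b) := by
        refine (mul_le_mul' (ENNReal.ofReal_le_ofReal hq) le_rfl).trans (h5.trans (le_of_eq ?_))
        rw [← mul_assoc, ← mul_assoc, ← ENNReal.ofReal_mul (by positivity), ← ENNReal.ofReal_mul (by positivity)]
        congr 2
        field_simp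
      have h7 : ENNReal.ofReal (κ * Ub b / 8) ≠ 0 := by
        rw [Ne, ENNReal.ofReal_eq_zero, not_le]
        positivity
      exact (gf_mono fun Y hY => hY.1.2).trans ((ENNReal.mul_le_mul_iff_right h7 ENNReal.ofReal_ne_top).1 h6)
    have h5 := hEx _ _ (κ * Ub b / 8) (2 ^ (b + (m + 1))) hD (fun A Y h => h.1.gt) hFw (by positivity)
    rw [hEA]
    refine (cancelB (by positivity) (by positivity) h5).trans ?_
    refine mul_le_mul' (ENNReal.ofReal_le_ofReal ?_) le_rfl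
    have h6 := hj b (by omega)
    rw [hUr]
    calc C1 * Ub K * (8 * CU * C2 / κ * Ub (b - j)) / (κ * Ub b / 8) =
          (64 * C1 * CU * C2 / κ ^ 2 * (Ub (b - j) / Ub b)) * Ub K := by
          field_simp
          ring
      _ ≤ e / 4 * Ub K := mul_le_mul_of_nonneg_right h6 hUK.le
  -- the sum
  have h7 : gf (⋃ J ∈ Js, EJ J) ≤ ENNReal.ofReal (e / 4 * Ub K) * NTA.Xb K := by
    refine (BAR.gf_bi_le _ _).trans ((sum_le_sum hB1).trans ?_)
    rw [← sum_mul, ← ENNReal.ofReal_sum_of_nonneg fun _ _ => by positivity]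
    refine mul_le_mul' (ENNReal.ofReal_le_ofReal ?_) le_rfl
    rw [← sum_mul, ← mul_sum]
    refine mul_le_mul_of_nonneg_right (le_trans (mul_le_mul_of_nonneg_left (sum_two m Js fun J' hJ => ?_) (by positivity))
      hm3) hUK.le
    rw [hJs, mem_filter] at hJ
    exact hJ.2.1
  have hsum : ENNReal.ofReal (e * Ub K) * NTA.Xb K = ((ENNReal.ofReal (e / 4 * Ub K) * NTA.Xb K +
      ENNReal.ofReal (e / 4 * Ub K) * NTA.Xb K) + ENNReal.ofReal (e / 4 * Ub K) * NTA.Xb K) +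
      ENNReal.ofReal (e / 4 * Ub K) * NTA.Xb K := by
    rw [← add_mul, ← add_mul, ← add_mul, ← ENNReal.ofReal_add (by positivity) (by positivity),
      ← ENNReal.ofReal_add (by positivity) (by positivity), ← ENNReal.ofReal_add (by positivity) (by positivity)]
    congr 2
    ring
  rw [hsum]
  refine (gf_mono hcov).trans ((gf_union_le _ _).trans (add_le_add ((gf_union_le _ _).trans (add_le_add
    ((gf_union_le _ _).trans (add_le_add hBe hLm)) h7)) hA1))

end SLW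

end HexObs
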