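import Pool.Agent.SLW.SmallC
import Pool.Agent.SLW.NiceB
import Pool.Agent.SLW.LzB
import Pool.Agent.SLW.ExB
import Pool.Agent.SLW.GtB
import Pool.Agent.SLW.LowB
import Pool.Agent.SLW.MomB
import Pool.Agent.TIP.YBad
import Pool.Agent.TIP.GeoZ
import Pool.Agent.TIP.StrU

/-!
# SLOW: niceness of the right parts and the lower tail of the total weight (helper62)
-/

set_option autoImplicit false

namespace HexObs

namespace SLW

/-- niceness of right parts -/
theorem niceB : NiceB := by
  obtain ⟨κ, hκ, C, -, hR⟩ := TIP.regZ_all
  have hY := TIP.yBad hR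
  exact niceB_of hκ (lzB_of hY gtB) hY exB

/-- **the total weight of the levels is rarely small** -/
theorem smallS : SmallS := smallS_of TIP.strU niceB low_B momB

end SLW

end HexObs
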