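import Pool.Agent.SLW.Fin
import Pool.Agent.SLW.MomV
import Pool.Agent.SLW.AReg
import Pool.Agent.SLW.ChainSt
import Pool.Agent.SLW.Small

/-!
SLW: **`slowF`**, the slow change, no hypothesis (helper45; rows by helpers 5, 14, 44, 47, 49, 57, 58, 59, 62, 65, 75, 77,
84, 86, 91, 92, 98 and others).
-/

set_option autoImplicit false

namespace HexObs

namespace SLW

/-- **the slow change of the weighted averages of robust functionals** -/
theorem slowF : SlowF := slowF_rows (momV_of aReg) chainSt aReg smallS

end SLW

end HexObs

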