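import Pool.Agent.SLW.Defs

/-!
SLW, the Boltzmann part (helper14's cure, doc nu34/SLOW_14): niceness and the domination by the weights are proved in the
ensemble `BotS c K` of the right parts (words of the box K, positive until the level RR c), where lengths do not matter; one
transfer to exactly n letters (helper58: `trans_of` in SLW/TransU). Literals.
-/

set_option autoImplicit false

namespace HexObs

namespace SLW

open Finset TS SDN TIW SIM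

open scoped ENNReal

/-- B5: the start of a right part is a good tip of the scale b -/
def GtB : Prop := ∀ (e : ℝ) (J : ℕ), 0 < e → ∃ (η : ℝ) (c0 b0 : ℕ), 0 < η ∧ ∀ c K b : ℕ, b0 ≤ b → b + c0 ≤ c → c ≤ K →
  K ≤ c + J → gf {R | R ∈ BotS c K ∧ rev R ∉ TIP.GT b η} ≤ ENNReal.ofReal (e * Ub K) * NTA.Xb K

/-- B6: the double counting at the tip, right parts -/
def ExB : Prop := ∀ (η e : ℝ) (J : ℕ), 0 < η → 0 < e → ∃ (A : ℝ) (c0 : ℕ), 0 < A ∧ ∀ c K b : ℕ, b + c0 ≤ c → c ≤ K →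
  K ≤ c + J → ∃ B : Set (List Bool), gf {R | R ∈ BotS c K ∧ R ∈ B} ≤ ENNReal.ofReal (e * Ub K) * NTA.Xb K ∧
    ∀ (ρ : List Bool → List Bool → Prop) (x : ℝ≥0∞) (q : ℝ) (D : ℕ), D * 2 ^ c0 ≤ 2 ^ c →
      (∀ A Y, ρ A Y → A ∈ TIP.GT b η) → (∀ A, gf {Y | ρ A Y ∧ TIP.In D Y} ≤ x) → 0 < q →
      gf {R | R ∈ BotS c K ∧ R ∉ B ∧ q ≤ (TIP.nD D ρ R : ℝ)} * (ENNReal.ofReal q * NTA.Xb b) ≤
        ENNReal.ofReal (A * Ub K) * NTA.Xb K * x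

/-- B7: no good factor of the scale b in a macroscopic piece, right parts -/
def LzB (κ : ℝ) (C1 : ℕ) : Prop := ∀ (e : ℝ) (J c2 : ℕ), 0 < e → ∃ c0 b0 : ℕ, ∀ c K b : ℕ, b0 ≤ b →
  b + c0 ≤ c → c ≤ K → K ≤ c + J →
    gf {R | R ∈ BotS c K ∧ R ∈ TIP.Lz κ C1 b (2 ^ (c - b - c2))} ≤ ENNReal.ofReal (e * Ub K) * NTA.Xb K

/-- ends that start with a good tip -/
def YN (b m : ℕ) (η : ℝ) : Set (List Bool) := {Y | Y ∈ SA ∧ rev Y ∈ TIP.GT b η ∧ TIP.In (2 ^ (b + m)) Y}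

/-- B8: niceness of right parts at the level l -/
def NiceB : Prop := ∀ (e : ℝ) (J : ℕ), 0 < e → ∃ (κ η : ℝ) (j m c0 l0 : ℕ), 0 < κ ∧ 0 < η ∧ ∀ c K l : ℕ,
  l0 ≤ l → l + c0 ≤ c → c ≤ K → K ≤ c + J →
    gf {R | R ∈ BotS c K ∧ R ∉ NcS l (YN (l + j) m η) κ} ≤ ENNReal.ofReal (e * Ub K) * NTA.Xb K

open Classical in
/-- B9: nice right parts are dominated by the weight of the level -/
def LowB : Prop := ∀ (m : ℕ) (CY κ : ℝ), 0 < CY → 0 < κ → ∃ (A : ℝ) (l0 : ℕ), 0 < A ∧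
  ∀ (l c K : ℕ) (Ch YY : Set (List Bool)) (Φ θ : List Bool → ℝ), l0 ≤ l → l + m + 5 ≤ c → c ≤ K → Chn l Ch →
    (∀ Y ∈ YY, ∀ i, i ≤ Y.length → hn (vx oo up Y i) < 2 ^ (l + m)) → gf YY ≤ ENNReal.ofReal (CY * Ub l) * NTA.Xb l →
    (∀ t, 0 ≤ Φ t) → (∀ t, 0 ≤ θ t) →
    (∀ A1 Y, A1 ++ Y ∈ SA → (∀ i, i ≤ Y.length → hn (vx oo up Y i) < 2 ^ (l + m) + 2 ^ (l + 1)) →
      |Φ (A1 ++ Y) - Φ A1| ≤ θ A1) →
    ENNReal.ofReal (Ub l) * gf Ch *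
        ∑' t, (if t ∈ BotS c K ∧ t ∈ NcS l YY κ then wE t * ENNReal.ofReal (Φ t) else 0) ≤
      ENNReal.ofReal A * (∑' t, (if t ∈ BotS (c - 1) (K + 1) then wE t * ENNReal.ofReal (N1 l Ch t * Φ t) else 0) +
        ∑' t, (if t ∈ BotS (c - 1) (K + 1) then wE t * ENNReal.ofReal (NT l Ch θ t) else 0))

open Classical in
/-- B10: second moments, right parts -/
def MomB : Prop := ∀ J : ℕ, ∃ (A : ℝ) (c0 : ℕ), 0 < A ∧ ∀ l c K : ℕ, l + c0 ≤ c → c ≤ K → K ≤ c + J →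
  ∑' t, (if t ∈ BotS c K then wE t * ENNReal.ofReal (NP (2 ^ l) t ^ 2) else 0) ≤
    ENNReal.ofReal (A * Ub l ^ 2 * Ub K) * NTA.Xb K

end SLW

end HexObs
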