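import Pool.Agent.NTS.MergeTop
import Mathlib.MeasureTheory.Measure.LevyProkhorovMetric

/-!
# Slow change, the abstract side (helper90)

* `pair_core`: two sequences of indices along which the laws of the scaled random points merge have common subsequential
  limits of the laws and of the factors.
* `eps_of_seq`: from sequences to epsilon and delta.
* `lims_geo`: a sequence in a compact set that changes slowly converges if and only if it converges along every geometric
  sequence.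
-/

set_option autoImplicit false

set_option linter.unusedSectionVars false

namespace NTSF

open Filter Topology MeasureTheory

section

variable {E : Type*} [NormedAddCommGroup E] [NormedSpace ℝ E] [MeasurableSpace E] [BorelSpace E]
  [SecondCountableTopology E]

/-- joint convergence of a parameter and of the law -/
lemma tendsto_integral_param {T : Type*} [TopologicalSpace T] [TopologicalSpace.PseudoMetrizableSpace T]
    [SecondCountableTopology T] [MeasurableSpace T] [BorelSpace T] {P : ℕ → ProbabilityMeasure E}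
    {ν : ProbabilityMeasure E} {s : ℕ → T} {s0 : T}
    (hP : Tendsto P atTop (𝓝 ν)) (hs : Tendsto s atTop (𝓝 s0)) (g : BoundedContinuousFunction (T × E) ℝ) :
    Tendsto (fun k => ∫ z, g (s k, z) ∂(P k : Measure E)) atTop (𝓝 (∫ z, g (s0, z) ∂(ν : Measure E))) := by
  have h1 : Tendsto (fun k => (diracProba (s k)).prod (P k)) atTop (𝓝 ((diracProba s0).prod ν)) := by
    have h2 : Tendsto (fun k => (diracProba (s k), P k)) atTop (𝓝 (diracProba s0, ν)) :=
      ((continuous_diracProba.tendsto s0).comp hs).prodMk_nhds hP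
    exact (ProbabilityMeasure.continuous_prod.tendsto _).comp h2
  have h3 := (ProbabilityMeasure.tendsto_iff_forall_integral_tendsto.1 h1) g
  have key : ∀ (a : T) (μ : ProbabilityMeasure E), ∫ p : T × E, g p ∂(((diracProba a).prod μ : ProbabilityMeasure (T × E)) :
      Measure (T × E)) = ∫ z, g (a, z) ∂(μ : Measure E) := by
    intro a μ
    have h4 : (((diracProba a).prod μ : ProbabilityMeasure (T × E)) : Measure (T × E)) =
        (Measure.dirac a).prod (μ : Measure E) := rfl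
    rw [h4, Measure.dirac_prod, integral_map]
    · exact (measurable_prodMk_left).aemeasurable
    · exact g.continuous.aestronglyMeasurable
  simp only [key] at h3
  exact h3

variable {P : ℕ → ProbabilityMeasure E} {σ : ℕ → ℝ} {c C : ℝ} {q : E → ℝ}

/-- the common limit of the laws and of the factors along two sequences of indices -/
lemma pair_core (hK : ∀ φ : ℕ → ℕ, Tendsto φ atTop atTop → ∃ ψ : ℕ → ℕ, StrictMono ψ ∧ ∃ ν : ProbabilityMeasure E,
      Tendsto (fun k => P (φ (ψ k))) atTop (𝓝 ν)) (hc : 0 < c) (hσ : ∀ n, c ≤ σ n ∧ σ n ≤ C)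
    {a b : ℕ → ℕ} (ha : Tendsto a atTop atTop) (hb : Tendsto b atTop atTop)
    (hm : ∀ f : E → ℝ, (∀ x, 0 ≤ f x ∧ f x ≤ 1) → (∃ L, LipschitzWith L f) →
      Tendsto (fun j => ∫ z, f (σ (b j) • z) ∂(P (b j) : Measure E) - ∫ z, f (σ (a j) • z) ∂(P (a j) : Measure E)) atTop (𝓝 0))
    (hq : ∀ (s : ℝ) (z : E), q (s • z) = s ^ 2 * q z) (hqc : Continuous q)
    (h1 : ∀ φ : ℕ → ℕ, Tendsto φ atTop atTop → ∀ ν : ProbabilityMeasure E, Tendsto (fun k => P (φ k)) atTop (𝓝 ν) →
      ∫ z, q z ∂(ν : Measure E) = 1) :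
    ∃ ψ : ℕ → ℕ, StrictMono ψ ∧ ∃ (ν : ProbabilityMeasure E) (s : ℝ), 0 < s ∧
      Tendsto (fun k => P (a (ψ k))) atTop (𝓝 ν) ∧ Tendsto (fun k => P (b (ψ k))) atTop (𝓝 ν) ∧
      Tendsto (fun k => σ (a (ψ k))) atTop (𝓝 s) ∧ Tendsto (fun k => σ (b (ψ k))) atTop (𝓝 s) := by
  obtain ⟨ψ1, m1, ν, l1⟩ := hK a ha
  have t1 : Tendsto (fun k => b (ψ1 k)) atTop atTop := hb.comp m1.tendsto_atTop
  obtain ⟨ψ2, m2, ν', l2⟩ := hK _ t1
  obtain ⟨s, hs, ψ3, m3, l3⟩ := (isCompact_Icc (a := c) (b := C)).tendsto_subseq (x := fun k => σ (a (ψ1 (ψ2 k))))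
    (fun k => hσ _)
  obtain ⟨s', hs', ψ4, m4, l4⟩ := (isCompact_Icc (a := c) (b := C)).tendsto_subseq (x := fun k => σ (b (ψ1 (ψ2 (ψ3 k)))))
    (fun k => hσ _)
  obtain ⟨ψ, hψ⟩ : ∃ ψ : ℕ → ℕ, ψ = fun k => ψ1 (ψ2 (ψ3 (ψ4 k))) := ⟨_, rfl⟩
  have mψ : StrictMono ψ := hψ ▸ m1.comp (m2.comp (m3.comp m4))
  have L1 : Tendsto (fun k => P (a (ψ k))) atTop (𝓝 ν) := by
    rw [hψ]
    exact l1.comp ((m2.comp (m3.comp m4)).tendsto_atTop)
  have L2 : Tendsto (fun k => P (b (ψ k))) atTop (𝓝 ν') := by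
    rw [hψ]
    exact l2.comp ((m3.comp m4).tendsto_atTop)
  have L3 : Tendsto (fun k => σ (a (ψ k))) atTop (𝓝 s) := by
    rw [hψ]
    exact l3.comp m4.tendsto_atTop
  have L4 : Tendsto (fun k => σ (b (ψ k))) atTop (𝓝 s') := by
    rw [hψ]
    exact l4
  have hs0 : 0 < s := lt_of_lt_of_le hc hs.1
  have hs0' : 0 < s' := lt_of_lt_of_le hc hs'.1
  have tφ : Tendsto (fun k => a (ψ k)) atTop atTop := ha.comp mψ.tendsto_atTop
  have tφ' : Tendsto (fun k => b (ψ k)) atTop atTop := hb.comp mψ.tendsto_atTop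
  -- the scaled limits are equal
  have hcont : ∀ a : ℝ, Continuous fun z : E => a • z := fun a => continuous_const_smul a
  have hmeas : ∀ a : ℝ, Measurable fun z : E => a • z := fun a => (hcont a).measurable
  have eqm : ν.map (hmeas s).aemeasurable = ν'.map (hmeas s').aemeasurable := by
    refine eq_of_lip fun f hf hL => ?_
    have hfc : Continuous f := hL.choose_spec.continuous
    have i1 : ∀ (ρ : ProbabilityMeasure E) (a : ℝ), ∫ z, f z ∂((ρ.map (hmeas a).aemeasurable : ProbabilityMeasure E) : Measure E) =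
        ∫ z, f (a • z) ∂(ρ : Measure E) := by
      intro ρ a
      rw [ProbabilityMeasure.toMeasure_map, integral_map (hmeas a).aemeasurable hfc.aestronglyMeasurable]
    rw [i1, i1]
    have a1 := tendsto_integral_smul L1 L3 (BoundedContinuousFunction.mkOfBound ⟨f, hfc⟩ 1 (bddc hf))
    have a2 := tendsto_integral_smul L2 L4 (BoundedContinuousFunction.mkOfBound ⟨f, hfc⟩ 1 (bddc hf))
    have a3 := (hm f hf hL).comp mψ.tendsto_atTop
    have a4 := a2.sub a1
    have a5 := tendsto_nhds_unique a3 a4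
    have a6 : ∫ z, f (s' • z) ∂(ν' : Measure E) - ∫ z, f (s • z) ∂(ν : Measure E) = 0 := a5.symm
    linarith
  have q1 : ∀ (ρ : ProbabilityMeasure E) (a : ℝ), ∫ z, q z ∂((ρ.map (hmeas a).aemeasurable : ProbabilityMeasure E) : Measure E) =
      a ^ 2 * ∫ z, q z ∂(ρ : Measure E) := by
    intro ρ a
    rw [ProbabilityMeasure.toMeasure_map, integral_map (hmeas a).aemeasurable hqc.aestronglyMeasurable]
    simp_rw [hq]
    rw [integral_const_mul]
  have hss : s = s' := by
    have b1 := q1 ν s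
    have b2 := q1 ν' s'
    rw [eqm, b2, h1 _ tφ ν L1, h1 _ tφ' ν' L2] at b1
    have b3 : s' ^ 2 = s ^ 2 := by linarith
    exact ((sq_eq_sq₀ hs0'.le hs0.le).1 b3).symm
  have hνν : ν = ν' := by
    have b1 : ∀ ρ : ProbabilityMeasure E, (ρ.map (hmeas s).aemeasurable).map (hmeas s⁻¹).aemeasurable = ρ := by
      intro ρ
      apply Subtype.ext
      show ((ρ.map (hmeas s).aemeasurable).map (hmeas s⁻¹).aemeasurable : Measure E) = (ρ : Measure E)
      rw [ProbabilityMeasure.toMeasure_map, ProbabilityMeasure.toMeasure_map, Measure.map_map (hmeas s⁻¹) (hmeas s)]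
      have e : ((fun z : E => s⁻¹ • z) ∘ fun z : E => s • z) = id := by
        funext z
        show s⁻¹ • (s • z) = z
        rw [smul_smul, inv_mul_cancel₀ hs0.ne', one_smul]
      rw [e, Measure.map_id]
    rw [← b1 ν, ← b1 ν']
    congr 1
    rw [eqm, hss]
  refine ⟨ψ, mψ, ν, s, hs0, L1, ?_, L3, ?_⟩
  · rw [hνν]
    exact L2
  · rw [hss]
    exact L4

end

/-! ### From sequences to epsilon and delta -/

lemma eps_of_seq {D : ℕ → ℕ → ℝ} {Ev : ℕ → Prop}
    (h : ∀ a m : ℕ → ℕ, Tendsto a atTop atTop → (∀ j, 0 < a j) → Tendsto (fun j => (m j : ℝ) / a j) atTop (𝓝 0) →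
      (∀ j, Ev (m j)) → ∃ ψ : ℕ → ℕ, StrictMono ψ ∧ Tendsto (fun j => D (a (ψ j)) (m (ψ j))) atTop (𝓝 0))
    {ε : ℝ} (hε : 0 < ε) : ∃ δ : ℝ, 0 < δ ∧ ∀ n m : ℕ, 1 / δ ≤ n → (m : ℝ) ≤ δ * n → Ev m → D n m ≤ ε := by
  by_contra hcon
  push Not at hcon
  have h1 : ∀ j : ℕ, ∃ n m : ℕ, (j : ℝ) + 1 ≤ n ∧ (m : ℝ) ≤ 1 / ((j : ℝ) + 1) * n ∧ Ev m ∧ ε < D n m := by
    intro j
    obtain ⟨n, m, h2, h3, h4, h5⟩ := hcon (1 / ((j : ℝ) + 1)) (by positivity)
    rw [one_div_one_div] at h2
    exact ⟨n, m, h2, h3, h4, h5⟩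
  choose a m ha hm hE hD using h1
  have ha1 : ∀ j, j + 1 ≤ a j := fun j => by exact_mod_cast ha j
  have hat : Tendsto a atTop atTop := tendsto_atTop_mono (fun j => (Nat.le_succ j).trans (ha1 j)) tendsto_id
  have hpos : ∀ j, 0 < a j := fun j => lt_of_lt_of_le (Nat.succ_pos j) (ha1 j)
  have hmt : Tendsto (fun j => (m j : ℝ) / a j) atTop (𝓝 0) := by
    refine squeeze_zero (fun j => by positivity) (fun j => ?_) tendsto_one_div_add_atTop_nhds_zero_nat
    have : (0 : ℝ) < a j := by exact_mod_cast hpos j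
    rw [div_le_iff₀ this]
    exact hm j
  obtain ⟨ψ, -, hψ⟩ := h a m hat hpos hmt hE
  have h2 := (tendsto_order.1 hψ).2 ε hε
  obtain ⟨j, hj⟩ := h2.exists
  exact absurd hj (not_lt.2 (hD (ψ j)).le)

/-! ### Convergence along geometric sequences -/

lemma floor_pow_tendsto {lam : ℝ} (hl : 1 < lam) : Tendsto (fun j : ℕ => ⌊lam ^ j⌋₊) atTop atTop :=
  tendsto_nat_floor_atTop.comp (tendsto_pow_atTop_atTop_of_one_lt hl)

/-- a slowly changing sequence in a compact set converges iff it converges along every geometric sequence -/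
theorem lims_geo {X : Type*} [MetricSpace X] {x : ℕ → X} {K : Set X} (hK : IsCompact K) (hx : ∀ n, x n ∈ K)
    (hs : ∀ ε : ℝ, 0 < ε → ∃ δ : ℝ, 0 < δ ∧ ∀ n m : ℕ, 1 / δ ≤ n → (m : ℝ) ≤ δ * n → dist (x (n + m)) (x n) ≤ ε) :
    (∃ y, Tendsto x atTop (𝓝 y)) ↔ ∀ lam : ℝ, 1 < lam → ∃ y, Tendsto (fun j : ℕ => x ⌊lam ^ j⌋₊) atTop (𝓝 y) := by
  constructor
  · rintro ⟨y, hy⟩ lam hl
    exact ⟨y, hy.comp (floor_pow_tendsto hl)⟩
  · intro hgeo
    -- every subsequential limit is close to the limit along a geometric sequence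
    have key : ∀ ε : ℝ, 0 < ε → ∃ z : X, ∀ y ∈ Lims x, dist y z ≤ ε := by
      intro ε hε
      obtain ⟨δ, hδ, h1⟩ := hs (ε / 2) (by positivity)
      obtain ⟨lam, hlam⟩ : ∃ lam : ℝ, lam = 1 + δ / 4 := ⟨_, rfl⟩
      have hl : 1 < lam := by
        rw [hlam]
        linarith
      obtain ⟨z, hz⟩ := hgeo lam hl
      refine ⟨z, ?_⟩
      rintro y ⟨φ, hφ, hy⟩
      -- the place of φ k among the powers
      have hex : ∀ n : ℕ, 1 ≤ n → ∃ j : ℕ, lam ^ j ≤ n ∧ (n : ℝ) < lam ^ (j + 1) := fun n hn =>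
        exists_nat_pow_near (by exact_mod_cast hn) hl
      choose! j hj1 hj2 using hex
      have hjt : Tendsto (fun k => j (φ k)) atTop atTop := by
        rw [tendsto_atTop_atTop]
        intro M
        obtain ⟨k0, hk0⟩ : ∃ k0 : ℕ, ∀ k, k0 ≤ k → lam ^ (M + 1) ≤ φ k ∧ 1 ≤ φ k := by
          have h2 : Tendsto (fun k => (φ k : ℝ)) atTop atTop := tendsto_natCast_atTop_atTop.comp hφ.tendsto_atTop
          have h3 := (h2.eventually_ge_atTop (lam ^ (M + 1))).and (hφ.tendsto_atTop.eventually_ge_atTop 1)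
          exact eventually_atTop.1 h3
        refine ⟨k0, fun k hk => ?_⟩
        obtain ⟨h4, h5⟩ := hk0 k hk
        by_contra hcon
        push Not at hcon
        have h6 := hj2 (φ k) h5
        have h7 : lam ^ (j (φ k) + 1) ≤ lam ^ (M + 1) := pow_le_pow_right₀ hl.le (by omega)
        linarith
      have hev : ∀ᶠ k in atTop, dist (x (φ k)) (x ⌊lam ^ (j (φ k))⌋₊) ≤ ε / 2 := by
        have h2 : Tendsto (fun k => lam ^ (j (φ k))) atTop atTop := (tendsto_pow_atTop_atTop_of_one_lt hl).comp hjt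
        filter_upwards [h2.eventually_ge_atTop (1 / δ + 1), h2.eventually_ge_atTop (4 / δ + 2),
          hφ.tendsto_atTop.eventually_ge_atTop 1] with k h3 h4 h5
        obtain ⟨N, hN⟩ : ∃ N : ℕ, N = ⌊lam ^ (j (φ k))⌋₊ := ⟨_, rfl⟩
        have hp : (0 : ℝ) ≤ lam ^ (j (φ k)) := by positivity
        have n1 : (N : ℝ) ≤ lam ^ (j (φ k)) := hN ▸ Nat.floor_le hp
        have n2 : lam ^ (j (φ k)) < N + 1 := hN ▸ Nat.lt_floor_add_one _
        have n3 := hj1 (φ k) h5
        have n4 := hj2 (φ k) h5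
        have n5 : N ≤ φ k := by exact_mod_cast n1.trans n3
        obtain ⟨m, hm⟩ := Nat.exists_eq_add_of_le n5
        rw [← hN, hm]
        refine h1 N m (by linarith) ?_
        have n6 : (φ k : ℝ) = N + m := by exact_mod_cast hm
        rw [pow_succ] at n4
        have n7 : (m : ℝ) < 1 + δ / 4 * lam ^ (j (φ k)) := by
          rw [n6, hlam] at n4
          rw [← hlam] at n4
          nlinarith
        have n8 : 1 + δ / 4 * lam ^ (j (φ k)) ≤ δ * (lam ^ (j (φ k)) - 1) := by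
          have e1 : δ * (4 / δ + 2) = 4 + 2 * δ := by
            field_simp
          nlinarith [mul_le_mul_of_nonneg_left h4 hδ.le]
        have n9 : δ * (lam ^ (j (φ k)) - 1) ≤ δ * N := mul_le_mul_of_nonneg_left (by linarith) hδ.le
        linarith
      have h8 : Tendsto (fun k => dist (x (φ k)) (x ⌊lam ^ (j (φ k))⌋₊)) atTop (𝓝 (dist y z)) := hy.dist (hz.comp hjt)
      exact (le_of_tendsto h8 hev).trans (by linarith)
    have hsub : ∀ y ∈ Lims x, ∀ y' ∈ Lims x, y = y' := by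
      intro y hy y' hy'
      by_contra hne
      have hd : 0 < dist y y' := dist_pos.2 hne
      obtain ⟨z, hz⟩ := key (dist y y' / 3) (by positivity)
      have h2 := hz y hy
      have h3 := hz y' hy'
      have h4 := dist_triangle_right y y' z
      linarith
    obtain ⟨y, hy⟩ := lims_nonempty hK hx
    refine ⟨y, tendsto_of_subseq_tendsto fun ns hns => ?_⟩
    obtain ⟨ψ, hψ, hns'⟩ := strictMono_subseq_of_tendsto_atTop hns
    obtain ⟨z, -, θ, hθ, hlim⟩ := hK.tendsto_subseq (x := fun k => x (ns (ψ k))) (fun k => hx _)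
    have hz : z = y := hsub z ⟨fun k => ns (ψ (θ k)), hns'.comp hθ, hlim⟩ y hy
    exact ⟨fun k => ψ (θ k), hz ▸ hlim⟩

end NTSF
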