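import Pool.Agent.NTS.MergeC
import Pool.Agent.SLW.PubTop
import Pool.Agent.TIW.Base

/-!
# Slow change, the curves (helper90)

`FT f n`: the function of the words that belongs to a function `f` of the curves, in the scaling of the walks with `n` steps;
the curve of a longer word is cut after `n` steps, that of a shorter word is constant after its end. It hardly sees a small
end (**`FT_end`**). `Ef_FT`: its mean over the words with `b ≥ n` letters as an integral over the law with `b` steps,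
and **`reparam`**: for `n / b → 1` the change of the scaling does not matter.
-/

set_option autoImplicit false

namespace NTSF

namespace Mg

open Finset MeasureTheory Filter Topology

open HexObs hiding pos

open HexObs.TOG HexObs.OneS HexObs.SDN HexObs.TS HexObs.TIW

open Pool.Agent.NTS.Res

open NTF (sw aa de Ed JJ de_aa)

open scoped Classical

/-! ### 1. Polygons with the same number of steps -/

lemma poly_dist {z z' : ℕ → ℂ} {n : ℕ} {R : ℝ} (h : ∀ k, k ≤ n → ‖z k - z' k‖ ≤ R) (u : unitInterval) :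
    ‖Tight.poly z n u - Tight.poly z' n u‖ ≤ R := by
  rcases Nat.eq_zero_or_pos n with rfl | hn
  · have e : Tight.poly z 0 u - Tight.poly z' 0 u = z 0 - z' 0 := by
      show (z 0 + ∑ i ∈ range 0, _) - (z' 0 + ∑ i ∈ range 0, _) = _
      rw [sum_range_zero, sum_range_zero, add_zero, add_zero]
    rw [e]
    exact h 0 le_rfl
  · obtain ⟨i, hi, h1, h2⟩ := Tight.th2_idx hn u
    rw [Tight.poly_apply hi h1 h2, Tight.poly_apply hi h1 h2]
    obtain ⟨w, hw⟩ : ∃ w : ℝ, w = (u : ℝ) * n - i := ⟨_, rfl⟩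
    have w0 : 0 ≤ w := by
      rw [hw]
      linarith
    have w1 : 0 ≤ 1 - w := by
      rw [hw]
      linarith
    have e : z i + (((u : ℝ) * n - i : ℝ) : ℂ) * (z (i + 1) - z i) - (z' i + (((u : ℝ) * n - i : ℝ) : ℂ) * (z' (i + 1) - z' i)) =
        ((1 - w : ℝ) : ℂ) * (z i - z' i) + ((w : ℝ) : ℂ) * (z (i + 1) - z' (i + 1)) := by
      rw [← hw]
      push_cast
      ring
    have e' : ∀ x : ℂ, x = z i + (((u : ℝ) * n - i : ℝ) : ℂ) * (z (i + 1) - z i) - (z' i + (((u : ℝ) * n - i : ℝ) : ℂ) * (z' (i + 1) - z' i)) →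
        ‖x‖ ≤ R := by
      intro x hx
      rw [hx, e]
      refine (norm_add_le _ _).trans ?_
      rw [norm_mul, norm_mul, Complex.norm_of_nonneg w1, Complex.norm_of_nonneg w0]
      have a1 := mul_le_mul_of_nonneg_left (h i hi.le) w1
      have a2 := mul_le_mul_of_nonneg_left (h (i + 1) hi) w0
      linarith
    refine e' _ ?_
    push_cast
    ring

/-- the polygon with fewer steps is a part of the polygon with more steps -/
lemma poly_part {z : ℕ → ℂ} {n b : ℕ} (hn : 1 ≤ n) (hb : n ≤ b) {u v : unitInterval} (huv : (v : ℝ) * b = u * n) :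
    Tight.poly z n u = Tight.poly z b v := by
  obtain ⟨i, hi, h1, h2⟩ := Tight.th2_idx hn u
  rw [Tight.poly_apply hi h1 h2, Tight.poly_apply (lt_of_lt_of_le hi hb) (huv ▸ h1) (huv ▸ h2), huv]

/-! ### 2. The curve of a word in the scaling of n -/

/-- the positions, constant after the end -/
noncomputable def czT (c : ℂ) (t : List Bool) (k : ℕ) : ℂ := cz c t (min k t.length)

/-- the curve of the first n letters, constant after the end of the word -/
noncomputable def pT (c : ℂ) (t : List Bool) (n : ℕ) : C(unitInterval, ℂ) := pn (czT c t) n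

/-- the function of the words that belongs to a function of the curves, in the scaling of n -/
noncomputable def FT (f : C(unitInterval, ℂ) → ℝ) (n : ℕ) (t : List Bool) : ℝ :=
  (f (pT 1 t n) + f (pT om t n) + f (pT (om * om) t n)) / 3

lemma pT_of_le {c : ℂ} {t : List Bool} {n : ℕ} (h : n ≤ t.length) : pT c t n = pn (cz c t) n := by
  unfold pT pn
  congr 1
  refine poly_congr fun k hk => ?_
  unfold czT
  rw [min_eq_left (hk.trans h)]

lemma FT_len {f : C(unitInterval, ℂ) → ℝ} {t : List Bool} : FT f t.length t = Fw f t := by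
  unfold FT Fw
  rw [pT_of_le le_rfl, pT_of_le le_rfl, pT_of_le le_rfl]

lemma JJ_le_hn (p : Pt) : ‖JJ p‖ ≤ hn p := by
  have h1 := NTF.JJ_norm p
  have h2 := nrm_le_hn p
  have h3 := hn_nonneg p
  have h4 : ((nrm p : ℤ) : ℝ) ≤ (hn p : ℝ) ^ 2 := by exact_mod_cast h2
  have h5 : ‖JJ p‖ ^ 2 ≤ (hn p : ℝ) ^ 2 := by
    rw [h1]
    exact h4
  exact (sq_le_sq₀ (norm_nonneg _) (by exact_mod_cast h3)).1 h5

lemma czT_end {c : ℂ} (hc : ‖c‖ = 1) {A Y : List Bool} {R : ℕ} (hY : ∀ i, i ≤ Y.length → hn (vx oo up Y i) < R) (k : ℕ) :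
    ‖czT c (A ++ Y) k - czT c A k‖ ≤ R := by
  have hl : (A ++ Y).length = A.length + Y.length := List.length_append
  unfold czT
  rcases le_or_gt k A.length with h | h
  · rw [min_eq_left h, min_eq_left (by omega)]
    unfold cz
    rw [vx_append (by omega), sub_self, norm_zero]
    exact Nat.cast_nonneg _
  · obtain ⟨i, hi, hi'⟩ : ∃ i, i ≤ Y.length ∧ min k (A ++ Y).length = A.length + i := by
      refine ⟨min (k - A.length) Y.length, min_le_right _ _, ?_⟩
      rw [hl]
      omega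
    rw [hi', min_eq_right h.le]
    unfold cz
    rw [← mul_sub, norm_mul, hc, one_mul, ← NTF.JJ_sub, vx_app]
    have e : en A + mulE (rt A) (vx oo up Y i) - vx oo up A A.length = mulE (rt A) (vx oo up Y i) := by
      show en A + mulE (rt A) (vx oo up Y i) - en A = _
      rw [add_sub_cancel_left]
    rw [e]
    refine (JJ_le_hn _).trans ?_
    rw [hn_mulE (nrm_rt A)]
    exact_mod_cast (hY i hi).le

lemma pT_end {c : ℂ} (hc : ‖c‖ = 1) {A Y : List Bool} {R : ℕ} (hY : ∀ i, i ≤ Y.length → hn (vx oo up Y i) < R) {n : ℕ}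
    (hn1 : 1 ≤ n) : dist (pT c (A ++ Y) n) (pT c A n) ≤ R / nr n := by
  have p1 := nr_pos hn1
  rw [ContinuousMap.dist_le (by positivity)]
  intro u
  rw [dist_eq_norm]
  show ‖((nr n)⁻¹ : ℝ) • Tight.poly (czT c (A ++ Y)) n u - ((nr n)⁻¹ : ℝ) • Tight.poly (czT c A) n u‖ ≤ _
  rw [← smul_sub, norm_smul, Real.norm_eq_abs, abs_of_pos (inv_pos.2 p1), div_eq_inv_mul]
  refine mul_le_mul_of_nonneg_left ?_ (inv_pos.2 p1).le
  exact poly_dist (fun k _ => czT_end hc hY k) u

/-- **Lipschitz functions of the curve hardly see a small end** -/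
theorem FT_end {f : C(unitInterval, ℂ) → ℝ} {K : NNReal} (hK : LipschitzWith K f) {A Y : List Bool} {R : ℕ}
    (hY : ∀ i, i ≤ Y.length → hn (vx oo up Y i) < R) {n : ℕ} (hn1 : 1 ≤ n) :
    |FT f n (A ++ Y) - FT f n A| ≤ K * (R / nr n) := by
  have k : ∀ c : ℂ, ‖c‖ = 1 → |f (pT c (A ++ Y) n) - f (pT c A n)| ≤ K * (R / nr n) := by
    intro c hc
    rw [← Real.dist_eq]
    exact (hK.dist_le_mul _ _).trans (mul_le_mul_of_nonneg_left (pT_end hc hY hn1) K.2)
  have k1 := abs_le.1 (k 1 one_n)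
  have k2 := abs_le.1 (k om om_norm)
  have k3 := abs_le.1 (k (om * om) om2_n)
  unfold FT
  rw [abs_le]
  constructor <;> linarith [k1.1, k1.2, k2.1, k2.2, k3.1, k3.2]

lemma FT_01 {f : C(unitInterval, ℂ) → ℝ} (h01 : ∀ x, 0 ≤ f x ∧ f x ≤ 1) (n : ℕ) (t : List Bool) : 0 ≤ FT f n t ∧ FT f n t ≤ 1 := by
  have a1 := h01 (pT 1 t n)
  have a2 := h01 (pT om t n)
  have a3 := h01 (pT (om * om) t n)
  unfold FT
  constructor <;> linarith [a1.1, a1.2, a2.1, a2.2, a3.1, a3.2]

/-! ### 3. The change of the scaling -/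

/-- the multiplication of the time by a factor, depending continuously on the factor -/
noncomputable def tsc : C(unitInterval, C(unitInterval, unitInterval)) :=
  ContinuousMap.curry ⟨fun p : unitInterval × unitInterval => p.1 * p.2, continuous_mul⟩

lemma tsc_apply (ρ u : unitInterval) : tsc ρ u = ρ * u := rfl

lemma tsc_one : tsc 1 = ContinuousMap.id _ := by
  ext u
  rw [tsc_apply, one_mul]
  rfl

/-- the curve with the factor s, run through up to the time ρ -/
noncomputable def rs (p : (ℝ × unitInterval) × C(unitInterval, ℂ)) : C(unitInterval, ℂ) := p.1.1 • (p.2.comp (tsc p.1.2))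

lemma rs_cont : Continuous rs := by
  have h1 : Continuous fun p : (ℝ × unitInterval) × C(unitInterval, ℂ) => (tsc p.1.2, p.2) :=
    (tsc.continuous.comp (continuous_snd.comp continuous_fst)).prodMk continuous_snd
  have h2 : Continuous fun p : (ℝ × unitInterval) × C(unitInterval, ℂ) => p.2.comp (tsc p.1.2) :=
    (ContinuousMap.continuous_comp'.comp h1)
  exact (continuous_fst.comp continuous_fst).smul h2

/-- the ratio of the step numbers as a point of the unit interval -/
noncomputable def rt2 (n b : ℕ) : unitInterval := if h : n ≤ b then ⟨(n : ℝ) / b, by positivity, by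
    rcases Nat.eq_zero_or_pos b with rfl | hb
    · simp
    · rw [div_le_one (by exact_mod_cast hb)]
      exact_mod_cast h⟩ else 1

lemma pn_part {z : ℕ → ℂ} {n b : ℕ} (hn : 1 ≤ n) (hb : n ≤ b) :
    pn z n = rs ((nr b / nr n, rt2 n b), pn z b) := by
  have hb1 : 1 ≤ b := hn.trans hb
  have p1 := nr_pos hn
  have p2 := nr_pos hb1
  ext u
  show ((nr n)⁻¹ : ℝ) • Tight.poly z n u = (nr b / nr n) • ((nr b)⁻¹ • Tight.poly z b (rt2 n b * u))
  rw [smul_smul]
  have e1 : nr b / nr n * (nr b)⁻¹ = (nr n)⁻¹ := by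
    field_simp
  rw [e1]
  congr 1
  refine poly_part hn hb ?_
  have hb0 : (b : ℝ) ≠ 0 := by
    have : (1 : ℝ) ≤ b := by exact_mod_cast hb1
    linarith
  have e2 : ((rt2 n b * u : unitInterval) : ℝ) = (n : ℝ) / b * u := by
    show ((rt2 n b : unitInterval) : ℝ) * (u : ℝ) = _
    congr 1
    unfold rt2
    rw [dif_pos hb]
  rw [e2]
  field_simp

/-- **the mean in the scaling of n over the words with b letters** -/
theorem Ef_FT {n b : ℕ} (hn : 1 ≤ n) (hb : n ≤ b) (f : C(unitInterval, ℂ) → ℝ) :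
    Ef b (FT f n) = ∫ γ, f (rs ((nr b / nr n * sg b, rt2 n b), γ)) ∂(law b) := by
  have h1 := integral_words (hn.trans hb) (fun γ => f (rs ((nr b / nr n, rt2 n b), γ)))
  have h2 : ∀ γ : C(unitInterval, ℂ), f (rs ((nr b / nr n, rt2 n b), sg b • γ)) =
      f (rs ((nr b / nr n * sg b, rt2 n b), γ)) := by
    intro γ
    congr 1
    ext u
    show (nr b / nr n) • (sg b • γ (tsc (rt2 n b) u)) = (nr b / nr n * sg b) • γ (tsc (rt2 n b) u)
    rw [smul_smul]
  simp only [h2] at h1
  rw [h1]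
  unfold Ef
  congr 1
  refine sum_congr rfl fun t ht => ?_
  have hl : t.length = b := (mem_wdN.1 ht).1
  unfold FT Fw
  rw [pT_of_le (by omega), pT_of_le (by omega), pT_of_le (by omega), hl, pn_part hn hb, pn_part hn hb, pn_part hn hb]

/-- the laws as probability measures do not see a change of the scaling that tends to the identity -/
theorem reparam {P : ℕ → ProbabilityMeasure C(unitInterval, ℂ)} {K : Set (ProbabilityMeasure C(unitInterval, ℂ))}
    (hK : IsCompact K) (hP : ∀ j, P j ∈ K) {σ s : ℕ → ℝ} {ρ : ℕ → unitInterval} {c C : ℝ} (hσ : ∀ j, σ j ∈ Set.Icc c C)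
    (hs : Tendsto s atTop (𝓝 1)) (hρ : Tendsto ρ atTop (𝓝 1)) {f : C(unitInterval, ℂ) → ℝ}
    (h01 : ∀ x, 0 ≤ f x ∧ f x ≤ 1) (hf : Continuous f) :
    Tendsto (fun j => ∫ γ, f (rs ((s j * σ j, ρ j), γ)) ∂(P j : Measure C(unitInterval, ℂ)) -
      ∫ γ, f (σ j • γ) ∂(P j : Measure C(unitInterval, ℂ))) atTop (𝓝 0) := by
  refine tendsto_of_subseq_tendsto fun ns hns => ?_
  obtain ⟨ν, -, θ, hθ, hlim⟩ := hK.tendsto_subseq (x := fun k => P (ns k)) (fun k => hP _)
  obtain ⟨a, -, θ', hθ', hlim'⟩ := (isCompact_Icc (a := c) (b := C)).tendsto_subseq (x := fun k => σ (ns (θ k))) (fun k => hσ _)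
  refine ⟨fun k => θ (θ' k), ?_⟩
  have t1 : Tendsto (fun k => ns (θ (θ' k))) atTop atTop := hns.comp ((hθ.comp hθ').tendsto_atTop)
  have L1 : Tendsto (fun k => P (ns (θ (θ' k)))) atTop (𝓝 ν) := hlim.comp hθ'.tendsto_atTop
  have L2 : Tendsto (fun k => σ (ns (θ (θ' k)))) atTop (𝓝 a) := hlim'
  have L3 : Tendsto (fun k => s (ns (θ (θ' k))) * σ (ns (θ (θ' k)))) atTop (𝓝 a) := by
    have := (hs.comp t1).mul L2
    rwa [one_mul] at this
  have L4 : Tendsto (fun k => ρ (ns (θ (θ' k)))) atTop (𝓝 1) := hρ.comp t1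
  have g1 : Continuous fun p : (ℝ × unitInterval) × C(unitInterval, ℂ) => f (rs p) := hf.comp rs_cont
  have M1 := tendsto_integral_param L1 (L3.prodMk_nhds L4)
    (BoundedContinuousFunction.mkOfBound ⟨fun p => f (rs p), g1⟩ 1 fun x y => bddc h01 _ _)
  have M2 := tendsto_integral_param L1 (L2.prodMk_nhds (tendsto_const_nhds (x := (1 : unitInterval))))
    (BoundedContinuousFunction.mkOfBound ⟨fun p => f (rs p), g1⟩ 1 fun x y => bddc h01 _ _)
  have e : ∀ (r : ℝ) (γ : C(unitInterval, ℂ)), rs ((r, 1), γ) = r • γ := by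
    intro r γ
    unfold rs
    rw [tsc_one, ContinuousMap.comp_id]
  have M3 := M1.sub M2
  rw [sub_self] at M3
  refine M3.congr fun k => ?_
  show ∫ γ, f (rs ((s (ns (θ (θ' k))) * σ (ns (θ (θ' k))), ρ (ns (θ (θ' k)))), γ)) ∂(P (ns (θ (θ' k))) : Measure C(unitInterval, ℂ)) -
    ∫ γ, f (rs ((σ (ns (θ (θ' k))), 1), γ)) ∂(P (ns (θ (θ' k))) : Measure C(unitInterval, ℂ)) = _
  simp only [e]

lemma nr_ratio {a b : ℕ → ℕ} (ha : ∀ j, 0 < a j) (h : Tendsto (fun j => (b j : ℝ) / a j) atTop (𝓝 1)) :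
    Tendsto (fun j => nr (b j) / nr (a j)) atTop (𝓝 1) := by
  have h1 := h.rpow_const (p := (3 / 4 : ℝ)) (Or.inl one_ne_zero)
  rw [Real.one_rpow] at h1
  refine h1.congr fun j => ?_
  have : (0 : ℝ) < a j := by exact_mod_cast ha j
  unfold nr
  rw [Real.div_rpow (Nat.cast_nonneg _) this.le]

lemma rt2_tendsto {a b : ℕ → ℕ} (hab : ∀ j, a j ≤ b j)
    (h : Tendsto (fun j => (b j : ℝ) / a j) atTop (𝓝 1)) : Tendsto (fun j => rt2 (a j) (b j)) atTop (𝓝 1) := by
  rw [tendsto_subtype_rng]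
  have h1 := h.inv₀ one_ne_zero
  rw [inv_one] at h1
  refine h1.congr fun j => ?_
  unfold rt2
  rw [dif_pos (hab j), inv_div]

end Mg

end NTSF
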