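import Pool.Agent.SLW.Split
import Pool.Agent.SLW.Conv
import Mathlib.RingTheory.PowerSeries.Basic

/-!
# SLOW, S4: the count as a threefold convolution (helper92)

* `cv_ps`, `cv_comm`, `cv_assoc`, `cv_swap`;
* `mS_cv`, `mW_cv` : the identities of `SLW/Split` with `cv`;
* **`triple`**: far part, universal piece, end: `cv (cv (mS φ) (mW ψ)) (mW ζ)`, `ζ` = the universal piece.
-/

set_option autoImplicit false

namespace HexObs

namespace SLW

open Finset TS SDN TIW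

lemma cv_ps (κ v : ℕ → ℝ) (n : ℕ) : cv κ v n = PowerSeries.coeff n (PowerSeries.mk v * PowerSeries.mk κ) := by
  rw [cv_anti, PowerSeries.coeff_mul]
  refine sum_congr rfl fun p _ => ?_
  rw [PowerSeries.coeff_mk, PowerSeries.coeff_mk]

lemma mk_cv (κ v : ℕ → ℝ) : PowerSeries.mk (cv κ v) = PowerSeries.mk v * PowerSeries.mk κ := by
  ext n
  rw [PowerSeries.coeff_mk, cv_ps]

lemma cv_comm (κ v : ℕ → ℝ) : cv κ v = cv v κ := by
  funext n
  rw [cv_ps, cv_ps, mul_comm]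

lemma cv_assoc (a b c : ℕ → ℝ) : cv (cv a b) c = cv a (cv b c) := by
  funext n
  rw [cv_ps, cv_ps, mk_cv, mk_cv, mul_assoc]

/-- the last two factors may be exchanged -/
lemma cv_swap (a b c : ℕ → ℝ) : cv (cv a b) c = cv (cv a c) b := by
  rw [cv_assoc, cv_assoc, cv_comm b c]

theorem mW_cv (φ ψ : List Bool → ℝ) :
    mW (fun Y => ∑ j ∈ range (Y.length + 1), φ (Y.take j) * ψ (Y.drop j)) = cv (mW ψ) (mW φ) := by
  funext m
  rw [mW_conv]
  rfl

theorem mS_cv (φ ψ : List Bool → ℝ) (hgl : ∀ A Y, φ A ≠ 0 → ψ Y ≠ 0 → A ∈ SA → A ++ Y ∈ SA) :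
    mS (fun t => ∑ k ∈ range (t.length + 1), φ (t.take k) * ψ (t.drop k)) = cv (mW ψ) (mS φ) := by
  funext n
  rw [mS_conv φ ψ hgl]
  rfl

/-- **the threefold convolution**: far part `φ`, universal piece `ζ`, end `ψ` -/
theorem triple (φ ζ ψ : List Bool → ℝ)
    (hgl : ∀ A V E, φ A ≠ 0 → ζ V ≠ 0 → ψ E ≠ 0 → A ∈ SA → A ++ (V ++ E) ∈ SA) :
    mS (fun t => ∑ k ∈ range (t.length + 1), φ (t.take k) *
      ∑ j ∈ range ((t.drop k).length + 1), ζ ((t.drop k).take j) * ψ ((t.drop k).drop j)) =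
      cv (cv (mS φ) (mW ψ)) (mW ζ) := by
  have h1 := mS_cv φ (fun Y => ∑ j ∈ range (Y.length + 1), ζ (Y.take j) * ψ (Y.drop j)) (by
    intro A Y h1 h2 h3
    obtain ⟨j, -, h4⟩ := exists_ne_zero_of_sum_ne_zero h2
    have h5 := hgl A (Y.take j) (Y.drop j) h1 (left_ne_zero_of_mul h4) (right_ne_zero_of_mul h4) h3
    rwa [List.take_append_drop] at h5)
  rw [h1, mW_cv, cv_comm, ← cv_assoc]

lemma mW_nonneg {φ : List Bool → ℝ} (h : ∀ w, 0 ≤ φ w) (n : ℕ) : 0 ≤ mW φ n :=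
  mul_nonneg (pow_nonneg xc_pos.le _) (sum_nonneg fun w _ => h w)

lemma mS_nonneg {φ : List Bool → ℝ} (h : ∀ w, 0 ≤ φ w) (n : ℕ) : 0 ≤ mS φ n :=
  mul_nonneg (pow_nonneg xc_pos.le _) (sum_nonneg fun w _ => h w)

lemma mW_mono {φ ψ : List Bool → ℝ} (h : ∀ w, φ w ≤ ψ w) (n : ℕ) : mW φ n ≤ mW ψ n :=
  mul_le_mul_of_nonneg_left (sum_le_sum fun w _ => h w) (pow_nonneg xc_pos.le _)

lemma mS_mono {φ ψ : List Bool → ℝ} {n : ℕ} (h : ∀ w ∈ sawF n, φ w ≤ ψ w) : mS φ n ≤ mS ψ n :=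
  mul_le_mul_of_nonneg_left (sum_le_sum fun w hw => h w hw) (pow_nonneg xc_pos.le _)

lemma mS_abs {φ ψ : List Bool → ℝ} {n : ℕ} (h : ∀ w ∈ sawF n, |φ w| ≤ ψ w) : |mS φ n| ≤ mS ψ n := by
  unfold mS
  rw [abs_mul, abs_of_nonneg (pow_nonneg xc_pos.le _)]
  exact mul_le_mul_of_nonneg_left ((abs_sum_le_sum_abs _ _).trans (sum_le_sum fun w hw => h w hw))
    (pow_nonneg xc_pos.le _)

lemma mS_sub (φ ψ : List Bool → ℝ) (n : ℕ) : mS (fun t => φ t - ψ t) n = mS φ n - mS ψ n := by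
  unfold mS
  rw [sum_sub_distrib, mul_sub]

lemma mS_const (c : ℝ) (φ : List Bool → ℝ) (n : ℕ) : mS (fun t => c * φ t) n = c * mS φ n := by
  unfold mS
  rw [← mul_sum]
  ring

lemma mS_sum {ι : Type*} (s : Finset ι) (φ : ι → List Bool → ℝ) (n : ℕ) :
    mS (fun t => ∑ i ∈ s, φ i t) n = ∑ i ∈ s, mS (φ i) n := by
  unfold mS
  rw [sum_comm, mul_sum]

/-- the generating function at exact length, `gf` form -/
lemma mW_gf (S : Set (List Bool)) (n : ℕ) :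
    gf {w | w ∈ S ∧ w.length = n} = ENNReal.ofReal (mW (fun w => TIP.ind (w ∈ S)) n) := by
  classical
  have h1 : {w | w ∈ S ∧ w.length = n} = ((((Wd n).filter fun w => w ∈ S) : Finset (List Bool)) : Set (List Bool)) := by
    ext w
    rw [Finset.mem_coe, mem_filter, mem_Wd]
    exact and_comm
  rw [h1, gf_finset]
  congr 1
  unfold mW
  rw [sum_filter, mul_sum]
  refine sum_congr rfl fun w hw => ?_
  rw [mem_Wd] at hw
  by_cases h2 : w ∈ S
  · rw [if_pos h2, TIP.ind_pos h2, hw, mul_one]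
  · rw [if_neg h2, TIP.ind_neg h2, mul_zero]

end SLW

end HexObs
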