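import Pool.Agent.TIW.InnF
import Pool.Agent.SLW.SplitC
import Pool.Agent.SLW.Defs

/-!
# SLOW, S4a: the count of the decompositions is a convolution in the length (helper92)

* `bu_hp` : a small bridge followed by a half plane word of the scale `l`;
* `glue3`: far part, chain, end glued;
* **`convId : ConvId`**.
-/

set_option autoImplicit false

namespace HexObs

namespace SLW

open Finset TS SDN TIW

/-- a small bridge followed by a half plane word -/
lemma bu_hp {r : ℕ} {V E : List Bool} (hV : V ∈ BU) (hs : ∀ i, i ≤ V.length → 64 * hn (vx oo up V i) < (r : ℤ))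
    (hE : E ∈ Hp r) : V ++ E ∈ Hp (2 * r) := by
  obtain ⟨T, hT⟩ := hV
  obtain ⟨b1, b2, b3, b4⟩ := mem_Brd.1 hT
  obtain ⟨hS, hn1⟩ := hE
  have hr : (0 : ℤ) < r := by
    have h1 := hs 0 (Nat.zero_le _)
    have h2 := hn_nonneg (vx oo up V 0)
    linarith
  have hlev : ∀ i, 1 ≤ i → i ≤ E.length → 0 < lev E i := fun i h1 h2 => hS.mem i h1 h2
  have hT0 : (0 : ℤ) ≤ 3 * T := by positivity
  have hlevV : ∀ i, i ≤ V.length → lev V i ≤ 3 * T := by
    intro i hi
    rcases Nat.eq_zero_or_pos i with h | h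
    · rw [h, lev_zero]
      exact hT0
    · exact (b1 i h hi).2
  have hcase : ∀ i, i ≤ (V ++ E).length → i ≤ V.length ∨ ∃ j, 1 ≤ j ∧ j ≤ E.length ∧ i = V.length + j := by
    intro i hi
    rw [List.length_append] at hi
    rcases le_or_gt i V.length with h | h
    · exact Or.inl h
    · exact Or.inr ⟨i - V.length, by omega, by omega, by omega⟩
  refine ⟨⟨fun i hi1 hi2 => ?_, fun i k hik hk he => ?_⟩, fun i hi => ?_⟩
  · show 0 < lev (V ++ E) i
    rcases hcase i hi2 with h | ⟨j, hj1, hj2, rfl⟩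
    · rw [lev_append (by omega)]
      exact (b1 i hi1 h).1
    · rw [lev_cat b3, b4]
      have := hlev j hj1 hj2
      linarith
  · rcases hcase k hk with h | ⟨j, hj1, hj2, rfl⟩
    · rw [vx_append (by omega), vx_append (by omega)] at he
      exact b2 i k hik h he
    · rcases hcase i (by omega) with h | ⟨j', hj1', hj2', rfl⟩
      · have h1 : lev (V ++ E) i = lev (V ++ E) (V.length + j) := by
          unfold lev
          rw [he]
        rw [lev_append (by omega), lev_cat b3, b4] at h1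
        have h2 := hlev j hj1 hj2
        have h3 := hlevV i h
        linarith
      · rw [vx_cat b3, vx_cat b3] at he
        exact hS.inj j' j (by omega) hj2 (add_left_cancel he)
  · push_cast
    rcases hcase i hi with h | ⟨j, hj1, hj2, rfl⟩
    · rw [vx_append (by omega)]
      have := hs i h
      have := hn_nonneg (vx oo up V i)
      linarith
    · rw [vx_cat b3]
      have h1 := hn_add (vx oo up V V.length) (vx oo up E j)
      have h2 := hs V.length le_rfl
      have h3 := hn1 j hj2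
      have h4 := hn_nonneg (vx oo up V V.length)
      linarith

/-- **gluing**: far part, chain, end -/
lemma glue3 {l : ℕ} {Ch : Set (List Bool)} (hC : Chn l Ch) {A V E : List Bool} (hA : A ∈ SA) (hF : A ∈ Fe (4 * 2 ^ l))
    (hV : V ∈ Ch) (hE : E ∈ Hp (2 ^ l)) : A ++ (V ++ E) ∈ SA := by
  have h1 : V ++ E ∈ Hp (2 * 2 ^ l) := bu_hp (hC.bu hV) (by
    intro i hi
    have := hC.size V hV i hi
    push_cast
    exact this) hE
  exact glue_SA (by omega : 2 * 2 ^ l ≤ 4 * 2 ^ l) hA hF h1

lemma Hp_SA {r : ℕ} {E : List Bool} (h : E ∈ Hp r) : E ∈ SA := ⟨fun _ _ _ => Set.mem_univ _, h.1.inj⟩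

lemma kF_mS (l : ℕ) (θ : List Bool → ℝ) : mS (fun A => TIP.ind (A ∈ Fe (4 * 2 ^ l)) * θ A) = kF l θ := by
  classical
  funext s
  unfold mS kF
  rw [sum_filter, mul_sum]
  refine sum_congr rfl fun A _ => ?_
  by_cases h : A ∈ Fe (4 * 2 ^ l)
  · rw [if_pos h, TIP.ind_pos h, one_mul]
  · rw [if_neg h, TIP.ind_neg h, zero_mul, mul_zero]

lemma eL_mW (l : ℕ) : mW (fun E => TIP.ind (E ∈ Hp (2 ^ l)) * chi (2 ^ l) E) = eL l := by
  classical
  funext b
  unfold mW eL
  rw [sum_filter, sum_saw, mul_sum]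
  refine sum_congr rfl fun E _ => ?_
  by_cases h : E ∈ Hp (2 ^ l)
  · rw [if_pos h, TIP.ind_pos h, TIP.ind_pos (Hp_SA h), one_mul, one_mul]
  · rw [if_neg h, TIP.ind_neg h, zero_mul, mul_zero, mul_zero]

lemma vL_mW (Ch : Set (List Bool)) : mW (fun V => TIP.ind (V ∈ Ch)) = vL Ch := by
  classical
  funext b
  unfold mW vL
  have h1 : {V | V ∈ Ch ∧ V.length = b} = ((((Wd b).filter fun V => V ∈ Ch) : Finset (List Bool)) : Set (List Bool)) := by
    ext w
    rw [Finset.mem_coe, mem_filter, mem_Wd]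
    exact and_comm
  rw [h1, Set.ncard_coe_finset, card_filter, mul_comm]
  congr 1
  push_cast
  refine sum_congr rfl fun V _ => ?_
  by_cases h : V ∈ Ch
  · rw [if_pos h, TIP.ind_pos h]
  · rw [if_neg h, TIP.ind_neg h]

/-- the weight as a double sum -/
lemma NT_eq (l : ℕ) (Ch : Set (List Bool)) (θ : List Bool → ℝ) (t : List Bool) :
    NT l Ch θ t = ∑ k ∈ range (t.length + 1), (TIP.ind (t.take k ∈ Fe (4 * 2 ^ l)) * θ (t.take k)) *
      ∑ j ∈ range ((t.drop k).length + 1), TIP.ind ((t.drop k).take j ∈ Ch) *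
        (TIP.ind ((t.drop k).drop j ∈ Hp (2 ^ l)) * chi (2 ^ l) ((t.drop k).drop j)) := by
  classical
  unfold NT
  rw [sum_filter, sum_product]
  refine sum_congr rfl fun i hi => ?_
  rw [mem_range] at hi
  obtain ⟨f, hf⟩ : ∃ f : ℕ → ℝ, f = fun j => if Dc l Ch t i j then chi (2 ^ l) (t.drop j) * θ (t.take i) else 0 := ⟨_, rfl⟩
  have e0 : ∑ y ∈ range (t.length + 1), (if Dc l Ch t (i, y).1 (i, y).2 then
      chi (2 ^ l) (t.drop (i, y).2) * θ (t.take (i, y).1) else 0) = ∑ y ∈ range (i + ((t.drop i).length + 1)), f y := by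
    rw [hf, List.length_drop]
    have : i + (t.length - i + 1) = t.length + 1 := by omega
    rw [this]
  rw [e0, sum_range_add]
  have e1 : ∑ y ∈ range i, f y = 0 := by
    refine sum_eq_zero fun y hy => ?_
    rw [mem_range] at hy
    rw [hf]
    exact if_neg fun h => absurd h.1 (by omega)
  rw [e1, zero_add, mul_sum]
  refine sum_congr rfl fun j hj => ?_
  rw [mem_range, List.length_drop] at hj
  have e2 : (t.take (i + j)).drop i = (t.drop i).take j := by
    rw [List.drop_take]
    congr 1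
    omega
  have e3 : t.drop (i + j) = (t.drop i).drop j := by
    rw [List.drop_drop]
  rw [hf]
  show (if Dc l Ch t i (i + j) then chi (2 ^ l) (t.drop (i + j)) * θ (t.take i) else 0) = _
  unfold Dc
  rw [e2, e3]
  by_cases h1 : t.take i ∈ Fe (4 * 2 ^ l)
  · by_cases h2 : (t.drop i).take j ∈ Ch
    · by_cases h3 : (t.drop i).drop j ∈ Hp (2 ^ l)
      · rw [if_pos ⟨by omega, h1, h2, h3⟩, TIP.ind_pos h1, TIP.ind_pos h2, TIP.ind_pos h3]
        ring
      · rw [if_neg fun h => h3 h.2.2.2, TIP.ind_neg h3]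
        ring
    · rw [if_neg fun h => h2 h.2.2.1, TIP.ind_neg h2]
      ring
  · rw [if_neg fun h => h1 h.2.1, TIP.ind_neg h1]
    ring

/-- **S4a: the identity** -/
theorem convId : ConvId := by
  intro l Ch θ n hC
  have key := congrFun (triple (fun A => TIP.ind (A ∈ Fe (4 * 2 ^ l)) * θ A) (fun V => TIP.ind (V ∈ Ch))
    (fun E => TIP.ind (E ∈ Hp (2 ^ l)) * chi (2 ^ l) E) (by
      intro A V E h1 h2 h3 h4
      have i1 : A ∈ Fe (4 * 2 ^ l) := by
        by_contra h
        exact h1 (by rw [TIP.ind_neg h, zero_mul])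
      have i2 : V ∈ Ch := by
        by_contra h
        exact h2 (TIP.ind_neg h)
      have i3 : E ∈ Hp (2 ^ l) := by
        by_contra h
        exact h3 (by rw [TIP.ind_neg h, zero_mul])
      exact glue3 hC h4 i1 i2 i3)) n
  rw [kF_mS, eL_mW, vL_mW] at key
  rw [← key]
  unfold mS
  rw [mul_sum]
  exact sum_congr rfl fun t _ => by rw [NT_eq]

end SLW

end HexObs
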