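import Pool.Agent.SLW.ConvId

/-!
# SLOW: one level (helper92)

* `NT_osc` : the weight of a level times a function that hardly sees a small end is the weight of the level with the
  function of the far part, up to the weight with the oscillation;
* **`levelD_far`**, **`levelD`** (the literal of helper45, errors as functions of the word) : the change of the length by
  `h`, one level: identity (2) of the doc nu34/SLOW_84, the window lemma and the law of the length of the chains.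
-/

set_option autoImplicit false

namespace HexObs

namespace SLW

open Finset TS SDN TIW

/-- far parts and small ends: the two hypotheses on a function -/
def OscF (l : ℕ) (Φ θ : List Bool → ℝ) : Prop := ∀ A Y, A ++ Y ∈ SA →
  (∀ i, i ≤ Y.length → hn (vx oo up Y i) < 2 * 2 ^ l) → |Φ (A ++ Y) - Φ A| ≤ θ A

lemma NT_osc {l : ℕ} {Ch : Set (List Bool)} (hC : Chn l Ch) {Φ θ : List Bool → ℝ} (hΦ : OscF l Φ θ) {t : List Bool}
    (ht : t ∈ SA) : |N1 l Ch t * Φ t - NT l Ch Φ t| ≤ NT l Ch θ t := by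
  classical
  unfold N1 NT
  rw [sum_mul, ← sum_sub_distrib]
  refine (abs_sum_le_sum_abs _ _).trans (sum_le_sum fun p hp => ?_)
  rw [mem_filter, mem_product, mem_range, mem_range] at hp
  obtain ⟨⟨hp1, hp2⟩, h1, h2, h3, h4⟩ := hp
  have e1 : chi (2 ^ l) (t.drop p.2) * 1 * Φ t - chi (2 ^ l) (t.drop p.2) * Φ (t.take p.1) =
      chi (2 ^ l) (t.drop p.2) * (Φ t - Φ (t.take p.1)) := by ring
  show |chi (2 ^ l) (t.drop p.2) * 1 * Φ t - chi (2 ^ l) (t.drop p.2) * Φ (t.take p.1)| ≤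
    chi (2 ^ l) (t.drop p.2) * θ (t.take p.1)
  rw [e1, abs_mul, abs_of_nonneg (chi_nonneg _ _)]
  refine mul_le_mul_of_nonneg_left ?_ (chi_nonneg _ _)
  have e2 : t.drop p.1 = (t.take p.2).drop p.1 ++ t.drop p.2 := by
    nth_rw 1 [← List.take_append_drop p.2 t]
    rw [List.drop_append_of_le_length (by rw [List.length_take]; omega)]
  have h5 : t.drop p.1 ∈ Hp (2 * 2 ^ l) := by
    rw [e2]
    refine bu_hp (hC.bu h3) (fun i hi => ?_) h4
    have := hC.size _ h3 i hi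
    push_cast
    exact this
  have h6 := hΦ (t.take p.1) (t.drop p.1) (by rw [List.take_append_drop]; exact ht) (fun i hi => by
    have := h5.2 i hi
    push_cast at this
    exact this)
  rwa [List.take_append_drop] at h6

lemma NT_nonneg (l : ℕ) (Ch : Set (List Bool)) {θ : List Bool → ℝ} (h : ∀ t, 0 ≤ θ t) (t : List Bool) : 0 ≤ NT l Ch θ t := by
  classical
  unfold NT
  exact sum_nonneg fun p _ => mul_nonneg (chi_nonneg _ _) (h _)

lemma vL_nonneg (Ch : Set (List Bool)) (b : ℕ) : 0 ≤ vL Ch b := mul_nonneg (Nat.cast_nonneg _) (pow_nonneg xc_pos.le _)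

lemma vL_zero {Ch : Set (List Bool)} {B : ℕ} (hB : ∀ V ∈ Ch, V.length ≤ B) {b : ℕ} (hb : B < b) : vL Ch b = 0 := by
  unfold vL
  have h : {V | V ∈ Ch ∧ V.length = b} = (∅ : Set (List Bool)) := by
    ext V
    constructor
    · rintro ⟨h1, h2⟩
      have := hB V h1
      omega
    · intro h1
      exact h1.elim
  rw [h, Set.ncard_empty, Nat.cast_zero, zero_mul]

lemma eL_nonneg (l b : ℕ) : 0 ≤ eL l b := by
  classical
  unfold eL
  exact sum_nonneg fun E _ => mul_nonneg (pow_nonneg xc_pos.le _) (chi_nonneg _ _)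

lemma kF_abs {l : ℕ} {Φ Ψ : List Bool → ℝ} (h : ∀ t, |Φ t| ≤ Ψ t) (s : ℕ) : |kF l Φ s| ≤ kF l Ψ s := by
  classical
  unfold kF
  refine (abs_sum_le_sum_abs _ _).trans (sum_le_sum fun A _ => ?_)
  rw [abs_mul, abs_of_nonneg (pow_nonneg xc_pos.le _)]
  exact mul_le_mul_of_nonneg_left (h A) (pow_nonneg xc_pos.le _)

/-- the weighted mass of the level `l`, words with exactly `n` letters -/
noncomputable def XL (l : ℕ) (Ch : Set (List Bool)) (Φ : List Bool → ℝ) (n : ℕ) : ℝ :=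
  ∑ t ∈ sawF n, xc ^ n * (N1 l Ch t * Φ t)

/-- the error of the level `l` -/
noncomputable def EL (l : ℕ) (Ch : Set (List Bool)) (θ : List Bool → ℝ) (n : ℕ) : ℝ :=
  ∑ t ∈ sawF n, xc ^ n * NT l Ch θ t

lemma XL_cv {l : ℕ} {Ch : Set (List Bool)} (hC : Chn l Ch) {Φ θ : List Bool → ℝ} (hΦ : OscF l Φ θ) (n : ℕ) :
    |XL l Ch Φ n - cv (cv (kF l Φ) (eL l)) (vL Ch) n| ≤ EL l Ch θ n := by
  unfold XL EL
  rw [← convId l Ch Φ n hC, ← sum_sub_distrib]
  refine (abs_sum_le_sum_abs _ _).trans (sum_le_sum fun t ht => ?_)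
  rw [← mul_sub, abs_mul, abs_of_nonneg (pow_nonneg xc_pos.le _)]
  exact mul_le_mul_of_nonneg_left (NT_osc hC hΦ (mem_sawF.1 ht).2) (pow_nonneg xc_pos.le _)

/-- **one level**: the change of the length by `h` -/
theorem levelD_far {l B h : ℕ} {Ch : Set (List Bool)} (hC : Chn l Ch) (hB : ∀ V ∈ Ch, V.length ≤ B) (hB1 : 1 ≤ B) {δ η : ℝ}
    (hη : 0 ≤ η) (hδ : ∀ b, |vL Ch (b + h) - vL Ch b| ≤ δ) (hδ' : ∀ b, b < h → |vL Ch b| ≤ δ)
    (hδB : δ * B ≤ η * ∑ b ∈ range (B + 1), vL Ch b) {Φ Ψ θ : List Bool → ℝ} (hΦΨ : ∀ t, |Φ t| ≤ Ψ t)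
    (hΦ : OscF l Φ θ) (hΨ : OscF l Ψ θ) (n : ℕ) :
    |XL l Ch Φ (n + h) - XL l Ch Φ n| ≤
      η / B * ∑ j ∈ Icc (n - B) (n + h + B), (XL l Ch Ψ j + EL l Ch θ j) + EL l Ch θ (n + h) + EL l Ch θ n := by
  refine window_err (κ := cv (kF l Φ) (eL l)) (κ' := cv (kF l Ψ) (eL l)) (v := vL Ch) (e := EL l Ch θ)
    (W := ∑ b ∈ range (B + 1), vL Ch b) (δ := δ) (B := B) (N := B) (fun s => ?_) (fun b => vL_nonneg Ch b)
    (fun b hb => vL_zero hB hb) hδ hδ' le_rfl (by exact_mod_cast hB1) hη hδB n (XL_cv hC hΦ _) (XL_cv hC hΦ _) ?_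
  · rw [cv_comm (kF l Φ), cv_comm (kF l Ψ)]
    unfold cv
    refine (abs_sum_le_sum_abs _ _).trans (sum_le_sum fun b _ => ?_)
    rw [abs_mul, abs_of_nonneg (eL_nonneg _ _)]
    exact mul_le_mul_of_nonneg_right (kF_abs hΦΨ b) (eL_nonneg _ _)
  · intro j _
    have h1 := abs_le.1 (XL_cv hC hΨ j)
    linarith [h1.1]

/-- errors as functions of the word -/
lemma NT_oscE {l : ℕ} {Ch : Set (List Bool)} (hC : Chn l Ch) {Φ e : List Bool → ℝ} (hΦ : ∀ A Y, A ++ Y ∈ SA →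
    (∀ i, i ≤ Y.length → hn (vx oo up Y i) < 2 ^ (l + 1)) → Φ A ≤ Φ (A ++ Y) + e (A ++ Y)) {t : List Bool}
    (ht : t ∈ SA) : NT l Ch Φ t ≤ N1 l Ch t * (Φ t + e t) := by
  classical
  unfold N1 NT
  rw [sum_mul]
  refine sum_le_sum fun p hp => ?_
  rw [mem_filter, mem_product, mem_range, mem_range] at hp
  obtain ⟨⟨hp1, hp2⟩, h1, h2, h3, h4⟩ := hp
  show chi (2 ^ l) (t.drop p.2) * Φ (t.take p.1) ≤ chi (2 ^ l) (t.drop p.2) * 1 * (Φ t + e t)
  rw [mul_one]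
  refine mul_le_mul_of_nonneg_left ?_ (chi_nonneg _ _)
  have e2 : t.drop p.1 = (t.take p.2).drop p.1 ++ t.drop p.2 := by
    nth_rw 1 [← List.take_append_drop p.2 t]
    rw [List.drop_append_of_le_length (by rw [List.length_take]; omega)]
  have h5 : t.drop p.1 ∈ Hp (2 * 2 ^ l) := by
    rw [e2]
    refine bu_hp (hC.bu h3) (fun i hi => ?_) h4
    have := hC.size _ h3 i hi
    push_cast
    exact this
  have h6 := hΦ (t.take p.1) (t.drop p.1) (by rw [List.take_append_drop]; exact ht) (fun i hi => by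
    have h7 := h5.2 i hi
    push_cast at h7
    rw [pow_succ, mul_comm]
    exact h7)
  rwa [List.take_append_drop] at h6

lemma NT_neg (l : ℕ) (Ch : Set (List Bool)) (Φ : List Bool → ℝ) (t : List Bool) :
    NT l Ch (fun w => -Φ w) t = -NT l Ch Φ t := by
  classical
  unfold NT
  rw [← sum_neg_distrib]
  exact sum_congr rfl fun p _ => mul_neg _ _

lemma XL_cvE {l : ℕ} {Ch : Set (List Bool)} (hC : Chn l Ch) {Φ e : List Bool → ℝ} (hΦ : ∀ A Y, A ++ Y ∈ SA →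
    (∀ i, i ≤ Y.length → hn (vx oo up Y i) < 2 ^ (l + 1)) → |Φ (A ++ Y) - Φ A| ≤ e (A ++ Y)) (n : ℕ) :
    |XL l Ch Φ n - cv (cv (kF l Φ) (eL l)) (vL Ch) n| ≤ XL l Ch e n := by
  unfold XL
  rw [← convId l Ch Φ n hC, ← sum_sub_distrib]
  refine (abs_sum_le_sum_abs _ _).trans (sum_le_sum fun t ht => ?_)
  rw [← mul_sub, abs_mul, abs_of_nonneg (pow_nonneg xc_pos.le _)]
  refine mul_le_mul_of_nonneg_left ?_ (pow_nonneg xc_pos.le _)
  have h1 := NT_oscE hC (Φ := Φ) (e := e) (fun A Y h2 h3 => by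
    have := (abs_le.1 (hΦ A Y h2 h3)).1
    linarith) (mem_sawF.1 ht).2
  have h2 := NT_oscE hC (Φ := fun w => -Φ w) (e := e) (fun A Y h2 h3 => by
    have := (abs_le.1 (hΦ A Y h2 h3)).2
    show -Φ A ≤ -Φ (A ++ Y) + e (A ++ Y)
    linarith) (mem_sawF.1 ht).2
  rw [NT_neg] at h2
  rw [mul_add] at h1 h2
  rw [abs_le]
  constructor <;> nlinarith

/-- **one level**: the change of the length by `h`, errors as functions of the word -/
theorem levelD {l n h B : ℕ} {Ch : Set (List Bool)} {δ : ℝ} {Φ Φ' e : List Bool → ℝ} (hC : Chn l Ch)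
    (hB : ∀ V ∈ Ch, V.length ≤ B) (hW : 0 < ∑ b ∈ range (B + 1), vL Ch b)
    (h1 : ∀ b, |vL Ch (b + h) - vL Ch b| ≤ δ) (h2 : ∀ b, b < h → |vL Ch b| ≤ δ) (he : ∀ t, 0 ≤ e t)
    (hΦ : ∀ t, |Φ t| ≤ Φ' t) (hO : ∀ A Y, A ++ Y ∈ SA → (∀ i, i ≤ Y.length → hn (vx oo up Y i) < 2 ^ (l + 1)) →
      |Φ (A ++ Y) - Φ A| ≤ e (A ++ Y) ∧ Φ' A ≤ Φ' (A ++ Y) + e (A ++ Y)) :
    |∑ t ∈ sawF (n + h), xc ^ (n + h) * (N1 l Ch t * Φ t) - ∑ t ∈ sawF n, xc ^ n * (N1 l Ch t * Φ t)| ≤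
      ∑ t ∈ sawF (n + h), xc ^ (n + h) * (N1 l Ch t * e t) + ∑ t ∈ sawF n, xc ^ n * (N1 l Ch t * e t) +
      δ / (∑ b ∈ range (B + 1), vL Ch b) * ∑ n' ∈ Icc (n - B) (n + h + B),
        ∑ t ∈ sawF n', xc ^ n' * (N1 l Ch t * (Φ' t + e t)) := by
  have _ := he
  obtain ⟨W, hWe⟩ : ∃ W, W = ∑ b ∈ range (B + 1), vL Ch b := ⟨_, rfl⟩
  have hδ0 : 0 ≤ δ := (abs_nonneg _).trans (h1 0)
  have hW' : 0 < W := by rw [hWe]; exact hW
  have key := window_err (κ := cv (kF l Φ) (eL l)) (κ' := cv (kF l Φ') (eL l)) (v := vL Ch) (e := XL l Ch e)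
    (x := XL l Ch Φ) (y := XL l Ch (fun t => Φ' t + e t)) (h := h)
    (W := W) (δ := δ) (B := B) (N := 1) (η := δ / W) (fun s => by
      rw [cv_comm (kF l Φ), cv_comm (kF l Φ')]
      unfold cv
      refine (abs_sum_le_sum_abs _ _).trans (sum_le_sum fun b _ => ?_)
      rw [abs_mul, abs_of_nonneg (eL_nonneg _ _)]
      exact mul_le_mul_of_nonneg_right (kF_abs hΦ b) (eL_nonneg _ _)) (fun b => vL_nonneg Ch b)
    (fun b hb => vL_zero hB hb) h1 h2 hWe.le one_pos (div_nonneg hδ0 hW'.le) (by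
      rw [mul_one, div_mul_cancel₀ _ hW'.ne']) n (XL_cvE hC (fun A Y h3 h4 => (hO A Y h3 h4).1) _)
    (XL_cvE hC (fun A Y h3 h4 => (hO A Y h3 h4).1) _) (by
      intro j _
      rw [← convId l Ch Φ' j hC]
      unfold XL
      exact sum_le_sum fun t ht => mul_le_mul_of_nonneg_left
        (NT_oscE hC (fun A Y h3 h4 => (hO A Y h3 h4).2) (mem_sawF.1 ht).2) (pow_nonneg xc_pos.le _))
  rw [div_one] at key
  unfold XL at key
  rw [← hWe]
  linarith

end SLW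

end HexObs
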