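import Pool.Agent.TIW.Osc
import Pool.Agent.SLW.SplitC
import Pool.Agent.SLW.Defs

/-!
# SLOW, S4b: the weights hardly see a small end (helper92; the argument of TIW/Osc, helper69)

* `cj` : the number of the (far part, chain) pairs that end at the index `j`; `pair_sum` : sums over the decompositions;
* **`oscS : OscS`**.
-/

set_option autoImplicit false

namespace HexObs

namespace SLW

open Finset TS SDN TIW TIW.OscA

open Classical in
/-- the number of the pairs (far part, chain) that end at the index `j` -/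
noncomputable def cj (l : ℕ) (Ch : Set (List Bool)) (t : List Bool) (j : ℕ) : ℝ :=
  (((range (j + 1)).filter fun i => t.take i ∈ Fe (4 * 2 ^ l) ∧ (t.take j).drop i ∈ Ch).card : ℝ)

lemma cj_nonneg (l : ℕ) (Ch : Set (List Bool)) (t : List Bool) (j : ℕ) : 0 ≤ cj l Ch t j := Nat.cast_nonneg _

open Classical in
/-- sums over the decompositions -/
lemma pair_sum (l : ℕ) (Ch : Set (List Bool)) (t : List Bool) (w : ℕ → ℝ) :
    ∑ p ∈ ((range (t.length + 1)) ×ˢ (range (t.length + 1))).filter (fun p => Dc l Ch t p.1 p.2), w p.2 =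
      ∑ j ∈ range (t.length + 1), cj l Ch t j * (if t.drop j ∈ Hp (2 ^ l) then w j else 0) := by
  rw [sum_filter, sum_product_right]
  refine sum_congr rfl fun j hj => ?_
  rw [mem_range] at hj
  have e1 : cj l Ch t j = ∑ i ∈ range (j + 1), if t.take i ∈ Fe (4 * 2 ^ l) ∧ (t.take j).drop i ∈ Ch then (1 : ℝ) else 0 := by
    unfold cj
    rw [sum_boole]
  rw [e1, sum_mul]
  symm
  have hsub : range (j + 1) ⊆ range (t.length + 1) := fun i hi => by
    rw [mem_range] at hi ⊢
    omega
  have e2 : ∀ i ∈ range (j + 1), (if t.take i ∈ Fe (4 * 2 ^ l) ∧ (t.take j).drop i ∈ Ch then (1 : ℝ) else 0) *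
      (if t.drop j ∈ Hp (2 ^ l) then w j else 0) = if Dc l Ch t i j then w j else 0 := by
    intro i hi
    rw [mem_range] at hi
    unfold Dc
    by_cases h1 : t.take i ∈ Fe (4 * 2 ^ l) ∧ (t.take j).drop i ∈ Ch
    · by_cases h2 : t.drop j ∈ Hp (2 ^ l)
      · rw [if_pos h1, if_pos h2, if_pos ⟨by omega, h1.1, h1.2, h2⟩, one_mul]
      · rw [if_neg h2, mul_zero]
        exact (if_neg fun h => h2 h.2.2.2).symm
    · rw [if_neg h1, zero_mul]
      exact (if_neg fun h => h1 ⟨h.2.1, h.2.2.1⟩).symm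
  rw [sum_congr rfl e2]
  refine sum_subset hsub fun i hi hi' => ?_
  rw [mem_range] at hi'
  exact if_neg fun h => hi' (by have := h.1; omega)

open Classical in
lemma N1_sum (l : ℕ) (Ch : Set (List Bool)) (t : List Bool) : N1 l Ch t =
    ∑ j ∈ range (t.length + 1), cj l Ch t j * (if t.drop j ∈ Hp (2 ^ l) then chi (2 ^ l) (t.drop j) else 0) := by
  rw [← pair_sum l Ch t fun j => chi (2 ^ l) (t.drop j)]
  unfold N1 NT
  exact sum_congr rfl fun p _ => mul_one _

open Classical in
lemma NQ_sum (l : ℕ) (Ch : Set (List Bool)) (t : List Bool) : NQ l Ch t =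
    ∑ j ∈ range (t.length + 1), cj l Ch t j * (if t.drop j ∈ Hp (2 ^ l) then 1 else 0) := by
  rw [← pair_sum l Ch t fun _ => 1]
  unfold NQ
  rw [sum_const, nsmul_eq_mul, mul_one]

open Classical in
lemma NI_sum (l : ℕ) (Ch : Set (List Bool)) (t : List Bool) : NI l Ch t =
    ∑ j ∈ range (t.length + 1), cj l Ch t j * (if t.drop j ∈ Hp (2 ^ l) then
      (if (2 : ℤ) ^ l ≤ 64 * ip (en (t.drop j)) up ∧ 4 * hn (en (t.drop j)) ≤ 3 * 2 ^ l then 1 else 0) else 0) := by
  rw [← pair_sum l Ch t fun j =>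
    if (2 : ℤ) ^ l ≤ 64 * ip (en (t.drop j)) up ∧ 4 * hn (en (t.drop j)) ≤ 3 * 2 ^ l then 1 else 0]
  unfold NI
  rw [sum_boole, filter_filter]

open Classical in
lemma cj_app (l : ℕ) (Ch : Set (List Bool)) (A Y : List Bool) {j : ℕ} (hj : j ≤ A.length) :
    cj l Ch (A ++ Y) j = cj l Ch A j := by
  unfold cj
  congr 2
  refine filter_congr fun i hi => ?_
  rw [mem_range] at hi
  rw [List.take_append_of_le_length (by omega), List.take_append_of_le_length hj]

open Classical in
/-- **S4b** -/
theorem oscS : OscS := by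
  intro l rho Ch A Y _ hR hrho hS hY
  obtain ⟨R, hRe⟩ : ∃ R : ℕ, R = 2 ^ l := ⟨_, rfl⟩
  have hRz' : (2 : ℤ) ^ l = (R : ℤ) := by rw [hRe]; push_cast; rfl
  have hRr' : (2 : ℝ) ^ l = (R : ℝ) := by rw [hRe]; push_cast; rfl
  rw [N1_sum, N1_sum, NI_sum, NQ_sum, ← hRe, hRz', hRr']
  rw [← hRe] at hR
  have hR0 : 0 < R := by omega
  have hRz : (128 : ℤ) * rho ≤ R := by exact_mod_cast hR
  have hrz : (1 : ℤ) ≤ rho := by exact_mod_cast hrho
  have hRr : (0 : ℝ) < R := by exact_mod_cast hR0
  have hY0 : hn (en Y) < rho := hY Y.length le_rfl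
  obtain ⟨Mc, hMc⟩ : ∃ Mc : ℕ → Prop, Mc = fun k => A.drop k ∈ Hp R ∧
    ((R : ℤ) ≤ 64 * ip (en (A.drop k)) up ∧ 4 * hn (en (A.drop k)) ≤ 3 * R) := ⟨_, rfl⟩
  have hdk : ∀ k, k ≤ A.length → (A ++ Y).drop k = A.drop k ++ Y := fun k hk => List.drop_append_of_le_length hk
  have hsplit : ∀ k, A.take k ++ (A.drop k ++ Y) ∈ SA := by
    intro k
    rw [← List.append_assoc, List.take_append_drop]
    exact hS
  have hend : ∀ Z : List Bool, |ip (en (Z ++ Y)) up - ip (en Z) up| ≤ rho ∧ |hn (en (Z ++ Y)) - hn (en Z)| ≤ rho := by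
    intro Z
    rw [OscA.en_app]
    have h1 := hn_rot Z (en Y)
    have h2 := ip_abs (mulE (rt Z) (en Y)) upd'
    rw [h1] at h2
    refine ⟨?_, ?_⟩
    · rw [ip_add_left, add_sub_cancel_left]
      linarith
    · have h3 := hn_add (en Z) (mulE (rt Z) (en Y))
      have h4 := hn_sub (en Z + mulE (rt Z) (en Y)) (mulE (rt Z) (en Y))
      rw [add_sub_cancel_right] at h4
      rw [h1] at h3 h4
      rw [abs_le]
      constructor <;> linarith
  have hzero : ∀ k, ¬ Mc k → A.drop k ∈ Hp R → chi R (A.drop k) = 0 ∧ chi R (A.drop k ++ Y) = 0 := by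
    intro k hm m2
    rw [hMc] at hm
    simp only [not_and_or, not_le] at hm
    obtain ⟨e1, e2⟩ := hend (A.drop k)
    rw [abs_le] at e1 e2
    rcases hm with hm | hm
    · exact absurd m2 hm
    · rcases hm with h | h
      · exact ⟨chi_low hR0 (by omega), chi_low hR0 (by omega)⟩
      · exact ⟨chi_far hR0 (by omega), chi_far hR0 (by omega)⟩
  have hext : ∀ k, Mc k → A.drop k ++ Y ∈ Hp R := by
    intro k hm
    rw [hMc] at hm
    exact Hp_ext hR hrho (hsplit k) hY hm.1 hm.2.1 hm.2.2
  obtain ⟨f, hf⟩ : ∃ f : ℕ → ℝ, f = fun k => cj l Ch (A ++ Y) k *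
    (if (A ++ Y).drop k ∈ Hp R then chi R ((A ++ Y).drop k) else 0) := ⟨_, rfl⟩
  obtain ⟨g, hg⟩ : ∃ g : ℕ → ℝ, g = fun k => cj l Ch A k * (if A.drop k ∈ Hp R then chi R (A.drop k) else 0) := ⟨_, rfl⟩
  have hbig : ∀ k, A.length < k → k ≤ (A ++ Y).length → f k = 0 := by
    intro k hk hk2
    rw [hf]
    simp only
    split_ifs with hc
    · have hz : chi R ((A ++ Y).drop k) = 0 := by
        refine chi_low hR0 ?_
        rw [List.length_append] at hk2
        obtain ⟨j, rfl⟩ : ∃ j, k = A.length + j := ⟨k - A.length, by omega⟩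
        have e : (A ++ Y).drop (A.length + j) = Y.drop j := by
          rw [List.drop_append]
          simp
        rw [e]
        have h1 : en Y = en (Y.take j) + mulE (rt (Y.take j)) (en (Y.drop j)) := by
          rw [← OscA.en_app, List.take_append_drop]
        have hj : j ≤ Y.length := by omega
        have h2 : en (Y.take j) = vx oo up Y j := by
          unfold en
          rw [List.length_take, min_eq_left hj]
          have := vx_append (v0 := oo) (d0 := up) (t := Y.take j) (s := Y.drop j) (i := j)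
            (by rw [List.length_take, min_eq_left hj]; omega)
          rw [List.take_append_drop] at this
          exact this.symm
        have h3 : mulE (rt (Y.take j)) (en (Y.drop j)) = en Y - vx oo up Y j := by
          rw [h1, h2]
          abel
        have h4 := hn_rot (Y.take j) (en (Y.drop j))
        rw [h3] at h4
        have h5 := hn_sub (en Y) (vx oo up Y j)
        have h6 := hY j hj
        have h7 := ip_le_hn (en (Y.drop j)) upd'
        omega
      rw [hz, mul_zero]
    · rw [mul_zero]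
  have hsum : ∑ k ∈ range ((A ++ Y).length + 1), f k = ∑ k ∈ range (A.length + 1), f k := by
    symm
    refine sum_subset (fun k hk => ?_) fun k hk hk' => ?_
    · rw [mem_range] at hk ⊢
      rw [List.length_append]
      omega
    · rw [mem_range] at hk hk'
      exact hbig k (by omega) (by omega)
  have hterm : ∀ k ∈ range (A.length + 1), |f k - g k| ≤ 32 * rho / R * (cj l Ch A k * (if Mc k then (1 : ℝ) else 0)) := by
    intro k hk
    rw [mem_range] at hk
    have hk' : k ≤ A.length := by omega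
    rw [hf, hg]
    simp only
    rw [cj_app l Ch A Y hk', ← mul_sub, abs_mul, abs_of_nonneg (cj_nonneg l Ch A k), mul_left_comm]
    refine mul_le_mul_of_nonneg_left ?_ (cj_nonneg l Ch A k)
    rw [hdk k hk']
    by_cases hm : Mc k
    · have h1 := hext k hm
      have h2 : A.drop k ∈ Hp R := by
        rw [hMc] at hm
        exact hm.1
      rw [if_pos hm, mul_one, if_pos h1, if_pos h2]
      obtain ⟨e1, e2⟩ := hend (A.drop k)
      exact chi_lip hR0 e1 e2
    · rw [if_neg hm, mul_zero]
      have h1 : (if A.drop k ∈ Hp R then chi R (A.drop k) else 0) = 0 := by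
        split_ifs with hc
        · exact (hzero k hm hc).1
        · rfl
      have h2 : (if A.drop k ++ Y ∈ Hp R then chi R (A.drop k ++ Y) else 0) = 0 := by
        split_ifs with hc
        · exact (hzero k hm (OscA.Hp_pre hc)).2
        · rfl
      rw [h1, h2, sub_zero, abs_zero]
  have hNI : ∀ k, (if A.drop k ∈ Hp R then
      (if (R : ℤ) ≤ 64 * ip (en (A.drop k)) up ∧ 4 * hn (en (A.drop k)) ≤ 3 * R then (1 : ℝ) else 0) else 0) =
      if Mc k then (1 : ℝ) else 0 := by
    intro k
    rw [hMc]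
    by_cases h1 : A.drop k ∈ Hp R
    · rw [if_pos h1]
      by_cases h2 : (R : ℤ) ≤ 64 * ip (en (A.drop k)) up ∧ 4 * hn (en (A.drop k)) ≤ 3 * R
      · rw [if_pos h2, if_pos ⟨h1, h2⟩]
      · rw [if_neg h2, if_neg fun h => h2 h.2]
    · rw [if_neg h1, if_neg fun h => h1 h.1]
  refine ⟨?_, ?_⟩
  · have hN1 : ∑ j ∈ range ((A ++ Y).length + 1), cj l Ch (A ++ Y) j *
        (if (A ++ Y).drop j ∈ Hp R then chi R ((A ++ Y).drop j) else 0) = ∑ k ∈ range (A.length + 1), f k := by
      rw [← hsum, hf]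
    have hN2 : ∑ j ∈ range (A.length + 1), cj l Ch A j * (if A.drop j ∈ Hp R then chi R (A.drop j) else 0) =
        ∑ k ∈ range (A.length + 1), g k := by
      rw [hg]
    rw [hN1, hN2, ← sum_sub_distrib, mul_sum]
    refine (abs_sum_le_sum_abs _ _).trans (sum_le_sum fun k hk => ?_)
    rw [hNI k]
    exact hterm k hk
  · have h1 : ∀ k ∈ range (A.length + 1), cj l Ch A k * (if A.drop k ∈ Hp R then
        (if (R : ℤ) ≤ 64 * ip (en (A.drop k)) up ∧ 4 * hn (en (A.drop k)) ≤ 3 * R then (1 : ℝ) else 0) else 0) ≤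
        cj l Ch (A ++ Y) k * (if (A ++ Y).drop k ∈ Hp R then 1 else 0) := by
      intro k hk
      rw [mem_range] at hk
      have hk' : k ≤ A.length := by omega
      rw [hNI k, cj_app l Ch A Y hk', hdk k hk']
      refine mul_le_mul_of_nonneg_left ?_ (cj_nonneg l Ch A k)
      by_cases hm : Mc k
      · rw [if_pos hm, if_pos (hext k hm)]
      · rw [if_neg hm]
        split_ifs <;> norm_num
    refine (sum_le_sum h1).trans (sum_le_sum_of_subset_of_nonneg (fun k hk => ?_) fun k _ _ => ?_)
    · rw [mem_range] at hk ⊢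
      rw [List.length_append]
      omega
    · refine mul_nonneg (cj_nonneg l Ch _ k) ?_
      split_ifs <;> norm_num

end SLW

end HexObs
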