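import Pool.Agent.SLW.Defs

/-!
SLW: the literal between the ends and the assembly (helper45): the total weight of the levels is rarely small.
-/

set_option autoImplicit false

namespace HexObs

namespace SLW

open Finset TS SDN TIW

/-- the mass of a class of chains of at most B letters -/
noncomputable def WL' (Ch : Set (List Bool)) (B : ℕ) : ℝ := ∑ b ∈ range (B + 1), vL Ch b

/-- chains for the levels lb + i * s, i < M -/
structure ChF (lb s M : ℕ) (a w : ℝ) (Ch : ℕ → Set (List Bool)) (B : ℕ → ℕ) : Prop where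
  chn : ∀ i, i < M → Chn (lb + i * s) (Ch i)
  len : ∀ i, i < M → ∀ V ∈ Ch i, V.length ≤ B i
  short : ∀ i, i < M → (B i : ℝ) ≤ a / 2 * PW.mZ (2 ^ (lb + i * s))
  mass : ∀ i, i < M → w ≤ WL' (Ch i) (B i)

/-- the normalised weight of the level lb + i * s, divided by the number of the levels -/
noncomputable def aL (lb s M : ℕ) (Ch : ℕ → Set (List Bool)) (B : ℕ → ℕ) (i : ℕ) (t : List Bool) : ℝ :=
  N1 (lb + i * s) (Ch i) t / (M * (WL' (Ch i) (B i) * Ub (lb + i * s)))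

/-- the normalised number of the decompositions of the level lb + i * s, divided by the number of the levels -/
noncomputable def qL (lb s M : ℕ) (Ch : ℕ → Set (List Bool)) (B : ℕ → ℕ) (i : ℕ) (t : List Bool) : ℝ :=
  NQ (lb + i * s) (Ch i) t / (M * (WL' (Ch i) (B i) * Ub (lb + i * s)))

/-- the oscillation of the cutoff of the levels above i -/
noncomputable def thG (lb s M : ℕ) (c : ℝ) (Ch : ℕ → Set (List Bool)) (B : ℕ → ℕ) (i : ℕ) (A : List Bool) : ℝ :=
  64 / (c * 2 ^ s) * ∑ j ∈ Ico (i + 1) M, NI (lb + j * s) (Ch j) A / (M * (WL' (Ch j) (B j) * Ub (lb + j * s)))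

/-- **the total weight is rarely small**; a and c do not depend on the mass w of the chains -/
def SmallS : Prop := ∀ ε : ℝ, 0 < ε → ∃ a c : ℝ, 0 < a ∧ 0 < c ∧ ∀ w : ℝ, 0 < w → ∃ M0 : ℕ, ∀ M : ℕ, M0 ≤ M →
  ∃ s0 : ℕ, ∀ s : ℕ, s0 ≤ s → ∃ c0 l0 k0 : ℕ, ∀ k n lb : ℕ, k0 ≤ k → TIP.Sc k n → l0 ≤ lb → lb + M * s + c0 ≤ k →
    ∀ (Ch : ℕ → Set (List Bool)) (B : ℕ → ℕ), ChF lb s M a w Ch B →
      TOG.Pn n {t | ∑ i ∈ range M, aL lb s M Ch B i t < 2 * c} ≤ ε

end SLW

end HexObs
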