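import Mathlib

/-!
SLW (slow change of the law): the telescoping weights (helper45). Levels l < M with weights a l >= 0; `Ta a M l` = the sum of
the weights of the levels from l on; `R` = sum of a l * gc c (Ta a M (l + 1)), divided by its maximum, is close to 1 where the
sum of all weights is at least 2 c. Two finite measures that nearly agree on F * a l * gc c (Ta a M (l + 1)) nearly agree on F.
-/

set_option autoImplicit false

namespace HexObs

namespace SLW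

namespace TW

open Finset MeasureTheory

/-! ### the cutoff -/

/-- the cutoff: 1 up to c, 0 from 2 * c on -/
noncomputable def gc (c x : ℝ) : ℝ := max 0 (min 1 (2 - x / c))

lemma gc_nonneg (c x : ℝ) : 0 ≤ gc c x := le_max_left _ _

lemma gc_le_one (c x : ℝ) : gc c x ≤ 1 := max_le zero_le_one (min_le_left _ _)

lemma gc_anti {c : ℝ} (hc : 0 < c) : Antitone (gc c) := by
  intro x y h
  unfold gc
  refine max_le_max le_rfl (min_le_min le_rfl ?_)
  have : x / c ≤ y / c := by gcongr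
  linarith

lemma gc_cont (c : ℝ) : Continuous (gc c) := by
  unfold gc
  fun_prop

lemma gc_one {c x : ℝ} (hc : 0 < c) (h : x ≤ c) : gc c x = 1 := by
  unfold gc
  have h1 : x / c ≤ 1 := by rwa [div_le_one hc]
  rw [min_eq_left (by linarith)]
  exact max_eq_right zero_le_one

lemma gc_zero {c x : ℝ} (hc : 0 < c) (h : 2 * c ≤ x) : gc c x = 0 := by
  unfold gc
  have h1 : 2 ≤ x / c := by rwa [le_div_iff₀ hc]
  exact max_eq_left ((min_le_right _ _).trans (by linarith))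

lemma gc_lip {c x y : ℝ} (hc : 0 < c) (h : x ≤ y) : gc c x ≤ gc c y + (y - x) / c := by
  have h0 : 0 ≤ (y - x) / c := div_nonneg (by linarith) hc.le
  have e : 2 - x / c = (2 - y / c) + (y - x) / c := by
    rw [sub_div]
    ring
  unfold gc
  rw [e]
  refine max_le ?_ ?_
  · have := le_max_left (0 : ℝ) (min 1 (2 - y / c))
    linarith
  · have h1 : min 1 ((2 - y / c) + (y - x) / c) ≤ min 1 (2 - y / c) + (y - x) / c := by
      rcases le_total 1 (2 - y / c) with h2 | h2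
      · rw [min_eq_left h2]
        exact (min_le_left _ _).trans (by linarith)
      · rw [min_eq_right h2]
        exact min_le_right _ _
    have h2 := le_max_right (0 : ℝ) (min 1 (2 - y / c))
    linarith

/-- its primitive -/
noncomputable def Gc (c x : ℝ) : ℝ := ∫ u in (0 : ℝ)..x, gc c u

lemma Gc_sub (c x y : ℝ) : Gc c y - Gc c x = ∫ u in x..y, gc c u := by
  unfold Gc
  exact intervalIntegral.integral_interval_sub_left ((gc_cont c).intervalIntegrable _ _) ((gc_cont c).intervalIntegrable _ _)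

lemma Gc_low {c x y : ℝ} (hc : 0 < c) (h : x ≤ y) : (y - x) * gc c y ≤ Gc c y - Gc c x := by
  rw [Gc_sub]
  have h1 : ∫ _u in x..y, gc c y ≤ ∫ u in x..y, gc c u :=
    intervalIntegral.integral_mono_on h (continuous_const.intervalIntegrable _ _) ((gc_cont c).intervalIntegrable _ _)
      fun u hu => gc_anti hc hu.2
  rwa [intervalIntegral.integral_const, smul_eq_mul] at h1

lemma Gc_up {c x y : ℝ} (hc : 0 < c) (h : x ≤ y) : Gc c y - Gc c x ≤ (y - x) * gc c x := by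
  rw [Gc_sub]
  have h1 : ∫ u in x..y, gc c u ≤ ∫ _u in x..y, gc c x :=
    intervalIntegral.integral_mono_on h ((gc_cont c).intervalIntegrable _ _) (continuous_const.intervalIntegrable _ _)
      fun u hu => gc_anti hc hu.1
  rwa [intervalIntegral.integral_const, smul_eq_mul] at h1

lemma Gc_zero (c : ℝ) : Gc c 0 = 0 := by
  unfold Gc
  exact intervalIntegral.integral_same

lemma Gc_mono {c x y : ℝ} (hc : 0 < c) (h : x ≤ y) : Gc c x ≤ Gc c y := by
  have h1 := Gc_low hc h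
  have h2 : 0 ≤ (y - x) * gc c y := mul_nonneg (by linarith) (gc_nonneg _ _)
  linarith

lemma Gc_top {c x : ℝ} (hc : 0 < c) (h : 2 * c ≤ x) : Gc c x = Gc c (2 * c) := by
  have h1 := Gc_low hc h
  have h2 := Gc_up hc h
  rw [gc_zero hc le_rfl] at h2
  rw [gc_zero hc h] at h1
  linarith

lemma Gc_nonneg {c x : ℝ} (hc : 0 < c) (h : 0 ≤ x) : 0 ≤ Gc c x := by
  rw [← Gc_zero c]
  exact Gc_mono hc h

lemma Gc_le {c x : ℝ} (hc : 0 < c) : Gc c x ≤ Gc c (2 * c) := by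
  rcases le_total x (2 * c) with h | h
  · exact Gc_mono hc h
  · exact (Gc_top hc h).le

lemma Gc_I_ge {c : ℝ} (hc : 0 < c) : c ≤ Gc c (2 * c) := by
  have h1 := Gc_low hc hc.le
  rw [Gc_zero, gc_one hc le_rfl] at h1
  have h2 := Gc_mono hc (show c ≤ 2 * c by linarith)
  linarith

lemma Gc_I_le {c : ℝ} (hc : 0 < c) : Gc c (2 * c) ≤ 2 * c := by
  have h1 := Gc_up hc (show (0 : ℝ) ≤ 2 * c by linarith)
  rw [Gc_zero, gc_one hc hc.le] at h1
  linarith

/-! ### the telescoping sum -/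

/-- the sum of the weights of the levels from l on -/
noncomputable def Ta (a : ℕ → ℝ) (M l : ℕ) : ℝ := ∑ j ∈ Ico l M, a j

lemma Ta_top (a : ℕ → ℝ) (M : ℕ) : Ta a M M = 0 := by
  unfold Ta
  rw [Ico_self, sum_empty]

lemma Ta_succ {a : ℕ → ℝ} {M l : ℕ} (h : l < M) : Ta a M l = a l + Ta a M (l + 1) := by
  unfold Ta
  rw [sum_eq_sum_Ico_succ_bot h]

lemma Ta_nonneg {a : ℕ → ℝ} (ha : ∀ l, 0 ≤ a l) (M l : ℕ) : 0 ≤ Ta a M l := sum_nonneg fun j _ => ha j

lemma Ta_le {a : ℕ → ℝ} (ha : ∀ l, 0 ≤ a l) {M l l' : ℕ} (h : l ≤ l') : Ta a M l' ≤ Ta a M l :=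
  sum_le_sum_of_subset_of_nonneg (Ico_subset_Ico_left h) fun j _ _ => ha j

/-- the telescoping sum, not normalised -/
noncomputable def Rs (c : ℝ) (a : ℕ → ℝ) (M : ℕ) : ℝ := ∑ l ∈ range M, a l * gc c (Ta a M (l + 1))

lemma tel_sum (c : ℝ) (a : ℕ → ℝ) (M : ℕ) :
    ∑ l ∈ range M, (Gc c (Ta a M l) - Gc c (Ta a M (l + 1))) = Gc c (Ta a M 0) := by
  rw [sum_range_sub' (fun l => Gc c (Ta a M l)), Ta_top, Gc_zero, sub_zero]

lemma Rs_low {c : ℝ} {a : ℕ → ℝ} (hc : 0 < c) (ha : ∀ l, 0 ≤ a l) (M : ℕ) : Gc c (Ta a M 0) ≤ Rs c a M := by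
  rw [← tel_sum]
  refine sum_le_sum fun l hl => ?_
  have h1 := Ta_succ (a := a) (mem_range.1 hl)
  have h2 := Gc_up hc (show Ta a M (l + 1) ≤ Ta a M l by linarith [ha l])
  have e : Ta a M l - Ta a M (l + 1) = a l := by linarith
  rwa [e] at h2

lemma Rs_up {c : ℝ} {a : ℕ → ℝ} (hc : 0 < c) (ha : ∀ l, 0 ≤ a l) (M : ℕ) :
    Rs c a M ≤ Gc c (Ta a M 0) + (∑ l ∈ range M, a l ^ 2) / c := by
  rw [← tel_sum, sum_div, ← sum_add_distrib]
  refine sum_le_sum fun l hl => ?_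
  have h1 := Ta_succ (a := a) (mem_range.1 hl)
  have h3 : Ta a M (l + 1) ≤ Ta a M l := by linarith [ha l]
  have h2 := Gc_low hc h3
  have h4 := gc_lip hc h3
  have e : Ta a M l - Ta a M (l + 1) = a l := by linarith
  rw [e] at h2 h4
  calc a l * gc c (Ta a M (l + 1)) ≤ a l * (gc c (Ta a M l) + a l / c) := mul_le_mul_of_nonneg_left h4 (ha l)
    _ = a l * gc c (Ta a M l) + a l ^ 2 / c := by ring
    _ ≤ _ := by linarith

/-- the normalised sum -/
noncomputable def Rn (c : ℝ) (a : ℕ → ℝ) (M : ℕ) : ℝ := Rs c a M / Gc c (2 * c)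

open Classical in
/-- **(T1)** the normalised sum is close to 1 -/
theorem Rn_one {c : ℝ} {a : ℕ → ℝ} (hc : 0 < c) (ha : ∀ l, 0 ≤ a l) (M : ℕ) :
    |1 - Rn c a M| ≤ (if Ta a M 0 < 2 * c then 1 else 0) + (∑ l ∈ range M, a l ^ 2) / c ^ 2 := by
  obtain ⟨I, hI⟩ : ∃ I, I = Gc c (2 * c) := ⟨_, rfl⟩
  have hIc : c ≤ I := by rw [hI]; exact Gc_I_ge hc
  have hI0 : 0 < I := by linarith
  obtain ⟨q, hq⟩ : ∃ q, q = ∑ l ∈ range M, a l ^ 2 := ⟨_, rfl⟩
  have hq0 : 0 ≤ q := by rw [hq]; exact sum_nonneg fun l _ => sq_nonneg _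
  have h1 := Rs_low hc ha M
  have h2 := Rs_up hc ha M
  have h3 : Gc c (Ta a M 0) ≤ I := by rw [hI]; exact Gc_le hc
  have h4 : 0 ≤ Gc c (Ta a M 0) := Gc_nonneg hc (Ta_nonneg ha M 0)
  unfold Rn
  rw [← hI]
  rw [← hq] at h2 ⊢
  have h5 : q / c / I ≤ q / c ^ 2 := by
    rw [div_div, sq]
    exact div_le_div_of_nonneg_left hq0 (by positivity) (by nlinarith)
  have h6 : Rs c a M / I ≤ Gc c (Ta a M 0) / I + q / c / I := by
    rw [← add_div]
    gcongr
  have h7 : Gc c (Ta a M 0) / I ≤ Rs c a M / I := by gcongr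
  have h8 : 0 ≤ q / c ^ 2 := by positivity
  by_cases h : Ta a M 0 < 2 * c
  · rw [if_pos h, abs_le]
    have h9 : Gc c (Ta a M 0) / I ≤ 1 := by rwa [div_le_one hI0]
    have h10 : 0 ≤ Gc c (Ta a M 0) / I := by positivity
    constructor <;> linarith
  · rw [if_neg h, abs_le]
    have h9 : Gc c (Ta a M 0) / I = 1 := by
      rw [Gc_top hc (not_lt.1 h), ← hI, div_self hI0.ne']
    constructor <;> linarith

/-! ### finite measures -/

variable {Ω : Type*}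

/-- the mean of f -/
noncomputable def Ex (S : Finset Ω) (p f : Ω → ℝ) : ℝ := ∑ t ∈ S, p t * f t

lemma Ex_mono {S : Finset Ω} {p f g : Ω → ℝ} (hp : ∀ t, 0 ≤ p t) (h : ∀ t ∈ S, f t ≤ g t) : Ex S p f ≤ Ex S p g :=
  sum_le_sum fun t ht => mul_le_mul_of_nonneg_left (h t ht) (hp t)

lemma Ex_add (S : Finset Ω) (p f g : Ω → ℝ) : Ex S p (fun t => f t + g t) = Ex S p f + Ex S p g := by
  unfold Ex
  rw [← sum_add_distrib]
  exact sum_congr rfl fun t _ => by ring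

lemma Ex_sub (S : Finset Ω) (p f g : Ω → ℝ) : Ex S p (fun t => f t - g t) = Ex S p f - Ex S p g := by
  unfold Ex
  rw [← sum_sub_distrib]
  exact sum_congr rfl fun t _ => by ring

lemma Ex_smul (S : Finset Ω) (p f : Ω → ℝ) (c : ℝ) : Ex S p (fun t => c * f t) = c * Ex S p f := by
  unfold Ex
  rw [mul_sum]
  exact sum_congr rfl fun t _ => by ring

lemma Ex_sum (S : Finset Ω) (p : Ω → ℝ) (f : ℕ → Ω → ℝ) (M : ℕ) :
    Ex S p (fun t => ∑ l ∈ range M, f l t) = ∑ l ∈ range M, Ex S p (f l) := by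
  unfold Ex
  rw [sum_comm]
  exact sum_congr rfl fun t _ => by rw [mul_sum]

lemma Ex_abs {S : Finset Ω} {p f : Ω → ℝ} (hp : ∀ t, 0 ≤ p t) : |Ex S p f| ≤ Ex S p fun t => |f t| := by
  refine (abs_sum_le_sum_abs _ _).trans (le_of_eq (sum_congr rfl fun t _ => ?_))
  rw [abs_mul, abs_of_nonneg (hp t)]

/-- the weight of the level l with the cutoff of the levels above -/
noncomputable def al (c : ℝ) (a : ℕ → Ω → ℝ) (M l : ℕ) (t : Ω) : ℝ := a l t * gc c (Ta (fun j => a j t) M (l + 1))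

lemma al_nonneg {c : ℝ} {a : ℕ → Ω → ℝ} (ha : ∀ l t, 0 ≤ a l t) (M l : ℕ) (t : Ω) : 0 ≤ al c a M l t :=
  mul_nonneg (ha l t) (gc_nonneg _ _)

lemma Rs_al (c : ℝ) (a : ℕ → Ω → ℝ) (M : ℕ) (t : Ω) : Rs c (fun j => a j t) M = ∑ l ∈ range M, al c a M l t := rfl

/-- the sum of the weights with the cutoff -/
lemma Ex_Rs {S : Finset Ω} {p : Ω → ℝ} {a : ℕ → Ω → ℝ} {c B m0 : ℝ} {M : ℕ} (hp : ∀ t, 0 ≤ p t)
    (ha : ∀ l t, 0 ≤ a l t) (hc : 0 < c) (hM : 1 ≤ M) (h2 : ∀ l, l < M → Ex S p (fun t => a l t ^ 2) ≤ B / M ^ 2)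
    (hm : ∑ t ∈ S, p t ≤ m0) : ∑ l ∈ range M, Ex S p (al c a M l) ≤ 2 * c * m0 + B / (c * M) := by
  have hM0 : (0 : ℝ) < M := by exact_mod_cast (by omega : 0 < M)
  rw [← Ex_sum]
  have h1 : Ex S p (fun t => ∑ l ∈ range M, al c a M l t) ≤
      Ex S p (fun t => 2 * c + c⁻¹ * ∑ l ∈ range M, a l t ^ 2) := by
    refine Ex_mono hp fun t _ => ?_
    rw [← Rs_al]
    refine (Rs_up hc (fun l => ha l t) M).trans ?_
    have h3 : Gc c (Ta (fun j => a j t) M 0) ≤ 2 * c := (Gc_le hc).trans (Gc_I_le hc)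
    rw [div_eq_inv_mul]
    linarith
  refine h1.trans ?_
  rw [Ex_add, Ex_smul S p _ c⁻¹, Ex_sum]
  have h3 : Ex S p (fun _ => 2 * c) ≤ 2 * c * m0 := by
    unfold Ex
    rw [← sum_mul]
    nlinarith
  have h4 : ∑ l ∈ range M, Ex S p (fun t => a l t ^ 2) ≤ B / M := by
    refine (sum_le_sum fun l hl => h2 l (mem_range.1 hl)).trans (le_of_eq ?_)
    rw [sum_const, card_range, nsmul_eq_mul]
    field_simp
  have h5 : c⁻¹ * ∑ l ∈ range M, Ex S p (fun t => a l t ^ 2) ≤ B / (c * M) := by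
    refine (mul_le_mul_of_nonneg_left h4 (by positivity)).trans (le_of_eq ?_)
    field_simp
  linarith

open Classical in
/-- **(T2)** the sum of all weights is rarely small -/
theorem small_S {S : Finset Ω} {p : Ω → ℝ} {a : ℕ → Ω → ℝ} {nice : ℕ → Ω → Prop} {c B m0 ε Cd τ : ℝ} {M : ℕ}
    (hp : ∀ t, 0 ≤ p t) (ha : ∀ l t, 0 ≤ a l t) (hc : 0 < c) (hM : 1 ≤ M) (hCd : 0 ≤ Cd)
    (h2 : ∀ l, l < M → Ex S p (fun t => a l t ^ 2) ≤ B / M ^ 2) (hm : ∑ t ∈ S, p t ≤ m0)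
    (hn : ∀ l, l < M → Ex S p (fun t => if nice l t then 0 else 1) ≤ ε)
    (hd : ∀ l, l < M → Ex S p (fun t => (if nice l t then 1 else 0) * gc (2 * c) (Ta (fun j => a j t) M (l + 1))) ≤
      Cd * M * Ex S p (al (2 * c) a M l) + τ) :
    Ex S p (fun t => if Ta (fun j => a j t) M 0 < 2 * c then 1 else 0) ≤
      ε + τ + Cd * (4 * c * m0 + B / (2 * c * M)) := by
  have hM0 : (0 : ℝ) < M := by exact_mod_cast (by omega : 0 < M)
  obtain ⟨x, hx⟩ : ∃ x, x = Ex S p (fun t => if Ta (fun j => a j t) M 0 < 2 * c then 1 else 0) := ⟨_, rfl⟩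
  rw [← hx]
  have h1 : ∀ l, l < M → x ≤ ε + (Cd * M * Ex S p (al (2 * c) a M l) + τ) := by
    intro l hl
    refine le_trans ?_ (add_le_add (hn l hl) (hd l hl))
    rw [hx, ← Ex_add]
    refine Ex_mono hp fun t _ => ?_
    by_cases h : Ta (fun j => a j t) M 0 < 2 * c
    · have h3 : Ta (fun j => a j t) M (l + 1) ≤ 2 * c := (Ta_le (fun l => ha l t) (Nat.zero_le _)).trans h.le
      rw [if_pos h, gc_one (by linarith) h3]
      by_cases h4 : nice l t
      · rw [if_pos h4, if_pos h4]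
        norm_num
      · rw [if_neg h4, if_neg h4]
        norm_num
    · rw [if_neg h]
      by_cases h4 : nice l t
      · rw [if_pos h4, if_pos h4, zero_add, one_mul]
        exact gc_nonneg _ _
      · rw [if_neg h4, if_neg h4]
        norm_num
  have h3 := sum_le_sum fun l (hl : l ∈ range M) => h1 l (mem_range.1 hl)
  rw [sum_const, card_range, nsmul_eq_mul, sum_add_distrib, sum_const, card_range, nsmul_eq_mul, sum_add_distrib, sum_const,
    card_range, nsmul_eq_mul, ← mul_sum] at h3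
  have h4 := Ex_Rs (c := 2 * c) hp ha (by linarith) hM h2 hm
  have h5 : Cd * M * ∑ l ∈ range M, Ex S p (al (2 * c) a M l) ≤ Cd * M * (2 * (2 * c) * m0 + B / (2 * c * M)) :=
    mul_le_mul_of_nonneg_left h4 (by positivity)
  have h6 : (M : ℝ) * x ≤ M * (ε + τ + Cd * (4 * c * m0 + B / (2 * c * M))) := by
    calc (M : ℝ) * x ≤ M * ε + (Cd * M * (2 * (2 * c) * m0 + B / (2 * c * M)) + M * τ) := by linarith
      _ = _ := by ring
  exact le_of_mul_le_mul_left h6 hM0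

/-- the distance of F and F * Rn -/
theorem Ex_Rn {S : Finset Ω} {p F : Ω → ℝ} {a : ℕ → Ω → ℝ} {c B x : ℝ} {M : ℕ}
    (hp : ∀ t, 0 ≤ p t) (ha : ∀ l t, 0 ≤ a l t) (hc : 0 < c) (hM : 1 ≤ M) (hF : ∀ t, |F t| ≤ 1)
    (h2 : ∀ l, l < M → Ex S p (fun t => a l t ^ 2) ≤ B / M ^ 2)
    (hS : Ex S p (fun t => by classical exact if Ta (fun j => a j t) M 0 < 2 * c then 1 else 0) ≤ x) :
    |Ex S p F - ∑ l ∈ range M, (Gc c (2 * c))⁻¹ * Ex S p (fun t => F t * al c a M l t)| ≤ x + B / (c ^ 2 * M) := by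
  classical
  have hM0 : (0 : ℝ) < M := by exact_mod_cast (by omega : 0 < M)
  have e1 : Ex S p F - ∑ l ∈ range M, (Gc c (2 * c))⁻¹ * Ex S p (fun t => F t * al c a M l t) =
      Ex S p (fun t => F t * (1 - Rn c (fun j => a j t) M)) := by
    rw [← mul_sum, ← Ex_sum, ← Ex_smul, ← Ex_sub]
    refine sum_congr rfl fun t _ => ?_
    have e2 : ∑ l ∈ range M, F t * al c a M l t = F t * Rs c (fun j => a j t) M := by rw [Rs_al, mul_sum]
    show p t * (F t - (Gc c (2 * c))⁻¹ * ∑ l ∈ range M, F t * al c a M l t) =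
      p t * (F t * (1 - Rs c (fun j => a j t) M / Gc c (2 * c)))
    rw [e2]
    ring
  rw [e1]
  refine (Ex_abs hp).trans ?_
  have h3 : Ex S p (fun t => |F t * (1 - Rn c (fun j => a j t) M)|) ≤
      Ex S p (fun t => (if Ta (fun j => a j t) M 0 < 2 * c then 1 else 0) + (c ^ 2)⁻¹ * ∑ l ∈ range M, a l t ^ 2) := by
    refine Ex_mono hp fun t _ => ?_
    rw [abs_mul]
    have h4 := Rn_one hc (fun l => ha l t) M
    calc |F t| * |1 - Rn c (fun j => a j t) M| ≤ 1 * |1 - Rn c (fun j => a j t) M| :=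
          mul_le_mul_of_nonneg_right (hF t) (abs_nonneg _)
      _ = |1 - Rn c (fun j => a j t) M| := one_mul _
      _ ≤ _ := by
          refine h4.trans (le_of_eq ?_)
          rw [div_eq_inv_mul]
  refine h3.trans ?_
  rw [Ex_add, Ex_smul S p _ (c ^ 2)⁻¹, Ex_sum]
  have h4 : ∑ l ∈ range M, Ex S p (fun t => a l t ^ 2) ≤ B / M := by
    refine (sum_le_sum fun l hl => h2 l (mem_range.1 hl)).trans (le_of_eq ?_)
    rw [sum_const, card_range, nsmul_eq_mul]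
    field_simp
  have h5 : (c ^ 2)⁻¹ * ∑ l ∈ range M, Ex S p (fun t => a l t ^ 2) ≤ B / (c ^ 2 * M) := by
    refine (mul_le_mul_of_nonneg_left h4 (by positivity)).trans (le_of_eq ?_)
    field_simp
  linarith

open Classical in
/-- **(T3')** the form with a bound x for the mass of the set where the total weight is small -/
theorem tele_x {S S' : Finset Ω} {p p' F : Ω → ℝ} {a : ℕ → Ω → ℝ} {c B x : ℝ} {κ : ℕ → ℝ} {M : ℕ}
    (hp : ∀ t, 0 ≤ p t) (hp' : ∀ t, 0 ≤ p' t) (ha : ∀ l t, 0 ≤ a l t) (hc : 0 < c) (hM : 1 ≤ M) (hF : ∀ t, |F t| ≤ 1)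
    (h2 : ∀ l, l < M → Ex S p (fun t => a l t ^ 2) ≤ B / M ^ 2)
    (h2' : ∀ l, l < M → Ex S' p' (fun t => a l t ^ 2) ≤ B / M ^ 2)
    (hS : Ex S p (fun t => if Ta (fun j => a j t) M 0 < 2 * c then 1 else 0) ≤ x)
    (hS' : Ex S' p' (fun t => if Ta (fun j => a j t) M 0 < 2 * c then 1 else 0) ≤ x)
    (hD : ∀ l, l < M → |Ex S p (fun t => F t * al c a M l t) - Ex S' p' (fun t => F t * al c a M l t)| ≤ κ l) :
    |Ex S p F - Ex S' p' F| ≤ 2 * (x + B / (c ^ 2 * M)) + (∑ l ∈ range M, κ l) / c := by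
  have hM0 : (0 : ℝ) < M := by exact_mod_cast (by omega : 0 < M)
  have k1 := Ex_Rn hp ha hc hM hF h2 hS
  have k2 := Ex_Rn hp' ha hc hM hF h2' hS'
  obtain ⟨I, hI⟩ : ∃ I, I = Gc c (2 * c) := ⟨_, rfl⟩
  have hIc : c ≤ I := by rw [hI]; exact Gc_I_ge hc
  have hI0 : 0 < I := by linarith
  rw [← hI] at k1 k2
  have k3 : |∑ l ∈ range M, I⁻¹ * Ex S p (fun t => F t * al c a M l t) -
      ∑ l ∈ range M, I⁻¹ * Ex S' p' (fun t => F t * al c a M l t)| ≤ (∑ l ∈ range M, κ l) / c := by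
    rw [← sum_sub_distrib, sum_div]
    refine (abs_sum_le_sum_abs _ _).trans ?_
    have h3 : ∀ l ∈ range M, |I⁻¹ * Ex S p (fun t => F t * al c a M l t) - I⁻¹ * Ex S' p' (fun t => F t * al c a M l t)| ≤
        κ l / c := by
      intro l hl
      rw [← mul_sub, abs_mul, abs_of_pos (inv_pos.2 hI0), div_eq_inv_mul]
      exact mul_le_mul (inv_anti₀ hc hIc) (hD l (mem_range.1 hl)) (abs_nonneg _) (by positivity)
    exact sum_le_sum h3
  rw [abs_le] at k1 k2 k3 ⊢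
  constructor <;> linarith [k1.1, k1.2, k2.1, k2.2, k3.1, k3.2]

open Classical in
/-- **(T3)** two finite measures that nearly agree on F * (weight of the level l) * (cutoff of the levels above), for every
level, nearly agree on F -/
theorem tele {S S' : Finset Ω} {p p' F : Ω → ℝ} {a : ℕ → Ω → ℝ} {nice : ℕ → Ω → Prop} {c B m0 ε Cd τ : ℝ} {κ : ℕ → ℝ}
    {M : ℕ}
    (hp : ∀ t, 0 ≤ p t) (hp' : ∀ t, 0 ≤ p' t) (ha : ∀ l t, 0 ≤ a l t) (hc : 0 < c) (hM : 1 ≤ M) (hCd : 0 ≤ Cd)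
    (hF : ∀ t, |F t| ≤ 1) (hm : ∑ t ∈ S, p t ≤ m0) (hm' : ∑ t ∈ S', p' t ≤ m0)
    (h2 : ∀ l, l < M → Ex S p (fun t => a l t ^ 2) ≤ B / M ^ 2)
    (h2' : ∀ l, l < M → Ex S' p' (fun t => a l t ^ 2) ≤ B / M ^ 2)
    (hn : ∀ l, l < M → Ex S p (fun t => if nice l t then 0 else 1) ≤ ε)
    (hn' : ∀ l, l < M → Ex S' p' (fun t => if nice l t then 0 else 1) ≤ ε)
    (hd : ∀ l, l < M → Ex S p (fun t => (if nice l t then 1 else 0) * gc (2 * c) (Ta (fun j => a j t) M (l + 1))) ≤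
      Cd * M * Ex S p (al (2 * c) a M l) + τ)
    (hd' : ∀ l, l < M → Ex S' p' (fun t => (if nice l t then 1 else 0) * gc (2 * c) (Ta (fun j => a j t) M (l + 1))) ≤
      Cd * M * Ex S' p' (al (2 * c) a M l) + τ)
    (hD : ∀ l, l < M → |Ex S p (fun t => F t * al c a M l t) - Ex S' p' (fun t => F t * al c a M l t)| ≤ κ l) :
    |Ex S p F - Ex S' p' F| ≤ 2 * (ε + τ + Cd * (4 * c * m0 + B / (2 * c * M)) + B / (c ^ 2 * M)) +
      (∑ l ∈ range M, κ l) / c := by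
  have h := tele_x hp hp' ha hc hM hF h2 h2' (small_S hp ha hc hM hCd h2 hm hn hd) (small_S hp' ha hc hM hCd h2' hm' hn' hd') hD
  linarith

open Classical in
/-- **(T4)** the form with an error that is relative to the same weights under the measures of a window W (weights wt of total
mass at most θ) and an absolute error e -/
theorem tele_win {S S' : Finset Ω} {p p' F : Ω → ℝ} {a : ℕ → Ω → ℝ} {nice : ℕ → Ω → Prop} {c B m0 ε Cd τ θ e : ℝ} {M : ℕ}
    {W : Finset ℕ} {Sw : ℕ → Finset Ω} {pw : ℕ → Ω → ℝ} {wt : ℕ → ℝ}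
    (hp : ∀ t, 0 ≤ p t) (hp' : ∀ t, 0 ≤ p' t) (hpw : ∀ i ∈ W, ∀ t, 0 ≤ pw i t) (hwt : ∀ i ∈ W, 0 ≤ wt i)
    (hθ : ∑ i ∈ W, wt i ≤ θ) (ha : ∀ l t, 0 ≤ a l t) (hc : 0 < c) (hM : 1 ≤ M) (hCd : 0 ≤ Cd) (hB : 0 ≤ B) (hm0 : 0 ≤ m0)
    (hF : ∀ t, |F t| ≤ 1) (hm : ∑ t ∈ S, p t ≤ m0) (hm' : ∑ t ∈ S', p' t ≤ m0) (hmw : ∀ i ∈ W, ∑ t ∈ Sw i, pw i t ≤ m0)
    (h2 : ∀ l, l < M → Ex S p (fun t => a l t ^ 2) ≤ B / M ^ 2)
    (h2' : ∀ l, l < M → Ex S' p' (fun t => a l t ^ 2) ≤ B / M ^ 2)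
    (h2w : ∀ i ∈ W, ∀ l, l < M → Ex (Sw i) (pw i) (fun t => a l t ^ 2) ≤ B / M ^ 2)
    (hn : ∀ l, l < M → Ex S p (fun t => if nice l t then 0 else 1) ≤ ε)
    (hn' : ∀ l, l < M → Ex S' p' (fun t => if nice l t then 0 else 1) ≤ ε)
    (hd : ∀ l, l < M → Ex S p (fun t => (if nice l t then 1 else 0) * gc (2 * c) (Ta (fun j => a j t) M (l + 1))) ≤
      Cd * M * Ex S p (al (2 * c) a M l) + τ)
    (hd' : ∀ l, l < M → Ex S' p' (fun t => (if nice l t then 1 else 0) * gc (2 * c) (Ta (fun j => a j t) M (l + 1))) ≤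
      Cd * M * Ex S' p' (al (2 * c) a M l) + τ)
    (hD : ∀ l, l < M → |Ex S p (fun t => F t * al c a M l t) - Ex S' p' (fun t => F t * al c a M l t)| ≤
      ∑ i ∈ W, wt i * Ex (Sw i) (pw i) (al c a M l) + e) :
    |Ex S p F - Ex S' p' F| ≤ 2 * (ε + τ + Cd * (4 * c * m0 + B / (2 * c * M)) + B / (c ^ 2 * M)) +
      (θ * (2 * m0 + B / (c ^ 2 * M)) + M * e / c) := by
  have hM0 : (0 : ℝ) < M := by exact_mod_cast (by omega : 0 < M)
  refine (tele (κ := fun l => ∑ i ∈ W, wt i * Ex (Sw i) (pw i) (al c a M l) + e) hp hp' ha hc hM hCd hF hm hm' h2 h2' hn hn'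
    hd hd' hD).trans (add_le_add le_rfl ?_)
  have h1 : ∑ l ∈ range M, (∑ i ∈ W, wt i * Ex (Sw i) (pw i) (al c a M l) + e) ≤ θ * (2 * c * m0 + B / (c * M)) + M * e := by
    rw [sum_add_distrib, sum_const, card_range, nsmul_eq_mul, sum_comm]
    have h3 : ∑ i ∈ W, ∑ l ∈ range M, wt i * Ex (Sw i) (pw i) (al c a M l) ≤
        ∑ i ∈ W, wt i * (2 * c * m0 + B / (c * M)) := by
      refine sum_le_sum fun i hi => ?_
      rw [← mul_sum]
      exact mul_le_mul_of_nonneg_left (Ex_Rs (hpw i hi) ha hc hM (h2w i hi) (hmw i hi)) (hwt i hi)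
    rw [← sum_mul] at h3
    have h4 : 0 ≤ 2 * c * m0 + B / (c * M) := by positivity
    have h5 := mul_le_mul_of_nonneg_right hθ h4
    linarith
  rw [div_le_iff₀ hc]
  refine h1.trans (le_of_eq ?_)
  field_simp

end TW

end SLW

end HexObs
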