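import Pool.Agent.TIW.Nice
import Pool.Agent.SLW.ConvId
import Pool.Agent.SLW.OscS
import Pool.Agent.SLW.DefsB
import Pool.Agent.SLW.SmallS
import Pool.Agent.SLW.LevelD
import Pool.Agent.SLW.TeleW

/-!
# SLOW: the weights of the levels on words (helper62)

* `N1_le_NQ`, `NQ_le_NP`: the weight of a level is at most the number of the cuts of the scale `2 ^ (l + 1)`;
* `N1_far`: the weight of a level does not decrease when a far piece is put in front;
* `NT_le`: the weight with a factor of the far part.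
-/

set_option autoImplicit false

namespace HexObs

namespace SLW

namespace Sm

open Finset TS SDN TIW

lemma N1_nonneg (l : ℕ) (Ch : Set (List Bool)) (t : List Bool) : 0 ≤ N1 l Ch t := NT_nonneg l Ch (fun _ => zero_le_one) t

lemma NQ_nonneg (l : ℕ) (Ch : Set (List Bool)) (t : List Bool) : 0 ≤ NQ l Ch t := Nat.cast_nonneg _

lemma NI_nonneg (l : ℕ) (Ch : Set (List Bool)) (t : List Bool) : 0 ≤ NI l Ch t := Nat.cast_nonneg _

open Classical in
lemma N1_le_NQ (l : ℕ) (Ch : Set (List Bool)) (t : List Bool) : N1 l Ch t ≤ NQ l Ch t := by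
  unfold N1 NT NQ
  rw [card_eq_sum_ones]
  push_cast
  refine sum_le_sum fun p _ => ?_
  rw [mul_one]
  exact chi_le _ _

open Classical in
/-- the decompositions of a level are cuts of the scale `2 ^ (l + 1)` -/
lemma NQ_le_NP {l : ℕ} {Ch : Set (List Bool)} (hC : Chn l Ch) (t : List Bool) : NQ l Ch t ≤ NP (2 ^ (l + 1)) t := by
  unfold NQ NP
  rw [Nat.cast_le]
  refine card_le_card_of_injOn (fun p => p.1) ?_ ?_
  · rintro ⟨i, j⟩ hp
    rw [mem_coe, mem_filter, mem_product, mem_range, mem_range] at hp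
    obtain ⟨⟨h1, h2⟩, h3, h4, h5, h6⟩ := hp
    simp only at h1 h2 h3 h4 h5 h6
    show i ∈ (cu (2 ^ (l + 1)) t : Set ℕ)
    rw [mem_coe]
    unfold cu
    rw [mem_filter, mem_range]
    have e1 : 2 * 2 ^ (l + 1) = 4 * 2 ^ l := by ring
    have e2 : t.drop i = (t.take j).drop i ++ t.drop j := by
      rw [← List.drop_append_of_le_length (by rw [List.length_take]; omega), List.take_append_drop]
    refine ⟨h1, by rwa [e1], ?_⟩
    rw [e2, show 2 ^ (l + 1) = 2 * 2 ^ l by ring]
    exact bu_hp (hC.bu h5) (fun i hi => by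
      have := hC.size _ h5 i hi
      push_cast
      exact this) h6
  · rintro ⟨i, j⟩ hp ⟨i', j'⟩ hp' he
    rw [mem_coe, mem_filter, mem_product, mem_range, mem_range] at hp hp'
    obtain ⟨⟨h1, h2⟩, h3, h4, h5, h6⟩ := hp
    obtain ⟨⟨h1', h2'⟩, h3', h4', h5', h6'⟩ := hp'
    simp only at h1 h2 h3 h4 h5 h6 h1' h2' h3' h4' h5' h6' he
    subst he
    have e2 : t.drop i = (t.take j).drop i ++ t.drop j := by
      rw [← List.drop_append_of_le_length (by rw [List.length_take]; omega), List.take_append_drop]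
    have e2' : t.drop i = (t.take j').drop i ++ t.drop j' := by
      rw [← List.drop_append_of_le_length (by rw [List.length_take]; omega), List.take_append_drop]
    have e3 := hC.uniq _ h5 _ h5' _ _ h6.1 h6'.1 (e2.symm.trans e2')
    have e4 := congrArg List.length e3
    rw [List.length_drop, List.length_drop, List.length_take, List.length_take] at e4
    have : j = j' := by omega
    rw [this]

/-- a free half ball does not see a far piece in front -/
lemma Fe_far {s : ℕ} {L A : List Bool} (hA : A ∈ Fe s)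
    (hL : ∀ i, i ≤ L.length → (s : ℤ) ≤ hn (vx oo up (L ++ A) i - en (L ++ A))) : L ++ A ∈ Fe s := by
  intro i hi h0
  rcases Nat.lt_or_ge i L.length with h1 | h1
  · exact hL i h1.le
  · obtain ⟨i', rfl⟩ : ∃ i', i = L.length + i' := ⟨i - L.length, by omega⟩
    rw [List.length_append] at hi
    have e1 : vx oo up (L ++ A) (L.length + i') - en (L ++ A) = mulE (rt L) (vx oo up A i' - en A) := by
      rw [vx_app, OscA.en_app, mulE_sub]
      abel
    have e2 : de (L ++ A) = mulE (rt L) (de A) := by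
      unfold de
      rw [List.length_append, dx_app]
    rw [e1, e2, ip_mulE, nrm_rt, one_mul] at h0
    have h2 := hA i' (by omega) h0
    rw [e1, hn_mulE (nrm_rt L)]
    exact h2

/-- the distance of the tips -/
lemma hn_tip {r : ℕ} {A E : List Bool} (hE : hn (en E) < r) : hn (en (A ++ E) - en A) < r := by
  rw [OscA.en_app, add_sub_cancel_left, hn_mulE (nrm_rt A)]
  exact hE

open Classical in
/-- **a far piece in front does not lower the weight** -/
lemma N1_far {l : ℕ} {Ch : Set (List Bool)} (hC : Chn l Ch) {L R : List Bool}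
    (hL : ∀ i, i ≤ L.length → (8 * 2 ^ l : ℤ) ≤ hn (vx oo up (L ++ R) i - en (L ++ R))) :
    N1 l Ch R ≤ N1 l Ch (L ++ R) := by
  unfold N1 NT
  have hinj : ∀ p ∈ ((range (R.length + 1)) ×ˢ (range (R.length + 1))).filter (fun p => Dc l Ch R p.1 p.2),
      ∀ p' ∈ ((range (R.length + 1)) ×ˢ (range (R.length + 1))).filter (fun p => Dc l Ch R p.1 p.2),
      (L.length + p.1, L.length + p.2) = (L.length + p'.1, L.length + p'.2) → p = p' := by
    rintro ⟨i, j⟩ _ ⟨i', j'⟩ _ he
    simp only [Prod.mk.injEq] at he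
    rw [Prod.mk.injEq]
    omega
  have hdrop : ∀ j, (L ++ R).drop (L.length + j) = R.drop j := fun j => by
    rw [List.drop_append]
    simp
  have htake : ∀ j, (L ++ R).take (L.length + j) = L ++ R.take j := fun j => by
    rw [List.take_append]
    simp
  have hsub : (((range (R.length + 1)) ×ˢ (range (R.length + 1))).filter (fun p => Dc l Ch R p.1 p.2)).image
      (fun p => (L.length + p.1, L.length + p.2)) ⊆
      ((range ((L ++ R).length + 1)) ×ˢ (range ((L ++ R).length + 1))).filter (fun p => Dc l Ch (L ++ R) p.1 p.2) := by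
    intro q hq
    rw [mem_image] at hq
    obtain ⟨⟨i, j⟩, hp, rfl⟩ := hq
    rw [mem_filter, mem_product, mem_range, mem_range] at hp
    obtain ⟨⟨h1, h2⟩, h3, h4, h5, h6⟩ := hp
    simp only at h1 h2 h3 h4 h5 h6
    rw [mem_filter, mem_product, mem_range, mem_range]
    refine ⟨⟨?_, ?_⟩, ?_, ?_, ?_, ?_⟩
    · show L.length + i < _
      rw [List.length_append]; omega
    · show L.length + j < _
      rw [List.length_append]; omega
    · show L.length + i ≤ L.length + j
      omega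
    · show (L ++ R).take (L.length + i) ∈ _
      rw [htake]
      refine Fe_far h4 fun m hm => ?_
      have e2 : R.drop i = (R.take j).drop i ++ R.drop j := by
        rw [← List.drop_append_of_le_length (by rw [List.length_take]; omega), List.take_append_drop]
      have h7 : R.drop i ∈ Hp (2 * 2 ^ l) := by
        rw [e2]
        exact bu_hp (hC.bu h5) (fun i hi => by
          have := hC.size _ h5 i hi
          push_cast
          exact this) h6
      have h8 : hn (en (R.drop i)) < ((2 * 2 ^ l : ℕ) : ℤ) := h7.2 _ le_rfl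
      have h9 := hn_tip (A := L ++ R.take i) h8
      rw [List.append_assoc, List.take_append_drop] at h9
      have h10 := hL m hm
      have e3 : vx oo up (L ++ R) m = vx oo up (L ++ R.take i) m := by
        rw [vx_append (by omega), vx_append (by omega)]
      rw [e3] at h10
      have h11 := hn_tri (vx oo up (L ++ R.take i) m) (en (L ++ R.take i)) (en (L ++ R))
      rw [hn_sub_comm (en (L ++ R.take i)) (en (L ++ R))] at h11
      push_cast at h9 ⊢
      have : (0 : ℤ) < 2 ^ l := by positivity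
      linarith
    · show ((L ++ R).take (L.length + j)).drop (L.length + i) ∈ Ch
      rw [htake, List.drop_append, List.drop_eq_nil_of_le (by omega), List.nil_append, Nat.add_sub_cancel_left]
      exact h5
    · show (L ++ R).drop (L.length + j) ∈ _
      rw [hdrop]
      exact h6
  refine le_trans (le_of_eq ?_) (sum_le_sum_of_subset_of_nonneg hsub fun p _ _ => ?_)
  · rw [sum_image hinj]
    refine sum_congr rfl fun p _ => ?_
    rw [hdrop]
  · exact mul_nonneg (chi_nonneg _ _) zero_le_one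

/-! ### the levels of a family of chains -/

section Fam

variable {lb s M : ℕ} {a w : ℝ} {Ch : ℕ → Set (List Bool)} {B : ℕ → ℕ}

/-- the normalisation of a level -/
noncomputable def gL (lb s : ℕ) (Ch : ℕ → Set (List Bool)) (B : ℕ → ℕ) (i : ℕ) : ℝ := WL' (Ch i) (B i) * Ub (lb + i * s)

lemma gL_pos (hF : ChF lb s M a w Ch B) (hw : 0 < w) {i : ℕ} (hi : i < M) : 0 < gL lb s Ch B i :=
  mul_pos (lt_of_lt_of_le hw (hF.mass i hi)) (TS.Ub_pos _)

lemma WL_nonneg (C : Set (List Bool)) (b : ℕ) : 0 ≤ WL' C b := sum_nonneg fun _ _ => vL_nonneg _ _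

lemma gL_nonneg (lb s : ℕ) (Ch : ℕ → Set (List Bool)) (B : ℕ → ℕ) (i : ℕ) : 0 ≤ gL lb s Ch B i :=
  mul_nonneg (WL_nonneg _ _) (TS.Ub_pos _).le

lemma aL_eq (M i : ℕ) (t : List Bool) : aL lb s M Ch B i t = N1 (lb + i * s) (Ch i) t / (M * gL lb s Ch B i) := rfl

lemma aL_nonneg (lb s M : ℕ) (Ch : ℕ → Set (List Bool)) (B : ℕ → ℕ) (i : ℕ) (t : List Bool) : 0 ≤ aL lb s M Ch B i t :=
  div_nonneg (N1_nonneg _ _ _) (mul_nonneg (Nat.cast_nonneg _) (gL_nonneg _ _ _ _ _))

lemma qL_nonneg (lb s M : ℕ) (Ch : ℕ → Set (List Bool)) (B : ℕ → ℕ) (i : ℕ) (t : List Bool) : 0 ≤ qL lb s M Ch B i t :=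
  div_nonneg (NQ_nonneg _ _ _) (mul_nonneg (Nat.cast_nonneg _) (gL_nonneg _ _ _ _ _))

lemma thG_nonneg {c : ℝ} (hc : 0 ≤ c) (i : ℕ) (A : List Bool) : 0 ≤ thG lb s M c Ch B i A :=
  mul_nonneg (by positivity) (sum_nonneg fun j _ =>
    div_nonneg (NI_nonneg _ _ _) (mul_nonneg (Nat.cast_nonneg _) (gL_nonneg lb s Ch B j)))

lemma gc_abs {c x y : ℝ} (hc : 0 < c) : |TW.gc c x - TW.gc c y| ≤ |x - y| / c := by
  rcases le_total x y with h | h
  · have h1 := TW.gc_lip hc h
    have h2 := TW.gc_anti hc h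
    rw [abs_of_nonneg (by linarith), abs_of_nonpos (by linarith)]
    have : -(x - y) / c = (y - x) / c := by ring
    rw [this]
    linarith
  · have h1 := TW.gc_lip hc h
    have h2 := TW.gc_anti hc h
    rw [abs_of_nonpos (by linarith), abs_of_nonneg (by linarith)]
    linarith

/-- **the cutoff of the farther levels hardly sees an end of size less than rho** -/
lemma oscM (hF : ChF lb s M a w Ch B) {c : ℝ} (hc : 0 < c) {i m rho : ℕ} (hr1 : 1 ≤ rho)
    (hr2 : rho ≤ 2 ^ (lb + i * s + m + 1)) (hs : m + 8 ≤ s) {A Y : List Bool}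
    (hS : A ++ Y ∈ SA) (hY : ∀ q, q ≤ Y.length → hn (vx oo up Y q) < rho) :
    |TW.gc c (TW.Ta (fun j => aL lb s M Ch B j (A ++ Y)) M (i + 1)) -
      TW.gc c (TW.Ta (fun j => aL lb s M Ch B j A) M (i + 1))| ≤ 2 ^ m * thG lb s M c Ch B i A := by
  refine (gc_abs hc).trans ?_
  have h1 : |TW.Ta (fun j => aL lb s M Ch B j (A ++ Y)) M (i + 1) - TW.Ta (fun j => aL lb s M Ch B j A) M (i + 1)| ≤
      ∑ j ∈ Ico (i + 1) M, (64 * 2 ^ m / 2 ^ s) *
        (NI (lb + j * s) (Ch j) A / (M * (WL' (Ch j) (B j) * Ub (lb + j * s)))) := by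
    unfold TW.Ta
    rw [← sum_sub_distrib]
    refine (abs_sum_le_sum_abs _ _).trans (sum_le_sum fun j hj => ?_)
    rw [mem_Ico] at hj
    have hg := gL_nonneg lb s Ch B j
    have e1 : aL lb s M Ch B j (A ++ Y) - aL lb s M Ch B j A =
        (N1 (lb + j * s) (Ch j) (A ++ Y) - N1 (lb + j * s) (Ch j) A) / (M * (WL' (Ch j) (B j) * Ub (lb + j * s))) := by
      unfold aL
      rw [sub_div]
    have hd : (0 : ℝ) ≤ M * (WL' (Ch j) (B j) * Ub (lb + j * s)) := mul_nonneg (Nat.cast_nonneg _) hg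
    have hle : lb + i * s + m + 1 + (s - m - 1) ≤ lb + j * s := by
      have : (i + 1) * s ≤ j * s := Nat.mul_le_mul_right s hj.1
      rw [add_mul, one_mul] at this
      omega
    have hpow : rho * 2 ^ (s - m - 1) ≤ 2 ^ (lb + j * s) := by
      calc rho * 2 ^ (s - m - 1) ≤ 2 ^ (lb + i * s + m + 1) * 2 ^ (s - m - 1) := Nat.mul_le_mul_right _ hr2
        _ = 2 ^ (lb + i * s + m + 1 + (s - m - 1)) := (pow_add _ _ _).symm
        _ ≤ _ := Nat.pow_le_pow_right (by norm_num) hle
    have h128 : 128 * rho ≤ 2 ^ (lb + j * s) := by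
      have h2 : 2 ^ 7 ≤ 2 ^ (s - m - 1) := Nat.pow_le_pow_right (by norm_num) (by omega)
      calc 128 * rho = rho * 2 ^ 7 := by ring
        _ ≤ rho * 2 ^ (s - m - 1) := Nat.mul_le_mul_left _ h2
        _ ≤ _ := hpow
    have ho := (oscS (lb + j * s) rho (Ch j) A Y (hF.chn j hj.2) h128 hr1 hS hY).1
    rw [e1, abs_div, abs_of_nonneg hd, ← mul_div_assoc]
    refine div_le_div_of_nonneg_right (ho.trans ?_) hd
    refine mul_le_mul_of_nonneg_right ?_ (NI_nonneg _ _ _)
    rw [div_le_div_iff₀ (by positivity) (by positivity)]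
    have h3 : ((rho : ℝ)) * 2 ^ (s - m - 1) ≤ 2 ^ (lb + j * s) := by exact_mod_cast hpow
    have h4 : (2 : ℝ) ^ s = 2 ^ (s - m - 1) * (2 * 2 ^ m) := by
      rw [show (2 : ℝ) * 2 ^ m = 2 ^ (m + 1) by ring, ← pow_add]
      congr 1
      omega
    calc 32 * (rho : ℝ) * 2 ^ s = 64 * 2 ^ m * (rho * 2 ^ (s - m - 1)) := by rw [h4]; ring
      _ ≤ 64 * 2 ^ m * 2 ^ (lb + j * s) := mul_le_mul_of_nonneg_left h3 (by positivity)
  calc _ ≤ (∑ j ∈ Ico (i + 1) M, (64 * 2 ^ m / 2 ^ s) *
        (NI (lb + j * s) (Ch j) A / (M * (WL' (Ch j) (B j) * Ub (lb + j * s))))) / c :=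
        div_le_div_of_nonneg_right h1 hc.le
    _ = _ := by
      unfold thG
      rw [← mul_sum]
      field_simp

open Classical in
/-- **the weight of a level with the oscillation of the farther levels** -/
lemma NT_thG (hF : ChF lb s M a w Ch B) {c : ℝ} (hc : 0 < c) {i : ℕ} (hi : i < M) (hs : 8 ≤ s)
    {t : List Bool} (ht : t ∈ SA) : NT (lb + i * s) (Ch i) (thG lb s M c Ch B i) t ≤
      N1 (lb + i * s) (Ch i) t * (64 / (c * 2 ^ s) * ∑ j ∈ Ico (i + 1) M, qL lb s M Ch B j t) := by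
  unfold N1 NT
  rw [sum_mul]
  refine sum_le_sum fun p hp => ?_
  rw [mem_filter, mem_product, mem_range, mem_range] at hp
  obtain ⟨⟨hp1, hp2⟩, h1, h2, h3, h4⟩ := hp
  rw [mul_one]
  refine mul_le_mul_of_nonneg_left ?_ (chi_nonneg _ _)
  unfold thG
  refine mul_le_mul_of_nonneg_left (sum_le_sum fun j hj => ?_) (by positivity)
  rw [mem_Ico] at hj
  unfold qL
  refine div_le_div_of_nonneg_right ?_ (mul_nonneg (Nat.cast_nonneg _) (gL_nonneg lb s Ch B j))
  have e2 : t.drop p.1 = (t.take p.2).drop p.1 ++ t.drop p.2 := by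
    nth_rw 1 [← List.take_append_drop p.2 t]
    rw [List.drop_append_of_le_length (by rw [List.length_take]; omega)]
  have h5 : t.drop p.1 ∈ Hp (2 * 2 ^ (lb + i * s)) := by
    rw [e2]
    refine bu_hp ((hF.chn i hi).bu h3) (fun q hq => ?_) h4
    have := (hF.chn i hi).size _ h3 q hq
    push_cast
    exact this
  have hle : lb + i * s + s ≤ lb + j * s := by
    have : (i + 1) * s ≤ j * s := Nat.mul_le_mul_right s hj.1
    rw [add_mul, one_mul] at this
    omega
  have h128 : 128 * (2 * 2 ^ (lb + i * s)) ≤ 2 ^ (lb + j * s) := by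
    calc 128 * (2 * 2 ^ (lb + i * s)) = 2 ^ (lb + i * s + 8) := by ring
      _ ≤ _ := Nat.pow_le_pow_right (by norm_num) (by omega)
  have ho := (oscS (lb + j * s) (2 * 2 ^ (lb + i * s)) (Ch j) (t.take p.1) (t.drop p.1) (hF.chn j hj.2) h128
    (by have := Nat.one_le_two_pow (n := lb + i * s); omega)
    (by rw [List.take_append_drop]; exact ht) (fun q hq => h5.2 q hq)).2
  rwa [List.take_append_drop] at ho

/-- `Ico 0 M` -/
lemma Ta_zero (f : ℕ → ℝ) (M : ℕ) : TW.Ta f M 0 = ∑ i ∈ range M, f i := by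
  unfold TW.Ta
  rw [Finset.range_eq_Ico]

/-- the hexagonal norm and the box -/
lemma hn_far {p : Pt} {D : ℕ} (h : p ∉ SIM.Bl oo (4 * D)) : (2 * D : ℤ) ≤ hn p := by
  by_contra hc
  rw [not_le] at hc
  apply h
  have h2 := nrm_le_hn p
  have h3 := hn_nonneg p
  have h4 : (hn p) ^ 2 < ((2 * D : ℤ)) ^ 2 := by nlinarith
  have h5 : nrm p < (2 * (D : ℤ)) ^ 2 := by linarith
  unfold nrm at h5
  have e0 : (oo : Pt) = (0, 0) := rfl
  rw [e0]
  refine ⟨?_, ?_⟩
  · simp only [sub_zero]
    push_cast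
    apply abs_le_of_sq_le_sq _ (by positivity)
    nlinarith [sq_nonneg (p.1 + 2 * p.2)]
  · simp only [sub_zero]
    push_cast
    apply abs_le_of_sq_le_sq _ (by positivity)
    nlinarith [sq_nonneg (2 * p.1 + p.2)]

/-- a far piece in front does not lower the sum of the levels -/
lemma sum_far (hF : ChF lb s M a w Ch B) {L R : List Bool}
    (hL : ∀ i, i ≤ L.length → vx oo up (L ++ R) i ∉ SIM.Bl (TIP.tipv (L ++ R)) (4 * (4 * 2 ^ (lb + M * s)))) :
    ∑ i ∈ range M, aL lb s M Ch B i R ≤ ∑ i ∈ range M, aL lb s M Ch B i (L ++ R) := by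
  refine sum_le_sum fun i hi => ?_
  rw [mem_range] at hi
  unfold aL
  refine div_le_div_of_nonneg_right ?_ (mul_nonneg (Nat.cast_nonneg _) (gL_nonneg lb s Ch B i))
  refine N1_far (hF.chn i hi) fun q hq => ?_
  have h1 := hL q hq
  have h2 : vx oo up (L ++ R) q - en (L ++ R) ∉ SIM.Bl oo (4 * (4 * 2 ^ (lb + M * s))) := by
    intro h3
    apply h1
    have e0 : (oo : Pt) = (0, 0) := rfl
    rw [e0] at h3
    obtain ⟨h4, h5⟩ := h3
    simp only [sub_zero] at h4 h5
    exact ⟨h4, h5⟩
  have h3 := hn_far h2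
  have h4 : (2 : ℤ) ^ (lb + i * s) ≤ 2 ^ (lb + M * s) :=
    pow_le_pow_right₀ (by norm_num) (by have : i * s ≤ M * s := Nat.mul_le_mul_right s hi.le; omega)
  push_cast at h3
  linarith

end Fam

end Sm

end SLW

end HexObs
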