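import Pool.Agent.JNT.NarBase
import Pool.Agent.JNT.LowStep
import Pool.Agent.PHW.ViaE

/-!
SLW: first cut pieces with exactly b letters in a tube: weight at least c / m k for every even b from a m k to A m k
(u(b) ≥ c / n for the slow change theorem).

One-mark lemma; pairs: a bridge x of the height s - t (t ≤ s / Q) in a tube with a given number of letters (LowWide), then a
first cut y at or above t, low and with few letters. Triples: the middle part has the height at most s / Q.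
-/

set_option autoImplicit false

namespace HexObs

namespace SLW

open Finset TS SDN NTW NTA PtC RP JNT

open scoped ENNReal

namespace FL

open LO1 NaB

/-! ### 1. Masses of first cuts -/

lemma fps_le (s : ℕ) : gf (FPs s) ≤ 1 := by
  have h1 : FPs s ⊆ ⋃ j, FC s j := by
    rintro a ⟨j, ha⟩
    exact Set.mem_iUnion.2 ⟨j, ha⟩
  refine (gf_mono h1).trans ((ENNReal.tsum_iUnion_le_tsum wE _).trans ?_)
  exact ENNReal.tsum_le_of_sum_range_le fun N => sum_FC_le s N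

/-- the first cuts at or above t, low, in a tube, with few letters -/
def YC (n t : ℕ) (A : ℝ) : Set (List Bool) := {u | u ∈ FPs t ∧ hgt u ≤ 2 * n ∧
  (∀ i, i ≤ u.length → |(lat u i : ℝ)| ≤ 4 * n) ∧ (u.length : ℝ) ≤ A * (2 * (n : ℝ)) ^ (4 / 3 : ℝ)}

lemma rest (hZ : ∃ C : ℝ, 0 < C ∧ ∀ N : ℕ, 1 ≤ N → PW.mZ N ≤ C * (N : ℝ) ^ (4 / 3 : ℝ)) :
    ∃ (c A : ℝ) (n0 : ℕ), 0 < c ∧ 0 < A ∧ ∀ n t : ℕ, n0 ≤ n → t ≤ n → ENNReal.ofReal c ≤ gf (YC n t A) := by
  obtain ⟨c2, A2, s2, hc2, hA2, h2⟩ := tube_mass hZ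
  have hCW := Num2Aux.CW_pos
  refine ⟨c2 / (6 + CW), A2, s2 + 1, by positivity, hA2, fun n t hn ht => ?_⟩
  have hS : (((2 * n : ℕ) : ℝ)) = 2 * n := by push_cast; ring
  have hg2 := h2 (2 * n) (by omega)
  obtain ⟨W2, hW2⟩ : ∃ W2 : Set (List Bool), W2 = {a | (∃ t ∈ Hs (2 * n), a ∈ Brd t) ∧
    a ∈ {a | ∀ i, i ≤ a.length → |(lat a i : ℝ)| ≤ 2 * ((2 * n : ℕ) : ℝ)} ∧
        (a.length : ℝ) ≤ A2 * ((2 * n : ℕ) : ℝ) ^ (4 / 3 : ℝ)} := ⟨_, rfl⟩
  rw [← hW2] at hg2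
  have hU2 : 0 < UU (2 * n) := Num2Aux.UU_pos _
  have hUl := UU_le_mul (T := 2 * n) (by omega)
  have e1 : ENNReal.ofReal (c2 / (6 + CW)) * ENNReal.ofReal (UU (2 * n)) ≤ gf (YC n t A2) * ENNReal.ofReal (UU (2 * n)) := by
    refine le_trans ?_ (hg2.trans ?_)
    · rw [← ENNReal.ofReal_mul (by positivity)]
      refine ENNReal.ofReal_le_ofReal ?_
      calc c2 / (6 + CW) * UU (2 * n) ≤ c2 / (6 + CW) * ((6 + CW) * (((2 * n : ℕ) : ℝ) * uu (2 * n))) :=
            mul_le_mul_of_nonneg_left hUl (by positivity)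
        _ = c2 * (((2 * n : ℕ) : ℝ) * uu (2 * n)) := by field_simp
    · refine (gf_le_mul (Q := YC n t A2) (R := {X | ∃ r, r ≤ 2 * n ∧ X ∈ Brd r}) ?_).trans
        (mul_le_mul_right (PtC.gf_BU_le _) _)
      intro w hw
      rw [hW2] at hw
      obtain ⟨⟨p, hp, hw⟩, hw2, hw3⟩ := hw
      rw [mem_Hs] at hp
      obtain ⟨j, a, u, g1, g2, g3, g4, g5⟩ := FC_dec (s := t) (by omega) hw
      refine ⟨a, ?_, u, ⟨p - j, by omega, g4⟩, g5⟩
      refine ⟨⟨j, g3⟩, ?_, fun i hi => ?_, ?_⟩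
      · rw [hgt_eq g3.1]
        omega
      · have g6 := hw2 i (by rw [g5, List.length_append]; omega)
        rw [g5, lat_append (by omega), hS] at g6
        linarith
      · rw [hS, g5, List.length_append] at hw3
        refine le_trans ?_ hw3
        push_cast
        have : (0 : ℝ) ≤ u.length := Nat.cast_nonneg _
        linarith
  exact (ENNReal.mul_le_mul_iff_left (by simpa using hU2) ENNReal.ofReal_ne_top).1 e1

/-! ### 2. Bridges with a given height and a given number of letters -/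

/-- upper bound, the last vertex in the tube -/
lemma lam_up {m : ℕ → ℝ} (hm : MLow m) (hS : SingleB m) : ∃ C : ℝ, 0 < C ∧ ∀ (k h l X : ℕ), 2 ^ k ≤ h →
    gf {x | x ∈ Brd h ∧ |latE x| ≤ (X : ℤ) ∧ x.length = l} ≤ ENNReal.ofReal ((2 * X + 1) * (C * (Ub k / (4 ^ k * m k)))) := by
  obtain ⟨C, hC, hup⟩ := gz_up hm hS
  refine ⟨C, hC, fun k h l X hk => ?_⟩
  have hmk := hm.pos k
  have hU := Ub_pos k
  have h1 : {x | x ∈ Brd h ∧ |latE x| ≤ (X : ℤ) ∧ x.length = l} ⊆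
      ⋃ y ∈ Finset.Icc (-(X : ℤ)) X, {Z | Z ∈ EndB h y ∧ Z.length = l} := by
    rintro x ⟨g1, g2, g3⟩
    rw [Set.mem_iUnion₂]
    exact ⟨latE x, Finset.mem_Icc.2 (abs_le.1 g2), ⟨g1, rfl⟩, g3⟩
  refine (gf_mono h1).trans ?_
  have h2 : gf (⋃ y ∈ Finset.Icc (-(X : ℤ)) X, {Z | Z ∈ EndB h y ∧ Z.length = l}) ≤
      ∑ y ∈ Finset.Icc (-(X : ℤ)) X, gf {Z | Z ∈ EndB h y ∧ Z.length = l} := by
    unfold gf
    exact ENNReal.tsum_biUnion_le wE (Finset.Icc (-(X : ℤ)) X) _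
  refine h2.trans ?_
  calc ∑ y ∈ Finset.Icc (-(X : ℤ)) X, gf {Z | Z ∈ EndB h y ∧ Z.length = l}
      ≤ ∑ _y ∈ Finset.Icc (-(X : ℤ)) X, ENNReal.ofReal (C * (Ub k / (4 ^ k * m k))) := by
        refine Finset.sum_le_sum fun y _ => ?_
        by_cases he : Even (y - (h : ℤ))
        · rw [gz_pt he]
          refine ENNReal.ofReal_le_ofReal (hup k _ l ?_)
          rw [ip_pt he]
          have : ((2 ^ k : ℕ) : ℤ) ≤ h := by exact_mod_cast hk
          push_cast at this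
          linarith
        · have : {Z | Z ∈ EndB h y ∧ Z.length = l} = ∅ := by
            ext Z
            simp only [Set.mem_empty_iff_false, iff_false]
            rintro ⟨⟨g1, g2⟩, -⟩
            have := latE_even g1
            rw [g2] at this
            exact he this
          rw [this]
          unfold gf
          simp
    _ = ENNReal.ofReal ((2 * X + 1) * (C * (Ub k / (4 ^ k * m k)))) := by
        rw [Finset.sum_const, nsmul_eq_mul, Int.card_Icc]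
        have e1 : (((X : ℤ) + 1 - -(X : ℤ)).toNat : ℝ≥0∞) = ENNReal.ofReal (2 * X + 1) := by
          have e2 : ((X : ℤ) + 1 - -(X : ℤ)).toNat = 2 * X + 1 := by omega
          rw [e2]
          have e3 : (2 * (X : ℝ) + 1) = ((2 * X + 1 : ℕ) : ℝ) := by push_cast; ring
          rw [e3, ENNReal.ofReal_natCast]
        rw [e1, ← ENNReal.ofReal_mul (by positivity)]

/-- lower bound, in a tube, on a factor 8 of heights -/
lemma lam_low {m : ℕ → ℝ} (hm : MLow m) (hu : MUp m) (hJ : LowWide m) {a A : ℝ} (ha : 0 < a) (haA : a ≤ A) :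
    ∃ (H : ℕ) (c K : ℝ) (k0 : ℕ), 1 ≤ H ∧ 0 < c ∧ 1 ≤ K ∧ ∀ k h b : ℕ, k0 ≤ k → H * 2 ^ k ≤ h → h ≤ 8 * (H * 2 ^ k) →
      Even b → a * m k ≤ b → (b : ℝ) ≤ A * m k → ENNReal.ofReal (c * (Ub k / (2 ^ k * m k))) ≤
        gf {x | x ∈ Brd h ∧ (∀ i, i ≤ x.length → |(lat x i : ℝ)| ≤ K * 2 ^ k) ∧ x.length = b} := by
  obtain ⟨Cm, hCm, hu⟩ := hu
  have hCm0 : 0 < Cm := by linarith
  have hCm2 : 1 ≤ Cm ^ 2 := one_le_pow₀ hCm
  obtain ⟨H, c, K, k0, hH, hc, hK, h⟩ := hJ 1 (a / Cm ^ 2) A one_pos (by positivity) (by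
    rw [div_le_iff₀ (by positivity)]
    nlinarith)
  refine ⟨H, c / (16 * Cm ^ 2) / 8, 4 * K, k0 + 4, hH, by positivity, by linarith,
    fun k h' b hk h1 h2 hb hab hbA => ?_⟩
  have hmk := hm.pos k
  have hUk := Ub_pos k
  -- one end
  have key : ∀ (x : ℤ), Even (x - h') → |(x : ℝ)| ≤ 1 * h' → ∀ i : ℕ, i ≤ 2 → H * 2 ^ (k + i) ≤ h' →
      h' ≤ 2 * (H * 2 ^ (k + i)) → ENNReal.ofReal (c / (16 * Cm ^ 2) * (Ub k / (4 ^ k * m k))) ≤
        gf {Z | Z ∈ EndB h' x ∧ Z.length = b ∧ ∀ i, i ≤ Z.length → |(lat Z i : ℝ)| ≤ 4 * K * 2 ^ k} := by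
    intro x hx hxR i hi g1 g2
    have hmi := hm.pos (k + i)
    have hUi := Ub_pos (k + i)
    have e1 : m (k + i) ≤ Cm ^ i * m k := EL.m_iter hCm hu k i
    have e2 : Cm ^ i ≤ Cm ^ 2 := pow_le_pow_right₀ hCm hi
    have e3 : m (k + i) ≤ Cm ^ 2 * m k := e1.trans (mul_le_mul_of_nonneg_right e2 hmk.le)
    have e4 : m k ≤ m (k + i) := by
      refine le_trans ?_ (hm.low k i)
      have : (1 : ℝ) ≤ (2 : ℝ) ^ (5 / 4 * (i : ℝ)) := Real.one_le_rpow (by norm_num) (by positivity)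
      nlinarith
    have g3 := h (k + i) h' b x (by omega) g1 g2 hx hxR hb (by
      refine le_trans ?_ hab
      rw [div_mul_eq_mul_div, div_le_iff₀ (by positivity)]
      calc a * m (k + i) ≤ a * (Cm ^ 2 * m k) := mul_le_mul_of_nonneg_left e3 ha.le
        _ = a * m k * Cm ^ 2 := by ring) (hbA.trans (mul_le_mul_of_nonneg_left e4 (by linarith)))
    have e5 : Ub k ≤ Ub (k + i) := UU_mono (Nat.pow_le_pow_right (by norm_num) (by omega))
    have e6 : (4 : ℝ) ^ (k + i) ≤ 16 * 4 ^ k := by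
      rw [pow_add]
      have : (4 : ℝ) ^ i ≤ 4 ^ 2 := pow_le_pow_right₀ (by norm_num) hi
      have h4 : (0 : ℝ) < 4 ^ k := by positivity
      nlinarith
    have e7 : Ub k / (16 * 4 ^ k * (Cm ^ 2 * m k)) ≤ Ub (k + i) / (4 ^ (k + i) * m (k + i)) := by
      refine div_le_div₀ hUi.le e5 (by positivity) ?_
      exact mul_le_mul e6 e3 hmi.le (by positivity)
    refine (ENNReal.ofReal_le_ofReal ?_).trans (g3.trans (gf_mono ?_))
    · calc c / (16 * Cm ^ 2) * (Ub k / (4 ^ k * m k)) = c * (Ub k / (16 * 4 ^ k * (Cm ^ 2 * m k))) := by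
            field_simp
        _ ≤ _ := mul_le_mul_of_nonneg_left e7 hc.le
    · rintro Z ⟨f1, f2, f3⟩
      refine ⟨f1, f2, fun j hj => (f3 j hj).trans ?_⟩
      rw [pow_add]
      have f4 : (2 : ℝ) ^ i ≤ 2 ^ 2 := pow_le_pow_right₀ (by norm_num) hi
      have f5 : (0 : ℝ) < 2 ^ k := by positivity
      have f6 : (0 : ℝ) < K := by linarith
      calc K * (2 ^ k * 2 ^ i) ≤ K * (2 ^ k * 2 ^ 2) := by gcongr
        _ = 4 * K * 2 ^ k := by ring
  have key2 : ∀ (x : ℤ), Even (x - h') → |(x : ℝ)| ≤ 1 * h' → ENNReal.ofReal (c / (16 * Cm ^ 2) * (Ub k / (4 ^ k * m k))) ≤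
        gf {Z | Z ∈ EndB h' x ∧ Z.length = b ∧ ∀ i, i ≤ Z.length → |(lat Z i : ℝ)| ≤ 4 * K * 2 ^ k} := by
    intro x hx hxR
    have p1 : H * 2 ^ (k + 1) = 2 * (H * 2 ^ k) := by rw [pow_succ]; ring
    have p2 : H * 2 ^ (k + 2) = 4 * (H * 2 ^ k) := by rw [pow_add]; ring
    rcases Nat.lt_or_ge (2 * (H * 2 ^ k)) h' with g1 | g1
    · rcases Nat.lt_or_ge (4 * (H * 2 ^ k)) h' with g2 | g2
      · exact key x hx hxR 2 le_rfl (by omega) (by omega)
      · exact key x hx hxR 1 (by norm_num) (by omega) (by omega)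
    · exact key x hx hxR 0 (by norm_num) (by simpa using h1) (by simpa using g1)
  -- all the ends
  obtain ⟨r, hr⟩ : ∃ r : ℕ, r = h' % 2 := ⟨_, rfl⟩
  obtain ⟨f, hf⟩ : ∃ f : ℕ → Set (List Bool), f = fun j : ℕ => {Z | Z ∈ EndB h' ((r : ℤ) + 2 * (j : ℤ)) ∧ Z.length = b ∧
    ∀ i, i ≤ Z.length → |(lat Z i : ℝ)| ≤ 4 * K * 2 ^ k} := ⟨_, rfl⟩
  have hdis : ∀ i j, ∀ Z, Z ∈ f i → Z ∈ f j → i = j := by
    intro i j Z hi hj
    rw [hf] at hi hj
    have h3 := hi.1.2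
    have h4 := hj.1.2
    omega
  have hsub : (⋃ j, f j) ⊆ {x | x ∈ Brd h' ∧ (∀ i, i ≤ x.length → |(lat x i : ℝ)| ≤ 4 * K * 2 ^ k) ∧ x.length = b} := by
    intro Z hZ
    rw [Set.mem_iUnion] at hZ
    obtain ⟨j, hj⟩ := hZ
    rw [hf] at hj
    exact ⟨hj.1.1, hj.2.2, hj.2.1⟩
  have hh16 : 16 ≤ h' := by
    have g1 : 2 ^ 4 ≤ 2 ^ k := Nat.pow_le_pow_right (by norm_num) (by omega)
    have g2 : 2 ^ k ≤ H * 2 ^ k := Nat.le_mul_of_pos_left _ hH
    omega
  have hge : ∀ j ∈ range (h' / 4), ENNReal.ofReal (c / (16 * Cm ^ 2) * (Ub k / (4 ^ k * m k))) ≤ gf (f j) := by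
    intro j hj
    rw [Finset.mem_range] at hj
    rw [hf]
    refine key2 _ ?_ ?_
    · rw [Int.even_iff]
      omega
    · have g1 : r + 2 * j ≤ h' := by omega
      have g2 : ((r + 2 * j : ℕ) : ℝ) ≤ h' := by exact_mod_cast g1
      push_cast at g2 ⊢
      rw [abs_of_nonneg (by positivity), one_mul]
      exact g2
  have hcnt : (2 : ℝ) ^ k / 8 ≤ ((h' / 4 : ℕ) : ℝ) := by
    have g1 : 2 ^ k ≤ 8 * (h' / 4) := by
      have g2 : 2 ^ k ≤ H * 2 ^ k := Nat.le_mul_of_pos_left _ hH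
      omega
    have g2 : ((2 ^ k : ℕ) : ℝ) ≤ 8 * ((h' / 4 : ℕ) : ℝ) := by exact_mod_cast g1
    push_cast at g2
    linarith
  calc ENNReal.ofReal (c / (16 * Cm ^ 2) / 8 * (Ub k / (2 ^ k * m k)))
      ≤ ENNReal.ofReal (((h' / 4 : ℕ) : ℝ) * (c / (16 * Cm ^ 2) * (Ub k / (4 ^ k * m k)))) := by
        refine ENNReal.ofReal_le_ofReal ?_
        have e1 : (4 : ℝ) ^ k = 2 ^ k * 2 ^ k := by
          rw [← mul_pow]
          norm_num
        calc c / (16 * Cm ^ 2) / 8 * (Ub k / (2 ^ k * m k)) = 2 ^ k / 8 * (c / (16 * Cm ^ 2) * (Ub k / (4 ^ k * m k))) := by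
              rw [e1]
              field_simp
          _ ≤ _ := mul_le_mul_of_nonneg_right hcnt (by positivity)
    _ = ∑ _j ∈ range (h' / 4), ENNReal.ofReal (c / (16 * Cm ^ 2) * (Ub k / (4 ^ k * m k))) := by
        rw [Finset.sum_const, Finset.card_range, nsmul_eq_mul, ENNReal.ofReal_mul (by positivity),
          ENNReal.ofReal_natCast]
    _ ≤ ∑ j ∈ range (h' / 4), gf (f j) := Finset.sum_le_sum hge
    _ ≤ ∑' j, gf (f j) := ENNReal.sum_le_tsum _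
    _ = gf (⋃ j, f j) := (K1.gf_iUnion f hdis).symm
    _ ≤ _ := gf_mono hsub

/-! ### 3. The pairs and the triples -/

/-- the pairs: a bridge of the height s - t in a tube, a first cut at or above t -/
def PP (s n b : ℕ) (r A : ℝ) (x y : List Bool) : Prop :=
  ∃ t, (1 ≤ t ∧ t ≤ n) ∧ x ∈ Brd (s - t) ∧ (∀ i, i ≤ x.length → |(lat x i : ℝ)| ≤ r) ∧ y ∈ YC n t A ∧
    x.length + y.length = b

/-- the triples -/
def QQ (s n b X : ℕ) (x μ y : List Bool) : Prop :=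
  ∃ t, t ≤ n ∧ x ∈ Brd (s - t - hgt μ) ∧ |latE x| ≤ (X : ℤ) ∧ μ ∈ BU ∧ hgt μ ≤ n ∧ y ∈ FPs t ∧
    x.length = b - μ.length - y.length

lemma e1_low {s n b : ℕ} {r A : ℝ} {v w : ℝ≥0∞} (hn : n ≤ s) (hb : Even b)
    (hY : ∀ t, t ≤ n → v ≤ gf (YC n t A)) (hlen : ∀ t, t ≤ n → ∀ y ∈ YC n t A, y.length ≤ b)
    (hx : ∀ t, t ≤ n → ∀ l, Even l → (∃ y ∈ YC n t A, l = b - y.length) →
      w ≤ gf {x | x ∈ Brd (s - t) ∧ (∀ i, i ≤ x.length → |(lat x i : ℝ)| ≤ r) ∧ x.length = l}) :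
    n * (v * w) ≤ E1 (PP s n b r A) := by
  classical
  obtain ⟨X, hX⟩ : ∃ X : ℕ → ℕ → Set (List Bool), X = fun t l => {x | x ∈ Brd (s - t) ∧
    (∀ i, i ≤ x.length → |(lat x i : ℝ)| ≤ r) ∧ x.length = l} := ⟨_, rfl⟩
  have h1 : ∑ t ∈ Finset.Icc 1 n, ∑' y : List Bool, (if y ∈ YC n t A then wE y else 0) * gf (X t (b - y.length)) ≤
      E1 (PP s n b r A) := by
    have e1 : ∀ t ∈ Finset.Icc 1 n, ∑' y : List Bool, (if y ∈ YC n t A then wE y else 0) * gf (X t (b - y.length)) =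
        ∑' x : List Bool, ∑' y : List Bool, (if y ∈ YC n t A ∧ x ∈ X t (b - y.length) then wE x * wE y else 0) := by
      intro t _
      rw [ENNReal.tsum_comm]
      refine tsum_congr fun y => ?_
      rw [gf_ind, ← ENNReal.tsum_mul_left]
      refine tsum_congr fun x => ?_
      by_cases g1 : y ∈ YC n t A
      · by_cases g2 : x ∈ X t (b - y.length)
        · rw [if_pos g1, if_pos g2, if_pos ⟨g1, g2⟩, mul_comm]
        · rw [if_neg g2, if_neg (show ¬ (y ∈ YC n t A ∧ x ∈ X t (b - y.length)) from fun h => g2 h.2), mul_zero]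
      · rw [if_neg g1, if_neg (show ¬ (y ∈ YC n t A ∧ x ∈ X t (b - y.length)) from fun h => g1 h.1), zero_mul]
    rw [Finset.sum_congr rfl e1, ← Summable.tsum_finsetSum (fun _ _ => ENNReal.summable)]
    unfold E1
    refine ENNReal.tsum_le_tsum fun x => ?_
    rw [← Summable.tsum_finsetSum (fun _ _ => ENNReal.summable)]
    refine ENNReal.tsum_le_tsum fun y => ?_
    by_cases hP : ∃ t ∈ Finset.Icc 1 n, y ∈ YC n t A ∧ x ∈ X t (b - y.length)
    · obtain ⟨t, ht, g1, g2⟩ := hP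
      have hPP : PP s n b r A x y := by
        rw [Finset.mem_Icc] at ht
        have g3 := g2
        rw [hX] at g3
        refine ⟨t, ht, g3.1, g3.2.1, g1, ?_⟩
        have := hlen t (by omega) y g1
        have := g3.2.2
        omega
      rw [if_pos hPP, Finset.sum_eq_single t]
      · rw [if_pos ⟨g1, g2⟩]
      · intro t' ht' hne
        refine if_neg ?_
        rintro ⟨-, g4⟩
        rw [hX] at g2 g4
        have g5 := Brd_height g2.1 g4.1
        rw [Finset.mem_Icc] at ht ht'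
        omega
      · exact fun h => absurd ht h
    · rw [Finset.sum_eq_zero]
      · exact zero_le
      · intro t ht
        exact if_neg fun h => hP ⟨t, ht, h⟩
  refine le_trans ?_ h1
  have h2 : ∀ t ∈ Finset.Icc 1 n, v * w ≤
      ∑' y : List Bool, (if y ∈ YC n t A then wE y else 0) * gf (X t (b - y.length)) := by
    intro t ht
    rw [Finset.mem_Icc] at ht
    calc v * w ≤ gf (YC n t A) * w := mul_le_mul_left (hY t (by omega)) _
      _ = ∑' y : List Bool, (if y ∈ YC n t A then wE y else 0) * w := by rw [gf_ind, ENNReal.tsum_mul_right]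
      _ ≤ _ := by
        refine ENNReal.tsum_le_tsum fun y => ?_
        by_cases hy : y ∈ YC n t A
        · rw [if_pos hy]
          refine mul_le_mul_right ?_ _
          rw [hX]
          refine hx t (by omega) _ ?_ ⟨y, hy, rfl⟩
          exact (Nat.even_sub (hlen t (by omega) y hy)).2 ⟨fun _ => FPs_even hy.1, fun _ => hb⟩
        · rw [if_neg hy, zero_mul]
          exact zero_le
  calc (n : ℝ≥0∞) * (v * w) = ∑ _t ∈ Finset.Icc 1 n, v * w := by
        rw [Finset.sum_const, Nat.card_Icc, nsmul_eq_mul, Nat.add_sub_cancel]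
    _ ≤ _ := Finset.sum_le_sum h2

lemma e3_up {s n b X : ℕ} {w : ℝ≥0∞}
    (hx : ∀ h l, s ≤ h + 2 * n → gf {x | x ∈ Brd h ∧ |latE x| ≤ (X : ℤ) ∧ x.length = l} ≤ w) :
    E3 (QQ s n b X) ≤ ENNReal.ofReal (UU n) * ((n + 1) * w) := by
  classical
  obtain ⟨U, hU⟩ : ∃ U : Set (List Bool), U = {X | ∃ p, p ≤ n ∧ X ∈ Brd p} := ⟨_, rfl⟩
  obtain ⟨V, hV⟩ : ∃ V : List Bool → List Bool → ℕ → Set (List Bool), V = fun μ y t => {x | x ∈ Brd (s - t - hgt μ) ∧
    |latE x| ≤ (X : ℤ) ∧ x.length = b - μ.length - y.length} := ⟨_, rfl⟩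
  have h1 : ∀ x μ y : List Bool, (if QQ s n b X x μ y then wE x * (wE μ * wE y) else 0) ≤
      (if μ ∈ U then wE μ else 0) * ∑ t ∈ range (n + 1), (if y ∈ FPs t then wE y else 0) *
        (if x ∈ V μ y t then wE x else 0) := by
    intro x μ y
    by_cases hQ : QQ s n b X x μ y
    · rw [if_pos hQ]
      obtain ⟨t, ht, g1, g2, g3, g4, g5, g6⟩ := hQ
      have hμ : μ ∈ U := by
        rw [hU]
        obtain ⟨p, hp⟩ := g3
        rw [hgt_eq hp] at g4
        exact ⟨p, g4, hp⟩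
      rw [if_pos hμ]
      have g7 : wE y * wE x ≤ ∑ t ∈ range (n + 1), (if y ∈ FPs t then wE y else 0) * (if x ∈ V μ y t then wE x else 0) := by
        refine le_trans (le_of_eq ?_) (Finset.single_le_sum (f := fun t => (if y ∈ FPs t then wE y else 0) *
          (if x ∈ V μ y t then wE x else 0)) (fun _ _ => zero_le) (Finset.mem_range.2 (by omega : t < n + 1)))
        have g8 : x ∈ V μ y t := by
          rw [hV]
          exact ⟨g1, g2, g6⟩
        rw [if_pos g5, if_pos g8]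
      calc wE x * (wE μ * wE y) = wE μ * (wE y * wE x) := by ring
        _ ≤ _ := mul_le_mul_right g7 _
    · rw [if_neg hQ]
      exact zero_le
  calc E3 (QQ s n b X) = ∑' x : List Bool, ∑' μ : List Bool, ∑' y : List Bool,
        (if QQ s n b X x μ y then wE x * (wE μ * wE y) else 0) := rfl
    _ ≤ ∑' x : List Bool, ∑' μ : List Bool, ∑' y : List Bool, (if μ ∈ U then wE μ else 0) *
        ∑ t ∈ range (n + 1), (if y ∈ FPs t then wE y else 0) * (if x ∈ V μ y t then wE x else 0) :=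
        ENNReal.tsum_le_tsum fun x => ENNReal.tsum_le_tsum fun μ => ENNReal.tsum_le_tsum fun y => h1 x μ y
    _ = ∑' μ : List Bool, (if μ ∈ U then wE μ else 0) * ∑ t ∈ range (n + 1), ∑' y : List Bool,
        (if y ∈ FPs t then wE y else 0) * gf (V μ y t) := by
        rw [ENNReal.tsum_comm]
        refine tsum_congr fun μ => ?_
        rw [tsum_congr fun x => ENNReal.tsum_mul_left, ENNReal.tsum_mul_left]
        congr 1
        rw [ENNReal.tsum_comm, ← Summable.tsum_finsetSum (fun _ _ => ENNReal.summable)]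
        refine tsum_congr fun y => ?_
        rw [Summable.tsum_finsetSum (fun _ _ => ENNReal.summable)]
        refine Finset.sum_congr rfl fun t _ => ?_
        rw [ENNReal.tsum_mul_left, gf_ind]
    _ ≤ ∑' μ : List Bool, (if μ ∈ U then wE μ else 0) * ((n + 1) * w) := by
        refine ENNReal.tsum_le_tsum fun μ => ?_
        by_cases hμ : μ ∈ U
        · rw [if_pos hμ]
          refine mul_le_mul_right ?_ _
          have hμn : hgt μ ≤ n := by
            rw [hU] at hμ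
            obtain ⟨p, hp, hp2⟩ := hμ
            rw [hgt_eq hp2]
            exact hp
          calc ∑ t ∈ range (n + 1), ∑' y : List Bool, (if y ∈ FPs t then wE y else 0) * gf (V μ y t)
              ≤ ∑ _t ∈ range (n + 1), w := by
                refine Finset.sum_le_sum fun t ht => ?_
                rw [Finset.mem_range] at ht
                calc ∑' y : List Bool, (if y ∈ FPs t then wE y else 0) * gf (V μ y t)
                    ≤ ∑' y : List Bool, (if y ∈ FPs t then wE y else 0) * w := by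
                      refine ENNReal.tsum_le_tsum fun y => mul_le_mul_right ?_ _
                      rw [hV]
                      exact hx _ _ (by omega)
                  _ = gf (FPs t) * w := by rw [ENNReal.tsum_mul_right, ← gf_ind]
                  _ ≤ 1 * w := mul_le_mul_left (fps_le t) _
                  _ = w := one_mul w
            _ = (n + 1) * w := by
                rw [Finset.sum_const, Finset.card_range, nsmul_eq_mul]
                push_cast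
                rfl
        · rw [if_neg hμ, zero_mul, zero_mul]
    _ ≤ _ := by
        rw [ENNReal.tsum_mul_right, ← gf_ind, hU]
        exact mul_le_mul_left (PtC.gf_BU_le n) _

end FL

open FL LO1 NaB

/-- **first cut pieces with exactly b letters in a tube, with a cut in [s / 2, s)** -/
theorem fpLenV_of {m : ℕ → ℝ} (hm : MLow m) (hu : MUp m) (hJ : LowWide m) (hS : SingleB m)
    (hm1 : ∃ c : ℝ, 0 < c ∧ ∀ k : ℕ, c * 2 ^ (4 / 3 * (k : ℝ)) ≤ m k)
    (hZ : ∃ C : ℝ, 0 < C ∧ ∀ N : ℕ, 1 ≤ N → PW.mZ N ≤ C * (N : ℝ) ^ (4 / 3 : ℝ)) :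
    ∀ a A : ℝ, 0 < a → a ≤ A → ∃ (H : ℕ) (c K : ℝ) (k0 : ℕ), 1 ≤ H ∧ 0 < c ∧ 1 ≤ K ∧ ∀ k s b : ℕ, k0 ≤ k →
      H * 2 ^ k ≤ s → s ≤ 2 * (H * 2 ^ k) → Even b → a * m k ≤ b → (b : ℝ) ≤ A * m k → ENNReal.ofReal (c / m k) ≤
        gf {w | (w ∈ FPs s ∧ hgt w ≤ 2 * s ∧ (∀ i, i ≤ w.length → |(lat w i : ℝ)| ≤ K * 2 ^ k) ∧
          ∃ x y, w = x ++ y ∧ x ∈ BU ∧ y ∈ BU ∧ s ≤ 2 * hgt x ∧ hgt x < s) ∧ w.length = b} := by
  intro a A ha haA
  have hA : 0 < A := by linarith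
  obtain ⟨cz, hcz, hm1⟩ := hm1
  obtain ⟨c2, A2, n0, hc2, hA2, hY⟩ := rest hZ
  obtain ⟨H0, c1, K1, k1, hH0, hc1, hK1, hlow⟩ := lam_low hm hu hJ (a := a / 2) (A := A) (by positivity) (by linarith)
  obtain ⟨C6, hC6, hup⟩ := lam_up hm hS
  have hH0R : (1 : ℝ) ≤ H0 := by exact_mod_cast hH0
  -- the parameter Q
  obtain ⟨Q, hQ4, hQ⟩ : ∃ Q : ℕ, 4 ≤ Q ∧ A2 * (8 * (H0 : ℝ)) ^ (4 / 3 : ℝ) / cz ≤ a / 2 * Q := by
    obtain ⟨Q, hQ⟩ := exists_nat_ge (A2 * (8 * (H0 : ℝ)) ^ (4 / 3 : ℝ) / cz / (a / 2))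
    refine ⟨Q + 4, by omega, ?_⟩
    rw [div_le_iff₀ (by positivity)] at hQ
    push_cast
    nlinarith
  have hQR : (4 : ℝ) ≤ Q := by exact_mod_cast hQ4
  have hQ0 : (0 : ℝ) < Q := by linarith
  -- the constants
  obtain ⟨X, hX⟩ : ∃ X : ℕ → ℕ, X = fun k => ⌈K1⌉₊ * 2 ^ k := ⟨_, rfl⟩
  have hK1c : K1 ≤ (⌈K1⌉₊ : ℝ) := Nat.le_ceil _
  have hK1c0 : (1 : ℝ) ≤ (⌈K1⌉₊ : ℝ) := hK1.trans hK1c
  obtain ⟨c5, hc5⟩ : ∃ c5 : ℝ, c5 = H0 / Q * (c2 * c1) := ⟨_, rfl⟩
  have hc50 : 0 < c5 := by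
    rw [hc5]
    positivity
  obtain ⟨B, hB⟩ : ∃ B : ℝ, B = 4 * H0 * (8 * H0 * (3 * (⌈K1⌉₊ : ℝ) * C6)) := ⟨_, rfl⟩
  have hB0 : 0 < B := by
    rw [hB]
    positivity
  refine ⟨2 * H0, c5 ^ 2 / (8 * B), K1 + 16 * H0, k1 + (Q + 1) * (n0 + 2), by omega, by positivity, by linarith,
    fun k s b hk hs1 hs2 hb hab hbA => ?_⟩
  have hmk := hm.pos k
  obtain ⟨U, hUd⟩ : ∃ U, U = Ub k := ⟨_, rfl⟩
  have hU : 0 < U := by
    rw [hUd]
    exact Ub_pos k
  have hP2 : (0 : ℝ) < 2 ^ k := by positivity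
  have hk2 : k < 2 ^ k := Nat.lt_two_pow_self
  have hHp : 2 ^ k ≤ H0 * 2 ^ k := Nat.le_mul_of_pos_left _ hH0
  have hs1' : 2 * (H0 * 2 ^ k) ≤ s := by
    have : 2 * H0 * 2 ^ k = 2 * (H0 * 2 ^ k) := by ring
    omega
  have hs2' : s ≤ 4 * (H0 * 2 ^ k) := by
    have : 2 * (2 * H0 * 2 ^ k) = 4 * (H0 * 2 ^ k) := by ring
    omega
  have hs2R : (s : ℝ) ≤ 4 * (H0 * 2 ^ k) := by exact_mod_cast hs2'
  have hs1R : 2 * (H0 * (2 : ℝ) ^ k) ≤ s := by exact_mod_cast hs1'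
  obtain ⟨n, hn⟩ : ∃ n, n = s / Q := ⟨_, rfl⟩
  have hnQ : n * Q ≤ s := by
    rw [hn]
    exact Nat.div_mul_le_self _ _
  have hnQ2 : s < (n + 1) * Q := by
    rw [hn, add_mul, one_mul]
    exact Nat.lt_div_mul_add (by omega)
  have hn4 : 4 * n ≤ s := by
    have : n * 4 ≤ n * Q := Nat.mul_le_mul_left _ hQ4
    omega
  have hn0' : n0 + 1 ≤ n := by
    by_contra hc
    push Not at hc
    have e1 : (n + 1) * Q ≤ (n0 + 2) * (Q + 1) := Nat.mul_le_mul (by omega) (by omega)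
    have e2 : (Q + 1) * (n0 + 2) = (n0 + 2) * (Q + 1) := mul_comm _ _
    omega
  have hn0 : n0 ≤ n := by omega
  have hn1 : 1 ≤ n := by omega
  have hnR : (n : ℝ) ≤ s / Q := by
    rw [le_div_iff₀ hQ0]
    exact_mod_cast hnQ
  have hnR2 : (s : ℝ) / Q ≤ n + 1 := by
    rw [div_le_iff₀ hQ0]
    have : (s : ℝ) ≤ ((n + 1) * Q : ℕ) := by exact_mod_cast hnQ2.le
    push_cast at this
    exact this
  -- the letters of y
  have hylen : ∀ t, t ≤ n → ∀ y ∈ YC n t A2, (y.length : ℝ) ≤ a / 2 * m k := by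
    rintro t ht y ⟨-, -, -, g1⟩
    have e1 : (2 * (n : ℝ)) ^ (4 / 3 : ℝ) ≤ (8 * (H0 : ℝ)) ^ (4 / 3 : ℝ) * 2 ^ (4 / 3 * (k : ℝ)) / Q := by
      have f1 : 2 * (n : ℝ) ≤ 8 * H0 * 2 ^ k / Q := by
        calc 2 * (n : ℝ) ≤ 2 * (s / Q) := by linarith
          _ ≤ 2 * (4 * (H0 * 2 ^ k) / Q) := by gcongr
          _ = _ := by ring
      have f2 : (2 * (n : ℝ)) ^ (4 / 3 : ℝ) ≤ (8 * H0 * 2 ^ k / Q) ^ (4 / 3 : ℝ) := Real.rpow_le_rpow (by positivity) f1 (by norm_num)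
      refine f2.trans ?_
      rw [Real.div_rpow (by positivity) (by positivity), Real.mul_rpow (by positivity) (by positivity)]
      have f3 : ((2 : ℝ) ^ k) ^ (4 / 3 : ℝ) = 2 ^ (4 / 3 * (k : ℝ)) := by
        rw [← Real.rpow_natCast, ← Real.rpow_mul (by norm_num), mul_comm]
      rw [f3]
      refine div_le_div_of_nonneg_left (by positivity) hQ0 ?_
      calc (Q : ℝ) = (Q : ℝ) ^ (1 : ℝ) := (Real.rpow_one _).symm
        _ ≤ (Q : ℝ) ^ (4 / 3 : ℝ) := Real.rpow_le_rpow_of_exponent_le (by linarith) (by norm_num)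
    have e2 : (2 : ℝ) ^ (4 / 3 * (k : ℝ)) ≤ m k / cz := by
      rw [le_div_iff₀ hcz]
      linarith [hm1 k]
    calc (y.length : ℝ) ≤ A2 * (2 * (n : ℝ)) ^ (4 / 3 : ℝ) := g1
      _ ≤ A2 * ((8 * (H0 : ℝ)) ^ (4 / 3 : ℝ) * (m k / cz) / Q) := by
          refine mul_le_mul_of_nonneg_left (e1.trans ?_) hA2.le
          gcongr
      _ = A2 * (8 * (H0 : ℝ)) ^ (4 / 3 : ℝ) / cz * (m k / Q) := by ring
      _ ≤ a / 2 * Q * (m k / Q) := mul_le_mul_of_nonneg_right hQ (by positivity)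
      _ = a / 2 * m k := by field_simp
  have hylen2 : ∀ t, t ≤ n → ∀ y ∈ YC n t A2, y.length ≤ b := by
    intro t ht y hy
    have g1 := hylen t ht y hy
    have g2 : (y.length : ℝ) ≤ b := by
      have : 0 < a * m k := by positivity
      linarith
    exact_mod_cast g2
  -- the first moment
  have hE1 : ENNReal.ofReal (c5 * (U / m k)) ≤ E1 (PP s n b (K1 * 2 ^ k) A2) := by
    have g1 := e1_low (s := s) (n := n) (b := b) (r := K1 * 2 ^ k) (A := A2) (v := ENNReal.ofReal c2)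
      (w := ENNReal.ofReal (c1 * (U / (2 ^ k * m k)))) (by omega) hb (fun t ht => hY n t hn0 ht) hylen2 (by
        rintro t ht l hl ⟨y, hy, hly⟩
        have f1 := hylen t ht y hy
        have f2 := hylen2 t ht y hy
        have f3 : ((b - y.length : ℕ) : ℝ) = b - y.length := by rw [Nat.cast_sub f2]
        rw [hUd]
        refine hlow k (s - t) l (by
          have : 0 ≤ (Q + 1) * (n0 + 2) := Nat.zero_le _
          omega) (by omega) (by omega) hl ?_ ?_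
        · rw [hly, f3]
          linarith
        · rw [hly, f3]
          have : (0 : ℝ) ≤ y.length := Nat.cast_nonneg _
          linarith)
    refine le_trans ?_ g1
    rw [← ENNReal.ofReal_mul hc2.le]
    have e1 : (n : ℝ≥0∞) = ENNReal.ofReal (n : ℝ) := by rw [ENNReal.ofReal_natCast]
    rw [e1, ← ENNReal.ofReal_mul (by positivity)]
    refine ENNReal.ofReal_le_ofReal ?_
    have e2 : H0 * (2 : ℝ) ^ k / Q ≤ n := by
      have f1 : (n : ℝ) + 1 ≤ 2 * n := by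
        have : (1 : ℝ) ≤ n := by exact_mod_cast hn1
        linarith
      have f2 : 2 * (H0 * (2 : ℝ) ^ k) / Q ≤ 2 * n := by
        refine le_trans ?_ (hnR2.trans f1)
        gcongr
      rw [mul_div_assoc] at f2
      linarith
    calc c5 * (U / m k) = H0 * (2 : ℝ) ^ k / Q * (c2 * (c1 * (U / (2 ^ k * m k)))) := by
          rw [hc5]
          field_simp
      _ ≤ _ := mul_le_mul_of_nonneg_right e2 (by positivity)
  -- the second moment
  have hUn : UU n ≤ 4 * H0 * U := by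
    obtain ⟨j, hj⟩ : ∃ j, 4 * H0 = j + 1 := ⟨4 * H0 - 1, by omega⟩
    have g1 := UU_mul_le j (2 ^ k)
    rw [← hj] at g1
    have g2 : (j : ℝ) + 1 = 4 * H0 := by
      have : ((j + 1 : ℕ) : ℝ) = ((4 * H0 : ℕ) : ℝ) := by rw [hj]
      push_cast at this
      exact this
    rw [g2] at g1
    have g3 : UU n ≤ UU (4 * H0 * 2 ^ k) := UU_mono (by
      have : 4 * H0 * 2 ^ k = 4 * (H0 * 2 ^ k) := by ring
      omega)
    rw [hUd]
    exact g3.trans g1
  have hE3 : E3 (QQ s n b (X k)) ≤ ENNReal.ofReal (B * (U ^ 2 / m k)) := by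
    have g1 := e3_up (s := s) (n := n) (b := b) (X := X k)
      (w := ENNReal.ofReal ((2 * (X k : ℕ) + 1) * (C6 * (U / (4 ^ k * m k))))) (fun h l hh => by
        rw [hUd]
        exact hup k h l (X k) (by omega))
    refine g1.trans ?_
    have e1 : ((n : ℝ≥0∞) + 1) = ENNReal.ofReal ((n : ℝ) + 1) := by
      rw [ENNReal.ofReal_add (by positivity) (by norm_num), ENNReal.ofReal_natCast, ENNReal.ofReal_one]
    rw [e1, ← ENNReal.ofReal_mul (by positivity), ← ENNReal.ofReal_mul (Num2Aux.UU_pos n).le]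
    refine ENNReal.ofReal_le_ofReal ?_
    have e2 : (n : ℝ) + 1 ≤ 8 * H0 * 2 ^ k := by
      have f1 : n + 1 ≤ 8 * (H0 * 2 ^ k) := by omega
      have f2 : ((n + 1 : ℕ) : ℝ) ≤ ((8 * (H0 * 2 ^ k) : ℕ) : ℝ) := by exact_mod_cast f1
      push_cast at f2
      linarith
    have e3 : 2 * ((X k : ℕ) : ℝ) + 1 ≤ 3 * (⌈K1⌉₊ : ℝ) * 2 ^ k := by
      rw [hX]
      push_cast
      have f1 : (1 : ℝ) ≤ 2 ^ k := one_le_pow₀ (by norm_num)
      nlinarith
    have e4 : (4 : ℝ) ^ k = 2 ^ k * 2 ^ k := by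
      rw [← mul_pow]
      norm_num
    calc UU n * (((n : ℝ) + 1) * ((2 * (X k : ℕ) + 1) * (C6 * (U / (4 ^ k * m k)))))
        ≤ 4 * H0 * U * ((8 * H0 * 2 ^ k) * ((3 * (⌈K1⌉₊ : ℝ) * 2 ^ k) * (C6 * (U / (4 ^ k * m k))))) := by
          gcongr
      _ = B * (U ^ 2 / m k) := by
          rw [hB, e4]
          field_simp
  -- the end
  obtain ⟨S, hSd⟩ : ∃ S : Set (List Bool), S = {w | (w ∈ FPs s ∧ hgt w ≤ 2 * s ∧
    (∀ i, i ≤ w.length → |(lat w i : ℝ)| ≤ (K1 + 16 * H0) * 2 ^ k) ∧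
      ∃ x y, w = x ++ y ∧ x ∈ BU ∧ y ∈ BU ∧ s ≤ 2 * hgt x ∧ hgt x < s) ∧ w.length = b} := ⟨_, rfl⟩
  have hSf : gf S ≠ ⊤ := by
    refine ne_top_of_le_ne_top (BrL.BLs_ne_top b) (gf_mono ?_)
    rw [hSd]
    rintro Z ⟨⟨⟨j, g1⟩, -⟩, g2⟩
    exact ⟨⟨j, g1.1⟩, g2⟩
  have hfin := om_num (P := PP s n b (K1 * 2 ^ k) A2) (Q := QQ s n b (X k)) (S := S) (by
      rintro x μ y ⟨t1, ⟨-, ht1⟩, a1, a2, a3, a4⟩ ⟨t2, ⟨-, ht2⟩, b1, b2, b3, b4⟩
      obtain ⟨⟨j1, a5⟩, -⟩ := a3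
      obtain ⟨⟨j2, b5⟩, -⟩ := b3
      have hμ : μ ∈ BU := mid ⟨_, a1⟩ ⟨_, a5.1⟩ ⟨_, b1⟩ ⟨_, b5.1⟩
      have g1 := hgt_app ⟨_, a1⟩ hμ
      rw [hgt_eq a1, hgt_eq b1] at g1
      rw [List.length_append] at a4
      refine ⟨t2, ht2, ?_, ?_, hμ, by omega, ⟨j2, b5⟩, by omega⟩
      · have : s - t2 - hgt μ = s - t1 := by omega
        rw [this]
        exact a1
      · have g2 := a2 x.length le_rfl
        have g3 : ((|latE x| : ℤ) : ℝ) ≤ ((X k : ℕ) : ℝ) := by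
          push_cast
          refine (show |(latE x : ℝ)| ≤ K1 * 2 ^ k from g2).trans ?_
          rw [hX]
          push_cast
          exact mul_le_mul_of_nonneg_right hK1c hP2.le
        exact_mod_cast g3) (by
      rintro x y ⟨t, ⟨ht1, ht⟩, g1, g2, ⟨⟨j, g3⟩, g4, g5, -⟩, g6⟩
      rw [hgt_eq g3.1] at g4
      have e0 : t ≤ s := by omega
      have e1 : y ∈ FC (s - (s - t)) j := by
        have : s - (s - t) = t := by omega
        rw [this]
        exact g3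
      have h9 := FC_cat g1 (by omega) e1
      rw [hSd]
      refine ⟨⟨⟨_, h9⟩, ?_, fun i hi => ?_, x, y, rfl, ⟨_, g1⟩, ⟨_, g3.1⟩, ?_, ?_⟩, ?_⟩
      · rw [hgt_eq h9.1]
        omega
      · have e2 : 4 * (n : ℝ) ≤ 16 * H0 * 2 ^ k := by
          have f1 : n ≤ 4 * (H0 * 2 ^ k) := by omega
          have f2 : (n : ℝ) ≤ ((4 * (H0 * 2 ^ k) : ℕ) : ℝ) := by exact_mod_cast f1
          push_cast at f2
          linarith
        rcases Nat.lt_or_ge x.length i with f1 | f1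
        · obtain ⟨i', rfl⟩ : ∃ i', i = x.length + i' := ⟨i - x.length, by omega⟩
          rw [lat_cat (mem_Brd.1 g1).2.2.1]
          have f2 := g2 x.length le_rfl
          have f3 := g5 i' (by rw [List.length_append] at hi; omega)
          have f4 : (latE x : ℝ) = (lat x x.length : ℝ) := rfl
          push_cast
          rw [f4]
          refine (abs_add_le _ _).trans ?_
          linarith
        · rw [lat_append (by omega)]
          refine (g2 i f1).trans ?_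
          have : 0 ≤ 16 * (H0 : ℝ) * 2 ^ k := by positivity
          linarith
      · rw [hgt_eq g1]
        omega
      · rw [hgt_eq g1]
        omega
      · rw [List.length_append, g6]) hSf (E := c5 * (U / m k)) (B := B * (U ^ 2 / m k)) (by positivity) (by positivity) hE1 hE3
  rw [ENNReal.ofReal_le_iff_le_toReal (by rw [← hSd]; exact hSf), ← hSd]
  refine le_trans (le_of_eq ?_) hfin
  field_simp

/-- **first cut pieces with exactly b letters in a tube** -/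
theorem fpLen_of {m : ℕ → ℝ} (hm : MLow m) (hu : MUp m) (hJ : LowWide m) (hS : SingleB m)
    (hm1 : ∃ c : ℝ, 0 < c ∧ ∀ k : ℕ, c * 2 ^ (4 / 3 * (k : ℝ)) ≤ m k)
    (hZ : ∃ C : ℝ, 0 < C ∧ ∀ N : ℕ, 1 ≤ N → PW.mZ N ≤ C * (N : ℝ) ^ (4 / 3 : ℝ)) :
    ∀ a A : ℝ, 0 < a → a ≤ A → ∃ (H : ℕ) (c K : ℝ) (k0 : ℕ), 1 ≤ H ∧ 0 < c ∧ 1 ≤ K ∧ ∀ k s b : ℕ, k0 ≤ k →
      H * 2 ^ k ≤ s → s ≤ 2 * (H * 2 ^ k) → Even b → a * m k ≤ b → (b : ℝ) ≤ A * m k → ENNReal.ofReal (c / m k) ≤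
        gf {w | w ∈ FPs s ∧ hgt w ≤ 2 * s ∧ (∀ i, i ≤ w.length → |(lat w i : ℝ)| ≤ K * 2 ^ k) ∧ w.length = b} := by
  intro a A ha haA
  obtain ⟨H, c, K, k0, h1, h2, h3, h4⟩ := fpLenV_of hm hu hJ hS hm1 hZ a A ha haA
  exact ⟨H, c, K, k0, h1, h2, h3, fun k s b g1 g2 g3 g4 g5 g6 => (h4 k s b g1 g2 g3 g4 g5 g6).trans
    (gf_mono fun w hw => ⟨hw.1.1, hw.1.2.1, hw.1.2.2.1, hw.2⟩)⟩

end SLW

end HexObs
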