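import Pool.Agent.SLW.Cat
import Pool.Agent.SLW.FpLen
import Pool.Agent.EN.LatC
import Pool.Agent.EXL.Final

/-!
PW, row P1 (helper57): bridges of one scale whose displacement is spread over two dimensions.

* `PC j q`: irreducible bridges of a height in (2 ^ (j - q), 2 * 2 ^ j] in a tube, mass of the order 1 / UU (2 ^ j) (`pc_low`);
* `SO j q`: a bridge with the top below 16 * 2 ^ j, then a piece of `PC` that jumps over 16 * 2 ^ j;
* **`oneP_of`**: `SO` is unique as beginnings, the mass of one displacement is at most C / 4 ^ j, and at least c / 4 ^ j in a box.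
-/

set_option autoImplicit false

namespace HexObs

namespace SLW

open Finset TS SDN NTW NTA PtC RP

open scoped ENNReal

namespace O1

/-! ### 1. Numbers -/

lemma uu_up : ∃ C : ℝ, 0 < C ∧ ∀ k : ℕ, 1 ≤ k → uu k ≤ C * (k : ℝ) ^ (-(1 / 4) : ℝ) := by
  obtain ⟨C, hC, h⟩ := Pool.Agent.EXL.bridge_exponent
  exact ⟨C, hC, fun k hk => (h k hk).2⟩

lemma uu_low : ∃ c : ℝ, 0 < c ∧ ∀ k : ℕ, 1 ≤ k → c * (k : ℝ) ^ (-(1 / 4) : ℝ) ≤ uu k := by
  obtain ⟨C, hC, h⟩ := Pool.Agent.EXL.bridge_exponent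
  refine ⟨1 / C, by positivity, fun k hk => ?_⟩
  have h1 := (h k hk).1
  rw [one_div, inv_mul_eq_div]
  exact h1

/-- the ratio of the weights of a large and a small height -/
lemma ratio : ∃ C : ℝ, 0 < C ∧ ∀ R n : ℕ, 1 ≤ R → R ≤ n → uu n ≤ C * ((R : ℝ) / n) ^ (1 / 4 : ℝ) * uu R := by
  obtain ⟨C, hC, h1⟩ := uu_up
  obtain ⟨c, hc, h2⟩ := uu_low
  refine ⟨C / c, by positivity, fun R n hR hn => ?_⟩
  have hR0 : (0 : ℝ) < R := by exact_mod_cast hR
  have hn0 : (0 : ℝ) < n := lt_of_lt_of_le hR0 (by exact_mod_cast hn)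
  have a1 := h1 n (by omega)
  have a2 := h2 R hR
  have e1 : ((R : ℝ) / n) ^ (1 / 4 : ℝ) = (n : ℝ) ^ (-(1 / 4) : ℝ) / (R : ℝ) ^ (-(1 / 4) : ℝ) := by
    rw [Real.div_rpow hR0.le hn0.le, Real.rpow_neg hn0.le, Real.rpow_neg hR0.le]
    field_simp
  have hp : 0 < (R : ℝ) ^ (-(1 / 4) : ℝ) := by positivity
  rw [e1]
  calc uu n ≤ C * (n : ℝ) ^ (-(1 / 4) : ℝ) := a1
    _ = C / c * ((n : ℝ) ^ (-(1 / 4) : ℝ) / (R : ℝ) ^ (-(1 / 4) : ℝ)) * (c * (R : ℝ) ^ (-(1 / 4) : ℝ)) := by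
        field_simp
    _ ≤ _ := mul_le_mul_of_nonneg_left a2 (by positivity)

/-- the tails of the heights of the irreducible bridges -/
lemma sum_KK (R : ℕ) (hR : 1 ≤ R) : ∑ i ∈ Finset.Icc 1 R, KK' i ≤ 1 / uu R := by
  have h1 := KK_renewal (R - 1)
  have h2 : ∑ y ∈ range (R - 1 + 1), uu y * KK' (R - 1 + 1 - y) = ∑ i ∈ Finset.Icc 1 R, uu (R - i) * KK' i := by
    rw [show R - 1 + 1 = R by omega]
    refine Finset.sum_bij' (fun y _ => R - y) (fun i _ => R - i) ?_ ?_ ?_ ?_ ?_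
    · intro y hy
      rw [Finset.mem_range] at hy
      rw [Finset.mem_Icc]
      omega
    · intro i hi
      rw [Finset.mem_Icc] at hi
      rw [Finset.mem_range]
      omega
    · intro y hy
      rw [Finset.mem_range] at hy
      show R - (R - y) = y
      omega
    · intro i hi
      rw [Finset.mem_Icc] at hi
      show R - (R - i) = i
      omega
    · intro y hy
      rw [Finset.mem_range] at hy
      show _ = uu (R - (R - y)) * _
      rw [show R - (R - y) = y by omega]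
  rw [h2] at h1
  rw [le_div_iff₀ (uu_pos R), mul_comm, mul_sum, ← h1]
  refine Finset.sum_le_sum fun i hi => mul_le_mul_of_nonneg_right (uu_anti (by omega)) (KK_nonneg i)

/-! ### 2. The last pieces -/

/-- irreducible bridges of a height in (2 ^ (j - q), 2 * 2 ^ j], in a tube -/
def PC (j q : ℕ) : Set (List Bool) := {P | ∃ r, 2 ^ (j - q) < r ∧ r ≤ 2 * 2 ^ j ∧ P ∈ Irr r ∧
  ∀ i, i ≤ P.length → |(lat P i : ℝ)| ≤ 8 * 2 ^ j}

/-- the last cut below s -/
lemma last_cut' {s : ℕ} (hs : 1 ≤ s) {w : List Bool} (hw : w ∈ FPs s) :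
    ∃ (c r : ℕ) (x P : List Bool), c < s ∧ s ≤ c + r ∧ x ∈ Brd c ∧ P ∈ Irr r ∧ w = x ++ P := by
  classical
  obtain ⟨j, hj⟩ := hw
  have hcut0 : Cut w 0 := ⟨[], w, j, nil_mem_Brd, hj.1, rfl⟩
  obtain ⟨c, hc⟩ : ∃ c, c = Nat.findGreatest (fun c => Cut w c) (s - 1) := ⟨_, rfl⟩
  have hle : c ≤ s - 1 := by
    rw [hc]
    exact Nat.findGreatest_le _
  have hcut : Cut w c := by
    rw [hc]
    exact Nat.findGreatest_spec (P := fun c => Cut w c) (m := 0) (by omega) hcut0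
  have hmax : ∀ c', c < c' → c' < s → ¬ Cut w c' := by
    intro c' h3 h4 h5
    have := Nat.le_findGreatest (P := fun c => Cut w c) (n := s - 1) (m := c') (by omega) h5
    omega
  obtain ⟨x, P, b, hx, hP, e⟩ := hcut
  have hjb : j = c + b := Brd_height hj.1 (e ▸ Brd_append hx hP)
  have hsj := hj.2.1
  refine ⟨c, b, x, P, by omega, by omega, hx, ⟨hP, ?_, ?_⟩, e⟩
  · rintro rfl
    have := Brd_height hP nil_mem_Brd
    omega
  · intro a' b' s' u' hs' hu' e'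
    by_contra hcon
    rw [not_or] at hcon
    obtain ⟨n1, n2⟩ := hcon
    have ha : a' ≠ 0 := by
      rintro rfl
      rw [Brd_zero] at hs'
      exact n1 hs'
    have hb : b' ≠ 0 := by
      rintro rfl
      rw [Brd_zero] at hu'
      exact n2 hu'
    have hab : b = a' + b' := Brd_height hP (e' ▸ Brd_append hs' hu')
    have hcut' : Cut w (c + a') := ⟨x ++ s', u', b', Brd_append hx hs', hu', by rw [e, e', List.append_assoc]⟩
    rcases Nat.lt_or_ge (c + a') s with h3 | h3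
    · exact hmax (c + a') (by omega) h3 hcut'
    · exact hj.2.2 (c + a') h3 (by omega) hcut'

/-- **mass of the last pieces** -/
theorem pc_low (hZ : ∃ C : ℝ, 0 < C ∧ ∀ N : ℕ, 1 ≤ N → PW.mZ N ≤ C * (N : ℝ) ^ (4 / 3 : ℝ)) :
    ∃ (c : ℝ) (q j0 : ℕ), 0 < c ∧ q ≤ j0 ∧ ∀ j : ℕ, j0 ≤ j → ENNReal.ofReal (c / UU (2 ^ j)) ≤ gf (PC j q) := by
  obtain ⟨c, A, n0, hc, hA, hrest⟩ := FL.rest hZ
  obtain ⟨C, hC, hrat⟩ := ratio
  obtain ⟨q0, hq0⟩ := pow_unbounded_of_one_lt ((4 * C * 2 / c) ^ 4) (show (1 : ℝ) < 2 by norm_num)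
  obtain ⟨q, hq⟩ : ∃ q, q = q0 + 2 := ⟨_, rfl⟩
  refine ⟨c / 2, q, max q n0, by positivity, le_max_left _ _, fun j hj => ?_⟩
  have hjq : q ≤ j := (le_max_left _ _).trans hj
  have hjn : n0 ≤ 2 ^ j := ((le_max_right _ _).trans hj).trans Nat.lt_two_pow_self.le
  obtain ⟨n, hn⟩ : ∃ n : ℕ, n = 2 ^ j := ⟨_, rfl⟩
  obtain ⟨R, hR⟩ : ∃ R : ℕ, R = 2 ^ (j - q) := ⟨_, rfl⟩
  have hR1 : 1 ≤ R := by rw [hR]; exact Nat.one_le_two_pow
  have hRn : R * 2 ^ q = n := by
    rw [hR, hn, ← pow_add, Nat.sub_add_cancel hjq]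
  have hq4 : 4 ≤ 2 ^ q := by
    calc 4 = 2 ^ 2 := by norm_num
      _ ≤ 2 ^ q := Nat.pow_le_pow_right (by norm_num) (by omega)
  have h4R : 4 * R ≤ n := by
    rw [← hRn]
    nlinarith
  have hg := hrest n n (by rw [hn]; exact hjn) le_rfl
  obtain ⟨W1, hW1⟩ : ∃ W1 : Set (List Bool), W1 = {w | ∃ x ∈ {x | ∃ m, m ≤ n ∧ x ∈ Brd m}, ∃ P ∈ PC j q, w = x ++ P} := ⟨_, rfl⟩
  obtain ⟨W2, hW2⟩ : ∃ W2 : ℕ → Set (List Bool), W2 = fun i => {w | ∃ x ∈ Brd (n - i), ∃ P ∈ EN.LB.Tp i, w = x ++ P} := ⟨_, rfl⟩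
  have hcov : FL.YC n n A ⊆ W1 ∪ ⋃ i ∈ Finset.Icc 1 R, W2 i := by
    rintro w ⟨h1, h2, h3, -⟩
    obtain ⟨c0, r, x, P, k1, k2, k3, k4, k5⟩ := last_cut' (by omega) h1
    have hh : hgt w = c0 + r := by
      rw [k5]
      exact hgt_eq (Brd_append k3 k4.1)
    rcases Nat.lt_or_ge R r with hr | hr
    · left
      rw [hW1]
      refine ⟨x, ⟨c0, k1.le, k3⟩, P, ⟨r, by rw [← hR]; exact hr, by rw [← hn]; omega, k4, fun i hi => ?_⟩, k5⟩
      have e1 : lat w (x.length + i) = latE x + lat P i := by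
        rw [k5]
        exact lat_cat (mem_Brd.1 k3).2.2.1 i
      have g1 := h3 (x.length + i) (by rw [k5, List.length_append]; omega)
      have g2 := h3 x.length (by rw [k5, List.length_append]; omega)
      rw [k5, lat_append (by omega)] at g2
      rw [e1] at g1
      push_cast at g1
      have g3 : |(latE x : ℝ)| ≤ 4 * n := g2
      rw [hn] at g1 g3
      push_cast at g1 g3
      rw [abs_le] at g1 g3 ⊢
      constructor <;> linarith [g1.1, g1.2, g3.1, g3.2]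
    · right
      rw [Set.mem_iUnion₂]
      refine ⟨n - c0, Finset.mem_Icc.2 ⟨by omega, by omega⟩, ?_⟩
      rw [hW2]
      refine ⟨x, ?_, P, ⟨r, by omega, k4⟩, k5⟩
      rw [show n - (n - c0) = c0 by omega]
      exact k3
  have hup : gf (FL.YC n n A) ≤ ENNReal.ofReal (UU n) * gf (PC j q) + ENNReal.ofReal (uu (n - R) / uu R) := by
    refine (gf_mono hcov).trans ((gf_union_le _ _).trans (add_le_add ?_ ?_))
    · rw [hW1]
      exact (gf_le_mul fun t ht => ht).trans (mul_le_mul_left (PtC.gf_BU_le n) _)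
    · refine (BAR.gf_bi_le _ _).trans ?_
      have h1 : ∀ i ∈ Finset.Icc 1 R, gf (W2 i) ≤ ENNReal.ofReal (uu (n - R) * KK' i) := by
        intro i hi
        rw [Finset.mem_Icc] at hi
        rw [hW2]
        refine (gf_le_mul fun t ht => ht).trans ?_
        rw [EN.LB.gf_Brd', EN.LB.gf_Tp, ← ENNReal.ofReal_mul (uu_pos _).le]
        exact ENNReal.ofReal_le_ofReal (mul_le_mul_of_nonneg_right (uu_anti (by omega)) (KK_nonneg i))
      refine (Finset.sum_le_sum h1).trans ?_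
      rw [← ENNReal.ofReal_sum_of_nonneg fun i _ => mul_nonneg (uu_pos _).le (KK_nonneg i), ← mul_sum]
      refine ENNReal.ofReal_le_ofReal ?_
      rw [div_eq_mul_one_div]
      exact mul_le_mul_of_nonneg_left (sum_KK R hR1) (uu_pos _).le
  have hsm : uu (n - R) / uu R ≤ c / 2 := by
    rw [div_le_iff₀ (uu_pos R)]
    refine (hrat R (n - R) hR1 (by omega)).trans (mul_le_mul_of_nonneg_right ?_ (uu_pos R).le)
    have hR0 : (0 : ℝ) < R := by exact_mod_cast hR1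
    have h1 : (R : ℝ) / ((n - R : ℕ) : ℝ) ≤ (c / (4 * C * 2)) ^ 4 := by
      have h2 : (3 / 4 : ℝ) * n ≤ ((n - R : ℕ) : ℝ) := by
        rw [Nat.cast_sub (by omega)]
        have : (4 : ℝ) * R ≤ n := by exact_mod_cast h4R
        linarith
      have h3 : (n : ℝ) = R * 2 ^ q := by exact_mod_cast hRn.symm
      have h4 : (4 : ℝ) * 2 ^ q0 = 2 ^ q := by
        rw [hq, pow_add]
        ring
      rw [div_le_iff₀ (by
        have : (0 : ℝ) < n := by rw [h3]; positivity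
        linarith)]
      have h5 : (1 : ℝ) ≤ (c / (4 * C * 2)) ^ 4 * 2 ^ q0 := by
        have h6 : (c / (4 * C * 2)) ^ 4 * (4 * C * 2 / c) ^ 4 = 1 := by
          rw [← mul_pow]
          field_simp
        rw [← h6]
        exact mul_le_mul_of_nonneg_left hq0.le (by positivity)
      have h7 : 0 < (c / (4 * C * 2)) ^ 4 := by positivity
      calc (R : ℝ) = 1 * R := (one_mul _).symm
        _ ≤ ((c / (4 * C * 2)) ^ 4 * 2 ^ q0) * R := mul_le_mul_of_nonneg_right h5 hR0.le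
        _ ≤ (c / (4 * C * 2)) ^ 4 * (3 / 4 * n) := by
            rw [h3, ← h4, mul_assoc]
            refine mul_le_mul_of_nonneg_left ?_ h7.le
            nlinarith [hR0, pow_pos (show (0 : ℝ) < 2 by norm_num) q0]
        _ ≤ _ := mul_le_mul_of_nonneg_left h2 h7.le
    have h8 : ((R : ℝ) / ((n - R : ℕ) : ℝ)) ^ (1 / 4 : ℝ) ≤ c / (4 * C * 2) := by
      have h9 : (c / (4 * C * 2)) = ((c / (4 * C * 2)) ^ 4) ^ (1 / 4 : ℝ) := by
        rw [← Real.rpow_natCast, ← Real.rpow_mul (by positivity)]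
        norm_num
      rw [h9]
      exact Real.rpow_le_rpow (by positivity) h1 (by norm_num)
    calc C * ((R : ℝ) / ((n - R : ℕ) : ℝ)) ^ (1 / 4 : ℝ) ≤ C * (c / (4 * C * 2)) := mul_le_mul_of_nonneg_left h8 hC.le
      _ = c / 8 := by
        field_simp
        norm_num
      _ ≤ c / 2 := by linarith
  rw [← hn]
  have hU : 0 < UU n := Num2Aux.UU_pos _
  have h3 : ENNReal.ofReal c ≤ ENNReal.ofReal (UU n) * gf (PC j q) + ENNReal.ofReal (c / 2) :=
    (hg.trans hup).trans (by gcongr)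
  have hfin : gf (PC j q) ≠ ⊤ := by
    have h4 : PC j q ⊆ EN.LB.Tp 0 := by
      rintro P ⟨r, -, -, h, -⟩
      exact ⟨r, Nat.zero_le _, h⟩
    refine ne_top_of_le_ne_top ?_ (gf_mono h4)
    rw [EN.LB.gf_Tp]
    exact ENNReal.ofReal_ne_top
  obtain ⟨p, hp⟩ : ∃ p, p = (gf (PC j q)).toReal := ⟨_, rfl⟩
  have hp0 : 0 ≤ p := by rw [hp]; exact ENNReal.toReal_nonneg
  have hpe : gf (PC j q) = ENNReal.ofReal p := by
    rw [hp, ENNReal.ofReal_toReal hfin]
  rw [hpe, ← ENNReal.ofReal_mul hU.le, ← ENNReal.ofReal_add (by positivity) (by positivity),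
    ENNReal.ofReal_le_ofReal_iff (by positivity)] at h3
  rw [hpe]
  refine ENNReal.ofReal_le_ofReal ?_
  rw [div_le_iff₀ hU]
  linarith

/-! ### 3. The class -/

/-- lower bound of a product with a dependent factor -/
lemma dep_ge {P A : Set (List Bool)} {Q : List Bool → Set (List Bool)} {c : ℝ≥0∞}
    (h : ∀ a ∈ A, ∀ u ∈ Q a, u ++ a ∈ P)
    (hinj : ∀ a ∈ A, ∀ u ∈ Q a, ∀ a' ∈ A, ∀ u' ∈ Q a', u ++ a = u' ++ a' → a = a' ∧ u = u')
    (hc : ∀ a ∈ A, c ≤ gf (Q a)) : gf A * c ≤ gf P := by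
  calc gf A * c = ∑' a : A, wE a * c := by
        unfold gf
        rw [ENNReal.tsum_mul_right]
    _ ≤ ∑' a : A, wE a * gf (Q a) := ENNReal.tsum_le_tsum fun a => mul_le_mul' le_rfl (hc a a.2)
    _ = ∑' a : A, ∑' u : Q a, wE a * wE u := by
        refine tsum_congr fun a => ?_
        unfold gf
        rw [ENNReal.tsum_mul_left]
    _ = ∑' p : (Σ a : A, Q (a : List Bool)), wE (p.1 : List Bool) * wE (p.2 : List Bool) :=
        (ENNReal.tsum_sigma (fun (a : A) (u : Q (a : List Bool)) => wE (a : List Bool) * wE (u : List Bool))).symm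
    _ ≤ gf P := by
        let φ : (Σ a : A, Q (a : List Bool)) → P := fun p => ⟨(p.2 : List Bool) ++ (p.1 : List Bool),
          h p.1 p.1.2 p.2 p.2.2⟩
        have hφ : Function.Injective φ := by
          rintro ⟨⟨a, ha⟩, ⟨u, hu⟩⟩ ⟨⟨a', ha'⟩, ⟨u', hu'⟩⟩ hp
          have h1 := congrArg Subtype.val hp
          simp only [φ] at h1
          obtain ⟨rfl, rfl⟩ := hinj a ha u hu a' ha' u' hu' h1
          rfl
        have e : ∀ p : (Σ a : A, Q (a : List Bool)), wE (p.1 : List Bool) * wE (p.2 : List Bool) = wE (φ p : List Bool) := by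
          intro p
          simp only [φ]
          rw [wE_append, mul_comm]
        calc _ = ∑' p : (Σ a : A, Q (a : List Bool)), wE (φ p : List Bool) := tsum_congr e
          _ ≤ gf P := ENNReal.tsum_comp_le_tsum_of_injective hφ (fun t : P => wE (t : List Bool))

/-- a bridge with the top in [8 n, 16 n), then a piece of PC that jumps over 16 n; n = 2 ^ j -/
def SO (j q : ℕ) : Set (List Bool) := {V | ∃ (h r : ℕ) (X P : List Bool), X ∈ Brd h ∧ 8 * 2 ^ j ≤ h ∧ h < 16 * 2 ^ j ∧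
  (∀ i, i ≤ X.length → |(lat X i : ℝ)| ≤ 26 * 2 ^ j) ∧ P ∈ PC j q ∧ P ∈ Irr r ∧ 16 * 2 ^ j ≤ h + r ∧ V = X ++ P}

lemma irr_mono {r r' : ℕ} {P : List Bool} (h : P ∈ Irr r) (h' : P ∈ Irr r') : r = r' := Brd_height h.1 h'.1

lemma SO_fps {j q : ℕ} : SO j q ⊆ FPs (16 * 2 ^ j) := by
  rintro V ⟨h, r, X, P, k1, k2, k3, k4, k5, k6, k7, rfl⟩
  refine ⟨h + r, Brd_append k1 k6.1, k7, ?_⟩
  rintro c hc1 hc2 ⟨s', u', b', hs', hu', e⟩
  obtain ⟨v, hv, e1, e2⟩ := FCaux.nested k1 hs' k6.1 hu' (by omega) e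
  rcases k6.2.2 _ _ _ _ hv hu' e2 with h0 | h0
  · rw [h0] at hv
    have := Brd_height hv nil_mem_Brd
    omega
  · rw [h0, List.append_nil] at e2
    have := Brd_height k6.1 (e2 ▸ hv)
    omega

lemma SO_BU {j q : ℕ} : SO j q ⊆ BU := by
  rintro V ⟨h, r, X, P, k1, k2, k3, k4, k5, k6, k7, rfl⟩
  exact ⟨h + r, Brd_append k1 k6.1⟩

lemma SO_uq {j q : ℕ} : Cat.Uq (SO j q) := Cat.uq_fps SO_fps

lemma SO_zs {j q : ℕ} : Cat.Zs (SO j q) (128 * 2 ^ j) := by
  rintro V hV i hi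
  obtain ⟨h, r, X, P, k1, k2, k3, k4, k5, k6, k7, rfl⟩ := hV
  have hB := Brd_append k1 k6.1
  obtain ⟨r', l1, l2, l3, l4⟩ := k5
  have hr := irr_mono k6 l3
  subst hr
  have h1 := Cat.hn_lat (X ++ P) i
  have h2 : |lev (X ++ P) i| ≤ 3 * (h + r : ℕ) := by
    rcases Nat.eq_zero_or_pos i with h0 | h0
    · rw [h0, lev_zero, abs_zero]
      positivity
    · obtain ⟨h3, h4⟩ := (mem_Brd.1 hB).1 i h0 hi
      rw [abs_of_pos h3]
      exact h4
  have h3 : |(lat (X ++ P) i : ℝ)| ≤ 34 * 2 ^ j := by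
    have hp : (0 : ℝ) < 2 ^ j := by positivity
    rcases Nat.lt_or_ge X.length i with h5 | h5
    · obtain ⟨i', rfl⟩ : ∃ i', i = X.length + i' := ⟨i - X.length, by omega⟩
      rw [List.length_append] at hi
      rw [lat_cat (mem_Brd.1 k1).2.2.1]
      push_cast
      have g1 := k4 X.length le_rfl
      have g2 := l4 i' (by omega)
      have g3 : (latE X : ℝ) = lat X X.length := rfl
      rw [g3]
      rw [abs_le] at g1 g2 ⊢
      constructor <;> linarith [g1.1, g1.2, g2.1, g2.2]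
    · rw [lat_append (by omega)]
      have := k4 i h5
      linarith
  have h4 : (|lat (X ++ P) i| : ℝ) ≤ 34 * 2 ^ j := h3
  have h5 : |lat (X ++ P) i| ≤ 34 * 2 ^ j := by exact_mod_cast h4
  have h6 : ((h + r : ℕ) : ℤ) ≤ 18 * 2 ^ j := by
    have : h + r ≤ 18 * 2 ^ j := by omega
    exact_mod_cast this
  have hp : (0 : ℤ) < 2 ^ j := by positivity
  linarith

/-- **upper bound of the mass of one displacement** -/
theorem SO_up (q : ℕ) : ∃ C : ℝ, 0 < C ∧ ∀ (j : ℕ) (x : ℤ) (t : ℕ), q ≤ j →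
    gf {V | V ∈ SO j q ∧ latE V = x ∧ hgt V = t} ≤ ENNReal.ofReal (C / 4 ^ j) := by
  obtain ⟨C, hC, hanti⟩ := anti_end
  refine ⟨2 ^ q * C, by positivity, fun j x t hjq => ?_⟩
  obtain ⟨n, hn⟩ : ∃ n : ℕ, n = 2 ^ j := ⟨_, rfl⟩
  have hn1 : 1 ≤ n := by rw [hn]; exact Nat.one_le_two_pow
  have hn0 : (0 : ℝ) < n := by exact_mod_cast hn1
  obtain ⟨R, hR⟩ : ∃ R : ℕ, R = 2 ^ (j - q) := ⟨_, rfl⟩
  have h1 : gf {V | V ∈ SO j q ∧ latE V = x ∧ hgt V = t} ≤ gf (PC j q) * ENNReal.ofReal (C * (uu n / n)) := by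
    refine EN.LB.gf_dep' (Q := fun P => {X | X ∈ Brd (t - hgt P) ∧ latE X = x - latE P ∧ 8 * 2 ^ j ≤ t - hgt P}) ?_ ?_
    · rintro V ⟨⟨h, r, X, P, k1, k2, k3, k4, k5, k6, k7, rfl⟩, hx, ht⟩
      have e1 : hgt (X ++ P) = h + r := hgt_eq (Brd_append k1 k6.1)
      have e2 : hgt P = r := hgt_eq k6.1
      have e3 : t - hgt P = h := by omega
      have e4 : latE (X ++ P) = latE X + latE P := by
        have := lat_cat (t := P) (mem_Brd.1 k1).2.2.1 P.length
        rw [← List.length_append] at this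
        exact this
      refine ⟨P, k5, X, ⟨?_, ?_, ?_⟩, rfl⟩
      · rw [e3]
        exact k1
      · linarith
      · rw [e3]
        exact k2
    · intro P _
      by_cases h8 : 8 * 2 ^ j ≤ t - hgt P
      · have hsub : {X | X ∈ Brd (t - hgt P) ∧ latE X = x - latE P ∧ 8 * 2 ^ j ≤ t - hgt P} ⊆
            {X | X ∈ Brd (t - hgt P) ∧ latE X = x - latE P} := fun X hX => ⟨hX.1, hX.2.1⟩
        refine (gf_mono hsub).trans ((hanti (t - hgt P) (by
          have := Nat.one_le_two_pow (n := j)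
          omega) _).trans (ENNReal.ofReal_le_ofReal ?_))
        refine mul_le_mul_of_nonneg_left ?_ hC.le
        have h9 : n ≤ t - hgt P := by omega
        exact div_le_div₀ (uu_pos n).le (uu_anti h9) hn0 (by exact_mod_cast h9)
      · have h10 : {X | X ∈ Brd (t - hgt P) ∧ latE X = x - latE P ∧ 8 * 2 ^ j ≤ t - hgt P} = ∅ := by
          rw [Set.eq_empty_iff_forall_notMem]
          rintro X ⟨-, -, h11⟩
          exact h8 h11
        rw [h10]
        unfold gf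
        simp
  refine h1.trans ?_
  have h2 : gf (PC j q) ≤ ENNReal.ofReal (KK' (R + 1)) := by
    rw [← EN.LB.gf_Tp]
    refine gf_mono ?_
    rintro P ⟨r, g1, g2, g3, g4⟩
    exact ⟨r, by omega, g3⟩
  refine (mul_le_mul_left h2 _).trans ?_
  rw [← ENNReal.ofReal_mul (KK_nonneg _)]
  refine ENNReal.ofReal_le_ofReal ?_
  have hUR : 0 < UU R := Num2Aux.UU_pos _
  have h3 : KK' (R + 1) ≤ 1 / UU R := by
    rw [le_div_iff₀ hUR, mul_comm]
    exact UU_mul_KK R
  have h4 : ∀ (R i : ℕ), UU (R * 2 ^ i) ≤ 2 ^ i * UU R := by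
    intro R i
    induction i with
    | zero => simp
    | succ i ih =>
      rw [pow_succ, ← mul_assoc, mul_comm (R * 2 ^ i) 2]
      refine (UU_double _).trans ?_
      rw [pow_succ]
      linarith
  have h5 : UU n ≤ 2 ^ q * UU R := by
    have h6 := h4 R q
    rw [hR, ← pow_add, Nat.sub_add_cancel hjq, ← hn] at h6
    rw [hR]
    exact h6
  have h7 := Num2Aux.mul_le_UU n
  have hun := uu_pos n
  have h8 : (1 : ℝ) / UU R ≤ 2 ^ q / (n * uu n) := by
    rw [div_le_div_iff₀ hUR (by positivity)]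
    linarith
  have e4 : (4 : ℝ) ^ j = n * n := by
    rw [hn]
    push_cast
    rw [← mul_pow]
    norm_num
  calc KK' (R + 1) * (C * (uu n / n)) ≤ (2 ^ q / (n * uu n)) * (C * (uu n / n)) :=
        mul_le_mul_of_nonneg_right (h3.trans h8) (by positivity)
    _ = 2 ^ q * C / 4 ^ j := by
        rw [e4]
        field_simp

/-- **lower bound of the mass of one displacement** -/
theorem SO_low (hZ : ∃ C : ℝ, 0 < C ∧ ∀ N : ℕ, 1 ≤ N → PW.mZ N ≤ C * (N : ℝ) ^ (4 / 3 : ℝ)) :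
    ∃ (c : ℝ) (q j0 : ℕ), 0 < c ∧ q ≤ j0 ∧ ∀ (j : ℕ) (x : ℤ) (t : ℕ), j0 ≤ j → 16 * 2 ^ j ≤ t →
      t < 16 * 2 ^ j + 2 ^ (j - q) → |x| ≤ 2 ^ j → Even (x - t) →
      ENNReal.ofReal (c / 4 ^ j) ≤ gf {V | V ∈ SO j q ∧ latE V = x ∧ hgt V = t} := by
  obtain ⟨c1, q, j1, hc1, hq1, hpc⟩ := pc_low hZ
  obtain ⟨c2, t0, hc2, hloc⟩ := localTube 1 (η := 1) one_pos
  have hCW := Num2Aux.CW_pos
  refine ⟨c1 / (17 * (6 + CW)) * c2 / (17 * (2 * (6 + CW)) ^ 5), q, max j1 t0, by positivity, hq1.trans (le_max_left _ _),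
    fun j x t hj ht1 ht2 hx hev => ?_⟩
  have hj1 : j1 ≤ j := (le_max_left _ _).trans hj
  have hjt : t0 ≤ 2 ^ j := ((le_max_right _ _).trans hj).trans Nat.lt_two_pow_self.le
  obtain ⟨n, hn⟩ : ∃ n : ℕ, n = 2 ^ j := ⟨_, rfl⟩
  rw [← hn] at ht1 ht2 hjt
  have hn1 : 1 ≤ n := by rw [hn]; exact Nat.one_le_two_pow
  have hn0 : (0 : ℝ) < n := by exact_mod_cast hn1
  have hRn : 2 ^ (j - q) ≤ n := by
    rw [hn]
    exact Nat.pow_le_pow_right (by norm_num) (Nat.sub_le _ _)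
  have hg := hpc j hj1
  rw [← hn] at hg
  obtain ⟨Q, hQ⟩ : ∃ Q : List Bool → Set (List Bool), Q = fun P => {X | X ∈ EndB (t - hgt P) (x - latE P) ∧
    ∀ i, i ≤ X.length → |(lat X i : ℝ)| ≤ 26 * 2 ^ j} := ⟨_, rfl⟩
  have hU : 0 < UU n := Num2Aux.UU_pos _
  have hu0 := uu_pos (17 * n)
  have hcQ : ∀ P ∈ PC j q, ENNReal.ofReal (c2 * (uu (17 * n) / (17 * n))) ≤ gf (Q P) := by
    rintro P ⟨r, l1, l2, l3, l4⟩
    have e2 : hgt P = r := hgt_eq l3.1
    rw [← hn] at l2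
    have hlE : |(latE P : ℝ)| ≤ 8 * n := by
      have := l4 P.length le_rfl
      rw [hn]
      push_cast
      exact this
    have hlZ : |latE P| ≤ 8 * (n : ℤ) := by exact_mod_cast hlE
    have hxZ : |x| ≤ (n : ℤ) := by rw [hn]; push_cast; exact hx
    have htr : 14 * n ≤ t - r := by omega
    have htr2 : t - r ≤ 17 * n := by omega
    have h9 : |x - latE P| ≤ 9 * (n : ℤ) := by
      rw [abs_le] at hlZ hxZ ⊢
      constructor <;> linarith [hlZ.1, hlZ.2, hxZ.1, hxZ.2]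
    have hlev := hloc (t - r) (x - latE P) (by omega) (by
      have p1 := latE_even l3.1
      have p2 : ((t - r : ℕ) : ℤ) = (t : ℤ) - r := by
        rw [Nat.cast_sub (by omega)]
      rw [p2]
      have : x - latE P - ((t : ℤ) - r) = (x - t) - (latE P - r) := by ring
      rw [this]
      exact hev.sub p1) (by
      refine h9.trans ?_
      have : (14 : ℤ) * n ≤ ((t - r : ℕ) : ℤ) := by exact_mod_cast htr
      push_cast
      linarith)
    refine le_trans (ENNReal.ofReal_le_ofReal ?_) (hlev.trans (gf_mono ?_))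
    · refine mul_le_mul_of_nonneg_left ?_ hc2.le
      have p3 : (0 : ℝ) < ((t - r : ℕ) : ℝ) := by
        have : 0 < t - r := by omega
        exact_mod_cast this
      refine div_le_div₀ (uu_pos _).le (uu_anti htr2) p3 ?_
      exact_mod_cast htr2
    · rintro X ⟨m1, m2⟩
      rw [hQ]
      refine ⟨by rw [e2]; exact m1, fun i hi => ?_⟩
      have m3 := m2 i hi
      have p4 : (((x - latE P : ℤ)) : ℝ) ≤ 9 * n ∧ -(9 * n) ≤ (((x - latE P : ℤ)) : ℝ) := by
        rw [abs_le] at h9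
        constructor
        · exact_mod_cast h9.2
        · exact_mod_cast h9.1
      have p5 : ((t - r : ℕ) : ℝ) ≤ 17 * n := by exact_mod_cast htr2
      have p6 : ((min 0 (x - latE P) : ℤ) : ℝ) ≥ -(9 * n) := by
        rcases min_choice (0 : ℤ) (x - latE P) with h | h
        · rw [h]
          push_cast
          linarith
        · rw [h]
          exact p4.2
      have p7 : ((max 0 (x - latE P) : ℤ) : ℝ) ≤ 9 * n := by
        rcases max_choice (0 : ℤ) (x - latE P) with h | h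
        · rw [h]
          push_cast
          linarith
        · rw [h]
          exact p4.1
      have p8 : (2 : ℝ) ^ j = n := by rw [hn]; push_cast; rfl
      rw [p8, abs_le]
      constructor
      · linarith [m3.1]
      · linarith [m3.2]
  have hprod : gf (PC j q) * ENNReal.ofReal (c2 * (uu (17 * n) / (17 * n))) ≤ gf {V | V ∈ SO j q ∧ latE V = x ∧ hgt V = t} := by
    refine dep_ge (Q := Q) ?_ ?_ hcQ
    · intro P hP X hX
      rw [hQ] at hX
      obtain ⟨⟨m1, m2⟩, m3⟩ := hX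
      obtain ⟨r, l1, l2, l3, l4⟩ := hP
      have e2 : hgt P = r := hgt_eq l3.1
      rw [e2] at m1
      rw [← hn] at l2
      have e5 : t - r + r = t := by omega
      refine ⟨⟨t - r, r, X, P, m1, by rw [← hn]; omega, by rw [← hn]; omega, m3, ⟨r, l1, by rw [← hn]; exact l2, l3, l4⟩, l3, by
        rw [← hn]; omega, rfl⟩, ?_, ?_⟩
      · have := lat_cat (t := P) (mem_Brd.1 m1).2.2.1 P.length
        rw [← List.length_append] at this
        have e4 : latE (X ++ P) = latE X + latE P := this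
        rw [e4, m2]
        ring
      · have := hgt_eq (Brd_append m1 l3.1)
        rw [this, e5]
    · rintro P ⟨r, l1, l2, l3, l4⟩ X hX P' ⟨r', l1', l2', l3', l4'⟩ X' hX' e
      rw [hQ] at hX hX'
      have b1 := hX.1.1
      have b2 := hX'.1.1
      rw [hgt_eq l3.1] at b1
      rw [hgt_eq l3'.1] at b2
      have key : ∀ (a a' r r' : ℕ) (X X' P P' : List Bool), X ∈ Brd a → X' ∈ Brd a' → P ∈ Irr r → P' ∈ Irr r' → a ≤ a' →
          X ++ P = X' ++ P' → P = P' ∧ X = X' := by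
        intro a a' r r' X X' P P' g1 g2 g3 g4 hle he
        obtain ⟨v, hv, e1, e2⟩ := FCaux.nested g1 g2 g3.1 g4.1 hle he
        rcases g3.2.2 _ _ _ _ hv g4.1 e2 with h0 | h0
        · rw [h0, List.nil_append] at e2
          rw [h0, List.append_nil] at e1
          exact ⟨e2, e1.symm⟩
        · exact absurd h0 g4.2.1
      rcases Nat.le_total (t - r) (t - r') with hle | hle
      · exact key _ _ _ _ X X' P P' b1 b2 l3 l3' hle e
      · obtain ⟨e1, e2⟩ := key _ _ _ _ X' X P' P b2 b1 l3' l3 hle e.symm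
        exact ⟨e1.symm, e2.symm⟩
  refine le_trans ?_ ((mul_le_mul_left hg _).trans hprod)
  rw [← ENNReal.ofReal_mul (by positivity)]
  refine ENNReal.ofReal_le_ofReal ?_
  -- numbers
  have hd : ∀ m : ℕ, 1 ≤ m → uu m ≤ 2 * (6 + CW) * uu (2 * m) := fun m hm => uu_double hm
  have h1 : uu n ≤ (2 * (6 + CW)) ^ 5 * uu (17 * n) := by
    have a1 := hd n hn1
    have a2 := hd (2 * n) (by omega)
    have a3 := hd (2 * (2 * n)) (by omega)
    have a4 := hd (2 * (2 * (2 * n))) (by omega)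
    have a5 := hd (2 * (2 * (2 * (2 * n)))) (by omega)
    have a6 : uu (2 * (2 * (2 * (2 * (2 * n))))) ≤ uu (17 * n) := uu_anti (by omega)
    obtain ⟨K, hK⟩ : ∃ K, K = 2 * (6 + CW) := ⟨_, rfl⟩
    have hK0 : 0 < K := by rw [hK]; positivity
    rw [← hK] at a1 a2 a3 a4 a5 ⊢
    calc uu n ≤ K * uu (2 * n) := a1
      _ ≤ K * (K * uu (2 * (2 * n))) := mul_le_mul_of_nonneg_left a2 hK0.le
      _ ≤ K * (K * (K * uu (2 * (2 * (2 * n))))) := by gcongr
      _ ≤ K * (K * (K * (K * uu (2 * (2 * (2 * (2 * n))))))) := by gcongr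
      _ ≤ K * (K * (K * (K * (K * uu (2 * (2 * (2 * (2 * (2 * n))))))))) := by gcongr
      _ ≤ K * (K * (K * (K * (K * uu (17 * n))))) := by gcongr
      _ = K ^ 5 * uu (17 * n) := by ring
  have h2 := UU_le_mul hn1
  have e4 : (4 : ℝ) ^ j = n * n := by
    rw [hn]
    push_cast
    rw [← mul_pow]
    norm_num
  have h3 : 1 / ((6 + CW) * (n * uu n)) ≤ 1 / UU n := one_div_le_one_div_of_le hU h2
  have hun := uu_pos n
  obtain ⟨K, hK⟩ : ∃ K, K = (2 * (6 + CW)) ^ 5 := ⟨_, rfl⟩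
  have hK0 : 0 < K := by rw [hK]; positivity
  rw [← hK] at h1 ⊢
  have h4 : uu n / K ≤ uu (17 * n) := by
    rw [div_le_iff₀ hK0, mul_comm]
    exact h1
  calc c1 / (17 * (6 + CW)) * c2 / (17 * K) / 4 ^ j ≤ c1 * (1 / ((6 + CW) * (n * uu n))) * (c2 * (uu n / K / (17 * n))) := by
        rw [e4]
        have e5 : c1 * (1 / ((6 + CW) * (n * uu n))) * (c2 * (uu n / K / (17 * n))) = c1 * c2 / (17 * (6 + CW) * K * (n * n)) := by
          field_simp
        rw [e5, div_div, div_mul_eq_mul_div, div_div]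
        apply div_le_div_of_nonneg_left (by positivity) (by positivity)
        have : 0 < (n : ℝ) * n := by positivity
        have : 0 < (6 + CW) * K * (n * n) := by positivity
        nlinarith
    _ ≤ c1 * (1 / UU n) * (c2 * (uu (17 * n) / (17 * n))) := by gcongr
    _ = c1 / UU n * (c2 * (uu (17 * n) / (17 * n))) := by ring

/-- **P1, one scale** -/
theorem oneP_of (hZ : ∃ C : ℝ, 0 < C ∧ ∀ N : ℕ, 1 ≤ N → PW.mZ N ≤ C * (N : ℝ) ^ (4 / 3 : ℝ)) :
    ∃ (c C : ℝ) (q D j0 : ℕ) (S : ℕ → Set (List Bool)), 0 < c ∧ q ≤ j0 ∧ ∀ j : ℕ, j0 ≤ j →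
      S j ⊆ BU ∧ Cat.Uq (S j) ∧ Cat.Zs (S j) (D * 2 ^ j) ∧ gf (S j) ≤ 1 ∧
      (∀ (x : ℤ) (t : ℕ), gf {V | V ∈ S j ∧ latE V = x ∧ hgt V = t} ≤ ENNReal.ofReal (C / 4 ^ j)) ∧
      ∀ (x : ℤ) (t : ℕ), 16 * 2 ^ j ≤ t → t < 16 * 2 ^ j + 2 ^ (j - q) → 2 ^ q * |x| ≤ 2 ^ j → Even (x - t) →
        ENNReal.ofReal (c / 4 ^ j) ≤ gf {V | V ∈ S j ∧ latE V = x ∧ hgt V = t} := by
  obtain ⟨c, q, j0, hc, hq, hlow⟩ := SO_low hZ
  obtain ⟨C, hC, hup⟩ := SO_up q
  refine ⟨c, C, q, 128, j0, fun j => SO j q, hc, hq, fun j hj => ⟨SO_BU, SO_uq, ?_, ?_, fun x t => hup j x t (hq.trans hj),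
    fun x t h1 h2 h3 h4 => hlow j x t hj h1 h2 ?_ h4⟩⟩
  · have := SO_zs (j := j) (q := q)
    push_cast
    exact this
  · exact (gf_mono SO_fps).trans (FL.fps_le _)
  · have h5 : |x| ≤ 2 ^ q * |x| := le_mul_of_one_le_left (abs_nonneg x) (one_le_pow₀ (by norm_num))
    exact h5.trans h3

end O1

end SLW

end HexObs
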