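import Pool.Agent.JNT.NarM
import Pool.Agent.SLW.OneP

/-!
PW, row P1 (helper57): bridges of one scale whose displacement is spread over two dimensions, no hypothesis.
-/

set_option autoImplicit false

namespace HexObs

namespace SLW

open Finset TS SDN NTW NTA PtC RP JNT

open scoped ENNReal

/-- **P1, one scale**, no hypothesis -/
theorem oneP : ∃ (c C : ℝ) (q D j0 : ℕ) (S : ℕ → Set (List Bool)), 0 < c ∧ q ≤ j0 ∧ ∀ j : ℕ, j0 ≤ j →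
    S j ⊆ BU ∧ Cat.Uq (S j) ∧ Cat.Zs (S j) (D * 2 ^ j) ∧ gf (S j) ≤ 1 ∧
    (∀ (x : ℤ) (t : ℕ), gf {V | V ∈ S j ∧ latE V = x ∧ hgt V = t} ≤ ENNReal.ofReal (C / 4 ^ j)) ∧
    ∀ (x : ℤ) (t : ℕ), 16 * 2 ^ j ≤ t → t < 16 * 2 ^ j + 2 ^ (j - q) → 2 ^ q * |x| ≤ 2 ^ j → Even (x - t) →
      ENNReal.ofReal (c / 4 ^ j) ≤ gf {V | V ∈ S j ∧ latE V = x ∧ hgt V = t} :=
  O1.oneP_of zUp_M

end SLW

end HexObs
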