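import Pool.Agent.SLW.OscS
import Pool.Agent.SLW.LevelD
import Pool.Agent.SLW.TeleW
import Pool.Agent.SLW.SmallS

/-!
# SLOW: the oscillation of the cutoff of the farther levels (helper92; literals of helper45)

* **`oscG`** : `OscF` for the cutoff of the levels above, from `oscS`;
* **`EL_thG`** : its error term against the number of the decompositions of the levels above;
* `OG.N1_le_NQ`, `OG.gc_dist`; **`OG.qL_mass`** : the weighted mass, from the second moments.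
-/

set_option autoImplicit false
set_option linter.unusedVariables false

namespace HexObs

namespace SLW

open Finset TS SDN TIW

namespace OG

open TW

lemma Ub_pos (l : ℕ) : 0 < Ub l := Num2Aux.UU_pos _

lemma NQ_nonneg (l : ℕ) (Ch : Set (List Bool)) (t : List Bool) : 0 ≤ NQ l Ch t := Nat.cast_nonneg _

lemma N1_nonneg (l : ℕ) (Ch : Set (List Bool)) (t : List Bool) : 0 ≤ N1 l Ch t := by
  classical
  unfold N1 NT
  exact sum_nonneg fun p _ => mul_nonneg (chi_nonneg _ _) zero_le_one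

lemma N1_le_NQ (l : ℕ) (Ch : Set (List Bool)) (t : List Bool) : N1 l Ch t ≤ NQ l Ch t := by
  classical
  unfold N1 NT NQ
  have h := sum_le_card_nsmul (((range (t.length + 1)) ×ˢ (range (t.length + 1))).filter (fun p => Dc l Ch t p.1 p.2))
    (fun p => chi (2 ^ l) (t.drop p.2) * (fun _ => (1 : ℝ)) (t.take p.1)) 1 fun p _ => by
      show chi (2 ^ l) (t.drop p.2) * 1 ≤ 1
      rw [mul_one]
      exact chi_le _ _
  rwa [nsmul_eq_mul, mul_one] at h

lemma gc_dist {c : ℝ} (hc : 0 < c) (x y : ℝ) : |gc c x - gc c y| ≤ |x - y| / c := by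
  have key : ∀ x y : ℝ, x ≤ y → |gc c x - gc c y| ≤ |x - y| / c := by
    intro x y h
    have h1 := gc_anti hc h
    have h2 := gc_lip hc h
    rw [abs_of_nonneg (by linarith : 0 ≤ gc c x - gc c y), abs_sub_comm x y, abs_of_nonneg (by linarith : 0 ≤ y - x)]
    linarith
  rcases le_total x y with h | h
  · exact key x y h
  · rw [abs_sub_comm, abs_sub_comm x y]
    exact key y x h

lemma WL_nonneg (Ch : Set (List Bool)) (B : ℕ) : 0 ≤ WL' Ch B :=
  sum_nonneg fun b _ => mul_nonneg (Nat.cast_nonneg _) (pow_nonneg xc_pos.le _)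

lemma den_nonneg (M : ℕ) (Ch : Set (List Bool)) (B l : ℕ) : 0 ≤ (M : ℝ) * (WL' Ch B * Ub l) :=
  mul_nonneg (Nat.cast_nonneg _) (mul_nonneg (WL_nonneg _ _) (Ub_pos _).le)

lemma qL_nonneg (lb s M : ℕ) (Ch : ℕ → Set (List Bool)) (B : ℕ → ℕ) (i : ℕ) (t : List Bool) :
    0 ≤ qL lb s M Ch B i t := div_nonneg (NQ_nonneg _ _ _) (den_nonneg _ _ _ _)

lemma aL_nonneg (lb s M : ℕ) (Ch : ℕ → Set (List Bool)) (B : ℕ → ℕ) (i : ℕ) (t : List Bool) :
    0 ≤ aL lb s M Ch B i t := div_nonneg (N1_nonneg _ _ _) (den_nonneg _ _ _ _)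

lemma aL_le_qL (lb s M : ℕ) (Ch : ℕ → Set (List Bool)) (B : ℕ → ℕ) (i : ℕ) (t : List Bool) :
    aL lb s M Ch B i t ≤ qL lb s M Ch B i t := div_le_div_of_nonneg_right (N1_le_NQ _ _ _) (den_nonneg _ _ _ _)

/-- the scales -/
lemma scale {lb s i j : ℕ} (hs : 8 ≤ s) (hij : i + 1 ≤ j) : lb + i * s + s ≤ lb + j * s ∧
    128 * (2 * 2 ^ (lb + i * s)) ≤ 2 ^ (lb + j * s) := by
  have hlj : lb + i * s + s ≤ lb + j * s := by
    have h1 : (i + 1) * s ≤ j * s := Nat.mul_le_mul_right s hij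
    have h2 : (i + 1) * s = i * s + s := by ring
    omega
  refine ⟨hlj, ?_⟩
  have h1 : 2 ^ (lb + i * s + 8) ≤ 2 ^ (lb + j * s) := Nat.pow_le_pow_right (by norm_num) (by omega)
  have h2 : 2 ^ (lb + i * s + 8) = 128 * (2 * 2 ^ (lb + i * s)) := by
    rw [pow_add]
    ring
  omega

/-- one level above -/
lemma osc_one {lb s M i j : ℕ} {a w : ℝ} {Ch : ℕ → Set (List Bool)} {B : ℕ → ℕ} (hF : ChF lb s M a w Ch B) (hs : 8 ≤ s)
    (hij : i + 1 ≤ j) (hj : j < M) {A Y : List Bool} (hA : A ++ Y ∈ SA)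
    (hY : ∀ i', i' ≤ Y.length → hn (vx oo up Y i') < 2 * 2 ^ (lb + i * s)) :
    |N1 (lb + j * s) (Ch j) (A ++ Y) - N1 (lb + j * s) (Ch j) A| ≤ 64 / 2 ^ s * NI (lb + j * s) (Ch j) A ∧
      NI (lb + j * s) (Ch j) A ≤ NQ (lb + j * s) (Ch j) (A ++ Y) := by
  obtain ⟨hlj, hp⟩ := scale (lb := lb) hs hij
  obtain ⟨o1, o2⟩ := oscS (lb + j * s) (2 * 2 ^ (lb + i * s)) (Ch j) A Y (hF.chn j hj) hp (by
    have := Nat.one_le_two_pow (n := lb + i * s)
    omega) hA (by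
    intro i' hi'
    push_cast
    exact hY i' hi')
  refine ⟨o1.trans ?_, o2⟩
  have h3 : 0 ≤ NI (lb + j * s) (Ch j) A := Nat.cast_nonneg _
  refine mul_le_mul_of_nonneg_right ?_ h3
  have h1 : (2 : ℝ) ^ (lb + i * s + s) ≤ 2 ^ (lb + j * s) := pow_le_pow_right₀ (by norm_num) hlj
  rw [div_le_div_iff₀ (by positivity) (by positivity)]
  push_cast
  calc 32 * (2 * (2 : ℝ) ^ (lb + i * s)) * 2 ^ s = 64 * 2 ^ (lb + i * s + s) := by
        rw [pow_add _ (lb + i * s) s]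
        ring
    _ ≤ 64 * 2 ^ (lb + j * s) := mul_le_mul_of_nonneg_left h1 (by norm_num)

/-- **the weighted mass of the oscillation**: `K` = the constant of the second moments -/
theorem qL_mass {a c w K m0 : ℝ} {lb s M i n : ℕ} {Ch : ℕ → Set (List Bool)} {B : ℕ → ℕ}
    (hF : ChF lb s M a w Ch B) (hc : 0 < c) (hw : 0 < w) (hM : 1 ≤ M) (hi : i < M)
    (h2 : ∀ j, j < M → ∑ t ∈ sawF n, xc ^ n * NQ (lb + j * s) (Ch j) t ^ 2 ≤ (K * Ub (lb + j * s)) ^ 2 * m0) :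
    ∑ t ∈ sawF n, xc ^ n * (aL lb s M Ch B i t * (64 / (c * 2 ^ s) * ∑ j ∈ Ico (i + 1) M, qL lb s M Ch B j t)) ≤
      64 * K ^ 2 * m0 / (2 ^ s * c * w ^ 2 * M) := by
  have hM0 : (0 : ℝ) < M := by exact_mod_cast (by omega : 0 < M)
  have hx : 0 ≤ xc ^ n := pow_nonneg xc_pos.le _
  have hm0 : ∀ j, j < M → ∑ t ∈ sawF n, xc ^ n * qL lb s M Ch B j t ^ 2 ≤ K ^ 2 * m0 / (M * w) ^ 2 := by
    intro j hj
    have h3 := h2 j hj
    have h4 := hF.mass j hj
    have h6 := Ub_pos (lb + j * s)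
    have h0 : 0 ≤ ∑ t ∈ sawF n, xc ^ n * NQ (lb + j * s) (Ch j) t ^ 2 :=
      sum_nonneg fun t _ => mul_nonneg hx (sq_nonneg _)
    have e1 : ∑ t ∈ sawF n, xc ^ n * qL lb s M Ch B j t ^ 2 =
        (∑ t ∈ sawF n, xc ^ n * NQ (lb + j * s) (Ch j) t ^ 2) / (M * (WL' (Ch j) (B j) * Ub (lb + j * s))) ^ 2 := by
      rw [sum_div]
      refine sum_congr rfl fun t _ => ?_
      unfold qL
      rw [div_pow, mul_div_assoc]
    have h7 : M * (w * Ub (lb + j * s)) ≤ M * (WL' (Ch j) (B j) * Ub (lb + j * s)) :=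
      mul_le_mul_of_nonneg_left (mul_le_mul_of_nonneg_right h4 h6.le) hM0.le
    have h8 : (M * (w * Ub (lb + j * s))) ^ 2 ≤ (M * (WL' (Ch j) (B j) * Ub (lb + j * s))) ^ 2 :=
      pow_le_pow_left₀ (by positivity) h7 2
    rw [e1]
    refine (div_le_div_of_nonneg_left h0 (by positivity) h8).trans ?_
    rw [div_le_div_iff₀ (by positivity) (by positivity)]
    calc (∑ t ∈ sawF n, xc ^ n * NQ (lb + j * s) (Ch j) t ^ 2) * (M * w) ^ 2 ≤
          ((K * Ub (lb + j * s)) ^ 2 * m0) * (M * w) ^ 2 := mul_le_mul_of_nonneg_right h3 (sq_nonneg _)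
      _ = K ^ 2 * m0 * (M * (w * Ub (lb + j * s))) ^ 2 := by ring
  obtain ⟨Q, hQ⟩ : ∃ Q, Q = K ^ 2 * m0 / (M * w) ^ 2 := ⟨_, rfl⟩
  rw [← hQ] at hm0
  have hpair : ∀ j, j < M → ∑ t ∈ sawF n, xc ^ n * (qL lb s M Ch B i t * qL lb s M Ch B j t) ≤ Q := by
    intro j hj
    have h4 : ∑ t ∈ sawF n, xc ^ n * (qL lb s M Ch B i t * qL lb s M Ch B j t) ≤
        ∑ t ∈ sawF n, (1 / 2 * (xc ^ n * qL lb s M Ch B i t ^ 2) + 1 / 2 * (xc ^ n * qL lb s M Ch B j t ^ 2)) := by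
      refine sum_le_sum fun t _ => ?_
      nlinarith [mul_nonneg hx (sq_nonneg (qL lb s M Ch B i t - qL lb s M Ch B j t))]
    refine h4.trans ?_
    have h5 := hm0 i hi
    have h6 := hm0 j hj
    have e2 : ∑ t ∈ sawF n, (1 / 2 * (xc ^ n * qL lb s M Ch B i t ^ 2) + 1 / 2 * (xc ^ n * qL lb s M Ch B j t ^ 2)) =
        1 / 2 * ∑ t ∈ sawF n, xc ^ n * qL lb s M Ch B i t ^ 2 +
        1 / 2 * ∑ t ∈ sawF n, xc ^ n * qL lb s M Ch B j t ^ 2 := by
      rw [sum_add_distrib, mul_sum, mul_sum]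
    rw [e2]
    linarith
  have h8 : ∑ t ∈ sawF n, xc ^ n * (aL lb s M Ch B i t * (64 / (c * 2 ^ s) * ∑ j ∈ Ico (i + 1) M, qL lb s M Ch B j t)) ≤
      64 / (c * 2 ^ s) * ∑ j ∈ Ico (i + 1) M, ∑ t ∈ sawF n, xc ^ n * (qL lb s M Ch B i t * qL lb s M Ch B j t) := by
    rw [sum_comm, mul_sum]
    refine sum_le_sum fun t _ => ?_
    have h9 : 0 ≤ 64 / (c * 2 ^ s) * ∑ j ∈ Ico (i + 1) M, qL lb s M Ch B j t :=
      mul_nonneg (by positivity) (sum_nonneg fun j _ => qL_nonneg _ _ _ _ _ _ _)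
    refine (mul_le_mul_of_nonneg_left (mul_le_mul_of_nonneg_right (aL_le_qL lb s M Ch B i t) h9) hx).trans
      (le_of_eq ?_)
    simp only [mul_sum]
    refine sum_congr rfl fun j _ => ?_
    ring
  refine h8.trans ?_
  have h9 : ∑ j ∈ Ico (i + 1) M, ∑ t ∈ sawF n, xc ^ n * (qL lb s M Ch B i t * qL lb s M Ch B j t) ≤ M * Q := by
    have h10 : ∑ j ∈ Ico (i + 1) M, ∑ t ∈ sawF n, xc ^ n * (qL lb s M Ch B i t * qL lb s M Ch B j t) ≤
        ∑ _j ∈ Ico (i + 1) M, Q := sum_le_sum fun j hj => hpair j (mem_Ico.1 hj).2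
    refine h10.trans ?_
    rw [sum_const, nsmul_eq_mul, Nat.card_Ico]
    have h11 : 0 ≤ Q := le_trans (sum_nonneg fun t _ => mul_nonneg hx (sq_nonneg _)) (hm0 i hi)
    refine mul_le_mul_of_nonneg_right ?_ h11
    exact_mod_cast Nat.sub_le _ _
  refine (mul_le_mul_of_nonneg_left h9 (by positivity)).trans (le_of_eq ?_)
  rw [hQ]
  field_simp

end OG

open OG TW

/-- **the cutoff of the levels above hardly sees a small end** -/
theorem oscG {lb s M : ℕ} {a w c : ℝ} {Ch : ℕ → Set (List Bool)} {B : ℕ → ℕ} (hF : ChF lb s M a w Ch B) (hw : 0 < w)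
    (hc : 0 < c) (hs : 8 ≤ s) {i : ℕ} (hi : i < M) :
    OscF (lb + i * s) (fun t => TW.gc c (TW.Ta (fun j => aL lb s M Ch B j t) M (i + 1))) (thG lb s M c Ch B i) := by
  intro A Y hA hY
  refine (gc_dist hc _ _).trans ?_
  unfold Ta thG
  rw [← sum_sub_distrib]
  have e0 : ∀ x : ℝ, 64 / (c * 2 ^ s) * x = 64 / 2 ^ s * x / c := fun x => by field_simp
  rw [e0]
  refine div_le_div_of_nonneg_right ?_ hc.le
  rw [mul_sum]
  refine (abs_sum_le_sum_abs _ _).trans (sum_le_sum fun j hj => ?_)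
  rw [mem_Ico] at hj
  have o4 := (osc_one hF hs hj.1 hj.2 hA hY).1
  have hd0 := den_nonneg M (Ch j) (B j) (lb + j * s)
  unfold aL
  rw [← sub_div, abs_div, abs_of_nonneg hd0, ← mul_div_assoc]
  exact div_le_div_of_nonneg_right o4 hd0

/-- **the error term against the number of the decompositions of the levels above** -/
theorem EL_thG {lb s M : ℕ} {a w c : ℝ} {Ch : ℕ → Set (List Bool)} {B : ℕ → ℕ} (hF : ChF lb s M a w Ch B) (hw : 0 < w)
    (hc : 0 < c) (hs : 8 ≤ s) {i : ℕ} (hi : i < M) {τ : ℝ} (hτ : 0 ≤ τ) (n : ℕ) :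
    EL (lb + i * s) (Ch i) (fun A => τ + thG lb s M c Ch B i A) n ≤
      ∑ t ∈ sawF n, xc ^ n * (N1 (lb + i * s) (Ch i) t * (τ + 64 / (c * 2 ^ s) *
        ∑ j ∈ Ico (i + 1) M, qL lb s M Ch B j t)) := by
  unfold EL
  refine sum_le_sum fun t ht => mul_le_mul_of_nonneg_left ?_ (pow_nonneg xc_pos.le _)
  have h := NT_oscE (hF.chn i hi) (Φ := fun A => τ + thG lb s M c Ch B i A)
    (e := fun t => (τ + 64 / (c * 2 ^ s) * ∑ j ∈ Ico (i + 1) M, qL lb s M Ch B j t) - (τ + thG lb s M c Ch B i t))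
    (fun A Y hA hY => by
      show τ + thG lb s M c Ch B i A ≤ (τ + thG lb s M c Ch B i (A ++ Y)) +
        ((τ + 64 / (c * 2 ^ s) * ∑ j ∈ Ico (i + 1) M, qL lb s M Ch B j (A ++ Y)) - (τ + thG lb s M c Ch B i (A ++ Y)))
      have h1 : thG lb s M c Ch B i A ≤ 64 / (c * 2 ^ s) * ∑ j ∈ Ico (i + 1) M, qL lb s M Ch B j (A ++ Y) := by
        unfold thG
        refine mul_le_mul_of_nonneg_left (sum_le_sum fun j hj => ?_) (by positivity)
        rw [mem_Ico] at hj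
        have h2 := (osc_one hF hs hj.1 hj.2 hA (fun i' hi' => by
          have h3 := hY i' hi'
          rw [pow_succ, mul_comm] at h3
          exact h3)).2
        exact div_le_div_of_nonneg_right h2 (den_nonneg _ _ _ _)
      linarith) (mem_sawF.1 ht).2
  refine h.trans (le_of_eq ?_)
  show N1 (lb + i * s) (Ch i) t * ((τ + thG lb s M c Ch B i t) +
    ((τ + 64 / (c * 2 ^ s) * ∑ j ∈ Ico (i + 1) M, qL lb s M Ch B j t) - (τ + thG lb s M c Ch B i t))) = _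
  ring

end SLW

end HexObs
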