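import Pool.Agent.SLW.FinB
import Pool.Agent.SLW.OscG

/-!
SLW: the assembly of `SlowF` (helper45), third part: the rows on the oscillation (helper92) put in.
-/

set_option autoImplicit false

namespace HexObs

namespace SLW

open Finset TS SDN TIW

theorem oscGSt : OscGSt := fun h1 h2 h3 h4 _ h5 => oscG h1 h2 h3 h4 h5

theorem elSt : ELSt := fun h1 h2 h3 h4 _ h5 _ h6 n => EL_thG h1 h2 h3 h4 h5 h6 n

/-- **the slow change from the four rows** -/
theorem slowF_rows (hV : MomV) (hCh : ChainSt) (hA : AReg) (hSm : SmallS) : SlowF :=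
  slowF_of oscGSt elSt hV hCh hA hSm

end SLW

end HexObs
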