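import Pool.Agent.SLW.NiceP
import Pool.Agent.SLW.Small

/-!
# niceness under the uniform law of the walks with exactly n letters (helper62)
-/

set_option autoImplicit false

namespace HexObs

namespace SLW

/-- **niceness**, exactly n letters, every level up to the macroscopic scale -/
theorem niceP : NiceP := niceP_of TIP.strU niceB

end SLW

end HexObs
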