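import Pool.Agent.SLW.Defs
import Pool.Agent.PHW.Dict
import Pool.Agent.TOG.Lim

/-!
SLW: the row AReg (regularity of the numbers c_n mu^(-n) up to constants) from the exact order of c_n (helper59).
-/

set_option autoImplicit false

namespace HexObs

namespace SLW

open TOG

theorem aReg_of {c C : ℝ} (hc : 0 < c) (h : ∀ n : ℕ, 1 ≤ n → c * (muB ^ n * (n : ℝ) ^ ((11 : ℝ) / 32)) ≤ (aB n : ℝ) ∧
    (aB n : ℝ) ≤ C * (muB ^ n * (n : ℝ) ^ ((11 : ℝ) / 32))) : AReg := by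
  have hx := xc_pos
  have hmu : muB = 1 / xc := le_antisymm muB_le le_muB
  obtain ⟨a, ha⟩ : ∃ a : ℕ → ℝ, a = fun n => (cS n : ℝ) * xc ^ n := ⟨_, rfl⟩
  have ha0 : ∀ n, 0 < a n := fun n => by
    rw [ha]
    have := cS_pos n
    positivity
  have key : ∀ n : ℕ, 1 ≤ n → 2 / 3 * c * (n : ℝ) ^ ((11 : ℝ) / 32) ≤ a n ∧ a n ≤ 2 / 3 * C * (n : ℝ) ^ ((11 : ℝ) / 32) := by
    intro n hn
    have h1 : (2 : ℝ) * aB n = 3 * cS n := by exact_mod_cast aB_eq hn
    have h2 : a n = 2 / 3 * (aB n * xc ^ n) := by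
      rw [ha]
      simp only
      have : (cS n : ℝ) = 2 / 3 * aB n := by linarith
      rw [this]
      ring
    have h3 : muB ^ n * xc ^ n = 1 := by
      rw [hmu, ← mul_pow, one_div, inv_mul_cancel₀ hx.ne', one_pow]
    obtain ⟨h4, h5⟩ := h n hn
    have h6 : c * (muB ^ n * (n : ℝ) ^ ((11 : ℝ) / 32)) * xc ^ n ≤ aB n * xc ^ n := mul_le_mul_of_nonneg_right h4 (by positivity)
    have h7 : aB n * xc ^ n ≤ C * (muB ^ n * (n : ℝ) ^ ((11 : ℝ) / 32)) * xc ^ n := mul_le_mul_of_nonneg_right h5 (by positivity)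
    have e1 : ∀ x : ℝ, x * (muB ^ n * (n : ℝ) ^ ((11 : ℝ) / 32)) * xc ^ n = x * (n : ℝ) ^ ((11 : ℝ) / 32) := fun x => by
      calc x * (muB ^ n * (n : ℝ) ^ ((11 : ℝ) / 32)) * xc ^ n = x * (n : ℝ) ^ ((11 : ℝ) / 32) * (muB ^ n * xc ^ n) := by ring
        _ = _ := by rw [h3, mul_one]
    rw [e1] at h6 h7
    rw [h2]
    constructor <;> linarith
  have hone : ∀ n : ℕ, 1 ≤ n → 1 ≤ (n : ℝ) ^ ((11 : ℝ) / 32) := fun n hn =>
    Real.one_le_rpow (by exact_mod_cast hn) (by norm_num)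
  have hC0 : 0 < C := by
    have h1 := key 1 le_rfl
    have h2 := ha0 1
    rw [Nat.cast_one, Real.one_rpow, mul_one] at h1
    linarith [h1.2]
  obtain ⟨K, hK⟩ : ∃ K : ℝ, K = 1 + a 0 / (2 / 3 * c) + 4 * (C / c) := ⟨_, rfl⟩
  have k1 : 0 < a 0 / (2 / 3 * c) := by have := ha0 0; positivity
  have k2 : 0 < C / c := by positivity
  refine ⟨K, by rw [hK]; positivity, fun n' n hn => ?_, fun n' n h1 h2 h3 => ?_⟩
  · have e : a n' ≤ K * a n := by
      rcases Nat.eq_zero_or_pos n' with h0 | h0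
      · rcases Nat.eq_zero_or_pos n with h1 | h1
        · rw [h0, h1]
          have : 1 ≤ K := by rw [hK]; linarith
          exact le_mul_of_one_le_left (ha0 0).le this
        · rw [h0]
          have h2 := (key n h1).1
          have h3 := hone n h1
          have h4 : 2 / 3 * c ≤ a n := by
            have : 2 / 3 * c * 1 ≤ 2 / 3 * c * (n : ℝ) ^ ((11 : ℝ) / 32) := mul_le_mul_of_nonneg_left h3 (by positivity)
            linarith
          calc a 0 = a 0 / (2 / 3 * c) * (2 / 3 * c) := by field_simp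
            _ ≤ K * a n := mul_le_mul (by rw [hK]; linarith) h4 (by positivity) (by rw [hK]; positivity)
      · have h2 := (key n' h0).2
        have h3 := (key n (by omega)).1
        have h4 : (n' : ℝ) ^ ((11 : ℝ) / 32) ≤ (n : ℝ) ^ ((11 : ℝ) / 32) :=
          Real.rpow_le_rpow (Nat.cast_nonneg _) (by exact_mod_cast hn) (by norm_num)
        have hp : 0 ≤ (n : ℝ) ^ ((11 : ℝ) / 32) := by positivity
        calc a n' ≤ 2 / 3 * C * (n' : ℝ) ^ ((11 : ℝ) / 32) := h2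
          _ ≤ 2 / 3 * C * (n : ℝ) ^ ((11 : ℝ) / 32) := mul_le_mul_of_nonneg_left h4 (by positivity)
          _ = C / c * (2 / 3 * c * (n : ℝ) ^ ((11 : ℝ) / 32)) := by field_simp
          _ ≤ K * a n := mul_le_mul (by rw [hK]; linarith) h3 (by positivity) (by rw [hK]; positivity)
    rw [ha] at e
    exact e
  · have e : a n' ≤ K * a n := by
      have h4 := (key n' (by omega)).2
      have h5 := (key n h3).1
      have h6 : (n' : ℝ) ^ ((11 : ℝ) / 32) ≤ 4 * (n : ℝ) ^ ((11 : ℝ) / 32) := by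
        calc (n' : ℝ) ^ ((11 : ℝ) / 32) ≤ (4 * (n : ℝ)) ^ ((11 : ℝ) / 32) :=
              Real.rpow_le_rpow (Nat.cast_nonneg _) (by exact_mod_cast h2) (by norm_num)
          _ = 4 ^ ((11 : ℝ) / 32) * (n : ℝ) ^ ((11 : ℝ) / 32) := Real.mul_rpow (by norm_num) (Nat.cast_nonneg _)
          _ ≤ 4 * (n : ℝ) ^ ((11 : ℝ) / 32) := by
              refine mul_le_mul_of_nonneg_right ?_ (by positivity)
              calc (4 : ℝ) ^ ((11 : ℝ) / 32) ≤ 4 ^ (1 : ℝ) := Real.rpow_le_rpow_of_exponent_le (by norm_num) (by norm_num)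
                _ = 4 := Real.rpow_one 4
      calc a n' ≤ 2 / 3 * C * (n' : ℝ) ^ ((11 : ℝ) / 32) := h4
        _ ≤ 2 / 3 * C * (4 * (n : ℝ) ^ ((11 : ℝ) / 32)) := mul_le_mul_of_nonneg_left h6 (by positivity)
        _ = 4 * (C / c) * (2 / 3 * c * (n : ℝ) ^ ((11 : ℝ) / 32)) := by field_simp
        _ ≤ K * a n := mul_le_mul (by rw [hK]; linarith) h5 (by positivity) (by rw [hK]; positivity)
    rw [ha] at e
    exact e

end SLW

end HexObs
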