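import Pool.Agent.SLW.ConvId
import Pool.Agent.TIP.FP
import Pool.Agent.NTA.PtFC

/-!
SLW: concatenations of classes of bridges that are unique as beginnings of half plane words (helper65).

* `Uq S` : unique as beginnings; `uq_fps` (first cuts at or above s), `uq_cat`, `uq_pw`;
* `vL_cat`: the law of the length of the concatenations is the convolution;
* `Pl S p`: p is the polynomial of the lengths of S; `pl_cat`, `pl_pw`;
* `Zs`, `Ln`: sizes and lengths.
-/

set_option autoImplicit false

namespace HexObs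

namespace SLW

open Finset TS SDN TIW

namespace Cat

/-- unique as beginnings of half plane words -/
def Uq (S : Set (List Bool)) : Prop := ∀ V ∈ S, ∀ V' ∈ S, ∀ E E' : List Bool, BAR.Pos E → BAR.Pos E' →
  V ++ E = V' ++ E' → V = V'

/-- concatenations -/
def cat (S T : Set (List Bool)) : Set (List Bool) := {W | ∃ V ∈ S, ∃ U ∈ T, W = V ++ U}

/-- powers -/
def pw (S : Set (List Bool)) : ℕ → Set (List Bool)
  | 0 => {[]}
  | K + 1 => cat (pw S K) S

/-- sizes at most D -/
def Zs (S : Set (List Bool)) (D : ℤ) : Prop := ∀ w ∈ S, ∀ i, i ≤ w.length → hn (vx oo up w i) ≤ D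

/-- lengths at most B -/
def Ln (S : Set (List Bool)) (B : ℕ) : Prop := ∀ w ∈ S, w.length ≤ B

/-- p is the polynomial of the lengths of S -/
def Pl (S : Set (List Bool)) (p : Polynomial ℝ) : Prop := ∀ b, p.coeff b = vL S b

/-! ### 1. Bridges -/

lemma pos_cat {V E : List Bool} (hV : V ∈ BU) (hE : BAR.Pos E) : BAR.Pos (V ++ E) := by
  obtain ⟨T, hT⟩ := hV
  obtain ⟨b1, b2, b3, b4⟩ := mem_Brd.1 hT
  intro i h1 h2
  rcases Nat.lt_or_ge V.length i with h | h
  · obtain ⟨j, rfl⟩ : ∃ j, i = V.length + j := ⟨i - V.length, by omega⟩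
    rw [List.length_append] at h2
    rw [lev_cat b3, b4]
    have h3 := hE j (by omega) (by omega)
    have h4 : (0 : ℤ) ≤ 3 * T := by positivity
    linarith
  · rw [lev_append (by omega)]
    exact (b1 i h1 h).1

lemma pos_BU {V : List Bool} (hV : V ∈ BU) : BAR.Pos V := by
  obtain ⟨T, hT⟩ := hV
  exact BAR.pos_Brd hT

lemma even_BU {V : List Bool} (hV : V ∈ BU) : Even V.length := by
  obtain ⟨T, hT⟩ := hV
  have h5 := (mem_Brd.1 hT).2.2.1
  have h6 := cl_dx up V V.length
  by_contra hodd
  rw [if_neg hodd, h5] at h6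
  revert h6
  decide

lemma nil_BU : ([] : List Bool) ∈ BU := ⟨0, nil_mem_Brd⟩

/-! ### 2. Uniqueness -/

lemma uq_fps {s : ℕ} {S : Set (List Bool)} (h : S ⊆ PtC.FPs s) : Uq S := by
  have key : ∀ (V V' E E' : List Bool) (j j' : ℕ), V ∈ FC s j → V' ∈ FC s j' → BAR.Pos E → BAR.Pos E' → j ≤ j' →
      V ++ E = V' ++ E' → V = V' := by
    intro V V' E E' j j' hV hV' hE hE' hle he
    obtain ⟨v, hv, e1, -⟩ := BAR.nested hV.1 hV'.1 hE hE' hle he
    rcases hle.lt_or_eq with hlt | heq
    · exact absurd ⟨V, v, j' - j, hV.1, hv, e1⟩ (hV'.2.2 j hV.2.1 hlt)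
    · have h0 : hgt v = 0 := by
        rw [hgt_eq hv]
        omega
      have h1 := TIP.FPA.nil_of_hgt ⟨_, hv⟩ h0
      rw [e1, h1, List.append_nil]
  intro V hV V' hV' E E' hE hE' he
  obtain ⟨j, hj⟩ := h hV
  obtain ⟨j', hj'⟩ := h hV'
  rcases le_total j j' with hle | hle
  · exact key V V' E E' j j' hj hj' hE hE' hle he
  · exact (key V' V E' E j' j hj' hj hE' hE hle he.symm).symm

lemma uq_cat {S T : Set (List Bool)} (hS : Uq S) (hT : Uq T) (hB : T ⊆ BU) : Uq (cat S T) := by
  rintro _ ⟨V, hV, U, hU, rfl⟩ _ ⟨V', hV', U', hU', rfl⟩ E E' hE hE' he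
  rw [List.append_assoc, List.append_assoc] at he
  have h1 := hS V hV V' hV' _ _ (pos_cat (hB hU) hE) (pos_cat (hB hU') hE') he
  subst h1
  have h2 := List.append_cancel_left he
  rw [hT U hU U' hU' E E' hE hE' h2]

lemma cat_BU {S T : Set (List Bool)} (hS : S ⊆ BU) (hT : T ⊆ BU) : cat S T ⊆ BU := by
  rintro _ ⟨V, hV, U, hU, rfl⟩
  exact TIP.BU_app (hS hV) (hT hU)

lemma pw_BU {S : Set (List Bool)} (hS : S ⊆ BU) (K : ℕ) : pw S K ⊆ BU := by
  induction K with
  | zero =>
    rintro _ rfl
    exact nil_BU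
  | succ K ih => exact cat_BU ih hS

lemma uq_pw {S : Set (List Bool)} (hS : Uq S) (hB : S ⊆ BU) (K : ℕ) : Uq (pw S K) := by
  induction K with
  | zero =>
    rintro _ rfl _ rfl E E' _ _ _
    rfl
  | succ K ih => exact uq_cat ih hS hB

/-! ### 3. Laws of the length -/

lemma vL_cat {S T : Set (List Bool)} (hS : Uq S) (hB : T ⊆ BU) : vL (cat S T) = cv (vL T) (vL S) := by
  rw [← vL_mW, ← vL_mW, ← vL_mW, ← mW_cv]
  congr 1
  funext Y
  by_cases h : Y ∈ cat S T
  · rw [TIP.ind_pos h]
    obtain ⟨V, hV, U, hU, rfl⟩ := h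
    rw [Finset.sum_eq_single V.length]
    · rw [List.take_left' rfl, List.drop_left' rfl, TIP.ind_pos hV, TIP.ind_pos hU, one_mul]
    · intro j hj hne
      rw [Finset.mem_range] at hj
      by_cases h1 : (V ++ U).take j ∈ S
      · by_cases h2 : (V ++ U).drop j ∈ T
        · exfalso
          have h3 := hS _ h1 V hV _ _ (pos_BU (hB h2)) (pos_BU (hB hU)) (List.take_append_drop j (V ++ U))
          apply hne
          rw [← h3, List.length_take]
          omega
        · rw [TIP.ind_neg h2, mul_zero]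
      · rw [TIP.ind_neg h1, zero_mul]
    · intro hj
      exfalso
      apply hj
      rw [Finset.mem_range, List.length_append]
      omega
  · rw [TIP.ind_neg h]
    symm
    refine Finset.sum_eq_zero fun j _ => ?_
    by_cases h1 : Y.take j ∈ S
    · by_cases h2 : Y.drop j ∈ T
      · exact absurd ⟨_, h1, _, h2, (List.take_append_drop j Y).symm⟩ h
      · rw [TIP.ind_neg h2, mul_zero]
    · rw [TIP.ind_neg h1, zero_mul]

lemma pl_cat {S T : Set (List Bool)} {p q : Polynomial ℝ} (hS : Uq S) (hB : T ⊆ BU) (hp : Pl S p) (hq : Pl T q) :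
    Pl (cat S T) (p * q) := by
  intro b
  rw [vL_cat hS hB, cv_anti, Polynomial.coeff_mul]
  exact Finset.sum_congr rfl fun x _ => by rw [hp, hq]

lemma pl_nil : Pl ({[]} : Set (List Bool)) 1 := by
  intro b
  rw [Polynomial.coeff_one]
  unfold vL
  split_ifs with h
  · have h1 : {V : List Bool | V ∈ ({[]} : Set (List Bool)) ∧ V.length = b} = {[]} := by
      ext V
      constructor
      · rintro ⟨h1, -⟩
        exact h1
      · intro h1
        rw [Set.mem_singleton_iff] at h1
        subst h1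
        exact ⟨rfl, by rw [h]; rfl⟩
    rw [h1, Set.ncard_singleton, h]
    norm_num
  · have h1 : {V : List Bool | V ∈ ({[]} : Set (List Bool)) ∧ V.length = b} = ∅ := by
      rw [Set.eq_empty_iff_forall_notMem]
      rintro V ⟨h1, h2⟩
      rw [Set.mem_singleton_iff] at h1
      subst h1
      exact h h2.symm
    rw [h1, Set.ncard_empty]
    norm_num

lemma pl_pw {S : Set (List Bool)} {p : Polynomial ℝ} (hS : Uq S) (hB : S ⊆ BU) (hp : Pl S p) (K : ℕ) :
    Pl (pw S K) (p ^ K) := by
  induction K with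
  | zero =>
    rw [pow_zero]
    exact pl_nil
  | succ K ih =>
    rw [pow_succ]
    exact pl_cat (uq_pw hS hB K) hB ih hp

lemma vL_nonneg (S : Set (List Bool)) (b : ℕ) : 0 ≤ vL S b := mul_nonneg (Nat.cast_nonneg _) (pow_nonneg xc_pos.le _)

lemma vL_zero {S : Set (List Bool)} {B : ℕ} (h : Ln S B) {b : ℕ} (hb : B < b) : vL S b = 0 := by
  unfold vL
  have h1 : {V | V ∈ S ∧ V.length = b} = ∅ := by
    rw [Set.eq_empty_iff_forall_notMem]
    rintro V ⟨h1, h2⟩
    have := h V h1
    omega
  rw [h1, Set.ncard_empty]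
  norm_num

/-- the polynomial of a class with bounded lengths -/
lemma pl_ex {S : Set (List Bool)} {B : ℕ} (h : Ln S B) : ∃ p : Polynomial ℝ, Pl S p := by
  refine ⟨∑ i ∈ range (B + 1), Polynomial.monomial i (vL S i), fun b => ?_⟩
  rw [Polynomial.finsetSum_coeff]
  simp_rw [Polynomial.coeff_monomial]
  rcases Nat.lt_or_ge B b with h1 | h1
  · rw [vL_zero h h1]
    refine Finset.sum_eq_zero fun i hi => ?_
    rw [Finset.mem_range] at hi
    rw [if_neg (by omega)]
  · rw [Finset.sum_eq_single b]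
    · rw [if_pos rfl]
    · intro i _ hne
      rw [if_neg hne]
    · intro hb
      exfalso
      apply hb
      rw [Finset.mem_range]
      omega

/-- the law of the length as a mass -/
lemma vL_gf (S : Set (List Bool)) (b : ℕ) : ENNReal.ofReal (vL S b) = gf {w | w ∈ S ∧ w.length = b} := by
  classical
  have h1 : {V | V ∈ S ∧ V.length = b} = ((((Wd b).filter fun V => V ∈ S) : Finset (List Bool)) : Set (List Bool)) := by
    ext w
    rw [Finset.mem_coe, mem_filter, mem_Wd]
    exact and_comm
  unfold vL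
  rw [h1, Set.ncard_coe_finset, gf_finset]
  congr 1
  have h2 : ∀ t ∈ (Wd b).filter (fun V => V ∈ S), xc ^ t.length = xc ^ b := by
    intro t ht
    rw [mem_filter, mem_Wd] at ht
    rw [ht.1]
  rw [Finset.sum_congr rfl h2, Finset.sum_const, nsmul_eq_mul]

/-! ### 4. Sizes -/

lemma zs_cat {S T : Set (List Bool)} {D D' : ℤ} (hB : S ⊆ BU) (hS : Zs S D) (hT : Zs T D') : Zs (cat S T) (D + D') := by
  rintro _ ⟨V, hV, U, hU, rfl⟩ i hi
  have h0 : 0 ≤ D' := (hn_nonneg _).trans (hT U hU 0 (Nat.zero_le _))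
  rcases Nat.lt_or_ge V.length i with h | h
  · obtain ⟨j, rfl⟩ : ∃ j, i = V.length + j := ⟨i - V.length, by omega⟩
    rw [List.length_append] at hi
    obtain ⟨T', hT'⟩ := hB hV
    rw [vx_cat (mem_Brd.1 hT').2.2.1]
    have h1 := hn_add (vx oo up V V.length) (vx oo up U j)
    have h2 := hS V hV V.length le_rfl
    have h3 := hT U hU j (by omega)
    linarith
  · rw [vx_append (by omega)]
    have := hS V hV i h
    linarith

lemma zs_pw {S : Set (List Bool)} {D : ℤ} (hB : S ⊆ BU) (hS : Zs S D) (K : ℕ) : Zs (pw S K) (K * D) := by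
  induction K with
  | zero =>
    rintro _ rfl i hi
    simp only [List.length_nil, Nat.le_zero] at hi
    subst hi
    show hn oo ≤ _
    have : hn oo = 0 := by decide
    rw [this]
    simp
  | succ K ih =>
    have := zs_cat (pw_BU hB K) ih hS
    intro w hw i hi
    refine (this w hw i hi).trans (le_of_eq ?_)
    push_cast
    ring

lemma ln_cat {S T : Set (List Bool)} {B B' : ℕ} (hS : Ln S B) (hT : Ln T B') : Ln (cat S T) (B + B') := by
  rintro _ ⟨V, hV, U, hU, rfl⟩
  rw [List.length_append]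
  exact add_le_add (hS V hV) (hT U hU)

lemma ln_pw {S : Set (List Bool)} {B : ℕ} (hS : Ln S B) (K : ℕ) : Ln (pw S K) (K * B) := by
  induction K with
  | zero =>
    rintro _ rfl
    simp
  | succ K ih =>
    intro w hw
    have := ln_cat ih hS w hw
    rw [Nat.succ_mul]
    exact this

/-- the norm from the level and the lateral coordinate -/
lemma hn_lat (w : List Bool) (i : ℕ) : hn (vx oo up w i) ≤ |lev w i| + 2 * |lat w i| := by
  unfold lat lev hn
  generalize vx oo up w i = p
  have e1 : 2 * ip p (rotL up) = ip p up + 3 * cross up p := by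
    unfold ip rotL cross up
    simp only
    ring
  have e2 : 2 * ip p (rotR up) = ip p up - 3 * cross up p := by
    unfold ip rotR cross up
    simp only
    ring
  generalize ip p up = a at *
  generalize cross up p = x at *
  generalize ip p (rotL up) = y at *
  generalize ip p (rotR up) = z at *
  rw [abs_neg]
  have h1 := abs_nonneg a
  have h2 := abs_nonneg x
  have h3 := neg_abs_le a
  have h4 := le_abs_self a
  have h5 := neg_abs_le x
  have h6 := le_abs_self x
  refine max_le (by linarith) (max_le ?_ ?_)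
  · rw [abs_le]
    constructor <;> linarith
  · rw [abs_le]
    constructor <;> linarith

end Cat

end SLW

end HexObs
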