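import Pool.Agent.JNT.NarM
import Pool.Agent.SLW.FpLen

/-!
SLW: first cut pieces with exactly b letters in a tube, no hypothesis.
-/

set_option autoImplicit false

namespace HexObs

namespace SLW

open Finset TS SDN NTW NTA PtC RP JNT

open scoped ENNReal

/-- **first cut pieces with exactly b letters in a tube**, no hypothesis -/
theorem fpLen : ∀ a A : ℝ, 0 < a → a ≤ A → ∃ (H : ℕ) (c K : ℝ) (k0 : ℕ), 1 ≤ H ∧ 0 < c ∧ 1 ≤ K ∧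
    ∀ k s b : ℕ, k0 ≤ k → H * 2 ^ k ≤ s → s ≤ 2 * (H * 2 ^ k) → Even b → a * PW.mZ (2 ^ k) ≤ b →
      (b : ℝ) ≤ A * PW.mZ (2 ^ k) → ENNReal.ofReal (c / PW.mZ (2 ^ k)) ≤
        gf {w | w ∈ FPs s ∧ hgt w ≤ 2 * s ∧ (∀ i, i ≤ w.length → |(lat w i : ℝ)| ≤ K * 2 ^ k) ∧ w.length = b} :=
  fpLen_of mlow_M mup_M lowWide_M singleB_M (VF.mLow VF.sharpZ) zUp_M

/-- **the same with a cut in [s / 2, s)**, no hypothesis -/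
theorem fpLenV : ∀ a A : ℝ, 0 < a → a ≤ A → ∃ (H : ℕ) (c K : ℝ) (k0 : ℕ), 1 ≤ H ∧ 0 < c ∧ 1 ≤ K ∧
    ∀ k s b : ℕ, k0 ≤ k → H * 2 ^ k ≤ s → s ≤ 2 * (H * 2 ^ k) → Even b → a * PW.mZ (2 ^ k) ≤ b →
      (b : ℝ) ≤ A * PW.mZ (2 ^ k) → ENNReal.ofReal (c / PW.mZ (2 ^ k)) ≤
        gf {w | (w ∈ FPs s ∧ hgt w ≤ 2 * s ∧ (∀ i, i ≤ w.length → |(lat w i : ℝ)| ≤ K * 2 ^ k) ∧
          ∃ x y, w = x ++ y ∧ x ∈ BU ∧ y ∈ BU ∧ s ≤ 2 * hgt x ∧ hgt x < s) ∧ w.length = b} :=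
  fpLenV_of mlow_M mup_M lowWide_M singleB_M (VF.mLow VF.sharpZ) zUp_M

end SLW

end HexObs
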