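import Pool.Agent.SLW.Cat
import Pool.Agent.SLW.FpLenM
import Pool.Agent.SLW.Conv

/-!
SLW, row S3 (helper65): chains of first passage pieces. K small factors of the scale l - c1 - q1 and one top factor of the scale
l - c1. Lower bound of the exact lengths: fpLenV; upper bound: hypothesis `UpLenV` (helper57).

* **`chainSt_of : UpLenV → ChainSt`**.
-/

set_option autoImplicit false

namespace HexObs

namespace SLW

open Finset TS SDN TIW Cat

open scoped ENNReal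

namespace ChM

/-- first passage pieces over the height s in the tube of half width K 2 ^ k with a cut in [s / 2, s) -/
def VK (k s : ℕ) (K : ℝ) : Set (List Bool) :=
  {w | w ∈ PtC.FPs s ∧ hgt w ≤ 2 * s ∧ (∀ i, i ≤ w.length → |(lat w i : ℝ)| ≤ K * 2 ^ k) ∧
    ∃ x y, w = x ++ y ∧ x ∈ BU ∧ y ∈ BU ∧ s ≤ 2 * hgt x ∧ hgt x < s}

/-- upper bound of the exact lengths -/
def UpLenV : Prop := ∀ (H : ℕ) (K : ℝ), 1 ≤ H → 1 ≤ K → ∃ (C : ℝ) (k0 : ℕ), 1 ≤ C ∧ ∀ k s b : ℕ, k0 ≤ k →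
  H * 2 ^ k ≤ s → s ≤ 2 * (H * 2 ^ k) → gf {w | w ∈ VK k s K ∧ w.length = b} ≤ ENNReal.ofReal (C / PW.mZ (2 ^ k))

/-- one factor of the scale k -/
def SK (H : ℕ) (K : ℝ) (k : ℕ) : Set (List Bool) :=
  {w | w ∈ VK k (H * 2 ^ k) K ∧ PW.mZ (2 ^ k) ≤ w.length ∧ (w.length : ℝ) ≤ 3 * PW.mZ (2 ^ k)}

lemma SK_BU {H : ℕ} {K : ℝ} {k : ℕ} : SK H K k ⊆ BU := by
  rintro w ⟨⟨⟨j, hj⟩, -⟩, -⟩
  exact ⟨j, hj.1⟩

lemma SK_uq {H : ℕ} {K : ℝ} {k : ℕ} : Uq (SK H K k) := uq_fps (s := H * 2 ^ k) fun _ h => h.1.1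

lemma SK_ln {H : ℕ} {K : ℝ} {k : ℕ} : Ln (SK H K k) ⌊3 * PW.mZ (2 ^ k)⌋₊ := fun _ h => Nat.le_floor h.2.2

lemma lev_le {w : List Bool} (hw : w ∈ BU) {i : ℕ} (hi : i ≤ w.length) : |lev w i| ≤ 3 * hgt w := by
  have h1 := mem_Brd.1 (TIP.BU_hgt hw)
  rcases Nat.eq_zero_or_pos i with h | h
  · rw [h, lev_zero, abs_zero]
    positivity
  · obtain ⟨h2, h3⟩ := h1.1 i h hi
    rw [abs_of_pos h2]
    exact h3

lemma SK_zs {H : ℕ} {K : ℝ} {k D : ℕ} (hD : (6 * H : ℝ) + 2 * K ≤ D) : Zs (SK H K k) (D * 2 ^ k) := by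
  intro w hw i hi
  have h1 := lev_le (SK_BU hw) hi
  have h2 := hw.1.2.2.1 i hi
  have h3 := hw.1.2.1
  have h4 := hn_lat w i
  have h5 : (hn (vx oo up w i) : ℝ) ≤ (D * 2 ^ k : ℝ) := by
    have e1 : (hn (vx oo up w i) : ℝ) ≤ |(lev w i : ℝ)| + 2 * |(lat w i : ℝ)| := by
      exact_mod_cast h4
    have e2 : |(lev w i : ℝ)| ≤ 3 * (hgt w : ℝ) := by
      exact_mod_cast h1
    have e3 : (hgt w : ℝ) ≤ 2 * (H * 2 ^ k) := by
      exact_mod_cast h3
    have e4 : (0 : ℝ) < 2 ^ k := by positivity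
    nlinarith
  exact_mod_cast h5

/-! ### 1. Numbers -/

lemma ratio : ∃ ρ : ℝ, 1 ≤ ρ ∧ ∀ k j : ℕ, PW.mZ (2 ^ k) * 2 ^ j ≤ ρ * PW.mZ (2 ^ (k + j)) ∧
    PW.mZ (2 ^ (k + j)) ≤ ρ * 4 ^ j * PW.mZ (2 ^ k) := by
  obtain ⟨c, hc, h1⟩ := VF.mLow VF.sharpZ
  obtain ⟨C, hC, h2⟩ := VF.mUp VF.sharpZ
  have hcC : c ≤ C := by
    have h3 := (h1 0).trans (h2 0)
    simpa using h3
  refine ⟨C / c, (one_le_div hc).2 hcC, fun k j => ?_⟩
  have e0 : (0 : ℝ) < (2 : ℝ) ^ (4 / 3 * (k : ℝ)) := by positivity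
  have e1 : (2 : ℝ) ^ (4 / 3 * ((k + j : ℕ) : ℝ)) = (2 : ℝ) ^ (4 / 3 * (k : ℝ)) * (2 : ℝ) ^ (4 / 3 * (j : ℝ)) := by
    rw [← Real.rpow_add (by norm_num)]
    congr 1
    push_cast
    ring
  have e2 : (2 : ℝ) ^ j ≤ (2 : ℝ) ^ (4 / 3 * (j : ℝ)) := by
    rw [← Real.rpow_natCast]
    exact Real.rpow_le_rpow_of_exponent_le (by norm_num) (by
      have : (0 : ℝ) ≤ j := Nat.cast_nonneg _
      linarith)
  have e3 : (2 : ℝ) ^ (4 / 3 * (j : ℝ)) ≤ (4 : ℝ) ^ j := by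
    have e4 : (4 : ℝ) ^ j = (2 : ℝ) ^ (2 * j) := by
      rw [pow_mul]
      norm_num
    rw [e4, ← Real.rpow_natCast]
    exact Real.rpow_le_rpow_of_exponent_le (by norm_num) (by
      have : (0 : ℝ) ≤ j := Nat.cast_nonneg _
      push_cast
      linarith)
  have a1 := h1 (k + j)
  have a2 := h2 (k + j)
  have a3 := h1 k
  have a4 := h2 k
  rw [e1] at a1 a2
  have hj : (0 : ℝ) < 2 ^ j := by positivity
  constructor
  · rw [div_mul_eq_mul_div, le_div_iff₀ hc]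
    calc PW.mZ (2 ^ k) * 2 ^ j * c ≤ (C * 2 ^ (4 / 3 * (k : ℝ))) * 2 ^ (4 / 3 * (j : ℝ)) * c := by
          refine mul_le_mul_of_nonneg_right ?_ hc.le
          exact mul_le_mul a4 e2 hj.le (by positivity)
      _ = C * (c * (2 ^ (4 / 3 * (k : ℝ)) * 2 ^ (4 / 3 * (j : ℝ)))) := by ring
      _ ≤ C * PW.mZ (2 ^ (k + j)) := mul_le_mul_of_nonneg_left a1 hC.le
  · rw [mul_assoc, div_mul_eq_mul_div, le_div_iff₀ hc]
    calc PW.mZ (2 ^ (k + j)) * c ≤ (C * (2 ^ (4 / 3 * (k : ℝ)) * 2 ^ (4 / 3 * (j : ℝ)))) * c :=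
          mul_le_mul_of_nonneg_right a2 hc.le
      _ = C * (2 ^ (4 / 3 * (j : ℝ)) * (c * 2 ^ (4 / 3 * (k : ℝ)))) := by ring
      _ ≤ C * (4 ^ j * PW.mZ (2 ^ k)) := by
          refine mul_le_mul_of_nonneg_left ?_ hC.le
          exact mul_le_mul e3 a3 (by positivity) (by positivity)

lemma big (M : ℝ) : ∃ k0 : ℕ, ∀ k, k0 ≤ k → M ≤ PW.mZ (2 ^ k) := by
  obtain ⟨c, hc, h1⟩ := VF.mLow VF.sharpZ
  obtain ⟨k0, hk0⟩ := pow_unbounded_of_one_lt (M / c) (show (1 : ℝ) < 2 by norm_num)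
  refine ⟨k0, fun k hk => ?_⟩
  refine le_trans ?_ (h1 k)
  rw [← div_le_iff₀' hc]
  refine hk0.le.trans ?_
  rw [← Real.rpow_natCast]
  refine Real.rpow_le_rpow_of_exponent_le (by norm_num) ?_
  have e1 : (k0 : ℝ) ≤ k := by exact_mod_cast hk
  have e2 : (0 : ℝ) ≤ k := Nat.cast_nonneg _
  linarith

open Classical in
/-- the even numbers in [m, 2 m] -/
noncomputable def Ev (m : ℝ) : Finset ℕ := (range (⌊2 * m⌋₊ + 1)).filter fun i => Even i ∧ m ≤ i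

lemma mem_Ev {m : ℝ} (hm : 0 ≤ m) {i : ℕ} : i ∈ Ev m ↔ Even i ∧ m ≤ i ∧ (i : ℝ) ≤ 2 * m := by
  unfold Ev
  rw [mem_filter, mem_range, Nat.lt_succ_iff, Nat.le_floor_iff (by linarith)]
  constructor
  · rintro ⟨h1, h2, h3⟩
    exact ⟨h2, h3, h1⟩
  · rintro ⟨h1, h2, h3⟩
    exact ⟨h3, h1, h2⟩

lemma Ev_card {m : ℝ} (hm : 4 ≤ m) : m / 4 ≤ ((Ev m).card : ℝ) := by
  have hm0 : 0 ≤ m := by linarith
  have h1 : ((Icc ⌈m / 2⌉₊ ⌊m⌋₊).image fun j => 2 * j) ⊆ Ev m := by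
    intro i hi
    obtain ⟨j, hj, rfl⟩ := mem_image.1 hi
    rw [mem_Icc] at hj
    rw [mem_Ev hm0]
    have h2 : m / 2 ≤ j := (Nat.le_ceil _).trans (by exact_mod_cast hj.1)
    have h3 : (j : ℝ) ≤ m := (Nat.le_floor_iff hm0).1 hj.2
    refine ⟨even_two_mul j, ?_, ?_⟩
    · push_cast
      linarith
    · push_cast
      linarith
  have h2 : (Icc ⌈m / 2⌉₊ ⌊m⌋₊).card ≤ (Ev m).card := by
    refine le_trans (le_of_eq ?_) (card_le_card h1)
    rw [card_image_of_injective]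
    intro a b hab
    simp only at hab
    omega
  rw [Nat.card_Icc] at h2
  have h3 : (⌊m⌋₊ : ℝ) + 1 - ⌈m / 2⌉₊ ≤ ((Ev m).card : ℝ) := by
    have h4 : ⌊m⌋₊ + 1 ≤ (Ev m).card + ⌈m / 2⌉₊ := by omega
    have h5 : ((⌊m⌋₊ + 1 : ℕ) : ℝ) ≤ (((Ev m).card + ⌈m / 2⌉₊ : ℕ) : ℝ) := by exact_mod_cast h4
    push_cast at h5
    linarith
  have h4 := Nat.lt_floor_add_one m
  have h5 := Nat.ceil_lt_add_one (show 0 ≤ m / 2 by linarith)
  linarith

/-! ### 2. One factor -/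

/-- what is used about one factor -/
structure Fac (S : Set (List Bool)) (m c C : ℝ) : Prop where
  m4 : 4 ≤ m
  c0 : 0 < c
  C0 : 1 ≤ C
  bu : S ⊆ BU
  uq : Uq S
  lo : ∀ w ∈ S, m ≤ w.length
  hi : ∀ w ∈ S, (w.length : ℝ) ≤ 3 * m
  low : ∀ b : ℕ, Even b → m ≤ b → (b : ℝ) ≤ 3 * m → c / m ≤ vL S b
  up : ∀ b : ℕ, vL S b ≤ C / m

lemma Fac.ln {S : Set (List Bool)} {m c C : ℝ} (h : Fac S m c C) : Ln S ⌊3 * m⌋₊ := fun w hw => Nat.le_floor (h.hi w hw)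

lemma Fac.pol {S : Set (List Bool)} {m c C : ℝ} (h : Fac S m c C) : ∃ p : Polynomial ℝ, Pl S p ∧
    (∀ i, 0 ≤ p.coeff i) ∧ (∀ i, ⌊3 * m⌋₊ < i → p.coeff i = 0) ∧ c / 4 ≤ p.eval 1 ∧ p.eval 1 ≤ 4 * C := by
  obtain ⟨p, hp⟩ := pl_ex h.ln
  have h0 : ∀ i, 0 ≤ p.coeff i := fun i => by
    rw [hp]
    exact vL_nonneg S i
  have h1 : ∀ i, ⌊3 * m⌋₊ < i → p.coeff i = 0 := fun i hi => by
    rw [hp]
    exact vL_zero h.ln hi
  have hm := h.m4
  have hm0 : 0 < m := by linarith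
  have e1 := sum_coeff_eq h1
  refine ⟨p, hp, h0, h1, ?_, ?_⟩
  · rw [← e1]
    have h2 : Ev m ⊆ range (⌊3 * m⌋₊ + 1) := by
      intro i hi
      rw [mem_Ev hm0.le] at hi
      rw [mem_range, Nat.lt_succ_iff]
      exact Nat.le_floor (by linarith [hi.2.2])
    refine le_trans ?_ (sum_le_sum_of_subset_of_nonneg h2 fun i _ _ => h0 i)
    have h3 : ∀ i ∈ Ev m, c / m ≤ p.coeff i := by
      intro i hi
      rw [mem_Ev hm0.le] at hi
      rw [hp]
      exact h.low i hi.1 hi.2.1 (by linarith [hi.2.2])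
    refine le_trans ?_ (card_nsmul_le_sum _ _ _ h3)
    rw [nsmul_eq_mul]
    have h4 := Ev_card hm
    have hc := h.c0
    calc c / 4 = m / 4 * (c / m) := by field_simp
      _ ≤ _ := mul_le_mul_of_nonneg_right h4 (by positivity)
  · rw [← e1]
    have h3 : ∀ i ∈ range (⌊3 * m⌋₊ + 1), p.coeff i ≤ C / m := by
      intro i _
      rw [hp]
      exact h.up i
    refine (sum_le_card_nsmul _ _ _ h3).trans ?_
    rw [nsmul_eq_mul, card_range]
    push_cast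
    have h4 := Nat.floor_le (show 0 ≤ 3 * m by linarith)
    have hC := h.C0
    calc ((⌊3 * m⌋₊ : ℝ) + 1) * (C / m) ≤ (4 * m) * (C / m) :=
          mul_le_mul_of_nonneg_right (by linarith) (by positivity)
      _ = 4 * C := by field_simp

/-! ### 3. The chain -/

/-- **K small factors and one top factor** -/
theorem chain {S T : Set (List Bool)} {m M c C η : ℝ} {K : ℕ} (hS : Fac S m c C) (hT : Fac T M c C) (hη : 0 < η)
    (hK : 3 * K * m ≤ M) (hmM : m ≤ M) (hK2 : (32 * C / (η * c)) ^ 2 / (c / (16 * C)) ≤ K) :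
    ∃ B : ℕ, (∀ V ∈ cat (pw S K) T, V.length ≤ B) ∧ 1 ≤ B ∧ (B : ℝ) ≤ 4 * M ∧
      (c / 4) ^ (K + 1) ≤ ∑ b ∈ range (B + 1), vL (cat (pw S K) T) b ∧
      ∀ h : ℕ, Even h → (h : ℝ) ≤ m → ∃ δ : ℝ,
        (∀ b, |vL (cat (pw S K) T) (b + h) - vL (cat (pw S K) T) b| ≤ δ) ∧
        (∀ b, b < h → |vL (cat (pw S K) T) b| ≤ δ) ∧ δ * B ≤ η * ∑ b ∈ range (B + 1), vL (cat (pw S K) T) b := by
  have hc := hS.c0
  have hC := hS.C0
  have hm := hS.m4
  have hM := hT.m4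
  have hm0 : 0 < m := by linarith
  have hM0 : 0 < M := by linarith
  obtain ⟨f, f1, f2, f3, f4, f5⟩ := hS.pol
  obtain ⟨w, w1, w2, w3, w4, w5⟩ := hT.pol
  have hv : Pl (cat (pw S K) T) (f ^ K * w) := pl_cat (uq_pw hS.uq hS.bu K) hT.bu (pl_pw hS.uq hS.bu f1 K) w1
  obtain ⟨B, hB⟩ : ∃ B : ℕ, B = K * ⌊3 * m⌋₊ + ⌊3 * M⌋₊ := ⟨_, rfl⟩
  have hLn : Ln (cat (pw S K) T) B := by
    rw [hB]
    exact ln_cat (ln_pw hS.ln K) hT.ln
  have hB4 : (B : ℝ) ≤ 4 * M := by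
    rw [hB]
    push_cast
    have a1 := Nat.floor_le (show 0 ≤ 3 * m by linarith)
    have a2 := Nat.floor_le (show 0 ≤ 3 * M by linarith)
    have a3 : (0 : ℝ) ≤ K := Nat.cast_nonneg _
    nlinarith
  have hB1 : 1 ≤ B := by
    rw [hB]
    have a1 : 1 ≤ ⌊3 * M⌋₊ := Nat.le_floor (by push_cast; linarith)
    omega
  have hvan : ∀ b, B < b → (f ^ K * w).coeff b = 0 := fun b hb => by
    rw [hv]
    exact vL_zero hLn hb
  have hsum : ∑ b ∈ range (B + 1), vL (cat (pw S K) T) b = f.eval 1 ^ K * w.eval 1 := by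
    have e1 := sum_coeff_eq hvan
    rw [Polynomial.eval_mul, Polynomial.eval_pow] at e1
    rw [← e1]
    exact sum_congr rfl fun b _ => (hv b).symm
  have hf0 : 0 < f.eval 1 := lt_of_lt_of_le (by positivity) f4
  have hw0 : 0 < w.eval 1 := lt_of_lt_of_le (by positivity) w4
  refine ⟨B, hLn, hB1, hB4, ?_, fun h he hh => ?_⟩
  · rw [hsum, pow_succ]
    exact mul_le_mul (pow_le_pow_left₀ (by positivity) f4 K) w4 (by positivity) (by positivity)
  · rw [hsum]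
    obtain ⟨cM, hcM⟩ : ∃ cM : ℝ, cM = c / (16 * C) := ⟨_, rfl⟩
    have hcM0 : 0 < cM := by
      rw [hcM]
      positivity
    obtain ⟨g, hg⟩ : ∃ g : Polynomial ℝ, g = ∑ i ∈ Ev m, Polynomial.monomial i (c / m) := ⟨_, rfl⟩
    have hgc : ∀ i, g.coeff i = if i ∈ Ev m then c / m else 0 := by
      intro i
      rw [hg, Polynomial.finsetSum_coeff]
      simp_rw [Polynomial.coeff_monomial]
      rw [sum_ite_eq' (Ev m) i fun _ => c / m]
    have hge : g.eval 1 = (Ev m).card * (c / m) := by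
      rw [hg, Polynomial.eval_finsetSum]
      simp only [Polynomial.eval_monomial, one_pow, mul_one, sum_const, nsmul_eq_mul]
    have g1 : ∀ i, 0 ≤ g.coeff i := fun i => by
      rw [hgc]
      split_ifs
      · positivity
      · exact le_rfl
    have g2 : ∀ i, g.coeff i ≤ f.coeff i := fun i => by
      rw [hgc]
      split_ifs with hi
      · rw [mem_Ev hm0.le] at hi
        rw [f1]
        exact hS.low i hi.1 hi.2.1 (by linarith [hi.2.2])
      · exact f2 i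
    have g3 : ∀ i, g.coeff i ≤ f.coeff (i + h) := fun i => by
      rw [hgc]
      split_ifs with hi
      · rw [mem_Ev hm0.le] at hi
        rw [f1]
        have hh0 : (0 : ℝ) ≤ h := Nat.cast_nonneg _
        refine hS.low (i + h) (hi.1.add he) ?_ ?_
        · push_cast
          linarith [hi.2.1]
        · push_cast
          linarith [hi.2.2]
      · exact f2 _
    have g4 : cM * f.eval 1 ≤ g.eval 1 := by
      rw [hge]
      have h4 := Ev_card hm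
      have h5 : c / 4 ≤ ((Ev m).card : ℝ) * (c / m) := by
        calc c / 4 = m / 4 * (c / m) := by field_simp
          _ ≤ _ := mul_le_mul_of_nonneg_right h4 (by positivity)
      refine le_trans ?_ h5
      rw [hcM]
      calc c / (16 * C) * f.eval 1 ≤ c / (16 * C) * (4 * C) := mul_le_mul_of_nonneg_left f5 (by positivity)
        _ = c / 4 := by
          field_simp
          norm_num
    have hwM : ∀ i, |w.coeff i| ≤ C / M := fun i => by
      rw [abs_of_nonneg (w2 i), w1]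
      exact hT.up i
    have hmin := fun b => mineka_point hf0 hcM0 f2 g1 g2 g3 rfl g4 hwM K b
    refine ⟨f.eval 1 ^ K * (2 / Real.sqrt (cM * (K + 1))) * (C / M), fun b => ?_, fun b hb => ?_, ?_⟩
    · rw [← hv, ← hv]
      exact hmin b
    · have h5 : vL (cat (pw S K) T) b = 0 := by
        unfold vL
        have h6 : {V | V ∈ cat (pw S K) T ∧ V.length = b} = ∅ := by
          rw [Set.eq_empty_iff_forall_notMem]
          rintro _ ⟨⟨V, hV, U, hU, rfl⟩, h8⟩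
          have h9 := hT.lo U hU
          rw [List.length_append] at h8
          have h10 : (U.length : ℝ) ≤ b := by
            have : U.length ≤ b := by omega
            exact_mod_cast this
          have h11 : (b : ℝ) < h := by exact_mod_cast hb
          linarith
        rw [h6, Set.ncard_empty]
        norm_num
      rw [h5, abs_zero]
      positivity
    · have hsq : 32 * C / (η * c) ≤ Real.sqrt (cM * (K + 1)) := by
        apply Real.le_sqrt_of_sq_le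
        rw [← hcM, div_le_iff₀ hcM0] at hK2
        nlinarith
      have hsq0 : 0 < Real.sqrt (cM * (K + 1)) := lt_of_lt_of_le (by positivity) hsq
      have h7 : 8 * C / Real.sqrt (cM * (K + 1)) ≤ η * (c / 4) := by
        rw [div_le_iff₀ hsq0]
        rw [div_le_iff₀ (by positivity)] at hsq
        nlinarith
      have h8 : 0 ≤ f.eval 1 ^ K := by positivity
      calc f.eval 1 ^ K * (2 / Real.sqrt (cM * (K + 1))) * (C / M) * B
          ≤ f.eval 1 ^ K * (2 / Real.sqrt (cM * (K + 1))) * (C / M) * (4 * M) :=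
            mul_le_mul_of_nonneg_left hB4 (by positivity)
        _ = f.eval 1 ^ K * (8 * C / Real.sqrt (cM * (K + 1))) := by
            field_simp
            norm_num
        _ ≤ f.eval 1 ^ K * (η * w.eval 1) := by
            refine mul_le_mul_of_nonneg_left (h7.trans ?_) h8
            exact mul_le_mul_of_nonneg_left w4 hη.le
        _ = η * (f.eval 1 ^ K * w.eval 1) := by ring

/-! ### 4. The row -/

theorem chainSt_of (hU : UpLenV) : ChainSt := by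
  intro η a hη ha
  obtain ⟨H, c, K0, k0, hH, hc, hK0, hlow⟩ := fpLenV 1 3 one_pos (by norm_num)
  obtain ⟨C, k1, hC, hup⟩ := hU H K0 hH hK0
  obtain ⟨ρ, hρ, hr⟩ := ratio
  obtain ⟨k2, hk2⟩ := big 4
  obtain ⟨D, hD⟩ := exists_nat_ge ((6 * H : ℝ) + 2 * K0)
  -- one factor
  have hfac : ∀ k, k0 ≤ k → k1 ≤ k → k2 ≤ k → Fac (SK H K0 k) (PW.mZ (2 ^ k)) c C := by
    intro k h0 h1 h2
    have hm := hk2 k h2
    have hm0 : 0 < PW.mZ (2 ^ k) := by linarith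
    refine ⟨hm, hc, hC, SK_BU, SK_uq, fun w hw => hw.2.1, fun w hw => hw.2.2, fun b hb b1 b2 => ?_, fun b => ?_⟩
    · have h3 := hlow k (H * 2 ^ k) b h0 le_rfl (by omega) hb (by linarith) b2
      have h4 : gf {w | (w ∈ PtC.FPs (H * 2 ^ k) ∧ hgt w ≤ 2 * (H * 2 ^ k) ∧
          (∀ i, i ≤ w.length → |(lat w i : ℝ)| ≤ K0 * 2 ^ k) ∧
          ∃ x y, w = x ++ y ∧ x ∈ BU ∧ y ∈ BU ∧ H * 2 ^ k ≤ 2 * hgt x ∧ hgt x < H * 2 ^ k) ∧ w.length = b} ≤
          ENNReal.ofReal (vL (SK H K0 k) b) := by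
        rw [vL_gf]
        refine gf_mono ?_
        rintro w ⟨h5, h6⟩
        exact ⟨⟨h5, by rw [h6]; exact b1, by rw [h6]; exact b2⟩, h6⟩
      have h5 := h3.trans h4
      exact (ENNReal.ofReal_le_ofReal_iff (vL_nonneg _ _)).1 h5
    · have h3 := hup k (H * 2 ^ k) b h1 le_rfl (by omega)
      have h4 : ENNReal.ofReal (vL (SK H K0 k) b) ≤ ENNReal.ofReal (C / PW.mZ (2 ^ k)) := by
        rw [vL_gf]
        refine (gf_mono ?_).trans h3
        rintro w ⟨h5, h6⟩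
        exact ⟨h5.1, h6⟩
      exact (ENNReal.ofReal_le_ofReal_iff (by positivity)).1 h4
  -- the numbers
  obtain ⟨K, hK⟩ := exists_nat_ge ((32 * C / (η * c)) ^ 2 / (c / (16 * C)) + 1)
  have hK1 : (1 : ℝ) ≤ K := by
    have : 0 ≤ (32 * C / (η * c)) ^ 2 / (c / (16 * C)) := by positivity
    linarith
  obtain ⟨q1, hq1⟩ := pow_unbounded_of_one_lt (3 * K * ρ) (show (1 : ℝ) < 2 by norm_num)
  obtain ⟨c1, hc1⟩ := pow_unbounded_of_one_lt (8 * ρ / a + 128 * D) (show (1 : ℝ) < 2 by norm_num)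
  obtain ⟨q, hq⟩ := pow_unbounded_of_one_lt (ρ * 4 ^ (c1 + q1)) (show (1 : ℝ) < 2 by norm_num)
  refine ⟨(c / 4) ^ (K + 1), q, k0 + k1 + k2 + c1 + q1, by positivity, fun l hl => ?_⟩
  obtain ⟨k', rfl⟩ : ∃ k', l = k' + q1 + c1 := ⟨l - c1 - q1, by omega⟩
  have hS := hfac k' (by omega) (by omega) (by omega)
  have hT := hfac (k' + q1) (by omega) (by omega) (by omega)
  obtain ⟨r1, -⟩ := hr k' q1
  obtain ⟨r3, -⟩ := hr (k' + q1) c1
  obtain ⟨-, r2⟩ := hr k' (q1 + c1)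
  rw [show k' + (q1 + c1) = k' + q1 + c1 by ring] at r2
  have hm := hS.m4
  have hM := hT.m4
  have hρ0 : 0 < ρ := by linarith
  have hp1 : (0 : ℝ) < 2 ^ q1 := by positivity
  have hp2 : (0 : ℝ) < 2 ^ c1 := by positivity
  have hKm : 3 * K * PW.mZ (2 ^ k') ≤ PW.mZ (2 ^ (k' + q1)) := by
    have h1 : 3 * K * ρ * PW.mZ (2 ^ k') ≤ ρ * PW.mZ (2 ^ (k' + q1)) := by
      refine le_trans ?_ r1
      rw [mul_comm (PW.mZ (2 ^ k'))]
      exact mul_le_mul_of_nonneg_right hq1.le (by linarith)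
    nlinarith
  have hmM : PW.mZ (2 ^ k') ≤ PW.mZ (2 ^ (k' + q1)) := by nlinarith
  obtain ⟨B, b1, b2, b3, b4, b5⟩ := chain (K := K) hS hT hη hKm hmM (by linarith)
  have hML : 4 * PW.mZ (2 ^ (k' + q1)) ≤ a / 2 * PW.mZ (2 ^ (k' + q1 + c1)) := by
    have h1 : 8 * ρ / a ≤ 2 ^ c1 := by
      have : (0 : ℝ) ≤ 128 * D := by positivity
      linarith
    rw [div_le_iff₀ ha] at h1
    have h2 : 8 * ρ * PW.mZ (2 ^ (k' + q1)) ≤ a * (ρ * PW.mZ (2 ^ (k' + q1 + c1))) := by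
      calc 8 * ρ * PW.mZ (2 ^ (k' + q1)) ≤ 2 ^ c1 * a * PW.mZ (2 ^ (k' + q1)) :=
            mul_le_mul_of_nonneg_right h1 (by linarith)
        _ = a * (PW.mZ (2 ^ (k' + q1)) * 2 ^ c1) := by ring
        _ ≤ _ := mul_le_mul_of_nonneg_left r3 ha.le
    have h3 : ρ * (8 * PW.mZ (2 ^ (k' + q1))) ≤ ρ * (a * PW.mZ (2 ^ (k' + q1 + c1))) := by linarith
    have h4 := le_of_mul_le_mul_left h3 hρ0
    linarith
  refine ⟨cat (pw (SK H K0 k') K) (SK H K0 (k' + q1)), B, ?_, b1, b2, b3.trans hML, b4, fun h he hh => b5 h he ?_⟩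
  · refine ⟨cat_BU (pw_BU hS.bu K) hT.bu, ?_, ?_, fun V hV => even_BU (cat_BU (pw_BU hS.bu K) hT.bu hV)⟩
    · intro V hV i hi
      have z1 : Zs (SK H K0 k') (D * 2 ^ k') := SK_zs hD
      have z2 : Zs (SK H K0 (k' + q1)) (D * 2 ^ (k' + q1)) := SK_zs hD
      have z3 := zs_cat (pw_BU hS.bu K) (zs_pw hS.bu z1 K) z2 V hV i hi
      have h1 : (hn (vx oo up V i) : ℝ) ≤ K * (D * 2 ^ k') + D * 2 ^ (k' + q1) := by
        exact_mod_cast z3
      have h2 : (K : ℝ) ≤ 2 ^ q1 := by nlinarith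
      have h3 : (0 : ℝ) < 2 ^ k' := by positivity
      have h4 : (0 : ℝ) ≤ D := Nat.cast_nonneg _
      have h5 : (K : ℝ) * (D * 2 ^ k') ≤ D * 2 ^ (k' + q1) := by
        rw [pow_add]
        calc (K : ℝ) * (D * 2 ^ k') ≤ 2 ^ q1 * (D * 2 ^ k') := mul_le_mul_of_nonneg_right h2 (by positivity)
          _ = _ := by ring
      have h6 : 128 * (D : ℝ) < 2 ^ c1 := by
        have : 0 ≤ 8 * ρ / a := by positivity
        linarith
      have h7 : (0 : ℝ) < 2 ^ (k' + q1) := by positivity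
      have h8 : 64 * (hn (vx oo up V i) : ℝ) < 2 ^ (k' + q1 + c1) := by
        rw [pow_add (2 : ℝ) (k' + q1) c1]
        calc 64 * (hn (vx oo up V i) : ℝ) ≤ 128 * D * 2 ^ (k' + q1) := by linarith
          _ < 2 ^ c1 * 2 ^ (k' + q1) := mul_lt_mul_of_pos_right h6 h7
          _ = _ := by ring
      exact_mod_cast h8
    · intro V hV V' hV' E E' hE hE' he'
      exact uq_cat (uq_pw hS.uq hS.bu K) hT.uq hT.bu V hV V' hV' E E' (fun i i1 i2 => hE.mem i i1 i2)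
        (fun i i1 i2 => hE'.mem i i1 i2) he'
  · have hq0 : (0 : ℝ) < 2 ^ q := by positivity
    have h1 : (h : ℝ) * 2 ^ q ≤ 2 ^ q * PW.mZ (2 ^ k') := by
      refine hh.trans (r2.trans ?_)
      refine mul_le_mul_of_nonneg_right ?_ (by linarith)
      rw [add_comm q1 c1]
      exact hq.le
    have h2 : 2 ^ q * (h : ℝ) ≤ 2 ^ q * PW.mZ (2 ^ k') := by linarith
    exact le_of_mul_le_mul_left h2 hq0

end ChM

end SLW

end HexObs
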