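import Pool.Agent.TIP.RevM
import Pool.Agent.TIP.TipX
import Pool.Agent.TIP.NfM
import Pool.Agent.NTA.TbM
import Pool.Agent.EN.LatC
import Pool.Agent.SLW.Defs

/-!
SLOW, row S8, upper half: the ends of row N with many letters have a small mass.
-/

set_option autoImplicit false

namespace HexObs

namespace SLW

open Finset TS SDN NTW NTA TIP

open scoped ENNReal

namespace EndL

/-- bridges with many letters -/
lemma gf_wide (b : ℕ) (y : ℝ) : gf {Z | Z ∈ BU ∧ hgt Z ≤ 2 ^ b ∧ Z ∈ {Z : List Bool | y ≤ (Z.length : ℝ)}} ≤ NTm.TL (2 ^ b) y := by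
  refine le_trans (gf_mono ?_) (EN.LB.gf_TL (2 ^ b) y)
  intro Z hZ
  exact ⟨hgt Z, hZ.2.1, TIP.BU_hgt hZ.1, hZ.2.2⟩

lemma m_pow {D : ℝ} (hD : 1 ≤ D) (h : ∀ k, PW.mZ (2 ^ (k + 1)) ≤ D * PW.mZ (2 ^ k)) (k i : ℕ) :
    PW.mZ (2 ^ (k + i)) ≤ D ^ i * PW.mZ (2 ^ k) := by
  induction i with
  | zero => simp
  | succ i ih =>
    calc PW.mZ (2 ^ (k + (i + 1))) ≤ D * PW.mZ (2 ^ (k + i)) := h (k + i)
      _ ≤ D * (D ^ i * PW.mZ (2 ^ k)) := mul_le_mul_of_nonneg_left ih (by linarith)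
      _ = D ^ (i + 1) * PW.mZ (2 ^ k) := by ring

lemma m_zero (b : ℕ) : PW.mZ (2 ^ 0) ≤ PW.mZ (2 ^ b) := by
  have h := mlow_M.low 0 b
  have h0 := mlow_M.pos 0
  rw [zero_add] at h
  have h1 : (1 : ℝ) ≤ (2 : ℝ) ^ (5 / 4 * (b : ℝ)) := Real.one_le_rpow (by norm_num) (by positivity)
  have h' : (2 : ℝ) ^ (5 / 4 * (b : ℝ)) * PW.mZ (2 ^ 0) ≤ PW.mZ (2 ^ b) := h
  have h0' : 0 < PW.mZ (2 ^ 0) := h0
  calc PW.mZ (2 ^ 0) = 1 * PW.mZ (2 ^ 0) := (one_mul _).symm
    _ ≤ (2 : ℝ) ^ (5 / 4 * (b : ℝ)) * PW.mZ (2 ^ 0) := mul_le_mul_of_nonneg_right h1 h0'.le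
    _ ≤ _ := h'

end EndL

open EndL

/-- **ends with many letters** -/
theorem yLong (η : ℝ) (m : ℕ) (e : ℝ) (hη : 0 < η) (he : 0 < e) : ∃ (L : ℝ) (b0 : ℕ), 0 < L ∧ ∀ b, b0 ≤ b →
    gf {Y | Y ∈ SA ∧ rev Y ∈ GT b η ∧ In (2 ^ (b + m)) Y ∧ Y ∈ {Y : List Bool | L * PW.mZ (2 ^ b) ≤ (Y.length : ℝ)}} ≤
      ENNReal.ofReal (e * Ub b) * Xb b := by
  obtain ⟨C, e0, hC, hX⟩ := tipxg η hη
  obtain ⟨D, hD, hup⟩ := EnsW.ref_up
  obtain ⟨A1, hA1, hTB⟩ := tb_M 1
  obtain ⟨A2, hA2, hTA⟩ := ta_M 1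
  obtain ⟨M, hM, hMu⟩ := mup_M
  have hMp := m_pow hM hMu
  have hm0 : 0 < PW.mZ (2 ^ 0) := mlow_M.pos 0
  -- the number of scales
  obtain ⟨j0, hj0⟩ := Nf.ex_Ub (K := C * D ^ (m + 3)) (e := e / 16) (by positivity) (by positivity)
  obtain ⟨j, hj⟩ : ∃ j, j = j0 + 2 := ⟨_, rfl⟩
  -- the size
  obtain ⟨T, hT⟩ : ∃ T : ℝ, T = C * D ^ (m + 3) * A1 + C ^ j * (A2 * M ^ (m + 6) * D ^ (m + 6)) := ⟨_, rfl⟩
  have hTp : 0 < T := by rw [hT]; positivity
  obtain ⟨lam, hlam⟩ : ∃ lam : ℝ, lam = 16 * T / e + M ^ (m + 6) + 2 / PW.mZ (2 ^ 0) := ⟨_, rfl⟩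
  have l1 : 16 * T / e ≤ lam := by
    have : 0 < M ^ (m + 6) := by positivity
    have : 0 < 2 / PW.mZ (2 ^ 0) := by positivity
    linarith
  have l2 : M ^ (m + 6) ≤ lam := by
    have : 0 < 16 * T / e := by positivity
    have : 0 < 2 / PW.mZ (2 ^ 0) := by positivity
    linarith
  have l3 : 2 / PW.mZ (2 ^ 0) ≤ lam := by
    have : 0 < 16 * T / e := by positivity
    have : 0 < M ^ (m + 6) := by positivity
    linarith
  have hM1 : 1 ≤ M ^ (m + 6) := one_le_pow₀ hM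
  have hlam1 : 1 ≤ lam := hM1.trans l2
  have hlam0 : 0 < lam := by linarith
  refine ⟨4 * lam, e0 + j, by positivity, fun b hb => ?_⟩
  have hU := Ub_pos b
  have hmb : 0 < PW.mZ (2 ^ b) := mlow_M.pos b
  obtain ⟨y, hy⟩ : ∃ y : ℝ, y = lam * PW.mZ (2 ^ b) := ⟨_, rfl⟩
  have hy0 : 0 < y := by rw [hy]; positivity
  have hy2 : 2 ≤ y := by
    rw [hy]
    have h1 := m_zero b
    rw [div_le_iff₀ hm0] at l3
    nlinarith
  obtain ⟨K, hK⟩ : ∃ K, K = b + (m + 3) := ⟨_, rfl⟩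
  obtain ⟨P, hP⟩ : ∃ P : Set (List Bool), P = {L | L ∈ WL K ∧ 2 * y ≤ (L.length : ℝ)} := ⟨_, rfl⟩
  obtain ⟨P', hP'⟩ : ∃ P' : Set (List Bool), P' = {L | L ∈ WL K ∧ y ≤ (L.length : ℝ)} := ⟨_, rfl⟩
  -- the reversal
  have hrev := rev_le (b := b) (D := 2 ^ (b + m)) (K := K) (η := η)
    (Q := {Y : List Bool | 4 * lam * PW.mZ (2 ^ b) ≤ (Y.length : ℝ)}) (Q' := {L | 2 * y ≤ (L.length : ℝ)}) (by
      have e : (2 : ℕ) ^ (b + (m + 3)) = 8 * 2 ^ (b + m) := by rw [show b + (m + 3) = b + m + 3 by ring, pow_add]; ring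
      have : 1 ≤ 2 ^ (b + m) := Nat.one_le_two_pow
      rw [hK]
      omega) (by
      intro Y hY _ _
      have h1 : 4 * lam * PW.mZ (2 ^ b) ≤ (Y.length : ℝ) := hY
      show 2 * y ≤ ((rev Y).length : ℝ)
      rw [rev_length]
      nlinarith) (by
      intro Y hY _
      have h1 : 4 * lam * PW.mZ (2 ^ b) ≤ (Y.length : ℝ) := hY
      show 2 * y ≤ (((rev Y).drop 1).length : ℝ)
      rw [List.length_drop, rev_length]
      have h2 : (Y.length : ℝ) - 1 ≤ ((Y.length - 1 : ℕ) : ℝ) := by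
        have : Y.length ≤ (Y.length - 1) + 1 := by omega
        have h3 : (Y.length : ℝ) ≤ (((Y.length - 1) + 1 : ℕ) : ℝ) := by exact_mod_cast this
        push_cast at h3
        linarith
      nlinarith)
  have hset : {L | L ∈ WL K ∧ L ∈ GT b η ∧ L ∈ {L : List Bool | 2 * y ≤ (L.length : ℝ)}} = P ∩ GT b η := by
    rw [hP]
    ext L
    exact ⟨fun h => ⟨⟨h.1, h.2.2⟩, h.2.1⟩, fun h => ⟨h.1.1, h.2, h.1.2⟩⟩
  rw [hset] at hrev
  -- one step
  have hstep := hX P P' {Z : List Bool | y ≤ (Z.length : ℝ)} K b (b - j) (ENNReal.ofReal (A1 / lam * Ub b))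
    (ENNReal.ofReal (A2 * M ^ (m + 6) * D ^ (m + 6) / lam) * (ENNReal.ofReal (Ub b) * Xb b ^ 2))
    (fun L hL => by rw [hP] at hL; exact hL.1) (fun L hL => by rw [hP'] at hL; exact hL.1.1) (by omega) (by omega) (by omega) (by
      intro A Z1 Z2 h1 _ _ _ h5
      rw [hP] at h1
      rw [hP']
      obtain ⟨h2, h3⟩ := h1
      have h5' : ((Z1 ++ Z2).length : ℝ) < y := not_le.1 h5
      rw [List.length_append] at h5'
      rw [List.length_append, List.length_append] at h3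
      push_cast at h3 h5'
      refine ⟨⟨?_, fun i hi dir => ?_⟩, ?_⟩
      · have := SA_take h2.1 (A ++ Z1).length
        rwa [← List.append_assoc, List.take_left' rfl] at this
      · have := h2.2 i (by rw [← List.append_assoc, List.length_append]; omega) dir
        rwa [← List.append_assoc, vx_append (by omega)] at this
      · show y ≤ ((A ++ Z1).length : ℝ)
        rw [List.length_append]
        push_cast
        have : (0 : ℝ) ≤ (Z1.length : ℝ) := by positivity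
        linarith) (by
      refine (gf_wide b y).trans ?_
      have := hTB b lam hlam1
      rw [pow_one] at this
      rw [hy]
      exact this) (by
      have hKe : K + 3 = b + (m + 6) := by omega
      have hsub : {t | t ∈ SA ∧ ∃ L ∈ P', ∃ x, BX ((2 ^ (b - j) : ℕ) : ℤ) x ∧ t = L ++ x} ⊆
          {t | t ∈ WL (K + 3) ∧ lam / M ^ (m + 6) * PW.mZ (2 ^ (K + 3)) ≤ (t.length : ℝ)} := by
        rintro t ⟨h1, L, hL, x, hx, rfl⟩
        rw [hP'] at hL
        refine ⟨EnsW.glue_WL (K := K) (R := 2 ^ (b - j)) (Nat.pow_le_pow_right (by norm_num) (by omega)) hL.1 hx h1, ?_⟩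
        have h2 := hMp b (m + 6)
        rw [← hKe] at h2
        have h3 : lam / M ^ (m + 6) * PW.mZ (2 ^ (K + 3)) ≤ y := by
          rw [hy]
          calc lam / M ^ (m + 6) * PW.mZ (2 ^ (K + 3)) ≤ lam / M ^ (m + 6) * (M ^ (m + 6) * PW.mZ (2 ^ b)) := by gcongr
            _ = lam * PW.mZ (2 ^ b) := by field_simp
        refine (h3.trans hL.2).trans ?_
        rw [List.length_append]
        push_cast
        have : (0 : ℝ) ≤ (x.length : ℝ) := by positivity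
        linarith
      refine (gf_mono hsub).trans ?_
      have h4 := hTA (K + 3) (lam / M ^ (m + 6)) (by rw [le_div_iff₀ (by positivity)]; linarith)
      rw [pow_one] at h4
      refine h4.trans ?_
      have h5 := hup b (m + 6)
      rw [← hKe] at h5
      rw [ENNReal.ofReal_mul (by positivity), mul_assoc]
      refine (mul_le_mul_right h5 _).trans (le_of_eq ?_)
      rw [← mul_assoc, ← ENNReal.ofReal_mul (by positivity)]
      congr 2
      field_simp)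
  -- the numbers
  have n1 : Ub (b - j) ≤ Ub (b - j0) := Ub_mono (by omega)
  have n2 : C * D ^ (m + 3) * (Ub (b - j0) / Ub b) ≤ e / 16 := hj0 b (by omega)
  have hsum : C / Ub b * (Ub (b - j) + A1 / lam * Ub b) * D ^ (m + 3) + C ^ j * (A2 * M ^ (m + 6) * D ^ (m + 6) / lam) ≤ e / 8 := by
    have e1 : C / Ub b * (Ub (b - j) + A1 / lam * Ub b) * D ^ (m + 3) + C ^ j * (A2 * M ^ (m + 6) * D ^ (m + 6) / lam) =
        C * D ^ (m + 3) * (Ub (b - j) / Ub b) + T / lam := by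
      rw [hT]
      field_simp
      ring
    rw [e1]
    have e2 : C * D ^ (m + 3) * (Ub (b - j) / Ub b) ≤ C * D ^ (m + 3) * (Ub (b - j0) / Ub b) := by gcongr
    have e3 : T / lam ≤ e / 16 := by
      rw [div_le_iff₀ hlam0]
      rw [div_le_iff₀ he] at l1
      linarith
    linarith
  have hbj : b - (b - j) = j := by omega
  rw [hbj] at hstep
  have hupK := hup b (m + 3)
  rw [← hK] at hupK
  have hmain : gf (P ∩ GT b η) * Xb b ≤ (ENNReal.ofReal (e / 8 * Ub b) * Xb b) * Xb b := by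
    refine hstep.trans ?_
    calc ENNReal.ofReal (C / Ub b) * (ENNReal.ofReal (Ub (b - j)) + ENNReal.ofReal (A1 / lam * Ub b)) *
          (ENNReal.ofReal (Ub K) * Xb K ^ 2) + ENNReal.ofReal (C ^ j) *
          (ENNReal.ofReal (A2 * M ^ (m + 6) * D ^ (m + 6) / lam) * (ENNReal.ofReal (Ub b) * Xb b ^ 2))
        ≤ ENNReal.ofReal (C / Ub b) * (ENNReal.ofReal (Ub (b - j)) + ENNReal.ofReal (A1 / lam * Ub b)) *
          (ENNReal.ofReal (D ^ (m + 3)) * (ENNReal.ofReal (Ub b) * Xb b ^ 2)) + ENNReal.ofReal (C ^ j) *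
          (ENNReal.ofReal (A2 * M ^ (m + 6) * D ^ (m + 6) / lam) * (ENNReal.ofReal (Ub b) * Xb b ^ 2)) := by gcongr
      _ = ENNReal.ofReal (C / Ub b * (Ub (b - j) + A1 / lam * Ub b) * D ^ (m + 3) +
          C ^ j * (A2 * M ^ (m + 6) * D ^ (m + 6) / lam)) * (ENNReal.ofReal (Ub b) * Xb b ^ 2) := by
          have hUj := Ub_pos (b - j)
          rw [ENNReal.ofReal_add (by positivity) (by positivity),
            ENNReal.ofReal_mul (q := D ^ (m + 3)) (show 0 ≤ C / Ub b * (Ub (b - j) + A1 / lam * Ub b) by positivity),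
            ENNReal.ofReal_mul (show 0 ≤ C / Ub b by positivity), ENNReal.ofReal_add (by positivity) (by positivity),
            ENNReal.ofReal_mul (p := C ^ j) (by positivity)]
          ring
      _ ≤ ENNReal.ofReal (e / 8) * (ENNReal.ofReal (Ub b) * Xb b ^ 2) := mul_le_mul_left (ENNReal.ofReal_le_ofReal hsum) _
      _ = _ := by
          rw [ENNReal.ofReal_mul (by positivity)]
          ring
  have hfin := (ENNReal.mul_le_mul_iff_left (Xb_ne_zero b) (Xb_ne_top b)).1 hmain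
  refine hrev.trans ((mul_le_mul_right hfin 4).trans ?_)
  rw [← mul_assoc, show (4 : ℝ≥0∞) = ENNReal.ofReal 4 by simp, ← ENNReal.ofReal_mul (by norm_num)]
  refine mul_le_mul_left (ENNReal.ofReal_le_ofReal ?_) _
  nlinarith

end SLW

end HexObs
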