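import Pool.Agent.SLW.SmallS
import Pool.Agent.SLW.LevelD
import Pool.Agent.SLW.TeleW
import Pool.Agent.TOG.Lim

/-!
SLW: the assembly of `SlowF` (helper45), first part: all levels together for fixed lengths n and n + h.
-/

set_option autoImplicit false

namespace HexObs

namespace SLW

open Finset TS SDN TIW

/-- the oscillation of the cutoff of the levels above, literal of OscG -/
def OscGSt : Prop := ∀ {lb s M : ℕ} {a w c : ℝ} {Ch : ℕ → Set (List Bool)} {B : ℕ → ℕ}, ChF lb s M a w Ch B → 0 < w →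
  0 < c → 8 ≤ s → ∀ {i : ℕ}, i < M →
    OscF (lb + i * s) (fun t => TW.gc c (TW.Ta (fun j => aL lb s M Ch B j t) M (i + 1))) (thG lb s M c Ch B i)

/-- the mass of the oscillation, literal of OscG -/
def ELSt : Prop := ∀ {lb s M : ℕ} {a w c : ℝ} {Ch : ℕ → Set (List Bool)} {B : ℕ → ℕ}, ChF lb s M a w Ch B → 0 < w →
  0 < c → 8 ≤ s → ∀ {i : ℕ}, i < M → ∀ {τ : ℝ}, 0 ≤ τ → ∀ n : ℕ,
    EL (lb + i * s) (Ch i) (fun A => τ + thG lb s M c Ch B i A) n ≤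
      ∑ t ∈ sawF n, xc ^ n * (N1 (lb + i * s) (Ch i) t * (τ + 64 / (c * 2 ^ s) * ∑ j ∈ Ico (i + 1) M, qL lb s M Ch B j t))

namespace FI

/-- the mass of the words with n letters -/
noncomputable def Zm (n : ℕ) : ℝ := cS n * xc ^ n

lemma Zm_pos (n : ℕ) : 0 < Zm n := by
  unfold Zm
  have h1 : (0 : ℝ) < cS n := by exact_mod_cast TOG.cS_pos n
  exact mul_pos h1 (pow_pos xc_pos _)

/-- the weights of the words with j letters, relative to the mass of the words with n letters -/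
noncomputable def pw (n j : ℕ) (_ : List Bool) : ℝ := xc ^ j / Zm n

lemma pw_nonneg (n j : ℕ) (t : List Bool) : 0 ≤ pw n j t := div_nonneg (pow_nonneg xc_pos.le _) (Zm_pos n).le

lemma Ex_pw (n j : ℕ) (f : List Bool → ℝ) : TW.Ex (sawF j) (pw n j) f = (∑ t ∈ sawF j, xc ^ j * f t) / Zm n := by
  unfold TW.Ex pw
  rw [sum_div]
  exact sum_congr rfl fun t _ => by ring

lemma card_saw (n : ℕ) : ((sawF n).card : ℝ) = cS n := by
  unfold sawF cS
  rw [Set.ncard_eq_toFinset_card _ (sawN_fin n)]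

lemma Ex_one (n j : ℕ) : TW.Ex (sawF j) (pw n j) (fun _ => 1) = Zm j / Zm n := by
  rw [Ex_pw, sum_const, nsmul_eq_mul, card_saw]
  unfold Zm
  ring

open Classical in
lemma Ex_ind (n j : ℕ) (P : List Bool → Prop) :
    TW.Ex (sawF j) (pw n j) (fun t => if P t then 1 else 0) = Zm j / Zm n * TOG.Pn j {t | P t} := by
  rw [Ex_pw, ← mul_sum, sum_boole]
  have h1 : (((sawF j).filter fun t => P t).card : ℝ) = ({t | t ∈ SawN j ∧ t ∈ {t | P t}}.ncard : ℝ) := by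
    have h2 : {t | t ∈ SawN j ∧ t ∈ {t | P t}} = (((sawF j).filter fun t => P t : Finset (List Bool)) : Set (List Bool)) := by
      ext t
      simp only [coe_filter, Set.mem_ofPred_eq, mem_sawF]
    rw [h2, Set.ncard_coe_finset]
  rw [h1]
  unfold TOG.Pn
  have h2 : (0 : ℝ) < cS j := by exact_mod_cast TOG.cS_pos j
  unfold Zm
  field_simp

lemma N1_nonneg (l : ℕ) (Ch : Set (List Bool)) (t : List Bool) : 0 ≤ N1 l Ch t := NT_nonneg l Ch (fun _ => zero_le_one) t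

lemma N1_le_NQ (l : ℕ) (Ch : Set (List Bool)) (t : List Bool) : N1 l Ch t ≤ NQ l Ch t := by
  unfold N1 NT NQ
  rw [card_eq_sum_ones, Nat.cast_sum]
  refine sum_le_sum fun p _ => ?_
  rw [mul_one, Nat.cast_one]
  exact (min_le_left _ _).trans (max_le zero_le_one (min_le_left _ _))

lemma WL_nonneg (Ch : Set (List Bool)) (B : ℕ) : 0 ≤ WL' Ch B := sum_nonneg fun b _ => vL_nonneg Ch b

variable {lb s M : ℕ} {a w c : ℝ} {Ch : ℕ → Set (List Bool)} {B : ℕ → ℕ}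

lemma aL_nonneg (i : ℕ) (t : List Bool) : 0 ≤ aL lb s M Ch B i t :=
  div_nonneg (N1_nonneg _ _ _) (mul_nonneg (Nat.cast_nonneg _) (mul_nonneg (WL_nonneg _ _) (Ub_pos _).le))

lemma aL_le (i : ℕ) (t : List Bool) : aL lb s M Ch B i t ≤ qL lb s M Ch B i t :=
  div_le_div_of_nonneg_right (N1_le_NQ _ _ _) (mul_nonneg (Nat.cast_nonneg _) (mul_nonneg (WL_nonneg _ _) (Ub_pos _).le))

lemma qL_nonneg (i : ℕ) (t : List Bool) : 0 ≤ qL lb s M Ch B i t := (aL_nonneg i t).trans (aL_le i t)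

/-- the constants of the moments -/
def MomC (C1 : ℝ) : Prop := ∀ (l n : ℕ) (Ch : Set (List Bool)) (B : ℕ), Chn l Ch → (∀ V ∈ Ch, V.length ≤ B) →
  ∑ t ∈ sawF n, xc ^ n * N1 l Ch t ≤ C1 * (∑ b ∈ range (B + 1), vL Ch b) * Ub l * (cS n * xc ^ n) ∧
  ∑ t ∈ sawF n, xc ^ n * NQ l Ch t ^ 2 ≤ (C1 * Ub l) ^ 2 * (cS n * xc ^ n)

lemma Ex_q2 {C1 CA : ℝ} {n j i : ℕ} (hF : ChF lb s M a w Ch B) (hw : 0 < w) (hM : 1 ≤ M) (hV : MomC C1)
    (hi : i < M) (hZ : Zm j ≤ CA * Zm n) :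
    TW.Ex (sawF j) (pw n j) (fun t => qL lb s M Ch B i t ^ 2) ≤ C1 ^ 2 * CA / w ^ 2 / M ^ 2 := by
  have hM0 : (0 : ℝ) < M := by exact_mod_cast (by omega : 0 < M)
  have hZn := Zm_pos n
  have hU := Ub_pos (lb + i * s)
  have hW : w ≤ WL' (Ch i) (B i) := hF.mass i hi
  have hW0 : 0 < WL' (Ch i) (B i) := hw.trans_le hW
  have h1 := (hV (lb + i * s) j (Ch i) (B i) (hF.chn i hi) (hF.len i hi)).2
  rw [Ex_pw, div_le_iff₀ hZn]
  have e1 : ∑ t ∈ sawF j, xc ^ j * qL lb s M Ch B i t ^ 2 =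
      (∑ t ∈ sawF j, xc ^ j * NQ (lb + i * s) (Ch i) t ^ 2) / (M * (WL' (Ch i) (B i) * Ub (lb + i * s))) ^ 2 := by
    rw [sum_div]
    refine sum_congr rfl fun t _ => ?_
    unfold qL
    rw [div_pow]
    ring
  rw [e1, div_le_iff₀ (by positivity)]
  refine h1.trans ?_
  have h2 : C1 ^ 2 * (Ub (lb + i * s)) ^ 2 * (CA * Zm n) ≤ C1 ^ 2 * CA / w ^ 2 / M ^ 2 * Zm n *
      (M * (WL' (Ch i) (B i) * Ub (lb + i * s))) ^ 2 := by
    have e2 : C1 ^ 2 * CA / w ^ 2 / M ^ 2 * Zm n * (M * (WL' (Ch i) (B i) * Ub (lb + i * s))) ^ 2 =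
        C1 ^ 2 * (Ub (lb + i * s)) ^ 2 * (CA * Zm n) * (WL' (Ch i) (B i) ^ 2 / w ^ 2) := by
      field_simp
    rw [e2]
    have h3 : 1 ≤ WL' (Ch i) (B i) ^ 2 / w ^ 2 := by
      rw [one_le_div (by positivity)]
      gcongr
    have h4 : 0 ≤ C1 ^ 2 * (Ub (lb + i * s)) ^ 2 * (CA * Zm n) := by
      have h5 : 0 ≤ CA * Zm n := (Zm_pos j).le.trans hZ
      positivity
    nlinarith
  refine le_trans ?_ h2
  rw [mul_pow]
  exact mul_le_mul_of_nonneg_left hZ (by positivity)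

lemma Ex_a2 {C1 CA : ℝ} {n j i : ℕ} (hF : ChF lb s M a w Ch B) (hw : 0 < w) (hM : 1 ≤ M) (hV : MomC C1)
    (hi : i < M) (hZ : Zm j ≤ CA * Zm n) :
    TW.Ex (sawF j) (pw n j) (fun t => aL lb s M Ch B i t ^ 2) ≤ C1 ^ 2 * CA / w ^ 2 / M ^ 2 := by
  refine (TW.Ex_mono (pw_nonneg n j) fun t _ => ?_).trans (Ex_q2 hF hw hM hV hi hZ)
  exact pow_le_pow_left₀ (aL_nonneg i t) (aL_le i t) 2

/-- the mass of the weight of the level i times the oscillation -/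
lemma Ex_osc {C1 CA τ : ℝ} {n j i : ℕ} (hF : ChF lb s M a w Ch B) (hw : 0 < w) (hc : 0 < c) (hM : 1 ≤ M) (hV : MomC C1)
    (hi : i < M) (hτ : 0 ≤ τ) (hZ : Zm j ≤ CA * Zm n) :
    TW.Ex (sawF j) (pw n j) (fun t => aL lb s M Ch B i t * (τ + 64 / (c * 2 ^ s) * ∑ k ∈ Ico (i + 1) M, qL lb s M Ch B k t)) ≤
      (τ * (CA + C1 ^ 2 * CA / w ^ 2) + 64 / (c * 2 ^ s) * (C1 ^ 2 * CA / w ^ 2)) / M := by
  have hM0 : (0 : ℝ) < M := by exact_mod_cast (by omega : 0 < M)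
  obtain ⟨B0, hB0⟩ : ∃ B0, B0 = C1 ^ 2 * CA / w ^ 2 := ⟨_, rfl⟩
  have ha2 := Ex_a2 hF hw hM hV hi hZ
  rw [← hB0] at ha2 ⊢
  have hZn := Zm_pos n
  have hB00 : 0 ≤ B0 := by
    have h1 : 0 ≤ TW.Ex (sawF j) (pw n j) (fun t => aL lb s M Ch B i t ^ 2) :=
      sum_nonneg fun t _ => mul_nonneg (pw_nonneg n j t) (sq_nonneg _)
    have h2 : 0 ≤ B0 / M ^ 2 := h1.trans ha2
    by_contra h3
    rw [not_le] at h3
    have h4 : B0 / (M : ℝ) ^ 2 < 0 := div_neg_of_neg_of_pos h3 (by positivity)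
    linarith
  obtain ⟨r, hr⟩ : ∃ r, r = 64 / (c * (2 : ℝ) ^ s) := ⟨_, rfl⟩
  have hr0 : 0 ≤ r := by rw [hr]; positivity
  rw [← hr]
  have e1 : TW.Ex (sawF j) (pw n j) (fun t => aL lb s M Ch B i t * (τ + r * ∑ k ∈ Ico (i + 1) M, qL lb s M Ch B k t)) ≤
      TW.Ex (sawF j) (pw n j) (fun t => τ / 2 * ((M : ℝ)⁻¹ * 1 + M * aL lb s M Ch B i t ^ 2) +
        r / 2 * ∑ k ∈ Ico (i + 1) M, (aL lb s M Ch B i t ^ 2 + qL lb s M Ch B k t ^ 2)) := by
    refine TW.Ex_mono (pw_nonneg n j) fun t _ => ?_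
    rw [mul_add, mul_left_comm (aL lb s M Ch B i t) r, mul_sum]
    refine add_le_add ?_ ?_
    · have h1 : 2 * aL lb s M Ch B i t ≤ (M : ℝ)⁻¹ * 1 + M * aL lb s M Ch B i t ^ 2 := by
        have h2 : 0 ≤ ((M : ℝ) * aL lb s M Ch B i t - 1) ^ 2 * (M : ℝ)⁻¹ := by positivity
        have e2 : ((M : ℝ) * aL lb s M Ch B i t - 1) ^ 2 * (M : ℝ)⁻¹ =
            (M : ℝ)⁻¹ * 1 + M * aL lb s M Ch B i t ^ 2 - 2 * aL lb s M Ch B i t := by
          field_simp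
          ring
        linarith
      nlinarith
    · rw [div_mul_eq_mul_div, mul_div_assoc]
      refine mul_le_mul_of_nonneg_left ?_ hr0
      rw [sum_div]
      refine sum_le_sum fun k _ => ?_
      nlinarith [sq_nonneg (aL lb s M Ch B i t - qL lb s M Ch B k t)]
  refine e1.trans ?_
  have e3 : ∀ (S : Finset (List Bool)) (p : List Bool → ℝ) (f : ℕ → List Bool → ℝ) (T : Finset ℕ),
      TW.Ex S p (fun t => ∑ k ∈ T, f k t) = ∑ k ∈ T, TW.Ex S p (f k) := by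
    intro S p f T
    unfold TW.Ex
    rw [sum_comm]
    exact sum_congr rfl fun t _ => by rw [mul_sum]
  rw [TW.Ex_add, TW.Ex_smul _ _ _ (τ / 2), TW.Ex_add, TW.Ex_smul _ _ _ (M : ℝ)⁻¹, TW.Ex_smul _ _ _ (M : ℝ), Ex_one,
    TW.Ex_smul _ _ _ (r / 2), e3]
  have h3 : ∑ k ∈ Ico (i + 1) M, TW.Ex (sawF j) (pw n j) (fun t => aL lb s M Ch B i t ^ 2 + qL lb s M Ch B k t ^ 2) ≤
      M * (2 * (B0 / M ^ 2)) := by
    calc _ ≤ ∑ _k ∈ Ico (i + 1) M, 2 * (B0 / (M : ℝ) ^ 2) := by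
          refine sum_le_sum fun k hk => ?_
          rw [TW.Ex_add]
          have h4 := Ex_q2 hF hw hM hV (mem_Ico.1 hk).2 hZ
          rw [← hB0] at h4
          linarith
      _ = ((M - (i + 1) : ℕ) : ℝ) * (2 * (B0 / M ^ 2)) := by rw [sum_const, Nat.card_Ico, nsmul_eq_mul]
      _ ≤ _ := by
          refine mul_le_mul_of_nonneg_right ?_ (by positivity)
          exact_mod_cast Nat.sub_le _ _
  have h4 : Zm j / Zm n ≤ CA := by rwa [div_le_iff₀ hZn]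
  have h5 : τ / 2 * ((M : ℝ)⁻¹ * (Zm j / Zm n) + M * TW.Ex (sawF j) (pw n j) (fun t => aL lb s M Ch B i t ^ 2)) ≤
      τ * (CA + B0) / M := by
    have h6 : (M : ℝ)⁻¹ * (Zm j / Zm n) + M * TW.Ex (sawF j) (pw n j) (fun t => aL lb s M Ch B i t ^ 2) ≤
        (M : ℝ)⁻¹ * CA + M * (B0 / M ^ 2) := by gcongr
    have e4 : (M : ℝ)⁻¹ * CA + M * (B0 / M ^ 2) = (CA + B0) / M := by
      field_simp
    rw [e4] at h6
    have h7 : 0 ≤ (CA + B0) / M := by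
      have h8 : 0 ≤ Zm j / Zm n := div_nonneg (Zm_pos j).le hZn.le
      have h9 : 0 ≤ CA := h8.trans h4
      positivity
    calc _ ≤ τ / 2 * ((CA + B0) / M) := by gcongr
      _ ≤ τ * ((CA + B0) / M) := by nlinarith
      _ = _ := by ring
  have h6 : r / 2 * ∑ k ∈ Ico (i + 1) M, TW.Ex (sawF j) (pw n j) (fun t => aL lb s M Ch B i t ^ 2 + qL lb s M Ch B k t ^ 2) ≤
      r * B0 / M := by
    calc _ ≤ r / 2 * (M * (2 * (B0 / M ^ 2))) := by gcongr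
      _ = _ := by field_simp
  calc _ ≤ τ * (CA + B0) / M + r * B0 / M := add_le_add h5 h6
    _ = _ := by ring

/-- **one level, normalised** -/
lemma level (hG : OscGSt) (hE : ELSt) {C1 CA τ η δ : ℝ} {n h i : ℕ} {F : List Bool → ℝ} (hF : ChF lb s M a w Ch B)
    (hw : 0 < w) (hc : 0 < c) (hs : 8 ≤ s) (hM : 1 ≤ M) (hV : MomC C1) (hi : i < M) (hτ : 0 ≤ τ) (hη : 0 ≤ η) (hη4 : η ≤ 1 / 4)
    (hB1 : 1 ≤ B i) (hδ : ∀ b, |vL (Ch i) (b + h) - vL (Ch i) b| ≤ δ) (hδ' : ∀ b, b < h → |vL (Ch i) b| ≤ δ)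
    (hδB : δ * B i ≤ η * WL' (Ch i) (B i)) (hFb : ∀ t, |F t| ≤ 1) (hFo : OscF (lb + i * s) F fun _ => τ)
    (hZ : ∀ j ∈ Icc (n - B i) (n + h + B i), Zm j ≤ CA * Zm n) :
    |TW.Ex (sawF n) (pw n n) (fun t => F t * TW.al c (aL lb s M Ch B) M i t) -
      TW.Ex (sawF (n + h)) (pw n (n + h)) (fun t => F t * TW.al c (aL lb s M Ch B) M i t)| ≤
      (4 * η * (C1 * CA + (τ * (CA + C1 ^ 2 * CA / w ^ 2) + 64 / (c * 2 ^ s) * (C1 ^ 2 * CA / w ^ 2))) +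
        2 * (τ * (CA + C1 ^ 2 * CA / w ^ 2) + 64 / (c * 2 ^ s) * (C1 ^ 2 * CA / w ^ 2))) / M := by
  have hM0 : (0 : ℝ) < M := by exact_mod_cast (by omega : 0 < M)
  have hZn := Zm_pos n
  have hU := Ub_pos (lb + i * s)
  have hW0 : 0 < WL' (Ch i) (B i) := hw.trans_le (hF.mass i hi)
  have hBr : (1 : ℝ) ≤ B i := by exact_mod_cast hB1
  obtain ⟨e0, he0⟩ : ∃ e0, e0 = τ * (CA + C1 ^ 2 * CA / w ^ 2) + 64 / (c * 2 ^ s) * (C1 ^ 2 * CA / w ^ 2) := ⟨_, rfl⟩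
  rw [← he0]
  -- h is smaller than B
  have hhB : h ≤ B i := by
    by_contra hcon
    rw [not_le] at hcon
    have h1 : WL' (Ch i) (B i) ≤ (B i + 1) * δ := by
      unfold WL'
      calc ∑ b ∈ range (B i + 1), vL (Ch i) b ≤ ∑ _b ∈ range (B i + 1), δ := by
            refine sum_le_sum fun b hb => ?_
            rw [mem_range] at hb
            exact (le_abs_self _).trans (hδ' b (by omega))
        _ = _ := by
            rw [sum_const, card_range, nsmul_eq_mul]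
            push_cast
            ring
    have hδ0 : 0 ≤ δ := (abs_nonneg _).trans (hδ 0)
    nlinarith
  obtain ⟨θ, hθ⟩ : ∃ θ : List Bool → ℝ, θ = fun A => τ + thG lb s M c Ch B i A := ⟨_, rfl⟩
  have hth : ∀ A, 0 ≤ thG lb s M c Ch B i A := by
    intro A
    unfold thG
    refine mul_nonneg (by positivity) (sum_nonneg fun j _ => ?_)
    refine div_nonneg ?_ (mul_nonneg hM0.le (mul_nonneg (WL_nonneg _ _) (Ub_pos _).le))
    unfold NI
    exact Nat.cast_nonneg _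
  obtain ⟨g, hg⟩ : ∃ g : List Bool → ℝ, g = fun t => TW.gc c (TW.Ta (fun j => aL lb s M Ch B j t) M (i + 1)) := ⟨_, rfl⟩
  have hg0 : ∀ t, 0 ≤ g t ∧ g t ≤ 1 := by
    intro t
    rw [hg]
    exact ⟨TW.gc_nonneg _ _, TW.gc_le_one _ _⟩
  have hgo : OscF (lb + i * s) g (thG lb s M c Ch B i) := by
    rw [hg]
    exact hG hF hw hc hs hi
  have hΦo : OscF (lb + i * s) (fun t => F t * g t) θ := by
    intro A Y hAY hY
    have h1 := hFo A Y hAY hY
    have h2 := hgo A Y hAY hY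
    rw [hθ]
    show |F (A ++ Y) * g (A ++ Y) - F A * g A| ≤ τ + thG lb s M c Ch B i A
    have e : F (A ++ Y) * g (A ++ Y) - F A * g A = (F (A ++ Y) - F A) * g (A ++ Y) + F A * (g (A ++ Y) - g A) := by ring
    rw [e]
    refine (abs_add_le _ _).trans (add_le_add ?_ ?_)
    · rw [abs_mul, abs_of_nonneg (hg0 _).1]
      calc |F (A ++ Y) - F A| * g (A ++ Y) ≤ |F (A ++ Y) - F A| * 1 := mul_le_mul_of_nonneg_left (hg0 _).2 (abs_nonneg _)
        _ = |F (A ++ Y) - F A| := mul_one _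
        _ ≤ τ := h1
    · rw [abs_mul]
      calc |F A| * |g (A ++ Y) - g A| ≤ 1 * |g (A ++ Y) - g A| := mul_le_mul_of_nonneg_right (hFb A) (abs_nonneg _)
        _ = |g (A ++ Y) - g A| := one_mul _
        _ ≤ _ := h2
  have hΨo : OscF (lb + i * s) (fun _ => 1) θ := by
    intro A Y _ _
    rw [sub_self, abs_zero, hθ]
    exact add_nonneg hτ (hth A)
  have hΦΨ : ∀ t, |F t * g t| ≤ (fun _ : List Bool => (1 : ℝ)) t := by
    intro t
    rw [abs_mul, abs_of_nonneg (hg0 t).1]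
    calc |F t| * g t ≤ 1 * 1 := mul_le_mul (hFb t) (hg0 t).2 (hg0 t).1 zero_le_one
      _ = 1 := one_mul _
  have hL := levelD_far (hF.chn i hi) (hF.len i hi) hB1 hη hδ hδ' hδB hΦΨ hΦo hΨo n
  -- the masses
  obtain ⟨Q, hQ⟩ : ∃ Q, Q = WL' (Ch i) (B i) * Ub (lb + i * s) * Zm n := ⟨_, rfl⟩
  have hQ0 : 0 < Q := by rw [hQ]; positivity
  have hX : ∀ j ∈ Icc (n - B i) (n + h + B i), XL (lb + i * s) (Ch i) (fun _ => 1) j ≤ C1 * CA * Q := by
    intro j hj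
    have h1 := (hV (lb + i * s) j (Ch i) (B i) (hF.chn i hi) (hF.len i hi)).1
    have e1 : XL (lb + i * s) (Ch i) (fun _ => 1) j = ∑ t ∈ sawF j, xc ^ j * N1 (lb + i * s) (Ch i) t := by
      unfold XL
      exact sum_congr rfl fun t _ => by rw [mul_one]
    rw [e1]
    refine h1.trans ?_
    have h2 := hZ j hj
    have hC1 : 0 ≤ C1 * (∑ b ∈ range (B i + 1), vL (Ch i) b) * Ub (lb + i * s) := by
      have h3 : 0 ≤ ∑ t ∈ sawF j, xc ^ j * N1 (lb + i * s) (Ch i) t :=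
        sum_nonneg fun t _ => mul_nonneg (pow_nonneg xc_pos.le _) (N1_nonneg _ _ _)
      have h4 := h3.trans h1
      have h5 : (0 : ℝ) < cS j * xc ^ j := Zm_pos j
      by_contra h6
      rw [not_le] at h6
      nlinarith
    calc C1 * (∑ b ∈ range (B i + 1), vL (Ch i) b) * Ub (lb + i * s) * (cS j * xc ^ j)
        ≤ C1 * (∑ b ∈ range (B i + 1), vL (Ch i) b) * Ub (lb + i * s) * (CA * Zm n) := mul_le_mul_of_nonneg_left h2 hC1
      _ = _ := by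
          rw [hQ]
          unfold WL'
          ring
  have hEL : ∀ j, Zm j ≤ CA * Zm n → EL (lb + i * s) (Ch i) θ j ≤ e0 * Q := by
    intro j hj
    have h1 := hE hF hw hc hs hi hτ j
    rw [← hθ] at h1
    refine h1.trans ?_
    have h2 := Ex_osc (c := c) hF hw hc hM hV hi hτ hj
    rw [← he0, Ex_pw, div_le_iff₀ hZn] at h2
    have e1 : ∑ t ∈ sawF j, xc ^ j * (N1 (lb + i * s) (Ch i) t * (τ + 64 / (c * 2 ^ s) *
        ∑ k ∈ Ico (i + 1) M, qL lb s M Ch B k t)) = (M * (WL' (Ch i) (B i) * Ub (lb + i * s))) *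
        ∑ t ∈ sawF j, xc ^ j * (aL lb s M Ch B i t * (τ + 64 / (c * 2 ^ s) * ∑ k ∈ Ico (i + 1) M, qL lb s M Ch B k t)) := by
      rw [mul_sum]
      refine sum_congr rfl fun t _ => ?_
      unfold aL
      field_simp
    rw [e1]
    calc (M * (WL' (Ch i) (B i) * Ub (lb + i * s))) *
          ∑ t ∈ sawF j, xc ^ j * (aL lb s M Ch B i t * (τ + 64 / (c * 2 ^ s) * ∑ k ∈ Ico (i + 1) M, qL lb s M Ch B k t))
        ≤ (M * (WL' (Ch i) (B i) * Ub (lb + i * s))) * (e0 / M * Zm n) := mul_le_mul_of_nonneg_left h2 (by positivity)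
      _ = e0 * Q := by
          rw [hQ]
          field_simp
  have hmem : ∀ j, n ≤ j → j ≤ n + h → j ∈ Icc (n - B i) (n + h + B i) := by
    intro j h1 h2
    rw [mem_Icc]
    omega
  have hCQ : 0 ≤ C1 * CA * Q + e0 * Q := by
    have h1 := hX n (hmem n le_rfl (by omega))
    have h2 := hEL n (hZ n (hmem n le_rfl (by omega)))
    have h3 : 0 ≤ XL (lb + i * s) (Ch i) (fun _ => 1) n := by
      unfold XL
      exact sum_nonneg fun t _ => mul_nonneg (pow_nonneg xc_pos.le _) (mul_nonneg (N1_nonneg _ _ _) zero_le_one)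
    have h4 : 0 ≤ EL (lb + i * s) (Ch i) θ n := by
      unfold EL
      refine sum_nonneg fun t _ => mul_nonneg (pow_nonneg xc_pos.le _) (NT_nonneg _ _ (fun A => ?_) _)
      rw [hθ]
      exact add_nonneg hτ (hth A)
    linarith
  have hsum : ∑ j ∈ Icc (n - B i) (n + h + B i), (XL (lb + i * s) (Ch i) (fun _ => 1) j + EL (lb + i * s) (Ch i) θ j) ≤
      4 * B i * (C1 * CA * Q + e0 * Q) := by
    calc _ ≤ ∑ _j ∈ Icc (n - B i) (n + h + B i), (C1 * CA * Q + e0 * Q) :=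
          sum_le_sum fun j hj => add_le_add (hX j hj) (hEL j (hZ j hj))
      _ = ((n + h + B i + 1 - (n - B i) : ℕ) : ℝ) * (C1 * CA * Q + e0 * Q) := by
          rw [sum_const, Nat.card_Icc, nsmul_eq_mul]
      _ ≤ _ := by
          refine mul_le_mul_of_nonneg_right ?_ hCQ
          have h1 : n + h + B i + 1 - (n - B i) ≤ 4 * B i := by omega
          exact_mod_cast h1
  have h1 : |XL (lb + i * s) (Ch i) (fun t => F t * g t) (n + h) - XL (lb + i * s) (Ch i) (fun t => F t * g t) n| ≤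
      (4 * η * (C1 * CA + e0) + 2 * e0) * Q := by
    refine hL.trans ?_
    have h2 : η / B i * ∑ j ∈ Icc (n - B i) (n + h + B i), (XL (lb + i * s) (Ch i) (fun _ => 1) j +
        EL (lb + i * s) (Ch i) θ j) ≤ 4 * η * (C1 * CA * Q + e0 * Q) := by
      calc _ ≤ η / B i * (4 * B i * (C1 * CA * Q + e0 * Q)) := mul_le_mul_of_nonneg_left hsum (by positivity)
        _ = _ := by field_simp
    have h3 := hEL (n + h) (hZ _ (hmem _ (by omega) le_rfl))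
    have h4 := hEL n (hZ _ (hmem _ le_rfl (by omega)))
    calc _ ≤ 4 * η * (C1 * CA * Q + e0 * Q) + e0 * Q + e0 * Q := add_le_add (add_le_add h2 h3) h4
      _ = _ := by ring
  have e2 : ∀ j, TW.Ex (sawF j) (pw n j) (fun t => F t * TW.al c (aL lb s M Ch B) M i t) =
      XL (lb + i * s) (Ch i) (fun t => F t * g t) j / (M * Q) := by
    intro j
    rw [Ex_pw]
    unfold XL
    rw [sum_div, sum_div]
    refine sum_congr rfl fun t _ => ?_
    have e4 : aL lb s M Ch B i t = N1 (lb + i * s) (Ch i) t / (M * (WL' (Ch i) (B i) * Ub (lb + i * s))) := rfl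
    have e5 : TW.al c (aL lb s M Ch B) M i t = aL lb s M Ch B i t * g t := by rw [hg]; rfl
    rw [e5, e4, hQ]
    field_simp
  rw [e2, e2, ← sub_div, abs_div, abs_of_pos (show (0 : ℝ) < M * Q by positivity), div_le_div_iff₀ (by positivity) hM0,
    abs_sub_comm]
  calc |XL (lb + i * s) (Ch i) (fun t => F t * g t) (n + h) - XL (lb + i * s) (Ch i) (fun t => F t * g t) n| * M
      ≤ (4 * η * (C1 * CA + e0) + 2 * e0) * Q * M := mul_le_mul_of_nonneg_right h1 hM0.le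
    _ = _ := by ring

open Classical in
/-- **all levels** -/
theorem levels (hG : OscGSt) (hE : ELSt) {C1 CA τ η x : ℝ} {n h : ℕ} {F : List Bool → ℝ} (hF : ChF lb s M a w Ch B)
    (hw : 0 < w) (hc : 0 < c) (hs : 8 ≤ s) (hM : 1 ≤ M) (hV : MomC C1) (hτ : 0 ≤ τ) (hη : 0 ≤ η) (hη4 : η ≤ 1 / 4)
    (hB1 : ∀ i, i < M → 1 ≤ B i) (hδ : ∀ i, i < M → ∃ δ : ℝ, (∀ b, |vL (Ch i) (b + h) - vL (Ch i) b| ≤ δ) ∧
      (∀ b, b < h → |vL (Ch i) b| ≤ δ) ∧ δ * B i ≤ η * WL' (Ch i) (B i)) (hFb : ∀ t, |F t| ≤ 1)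
    (hFo : ∀ i, i < M → OscF (lb + i * s) F fun _ => τ)
    (hZ : ∀ i, i < M → ∀ j ∈ Icc (n - B i) (n + h + B i), Zm j ≤ CA * Zm n) (hCA : 1 ≤ CA) (hx : 0 ≤ x)
    (hS : TOG.Pn n {t | ∑ i ∈ range M, aL lb s M Ch B i t < 2 * c} ≤ x)
    (hS' : TOG.Pn (n + h) {t | ∑ i ∈ range M, aL lb s M Ch B i t < 2 * c} ≤ x) :
    |xc ^ (n + h) * ∑ t ∈ sawF (n + h), F t - xc ^ n * ∑ t ∈ sawF n, F t| ≤
      (2 * (CA * x + C1 ^ 2 * CA / w ^ 2 / (c ^ 2 * M)) +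
        (4 * η * (C1 * CA + (τ * (CA + C1 ^ 2 * CA / w ^ 2) + 64 / (c * 2 ^ s) * (C1 ^ 2 * CA / w ^ 2))) +
        2 * (τ * (CA + C1 ^ 2 * CA / w ^ 2) + 64 / (c * 2 ^ s) * (C1 ^ 2 * CA / w ^ 2))) / c) * Zm n := by
  have hM0 : (0 : ℝ) < M := by exact_mod_cast (by omega : 0 < M)
  have hZn := Zm_pos n
  have hZh : Zm (n + h) ≤ CA * Zm n := hZ 0 (by omega) (n + h) (by rw [mem_Icc]; omega)
  have hZ1 : Zm n ≤ CA * Zm n := by nlinarith
  obtain ⟨κ, hκ⟩ : ∃ κ, κ = 4 * η * (C1 * CA + (τ * (CA + C1 ^ 2 * CA / w ^ 2) + 64 / (c * 2 ^ s) * (C1 ^ 2 * CA / w ^ 2))) +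
        2 * (τ * (CA + C1 ^ 2 * CA / w ^ 2) + 64 / (c * 2 ^ s) * (C1 ^ 2 * CA / w ^ 2)) := ⟨_, rfl⟩
  have e0 : ∀ t : List Bool, (TW.Ta (fun j => aL lb s M Ch B j t) M 0 < 2 * c) =
      (∑ i ∈ range M, aL lb s M Ch B i t < 2 * c) := by
    intro t
    unfold TW.Ta
    rw [← range_eq_Ico]
  have k1 : TW.Ex (sawF n) (pw n n) (fun t => if TW.Ta (fun j => aL lb s M Ch B j t) M 0 < 2 * c then 1 else 0) ≤ CA * x := by
    simp only [e0]
    rw [Ex_ind, div_self hZn.ne', one_mul]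
    nlinarith
  have k2 : TW.Ex (sawF (n + h)) (pw n (n + h)) (fun t => if TW.Ta (fun j => aL lb s M Ch B j t) M 0 < 2 * c then 1 else 0) ≤
      CA * x := by
    simp only [e0]
    rw [Ex_ind]
    have h1 : Zm (n + h) / Zm n ≤ CA := by rwa [div_le_iff₀ hZn]
    have h2 : 0 ≤ TOG.Pn (n + h) {t | ∑ i ∈ range M, aL lb s M Ch B i t < 2 * c} := by
      unfold TOG.Pn
      positivity
    calc _ ≤ CA * TOG.Pn (n + h) {t | ∑ i ∈ range M, aL lb s M Ch B i t < 2 * c} := mul_le_mul_of_nonneg_right h1 h2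
      _ ≤ _ := mul_le_mul_of_nonneg_left hS' (by linarith)
  have hD : ∀ l, l < M → |TW.Ex (sawF n) (pw n n) (fun t => F t * TW.al c (aL lb s M Ch B) M l t) -
      TW.Ex (sawF (n + h)) (pw n (n + h)) (fun t => F t * TW.al c (aL lb s M Ch B) M l t)| ≤ κ / M := by
    intro i hi
    obtain ⟨δ, d1, d2, d3⟩ := hδ i hi
    rw [hκ]
    exact level hG hE hF hw hc hs hM hV hi hτ hη hη4 (hB1 i hi) d1 d2 d3 hFb (hFo i hi) (hZ i hi)
  have key := TW.tele_x (S := sawF n) (S' := sawF (n + h)) (p := pw n n) (p' := pw n (n + h)) (F := F)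
    (a := aL lb s M Ch B) (c := c) (B := C1 ^ 2 * CA / w ^ 2) (x := CA * x) (κ := fun _ => κ / M) (M := M)
    (pw_nonneg _ _) (pw_nonneg _ _) (fun l t => aL_nonneg l t) hc hM hFb
    (fun l hl => Ex_a2 hF hw hM hV hl hZ1) (fun l hl => Ex_a2 hF hw hM hV hl hZh) k1 k2 hD
  rw [sum_const, card_range, nsmul_eq_mul, mul_div_cancel₀ κ hM0.ne'] at key
  rw [← hκ]
  have e3 : ∀ j, TW.Ex (sawF j) (pw n j) F = (xc ^ j * ∑ t ∈ sawF j, F t) / Zm n := by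
    intro j
    rw [Ex_pw, mul_sum]
  rw [e3, e3, ← sub_div, abs_div, abs_of_pos hZn, div_le_iff₀ hZn, abs_sub_comm] at key
  exact key

end FI

end SLW

end HexObs
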