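import Pool.Agent.SLW.FinA
import Pool.Agent.NTA.MeanM

/-!
SLW: the assembly of `SlowF` (helper45), second part: the choice of the constants.
-/

set_option autoImplicit false

namespace HexObs

namespace SLW

open Finset TS SDN TIW

namespace FI

lemma mZ_add {m : ℕ → ℝ} (hm : NTA.MLow m) {k l : ℕ} (h : k ≤ l) : m k ≤ m l := by
  obtain ⟨j, rfl⟩ := Nat.exists_eq_add_of_le h
  have h1 := hm.low k j
  have h2 := hm.pos k
  have h3 : (1 : ℝ) ≤ (2 : ℝ) ^ (5 / 4 * (j : ℝ)) := by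
    refine Real.one_le_rpow (by norm_num) (by positivity)
  nlinarith

lemma mZ_two' {m : ℕ → ℝ} (hm : NTA.MLow m) (k : ℕ) : 2 * m k ≤ m (k + 1) := by
  have h1 := hm.low k 1
  have h2 := hm.pos k
  have h3 : (2 : ℝ) ≤ (2 : ℝ) ^ (5 / 4 * ((1 : ℕ) : ℝ)) := by
    calc (2 : ℝ) = (2 : ℝ) ^ (1 : ℝ) := (Real.rpow_one 2).symm
      _ ≤ _ := by
        refine Real.rpow_le_rpow_of_exponent_le (by norm_num) ?_
        push_cast
        norm_num
  nlinarith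

lemma mZ_pow {m : ℕ → ℝ} {C : ℝ} (hC : 1 ≤ C) (h : ∀ k, m (k + 1) ≤ C * m k) (k j : ℕ) :
    m (k + j) ≤ C ^ j * m k := by
  induction j with
  | zero => simp
  | succ j ih =>
    have h1 := h (k + j)
    calc m (k + (j + 1)) ≤ C * m (k + j) := h1
      _ ≤ C * (C ^ j * m k) := mul_le_mul_of_nonneg_left ih (by linarith)
      _ = _ := by ring

end FI

open FI

/-- **the assembly** -/
theorem slowF_of (hG : OscGSt) (hE : ELSt) (hV : MomV) (hCh : ChainSt) (hA : AReg) (hSm : SmallS) : SlowF := by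
  intro ε hε
  obtain ⟨C1, hC1, hV⟩ := hV
  have hV' : MomC C1 := fun l n Ch B h1 h2 => hV l n Ch B h1 h2
  obtain ⟨CA0, hCA0, hA1, hA2⟩ := hA
  obtain ⟨CA, hCA⟩ : ∃ CA, CA = max CA0 1 := ⟨_, rfl⟩
  have hCA1 : 1 ≤ CA := by rw [hCA]; exact le_max_right _ _
  have hCA2 : CA0 ≤ CA := by rw [hCA]; exact le_max_left _ _
  obtain ⟨a, c, ha, hc, hSm⟩ := hSm (ε / (16 * CA)) (by positivity)
  obtain ⟨η, hη⟩ : ∃ η, η = min (1 / 4) (ε * c / (64 * (C1 * CA))) := ⟨_, rfl⟩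
  have hη0 : 0 < η := by
    rw [hη]
    exact lt_min (by norm_num) (by positivity)
  have hη4 : η ≤ 1 / 4 := by rw [hη]; exact min_le_left _ _
  have hη5 : η ≤ ε * c / (64 * (C1 * CA)) := by rw [hη]; exact min_le_right _ _
  obtain ⟨w, q, l1, hw, hCh⟩ := hCh η (min a 1) hη0 (lt_min ha one_pos)
  obtain ⟨B0, hB0⟩ : ∃ B0, B0 = C1 ^ 2 * CA / w ^ 2 := ⟨_, rfl⟩
  have hB00 : 0 < B0 := by rw [hB0]; positivity
  obtain ⟨M0, hM0⟩ := hSm w hw
  obtain ⟨τ, hτ⟩ : ∃ τ, τ = ε * c / (64 * (CA + B0)) := ⟨_, rfl⟩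
  have hτ0 : 0 < τ := by rw [hτ]; positivity
  refine ⟨τ, hτ0, fun c1 => ?_⟩
  obtain ⟨M, hM⟩ : ∃ M, M = max M0 1 + ⌈16 * B0 / (c ^ 2 * ε)⌉₊ := ⟨_, rfl⟩
  have hMM : M0 ≤ M := by
    rw [hM]
    exact (le_max_left _ _).trans (Nat.le_add_right _ _)
  have hM1 : 1 ≤ M := by
    rw [hM]
    exact (le_max_right _ _).trans (Nat.le_add_right _ _)
  have hMr : 16 * B0 / (c ^ 2 * ε) ≤ M := by
    refine (Nat.le_ceil _).trans ?_
    rw [hM]
    push_cast
    have : (0 : ℝ) ≤ max (M0 : ℝ) 1 := le_max_of_le_right zero_le_one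
    linarith
  have hMp : (0 : ℝ) < M := by exact_mod_cast (by omega : 0 < M)
  obtain ⟨s0, hs0⟩ := hM0 M hMM
  obtain ⟨s1, hs1⟩ := pow_unbounded_of_one_lt (4096 * B0 / (c ^ 2 * ε)) (one_lt_two (α := ℝ))
  obtain ⟨s, hs⟩ : ∃ s, s = s0 + 8 + s1 := ⟨_, rfl⟩
  have hs2 : 4096 * B0 / (c ^ 2 * ε) ≤ 2 ^ s := by
    refine hs1.le.trans (pow_le_pow_right₀ (by norm_num) ?_)
    omega
  obtain ⟨c0, l0, k0, h⟩ := hs0 s (by omega)
  obtain ⟨Cm, hCm, hmup⟩ := NTA.mup_M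
  have hml := NTA.mlow_M
  obtain ⟨D0, hD0⟩ : ∃ D0, D0 = M * s + c0 + c1 + 1 := ⟨_, rfl⟩
  obtain ⟨c2, hc2⟩ := pow_unbounded_of_one_lt (2 ^ q * Cm ^ (D0 + 1)) (one_lt_two (α := ℝ))
  refine ⟨c2, k0 + D0 + l0 + l1 + c1, fun k n hh hk hSc hev hhn F hF hFo => ?_⟩
  obtain ⟨m, hmm⟩ : ∃ m : ℕ → ℝ, m = fun k => PW.mZ (2 ^ k) := ⟨_, rfl⟩
  rw [← hmm] at hmup hml
  have hSc1 : m k ≤ n := by rw [hmm]; exact hSc.1
  have hSc2 : (n : ℝ) < m (k + 1) := by rw [hmm]; exact hSc.2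
  obtain ⟨lb, hlb⟩ : ∃ lb, lb + D0 = k := ⟨k - D0, by omega⟩
  have hlb0 : l0 ≤ lb := by omega
  have hlb1 : l1 ≤ lb := by omega
  have hn1 : 1 ≤ n := by
    have h1 := hml.pos k
    have h2 : (0 : ℝ) < n := h1.trans_le hSc1
    exact_mod_cast h2
  have hnr : (1 : ℝ) ≤ n := by exact_mod_cast hn1
  have hh1 : hh ≤ n := by
    have h1 : 1 ≤ 2 ^ c2 := Nat.one_le_two_pow
    nlinarith
  -- the chains
  have hall : ∀ i : ℕ, ∃ (Ch : Set (List Bool)) (B : ℕ), Chn (lb + i * s) Ch ∧ (∀ V ∈ Ch, V.length ≤ B) ∧ 1 ≤ B ∧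
      (B : ℝ) ≤ min a 1 / 2 * PW.mZ (2 ^ (lb + i * s)) ∧ w ≤ ∑ b ∈ range (B + 1), vL Ch b ∧
      ∀ h : ℕ, Even h → (h : ℝ) * 2 ^ q ≤ PW.mZ (2 ^ (lb + i * s)) → ∃ δ : ℝ,
      (∀ b, |vL Ch (b + h) - vL Ch b| ≤ δ) ∧ (∀ b, b < h → |vL Ch b| ≤ δ) ∧ δ * B ≤ η * ∑ b ∈ range (B + 1), vL Ch b :=
    fun i => hCh (lb + i * s) (hlb1.trans (Nat.le_add_right _ _))
  choose Ch B h1 h2 h3 h4 h5 h6 using hall
  have hlev : ∀ i, i < M → lb + i * s + s + c0 + c1 + 1 ≤ k := by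
    intro i hi
    have e1 : (i + 1) * s ≤ M * s := Nat.mul_le_mul_right _ hi
    have e2 : (i + 1) * s = i * s + s := by ring
    omega
  have hmk : ∀ i, i < M → PW.mZ (2 ^ (lb + i * s)) ≤ n := by
    intro i hi
    have e1 : m (lb + i * s) ≤ m k := mZ_add hml (by have := hlev i hi; omega)
    rw [hmm] at e1
    exact e1.trans (by rw [hmm] at hSc1; exact hSc1)
  have hmp : ∀ i, 0 < PW.mZ (2 ^ (lb + i * s)) := by
    intro i
    have := hml.pos (lb + i * s)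
    rw [hmm] at this
    exact this
  have hBn : ∀ i, i < M → B i ≤ n := by
    intro i hi
    have e1 := h4 i
    have e2 : min a 1 / 2 * PW.mZ (2 ^ (lb + i * s)) ≤ 1 * n := by
      refine mul_le_mul ?_ (hmk i hi) (hmp i).le zero_le_one
      have := min_le_right a 1
      linarith
    have e3 : (B i : ℝ) ≤ n := by linarith
    exact_mod_cast e3
  have hF' : ChF lb s M a w Ch B := by
    refine ⟨fun i _ => h1 i, fun i _ => h2 i, fun i _ => (h4 i).trans ?_, fun i _ => h5 i⟩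
    refine mul_le_mul_of_nonneg_right ?_ (hmp i).le
    have := min_le_left a 1
    linarith
  -- the shift
  have hsh : ∀ i, (hh : ℝ) * 2 ^ q ≤ PW.mZ (2 ^ (lb + i * s)) := by
    intro i
    have e1 : m lb ≤ m (lb + i * s) := mZ_add hml (Nat.le_add_right _ _)
    have e2 : m (k + 1) ≤ Cm ^ (D0 + 1) * m lb := by
      have := mZ_pow hCm (fun k => hmup k) lb (D0 + 1)
      rwa [show lb + (D0 + 1) = k + 1 by omega] at this
    have e3 : (hh : ℝ) * 2 ^ c2 ≤ n := by exact_mod_cast hhn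
    have e4 : (hh : ℝ) * (2 ^ q * Cm ^ (D0 + 1)) ≤ Cm ^ (D0 + 1) * m lb := by
      calc (hh : ℝ) * (2 ^ q * Cm ^ (D0 + 1)) ≤ hh * 2 ^ c2 := mul_le_mul_of_nonneg_left hc2.le (Nat.cast_nonneg _)
        _ ≤ n := e3
        _ ≤ m (k + 1) := hSc2.le
        _ ≤ _ := e2
    have e5 : 0 < Cm ^ (D0 + 1) := by positivity
    have e6 : (hh : ℝ) * 2 ^ q ≤ m lb := by
      have e7 : Cm ^ (D0 + 1) * ((hh : ℝ) * 2 ^ q) ≤ Cm ^ (D0 + 1) * m lb := by linarith
      exact le_of_mul_le_mul_left e7 e5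
    rw [hmm] at e1 e6
    exact e6.trans e1
  -- the windows
  have hZ : ∀ i, i < M → ∀ j ∈ Icc (n - B i) (n + hh + B i), Zm j ≤ CA * Zm n := by
    intro i hi j hj
    rw [mem_Icc] at hj
    have e1 := hBn i hi
    have e2 : CA0 * Zm n ≤ CA * Zm n := mul_le_mul_of_nonneg_right hCA2 (Zm_pos n).le
    refine le_trans ?_ e2
    rcases Nat.le_total j n with h7 | h7
    · exact hA1 j n h7
    · exact hA2 j n h7 (by omega) hn1
  -- the scale of n + h
  have hx' : TOG.Pn (n + hh) {t | ∑ i ∈ range M, aL lb s M Ch B i t < 2 * c} ≤ ε / (16 * CA) := by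
    rcases lt_or_ge ((n + hh : ℕ) : ℝ) (m (k + 1)) with h7 | h7
    · refine h k (n + hh) lb (by omega) ⟨?_, ?_⟩ hlb0 (by omega) Ch B hF'
      · rw [hmm] at hSc1
        refine hSc1.trans ?_
        push_cast
        linarith [(Nat.cast_nonneg hh : (0 : ℝ) ≤ hh)]
      · rw [hmm] at h7
        exact h7
    · refine h (k + 1) (n + hh) lb (by omega) ⟨?_, ?_⟩ hlb0 (by omega) Ch B hF'
      · rw [hmm] at h7
        exact h7
      · have e1 := mZ_two' hml (k + 1)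
        have e2 : (hh : ℝ) ≤ n := by exact_mod_cast hh1
        have e3 : ((n + hh : ℕ) : ℝ) < m (k + 1 + 1) := by
          push_cast
          linarith
        rw [hmm] at e3
        exact e3
  have key := levels hG hE (C1 := C1) (CA := CA) (τ := τ) (η := η) (x := ε / (16 * CA)) (n := n) (h := hh) (F := F) hF' hw hc
    (by omega) hM1 hV' hτ0.le hη0.le hη4 (fun i _ => h3 i) (fun i _ => h6 i hh hev (hsh i)) hF ?_ hZ hCA1 (by positivity)
    (h k n lb (by omega) hSc hlb0 (by omega) Ch B hF') hx'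
  · refine key.trans ?_
    have e9 : Zm n = cS n * xc ^ n := rfl
    rw [e9]
    have hZn : (0 : ℝ) < cS n * xc ^ n := Zm_pos n
    refine mul_le_mul_of_nonneg_right ?_ hZn.le
    rw [← hB0]
    have g1 : 2 * (CA * (ε / (16 * CA))) = ε / 8 := by
      field_simp
      norm_num
    have g2 : 2 * (B0 / (c ^ 2 * M)) ≤ ε / 8 := by
      have e1 : B0 / (c ^ 2 * M) ≤ ε / 16 := by
        rw [div_le_iff₀ (by positivity)]
        rw [div_le_iff₀ (by positivity)] at hMr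
        nlinarith
      linarith
    have g3 : τ * (CA + B0) = ε * c / 64 := by
      rw [hτ]
      field_simp
    have g4 : 64 / (c * 2 ^ s) * B0 ≤ ε * c / 64 := by
      rw [div_le_iff₀ (by positivity)] at hs2
      rw [div_mul_eq_mul_div, div_le_iff₀ (by positivity)]
      nlinarith
    have g4' : 0 ≤ 64 / (c * 2 ^ s) * B0 := by positivity
    have g5 : 4 * η * (C1 * CA) ≤ ε * c / 16 := by
      rw [le_div_iff₀ (by positivity)] at hη5
      linarith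
    obtain ⟨e0, he0⟩ : ∃ e0, e0 = τ * (CA + B0) + 64 / (c * 2 ^ s) * B0 := ⟨_, rfl⟩
    rw [← he0]
    have g6 : e0 ≤ ε * c / 32 := by rw [he0]; linarith
    have g6' : 0 ≤ e0 := by rw [he0]; positivity
    have g7 : (4 * η * (C1 * CA + e0) + 2 * e0) / c ≤ ε * 5 / 32 := by
      rw [div_le_iff₀ hc]
      have g8 : 4 * η * e0 ≤ e0 := by nlinarith
      nlinarith
    calc 2 * (CA * (ε / (16 * CA)) + B0 / (c ^ 2 * M)) + (4 * η * (C1 * CA + e0) + 2 * e0) / c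
        = 2 * (CA * (ε / (16 * CA))) + 2 * (B0 / (c ^ 2 * M)) + (4 * η * (C1 * CA + e0) + 2 * e0) / c := by ring
      _ ≤ ε / 8 + ε / 8 + ε * 5 / 32 := by
          rw [g1]
          linarith
      _ ≤ ε := by linarith
  · intro i hi A Y hAY hY
    refine hFo A Y hAY fun j hj => (hY j hj).trans_le ?_
    have e1 := hlev i hi
    have e2 : (2 : ℤ) * 2 ^ (lb + i * s) = 2 ^ (lb + i * s + 1) := by
      rw [pow_succ]
      ring
    rw [e2]
    exact pow_le_pow_right₀ (by norm_num) (by omega)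

end SLW

end HexObs
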