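import Mathlib

/-!
SLW: the l1 norm of polynomials, and the smoothing of convolution powers (coupling of Lindvall and Mineka), abstract part
(helper49).
-/

set_option autoImplicit false

namespace HexObs

namespace SLW

open Polynomial Finset

/-- the sum of the absolute values of the coefficients -/
noncomputable def nm (p : ℝ[X]) : ℝ := ∑ i ∈ range (p.natDegree + 1), |p.coeff i|

lemma nm_eq (p : ℝ[X]) {n : ℕ} (h : p.natDegree < n) : nm p = ∑ i ∈ range n, |p.coeff i| := by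
  unfold nm
  refine Finset.sum_subset (range_subset_range.2 h) fun i _ hi' => ?_
  rw [mem_range, not_lt] at hi'
  rw [coeff_eq_zero_of_natDegree_lt (by omega), abs_zero]

lemma nm_nonneg (p : ℝ[X]) : 0 ≤ nm p := sum_nonneg fun _ _ => abs_nonneg _

lemma nm_add (p q : ℝ[X]) : nm (p + q) ≤ nm p + nm q := by
  obtain ⟨n, h1, h2, h3⟩ : ∃ n, p.natDegree < n ∧ q.natDegree < n ∧ (p + q).natDegree < n :=
    ⟨p.natDegree + q.natDegree + (p + q).natDegree + 1, by omega, by omega, by omega⟩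
  rw [nm_eq p h1, nm_eq q h2, nm_eq _ h3, ← sum_add_distrib]
  exact sum_le_sum fun i _ => by
    rw [coeff_add]
    exact abs_add_le _ _

lemma nm_zero : nm 0 = 0 := by simp [nm]

lemma nm_sum {ι : Type*} (s : Finset ι) (f : ι → ℝ[X]) : nm (∑ i ∈ s, f i) ≤ ∑ i ∈ s, nm (f i) := by
  classical
  induction s using Finset.induction_on with
  | empty => simp [nm_zero]
  | insert a s ha ih =>
    rw [sum_insert ha, sum_insert ha]
    exact (nm_add _ _).trans (add_le_add le_rfl ih)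

lemma nm_C_mul (a : ℝ) (p : ℝ[X]) : nm (C a * p) = |a| * nm p := by
  rw [nm_eq (C a * p) (n := p.natDegree + 1) (Nat.lt_succ_of_le (natDegree_C_mul_le a p))]
  unfold nm
  rw [mul_sum]
  exact sum_congr rfl fun i _ => by rw [coeff_C_mul, abs_mul]

lemma nm_X_pow_mul (k : ℕ) (p : ℝ[X]) : nm (X ^ k * p) = nm p := by
  have h1 : (X ^ k * p).natDegree < k + (p.natDegree + 1) := by
    have := natDegree_mul_le (p := (X ^ k : ℝ[X])) (q := p)
    rw [natDegree_X_pow] at this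
    omega
  rw [nm_eq _ h1, sum_range_add]
  have h2 : ∑ x ∈ range k, |(X ^ k * p).coeff x| = 0 := sum_eq_zero fun x hx => by
    rw [coeff_X_pow_mul', if_neg (by rw [mem_range] at hx; omega), abs_zero]
  rw [h2, zero_add]
  unfold nm
  exact sum_congr rfl fun x _ => by
    rw [coeff_X_pow_mul', if_pos (by omega), Nat.add_sub_cancel_left]

lemma nm_mul (p q : ℝ[X]) : nm (p * q) ≤ nm p * nm q := by
  have h1 : p * q = ∑ i ∈ range (p.natDegree + 1), C (p.coeff i) * (X ^ i * q) := by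
    conv_lhs => rw [p.as_sum_range_C_mul_X_pow, sum_mul]
    exact sum_congr rfl fun i _ => by rw [mul_assoc]
  rw [h1]
  refine (nm_sum _ _).trans (le_of_eq ?_)
  rw [nm, sum_mul]
  exact sum_congr rfl fun i _ => by rw [nm_C_mul, nm_X_pow_mul]

lemma nm_one : nm 1 = 1 := by simp [nm]

lemma nm_pow (p : ℝ[X]) (k : ℕ) : nm (p ^ k) ≤ nm p ^ k := by
  induction k with
  | zero => rw [pow_zero, pow_zero, nm_one]
  | succ k ih =>
    rw [pow_succ, pow_succ]
    exact (nm_mul _ _).trans (mul_le_mul_of_nonneg_right ih (nm_nonneg p))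

lemma nm_X_pow (k : ℕ) : nm (X ^ k) = 1 := by
  have := nm_X_pow_mul k 1
  rwa [mul_one, nm_one] at this

/-- nonnegative coefficients -/
lemma nm_eval {p : ℝ[X]} (hp : ∀ i, 0 ≤ p.coeff i) : nm p = p.eval 1 := by
  rw [eval_eq_sum_range]
  exact sum_congr rfl fun i _ => by rw [one_pow, mul_one, abs_of_nonneg (hp i)]

/-- pointwise bound for a product -/
lemma coeff_mul_le (p q : ℝ[X]) {M : ℝ} (hq : ∀ i, |q.coeff i| ≤ M) (i : ℕ) : |(p * q).coeff i| ≤ nm p * M := by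
  have hM : 0 ≤ M := (abs_nonneg _).trans (hq 0)
  have h1 : p * q = ∑ j ∈ range (p.natDegree + 1), C (p.coeff j) * (X ^ j * q) := by
    conv_lhs => rw [p.as_sum_range_C_mul_X_pow, sum_mul]
    exact sum_congr rfl fun i _ => by rw [mul_assoc]
  rw [h1, finsetSum_coeff, nm, sum_mul]
  refine (abs_sum_le_sum_abs _ _).trans (sum_le_sum fun j _ => ?_)
  rw [coeff_C_mul, coeff_X_pow_mul', abs_mul]
  refine mul_le_mul_of_nonneg_left ?_ (abs_nonneg _)
  split_ifs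
  · exact hq _
  · rw [abs_zero]
    exact hM

/-! ### The binomial distribution against its shift -/

/-- the second moment of the symmetric binomial distribution -/
lemma binom_var (n : ℕ) : ∑ i ∈ range (n + 1), (n.choose i : ℝ) * ((n : ℝ) - 2 * i) ^ 2 = (n : ℝ) * 2 ^ n := by
  have h := congrArg (fun p : ℝ[X] => p.eval (1 / 2)) (bernsteinPolynomial.variance ℝ n)
  simp only [eval_finsetSum, eval_mul, eval_pow, eval_sub, eval_X, eval_natCast, bernsteinPolynomial,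
    eval_one, nsmul_eq_mul] at h
  have h2 : ∀ i ∈ range (n + 1), (n.choose i : ℝ) * ((n : ℝ) - 2 * i) ^ 2 =
      (4 * 2 ^ n) * (((n : ℝ) * (1 / 2) - i) ^ 2 * ((n.choose i : ℝ) * (1 / 2) ^ i * (1 - 1 / 2) ^ (n - i))) := by
    intro i hi
    rw [mem_range] at hi
    have h3 : (1 / 2 : ℝ) ^ i * (1 - 1 / 2) ^ (n - i) = (1 / 2) ^ n := by
      rw [show (1 : ℝ) - 1 / 2 = 1 / 2 by norm_num, ← pow_add]
      congr 1
      omega
    have h4 : (2 : ℝ) ^ n * (1 / 2) ^ n = 1 := by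
      rw [← mul_pow]
      norm_num
    calc (n.choose i : ℝ) * ((n : ℝ) - 2 * i) ^ 2 = (n.choose i : ℝ) * ((n : ℝ) - 2 * i) ^ 2 * ((2 : ℝ) ^ n * (1 / 2) ^ n) := by
          rw [h4, mul_one]
      _ = 4 * 2 ^ n * (((n : ℝ) * (1 / 2) - i) ^ 2 * ((n.choose i : ℝ) * ((1 / 2) ^ n))) := by ring
      _ = _ := by rw [← h3]; ring
  rw [sum_congr rfl h2, ← mul_sum, h]
  ring

/-- the sum of the binomial coefficients with a weight, as polynomials -/
lemma binom_poly (Y : ℝ[X]) (j : ℕ) : ((j + 1 : ℕ) : ℝ[X]) * ((1 - Y) * (1 + Y) ^ j) =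
    ∑ i ∈ range (j + 2), C (((j + 1).choose i : ℝ) * (((j + 1 : ℕ) : ℝ) - 2 * i)) * Y ^ i := by
  have h1 : (1 + Y) ^ (j + 1) = ∑ i ∈ range (j + 2), ((j + 1).choose i : ℝ[X]) * Y ^ i := by
    rw [add_comm, add_pow]
    exact sum_congr rfl fun i _ => by rw [one_pow]; ring
  have h2 : ∑ i ∈ range (j + 2), (((j + 1).choose i * i : ℕ) : ℝ[X]) * Y ^ i = ((j + 1 : ℕ) : ℝ[X]) * (Y * (1 + Y) ^ j) := by
    have e1 : (1 + Y) ^ j = ∑ i ∈ range (j + 1), (j.choose i : ℝ[X]) * Y ^ i := by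
      rw [add_comm, add_pow]
      exact sum_congr rfl fun i _ => by rw [one_pow]; ring
    rw [sum_range_succ', e1, mul_sum, mul_sum, mul_zero, Nat.cast_zero, zero_mul, add_zero]
    refine sum_congr rfl fun i _ => ?_
    rw [← Nat.add_one_mul_choose_eq]
    push_cast
    ring
  have h3 : ∀ i ∈ range (j + 2), C (((j + 1).choose i : ℝ) * (((j + 1 : ℕ) : ℝ) - 2 * i)) * Y ^ i =
      ((j + 1 : ℕ) : ℝ[X]) * (((j + 1).choose i : ℝ[X]) * Y ^ i) - 2 * ((((j + 1).choose i * i : ℕ) : ℝ[X]) * Y ^ i) := by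
    intro i _
    have e1 : C (((j + 1).choose i : ℝ) * (((j + 1 : ℕ) : ℝ) - 2 * i)) =
        ((j + 1).choose i : ℝ[X]) * (((j + 1 : ℕ) : ℝ[X]) - 2 * (i : ℝ[X])) := by
      simp only [C_mul, C_sub, map_natCast, C_ofNat]
    rw [e1]
    push_cast
    ring
  rw [sum_congr rfl h3, sum_sub_distrib, ← mul_sum, ← mul_sum, ← h1, h2, pow_succ]
  ring

/-- the symmetric binomial distribution against its shift -/
lemma nm_binom {h : ℕ} (j : ℕ) : nm ((1 - X ^ h) * (1 + X ^ h) ^ j) ≤ 2 ^ (j + 1) / Real.sqrt (j + 1) := by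
  have hj : (0 : ℝ) < ((j + 1 : ℕ) : ℝ) := by positivity
  have h1 : nm (((j + 1 : ℕ) : ℝ[X]) * ((1 - X ^ h) * (1 + X ^ h) ^ j)) =
      ((j + 1 : ℕ) : ℝ) * nm ((1 - X ^ h) * (1 + X ^ h) ^ j) := by
    rw [← C_eq_natCast, nm_C_mul, abs_of_pos hj]
  have h2 : ((j + 1 : ℕ) : ℝ) * nm ((1 - X ^ h) * (1 + X ^ h) ^ j) ≤
      ∑ i ∈ range (j + 2), ((j + 1).choose i : ℝ) * |((j + 1 : ℕ) : ℝ) - 2 * i| := by
    rw [← h1, binom_poly]
    refine (nm_sum _ _).trans (sum_le_sum fun i _ => le_of_eq ?_)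
    rw [nm_C_mul, ← pow_mul, nm_X_pow, mul_one, abs_mul, abs_of_nonneg (Nat.cast_nonneg _)]
  have h3 : (∑ i ∈ range (j + 2), ((j + 1).choose i : ℝ) * |((j + 1 : ℕ) : ℝ) - 2 * i|) ^ 2 ≤
      (2 ^ (j + 1)) * (((j + 1 : ℕ) : ℝ) * 2 ^ (j + 1)) := by
    have e1 := Finset.sum_mul_sq_le_sq_mul_sq (range (j + 2)) (fun i => Real.sqrt ((j + 1).choose i : ℝ))
      (fun i => Real.sqrt ((j + 1).choose i : ℝ) * |((j + 1 : ℕ) : ℝ) - 2 * i|)
    have e2 : ∑ i ∈ range (j + 2), Real.sqrt ((j + 1).choose i : ℝ) *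
        (Real.sqrt ((j + 1).choose i : ℝ) * |((j + 1 : ℕ) : ℝ) - 2 * i|) =
        ∑ i ∈ range (j + 2), ((j + 1).choose i : ℝ) * |((j + 1 : ℕ) : ℝ) - 2 * i| :=
      sum_congr rfl fun i _ => by rw [← mul_assoc, Real.mul_self_sqrt (Nat.cast_nonneg _)]
    have e3 : ∑ i ∈ range (j + 2), Real.sqrt ((j + 1).choose i : ℝ) ^ 2 = 2 ^ (j + 1) := by
      have : ∀ i ∈ range (j + 2), Real.sqrt ((j + 1).choose i : ℝ) ^ 2 = (((j + 1).choose i : ℕ) : ℝ) := fun i _ =>
        Real.sq_sqrt (Nat.cast_nonneg _)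
      rw [sum_congr rfl this, ← Nat.cast_sum, Nat.sum_range_choose]
      push_cast
      ring
    have e4 : ∑ i ∈ range (j + 2), (Real.sqrt ((j + 1).choose i : ℝ) * |((j + 1 : ℕ) : ℝ) - 2 * i|) ^ 2 =
        ((j + 1 : ℕ) : ℝ) * 2 ^ (j + 1) := by
      rw [← binom_var (j + 1)]
      exact sum_congr rfl fun i _ => by rw [mul_pow, Real.sq_sqrt (Nat.cast_nonneg _), sq_abs]
    rw [e2, e3, e4] at e1
    exact e1
  have h4 : ∑ i ∈ range (j + 2), ((j + 1).choose i : ℝ) * |((j + 1 : ℕ) : ℝ) - 2 * i| ≤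
      2 ^ (j + 1) * Real.sqrt ((j + 1 : ℕ) : ℝ) := by
    refine le_of_sq_le_sq (h3.trans (le_of_eq ?_)) (by positivity)
    rw [mul_pow, Real.sq_sqrt hj.le]
    ring
  have h5 : ((j + 1 : ℕ) : ℝ) = (j : ℝ) + 1 := by push_cast; ring
  have h6 : Real.sqrt ((j + 1 : ℕ) : ℝ) * Real.sqrt ((j + 1 : ℕ) : ℝ) = ((j + 1 : ℕ) : ℝ) := Real.mul_self_sqrt hj.le
  have h7 : 0 < Real.sqrt ((j + 1 : ℕ) : ℝ) := Real.sqrt_pos.2 hj
  rw [← h5, le_div_iff₀ h7]
  have h8 := h2.trans h4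
  refine le_of_mul_le_mul_right ?_ h7
  calc nm ((1 - X ^ h) * (1 + X ^ h) ^ j) * Real.sqrt ((j + 1 : ℕ) : ℝ) * Real.sqrt ((j + 1 : ℕ) : ℝ)
      = ((j + 1 : ℕ) : ℝ) * nm ((1 - X ^ h) * (1 + X ^ h) ^ j) := by rw [mul_assoc, h6]; ring
    _ ≤ _ := h8

/-- **smoothing of the convolution powers**: f with nonnegative coefficients and total mass m, and g a common part of f and of
its shift by h, with total mass at least c m -/
theorem mineka {f g : ℝ[X]} {h : ℕ} {m c : ℝ} (hm : 0 < m) (hc : 0 < c) (hf : ∀ i, 0 ≤ f.coeff i)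
    (hg : ∀ i, 0 ≤ g.coeff i) (h1 : ∀ i, g.coeff i ≤ f.coeff i) (h2 : ∀ i, g.coeff i ≤ f.coeff (i + h))
    (hfm : f.eval 1 = m) (hgm : c * m ≤ g.eval 1) (K : ℕ) :
    nm ((1 - X ^ h) * f ^ K) ≤ m ^ K * (2 / Real.sqrt (c * (K + 1))) := by
  obtain ⟨γ, hγ⟩ : ∃ γ, γ = g.eval 1 := ⟨_, rfl⟩
  have hγ0 : 0 < γ := by
    rw [hγ]
    exact (mul_pos hc hm).trans_le hgm
  obtain ⟨r, hr⟩ : ∃ r : ℝ[X], r = f - C (1 / 2) * (g + X ^ h * g) := ⟨_, rfl⟩
  have hr0 : ∀ i, 0 ≤ r.coeff i := by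
    intro i
    rw [hr, coeff_sub, coeff_C_mul, coeff_add, coeff_X_pow_mul']
    have a1 := h1 i
    split_ifs with hi
    · have a2 := h2 (i - h)
      rw [Nat.sub_add_cancel hi] at a2
      linarith
    · have a3 := hg i
      linarith [hf i]
  have hr1 : r.eval 1 = m - γ := by
    rw [hr]
    simp only [eval_sub, eval_mul, eval_C, eval_add, eval_pow, eval_X, one_pow, one_mul, hfm, ← hγ]
    ring
  have hmγ : 0 ≤ m - γ := by
    rw [← hr1, ← nm_eval hr0]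
    exact nm_nonneg r
  have hf2 : f = C (1 / 2) * (g * (1 + X ^ h)) + r := by
    rw [hr]
    ring
  have hexp : (1 - X ^ h) * f ^ K = ∑ j ∈ range (K + 1), C ((K.choose j : ℝ) * (1 / 2) ^ j) *
      ((g ^ j * r ^ (K - j)) * ((1 - X ^ h) * (1 + X ^ h) ^ j)) := by
    rw [hf2, add_pow, mul_sum]
    refine sum_congr rfl fun j _ => ?_
    rw [mul_pow, mul_pow, C_mul, ← C_pow, map_natCast]
    ring
  have hb : nm ((1 - X ^ h) * f ^ K) ≤ 2 * ∑ j ∈ range (K + 1), ((K.choose j : ℝ) * γ ^ j * (m - γ) ^ (K - j)) *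
      (1 / Real.sqrt (j + 1)) := by
    rw [hexp, mul_sum]
    refine (nm_sum _ _).trans (sum_le_sum fun j _ => ?_)
    rw [nm_C_mul, abs_of_nonneg (by positivity)]
    have e1 : nm ((g ^ j * r ^ (K - j)) * ((1 - X ^ h) * (1 + X ^ h) ^ j)) ≤
        (γ ^ j * (m - γ) ^ (K - j)) * (2 ^ (j + 1) / Real.sqrt (j + 1)) := by
      refine (nm_mul _ _).trans (mul_le_mul ((nm_mul _ _).trans (mul_le_mul ?_ ?_ (nm_nonneg _) (by positivity)))
        (nm_binom j) (nm_nonneg _) (by positivity))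
      · rw [hγ, ← nm_eval hg]
        exact nm_pow _ _
      · rw [← hr1, ← nm_eval hr0]
        exact nm_pow _ _
    calc (K.choose j : ℝ) * (1 / 2) ^ j * nm ((g ^ j * r ^ (K - j)) * ((1 - X ^ h) * (1 + X ^ h) ^ j))
        ≤ (K.choose j : ℝ) * (1 / 2) ^ j * ((γ ^ j * (m - γ) ^ (K - j)) * (2 ^ (j + 1) / Real.sqrt (j + 1))) :=
          mul_le_mul_of_nonneg_left e1 (by positivity)
      _ = 2 * ((K.choose j : ℝ) * γ ^ j * (m - γ) ^ (K - j) * (1 / Real.sqrt (j + 1))) * ((1 / 2) ^ j * 2 ^ j) := by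
          rw [pow_succ]
          ring
      _ = _ := by rw [← mul_pow]; norm_num
  obtain ⟨p, hp⟩ : ∃ p : ℕ → ℝ, p = fun j => (K.choose j : ℝ) * γ ^ j * (m - γ) ^ (K - j) := ⟨_, rfl⟩
  have hp0 : ∀ j, 0 ≤ p j := fun j => by
    rw [hp]
    positivity
  have hp1 : ∑ j ∈ range (K + 1), p j = m ^ K := by
    have : (γ + (m - γ)) ^ K = ∑ j ∈ range (K + 1), p j := by
      rw [add_pow, hp]
      exact sum_congr rfl fun j _ => by ring
    rw [← this]
    congr 1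
    ring
  have hp2 : ∑ j ∈ range (K + 1), p j / (j + 1) ≤ m ^ (K + 1) / ((K + 1) * γ) := by
    have e1 : ∀ j ∈ range (K + 1), p j / (j + 1) =
        1 / ((K + 1) * γ) * (((K + 1).choose (j + 1) : ℝ) * γ ^ (j + 1) * (m - γ) ^ (K - j)) := by
      intro j _
      have e2 : ((K : ℝ) + 1) * (K.choose j : ℝ) = ((K + 1).choose (j + 1) : ℝ) * ((j : ℝ) + 1) := by
        exact_mod_cast Nat.add_one_mul_choose_eq K j
      have e3 : (0 : ℝ) < (j : ℝ) + 1 := by positivity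
      have e4 : (0 : ℝ) < (K : ℝ) + 1 := by positivity
      have e5 : ((K + 1).choose (j + 1) : ℝ) = ((K : ℝ) + 1) * (K.choose j : ℝ) / ((j : ℝ) + 1) := by
        rw [eq_div_iff e3.ne']
        exact e2.symm
      rw [hp, e5]
      simp only
      field_simp
      ring
    rw [sum_congr rfl e1, ← mul_sum]
    have e2 : ∑ j ∈ range (K + 1), ((K + 1).choose (j + 1) : ℝ) * γ ^ (j + 1) * (m - γ) ^ (K - j) ≤ m ^ (K + 1) := by
      have e3 : (γ + (m - γ)) ^ (K + 1) = ∑ j ∈ range (K + 2), ((K + 1).choose j : ℝ) * γ ^ j * (m - γ) ^ (K + 1 - j) := by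
        rw [add_pow]
        exact sum_congr rfl fun j _ => by ring
      rw [show γ + (m - γ) = m by ring, sum_range_succ'] at e3
      rw [e3]
      have e4 : ∀ j ∈ range (K + 1), ((K + 1).choose (j + 1) : ℝ) * γ ^ (j + 1) * (m - γ) ^ (K + 1 - (j + 1)) =
          ((K + 1).choose (j + 1) : ℝ) * γ ^ (j + 1) * (m - γ) ^ (K - j) := fun j _ => by
        rw [Nat.add_sub_add_right]
      rw [sum_congr rfl e4]
      have e5 : 0 ≤ ((K + 1).choose 0 : ℝ) * γ ^ 0 * (m - γ) ^ (K + 1 - 0) := by positivity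
      linarith
    calc 1 / ((K + 1) * γ) * ∑ j ∈ range (K + 1), ((K + 1).choose (j + 1) : ℝ) * γ ^ (j + 1) * (m - γ) ^ (K - j)
        ≤ 1 / ((K + 1) * γ) * m ^ (K + 1) := mul_le_mul_of_nonneg_left e2 (by positivity)
      _ = _ := by ring
  have hcs : (∑ j ∈ range (K + 1), p j * (1 / Real.sqrt (j + 1))) ^ 2 ≤ m ^ K * (m ^ (K + 1) / ((K + 1) * γ)) := by
    have e1 := Finset.sum_mul_sq_le_sq_mul_sq (range (K + 1)) (fun j => Real.sqrt (p j))
      (fun j => Real.sqrt (p j) * (1 / Real.sqrt (j + 1)))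
    have e2 : ∑ j ∈ range (K + 1), Real.sqrt (p j) * (Real.sqrt (p j) * (1 / Real.sqrt (j + 1))) =
        ∑ j ∈ range (K + 1), p j * (1 / Real.sqrt (j + 1)) :=
      sum_congr rfl fun j _ => by rw [← mul_assoc, Real.mul_self_sqrt (hp0 j)]
    have e3 : ∑ j ∈ range (K + 1), Real.sqrt (p j) ^ 2 = m ^ K := by
      rw [← hp1]
      exact sum_congr rfl fun j _ => Real.sq_sqrt (hp0 j)
    have e4 : ∑ j ∈ range (K + 1), (Real.sqrt (p j) * (1 / Real.sqrt (j + 1))) ^ 2 = ∑ j ∈ range (K + 1), p j / (j + 1) :=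
      sum_congr rfl fun j _ => by
        rw [mul_pow, Real.sq_sqrt (hp0 j), div_pow, one_pow, Real.sq_sqrt (by positivity)]
        ring
    rw [e2, e3, e4] at e1
    exact e1.trans (mul_le_mul_of_nonneg_left hp2 (by positivity))
  have hfin : ∑ j ∈ range (K + 1), p j * (1 / Real.sqrt (j + 1)) ≤ m ^ K * (1 / Real.sqrt (c * (K + 1))) := by
    refine le_of_sq_le_sq (hcs.trans ?_) (by positivity)
    rw [mul_pow, div_pow, one_pow, Real.sq_sqrt (by positivity)]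
    have hg2 : c * m ≤ γ := by rw [hγ]; exact hgm
    have hK0 : (0 : ℝ) < (K : ℝ) + 1 := by positivity
    calc m ^ K * (m ^ (K + 1) / ((K + 1) * γ)) ≤ m ^ K * (m ^ (K + 1) / ((K + 1) * (c * m))) := by
          refine mul_le_mul_of_nonneg_left (div_le_div_of_nonneg_left (by positivity) (by positivity) ?_) (by positivity)
          exact mul_le_mul_of_nonneg_left hg2 hK0.le
      _ = (m ^ K) ^ 2 * (1 / (c * (K + 1))) := by
          rw [pow_succ]
          field_simp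
  calc nm ((1 - X ^ h) * f ^ K) ≤ 2 * ∑ j ∈ range (K + 1), p j * (1 / Real.sqrt (j + 1)) := by
        rw [hp]
        exact hb
    _ ≤ 2 * (m ^ K * (1 / Real.sqrt (c * (K + 1)))) := by linarith
    _ = _ := by ring

/-- the pointwise form: one more factor w with coefficients at most M -/
theorem mineka_point {f g w : ℝ[X]} {h : ℕ} {m c M : ℝ} (hm : 0 < m) (hc : 0 < c) (hf : ∀ i, 0 ≤ f.coeff i)
    (hg : ∀ i, 0 ≤ g.coeff i) (h1 : ∀ i, g.coeff i ≤ f.coeff i) (h2 : ∀ i, g.coeff i ≤ f.coeff (i + h))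
    (hfm : f.eval 1 = m) (hgm : c * m ≤ g.eval 1) (hw : ∀ i, |w.coeff i| ≤ M) (K b : ℕ) :
    |(f ^ K * w).coeff (b + h) - (f ^ K * w).coeff b| ≤ m ^ K * (2 / Real.sqrt (c * (K + 1))) * M := by
  have hM : 0 ≤ M := (abs_nonneg _).trans (hw 0)
  have e1 : ((1 - X ^ h) * f ^ K * w).coeff (b + h) = (f ^ K * w).coeff (b + h) - (f ^ K * w).coeff b := by
    have : (1 - X ^ h) * f ^ K * w = f ^ K * w - X ^ h * (f ^ K * w) := by ring
    rw [this, coeff_sub, coeff_X_pow_mul]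
  rw [← e1]
  exact (coeff_mul_le _ _ hw _).trans (mul_le_mul_of_nonneg_right (mineka hm hc hf hg h1 h2 hfm hgm K) hM)

end SLW

end HexObs
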