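import Pool.Agent.SLW.SmallC

/-!
# SLOW / PW: niceness under the uniform law of the walks with exactly n letters, with the explicit class of ends (helper62)
-/

set_option autoImplicit false

namespace HexObs

namespace SLW

open Finset TS SDN TIW HexObs.SIM NTA

open scoped ENNReal

open Sm Classical TIP.NgA in
/-- **transfer of an event near the tip from the right parts to exactly n letters** -/
theorem Pn_of_botS (hS : TIP.StrU) : ∀ ε : ℝ, 0 < ε → ∃ (c1 C1 d k0 : ℕ) (e : ℝ), 0 < e ∧ ∀ k n D : ℕ, k0 ≤ k →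
    TIP.Sc k n → D * 2 ^ d ≤ 2 ^ k → ∀ P : Set (List Bool),
      (∀ L R : List Bool, (∀ i, i ≤ L.length → vx oo up (L ++ R) i ∉ SIM.Bl (TIP.tipv (L ++ R)) (4 * D)) →
        L ++ R ∈ P → R ∈ P) →
      gf {R | R ∈ BotS (k - c1) (k + C1) ∧ R ∈ P} ≤ ENNReal.ofReal (e * Ub (k + C1)) * NTA.Xb (k + C1) →
      TOG.Pn n P ≤ ε := by
  intro ε hε
  obtain ⟨Ct, c1, C1, d, kt, hCt, htr⟩ := trans_of hS (ε / 2) (by linarith)
  obtain ⟨D0, hD0, hX⟩ := NTA.Xb_pow
  obtain ⟨Z, hZ⟩ : ∃ Z : ℝ, Z = Ct * (2 ^ C1 * D0 ^ C1) := ⟨_, rfl⟩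
  have hZp : 0 < Z := by rw [hZ]; positivity
  refine ⟨c1, C1, d, kt, ε / (2 * Z), by positivity, fun k n D hk hsc hD P hP hg => ?_⟩
  obtain ⟨Bd, hBd, htr⟩ := htr k n hk hsc
  obtain ⟨P', hP'⟩ : ∃ P' : Set (List Bool), P' = {t | t ∉ Bd ∧ t ∈ P} := ⟨_, rfl⟩
  have hUk := TS.Ub_pos k
  have h1 := htr D (fun t => if t ∈ P then (1 : ℝ≥0∞) else 0) hD ?_
  · rw [ind_gf, ind_gf] at h1
    have h2 : gf {t | t ∈ {t | t ∈ SawN n ∧ t ∉ Bd} ∧ t ∈ P} = gf (SawN n) * ENNReal.ofReal (TOG.Pn n P') := by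
      rw [Pn_mul, hP']
      congr 1
      ext t
      exact and_assoc
    have h3 : gf {t | t ∈ RRD (k - c1) (k + C1) (2 * 2 ^ (k - d)) ∧ t ∈ P} ≤
        ENNReal.ofReal (ε / (2 * Z)) * (ENNReal.ofReal (Ub (k + C1)) * NTA.Xb (k + C1)) := by
      refine (le_trans (gf_mono ?_) hg).trans (le_of_eq ?_)
      · rintro t ⟨t1, t2⟩
        exact ⟨Tr.RRD_sub _ _ _ t1, t2⟩
      · rw [ENNReal.ofReal_mul (by positivity), mul_assoc]
    have h4 : ENNReal.ofReal (Ub (k + C1)) * NTA.Xb (k + C1) ≤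
        ENNReal.ofReal (2 ^ C1 * D0 ^ C1) * (ENNReal.ofReal (Ub k) * NTA.Xb k) := by
      calc ENNReal.ofReal (Ub (k + C1)) * NTA.Xb (k + C1)
          ≤ ENNReal.ofReal (2 ^ C1 * Ub k) * (ENNReal.ofReal (D0 ^ C1) * NTA.Xb k) :=
            mul_le_mul' (ENNReal.ofReal_le_ofReal (Ub_add k C1)) (hX k C1)
        _ = _ := by
            rw [ENNReal.ofReal_mul (p := (2 : ℝ) ^ C1) (by positivity), ENNReal.ofReal_mul (p := (2 : ℝ) ^ C1) (by positivity)]
            ring
    rw [h2] at h1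
    have h5 : gf (SawN n) * (ENNReal.ofReal (Ub k) * NTA.Xb k) * ENNReal.ofReal (TOG.Pn n P') ≤
        gf (SawN n) * (ENNReal.ofReal (Ub k) * NTA.Xb k) * ENNReal.ofReal (ε / 2) := by
      calc gf (SawN n) * (ENNReal.ofReal (Ub k) * NTA.Xb k) * ENNReal.ofReal (TOG.Pn n P')
          = gf (SawN n) * ENNReal.ofReal (TOG.Pn n P') * (ENNReal.ofReal (Ub k) * NTA.Xb k) := by ring
        _ ≤ ENNReal.ofReal Ct * gf (SawN n) * (ENNReal.ofReal (ε / (2 * Z)) *
              (ENNReal.ofReal (2 ^ C1 * D0 ^ C1) * (ENNReal.ofReal (Ub k) * NTA.Xb k))) :=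
            h1.trans (mul_le_mul' le_rfl (h3.trans (mul_le_mul' le_rfl h4)))
        _ = gf (SawN n) * (ENNReal.ofReal (Ub k) * NTA.Xb k) * ENNReal.ofReal (Ct * (ε / (2 * Z)) * (2 ^ C1 * D0 ^ C1)) := by
            rw [ENNReal.ofReal_mul (p := Ct * (ε / (2 * Z))) (by positivity), ENNReal.ofReal_mul (p := Ct) hCt.le]
            ring
        _ = _ := by
            congr 2
            have : Ct * (ε / (2 * Z)) * (2 ^ C1 * D0 ^ C1) = Z * (ε / (2 * Z)) := by rw [hZ]; ring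
            rw [this]
            field_simp
    obtain ⟨hs1, hs2⟩ := saw_ne n
    have hUe : ENNReal.ofReal (Ub k) ≠ 0 := by
      rw [Ne, ENNReal.ofReal_eq_zero, not_le]
      exact hUk
    have h6 := (ENNReal.mul_le_mul_iff_right (mul_ne_zero hs1 (mul_ne_zero hUe (NTA.Xb_ne_zero k)))
      (ENNReal.mul_ne_top hs2 (ENNReal.mul_ne_top ENNReal.ofReal_ne_top (NTA.Xb_ne_top k)))).1 h5
    rw [ENNReal.ofReal_le_ofReal_iff (by positivity)] at h6
    have h7 := TIP.NgU.Pn_union n Bd P'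
    have h8 : TOG.Pn n P ≤ TOG.Pn n (Bd ∪ P') := by
      unfold TOG.Pn
      refine div_le_div_of_nonneg_right ?_ (Nat.cast_nonneg _)
      have hfin : {t | t ∈ SawN n ∧ t ∈ Bd ∪ P'}.Finite := by
        refine Set.Finite.subset ?_ (fun t ht => ht.1)
        by_contra hinf
        have h7 : (cS n : ℕ) = 0 := Set.Infinite.ncard hinf
        have h8 := TOG.cS_pos n
        omega
      have h7 := Set.ncard_le_ncard (s := {t | t ∈ SawN n ∧ t ∈ P}) (t := {t | t ∈ SawN n ∧ t ∈ Bd ∪ P'}) (by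
        rintro t ⟨t1, t2⟩
        refine ⟨t1, ?_⟩
        by_cases hb : t ∈ Bd
        · exact Or.inl hb
        · right
          rw [hP']
          exact ⟨hb, t2⟩) hfin
      exact_mod_cast h7
    linarith
  · intro L R hLR
    by_cases h2 : L ++ R ∈ P
    · have h3 : R ∈ P := hP L R hLR h2
      simp only
      rw [if_pos h2, if_pos h3]
    · simp only
      rw [if_neg h2]
      exact zero_le

open Classical in
/-- **a far piece in front does not spoil niceness** -/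
lemma NcS_far {l b : ℕ} {κ : ℝ} {YY : Set (List Bool)}
    (hYY : ∀ Y ∈ YY, ∀ i, i ≤ Y.length → hn (vx oo up Y i) < 2 ^ b) {L R : List Bool}
    (hL : ∀ i, i ≤ L.length → (2 ^ b + 4 * 2 ^ l : ℤ) ≤ hn (vx oo up (L ++ R) i - en (L ++ R))) (hR : R ∈ NcS l YY κ) :
    L ++ R ∈ NcS l YY κ := by
  unfold NcS at hR ⊢
  rw [Set.mem_ofPred_eq] at hR ⊢
  refine hR.trans ?_
  have hdrop : ∀ j, (L ++ R).drop (L.length + j) = R.drop j := fun j => by
    rw [List.drop_append]
    simp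
  have htake : ∀ j, (L ++ R).take (L.length + j) = L ++ R.take j := fun j => by
    rw [List.take_append]
    simp
  have hinj : Set.InjOn (fun k => L.length + k)
      (((range (R.length + 1)).filter fun k => R.take k ∈ Fe (4 * 2 ^ l) ∧ R.drop k ∈ YY : Finset ℕ) : Set ℕ) := by
    intro a _ b _ h
    simp only at h
    omega
  have h1 : ((range (R.length + 1)).filter fun k => R.take k ∈ Fe (4 * 2 ^ l) ∧ R.drop k ∈ YY).card ≤
      ((range ((L ++ R).length + 1)).filter fun k => (L ++ R).take k ∈ Fe (4 * 2 ^ l) ∧ (L ++ R).drop k ∈ YY).card := by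
    refine card_le_card_of_injOn (fun k => L.length + k) (fun k hk => ?_) hinj
    rw [mem_coe, mem_filter, mem_range] at hk ⊢
    obtain ⟨h1, h2, h3⟩ := hk
    refine ⟨?_, ?_, ?_⟩
    · show L.length + k < _
      rw [List.length_append]
      omega
    · show (L ++ R).take (L.length + k) ∈ _
      rw [htake]
      refine Sm.Fe_far h2 fun q hq => ?_
      have h8 : hn (en (R.drop k)) < ((2 ^ b : ℕ) : ℤ) := by
        have := hYY _ h3 _ le_rfl
        push_cast
        exact this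
      have h9 := Sm.hn_tip (A := L ++ R.take k) h8
      rw [List.append_assoc, List.take_append_drop] at h9
      have h10 := hL q hq
      have e3 : vx oo up (L ++ R) q = vx oo up (L ++ R.take k) q := by
        rw [vx_append (by omega), vx_append (by omega)]
      rw [e3] at h10
      have h11 := hn_tri (vx oo up (L ++ R.take k) q) (en (L ++ R.take k)) (en (L ++ R))
      rw [hn_sub_comm (en (L ++ R.take k)) (en (L ++ R))] at h11
      push_cast at h9 ⊢
      linarith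
    · show (L ++ R).drop (L.length + k) ∈ _
      rw [hdrop]
      exact h3
  exact_mod_cast h1

/-- niceness, exactly n letters, all levels up to the macroscopic scale, explicit ends -/
def NiceP : Prop := ∀ ε : ℝ, 0 < ε → ∃ (κ η : ℝ) (j m c0 k0 l0 : ℕ), 0 < κ ∧ 0 < η ∧ ∀ k n l : ℕ, k0 ≤ k → TIP.Sc k n →
  l0 ≤ l → l + c0 ≤ k → TOG.Pn n {t | t ∉ NcS l (YN (l + j) m η) κ} ≤ ε

/-- **niceness from the niceness of the right parts** -/
theorem niceP_of (hS : TIP.StrU) (hN : NiceB) : NiceP := by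
  intro ε hε
  obtain ⟨c1, C1, d, k1, e, he, htr⟩ := Pn_of_botS hS ε hε
  obtain ⟨κ, η, j, m, c0, l0, hκ, hη, hN⟩ := hN e (c1 + C1) he
  refine ⟨κ, η, j, m, c0 + c1 + d + (j + m + 8), k1 + c1, l0, hκ, hη, fun k n l hk hsc hl hlk => ?_⟩
  refine htr k n (2 ^ (l + (j + m + 4))) (by omega) hsc ?_ _ ?_ ?_
  · rw [← pow_add]
    exact Nat.pow_le_pow_right (by norm_num) (by omega)
  · intro L R hLR hbad hR
    refine hbad (NcS_far (b := l + (j + m + 2)) Sm.YN_size (fun q hq => ?_) hR)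
    have h1 := hLR q hq
    have h2 : vx oo up (L ++ R) q - en (L ++ R) ∉ SIM.Bl oo (4 * 2 ^ (l + (j + m + 4))) := by
      intro h3
      apply h1
      have e0 : (oo : Pt) = (0, 0) := rfl
      rw [e0] at h3
      obtain ⟨h4, h5⟩ := h3
      simp only [sub_zero] at h4 h5
      exact ⟨h4, h5⟩
    have h3 := Sm.hn_far h2
    have h4 : (2 : ℤ) ^ (l + (j + m + 4)) = 4 * 2 ^ (l + (j + m + 2)) := by ring
    have h5 : (2 : ℤ) ^ l ≤ 2 ^ (l + (j + m + 2)) := pow_le_pow_right₀ (by norm_num) (by omega)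
    have h6 : (0 : ℤ) < 2 ^ (l + (j + m + 2)) := by positivity
    push_cast at h3
    linarith
  · have h1 := hN (k - c1) (k + C1) l hl (by omega) (by omega) (by omega)
    exact (gf_mono (by rintro t ⟨t1, t2⟩; exact ⟨t1, t2⟩)).trans h1

end SLW

end HexObs
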