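import Pool.Agent.SLW.ConvId

/-!
# SLOW, S5: the number of the decompositions is at most the number of the cuts of the next scale (helper92)
-/

set_option autoImplicit false

namespace HexObs

namespace SLW

open Finset TS SDN TIW

/-- **uniqueness of the chains** -/
theorem NQ_le_NP {l : ℕ} {Ch : Set (List Bool)} (hC : Chn l Ch) (t : List Bool) : NQ l Ch t ≤ NP (2 ^ (l + 1)) t := by
  classical
  unfold NQ NP
  have h : (((range (t.length + 1)) ×ˢ (range (t.length + 1))).filter (fun p => Dc l Ch t p.1 p.2)).card ≤
      (cu (2 ^ (l + 1)) t).card := by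
    refine card_le_card_of_injOn (fun p => p.1) (fun p hp => ?_) fun p hp q hq he => ?_
    · rw [Finset.mem_coe, mem_filter, mem_product, mem_range, mem_range] at hp
      obtain ⟨⟨hp1, hp2⟩, h1, h2, h3, h4⟩ := hp
      rw [Finset.mem_coe, cu, mem_filter, mem_range]
      have e2 : t.drop p.1 = (t.take p.2).drop p.1 ++ t.drop p.2 := by
        nth_rw 1 [← List.take_append_drop p.2 t]
        rw [List.drop_append_of_le_length (by rw [List.length_take]; omega)]
      have e3 : 2 * 2 ^ (l + 1) = 4 * 2 ^ l := by
        rw [pow_succ]
        ring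
      have e4 : 2 ^ (l + 1) = 2 * 2 ^ l := by
        rw [pow_succ]
        ring
      refine ⟨hp1, by rw [e3]; exact h2, ?_⟩
      show t.drop p.1 ∈ Hp (2 ^ (l + 1))
      rw [e2, e4]
      refine bu_hp (hC.bu h3) (fun i hi => ?_) h4
      have := hC.size _ h3 i hi
      push_cast
      exact this
    · rw [Finset.mem_coe, mem_filter, mem_product, mem_range, mem_range] at hp hq
      obtain ⟨⟨hp1, hp2⟩, h1, h2, h3, h4⟩ := hp
      obtain ⟨⟨hq1, hq2⟩, g1, g2, g3, g4⟩ := hq
      have he' : p.1 = q.1 := he
      have e2 : t.drop p.1 = (t.take p.2).drop p.1 ++ t.drop p.2 := by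
        nth_rw 1 [← List.take_append_drop p.2 t]
        rw [List.drop_append_of_le_length (by rw [List.length_take]; omega)]
      have e3 : t.drop q.1 = (t.take q.2).drop q.1 ++ t.drop q.2 := by
        nth_rw 1 [← List.take_append_drop q.2 t]
        rw [List.drop_append_of_le_length (by rw [List.length_take]; omega)]
      have e4 := hC.uniq _ h3 _ g3 _ _ h4.1 g4.1 (by rw [← e2, ← e3, he'])
      have e5 := congrArg List.length e4
      rw [List.length_drop, List.length_drop, List.length_take, List.length_take, min_eq_left (by omega),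
        min_eq_left (by omega)] at e5
      have e6 : p.2 = q.2 := by omega
      exact Prod.ext he' e6
  exact_mod_cast h

end SLW

end HexObs
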