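import Pool.Agent.NTS.Merge
import Pool.Agent.SLW.PubC
import Mathlib.MeasureTheory.Measure.LevyProkhorovMetric

/-!
# Slow change, the public side (helper90)

From the slow change on words (`SlowG`, the literal `SLW.SlowF` in terms of the lengths `m k` of the scales):
**`slow_even`**: the number of the walks, the size and the law of the curve with `n` and with `n + h` steps are close for
even `h ≤ δ n`. With one step (`OneSt`): **`slow_all`**, all `h ≤ δ n`. **`q1_geo`**: the laws converge if and only if they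
converge along the step numbers `⌊lam ^ j⌋` for every `lam > 1`.
-/

set_option autoImplicit false

namespace NTSF

namespace Mg

open Finset MeasureTheory Filter Topology

open HexObs hiding pos

open HexObs.TOG HexObs.OneS HexObs.SDN HexObs.TS HexObs.TIW

open Pool.Agent.NTS.Res

open scoped Classical

/-- slow change on words -/
def SlowG (m : ℕ → ℝ) : Prop := ∀ ε : ℝ, 0 < ε → ∃ τ : ℝ, 0 < τ ∧ ∀ c1 : ℕ, ∃ c2 k0 : ℕ, ∀ k n h : ℕ, k0 ≤ k →
  (m k ≤ n ∧ (n : ℝ) < m (k + 1)) → Even h → h * 2 ^ c2 ≤ n → ∀ F : List Bool → ℝ, (∀ t, |F t| ≤ 1) →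
    (∀ A Y, A ++ Y ∈ SA → (∀ i, i ≤ Y.length → hn (vx oo up Y i) < 2 ^ (k - c1)) → |F (A ++ Y) - F A| ≤ τ) →
    |xc ^ (n + h) * ∑ t ∈ wdN (n + h), F t - xc ^ n * ∑ t ∈ wdN n, F t| ≤ ε * (cS n * xc ^ n)

/-! ### 1. The scale of a length -/

section

variable {m : ℕ → ℝ} {c : ℝ}

lemma scale_pow (k : ℕ) : (2 : ℝ) ^ (4 / 3 * (k : ℝ)) = ((2 : ℝ) ^ k) ^ (4 / 3 : ℝ) := by
  rw [← Real.rpow_natCast, ← Real.rpow_mul (by norm_num)]
  congr 1
  ring

lemma scale_le {c : ℝ} (hc : 0 < c) (hlo : ∀ k : ℕ, c * (2 : ℝ) ^ (4 / 3 * (k : ℝ)) ≤ m k) {k n : ℕ} (h : m k ≤ n) :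
    (2 : ℝ) ^ k ≤ (1 / c) ^ (3 / 4 : ℝ) * nr n := by
  have h1 := (hlo k).trans h
  rw [scale_pow] at h1
  have h2 : ((2 : ℝ) ^ k) ^ (4 / 3 : ℝ) ≤ (1 / c) * n := by
    rw [one_div, inv_mul_eq_div, le_div_iff₀ hc, mul_comm]
    exact h1
  have h3 := Real.rpow_le_rpow (by positivity) h2 (by norm_num : (0 : ℝ) ≤ 3 / 4)
  rw [← Real.rpow_mul (by positivity), Real.mul_rpow (by positivity) (Nat.cast_nonneg _)] at h3
  norm_num at h3
  unfold nr
  norm_num
  exact h3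

lemma scale_ex {c : ℝ} (hc : 0 < c) (hlo : ∀ k : ℕ, c * (2 : ℝ) ^ (4 / 3 * (k : ℝ)) ≤ m k) (k0 : ℕ) :
    ∃ N : ℕ, ∀ n : ℕ, N ≤ n → ∃ k : ℕ, k0 ≤ k ∧ (m k ≤ n ∧ (n : ℝ) < m (k + 1)) := by
  obtain ⟨N, hN⟩ := exists_nat_ge (m k0)
  refine ⟨N, fun n hn => ?_⟩
  have hn' : m k0 ≤ n := hN.trans (by exact_mod_cast hn)
  have hat : Tendsto m atTop atTop := by
    have h1 : Tendsto (fun k : ℕ => c * (2 : ℝ) ^ k) atTop atTop :=
      (tendsto_pow_atTop_atTop_of_one_lt (by norm_num : (1 : ℝ) < 2)).const_mul_atTop hc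
    refine tendsto_atTop_mono (fun k => ?_) h1
    refine le_trans ?_ (hlo k)
    refine mul_le_mul_of_nonneg_left ?_ hc.le
    rw [← Real.rpow_natCast]
    refine Real.rpow_le_rpow_of_exponent_le (by norm_num) ?_
    have : (0 : ℝ) ≤ k := Nat.cast_nonneg k
    linarith
  obtain ⟨K, hK⟩ := eventually_atTop.1 (hat.eventually_gt_atTop (n : ℝ))
  have hex : ∃ j : ℕ, (n : ℝ) < m (k0 + j) := ⟨K, hK _ (by omega)⟩
  obtain ⟨j, hj⟩ : ∃ j, j = Nat.find hex := ⟨_, rfl⟩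
  have h1 : (n : ℝ) < m (k0 + j) := hj ▸ Nat.find_spec hex
  rcases Nat.eq_zero_or_pos j with h0 | h0
  · rw [h0, add_zero] at h1
    linarith
  · have h2 : ¬ (n : ℝ) < m (k0 + (j - 1)) := Nat.find_min hex (by omega)
    refine ⟨k0 + (j - 1), by omega, not_lt.1 h2, ?_⟩
    rw [show k0 + (j - 1) + 1 = k0 + j by omega]
    exact h1

end

/-! ### 2. The words along sequences -/

/-- the ratio of the numbers of the words -/
noncomputable def rr (n h : ℕ) : ℝ := (cS (n + h) : ℝ) * xc ^ h / cS n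

section

variable {m : ℕ → ℝ} (hS : SlowG m) (hlo : ∃ c : ℝ, 0 < c ∧ ∀ k : ℕ, c * (2 : ℝ) ^ (4 / 3 * (k : ℝ)) ≤ m k)
  (hc : ∀ n, 0 < cS n)

include hS hlo hc

lemma words_seq {f : C(unitInterval, ℂ) → ℝ} (h01 : ∀ x, 0 ≤ f x ∧ f x ≤ 1) (hL : ∃ L, LipschitzWith L f) {a h : ℕ → ℕ}
    (ha : Tendsto a atTop atTop) (hah : Tendsto (fun j => (h j : ℝ) / a j) atTop (𝓝 0)) (hev : ∀ j, Even (h j)) :
    Tendsto (fun j => rr (a j) (h j) * Ef (a j + h j) (FT f (a j)) - Ef (a j) (FT f (a j))) atTop (𝓝 0) := by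
  obtain ⟨K, hK⟩ := hL
  obtain ⟨c, hc0, hlo⟩ := hlo
  rw [Metric.tendsto_atTop]
  intro e he
  obtain ⟨τ, hτ, h1⟩ := hS (e / 2) (by positivity)
  obtain ⟨c1, hc1⟩ : ∃ c1 : ℕ, (K : ℝ) * (1 / c) ^ (3 / 4 : ℝ) / τ ≤ 2 ^ c1 := pow_unbounded_of_one_lt _ one_lt_two |>.imp fun _ h => h.le
  obtain ⟨c2, k0, h2⟩ := h1 c1
  obtain ⟨N, hN⟩ := scale_ex hc0 hlo (max k0 c1)
  have e1 := ha.eventually_ge_atTop (max N 1)
  have e2 := (tendsto_order.1 hah).2 (1 / 2 ^ c2) (by positivity)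
  obtain ⟨j0, hj0⟩ := eventually_atTop.1 (e1.and e2)
  refine ⟨j0, fun j hj => ?_⟩
  obtain ⟨g1, g2⟩ := hj0 j hj
  have g3 : N ≤ a j := le_of_max_le_left g1
  have g4 : 1 ≤ a j := le_of_max_le_right g1
  have ga : (0 : ℝ) < a j := by exact_mod_cast g4
  obtain ⟨k, hk, hk2⟩ := hN (a j) g3
  have g5 : h j * 2 ^ c2 ≤ a j := by
    rw [div_lt_div_iff₀ ga (by positivity), one_mul] at g2
    exact_mod_cast g2.le
  have hn := nr_pos g4
  have h3 := h2 k (a j) (h j) (le_of_max_le_left hk) hk2 (hev j) g5 (FT f (a j)) (fun t => by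
    have := FT_01 h01 (a j) t
    rw [abs_le]
    constructor <;> linarith) (fun A Y _ hY => by
    have q1 := FT_end (R := 2 ^ (k - c1)) hK (fun i hi => by exact_mod_cast hY i hi) g4 (A := A)
    refine q1.trans ?_
    have q2 := scale_le hc0 hlo hk2.1
    have q3 : c1 ≤ k := le_of_max_le_right hk
    have q4 : (2 : ℝ) ^ (k - c1) * 2 ^ c1 = 2 ^ k := by
      rw [← pow_add, Nat.sub_add_cancel q3]
    have q5 : (2 : ℝ) ^ (k - c1) / nr (a j) * 2 ^ c1 ≤ (1 / c) ^ (3 / 4 : ℝ) := by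
      rw [div_mul_eq_mul_div, q4, div_le_iff₀ hn]
      exact q2
    rw [div_le_iff₀ hτ] at hc1
    have q6 : (K : ℝ) * ((2 : ℝ) ^ (k - c1) / nr (a j)) * 2 ^ c1 ≤ τ * 2 ^ c1 := by
      calc (K : ℝ) * ((2 : ℝ) ^ (k - c1) / nr (a j)) * 2 ^ c1 = K * ((2 : ℝ) ^ (k - c1) / nr (a j) * 2 ^ c1) := by ring
        _ ≤ K * (1 / c) ^ (3 / 4 : ℝ) := mul_le_mul_of_nonneg_left q5 K.2
        _ ≤ _ := by linarith
    have q7 := le_of_mul_le_mul_right q6 (by positivity : (0 : ℝ) < 2 ^ c1)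
    push_cast
    exact q7)
  rw [Real.dist_eq, sub_zero]
  have hx := xc_pos
  have s1 : (0 : ℝ) < cS (a j) := by exact_mod_cast hc _
  have s2 : (0 : ℝ) < cS (a j + h j) := by exact_mod_cast hc _
  have e3 : rr (a j) (h j) * Ef (a j + h j) (FT f (a j)) - Ef (a j) (FT f (a j)) =
      (xc ^ (a j + h j) * ∑ t ∈ wdN (a j + h j), FT f (a j) t - xc ^ (a j) * ∑ t ∈ wdN (a j), FT f (a j) t) /
        (cS (a j) * xc ^ (a j)) := by
    unfold rr Ef
    rw [pow_add]
    field_simp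
  rw [e3, abs_div, abs_of_pos (by positivity : (0 : ℝ) < cS (a j) * xc ^ (a j)), div_lt_iff₀ (by positivity)]
  refine lt_of_le_of_lt h3 ?_
  have : 0 < (cS (a j) : ℝ) * xc ^ (a j) := by positivity
  nlinarith

lemma rr_seq {a h : ℕ → ℕ} (ha : Tendsto a atTop atTop) (hah : Tendsto (fun j => (h j : ℝ) / a j) atTop (𝓝 0))
    (hev : ∀ j, Even (h j)) : Tendsto (fun j => rr (a j) (h j)) atTop (𝓝 1) := by
  have h1 := words_seq hS hlo hc (f := fun _ => 1) (fun _ => ⟨zero_le_one, le_rfl⟩)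
    ⟨0, LipschitzWith.const 1⟩ ha hah hev
  have h2 : ∀ n k : ℕ, Ef n (FT (fun _ => 1) k) = 1 := by
    intro n k
    have : FT (fun _ : C(unitInterval, ℂ) => 1) k = fun _ => 1 := funext fun t => by
      unfold FT
      norm_num
    rw [this]
    exact Ef_one hc n
  simp only [h2, mul_one] at h1
  have h3 := h1.add_const 1
  rw [zero_add] at h3
  refine h3.congr fun j => ?_
  ring

/-- the means in the scaling of a over the words with a and with a + h letters merge -/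
lemma means_seq {f : C(unitInterval, ℂ) → ℝ} (h01 : ∀ x, 0 ≤ f x ∧ f x ≤ 1) (hL : ∃ L, LipschitzWith L f) {a h : ℕ → ℕ}
    (ha : Tendsto a atTop atTop) (hah : Tendsto (fun j => (h j : ℝ) / a j) atTop (𝓝 0)) (hev : ∀ j, Even (h j)) :
    Tendsto (fun j => Ef (a j + h j) (FT f (a j)) - Ef (a j) (FT f (a j))) atTop (𝓝 0) := by
  have h1 := words_seq hS hlo hc h01 hL ha hah hev
  have h2 := rr_seq hS hlo hc ha hah hev
  have h3 : Tendsto (fun j => (1 - rr (a j) (h j)) * Ef (a j + h j) (FT f (a j))) atTop (𝓝 0) := by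
    have h4 : Tendsto (fun j => 1 - rr (a j) (h j)) atTop (𝓝 0) := by
      have := (tendsto_const_nhds (x := (1 : ℝ))).sub h2
      rwa [sub_self] at this
    refine squeeze_zero_norm (fun j => ?_) ((h4.norm).trans (le_of_eq (by rw [norm_zero])))
    rw [norm_mul]
    refine mul_le_of_le_one_right (norm_nonneg _) ?_
    rw [Real.norm_eq_abs, abs_of_nonneg (Ef_nonneg hc (FT_01 h01 _) _)]
    exact Ef_le_one hc (FT_01 h01 _) _
  have h4 := h1.add h3
  rw [add_zero] at h4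
  refine h4.congr fun j => ?_
  ring

end

/-! ### 3. The curves -/

lemma nr_zero : nr 0 = 0 := by
  unfold nr
  rw [Nat.cast_zero, Real.zero_rpow (by norm_num)]

/-- the distance of the laws -/
noncomputable def dP (n k : ℕ) : ℝ := levyProkhorovDist (law n) (law k)

lemma dP_eq (n k : ℕ) : dP n k = dist (LevyProkhorov.ofMeasure (PM n)) (LevyProkhorov.ofMeasure (PM k)) := rfl

lemma toLP_cont : Continuous (LevyProkhorov.ofMeasure (α := ProbabilityMeasure C(unitInterval, ℂ))) :=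
  LevyProkhorov.continuous_ofMeasure_probabilityMeasure

section

variable {m : ℕ → ℝ} (hS : SlowG m) (hlo : ∃ c : ℝ, 0 < c ∧ ∀ k : ℕ, c * (2 : ℝ) ^ (4 / 3 * (k : ℝ)) ≤ m k)
  (hc : ∀ n, 0 < cS n) (hO : OneFacts)

include hS hlo hc hO

/-- **sequences** -/
theorem curves_seq {a h : ℕ → ℕ} (ha : Tendsto a atTop atTop) (ha0 : ∀ j, 0 < a j)
    (hah : Tendsto (fun j => (h j : ℝ) / a j) atTop (𝓝 0)) (hev : ∀ j, Even (h j)) :
    ∃ ψ : ℕ → ℕ, StrictMono ψ ∧
      Tendsto (fun j => |rr (a (ψ j)) (h (ψ j)) - 1| ⊔ |size (a (ψ j) + h (ψ j)) / size (a (ψ j)) - 1| ⊔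
        dP (a (ψ j) + h (ψ j)) (a (ψ j))) atTop (𝓝 0) := by
  obtain ⟨c, C, hc0, hsz⟩ := hO.sz
  obtain ⟨K, hK, hPK⟩ := exists_K hO
  -- the factors
  obtain ⟨σ, hσ⟩ : ∃ σ : ℕ → ℝ, σ = fun n => if n = 0 then c else sg n := ⟨_, rfl⟩
  have hcC : c ≤ C := by
    have := hsz 1 le_rfl
    rw [Nat.cast_one, Real.one_rpow, mul_one, mul_one] at this
    exact this.1.trans this.2
  have hσ1 : ∀ n, 1 ≤ n → σ n = sg n := by
    intro n hn
    rw [hσ]
    exact if_neg (by omega)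
  have hσb : ∀ n, c ≤ σ n ∧ σ n ≤ C := by
    intro n
    rcases Nat.eq_zero_or_pos n with rfl | hn
    · rw [hσ]
      exact ⟨le_of_eq (if_pos rfl).symm, (le_of_eq (if_pos rfl)).trans hcC⟩
    · rw [hσ1 n hn]
      have h1 := hsz n hn
      have h2 := nr_pos hn
      unfold sg
      rw [le_div_iff₀ h2, div_le_iff₀ h2]
      exact h1
  obtain ⟨b, hb⟩ : ∃ b : ℕ → ℕ, b = fun j => a j + h j := ⟨_, rfl⟩
  have hbj : ∀ j, b j = a j + h j := fun j => by rw [hb]
  have hbt : Tendsto b atTop atTop := tendsto_atTop_mono (fun j => by rw [hbj]; exact Nat.le_add_right _ _) ha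
  have hab : ∀ j, a j ≤ b j := fun j => by
    rw [hbj]
    exact Nat.le_add_right _ _
  have hr1 : Tendsto (fun j => (b j : ℝ) / a j) atTop (𝓝 1) := by
    have h1 := hah.const_add 1
    rw [add_zero] at h1
    refine h1.congr fun j => ?_
    have : (a j : ℝ) ≠ 0 := by exact_mod_cast (ha0 j).ne'
    rw [hbj]
    push_cast
    field_simp
  have hnr := nr_ratio ha0 hr1
  have hrt := rt2_tendsto hab hr1
  -- the core
  obtain ⟨ψ, hψ, ν, s, hs, L1, L2, L3, L4⟩ := pair_core (P := PM) (σ := σ) (c := c) (C := C)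
    (q := fun γ : C(unitInterval, ℂ) => ‖γ 1‖ ^ 2) (a := a) (b := b)
    (fun φ _ => by
      obtain ⟨y, -, θ, hθ, hlim⟩ := hK.tendsto_subseq (x := fun k => PM (φ k)) (fun k => hPK _)
      exact ⟨θ, hθ, y, hlim⟩) hc0 hσb ha hbt
    (fun f h01 hL => by
      have hfc : Continuous f := hL.choose_spec.continuous
      have h1 := means_seq hS hlo hc h01 hL ha hah hev
      have h2 := reparam (P := fun j => PM (b j)) hK (fun j => hPK _) (σ := fun j => σ (b j)) (s := fun j => nr (b j) / nr (a j))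
        (ρ := fun j => rt2 (a j) (b j)) (fun j => hσb _) hnr hrt h01 hfc
      have h3 := h1.sub h2
      rw [sub_zero] at h3
      refine h3.congr fun j => ?_
      have a1 : 1 ≤ a j := ha0 j
      have b1 : 1 ≤ b j := a1.trans (hab j)
      rw [← hbj, hσ1 _ b1, hσ1 _ a1, Ef_FT a1 (hab j)]
      have e1 : Ef (a j) (FT f (a j)) = ∫ γ, f (sg (a j) • γ) ∂(law (a j)) := by
        rw [integral_words a1 f]
        unfold Ef
        congr 1
        refine sum_congr rfl fun t ht => ?_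
        have hl : t.length = a j := (mem_wdN.1 ht).1
        rw [← hl, FT_len]
      rw [e1]
      show ∫ γ, f (rs ((nr (b j) / nr (a j) * sg (b j), rt2 (a j) (b j)), γ)) ∂(law (b j)) - ∫ γ, f (sg (a j) • γ) ∂(law (a j)) -
        (∫ γ, f (rs ((nr (b j) / nr (a j) * sg (b j), rt2 (a j) (b j)), γ)) ∂(law (b j)) - ∫ γ, f (sg (b j) • γ) ∂(law (b j))) =
        ∫ γ, f (sg (b j) • γ) ∂(law (b j)) - ∫ γ, f (sg (a j) • γ) ∂(law (a j))
      ring)
    (fun s γ => by
      show ‖(s • γ) 1‖ ^ 2 = s ^ 2 * ‖γ 1‖ ^ 2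
      rw [ContinuousMap.smul_apply, norm_smul, mul_pow, Real.norm_eq_abs, sq_abs])
    ((NTF.cont_eval 1).norm.pow 2)
    (fun φ hφ ν hν => hO.sec φ ν hφ inferInstance ((lawTo_iff ν).2 hν))
  refine ⟨ψ, hψ, ?_⟩
  -- the ratio of the numbers
  have T1 : Tendsto (fun j => |rr (a (ψ j)) (h (ψ j)) - 1|) atTop (𝓝 0) := by
    have h1 := (rr_seq hS hlo hc ha hah hev).comp hψ.tendsto_atTop
    have h2 := (h1.sub_const 1).abs
    rw [sub_self, abs_zero] at h2
    exact h2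
  -- the ratio of the sizes
  have T2 : Tendsto (fun j => |size (a (ψ j) + h (ψ j)) / size (a (ψ j)) - 1|) atTop (𝓝 0) := by
    have h1 := (L4.div L3 hs.ne').mul (hnr.comp hψ.tendsto_atTop)
    rw [div_self hs.ne', one_mul] at h1
    have h2 : Tendsto (fun j => size (a (ψ j) + h (ψ j)) / size (a (ψ j))) atTop (𝓝 1) := by
      refine h1.congr fun j => ?_
      have a1 : 1 ≤ a (ψ j) := ha0 _
      have b1 : 1 ≤ b (ψ j) := a1.trans (hab _)
      show σ (b (ψ j)) / σ (a (ψ j)) * (nr (b (ψ j)) / nr (a (ψ j))) = _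
      rw [hσ1 _ a1, hσ1 _ b1, ← hbj]
      unfold sg
      have p1 := (nr_pos a1).ne'
      have p2 := (nr_pos b1).ne'
      have p3 := (size_pos a1).ne'
      field_simp
    have h3 := (h2.sub_const 1).abs
    rw [sub_self, abs_zero] at h3
    exact h3
  have T3 : Tendsto (fun j => dP (a (ψ j) + h (ψ j)) (a (ψ j))) atTop (𝓝 0) := by
    have h1 := ((toLP_cont.tendsto ν).comp L2).dist ((toLP_cont.tendsto ν).comp L1)
    rw [dist_self] at h1
    refine h1.congr fun j => ?_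
    show dist (LevyProkhorov.ofMeasure (PM (b (ψ j)))) (LevyProkhorov.ofMeasure (PM (a (ψ j)))) = _
    rw [← dP_eq, hbj]
  have T4 := (T1.max T2).max T3
  rw [max_self, max_self] at T4
  exact T4

/-- **slow change, even numbers of steps** -/
theorem slow_even {ε : ℝ} (hε : 0 < ε) : ∃ δ : ℝ, 0 < δ ∧ ∀ n h : ℕ, 1 / δ ≤ n → (h : ℝ) ≤ δ * n → Even h →
    |rr n h - 1| ≤ ε ∧ |size (n + h) / size n - 1| ≤ ε ∧ dP (n + h) n ≤ ε := by
  obtain ⟨δ, hδ, h1⟩ := eps_of_seq (D := fun n h => |rr n h - 1| ⊔ |size (n + h) / size n - 1| ⊔ dP (n + h) n) (Ev := Even)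
    (fun a h ha ha0 hah hev => curves_seq hS hlo hc hO ha ha0 hah hev) hε
  refine ⟨δ, hδ, fun n h hn hh hev => ?_⟩
  have h2 : |rr n h - 1| ⊔ |size (n + h) / size n - 1| ⊔ dP (n + h) n ≤ ε := h1 n h hn hh hev
  exact ⟨(le_sup_left.trans le_sup_left).trans h2, (le_sup_right.trans le_sup_left).trans h2, le_sup_right.trans h2⟩

end

/-! ### 4. Odd numbers of steps -/

/-- one step -/
structure OneSt : Prop where
  num : Tendsto (fun n : ℕ => (cS (n + 1) : ℝ) / cS n) atTop (𝓝 (1 / xc))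
  siz : Tendsto (fun n : ℕ => size (n + 1) / size n) atTop (𝓝 1)
  cur : Merges PM

lemma one_small {x y e : ℝ} (he : 0 < e) (he1 : e ≤ 1) (hx : |x - 1| ≤ e / 3) (hy : |y - 1| ≤ e / 3) : |x * y - 1| ≤ e := by
  have h1 := abs_le.1 hx
  have h2 := abs_le.1 hy
  have h3 : |(x - 1) * (y - 1)| ≤ e / 3 * (e / 3) := by
    rw [abs_mul]
    exact mul_le_mul hx hy (abs_nonneg _) (by positivity)
  have h4 := abs_le.1 h3
  have h5 : e / 3 * (e / 3) ≤ e / 3 := by nlinarith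
  have e1 : x * y - 1 = (x - 1) * (y - 1) + (x - 1) + (y - 1) := by ring
  rw [e1, abs_le]
  constructor <;> linarith [h4.1, h4.2]

lemma rr_split (hc : ∀ n, 0 < cS n) (n h : ℕ) : rr n (h + 1) = rr n 1 * rr (n + 1) h := by
  have s1 : (cS (n + 1) : ℝ) ≠ 0 := by exact_mod_cast (hc _).ne'
  unfold rr
  rw [show n + (h + 1) = n + 1 + h by ring, pow_succ, pow_one]
  field_simp

section

variable {m : ℕ → ℝ} (hS : SlowG m) (hlo : ∃ c : ℝ, 0 < c ∧ ∀ k : ℕ, c * (2 : ℝ) ^ (4 / 3 * (k : ℝ)) ≤ m k)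
  (hc : ∀ n, 0 < cS n) (hO : OneFacts) (h1 : OneSt)

include hS hlo hc hO h1

/-- **slow change** -/
theorem slow_all {ε : ℝ} (hε : 0 < ε) : ∃ δ : ℝ, 0 < δ ∧ ∀ n h : ℕ, 1 / δ ≤ n → (h : ℝ) ≤ δ * n →
    |rr n h - 1| ≤ ε ∧ |size (n + h) / size n - 1| ≤ ε ∧ dP (n + h) n ≤ ε := by
  obtain ⟨e, he⟩ : ∃ e : ℝ, e = min ε 1 / 3 := ⟨_, rfl⟩
  have hm0 : 0 < min ε 1 := lt_min hε one_pos
  have he0 : 0 < e := by
    rw [he]
    positivity
  have hm1 : min ε 1 ≤ ε := min_le_left _ _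
  have heε : e ≤ ε := by
    rw [he]
    linarith
  obtain ⟨δ, hδ, h2⟩ := slow_even hS hlo hc hO he0
  -- one step
  obtain ⟨K, hK, hPK⟩ := exists_K hO
  have t1 : Tendsto (fun n : ℕ => rr n 1) atTop (𝓝 1) := by
    have h3 := h1.num.mul_const xc
    rw [one_div, inv_mul_cancel₀ xc_pos.ne'] at h3
    refine h3.congr fun n => ?_
    unfold rr
    rw [pow_one]
    ring
  have t3 : Tendsto (fun n : ℕ => dP (n + 1) n) atTop (𝓝 0) := by
    let _ : MetricSpace (ProbabilityMeasure C(unitInterval, ℂ)) := TopologicalSpace.metrizableSpaceMetric _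
    refine tendsto_of_subseq_tendsto fun ns hns => ?_
    obtain ⟨ψ, hψ, hns'⟩ := strictMono_subseq_of_tendsto_atTop hns
    obtain ⟨y, -, θ, hθ, hlim⟩ := hK.tendsto_subseq (x := fun k => PM (ns (ψ k))) (fun k => hPK _)
    refine ⟨fun k => ψ (θ k), ?_⟩
    have g1 := h1.cur (fun k => ns (ψ (θ k))) (hns'.comp hθ) y hlim
    have g2 := ((toLP_cont.tendsto y).comp g1).dist ((toLP_cont.tendsto y).comp hlim)
    rw [dist_self] at g2
    exact g2
  obtain ⟨N1, hN1⟩ := eventually_atTop.1 ((Metric.tendsto_atTop.1 t1) e he0 |> fun ⟨N, hN⟩ => eventually_atTop.2 ⟨N, hN⟩)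
  obtain ⟨N2, hN2⟩ := eventually_atTop.1 ((Metric.tendsto_atTop.1 h1.siz) e he0 |> fun ⟨N, hN⟩ => eventually_atTop.2 ⟨N, hN⟩)
  obtain ⟨N3, hN3⟩ := eventually_atTop.1 ((tendsto_order.1 t3).2 e he0)
  obtain ⟨M, hM⟩ : ∃ M : ℕ, M = max (max N1 N2) (max N3 1) := ⟨_, rfl⟩
  have hM0 : (1 : ℝ) ≤ M := by
    have : 1 ≤ M := by
      rw [hM]
      exact (le_max_right _ _).trans (le_max_right _ _)
    exact_mod_cast this
  refine ⟨min δ (1 / M), lt_min hδ (by positivity), fun n h hn hh => ?_⟩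
  have k1 : 1 / δ ≤ n := le_trans (one_div_le_one_div_of_le (lt_min hδ (by positivity)) (min_le_left _ _)) hn
  have k2 : (M : ℝ) ≤ n := by
    refine le_trans ?_ hn
    rw [le_div_iff₀ (lt_min hδ (by positivity))]
    calc (M : ℝ) * min δ (1 / M) ≤ M * (1 / M) := mul_le_mul_of_nonneg_left (min_le_right _ _) (by linarith)
      _ = 1 := by field_simp
  have k3 : M ≤ n := by exact_mod_cast k2
  have k4 : (h : ℝ) ≤ δ * n := hh.trans (mul_le_mul_of_nonneg_right (min_le_left _ _) (Nat.cast_nonneg _))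
  have k5 : 1 ≤ n := by
    rw [hM] at k3
    exact ((le_max_right _ _).trans (le_max_right _ _)).trans k3
  rcases Nat.even_or_odd h with hev | hod
  · obtain ⟨a1, a2, a3⟩ := h2 n h k1 k4 hev
    exact ⟨a1.trans heε, a2.trans heε, a3.trans heε⟩
  · obtain ⟨g, hg⟩ := hod
    have hg' : h = 2 * g + 1 := hg
    have n1 : (((n + 1 : ℕ) : ℕ) : ℝ) = n + 1 := by push_cast; ring
    obtain ⟨a1, a2, a3⟩ := h2 (n + 1) (2 * g) (by rw [n1]; linarith) (by
      rw [n1]
      have : ((2 * g : ℕ) : ℝ) ≤ h := by exact_mod_cast (by omega : 2 * g ≤ h)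
      nlinarith) (even_two_mul g)
    have b1 := hN1 n (by rw [hM] at k3; exact ((le_max_left _ _).trans (le_max_left _ _)).trans k3)
    have b2 := hN2 n (by rw [hM] at k3; exact ((le_max_right _ _).trans (le_max_left _ _)).trans k3)
    have b3 := hN3 n (by rw [hM] at k3; exact ((le_max_left _ _).trans (le_max_right _ _)).trans k3)
    rw [Real.dist_eq] at b1 b2
    have he3 : e = min ε 1 / 3 := he
    rw [hg']
    refine ⟨?_, ?_, ?_⟩
    · rw [rr_split hc]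
      refine (one_small hm0 (min_le_right _ _) ?_ ?_).trans hm1
      · rw [← he3]
        exact b1.le
      · rw [← he3]
        exact a1
    · have e1 : size (n + (2 * g + 1)) / size n = size (n + 1) / size n * (size (n + 1 + 2 * g) / size (n + 1)) := by
        have p1 := (size_pos k5).ne'
        have p2 := (size_pos (show 1 ≤ n + 1 by omega)).ne'
        rw [show n + (2 * g + 1) = n + 1 + 2 * g by ring]
        field_simp
      rw [e1]
      refine (one_small hm0 (min_le_right _ _) ?_ ?_).trans hm1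
      · rw [← he3]
        exact b2.le
      · rw [← he3]
        exact a2
    · have e2 : dP (n + (2 * g + 1)) n ≤ dP (n + 1 + 2 * g) (n + 1) + dP (n + 1) n := by
        rw [show n + (2 * g + 1) = n + 1 + 2 * g by ring, dP_eq, dP_eq, dP_eq]
        exact dist_triangle _ _ _
      have : 3 * e ≤ ε := by
        rw [he]
        linarith
      linarith

/-- **the laws converge iff they converge along every geometric sequence** -/
theorem q1_geo : (∃ ν : ProbabilityMeasure C(unitInterval, ℂ), LawTo (fun n => n) (ν : Measure C(unitInterval, ℂ))) ↔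
    ∀ lam : ℝ, 1 < lam → ∃ ν : ProbabilityMeasure C(unitInterval, ℂ),
      LawTo (fun j => ⌊lam ^ j⌋₊) (ν : Measure C(unitInterval, ℂ)) := by
  obtain ⟨K, hK, hPK⟩ := exists_K hO
  have hK' : IsCompact (LevyProkhorov.ofMeasure '' K) := hK.image toLP_cont
  have key := lims_geo (x := fun n => LevyProkhorov.ofMeasure (PM n)) hK' (fun n => Set.mem_image_of_mem _ (hPK n))
    (fun ε hε => by
      obtain ⟨δ, hδ, h2⟩ := slow_all hS hlo hc hO h1 hε
      exact ⟨δ, hδ, fun n k hn hk => (h2 n k hn hk).2.2⟩)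
  have tr : ∀ φ : ℕ → ℕ, (∃ y, Tendsto (fun j => LevyProkhorov.ofMeasure (PM (φ j))) atTop (𝓝 y)) ↔
      ∃ ν : ProbabilityMeasure C(unitInterval, ℂ), LawTo φ (ν : Measure C(unitInterval, ℂ)) := by
    intro φ
    constructor
    · rintro ⟨y, hy⟩
      refine ⟨y.toMeasure, (lawTo_iff _).2 ?_⟩
      exact (LevyProkhorov.continuous_toMeasure_probabilityMeasure.tendsto y).comp hy
    · rintro ⟨ν, hν⟩
      exact ⟨_, (toLP_cont.tendsto ν).comp ((lawTo_iff ν).1 hν)⟩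
  rw [← tr, key]
  exact forall₂_congr fun lam _ => tr fun j => ⌊lam ^ j⌋₊

end

end Mg

end NTSF
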