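import Pool.Agent.SLW.SmallW

/-!
# SLOW: weighted sums over sets of words and the lower tail of the total weight (helper62)

* `TF S f` : the sum of `wE t * f t` over the words of `S` (values in `ENNReal`);
* **`small_core`** : the lower tail of the sum of the levels, two classes of words (the domination leads from the smaller
  class to the larger one).
-/

set_option autoImplicit false

namespace HexObs

namespace SLW

namespace Sm

open Finset TS SDN TIW

open scoped ENNReal

open Classical in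
/-- weighted sums -/
noncomputable def TF (S : Set (List Bool)) (f : List Bool → ℝ) : ℝ≥0∞ :=
  ∑' t, (if t ∈ S then wE t * ENNReal.ofReal (f t) else 0)

lemma TF_mono {S : Set (List Bool)} {f g : List Bool → ℝ} (h : ∀ t ∈ S, f t ≤ g t) : TF S f ≤ TF S g := by
  classical
  refine ENNReal.tsum_le_tsum fun t => ?_
  by_cases ht : t ∈ S
  · rw [if_pos ht, if_pos ht]
    exact mul_le_mul' le_rfl (ENNReal.ofReal_le_ofReal (h t ht))
  · rw [if_neg ht]
    exact zero_le

lemma TF_add {S : Set (List Bool)} {f g : List Bool → ℝ} (hf : ∀ t ∈ S, 0 ≤ f t) (hg : ∀ t ∈ S, 0 ≤ g t) :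
    TF S (fun t => f t + g t) = TF S f + TF S g := by
  classical
  unfold TF
  rw [← ENNReal.tsum_add]
  refine tsum_congr fun t => ?_
  by_cases ht : t ∈ S
  · rw [if_pos ht, if_pos ht, if_pos ht, ENNReal.ofReal_add (hf t ht) (hg t ht), mul_add]
  · rw [if_neg ht, if_neg ht, if_neg ht, add_zero]

lemma TF_smul {S : Set (List Bool)} {f : List Bool → ℝ} {c : ℝ} (hc : 0 ≤ c) :
    TF S (fun t => c * f t) = ENNReal.ofReal c * TF S f := by
  classical
  unfold TF
  rw [← ENNReal.tsum_mul_left]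
  refine tsum_congr fun t => ?_
  by_cases ht : t ∈ S
  · rw [if_pos ht, if_pos ht, ENNReal.ofReal_mul hc]
    ring
  · rw [if_neg ht, if_neg ht, mul_zero]

lemma TF_sum {ι : Type*} {S : Set (List Bool)} (J : Finset ι) {f : ι → List Bool → ℝ} (hf : ∀ i ∈ J, ∀ t ∈ S, 0 ≤ f i t) :
    TF S (fun t => ∑ i ∈ J, f i t) = ∑ i ∈ J, TF S (f i) := by
  classical
  induction J using Finset.induction_on with
  | empty =>
    simp only [sum_empty]
    unfold TF
    refine ENNReal.tsum_eq_zero.2 fun t => ?_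
    by_cases ht : t ∈ S
    · rw [if_pos ht, ENNReal.ofReal_zero, mul_zero]
    · rw [if_neg ht]
  | insert i J hi ih =>
    have e1 : TF S (fun t => ∑ i ∈ insert i J, f i t) = TF S (fun t => f i t + ∑ i ∈ J, f i t) := by
      congr 1
      funext t
      rw [sum_insert hi]
    rw [e1, TF_add (fun t ht => hf i (mem_insert_self _ _) t ht)
      (fun t ht => sum_nonneg fun j hj => hf j (mem_insert_of_mem hj) t ht),
      ih (fun j hj => hf j (mem_insert_of_mem hj)), sum_insert hi]

lemma TF_const {S : Set (List Bool)} {c : ℝ} (hc : 0 ≤ c) : TF S (fun _ => c) = ENNReal.ofReal c * gf S := by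
  classical
  have h1 : TF S (fun _ => (1 : ℝ)) = gf S := by
    unfold TF gf
    rw [_root_.tsum_subtype S (fun t => wE t)]
    refine tsum_congr fun t => ?_
    rw [Set.indicator_apply, ENNReal.ofReal_one, mul_one]
  have h2 : TF S (fun _ => c) = TF S (fun _ => c * 1) := by
    congr 1
    funext _
    rw [mul_one]
  rw [h2, TF_smul hc, h1]

lemma TF_ind (S P : Set (List Bool)) [∀ t, Decidable (t ∈ P)] :
    TF S (fun t => if t ∈ P then 1 else 0) = gf {t | t ∈ S ∧ t ∈ P} := by
  classical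
  unfold TF gf
  rw [_root_.tsum_subtype {t | t ∈ S ∧ t ∈ P} (fun t => wE t)]
  refine tsum_congr fun t => ?_
  rw [Set.indicator_apply]
  by_cases h1 : t ∈ S
  · by_cases h2 : t ∈ P
    · simp only
      rw [if_pos h1, if_pos h2, if_pos (show t ∈ {t | t ∈ S ∧ t ∈ P} from ⟨h1, h2⟩), ENNReal.ofReal_one, mul_one]
    · simp only
      rw [if_pos h1, if_neg h2, if_neg (fun h : t ∈ {t | t ∈ S ∧ t ∈ P} => h2 h.2), ENNReal.ofReal_zero, mul_zero]
  · rw [if_neg h1, if_neg (fun h : t ∈ {t | t ∈ S ∧ t ∈ P} => h1 h.1)]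

open Classical in
/-- restriction of the class -/
lemma TF_inter (S P : Set (List Bool)) (f : List Bool → ℝ) :
    TF S (fun t => if t ∈ P then f t else 0) = TF {t | t ∈ S ∧ t ∈ P} f := by
  unfold TF
  refine tsum_congr fun t => ?_
  by_cases h1 : t ∈ S
  · by_cases h2 : t ∈ P
    · simp only
      rw [if_pos h1, if_pos h2, if_pos (show t ∈ {t | t ∈ S ∧ t ∈ P} from ⟨h1, h2⟩)]
    · simp only
      rw [if_pos h1, if_neg h2, if_neg (fun h : t ∈ {t | t ∈ S ∧ t ∈ P} => h2 h.2), ENNReal.ofReal_zero, mul_zero]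
  · rw [if_neg h1, if_neg (fun h : t ∈ {t | t ∈ S ∧ t ∈ P} => h1 h.1)]

open Classical in
/-- **the lower tail of the sum of the levels**, two classes -/
theorem small_core {S S' : Set (List Bool)} {α : ℕ → List Bool → ℝ} {N : ℕ → Set (List Bool)} {c m0 Q A e τ : ℝ} {M : ℕ}
    {U : ℝ≥0∞} (hα : ∀ i t, 0 ≤ α i t) (hc : 0 < c) (hM : 1 ≤ M) (hA : 0 ≤ A) (hm0 : 0 ≤ m0) (hQ : 0 ≤ Q) (he : 0 ≤ e)
    (hτ : 0 ≤ τ) (h2 : ∀ i, i < M → TF S' (fun t => α i t ^ 2) ≤ ENNReal.ofReal (Q / M ^ 2) * U)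
    (hm : gf S' ≤ ENNReal.ofReal m0 * U) (hn : ∀ i, i < M → gf {t | t ∈ S ∧ t ∉ N i} ≤ ENNReal.ofReal e * U)
    (hd : ∀ i, i < M → TF {t | t ∈ S ∧ t ∈ N i} (fun t => TW.gc (2 * c) (TW.Ta (fun j => α j t) M (i + 1))) ≤
      ENNReal.ofReal (A * M) * TF S' (fun t => α i t * TW.gc (2 * c) (TW.Ta (fun j => α j t) M (i + 1))) +
        ENNReal.ofReal τ * U) :
    gf {t | t ∈ S ∧ TW.Ta (fun j => α j t) M 0 < 2 * c} ≤
      ENNReal.ofReal (e + τ + A * (4 * c * m0 + Q / (2 * c * M))) * U := by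
  have hM0 : (0 : ℝ) < M := by exact_mod_cast (by omega : 0 < M)
  obtain ⟨x, hx⟩ : ∃ x, x = gf {t | t ∈ S ∧ TW.Ta (fun j => α j t) M 0 < 2 * c} := ⟨_, rfl⟩
  rw [← hx]
  have h1 : ∀ i, i < M → x ≤ ENNReal.ofReal e * U +
      (ENNReal.ofReal (A * M) * TF S' (fun t => α i t * TW.gc (2 * c) (TW.Ta (fun j => α j t) M (i + 1))) +
        ENNReal.ofReal τ * U) := by
    intro i hi
    refine le_trans ?_ (add_le_add (hn i hi) (hd i hi))
    have e1 : x ≤ gf {t | t ∈ S ∧ t ∉ N i} + gf {t | (t ∈ S ∧ t ∈ N i) ∧ TW.Ta (fun j => α j t) M 0 < 2 * c} := by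
      rw [hx]
      refine le_trans (gf_mono ?_) (gf_union_le _ _)
      rintro t ⟨t1, t2⟩
      by_cases h3 : t ∈ N i
      · exact Or.inr ⟨⟨t1, h3⟩, t2⟩
      · exact Or.inl ⟨t1, h3⟩
    refine e1.trans (add_le_add le_rfl ?_)
    have e2 := TF_ind {t | t ∈ S ∧ t ∈ N i} {t | TW.Ta (fun j => α j t) M 0 < 2 * c}
    refine le_trans (le_of_eq ?_) (le_trans (le_of_eq e2.symm) (TF_mono fun t _ => ?_))
    · rfl
    · by_cases h : TW.Ta (fun j => α j t) M 0 < 2 * c
      · have h3 : TW.Ta (fun j => α j t) M (i + 1) ≤ 2 * c :=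
          (TW.Ta_le (fun l => hα l t) (Nat.zero_le _)).trans h.le
        rw [if_pos (show t ∈ {t | TW.Ta (fun j => α j t) M 0 < 2 * c} from h), TW.gc_one (by linarith) h3]
      · rw [if_neg (show ¬ t ∈ {t | TW.Ta (fun j => α j t) M 0 < 2 * c} from h)]
        exact TW.gc_nonneg _ _
  -- the sum over the levels
  have h3 : ∑ i ∈ range M, TF S' (fun t => α i t * TW.gc (2 * c) (TW.Ta (fun j => α j t) M (i + 1))) ≤
      ENNReal.ofReal (4 * c * m0 + Q / (2 * c * M)) * U := by
    rw [← TF_sum (range M) (fun i _ t _ => mul_nonneg (hα i t) (TW.gc_nonneg _ _))]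
    have e1 : TF S' (fun t => ∑ i ∈ range M, α i t * TW.gc (2 * c) (TW.Ta (fun j => α j t) M (i + 1))) ≤
        TF S' (fun t => 4 * c + ∑ i ∈ range M, 1 / (2 * c) * α i t ^ 2) := by
      refine TF_mono fun t _ => ?_
      have h4 := TW.Rs_up (c := 2 * c) (a := fun j => α j t) (by linarith) (fun l => hα l t) M
      have h5 := TW.Gc_le (c := 2 * c) (x := TW.Ta (fun j => α j t) M 0) (by linarith)
      have h6 := TW.Gc_I_le (c := 2 * c) (by linarith)
      unfold TW.Rs at h4
      refine h4.trans ?_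
      rw [← mul_sum]
      have : (∑ l ∈ range M, α l t ^ 2) / (2 * c) = 1 / (2 * c) * ∑ l ∈ range M, α l t ^ 2 := by ring
      rw [this]
      linarith
    refine e1.trans ?_
    rw [TF_add (fun _ _ => by positivity) (fun _ _ => sum_nonneg fun _ _ => by positivity), TF_const (by positivity),
      TF_sum (range M) (fun _ _ _ _ => by positivity)]
    have e2 : ∑ i ∈ range M, TF S' (fun t => 1 / (2 * c) * α i t ^ 2) ≤ ENNReal.ofReal (Q / (2 * c * M)) * U := by
      calc ∑ i ∈ range M, TF S' (fun t => 1 / (2 * c) * α i t ^ 2)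
          = ∑ i ∈ range M, ENNReal.ofReal (1 / (2 * c)) * TF S' (fun t => α i t ^ 2) :=
            sum_congr rfl fun i _ => TF_smul (by positivity)
        _ ≤ ∑ i ∈ range M, ENNReal.ofReal (1 / (2 * c)) * (ENNReal.ofReal (Q / M ^ 2) * U) :=
            sum_le_sum fun i hi => mul_le_mul' le_rfl (h2 i (mem_range.1 hi))
        _ = ENNReal.ofReal (Q / (2 * c * M)) * U := by
            rw [sum_const, card_range, nsmul_eq_mul, ← mul_assoc, ← mul_assoc, ← ENNReal.ofReal_natCast,
              ← ENNReal.ofReal_mul (by positivity), ← ENNReal.ofReal_mul (by positivity)]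
            congr 2
            field_simp
    calc ENNReal.ofReal (4 * c) * gf S' + ∑ i ∈ range M, TF S' (fun t => 1 / (2 * c) * α i t ^ 2)
        ≤ ENNReal.ofReal (4 * c) * (ENNReal.ofReal m0 * U) + ENNReal.ofReal (Q / (2 * c * M)) * U :=
          add_le_add (mul_le_mul' le_rfl hm) e2
      _ = _ := by
          rw [← mul_assoc, ← ENNReal.ofReal_mul (by positivity), ← add_mul, ← ENNReal.ofReal_add (by positivity) (by positivity)]
  have h4 : ENNReal.ofReal M * x ≤ ENNReal.ofReal M * (ENNReal.ofReal (e + τ + A * (4 * c * m0 + Q / (2 * c * M))) * U) := by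
    have h5 := sum_le_sum fun i (hi : i ∈ range M) => h1 i (mem_range.1 hi)
    rw [sum_const, card_range, nsmul_eq_mul, sum_add_distrib, sum_const, card_range, nsmul_eq_mul, sum_add_distrib,
      sum_const, card_range, nsmul_eq_mul, ← mul_sum, ← ENNReal.ofReal_natCast] at h5
    refine h5.trans ?_
    calc ENNReal.ofReal M * (ENNReal.ofReal e * U) + (ENNReal.ofReal (A * M) *
          ∑ i ∈ range M, TF S' (fun t => α i t * TW.gc (2 * c) (TW.Ta (fun j => α j t) M (i + 1))) +
          ENNReal.ofReal M * (ENNReal.ofReal τ * U))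
        ≤ ENNReal.ofReal M * (ENNReal.ofReal e * U) + (ENNReal.ofReal (A * M) *
          (ENNReal.ofReal (4 * c * m0 + Q / (2 * c * M)) * U) + ENNReal.ofReal M * (ENNReal.ofReal τ * U)) :=
          add_le_add le_rfl (add_le_add (mul_le_mul' le_rfl h3) le_rfl)
      _ = _ := by
          have g1 : (0 : ℝ) ≤ 4 * c * m0 + Q / (2 * c * M) := by positivity
          rw [ENNReal.ofReal_mul hA, ENNReal.ofReal_add (p := e + τ) (by positivity) (by positivity),
            ENNReal.ofReal_add he hτ, ENNReal.ofReal_mul (p := A) (q := 4 * c * m0 + Q / (2 * c * M)) hA]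
          ring
  have hMe : ENNReal.ofReal (M : ℝ) ≠ 0 := by
    rw [Ne, ENNReal.ofReal_eq_zero, not_le]
    exact hM0
  exact (ENNReal.mul_le_mul_iff_right hMe ENNReal.ofReal_ne_top).1 h4

end Sm

end SLW

end HexObs
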