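import Pool.Agent.SLW.SmallOf

/-!
# SLOW: the lower tail of the total weight in the right parts and on exactly n letters (helper62)
-/

set_option autoImplicit false

namespace HexObs

namespace SLW

namespace Sm

open Finset TS SDN TIW HexObs.SIM NTA

open scoped ENNReal

lemma YN_size {l j m : ℕ} {η : ℝ} : ∀ Y ∈ YN (l + j) m η, ∀ i, i ≤ Y.length → hn (vx oo up Y i) < 2 ^ (l + (j + m + 2)) := by
  rintro Y ⟨-, -, h3⟩ i hi
  have h4 := hn_le_Bl (h3 i hi)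
  have h5 : (2 : ℤ) ^ (l + (j + m + 2)) = 4 * 2 ^ (l + j + m) := by ring
  rw [h5]
  push_cast at h4
  have : (0 : ℤ) < 2 ^ (l + j + m) := by positivity
  linarith

lemma YN_mass (j m : ℕ) {η : ℝ} (hη : 0 < η) : ∃ CY : ℝ, 0 < CY ∧ ∀ l : ℕ,
    gf (YN (l + j) m η) ≤ ENNReal.ofReal (CY * Ub l) * Xb l := by
  obtain ⟨C, hC, hM⟩ := TIP.ymassG η m hη
  obtain ⟨D, hD, hX⟩ := NTA.Xb_pow
  refine ⟨C * 2 ^ j * D ^ j, by positivity, fun l => ?_⟩
  refine (hM (l + j)).trans ?_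
  have h1 : Ub (l + j) ≤ 2 ^ j * Ub l := Ub_add l j
  have h2 := hX l j
  have h3 : (0 : ℝ) ≤ Ub l := (TS.Ub_pos l).le
  calc ENNReal.ofReal (C * Ub (l + j)) * NTA.Xb (l + j)
      ≤ ENNReal.ofReal (C * (2 ^ j * Ub l)) * (ENNReal.ofReal (D ^ j) * NTA.Xb l) := by
        gcongr
    _ = ENNReal.ofReal (C * 2 ^ j * D ^ j * Ub l) * NTA.Xb l := by
        rw [← mul_assoc, ← ENNReal.ofReal_mul (by positivity)]
        congr 2
        ring

/-- the mass of the larger class of right parts -/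
lemma S_mass (J : ℕ) : ∃ (m0 : ℝ) (k0 : ℕ), 0 < m0 ∧ ∀ c K : ℕ, k0 ≤ c → c ≤ K → K ≤ c + J →
    gf (BotS (c - 1) (K + 1)) ≤ ENNReal.ofReal m0 * (ENNReal.ofReal (Ub K) * Xb K) := by
  obtain ⟨C, k0, hC, h⟩ := TIP.tot_BotS
  refine ⟨C ^ (J + 9), k0 + 1, by positivity, fun c K hc hK hJ => ?_⟩
  have hU := TS.Ub_pos K
  refine (gf_mono (botS_mono (c := c - 1) (show K + 1 ≤ K + 3 by omega))).trans ?_
  refine (h (c - 1) K (by omega) (by omega)).trans ?_
  rw [← mul_assoc, ← ENNReal.ofReal_mul (by positivity)]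
  refine mul_le_mul' (ENNReal.ofReal_le_ofReal (mul_le_mul_of_nonneg_right ?_ hU.le)) le_rfl
  exact pow_le_pow_right₀ hC (by omega)

open Classical in
/-- **one level**: the domination divided by the normalisation -/
lemma dom_step {lb s M : ℕ} {a w : ℝ} {Ch : ℕ → Set (List Bool)} {B : ℕ → ℕ} (hF : ChF lb s M a w Ch B) (hw : 0 < w)
    {c A Q : ℝ} (hc : 0 < c) (hA : 0 ≤ A) {i m : ℕ} (hi : i < M) (hm : 1 ≤ m) (hs : m + 8 ≤ s) {S S' : Set (List Bool)}
    {U : ℝ≥0∞}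
    (hSA : ∀ t ∈ S', t ∈ SA)
    (hlow : ∀ Φ θ : List Bool → ℝ, (∀ t, 0 ≤ Φ t) → (∀ t, 0 ≤ θ t) →
      (∀ A1 Y, A1 ++ Y ∈ SA → (∀ q, q ≤ Y.length → hn (vx oo up Y q) < 2 ^ (lb + i * s + m) + 2 ^ (lb + i * s + 1)) →
        |Φ (A1 ++ Y) - Φ A1| ≤ θ A1) →
      ENNReal.ofReal (Ub (lb + i * s)) * gf (Ch i) * TF S Φ ≤
        ENNReal.ofReal A * (TF S' (fun t => N1 (lb + i * s) (Ch i) t * Φ t) + TF S' (fun t => NT (lb + i * s) (Ch i) θ t)))
    (hcr : TF S' (fun t => M * aL lb s M Ch B i t * ∑ j ∈ Ico (i + 1) M, qL lb s M Ch B j t) ≤ ENNReal.ofReal Q * U) :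
    TF S (fun t => TW.gc (2 * c) (TW.Ta (fun j => aL lb s M Ch B j t) M (i + 1))) ≤
      ENNReal.ofReal (A * M) * TF S' (fun t => aL lb s M Ch B i t *
        TW.gc (2 * c) (TW.Ta (fun j => aL lb s M Ch B j t) M (i + 1))) +
        ENNReal.ofReal (A * (2 ^ m * (64 / (2 * c * 2 ^ s))) * Q) * U := by
  have hM0 : (0 : ℝ) < M := by exact_mod_cast (by omega : 0 < M)
  obtain ⟨g, hg⟩ : ∃ g, g = gL lb s Ch B i := ⟨_, rfl⟩
  have hgp : 0 < g := by rw [hg]; exact gL_pos hF hw hi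
  obtain ⟨Φ, hΦ⟩ : ∃ Φ : List Bool → ℝ, Φ = fun t => TW.gc (2 * c) (TW.Ta (fun j => aL lb s M Ch B j t) M (i + 1)) := ⟨_, rfl⟩
  suffices hgoal : TF S Φ ≤ ENNReal.ofReal (A * M) * TF S' (fun t => aL lb s M Ch B i t * Φ t) +
      ENNReal.ofReal (A * (2 ^ m * (64 / (2 * c * 2 ^ s))) * Q) * U by
    rw [hΦ] at hgoal
    exact hgoal
  have h1 := hlow Φ (fun t => 2 ^ m * thG lb s M (2 * c) Ch B i t) (fun t => by rw [hΦ]; exact TW.gc_nonneg _ _)
    (fun t => mul_nonneg (by positivity) (thG_nonneg (by linarith) i t)) ?_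
  · have h2 : ENNReal.ofReal (Ub (lb + i * s)) * gf (Ch i) = ENNReal.ofReal g := by
      rw [gf_Ch (hF.len i hi), hg, ← ENNReal.ofReal_mul (TS.Ub_pos _).le]
      congr 1
      unfold gL
      ring
    have h3 : TF S' (fun t => N1 (lb + i * s) (Ch i) t * Φ t) =
        ENNReal.ofReal (M * g) * TF S' (fun t => aL lb s M Ch B i t * Φ t) := by
      rw [← TF_smul (by positivity)]
      congr 1
      funext t
      rw [aL_eq, ← hg]
      field_simp
    have h4 : TF S' (fun t => NT (lb + i * s) (Ch i) (fun t => 2 ^ m * thG lb s M (2 * c) Ch B i t) t) ≤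
        ENNReal.ofReal (g * (2 ^ m * (64 / (2 * c * 2 ^ s)))) *
          TF S' (fun t => M * aL lb s M Ch B i t * ∑ j ∈ Ico (i + 1) M, qL lb s M Ch B j t) := by
      rw [← TF_smul (by positivity)]
      refine TF_mono fun t ht => ?_
      rw [NT_smul]
      have h5 := NT_thG hF (c := 2 * c) (by linarith) hi (by omega) (hSA t ht)
      have h6 : N1 (lb + i * s) (Ch i) t = g * (M * aL lb s M Ch B i t) := by
        rw [aL_eq, ← hg]
        field_simp
      calc 2 ^ m * NT (lb + i * s) (Ch i) (thG lb s M (2 * c) Ch B i) t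
          ≤ 2 ^ m * (N1 (lb + i * s) (Ch i) t * (64 / (2 * c * 2 ^ s) * ∑ j ∈ Ico (i + 1) M, qL lb s M Ch B j t)) :=
            mul_le_mul_of_nonneg_left h5 (by positivity)
        _ = _ := by rw [h6]; ring
    rw [h2, h3] at h1
    have hge : ENNReal.ofReal g ≠ 0 := by
      rw [Ne, ENNReal.ofReal_eq_zero, not_le]
      exact hgp
    refine (ENNReal.mul_le_mul_iff_right hge ENNReal.ofReal_ne_top).1 ?_
    refine h1.trans ?_
    calc ENNReal.ofReal A * (ENNReal.ofReal (M * g) * TF S' (fun t => aL lb s M Ch B i t * Φ t) +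
          TF S' (fun t => NT (lb + i * s) (Ch i) (fun t => 2 ^ m * thG lb s M (2 * c) Ch B i t) t))
        ≤ ENNReal.ofReal A * (ENNReal.ofReal (M * g) * TF S' (fun t => aL lb s M Ch B i t * Φ t) +
          ENNReal.ofReal (g * (2 ^ m * (64 / (2 * c * 2 ^ s)))) * (ENNReal.ofReal Q * U)) :=
          mul_le_mul' le_rfl (add_le_add le_rfl (h4.trans (mul_le_mul' le_rfl hcr)))
      _ = _ := by
          have g1 : (0 : ℝ) ≤ 2 ^ m * (64 / (2 * c * 2 ^ s)) := by positivity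
          rw [ENNReal.ofReal_mul (p := (M : ℝ)) hM0.le, ENNReal.ofReal_mul hgp.le,
            ENNReal.ofReal_mul (p := A) (q := (M : ℝ)) hA,
            ENNReal.ofReal_mul (p := A * (2 ^ m * (64 / (2 * c * 2 ^ s)))) (by positivity),
            ENNReal.ofReal_mul (p := A) (q := 2 ^ m * (64 / (2 * c * 2 ^ s))) hA]
          ring
  · intro A1 Y hS hY
    rw [hΦ]
    refine oscM hF (by linarith) (rho := 2 ^ (lb + i * s + m) + 2 ^ (lb + i * s + 1)) ?_ ?_ ?_ hS (fun q hq => ?_)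
    · exact (Nat.one_le_two_pow (n := lb + i * s + m)).trans (Nat.le_add_right _ _)
    · have h5 : 2 ^ (lb + i * s + 1) ≤ 2 ^ (lb + i * s + m) := Nat.pow_le_pow_right (by norm_num) (by omega)
      have h6 : 2 ^ (lb + i * s + m + 1) = 2 ^ (lb + i * s + m) + 2 ^ (lb + i * s + m) := by ring
      rw [h6]
      exact Nat.add_le_add_left h5 _
    · exact hs
    · have := hY q hq
      push_cast
      exact this

lemma TF_def {S : Set (List Bool)} {P : List Bool → Prop} [DecidablePred P] (h : ∀ t, t ∈ S ↔ P t) (f : List Bool → ℝ) :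
    (∑' t, (if P t then wE t * ENNReal.ofReal (f t) else 0)) = TF S f := by
  classical
  unfold TF
  refine tsum_congr fun t => ?_
  by_cases ht : P t
  · rw [if_pos ht, if_pos ((h t).2 ht)]
  · rw [if_neg ht, if_neg (fun h' => ht ((h t).1 h'))]

open Classical in
/-- **the lower tail of the total weight, right parts** -/
theorem tail_bot (hN : NiceB) (hL : LowB) (hMB : MomB) (J : ℕ) {e' : ℝ} (he : 0 < e') : ∃ c : ℝ, 0 < c ∧ ∀ w : ℝ, 0 < w →
    ∃ M0 : ℕ, ∀ M : ℕ, M0 ≤ M → ∃ s0 : ℕ, ∀ s : ℕ, s0 ≤ s → ∃ c0 l0 : ℕ, ∀ c1 K lb : ℕ, l0 ≤ lb → lb + M * s + c0 ≤ c1 →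
      c1 ≤ K → K ≤ c1 + J → ∀ (Ch : ℕ → Set (List Bool)) (B : ℕ → ℕ), ChF lb s M 1 w Ch B →
        gf {t | t ∈ BotS c1 K ∧ ∑ i ∈ range M, aL lb s M Ch B i t < 2 * c} ≤
          ENNReal.ofReal e' * (ENNReal.ofReal (Ub K) * Xb K) := by
  obtain ⟨κ, η, j, m, cn, ln, hκ, hη, hnice⟩ := hN (e' / 4) J (by linarith)
  obtain ⟨CY, hCY, hYm⟩ := YN_mass j m hη
  obtain ⟨A, lL, hA, hlow⟩ := hL (j + m + 2) CY κ hCY hκ
  obtain ⟨m0, km, hm0, hmass⟩ := S_mass J
  obtain ⟨Q0, cq, hQ0, hq⟩ := q_mass hMB J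
  obtain ⟨c, hc⟩ : ∃ c, c = e' / (16 * A * m0) := ⟨_, rfl⟩
  have hc0 : 0 < c := by rw [hc]; positivity
  refine ⟨c, hc0, fun w hw => ?_⟩
  obtain ⟨Q, hQ⟩ : ∃ Q, Q = Q0 / w ^ 2 := ⟨_, rfl⟩
  have hQp : 0 < Q := by rw [hQ]; positivity
  obtain ⟨M0, hM0⟩ := exists_nat_ge (2 * A * Q / (c * e'))
  refine ⟨M0 + 1, fun M hM => ?_⟩
  have hMp : (0 : ℝ) < M := by exact_mod_cast (by omega : 0 < M)
  obtain ⟨s1, hs1⟩ : ∃ s1 : ℕ, 128 * A * 2 ^ (j + m + 2) * Q / (c * e') < 2 ^ s1 :=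
    pow_unbounded_of_one_lt _ (by norm_num)
  refine ⟨s1 + (j + m + 2) + 8, fun s hs => ⟨cn + (j + m + 2) + 5 + cq + km + 1, ln + lL,
    fun c1 K lb hl hc1 hK hJ Ch B hF => ?_⟩⟩
  have hli : ∀ i, i < M → lb + i * s + s ≤ lb + M * s := by
    intro i hi
    have : (i + 1) * s ≤ M * s := Nat.mul_le_mul_right s hi
    rw [add_mul, one_mul] at this
    omega
  have hU := TS.Ub_pos K
  have hqm : ∀ i, i < M → TF (BotS (c1 - 1) (K + 1)) (fun t => qL lb s M Ch B i t ^ 2) ≤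
      ENNReal.ofReal (Q / M ^ 2) * (ENNReal.ofReal (Ub K) * Xb K) := by
    intro i hi
    rw [hQ]
    have := hli i hi
    exact hq lb s M 1 w Ch B hF hw i c1 K hi (by omega) hK hJ
  have ham : ∀ i, i < M → TF (BotS (c1 - 1) (K + 1)) (fun t => aL lb s M Ch B i t ^ 2) ≤
      ENNReal.ofReal (Q / M ^ 2) * (ENNReal.ofReal (Ub K) * Xb K) := by
    intro i hi
    refine le_trans (TF_mono fun t _ => ?_) (hqm i hi)
    exact pow_le_pow_left₀ (aL_nonneg _ _ _ _ _ _ _) (aL_le _ _ _ _ _ _ _) 2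
  have key := small_core (S := BotS c1 K) (S' := BotS (c1 - 1) (K + 1)) (α := fun i t => aL lb s M Ch B i t)
    (N := fun i => NcS (lb + i * s) (YN (lb + i * s + j) m η) κ) (c := c) (m0 := m0) (Q := Q) (A := A) (e := e' / 4)
    (τ := A * (2 ^ (j + m + 2) * (64 / (2 * c * 2 ^ s))) * Q) (M := M) (U := ENNReal.ofReal (Ub K) * Xb K)
    (fun i t => aL_nonneg _ _ _ _ _ _ _) hc0 (by omega) hA.le hm0.le hQp.le (by positivity) (by positivity) ham
    (hmass c1 K (by omega) hK hJ) (fun i hi => ?_) (fun i hi => ?_)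
  · have e1 : {t | t ∈ BotS c1 K ∧ ∑ i ∈ range M, aL lb s M Ch B i t < 2 * c} =
        {t | t ∈ BotS c1 K ∧ TW.Ta (fun j => aL lb s M Ch B j t) M 0 < 2 * c} := by
      ext t
      show _ ∧ _ ↔ _ ∧ _
      rw [Ta_zero]
    rw [e1]
    refine key.trans (mul_le_mul' (ENNReal.ofReal_le_ofReal ?_) le_rfl)
    have g1 : A * (2 ^ (j + m + 2) * (64 / (2 * c * 2 ^ s))) * Q ≤ e' / 4 := by
      have h1 : (2 : ℝ) ^ s1 ≤ 2 ^ s := pow_le_pow_right₀ (by norm_num) (by omega)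
      have h2 : 128 * A * 2 ^ (j + m + 2) * Q / (c * e') ≤ 2 ^ s := hs1.le.trans h1
      rw [div_le_iff₀ (by positivity)] at h2
      have h3 : (0 : ℝ) < 2 ^ s := by positivity
      have h4 : A * (2 ^ (j + m + 2) * (64 / (2 * c * 2 ^ s))) * Q = (128 * A * 2 ^ (j + m + 2) * Q) / (c * 2 ^ s) / 4 := by
        field_simp
        ring
      rw [h4]
      refine div_le_div_of_nonneg_right ?_ (by norm_num)
      rw [div_le_iff₀ (by positivity)]
      linarith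
    have g2 : A * (4 * c * m0) = e' / 4 := by
      rw [hc]
      field_simp
      ring
    have g3 : A * (Q / (2 * c * M)) ≤ e' / 4 := by
      have h1 : (M0 : ℝ) ≤ M := by exact_mod_cast (by omega : M0 ≤ M)
      have h2 := hM0.trans h1
      rw [div_le_iff₀ (by positivity)] at h2
      have h4 : A * (Q / (2 * c * M)) = (2 * A * Q) / (c * M) / 4 := by
        field_simp
        ring
      rw [h4]
      refine div_le_div_of_nonneg_right ?_ (by norm_num)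
      rw [div_le_iff₀ (by positivity)]
      linarith
    rw [mul_add]
    linarith
  · have h1 := hli i hi
    have h2 := hnice c1 K (lb + i * s) (by omega) (by omega) hK hJ
    refine h2.trans (le_of_eq ?_)
    rw [ENNReal.ofReal_mul (by positivity), mul_assoc]
  · have h1 := hli i hi
    refine dom_step hF hw hc0 hA.le hi (m := j + m + 2) (by omega) (by omega) (fun t ht => botS_SA ht)
      (fun Φ θ hΦ hθ hosc => ?_) ?_
    · have h2 := hlow (lb + i * s) c1 K (Ch i) (YN (lb + i * s + j) m η) Φ θ (by omega) (by omega) hK (hF.chn i hi)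
        YN_size (hYm _) hΦ hθ hosc
      rw [TF_def (S := {t | t ∈ BotS c1 K ∧ t ∈ NcS (lb + i * s) (YN (lb + i * s + j) m η) κ})
        (P := fun t => t ∈ BotS c1 K ∧ t ∈ NcS (lb + i * s) (YN (lb + i * s + j) m η) κ) (fun t => Iff.rfl),
        TF_def (S := BotS (c1 - 1) (K + 1)) (P := fun t => t ∈ BotS (c1 - 1) (K + 1)) (fun t => Iff.rfl),
        TF_def (S := BotS (c1 - 1) (K + 1)) (P := fun t => t ∈ BotS (c1 - 1) (K + 1)) (fun t => Iff.rfl)] at h2
      exact h2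
    · refine cross_mass (by omega) hQp.le ?_ (ham i hi) (fun j hj => ?_)
      · rw [Nat.card_Ico]
        omega
      · rw [mem_Ico] at hj
        exact hqm j hj.2

open Classical in
lemma ind_gf (S P : Set (List Bool)) : (∑' t : S, wE t.1 * (if t.1 ∈ P then (1 : ℝ≥0∞) else 0)) = gf {t | t ∈ S ∧ t ∈ P} := by
  unfold gf
  rw [_root_.tsum_subtype S (fun t => wE t * (if t ∈ P then (1 : ℝ≥0∞) else 0)),
    _root_.tsum_subtype {t | t ∈ S ∧ t ∈ P} (fun t => wE t)]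
  refine tsum_congr fun t => ?_
  rw [Set.indicator_apply, Set.indicator_apply]
  by_cases h1 : t ∈ S
  · by_cases h2 : t ∈ P
    · rw [if_pos h1, if_pos h2, if_pos (show t ∈ {t | t ∈ S ∧ t ∈ P} from ⟨h1, h2⟩), mul_one]
    · rw [if_pos h1, if_neg h2, if_neg (fun h : t ∈ {t | t ∈ S ∧ t ∈ P} => h2 h.2), mul_zero]
  · rw [if_neg h1, if_neg (fun h : t ∈ {t | t ∈ S ∧ t ∈ P} => h1 h.1)]

end Sm

open Finset TS SDN TIW HexObs.SIM NTA

open scoped ENNReal

open Sm Classical TIP.NgA in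
/-- **the total weight of the levels is rarely small** -/
theorem smallS_of (hS : TIP.StrU) (hN : NiceB) (hL : LowB) (hMB : MomB) : SmallS := by
  intro ε hε
  obtain ⟨Ct, c1, C1, d, kt, hCt, htr⟩ := trans_of hS (ε / 2) (by linarith)
  obtain ⟨D, hD, hX⟩ := NTA.Xb_pow
  obtain ⟨Z, hZ⟩ : ∃ Z : ℝ, Z = Ct * (2 ^ C1 * D ^ C1) := ⟨_, rfl⟩
  have hZp : 0 < Z := by rw [hZ]; positivity
  obtain ⟨c, hc, hw⟩ := tail_bot hN hL hMB (c1 + C1) (e' := ε / (2 * Z)) (by positivity)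
  refine ⟨1, c, one_pos, hc, fun w hw0 => ?_⟩
  obtain ⟨M0, hM⟩ := hw w hw0
  refine ⟨M0, fun M hM0 => ?_⟩
  obtain ⟨s0, hs⟩ := hM M hM0
  refine ⟨s0, fun s hs0 => ?_⟩
  obtain ⟨c0, l0, hb⟩ := hs s hs0
  refine ⟨c0 + c1 + d + 2, l0, kt + c1 + 1, fun k n lb hk hsc hlb hck Ch B hF => ?_⟩
  obtain ⟨Bd, hBd, htr⟩ := htr k n (by omega) hsc
  obtain ⟨P, hP⟩ : ∃ P : Set (List Bool), P = {t | ∑ i ∈ range M, aL lb s M Ch B i t < 2 * c} := ⟨_, rfl⟩
  rw [← hP]
  obtain ⟨P', hP'⟩ : ∃ P' : Set (List Bool), P' = {t | t ∉ Bd ∧ t ∈ P} := ⟨_, rfl⟩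
  have hUk := TS.Ub_pos k
  have h1 := htr (4 * 2 ^ (lb + M * s)) (fun t => if t ∈ P then (1 : ℝ≥0∞) else 0) ?_ ?_
  · rw [ind_gf, ind_gf] at h1
    have h2 : gf {t | t ∈ {t | t ∈ SawN n ∧ t ∉ Bd} ∧ t ∈ P} = gf (SawN n) * ENNReal.ofReal (TOG.Pn n P') := by
      rw [Pn_mul, hP']
      congr 1
      ext t
      exact and_assoc
    have h3 : gf {t | t ∈ RRD (k - c1) (k + C1) (2 * 2 ^ (k - d)) ∧ t ∈ P} ≤
        ENNReal.ofReal (ε / (2 * Z)) * (ENNReal.ofReal (Ub (k + C1)) * NTA.Xb (k + C1)) := by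
      refine le_trans (gf_mono ?_) (hb (k - c1) (k + C1) lb hlb (by omega) (by omega) (by omega) Ch B hF)
      rintro t ⟨t1, t2⟩
      rw [hP] at t2
      exact ⟨Tr.RRD_sub _ _ _ t1, t2⟩
    have h4 : ENNReal.ofReal (Ub (k + C1)) * NTA.Xb (k + C1) ≤
        ENNReal.ofReal (2 ^ C1 * D ^ C1) * (ENNReal.ofReal (Ub k) * NTA.Xb k) := by
      calc ENNReal.ofReal (Ub (k + C1)) * NTA.Xb (k + C1)
          ≤ ENNReal.ofReal (2 ^ C1 * Ub k) * (ENNReal.ofReal (D ^ C1) * NTA.Xb k) :=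
            mul_le_mul' (ENNReal.ofReal_le_ofReal (Ub_add k C1)) (hX k C1)
        _ = _ := by
            rw [ENNReal.ofReal_mul (p := (2 : ℝ) ^ C1) (by positivity), ENNReal.ofReal_mul (p := (2 : ℝ) ^ C1) (by positivity)]
            ring
    rw [h2] at h1
    have h5 : gf (SawN n) * (ENNReal.ofReal (Ub k) * NTA.Xb k) * ENNReal.ofReal (TOG.Pn n P') ≤
        gf (SawN n) * (ENNReal.ofReal (Ub k) * NTA.Xb k) * ENNReal.ofReal (ε / 2) := by
      calc gf (SawN n) * (ENNReal.ofReal (Ub k) * NTA.Xb k) * ENNReal.ofReal (TOG.Pn n P')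
          = gf (SawN n) * ENNReal.ofReal (TOG.Pn n P') * (ENNReal.ofReal (Ub k) * NTA.Xb k) := by ring
        _ ≤ ENNReal.ofReal Ct * gf (SawN n) * (ENNReal.ofReal (ε / (2 * Z)) *
              (ENNReal.ofReal (2 ^ C1 * D ^ C1) * (ENNReal.ofReal (Ub k) * NTA.Xb k))) :=
            h1.trans (mul_le_mul' le_rfl (h3.trans (mul_le_mul' le_rfl h4)))
        _ = gf (SawN n) * (ENNReal.ofReal (Ub k) * NTA.Xb k) * ENNReal.ofReal (Ct * (ε / (2 * Z)) * (2 ^ C1 * D ^ C1)) := by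
            rw [ENNReal.ofReal_mul (p := Ct * (ε / (2 * Z))) (by positivity), ENNReal.ofReal_mul (p := Ct) hCt.le]
            ring
        _ = _ := by
            congr 2
            have : Ct * (ε / (2 * Z)) * (2 ^ C1 * D ^ C1) = Z * (ε / (2 * Z)) := by rw [hZ]; ring
            rw [this]
            field_simp
    obtain ⟨hs1, hs2⟩ := saw_ne n
    have hUe : ENNReal.ofReal (Ub k) ≠ 0 := by
      rw [Ne, ENNReal.ofReal_eq_zero, not_le]
      exact hUk
    have h6 := (ENNReal.mul_le_mul_iff_right (mul_ne_zero hs1 (mul_ne_zero hUe (NTA.Xb_ne_zero k)))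
      (ENNReal.mul_ne_top hs2 (ENNReal.mul_ne_top ENNReal.ofReal_ne_top (NTA.Xb_ne_top k)))).1 h5
    rw [ENNReal.ofReal_le_ofReal_iff (by positivity)] at h6
    have h7 := TIP.NgU.Pn_union n Bd P'
    have h8 : TOG.Pn n P ≤ TOG.Pn n (Bd ∪ P') := by
      unfold TOG.Pn
      refine div_le_div_of_nonneg_right ?_ (Nat.cast_nonneg _)
      have hfin : {t | t ∈ SawN n ∧ t ∈ Bd ∪ P'}.Finite := by
        refine Set.Finite.subset ?_ (fun t ht => ht.1)
        by_contra hinf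
        have h7 : (cS n : ℕ) = 0 := Set.Infinite.ncard hinf
        have h8 := TOG.cS_pos n
        omega
      have h7 := Set.ncard_le_ncard (s := {t | t ∈ SawN n ∧ t ∈ P}) (t := {t | t ∈ SawN n ∧ t ∈ Bd ∪ P'}) (by
        rintro t ⟨t1, t2⟩
        refine ⟨t1, ?_⟩
        by_cases hb : t ∈ Bd
        · exact Or.inl hb
        · right
          rw [hP']
          exact ⟨hb, t2⟩) hfin
      exact_mod_cast h7
    linarith
  · have h2 : 4 * 2 ^ (lb + M * s) * 2 ^ d = 2 ^ (lb + M * s + 2 + d) := by ring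
    rw [h2]
    exact Nat.pow_le_pow_right (by norm_num) (by omega)
  · intro L R hLR
    by_cases h2 : L ++ R ∈ P
    · have h3 : R ∈ P := by
        rw [hP] at h2 ⊢
        exact lt_of_le_of_lt (sum_far hF hLR) h2
      simp only
      rw [if_pos h2, if_pos h3]
    · simp only
      rw [if_neg h2]
      exact zero_le

end SLW

end HexObs
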