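import Pool.Agent.TIP.NgU

/-!
SLW: transfer from the walks with exactly n letters to the Boltzmann ensemble of the right parts (helper14's SLOW_14 (b));
weights that only see the part near the tip (helper58).
-/

set_option autoImplicit false

namespace HexObs

namespace SLW

open Finset TS SDN HexObs.SIM NTA TIP

open scoped ENNReal Classical

namespace Tr

/-- **the sum over the three parts, with a weight** -/
theorem cutw_master {LL RR E : Set (List Bool)} {n N : ℕ} {ψ : List Bool → ℝ≥0∞}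
    (hE : ∀ t ∈ E, Cut1 LL {R | R ∈ RR ∧ ψ t ≤ ψ R} n N t) :
    (n : ℝ≥0∞) * (∑' t : E, wE t.1 * ψ t.1) ≤ ∑' P : List Bool, ∑' R : List Bool, ∑' L : List Bool,
      (if (L ∈ LL ∧ R ∈ RR ∧ P ∈ IU ∧ hgt P ≤ N) ∧ L ++ (P ++ R) ∈ E then
        wE L * wE P * (wE R * ψ R) * (hgt P : ℝ≥0∞) else 0) := by
  have h0 : ∀ f : List Bool → List Bool → List Bool → ℝ≥0∞, ∑' P : List Bool, ∑' R : List Bool, ∑' L : List Bool,
      f L P R = ∑' L : List Bool, ∑' P : List Bool, ∑' R : List Bool, f L P R := by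
    intro f
    rw [show (∑' P : List Bool, ∑' R : List Bool, ∑' L : List Bool, f L P R) =
      ∑' P : List Bool, ∑' L : List Bool, ∑' R : List Bool, f L P R from tsum_congr fun P => ENNReal.tsum_comm]
    exact ENNReal.tsum_comm
  rw [h0 (fun L P R => (if (L ∈ LL ∧ R ∈ RR ∧ P ∈ IU ∧ hgt P ≤ N) ∧ L ++ (P ++ R) ∈ E then
        wE L * wE P * (wE R * ψ R) * (hgt P : ℝ≥0∞) else 0)), ← ENNReal.tsum_mul_left]
  have h1 : ∀ t : E, (n : ℝ≥0∞) * (wE t.1 * ψ t.1) ≤ ∑' L : List Bool, ∑' P : List Bool, ∑' R : List Bool,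
      (if (L ∈ LL ∧ R ∈ RR ∧ P ∈ IU ∧ hgt P ≤ N) ∧ L ++ (P ++ R) = t.1 then
        wE L * wE P * (wE R * ψ R) * (hgt P : ℝ≥0∞) else 0) := by
    intro t
    rw [mul_comm]
    refine (mul_le_mul' le_rfl (CS.point1 (hE t.1 t.2))).trans ?_
    simp only [← ENNReal.tsum_mul_left]
    refine ENNReal.tsum_le_tsum fun L => ENNReal.tsum_le_tsum fun P => ENNReal.tsum_le_tsum fun R => ?_
    by_cases hc : (L ∈ LL ∧ R ∈ {R | R ∈ RR ∧ ψ t.1 ≤ ψ R} ∧ P ∈ IU ∧ hgt P ≤ N) ∧ L ++ (P ++ R) = t.1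
    · obtain ⟨⟨c1, ⟨c2, c3⟩, c4, c5⟩, c6⟩ := hc
      rw [if_pos ⟨⟨c1, ⟨c2, c3⟩, c4, c5⟩, c6⟩, if_pos ⟨⟨c1, c2, c4, c5⟩, c6⟩]
      have e1 : wE t.1 = wE L * wE P * wE R := by
        rw [← c6]
        simp only [wE_append]
        ring
      rw [e1]
      calc wE L * wE P * wE R * ψ t.1 * (hgt P : ℝ≥0∞) ≤ wE L * wE P * wE R * ψ R * (hgt P : ℝ≥0∞) := by gcongr
        _ = _ := by ring
    · rw [if_neg hc, mul_zero]
      exact zero_le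
  refine (ENNReal.tsum_le_tsum h1).trans ?_
  rw [ENNReal.tsum_comm]
  refine ENNReal.tsum_le_tsum fun L => ?_
  rw [ENNReal.tsum_comm]
  refine ENNReal.tsum_le_tsum fun P => ?_
  rw [ENNReal.tsum_comm]
  refine ENNReal.tsum_le_tsum fun R => ?_
  by_cases hc : (L ∈ LL ∧ R ∈ RR ∧ P ∈ IU ∧ hgt P ≤ N) ∧ L ++ (P ++ R) ∈ E
  · rw [if_pos hc, tsum_eq_single (⟨_, hc.2⟩ : E)]
    · rw [if_pos ⟨hc.1, rfl⟩]
    · intro t ht
      rw [if_neg]
      rintro ⟨-, h3⟩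
      exact ht (Subtype.ext h3.symm)
  · rw [if_neg hc]
    refine le_of_eq (ENNReal.tsum_eq_zero.2 fun t => ?_)
    rw [if_neg]
    rintro ⟨h2, h3⟩
    exact hc ⟨h2, by rw [h3]; exact t.2⟩

/-- **one cut, exactly nl letters, with a weight** -/
theorem cutw_exact : ∃ C : ℝ, 1 ≤ C ∧ ∀ (LL RR E : Set (List Bool)) (ψ : List Bool → ℝ≥0∞) (n b nl : ℕ) (x : ℝ≥0∞),
    1 ≤ n → (∀ t ∈ E, Cut1 LL {R | R ∈ RR ∧ ψ t ≤ ψ R} n (2 ^ b) t ∧ t.length = nl) →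
    (∀ l : ℕ, gf {L | L.length = l ∧ L ∈ LL} ≤ x) →
    (∑' t : E, wE t.1 * ψ t.1) ≤ ENNReal.ofReal (C * (2 ^ b / (n * Ub b))) * (x * ∑' R : RR, wE R.1 * ψ R.1) := by
  obtain ⟨K, hK, hP⟩ := piece_mass
  refine ⟨K, hK, fun LL RR E ψ n b nl x hn hE hx => ?_⟩
  have hU := Ub_pos b
  have hn0 : (0 : ℝ) < n := by exact_mod_cast hn
  obtain ⟨p, hp⟩ : ∃ p : List Bool → ℝ≥0∞, p = fun P => if P ∈ IU ∧ hgt P ≤ 2 ^ b then wE P * (hgt P : ℝ≥0∞) else 0 :=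
    ⟨_, rfl⟩
  obtain ⟨r, hr⟩ : ∃ r : List Bool → ℝ≥0∞, r = fun R => if R ∈ RR then wE R * ψ R else 0 := ⟨_, rfl⟩
  have hsr : ∑' R, r R = ∑' R : RR, wE R.1 * ψ R.1 := by
    rw [hr, _root_.tsum_subtype RR (fun t => wE t * ψ t)]
    exact tsum_congr fun t => by rw [Set.indicator_apply]
  have h1 : (n : ℝ≥0∞) * (∑' t : E, wE t.1 * ψ t.1) ≤ ∑' P : List Bool, ∑' R : List Bool, p P * (r R * x) := by
    refine (cutw_master fun t ht => (hE t ht).1).trans ?_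
    refine ENNReal.tsum_le_tsum fun P => ENNReal.tsum_le_tsum fun R => ?_
    by_cases hc : R ∈ RR ∧ P ∈ IU ∧ hgt P ≤ 2 ^ b
    · have e2 : r R = wE R * ψ R := by rw [hr]; exact if_pos hc.1
      have e3 : p P = wE P * (hgt P : ℝ≥0∞) := by rw [hp]; exact if_pos hc.2
      have h2 : gf {L | L ∈ LL ∧ L ++ (P ++ R) ∈ E} ≤ x := by
        refine (gf_mono fun L hL => ?_).trans (hx (nl - (P ++ R).length))
        obtain ⟨h1, h2⟩ := hL
        have h3 := (hE _ h2).2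
        rw [List.length_append] at h3
        exact ⟨by omega, h1⟩
      have h3 : gf {L | L ∈ LL ∧ L ++ (P ++ R) ∈ E} =
          ∑' L : List Bool, (if L ∈ LL ∧ L ++ (P ++ R) ∈ E then wE L else 0) := by
        unfold gf
        rw [_root_.tsum_subtype _ (fun t => wE t)]
        exact tsum_congr fun t => by rw [Set.indicator_apply]; rfl
      rw [h3] at h2
      rw [e2, e3]
      calc (∑' L : List Bool, (if (L ∈ LL ∧ R ∈ RR ∧ P ∈ IU ∧ hgt P ≤ 2 ^ b) ∧ L ++ (P ++ R) ∈ E then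
            wE L * wE P * (wE R * ψ R) * (hgt P : ℝ≥0∞) else 0))
          ≤ ∑' L : List Bool, (wE P * (hgt P : ℝ≥0∞)) * (wE R * ψ R) *
              (if L ∈ LL ∧ L ++ (P ++ R) ∈ E then wE L else 0) := by
            refine ENNReal.tsum_le_tsum fun L => ?_
            by_cases hd : (L ∈ LL ∧ R ∈ RR ∧ P ∈ IU ∧ hgt P ≤ 2 ^ b) ∧ L ++ (P ++ R) ∈ E
            · rw [if_pos hd, if_pos ⟨hd.1.1, hd.2⟩]
              refine le_of_eq ?_
              ring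
            · rw [if_neg hd]
              exact zero_le
        _ ≤ (wE P * (hgt P : ℝ≥0∞)) * (wE R * ψ R) * x := by
            rw [ENNReal.tsum_mul_left]
            exact mul_le_mul' le_rfl h2
        _ = _ := by ring
    · refine le_trans (le_of_eq (ENNReal.tsum_eq_zero.2 fun L => if_neg ?_)) zero_le
      rintro ⟨h2, -⟩
      exact hc ⟨h2.2.1, h2.2.2.1, h2.2.2.2⟩
  have h2 : ∑' P : List Bool, ∑' R : List Bool, p P * (r R * x) = (∑' P, p P) * ((∑' R : RR, wE R.1 * ψ R.1) * x) := by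
    simp only [ENNReal.tsum_mul_left, ENNReal.tsum_mul_right, hsr]
  have h3 : ∑' P, p P ≤ ENNReal.ofReal (K * 2 ^ b / Ub b) := by
    rw [hp]
    exact hP b
  have hn1 : (n : ℝ≥0∞) ≠ 0 := by exact_mod_cast (by omega : n ≠ 0)
  have hn2 : (n : ℝ≥0∞) ≠ ⊤ := ENNReal.natCast_ne_top n
  rw [h2] at h1
  have h4 : (∑' t : E, wE t.1 * ψ t.1) ≤
      (n : ℝ≥0∞)⁻¹ * (ENNReal.ofReal (K * 2 ^ b / Ub b) * ((∑' R : RR, wE R.1 * ψ R.1) * x)) := by
    calc (∑' t : E, wE t.1 * ψ t.1) = (n : ℝ≥0∞)⁻¹ * ((n : ℝ≥0∞) * (∑' t : E, wE t.1 * ψ t.1)) := by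
          rw [← mul_assoc, ENNReal.inv_mul_cancel hn1 hn2, one_mul]
      _ ≤ _ := mul_le_mul' le_rfl (h1.trans (mul_le_mul' h3 le_rfl))
  refine h4.trans (le_of_eq ?_)
  have h5 : (n : ℝ≥0∞)⁻¹ = ENNReal.ofReal ((n : ℝ)⁻¹) := by
    rw [ENNReal.ofReal_inv_of_pos hn0, ENNReal.ofReal_natCast]
  have h6 : ENNReal.ofReal (K * (2 ^ b / (n * Ub b))) = (n : ℝ≥0∞)⁻¹ * ENNReal.ofReal (K * 2 ^ b / Ub b) := by
    rw [h5, ← ENNReal.ofReal_mul (by positivity)]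
    congr 1
    field_simp
  rw [h6]
  ring

end Tr

/-- the right parts: words of the box K that start with a leaf going up by RR c; the end is not near this leaf -/
def RRD (c K D : ℕ) : Set (List Bool) := {R | R ∈ WL K ∧ ∃ a ≤ R.length, RR c ≤ lev R a ∧
  (∀ i, 1 ≤ i → i ≤ a → 0 < lev R i) ∧ ∀ i, i ≤ a → vx oo up R i ∉ Bl (tipv R) D}

/-- weights that only see the part near the tip -/
def LocW (D : ℕ) (ψ : List Bool → ℝ≥0∞) : Prop := ∀ L R : List Bool,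
  (∀ i, i ≤ L.length → vx oo up (L ++ R) i ∉ Bl (tipv (L ++ R)) (4 * D)) → ψ (L ++ R) ≤ ψ R

namespace Tr

/-- the mass of the right parts -/
lemma RRD_sub (c K D : ℕ) : RRD c K D ⊆ BotS c K := by
  rintro R ⟨h1, a, h2, h3, h4, -⟩
  exact ⟨h1, a, h2, h3, h4⟩

/-- balls behind a prefix -/
lemma ball_drop {L R : List Bool} {D i : ℕ} (hi : vx oo up R i ∈ Bl (tipv R) (2 * D)) :
    vx oo up (L ++ R) (L.length + i) ∈ Bl (tipv (L ++ R)) (4 * D) := by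
  obtain ⟨h1, h2⟩ := hi
  have e1 : vx oo up (L ++ R) (L.length + i) - tipv (L ++ R) =
      mulE (rotTo up (tipd L)) (vx oo up R i - tipv R) := by
    rw [tipv_app, vx_general, mulE_sub]
    unfold tipv tipd
    abel
  have e2 : ((2 * D : ℕ) : ℤ) = 2 * (D : ℤ) := by push_cast; ring
  have e3 : ((4 * D : ℕ) : ℤ) = 2 * (2 * (D : ℤ)) := by push_cast; ring
  rw [e2] at h1 h2
  obtain ⟨h3, h4⟩ := NgC.coord_rot (v := vx oo up R i - tipv R) (frame_dir (tipd_mem L)).1 h1 h2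
  rw [← e1] at h3 h4
  rw [← e3] at h3 h4
  exact ⟨h3, h4⟩

/-- **the cut near the start, with a weight** -/
lemma cut_ofW {LL : Set (List Bool)} {ψ : List Bool → ℝ≥0∞} {D D0 n1 N c K1 K : ℕ}
    {t X0 H H2 X1 : List Bool} (hloc : LocW D ψ) (ht : t ∈ WL K1) (hK : K1 + 3 ≤ K) (he : t = X0 ++ (H ++ (H2 ++ X1)))
    (hH : H ∈ BU) (hH2 : H2 ∈ BU) (h1 : n1 ≤ hgt H) (h2 : n1 ≤ hgt H2) (h3 : hgt H ≤ 2 ^ N) (hc : RR c ≤ 3 * n1)
    (hLL : ∀ A1 B1, A1 ∈ BU → B1 ∈ BU → H = A1 ++ B1 → X0 ++ A1 ∈ LL)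
    (hfar : ∀ i, i ≤ (X0 ++ (H ++ H2)).length → vx oo up t i ∉ Bl (tipv t) (4 * D))
    (hfar0 : ∀ i, i ≤ (X0 ++ (H ++ H2)).length → vx oo up t i ∉ Bl (tipv t) (4 * D0)) :
    Cut1 LL {R | R ∈ RRD c K (2 * D0) ∧ ψ t ≤ ψ R} n1 (2 ^ N) t := by
  refine ⟨X0, H, H2 ++ X1, hgt H, he, TIP.BU_hgt hH, h1, h3, hLL, fun A1 B1 hA hB hAB => ?_⟩
  obtain ⟨R, hR⟩ : ∃ R, R = B1 ++ (H2 ++ X1) := ⟨_, rfl⟩
  obtain ⟨L0, hL0⟩ : ∃ L0, L0 = X0 ++ A1 := ⟨_, rfl⟩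
  have htR : t = L0 ++ R := by
    rw [he, hL0, hR, hAB]
    simp only [List.append_assoc]
  have hlen : L0.length + (B1 ++ H2).length = (X0 ++ (H ++ H2)).length := by
    rw [hL0, hAB]
    simp only [List.length_append]
    omega
  rw [← hR]
  have hb := Brd_append (TIP.BU_hgt hB) (TIP.BU_hgt hH2)
  have hb' := mem_Brd.1 hb
  have e1 : R = (B1 ++ H2) ++ X1 := by rw [hR, List.append_assoc]
  have hl : ∀ i, i ≤ (B1 ++ H2).length → lev R i = lev (B1 ++ H2) i := fun i hi => by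
    rw [e1]
    exact lev_append (by omega)
  refine ⟨⟨?_, (B1 ++ H2).length, by rw [e1, List.length_append (as := B1 ++ H2)]; omega, ?_, fun i hi hia => ?_,
    fun i hi hmem => ?_⟩, ?_⟩
  · have h4 := NgC.drop_box ht (a := L0.length) (by rw [htR, List.length_append]; omega)
    rw [htR, List.drop_left' rfl] at h4
    exact ⟨h4.1, fun i hi dir => (h4.2 i hi dir).trans (pow_le_pow_right₀ (by norm_num) hK)⟩
  · rw [hl _ le_rfl, hb'.2.2.2]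
    have h5 : (n1 : ℤ) ≤ (hgt H2 : ℤ) := by exact_mod_cast h2
    have h6 : (0 : ℤ) ≤ (hgt B1 : ℤ) := Int.natCast_nonneg _
    push_cast
    linarith
  · rw [hl i hia]
    exact (hb'.1 i hi hia).1
  · have h7 := ball_drop (L := L0) hmem
    rw [← htR] at h7
    exact hfar0 (L0.length + i) (by omega) h7
  · have h8 := hloc L0 R (fun i hi => by rw [← htR]; exact hfar i (by omega))
    rwa [← htR] at h8

end Tr

open Tr NgA in
/-- **transfer**: weights that only see the part near the tip, exactly n letters, against the right parts -/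
theorem trans_of (hS : StrU) : ∀ ε : ℝ, 0 < ε → ∃ (C : ℝ) (c1 C1 d k0 : ℕ), 0 < C ∧ ∀ k n : ℕ, k0 ≤ k → Sc k n →
    ∃ B : Set (List Bool), TOG.Pn n B ≤ ε ∧ ∀ (D : ℕ) (ψ : List Bool → ℝ≥0∞), D * 2 ^ d ≤ 2 ^ k → LocW D ψ →
      (∑' t : {t | t ∈ SawN n ∧ t ∉ B}, wE t.1 * ψ t.1) * (ENNReal.ofReal (Ub k) * Xb k) ≤
        ENNReal.ofReal C * gf (SawN n) * ∑' R : RRD (k - c1) (k + C1) (2 * 2 ^ (k - d)), wE R.1 * ψ R.1 := by
  intro ε hε
  obtain ⟨c1, C1, k0, d, A, LB, hA, hLB, hstr⟩ := hS ε hε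
  obtain ⟨Cc, hCc, hcore⟩ := cutw_exact
  obtain ⟨cl, κ, k1, hcl, -, hbig⟩ := EN.factsX_M.big
  have hm : ∀ k, 0 < PW.mZ (2 ^ k) := fun k => PW.mZ_pos Nat.one_le_two_pow
  have hCc0 : 0 < Cc := by linarith
  refine ⟨Cc * 2 ^ c1 * A / cl, c1, C1 + 3, d, k0 + k1 + c1 + d, by positivity, fun k n hk hsc => ?_⟩
  obtain ⟨B, hB, hstr⟩ := hstr k n (by omega) hsc
  obtain ⟨hk1, hk2⟩ := hsc
  refine ⟨B, hB, fun D ψ hD hloc => ?_⟩
  have hUk := TS.Ub_pos k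
  have hmk := hm k
  have hkd : (2 : ℕ) ^ (k - d) * 2 ^ d ≤ 2 ^ k := by
    rw [← pow_add]
    exact le_of_eq (congrArg _ (by omega))
  obtain ⟨S, hS⟩ : ∃ S : ℝ≥0∞, S = ∑' R : RRD (k - c1) (k + (C1 + 3)) (2 * 2 ^ (k - d)), wE R.1 * ψ R.1 := ⟨_, rfl⟩
  rw [← hS]
  have h1 : (∑' t : {t | t ∈ SawN n ∧ t ∉ B}, wE t.1 * ψ t.1) ≤
      ENNReal.ofReal (Cc * (2 ^ k / ((2 ^ (k - c1) : ℕ) * Ub k))) *
        ((ENNReal.ofReal (A * (Ub k / PW.mZ (2 ^ k))) * Xb k) * S) := by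
    rw [hS]
    refine hcore (LB k) _ _ ψ (2 ^ (k - c1)) k n _ Nat.one_le_two_pow (fun t ht => ?_) fun l => ?_
    · obtain ⟨ht1, ht2⟩ := ht
      obtain ⟨hW, X0, H, H2, X1, e1, e2, e3, e4, e5, e6, e7, e8, e9⟩ := hstr t ht1 ht2
      refine ⟨cut_ofW (K1 := k + C1) (D0 := 2 ^ (k - d)) hloc hW (by omega) e1 e2 e3 e4 e5 e6 ?_ e8 (e9 D hD) (e9 _ hkd),
        ht1.1⟩
      unfold RR
      push_cast
      linarith
    · refine le_trans (gf_mono fun L hL => ?_) (hLB k l (by omega))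
      exact ⟨hL.2, hL.1⟩
  have h4 : ENNReal.ofReal cl * (ENNReal.ofReal (Ub k / PW.mZ (2 ^ k)) * Xb k ^ 2) ≤ gf (SawN n) :=
    (hbig k n (by omega) hk1 hk2).trans (gf_mono fun t ht => ht.1)
  have hnum : Cc * (2 ^ k / ((2 ^ (k - c1) : ℕ) * Ub k)) * (A * (Ub k / PW.mZ (2 ^ k))) * Ub k =
      Cc * 2 ^ c1 * A / cl * cl * (Ub k / PW.mZ (2 ^ k)) := by
    have h5 : (2 : ℝ) ^ k = 2 ^ c1 * ((2 ^ (k - c1) : ℕ) : ℝ) := by
      push_cast
      rw [← pow_add]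
      congr 1
      omega
    have h6 : (0 : ℝ) < ((2 ^ (k - c1) : ℕ) : ℝ) := by positivity
    rw [h5]
    field_simp
  calc (∑' t : {t | t ∈ SawN n ∧ t ∉ B}, wE t.1 * ψ t.1) * (ENNReal.ofReal (Ub k) * Xb k)
      ≤ (ENNReal.ofReal (Cc * (2 ^ k / ((2 ^ (k - c1) : ℕ) * Ub k))) *
        ((ENNReal.ofReal (A * (Ub k / PW.mZ (2 ^ k))) * Xb k) * S)) * (ENNReal.ofReal (Ub k) * Xb k) :=
        mul_le_mul' h1 le_rfl
    _ = (ENNReal.ofReal (Cc * (2 ^ k / ((2 ^ (k - c1) : ℕ) * Ub k))) * ENNReal.ofReal (A * (Ub k / PW.mZ (2 ^ k))) *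
          ENNReal.ofReal (Ub k)) * (Xb k ^ 2 * S) := by ring
    _ = ENNReal.ofReal (Cc * 2 ^ c1 * A / cl) * (ENNReal.ofReal cl * (ENNReal.ofReal (Ub k / PW.mZ (2 ^ k)) * Xb k ^ 2)) *
          S := by
        rw [← ENNReal.ofReal_mul (by positivity), ← ENNReal.ofReal_mul (by positivity), hnum,
          ENNReal.ofReal_mul (by positivity), ENNReal.ofReal_mul (by positivity)]
        ring
    _ ≤ _ := mul_le_mul' (mul_le_mul' le_rfl h4) le_rfl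

end SLW

end HexObs
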