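import Pool.Agent.SLW.SmallB
import Pool.Agent.SLW.TransU
import Pool.Agent.TIP.ClsB

/-!
# SLOW: the total weight of the levels is rarely small (helper62)

**`smallS_of`**: from the transfer to exactly n letters (`StrU`, `trans_of`), the niceness of the right parts (`NiceB`), the
domination (`LowB`) and the second moments (`MomB`).
-/

set_option autoImplicit false

namespace HexObs

namespace SLW

namespace Sm

open Finset TS SDN TIW HexObs.SIM NTA

open scoped ENNReal

lemma gf_len {Ch : Set (List Bool)} (b : ℕ) : gf {V | V ∈ Ch ∧ V.length = b} = ENNReal.ofReal (vL Ch b) := by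
  rw [mW_gf, vL_mW]

open Classical in
/-- the mass of a class of chains -/
lemma gf_Ch {Ch : Set (List Bool)} {B : ℕ} (hB : ∀ V ∈ Ch, V.length ≤ B) : gf Ch = ENNReal.ofReal (WL' Ch B) := by
  have h1 : TF Ch (fun _ => (1 : ℝ)) = gf Ch := by
    rw [TF_const zero_le_one, ENNReal.ofReal_one, one_mul]
  have h2 : TF Ch (fun t => ∑ b ∈ range (B + 1), (if t ∈ {V : List Bool | V.length = b} then (1 : ℝ) else 0)) =
      TF Ch (fun _ => (1 : ℝ)) := by
    refine le_antisymm (TF_mono fun t ht => ?_) (TF_mono fun t ht => ?_)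
    · refine le_of_eq ?_
      rw [sum_eq_single t.length]
      · rw [if_pos (show t ∈ {V : List Bool | V.length = t.length} from rfl)]
      · intro b _ hb
        rw [if_neg]
        intro h
        exact hb h.symm
      · intro h
        exact absurd (mem_range.2 (Nat.lt_succ_of_le (hB t ht))) h
    · refine le_of_eq ?_
      rw [sum_eq_single t.length]
      · rw [if_pos (show t ∈ {V : List Bool | V.length = t.length} from rfl)]
      · intro b _ hb
        rw [if_neg]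
        intro h
        exact hb h.symm
      · intro h
        exact absurd (mem_range.2 (Nat.lt_succ_of_le (hB t ht))) h
  rw [← h1, ← h2, TF_sum (range (B + 1)) (fun b _ t _ => by split_ifs <;> norm_num)]
  unfold WL'
  rw [ENNReal.ofReal_sum_of_nonneg fun b _ => vL_nonneg _ _]
  refine sum_congr rfl fun b _ => ?_
  rw [TF_ind, ← gf_len]
  rfl

lemma botS_mono {c K K' : ℕ} (h : K ≤ K') : BotS c K ⊆ BotS c K' := by
  rintro R ⟨h1, h2⟩
  exact ⟨⟨h1.1, fun i hi dir => (h1.2 i hi dir).trans (pow_le_pow_right₀ (by norm_num) h)⟩, h2⟩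

lemma botS_SA {c K : ℕ} {R : List Bool} (h : R ∈ BotS c K) : R ∈ SA := h.1.1

open Classical in
lemma NT_smul (l : ℕ) (Ch : Set (List Bool)) (x : ℝ) (θ : List Bool → ℝ) (t : List Bool) :
    NT l Ch (fun A => x * θ A) t = x * NT l Ch θ t := by
  unfold NT
  rw [mul_sum]
  exact sum_congr rfl fun p _ => by ring

/-- the normalised weight is at most the normalised number of cuts -/
lemma aL_le (lb s M : ℕ) (Ch : ℕ → Set (List Bool)) (B : ℕ → ℕ) (i : ℕ) (t : List Bool) : aL lb s M Ch B i t ≤ qL lb s M Ch B i t := by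
  unfold aL qL
  exact div_le_div_of_nonneg_right (N1_le_NQ _ _ _) (mul_nonneg (Nat.cast_nonneg _) (gL_nonneg lb s Ch B i))

lemma qL_sq {lb s M : ℕ} {a w : ℝ} {Ch : ℕ → Set (List Bool)} {B : ℕ → ℕ} (hF : ChF lb s M a w Ch B) (hw : 0 < w) {i : ℕ}
    (hi : i < M) (t : List Bool) : qL lb s M Ch B i t ^ 2 ≤
      1 / (M * (w * Ub (lb + i * s))) ^ 2 * NP (2 ^ (lb + i * s + 1)) t ^ 2 := by
  have hM : (0 : ℝ) < M := by exact_mod_cast (by omega : 0 < M)
  have hU := TS.Ub_pos (lb + i * s)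
  have h1 := NQ_le_NP (hF.chn i hi) t
  have h0 := NQ_nonneg (lb + i * s) (Ch i) t
  have h2 : qL lb s M Ch B i t ≤ NP (2 ^ (lb + i * s + 1)) t / (M * (w * Ub (lb + i * s))) := by
    unfold qL
    have h3 : M * (w * Ub (lb + i * s)) ≤ M * (WL' (Ch i) (B i) * Ub (lb + i * s)) :=
      mul_le_mul_of_nonneg_left (mul_le_mul_of_nonneg_right (hF.mass i hi) hU.le) hM.le
    exact div_le_div₀ (h0.trans h1) h1 (by positivity) h3
  have h3 := qL_nonneg lb s M Ch B i t
  calc qL lb s M Ch B i t ^ 2 ≤ (NP (2 ^ (lb + i * s + 1)) t / (M * (w * Ub (lb + i * s)))) ^ 2 :=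
        pow_le_pow_left₀ h3 h2 2
    _ = _ := by rw [div_pow]; ring

open Classical in
/-- **the second moments of a level in the right parts** -/
lemma q_mass (hMB : MomB) (J : ℕ) : ∃ (Q0 : ℝ) (c0 : ℕ), 0 < Q0 ∧ ∀ (lb s M : ℕ) (a w : ℝ) (Ch : ℕ → Set (List Bool))
    (B : ℕ → ℕ), ChF lb s M a w Ch B → 0 < w → ∀ (i c K : ℕ), i < M → lb + i * s + c0 ≤ c → c ≤ K → K ≤ c + J →
      TF (BotS (c - 1) (K + 1)) (fun t => qL lb s M Ch B i t ^ 2) ≤
        ENNReal.ofReal (Q0 / w ^ 2 / M ^ 2) * (ENNReal.ofReal (Ub K) * Xb K) := by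
  obtain ⟨A, c0, hA, h⟩ := hMB (J + 2)
  obtain ⟨D, hD, hX⟩ := Xb_pow
  refine ⟨A * 8 * D, c0 + 2, by positivity, fun lb s M a w Ch B hF hw i c K hi hc hK hJ => ?_⟩
  have hM : (0 : ℝ) < M := by exact_mod_cast (by omega : 0 < M)
  have hU := TS.Ub_pos (lb + i * s)
  have hUK := TS.Ub_pos K
  have h1 := h (lb + i * s + 1) (c - 1) (K + 1) (by omega) (by omega) (by omega)
  have h2 : TF (BotS (c - 1) (K + 1)) (fun t => NP (2 ^ (lb + i * s + 1)) t ^ 2) ≤
      ENNReal.ofReal (A * Ub (lb + i * s + 1) ^ 2 * Ub (K + 1)) * Xb (K + 1) := h1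
  have h3 : Ub (lb + i * s + 1) ≤ 2 * Ub (lb + i * s) := by
    have := Ub_add (lb + i * s) 1
    simpa using this
  have h4 : Ub (K + 1) ≤ 2 * Ub K := by
    have := Ub_add K 1
    simpa using this
  have h5 : Xb (K + 1) ≤ ENNReal.ofReal D * Xb K := by
    have := hX K 1
    simpa using this
  calc TF (BotS (c - 1) (K + 1)) (fun t => qL lb s M Ch B i t ^ 2)
      ≤ TF (BotS (c - 1) (K + 1)) (fun t => 1 / (M * (w * Ub (lb + i * s))) ^ 2 * NP (2 ^ (lb + i * s + 1)) t ^ 2) :=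
        TF_mono fun t _ => qL_sq hF hw hi t
    _ = ENNReal.ofReal (1 / (M * (w * Ub (lb + i * s))) ^ 2) *
          TF (BotS (c - 1) (K + 1)) (fun t => NP (2 ^ (lb + i * s + 1)) t ^ 2) := TF_smul (by positivity)
    _ ≤ ENNReal.ofReal (1 / (M * (w * Ub (lb + i * s))) ^ 2) *
          (ENNReal.ofReal (A * (2 * Ub (lb + i * s)) ^ 2 * (2 * Ub K)) * (ENNReal.ofReal D * Xb K)) := by
        refine mul_le_mul' le_rfl (h2.trans (mul_le_mul' (ENNReal.ofReal_le_ofReal ?_) h5))
        have h6 : Ub (lb + i * s + 1) ^ 2 ≤ (2 * Ub (lb + i * s)) ^ 2 := pow_le_pow_left₀ (TS.Ub_pos _).le h3 2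
        exact mul_le_mul (mul_le_mul_of_nonneg_left h6 hA.le) h4 (TS.Ub_pos _).le (by positivity)
    _ = ENNReal.ofReal (1 / (M * (w * Ub (lb + i * s))) ^ 2 * (A * (2 * Ub (lb + i * s)) ^ 2 * (2 * Ub K)) * D) * Xb K := by
        rw [ENNReal.ofReal_mul (p := 1 / (M * (w * Ub (lb + i * s))) ^ 2 * (A * (2 * Ub (lb + i * s)) ^ 2 * (2 * Ub K)))
          (by positivity), ENNReal.ofReal_mul (p := 1 / (M * (w * Ub (lb + i * s))) ^ 2) (by positivity)]
        ring
    _ = ENNReal.ofReal (A * 8 * D / w ^ 2 / M ^ 2 * Ub K) * Xb K := by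
        congr 2
        field_simp
        ring
    _ = _ := by
        rw [ENNReal.ofReal_mul (by positivity), mul_assoc]

open Classical in
/-- **the product of two levels**: `M` times the weight of a level times the sum of the normalised numbers of others -/
lemma cross_mass {S : Set (List Bool)} {α : List Bool → ℝ} {q : ℕ → List Bool → ℝ} {J : Finset ℕ} {M : ℕ} {Q : ℝ} {U : ℝ≥0∞}
    (hM : 1 ≤ M) (hQ : 0 ≤ Q) (hJ : J.card ≤ M)
    (h1 : TF S (fun t => α t ^ 2) ≤ ENNReal.ofReal (Q / M ^ 2) * U)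
    (h2 : ∀ j ∈ J, TF S (fun t => q j t ^ 2) ≤ ENNReal.ofReal (Q / M ^ 2) * U) :
    TF S (fun t => M * α t * ∑ j ∈ J, q j t) ≤ ENNReal.ofReal Q * U := by
  have hM0 : (0 : ℝ) < M := by exact_mod_cast (by omega : 0 < M)
  have e1 : TF S (fun t => M * α t * ∑ j ∈ J, q j t) ≤
      TF S (fun t => ∑ j ∈ J, (M / 2 * α t ^ 2 + M / 2 * q j t ^ 2)) := by
    refine TF_mono fun t _ => ?_
    rw [mul_sum]
    refine sum_le_sum fun j _ => ?_
    nlinarith [sq_nonneg (α t - q j t)]
  refine e1.trans ?_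
  rw [TF_sum J (fun j _ t _ => by positivity)]
  have e2 : ∀ j ∈ J, TF S (fun t => M / 2 * α t ^ 2 + M / 2 * q j t ^ 2) ≤ ENNReal.ofReal (Q / M) * U := by
    intro j hj
    rw [TF_add (fun t _ => by positivity) (fun t _ => by positivity), TF_smul (by positivity), TF_smul (by positivity)]
    calc ENNReal.ofReal (M / 2) * TF S (fun t => α t ^ 2) + ENNReal.ofReal (M / 2) * TF S (fun t => q j t ^ 2)
        ≤ ENNReal.ofReal (M / 2) * (ENNReal.ofReal (Q / M ^ 2) * U) + ENNReal.ofReal (M / 2) * (ENNReal.ofReal (Q / M ^ 2) * U) :=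
          add_le_add (mul_le_mul' le_rfl h1) (mul_le_mul' le_rfl (h2 j hj))
      _ = ENNReal.ofReal (M / 2 * (Q / M ^ 2) + M / 2 * (Q / M ^ 2)) * U := by
          rw [ENNReal.ofReal_add (by positivity) (by positivity), ENNReal.ofReal_mul (by positivity)]
          ring
      _ = _ := by
          congr 2
          field_simp
          ring
  calc ∑ j ∈ J, TF S (fun t => M / 2 * α t ^ 2 + M / 2 * q j t ^ 2) ≤ ∑ _j ∈ J, ENNReal.ofReal (Q / M) * U := sum_le_sum e2
    _ = (J.card : ℝ≥0∞) * (ENNReal.ofReal (Q / M) * U) := by rw [sum_const, nsmul_eq_mul]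
    _ ≤ (M : ℝ≥0∞) * (ENNReal.ofReal (Q / M) * U) := mul_le_mul' (by exact_mod_cast hJ) le_rfl
    _ = ENNReal.ofReal Q * U := by
        rw [← mul_assoc, ← ENNReal.ofReal_natCast, ← ENNReal.ofReal_mul (by positivity)]
        congr 2
        field_simp

end Sm

end SLW

end HexObs
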