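import Pool.Agent.SLW.SplitC

/-!
# SLOW: the upper half of the splitting identities, no gluing needed (helper92)

* `suf_SA` : the end of a self-avoiding word is a self-avoiding word;
* `cut_le`, **`mS_le`** : `mS (∑ k, φ (t.take k) ψ (t.drop k)) ≤ cv (mW ψ) (mS φ)`, weights `≥ 0`; `mS_le'` with `mS ψ`.
-/

set_option autoImplicit false

namespace HexObs

namespace SLW

open Finset TS SDN TIW

lemma suf_SA {A Y : List Bool} (h : A ++ Y ∈ SA) : Y ∈ SA := by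
  refine ⟨fun i _ _ => Set.mem_univ _, fun i k hik hk he => ?_⟩
  refine h.inj (A.length + i) (A.length + k) (by omega) (by rw [List.length_append]; omega) ?_
  rw [vx_app, vx_app, he]

/-- **one cut, upper bound** -/
theorem cut_le (φ ψ : List Bool → ℝ) (hφ : ∀ A, 0 ≤ φ A) (hψ : ∀ Y, 0 ≤ ψ Y) (n : ℕ) :
    ∑ t ∈ sawF n, ∑ k ∈ range (n + 1), φ (t.take k) * ψ (t.drop k) ≤
      ∑ k ∈ range (n + 1), (∑ A ∈ sawF k, φ A) * ∑ Y ∈ sawF (n - k), ψ Y := by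
  rw [sum_comm]
  refine sum_le_sum fun k hk => ?_
  rw [mem_range] at hk
  have hk' : k ≤ n := by omega
  rw [sum_saw, sum_split hk', sum_saw, sum_saw, sum_mul_sum]
  refine sum_le_sum fun A hA => sum_le_sum fun Y _ => ?_
  rw [mem_Wd] at hA
  have e1 : (A ++ Y).take k = A := by rw [← hA, List.take_left]
  have e2 : (A ++ Y).drop k = Y := by rw [← hA, List.drop_left]
  rw [e1, e2]
  by_cases h : A ++ Y ∈ SA
  · rw [TIP.ind_pos h, TIP.ind_pos (SA_take h), TIP.ind_pos (suf_SA h), one_mul, one_mul, one_mul]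
  · rw [TIP.ind_neg h, zero_mul]
    exact mul_nonneg (mul_nonneg (TIP.ind_nonneg _) (hφ A)) (mul_nonneg (TIP.ind_nonneg _) (hψ Y))

/-- **one cut, upper bound**, both parts self-avoiding -/
theorem mS_le' (φ ψ : List Bool → ℝ) (hφ : ∀ A, 0 ≤ φ A) (hψ : ∀ Y, 0 ≤ ψ Y) (n : ℕ) :
    mS (fun t => ∑ k ∈ range (t.length + 1), φ (t.take k) * ψ (t.drop k)) n ≤ cv (mS ψ) (mS φ) n := by
  unfold mS cv
  have h : ∑ Y ∈ sawF n, ∑ j ∈ range (Y.length + 1), φ (Y.take j) * ψ (Y.drop j) =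
      ∑ Y ∈ sawF n, ∑ j ∈ range (n + 1), φ (Y.take j) * ψ (Y.drop j) :=
    sum_congr rfl fun Y hY => by rw [(mem_sawF.1 hY).1]
  rw [h]
  refine (mul_le_mul_of_nonneg_left (cut_le φ ψ hφ hψ n) (pow_nonneg xc_pos.le _)).trans (le_of_eq ?_)
  rw [mul_sum]
  refine sum_congr rfl fun j hj => ?_
  rw [mem_range] at hj
  have e : xc ^ n = xc ^ j * xc ^ (n - j) := by
    rw [← pow_add]
    congr 1
    omega
  rw [e]
  ring

lemma mS_le_mW {ψ : List Bool → ℝ} (hψ : ∀ Y, 0 ≤ ψ Y) (n : ℕ) : mS ψ n ≤ mW ψ n := by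
  unfold mS mW
  refine mul_le_mul_of_nonneg_left ?_ (pow_nonneg xc_pos.le _)
  rw [sum_saw]
  exact sum_le_sum fun w _ => mul_le_of_le_one_left (hψ w) (TIP.ind_le_one _)

theorem mS_le (φ ψ : List Bool → ℝ) (hφ : ∀ A, 0 ≤ φ A) (hψ : ∀ Y, 0 ≤ ψ Y) (n : ℕ) :
    mS (fun t => ∑ k ∈ range (t.length + 1), φ (t.take k) * ψ (t.drop k)) n ≤ cv (mW ψ) (mS φ) n :=
  (mS_le' φ ψ hφ hψ n).trans (cv_mono (fun s => mS_le_mW hψ s) (fun b => mS_nonneg hφ b) n)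

end SLW

end HexObs
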