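import Pool.Agent.SIM.NoCutX
import Pool.Agent.SIM.FirstL
import Pool.Agent.SIM.TopHW
import Pool.Agent.SIM.TopFd
import Pool.Agent.SIM.CutSum
import Pool.Agent.SIM.VWord
import Pool.Agent.PS.Spread
import Pool.Agent.TIP.NgU
import Pool.Agent.SLW.DefsB

/-!
SLW, row ExB, first half (helper58): **few right parts stay in a thin strip about their tip behind the first passage of the
level RR (c - 1)**. Three bridges near the top of the first leaf, sum over the middle one: its end has a spread law.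
-/

set_option autoImplicit false

namespace HexObs

namespace SLW

open Finset TS SDN HexObs.SIM NTW NTA

open scoped ENNReal

/-- behind the first passage of the level RR (c - 1) the walk is in a strip about its tip -/
def StB (c w : ℕ) (R : List Bool) : Prop := ∃ d ∈ dirs, ∃ a, a ≤ R.length ∧ (∀ i, i < a → lev R i < RR (c - 1)) ∧
  ∀ j, a ≤ j → j ≤ R.length → |ip (vx oo up R j - TIP.tipv R) d| ≤ w

/-- few right parts are in a thin strip -/
def StripB : Prop := ∀ (e : ℝ) (J : ℕ), 0 < e → ∃ c0 : ℕ, ∀ c K w : ℕ, w * 2 ^ c0 ≤ 2 ^ c → c0 ≤ c → c ≤ K → K ≤ c + J →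
  gf {R | R ∈ BotS c K ∧ StB c w R} ≤ ENNReal.ofReal (e * Ub K) * NTA.Xb K

namespace SB

/-- the points of a strip at least n rows above the start -/
def StPts (n N v : ℕ) : Set Pt := {p | 3 * (n : ℤ) ≤ ip p up ∧ ip p up ≤ N ∧ ∃ d ∈ dirs, |ip p d| ≤ v}

lemma strip_inj {p q d : Pt} (hd : d ∈ dirs) {n v : ℤ} (h : v < n) (h1 : n ≤ ip p up) (h2 : |ip p d| ≤ v)
    (e1 : ip p up = ip q up) (e2 : ip p d = ip q d) : p = q := by
  obtain ⟨x, y⟩ := p
  obtain ⟨x', y'⟩ := q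
  simp only [dirs, mem_insert, mem_singleton] at hd
  rw [abs_le] at h2
  unfold ip up at *
  rcases hd with rfl | rfl | rfl | rfl | rfl | rfl <;> simp only [Prod.mk.injEq] at * <;> constructor <;> omega

lemma stPts_fin {n N v : ℕ} (h : v < 3 * n) : (StPts n N v).Finite ∧ (StPts n N v).ncard ≤ 6 * ((N + 1) * (2 * v + 1)) := by
  classical
  obtain ⟨δ, hδ⟩ : ∃ δ : Pt → Pt, ∀ p ∈ StPts n N v, δ p ∈ dirs ∧ |ip p (δ p)| ≤ v := by
    refine ⟨fun p => if hp : ∃ d ∈ dirs, |ip p d| ≤ v then hp.choose else 0, fun p hp => ?_⟩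
    simp only [dif_pos hp.2.2]
    exact hp.2.2.choose_spec
  obtain ⟨F, hF⟩ : ∃ F : Finset (Pt × ℤ × ℤ), F = dirs ×ˢ (Icc (0 : ℤ) N ×ˢ Icc (-(v : ℤ)) v) := ⟨_, rfl⟩
  have hmaps : ∀ p ∈ StPts n N v, (δ p, ip p up, ip p (δ p)) ∈ (F : Set (Pt × ℤ × ℤ)) := by
    intro p hp
    obtain ⟨h1, h2⟩ := hδ p hp
    rw [hF, Finset.mem_coe, Finset.mem_product, Finset.mem_product, Finset.mem_Icc, Finset.mem_Icc]
    rw [abs_le] at h2
    have h3 := hp.1
    have h4 : (0 : ℤ) ≤ ip p up := by omega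
    exact ⟨h1, ⟨h4, hp.2.1⟩, h2.1, h2.2⟩
  have hinj : Set.InjOn (fun p => (δ p, ip p up, ip p (δ p))) (StPts n N v) := by
    intro p hp q hq he
    simp only [Prod.mk.injEq] at he
    obtain ⟨e1, e2, e3⟩ := he
    obtain ⟨h1, h2⟩ := hδ p hp
    rw [← e1] at e3
    exact strip_inj h1 (n := 3 * (n : ℤ)) (v := v) (by omega) hp.1 h2 e2 e3
  have hfin : (StPts n N v).Finite := Set.Finite.of_injOn hmaps hinj F.finite_toSet
  refine ⟨hfin, ?_⟩
  have h1 := Set.ncard_le_ncard_of_injOn _ hmaps hinj F.finite_toSet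
  rw [Set.ncard_coe_finset, hF, Finset.card_product, Finset.card_product, Int.card_Icc, Int.card_Icc] at h1
  have h2 : dirs.card = 6 := by decide
  rw [h2] at h1
  refine h1.trans (le_of_eq ?_)
  rw [show ((N : ℤ) + 1 - 0).toNat = N + 1 by omega, show ((v : ℤ) + 1 - -(v : ℤ)).toNat = 2 * v + 1 by omega]

/-- the strip behind the time n1 -/
def QS (w : ℕ) (n1 _n2 : ℕ) (t : List Bool) : Prop :=
  ∃ d ∈ dirs, ∀ j, n1 ≤ j → j ≤ t.length → |ip (vx oo up t j - TIP.tipv t) d| ≤ w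

lemma monQS (w : ℕ) : MonQ (QS w) := by
  rintro t n1 n2 n1' n2' h1 h2 ⟨d, hd, h⟩
  exact ⟨d, hd, fun j hj => h j (h1.trans hj)⟩

lemma dirs_div : ∀ r ∈ dirs, ∀ d ∈ dirs, ∃ d' ∈ dirs, mulE r d' = d := by decide

/-- **the sum over the middle bridge** -/
theorem strip_x : ∃ C : ℝ, 0 < C ∧ ∀ (A B : List Bool) (n b w : ℕ) (E : Set (List Bool)), 1 ≤ n → 2 * w < 3 * n →
    gf {Z | (Z ∈ BU ∧ n ≤ hgt Z ∧ hgt Z ≤ 3 * 2 ^ b) ∧ A ++ (Z ++ B) ∈ E ∧
      QS w A.length (A.length + Z.length) (A ++ (Z ++ B))} ≤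
      ENNReal.ofReal (C * (uu n / n) * (6 * ((9 * 2 ^ b + 1) * (4 * w + 1)))) := by
  obtain ⟨C, hC, hsp⟩ := PS.spread
  refine ⟨C, hC, fun A B n b w E hn hw => ?_⟩
  obtain ⟨hf1, hf2⟩ := stPts_fin (n := n) (N := 9 * 2 ^ b) (v := 2 * w) hw
  refine (gf_mono ?_).trans ((hsp n hn (StPts n (9 * 2 ^ b) (2 * w)) hf1).trans (ENNReal.ofReal_le_ofReal ?_))
  · rintro Z ⟨⟨⟨h, hZ⟩, h2, h3⟩, -, d, hd, hQ⟩
    refine ⟨⟨h, hZ⟩, h2, ?_⟩
    rw [hgt_eq hZ] at h2 h3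
    have hr : rotTo up (dx up A A.length) ∈ dirs := mem_dirs.2 (nrm_rotTo upd (dx_mem upd A A.length))
    obtain ⟨d', hd', hdd⟩ := dirs_div _ hr d hd
    have hZe : ip (vx oo up Z Z.length) up = 3 * h := (mem_Brd.1 hZ).2.2.2
    refine ⟨by rw [hZe]; omega, ?_, d', hd', ?_⟩
    · rw [hZe]
      push_cast
      have : (h : ℤ) ≤ 3 * 2 ^ b := by exact_mod_cast h3
      linarith
    · have a1 := hQ A.length le_rfl (by simp)
      have a2 := hQ (A.length + Z.length) (by omega) (by simp)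
      have e1 : vx oo up (A ++ (Z ++ B)) (A.length + Z.length) = vx oo up (A ++ (Z ++ B)) A.length +
          mulE (rotTo up (dx up A A.length)) (vx oo up Z Z.length) := by
        have e11 : vx oo up (A ++ (Z ++ B)) A.length = vx oo up A A.length := vx_append (by omega)
        have e12 : vx oo up (Z ++ B) Z.length = vx oo up Z Z.length := vx_append (by omega)
        rw [vx_general, e11, e12]
      have e2 : ip (vx oo up (A ++ (Z ++ B)) (A.length + Z.length) - TIP.tipv (A ++ (Z ++ B))) d =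
          ip (vx oo up (A ++ (Z ++ B)) A.length - TIP.tipv (A ++ (Z ++ B))) d + ip (vx oo up Z Z.length) d' := by
        rw [e1]
        have e3 : vx oo up (A ++ (Z ++ B)) A.length + mulE (rotTo up (dx up A A.length)) (vx oo up Z Z.length) -
            TIP.tipv (A ++ (Z ++ B)) = (vx oo up (A ++ (Z ++ B)) A.length - TIP.tipv (A ++ (Z ++ B))) +
              mulE (rotTo up (dx up A A.length)) (vx oo up Z Z.length) := by abel
        rw [e3, ip_add_left]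
        congr 1
        conv_lhs => rw [← hdd]
        rw [ip_mulE, mem_dirs.1 hr, one_mul]
      rw [e2] at a2
      rw [abs_le] at a1 a2 ⊢
      push_cast
      constructor <;> linarith [a1.1, a1.2, a2.1, a2.2]
  · have h1 : (0 : ℝ) ≤ C * (uu n / n) := mul_nonneg hC.le (div_nonneg (uu_pos n).le (Nat.cast_nonneg n))
    refine mul_le_mul_of_nonneg_left ?_ h1
    have h2 : ((StPts n (9 * 2 ^ b) (2 * w)).ncard : ℝ) ≤ ((6 * ((9 * 2 ^ b + 1) * (2 * (2 * w) + 1)) : ℕ) : ℝ) := by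
      exact_mod_cast hf2
    refine h2.trans (le_of_eq ?_)
    push_cast
    ring

/-- **three bridges near the top of the first leaf** -/
theorem first_cut {kc J : ℕ} {c r : ℕ → ℕ} (hcr : ∀ k, k < 3 → c k + r k + 1 ≤ c (k + 1)) (hc3 : c 3 + r 3 ≤ kc + 3)
    (hc0 : 1 ≤ c 0) {S : Set (List Bool)}
    (hS : ∀ k, k < 4 → ∀ g, g ∈ BrR (2 ^ (kc + 4)) (2 ^ (kc + J + 2)) → g ∈ NoCut (c k) (r k) → g ∈ S)
    {w : ℕ} {t : List Bool} (ht : t ∈ BotS (kc + 5) (kc + J)) (hQ : StB (kc + 5) w t)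
    (hE : t ∉ FirstR kc J (EN.One S)) :
    Cut3 (QS w) {L | ∃ n, n ≤ 2 ^ (kc + J + 3) ∧ L ∈ Brd n} (FirstF (c 0) (kc + J + 1)) (2 ^ (c 0 + r 0))
      (2 ^ (c 3 + r 3)) t := by
  have hW : t ∈ WL (kc + J) := ht.1
  have hSA : t ∈ SA := hW.1
  have hp0 : (0 : ℤ) < 2 ^ (kc + 3) := by positivity
  have w0 := hcr 0 (by norm_num)
  have w1 := hcr 1 (by norm_num)
  have w2 := hcr 2 (by norm_num)
  simp only [Nat.zero_add, Nat.reduceAdd] at w0 w1 w2
  have hmo : ∀ k, k < 4 → c k + r k ≤ kc + 3 := by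
    intro k hk
    rcases (by omega : k = 0 ∨ k = 1 ∨ k = 2 ∨ k = 3) with rfl | rfl | rfl | rfl <;> omega
  have hRRb : RR (kc + 5) = 12 * 2 ^ (kc + 3) - 2 := by
    unfold RR
    rw [show kc + 5 = kc + 3 + 2 by ring, pow_add]
    ring
  have hRRa : RR (kc + 5 - 1) = 6 * 2 ^ (kc + 3) - 2 := by
    unfold RR
    rw [show kc + 5 - 1 = kc + 3 + 1 by omega, pow_add]
    ring
  have k1 : 2 * 2 ^ (c 0 + r 0) ≤ 2 ^ c 1 := by
    rw [← pow_succ']
    exact Nat.pow_le_pow_right (by norm_num) w0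
  have k2 : 2 * 2 ^ (c 1 + r 1) ≤ 2 ^ c 2 := by
    rw [← pow_succ']
    exact Nat.pow_le_pow_right (by norm_num) w1
  have k3 : 2 * 2 ^ (c 2 + r 2) ≤ 2 ^ c 3 := by
    rw [← pow_succ']
    exact Nat.pow_le_pow_right (by norm_num) w2
  have k6 : 2 ^ (c 0 + r 0) ≤ 2 ^ (c 1 + r 1) := Nat.pow_le_pow_right (by norm_num) (by omega)
  have k7 : 2 ^ (c 0 + r 0) ≤ 2 ^ (c 2 + r 2) := Nat.pow_le_pow_right (by norm_num) (by omega)
  have k8 : 2 ^ (c 3 + r 3) ≤ 2 ^ (kc + 3) := Nat.pow_le_pow_right (by norm_num) hc3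
  have k9 : 2 ^ (c 1 + r 1) ≤ 2 ^ (c 3 + r 3) := Nat.pow_le_pow_right (by norm_num) (by omega)
  have k10 : 0 < 2 ^ (c 0 + r 0) := by positivity
  -- the first fold and the first leaf
  obtain ⟨m, u, e, hF⟩ := fd_botS (by omega) ht
  have he0 := first_of_botS (by omega) ht hF
  obtain ⟨g, hpos, hgB, hgS⟩ : ∃ g, PosL t u e 0 g ∧ g ∈ BrR (2 ^ (kc + 4)) (2 ^ (kc + J + 2)) ∧ g ∉ S := by
    by_contra hn
    push Not at hn
    refine hE ⟨hW, m, u, e, hF, he0, 1, le_rfl, hF.1, fun ms hms hpos _ _ hB => ?_⟩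
    obtain ⟨g, rfl⟩ := List.length_eq_one_iff.1 hms
    exact ⟨g, hn g (hpos 0 (by simp)) (hB g List.mem_cons_self), rfl⟩
  obtain ⟨hh, hD1, hD2, hgh⟩ := id hgB
  obtain ⟨hm, hG, hbig, hsm, hst, hfin⟩ := hF
  have hlt := hG.lt 0 hm
  rw [he0, Nat.zero_add] at hlt
  have hmono : ∀ k, 1 ≤ k → k ≤ m → e 1 ≤ e k := by
    intro k hk
    induction k, hk using Nat.le_induction with
    | base => intro _; exact le_rfl
    | succ k hk ih =>
      intro h1
      have h2 := ih (by omega)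
      have h3 := hG.lt k (by omega)
      omega
  have he1 : e 1 ≤ t.length := (hmono m hm le_rfl).trans hG.le
  have hl0 := lev_zero t
  have hl1 := lev_one t
  -- the leaf goes up
  have hodd : ¬ Even (u + 0) := by
    intro hev
    have h1 := hG.lo0 1 (by omega) (by omega)
    rw [Nat.add_zero] at hev
    unfold Tight.sg at h1
    rw [if_pos hev, if_pos hev, he0] at h1
    omega
  have hsg : ∀ y : ℤ, Tight.sg (u + 0) y = y := by
    intro y
    unfold Tight.sg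
    rw [if_neg hodd]
  have hDup : dD false (u + 0) = up := by
    unfold dD
    rw [if_neg hodd]
    rfl
  have htop : RR (kc + 5) ≤ lev t (e 1) := by
    have h1 := hbig 0 (by omega)
    rw [hsg, hsg, he0] at h1
    simp only [Nat.zero_add] at h1
    omega
  have hpo : ∀ i, 1 ≤ i → i ≤ e 1 → 0 < lev t i := by
    intro i i1 i2
    obtain ⟨-, a, ha, hR, hposa⟩ := ht
    rcases Nat.lt_or_ge a i with h1 | h1
    · have h2 := hsm 0 (by omega) a i (by omega) h1.le (by simpa using i2)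
      rw [hsg, hsg] at h2
      omega
    · exact hposa i i1 h1
  -- the cuts
  obtain ⟨v, z, v1, v2, v3, v4, v5, v6⟩ := leaf_cut hpos hgh hD1
  have hgn : ∀ k, k < 4 → g ∉ NoCut (c k) (r k) := fun k hk hn => hgS (hS k hk g hgB hn)
  rw [hDup] at v5
  rw [he0] at v1 v2
  rw [Nat.zero_add] at v3 v4 v5
  have hcut : ∀ k, k < 4 → ∃ p H : ℕ, CutAt (dD false (u + 0)) t (v + 1) z p ∧ xD up t z - xD up t p = 3 * H ∧
      2 ^ c k ≤ H ∧ H ≤ 2 ^ (c k + r k) ∧ 3 * 2 ^ (kc + 3) - 2 ≤ xD up t p - xD up t (v + 1) := by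
    intro k hk
    obtain ⟨p, H, h1, h2, h3, h4, h5⟩ := v6 (c k) (r k) (hmo k hk) (hgn k hk)
    rw [hDup] at h2 h5
    exact ⟨p, H, h1, h2, h3, h4, h5⟩
  obtain ⟨p1, G1, a1, a2, a3, a4, a5⟩ := hcut 0 (by norm_num)
  obtain ⟨p2, G2, b1, b2, b3, b4, b5⟩ := hcut 1 (by norm_num)
  obtain ⟨p3, G3, c1, c2, c3, c4, c5⟩ := hcut 2 (by norm_num)
  obtain ⟨p4, G4, d1, d2, d3, d4, d5⟩ := hcut 3 (by norm_num)
  have hzl : z ≤ t.length := by omega
  have hxl : ∀ i, xD up t i = lev t i := fun i => rfl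
  have q12 : p2 < p1 := cut_lt b1 a1 (by rw [hDup]; omega)
  have q23 : p3 < p2 := cut_lt c1 b1 (by rw [hDup]; omega)
  have q34 : p4 < p3 := cut_lt d1 c1 (by rw [hDup]; omega)
  have hpz : p1 < z := a1.2.1
  obtain ⟨n1, m1, m1'⟩ := cut_mid hSA hzl d1 c1 q34.le
  obtain ⟨n2, m2, m2'⟩ := cut_mid hSA hzl c1 b1 q23.le
  obtain ⟨n3, m3, m3'⟩ := cut_mid hSA hzl b1 a1 q12.le
  rw [hDup] at m1' m2' m3'
  have l0 : (t.take p4).length = p4 := by rw [List.length_take]; omega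
  have hn4 : (3 : ℤ) * G4 ≤ 3 * 2 ^ (kc + 3) := by
    have h3 : (G4 : ℤ) ≤ ((2 ^ (kc + 3) : ℕ) : ℤ) := by exact_mod_cast d4.trans k8
    push_cast at h3
    omega
  have hp4 : 9 * 2 ^ (kc + 3) - 4 ≤ lev t p4 := by
    rw [hxl, hxl] at d2 v5
    omega
  -- a word before a cut is a bridge
  have hbr : ∀ p, CutAt (dD false (u + 0)) t (v + 1) z p → p4 ≤ p →
      ∃ n, n ≤ 2 ^ (kc + J + 3) ∧ t.take p ∈ Brd n := by
    intro p hp hpp
    obtain ⟨y1, y2, y3, y4, y5⟩ := hp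
    rw [hDup] at y3 y4 y5
    have h4 := d1.2.2.2.2
    have h5 : lev t p4 ≤ lev t p := y4 p4 d1.1 hpp
    have hcw := cut_word hSA (D := up) (a := 0) (b := p) (Nat.zero_le p) (by omega) rfl y3 fun i i1 i2 => by
      rw [hxl, hxl, hxl, hl0]
      refine ⟨hpo i (by omega) (by omega), ?_⟩
      rcases Nat.lt_or_ge i (v + 1) with h6 | h6
      · have : i = 1 := by omega
        rw [this, hl1]
        omega
      · exact y4 i h6 i2
    obtain ⟨n, hn1, hn2⟩ := hcw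
    rw [List.drop_zero, Nat.sub_zero] at hn1
    refine ⟨n, ?_, hn1⟩
    rw [hxl, hxl, hl0] at hn2
    obtain ⟨z1, z2⟩ := WL_bd hW (i := p) (by omega)
    have hz0 : (0 : Pt).1 = 0 ∧ (0 : Pt).2 = 0 := ⟨rfl, rfl⟩
    rw [hz0.1, sub_zero] at z1
    rw [hz0.2, sub_zero] at z2
    have z3 := TIP.NgU.ip_le upd z1 z2
    rw [abs_le] at z3
    have z4 : ip (vx oo up t p) up = lev t p := rfl
    have z5 : (n : ℤ) ≤ ((2 ^ (kc + J + 3) : ℕ) : ℤ) := by omega
    exact_mod_cast z5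
  have heq : t = t.take p4 ++ ((t.drop p4).take (p3 - p4) ++ ((t.drop p3).take (p2 - p3) ++
      ((t.drop p2).take (p1 - p2) ++ t.drop p1))) := by
    have e3 : (t.drop p2).take (p1 - p2) ++ t.drop p1 = t.drop p2 := by
      have := List.take_append_drop (p1 - p2) (t.drop p2)
      rwa [List.drop_drop, Nat.add_sub_cancel' q12.le] at this
    have e2 : (t.drop p3).take (p2 - p3) ++ t.drop p2 = t.drop p3 := by
      have := List.take_append_drop (p2 - p3) (t.drop p3)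
      rwa [List.drop_drop, Nat.add_sub_cancel' q23.le] at this
    have e1 : (t.drop p4).take (p3 - p4) ++ t.drop p3 = t.drop p4 := by
      have := List.take_append_drop (p3 - p4) (t.drop p4)
      rwa [List.drop_drop, Nat.add_sub_cancel' q34.le] at this
    rw [e3, e2, e1, List.take_append_drop]
  refine ⟨t.take p4, (t.drop p4).take (p3 - p4), (t.drop p3).take (p2 - p3), (t.drop p2).take (p1 - p2), t.drop p1,
    n1, n2, n3, heq, m1, m2, m3, by omega, by omega, by omega, by omega, by omega, by omega, ?_, ?_, ?_⟩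
  · intro A B hA hB hAB
    obtain ⟨e1, e2, e3, e4, e5⟩ := cut_inner hzl d1 c1 q34.le hA hB hAB
    rw [← e4]
    exact hbr _ e1 (by omega)
  · intro A B hA hB hAB
    obtain ⟨e1, e2, e3, e4, e5⟩ := cut_inner hzl b1 a1 q12.le hA hB hAB
    rw [← e5]
    have h3 := a1.2.2.2.1 (p2 + A.length) e1.1 e2
    refine botS_sub hc0 (bot_mem hW hzl e1 ?_)
    rw [hDup] at h3 ⊢
    unfold RR
    have h4 : ((2 ^ c 0 : ℕ) : ℤ) ≤ (G1 : ℤ) := by exact_mod_cast a3
    push_cast at h4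
    omega
  · obtain ⟨d, hd, a, ha, hlow, hstr⟩ := hQ
    have hap : a ≤ p4 := by
      by_contra hcon
      have := hlow p4 (by omega)
      rw [hRRa] at this
      omega
    refine ⟨d, hd, fun j j1 j2 => hstr j ?_ j2⟩
    rw [l0] at j1
    omega

lemma up_fac {D : ℝ} (hD : 1 ≤ D) (hDX : ∀ k i : ℕ, Xb (k + i) ≤ ENNReal.ofReal (D ^ i) * Xb k) {x : ℝ} (hx : 0 ≤ x)
    {K K1 j : ℕ} (h2 : K1 ≤ K + j) :
    ENNReal.ofReal (x * Ub K1) * Xb K1 ≤ ENNReal.ofReal (x * (2 ^ j * D ^ j) * Ub K) * Xb K := by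
  have hD0 : 0 < D := by linarith
  have hU := Ub_pos K
  have h3 : Ub K1 ≤ 2 ^ j * Ub K := (Ub_mono h2).trans (TIP.Ub_steps K j)
  have h4 : Xb K1 ≤ ENNReal.ofReal (D ^ j) * Xb K := (EN.Xb_mono h2).trans (hDX K j)
  refine (mul_le_mul' (ENNReal.ofReal_le_ofReal (mul_le_mul_of_nonneg_left h3 hx)) h4).trans (le_of_eq ?_)
  rw [← mul_assoc, ← ENNReal.ofReal_mul (by positivity)]
  congr 2
  ring

lemma mul4 {α β γ ω : ℝ} (hα : 0 ≤ α) (hβ : 0 ≤ β) (hγ : 0 ≤ γ) (X : ℝ≥0∞) :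
    ENNReal.ofReal α * (ENNReal.ofReal β * (ENNReal.ofReal γ * X) * ENNReal.ofReal ω) =
      ENNReal.ofReal (α * β * γ * ω) * X := by
  rw [ENNReal.ofReal_mul (mul_nonneg (mul_nonneg hα hβ) hγ), ENNReal.ofReal_mul (mul_nonneg hα hβ), ENNReal.ofReal_mul hα]
  ring

lemma num_x {u U n b w : ℝ} {C : ℝ} (hC : 0 ≤ C) (hn : 0 < n) (hu : n * u ≤ U) (hu0 : 0 ≤ u) (hb : 1 ≤ b) (hw : 0 ≤ w) :
    C * (u / n) * (6 * ((9 * b + 1) * (4 * w + 1))) ≤ C * (U / n ^ 2) * (60 * b * (4 * w + 1)) := by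
  have h1 : u / n ≤ U / n ^ 2 := by
    rw [div_le_div_iff₀ hn (by positivity)]
    nlinarith
  have h2 : 6 * ((9 * b + 1) * (4 * w + 1)) ≤ 60 * b * (4 * w + 1) := by nlinarith
  have h3 : 0 ≤ u / n := div_nonneg hu0 hn.le
  exact mul_le_mul (mul_le_mul_of_nonneg_left h1 hC) h2 (by positivity) (mul_nonneg hC (h3.trans h1))

end SB

/-- **few right parts are in a thin strip about their tip** -/
theorem stripB : StripB := by
  intro e J he
  obtain ⟨C1, k1, hC1, h1⟩ := first_l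
  obtain ⟨C2, k2, hC2, h2⟩ := half_first
  obtain ⟨C3, hC3, h3⟩ := cut3_sum
  obtain ⟨C4, hC4, h4⟩ := SB.strip_x
  obtain ⟨D, hD, hDX⟩ := Xb_pow
  have hC10 : 0 < C1 := by linarith
  have hC20 : 0 < C2 := by linarith
  have hC30 : 0 < C3 := by linarith
  have hD0 : 0 < D := by linarith
  obtain ⟨J', hJ'⟩ : ∃ J', J' = J + 6 := ⟨_, rfl⟩
  obtain ⟨Y, hY⟩ : ∃ Y : ℝ, Y = 2 ^ (J + 2) * D ^ (J + 2) := ⟨_, rfl⟩
  have hY0 : 0 < Y := by rw [hY]; positivity
  obtain ⟨δ, hδ⟩ : ∃ δ : ℝ, δ = e / 2 / (C1 ^ J' * Y) := ⟨_, rfl⟩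
  have hδ0 : 0 < δ := by rw [hδ]; positivity
  obtain ⟨d, k0, hd0, hd, hd4, hn⟩ := nocut_norm 4 (by norm_num) J' hδ0
  have f0 := hd 0
  have f1 := hd 1
  have f2 := hd 2
  have f3 := hd 3
  simp only [Nat.zero_add, Nat.reduceAdd] at f0 f1 f2 f3
  obtain ⟨J2, hJ2⟩ : ∃ J2, J2 = J' + d 4 + 6 := ⟨_, rfl⟩
  obtain ⟨M, hM⟩ : ∃ M : ℝ, M = C3 * C4 * 60 * 2 ^ (J' + 4) * C2 ^ J2 * (2 ^ d 3) ^ 3 * (5 * 2 ^ (d 3 + 6)) := ⟨_, rfl⟩
  have hM0 : 0 < M := by rw [hM]; positivity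
  obtain ⟨q, hq⟩ : ∃ q : ℕ, M * Y * 2 / e < 2 ^ q := pow_unbounded_of_one_lt _ (by norm_num)
  obtain ⟨c0, hc0⟩ : ∃ c0, c0 = k0 + k1 + k2 + d 4 + q + 20 := ⟨_, rfl⟩
  refine ⟨c0, fun c K w hw hc hcK hKJ => ?_⟩
  obtain ⟨kc, hkc⟩ : ∃ kc, kc = c - 5 := ⟨_, rfl⟩
  have hkc5 : kc + 5 = c := by omega
  obtain ⟨b, hb⟩ : ∃ b, b = kc - 1 := ⟨_, rfl⟩
  obtain ⟨n, hnd⟩ : ∃ n, n = 2 ^ (kc - d 3 - 1) := ⟨_, rfl⟩
  have hUK := Ub_pos K
  have hUb := Ub_pos b
  have hUK1 := Ub_pos (kc + J' + 1)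
  -- the small part
  obtain ⟨S, hS⟩ : ∃ S, S = SIM.NcS kc J' 4 d := ⟨_, rfl⟩
  obtain ⟨E, hE⟩ : ∃ E : Set (List Bool), E = {R | R ∈ BotS (kc + 5) (kc + J') ∧ StB (kc + 5) w R ∧
    R ∉ FirstR kc J' (EN.One S)} := ⟨_, rfl⟩
  have hbox : ∀ R, R ∈ BotS c K → R ∈ BotS (kc + 5) (kc + J') := by
    rintro R ⟨r1, r2⟩
    rw [hkc5]
    exact ⟨SDN.WL_mono (by omega) r1, r2⟩
  have hsub : {R | R ∈ BotS c K ∧ StB c w R} ⊆ FirstR kc J' (EN.One S) ∪ E := by
    rintro R ⟨r1, r2⟩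
    by_cases h5 : R ∈ FirstR kc J' (EN.One S)
    · exact Or.inl h5
    · refine Or.inr ?_
      rw [hE]
      rw [← hkc5] at r2
      exact ⟨hbox R r1, r2, h5⟩
  have hF : gf (FirstR kc J' (EN.One S)) ≤ ENNReal.ofReal (e / 2 * Ub K) * Xb K := by
    refine (h1 kc J' _ δ (by omega) (by omega) hδ0 (EN.smR_one (hS ▸ hn kc (by omega)))).trans ?_
    refine (SB.up_fac hD hDX (x := C1 ^ J' * δ) (by positivity) (K := K) (j := J + 2) (by omega)).trans (le_of_eq ?_)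
    congr 2
    rw [← hY, hδ]
    field_simp
  have hEm : gf E ≤ ENNReal.ofReal (e / 2 * Ub K) * Xb K := by
    obtain ⟨c', hc'⟩ : ∃ c' : ℕ → ℕ, c' = fun k => kc - d (4 - k) := ⟨_, rfl⟩
    obtain ⟨r', hr'⟩ : ∃ r' : ℕ → ℕ, r' = fun k => d (4 - k) - d (3 - k) - 1 := ⟨_, rfl⟩
    have g0 : c' 0 = kc - d 4 ∧ r' 0 = d 4 - d 3 - 1 := by rw [hc', hr']; exact ⟨rfl, rfl⟩
    have g1 : c' 1 = kc - d 3 ∧ r' 1 = d 3 - d 2 - 1 := by rw [hc', hr']; exact ⟨rfl, rfl⟩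
    have g2 : c' 2 = kc - d 2 ∧ r' 2 = d 2 - d 1 - 1 := by rw [hc', hr']; exact ⟨rfl, rfl⟩
    have g3 : c' 3 = kc - d 1 ∧ r' 3 = d 1 - d 0 - 1 := by rw [hc', hr']; exact ⟨rfl, rfl⟩
    have t0 : c' 0 + r' 0 = kc - d 3 - 1 := by omega
    have t3 : c' 3 + r' 3 = b := by omega
    have hn1 : 1 ≤ n := by rw [hnd]; exact Nat.one_le_two_pow
    have hn0 : (0 : ℝ) < n := by exact_mod_cast hn1
    have hcut : ∀ t ∈ E, Cut3 (SB.QS w) {L | ∃ n, n ≤ 2 ^ (kc + J' + 3) ∧ L ∈ Brd n} (FirstF (c' 0) (kc + J' + 1)) n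
        (2 ^ b) t := by
      intro t ht
      rw [hE] at ht
      obtain ⟨t1, t2, t4⟩ := ht
      rw [hnd, ← t0, ← t3]
      refine SB.first_cut (S := S) ?_ (by omega) (by omega) ?_ t1 t2 t4
      · intro k hk
        rcases (by omega : k = 0 ∨ k = 1 ∨ k = 2) with rfl | rfl | rfl <;> simp only [Nat.zero_add, Nat.reduceAdd] <;> omega
      · rintro k hk g ⟨hh, b1, b2, b3⟩ hg
        rw [hS]
        refine ⟨⟨hh, b1, b2.trans (Nat.pow_le_pow_right (by norm_num) (by omega)), b3⟩, 3 - k, by omega, ?_⟩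
        rw [hc', hr'] at hg
        rw [show 3 - k + 1 = 4 - k by omega]
        exact hg
    have hwn : (4 * (w : ℝ) + 1) * 2 ^ c0 ≤ 5 * 2 ^ (d 3 + 6) * n := by
      have a1 : (w : ℝ) * 2 ^ c0 ≤ 2 ^ c := by exact_mod_cast hw
      have a2 : (2 : ℝ) ^ c0 ≤ 2 ^ c := pow_le_pow_right₀ (by norm_num) hc
      have a3 : (2 : ℝ) ^ c = 2 ^ (d 3 + 6) * n := by
        rw [hnd]
        push_cast
        rw [← pow_add]
        congr 1
        omega
      rw [a3] at a1 a2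
      linarith
    have hw3 : 2 * w < 3 * n := by
      have a1 : w * 2 ^ (d 3 + 7) ≤ n * 2 ^ (d 3 + 6) := by
        refine (Nat.mul_le_mul_left w (Nat.pow_le_pow_right (by norm_num) (by omega : d 3 + 7 ≤ c0))).trans (hw.trans (le_of_eq ?_))
        rw [hnd, ← pow_add]
        congr 1
        omega
      rw [pow_succ 2 (d 3 + 6), show w * (2 ^ (d 3 + 6) * 2) = 2 * w * 2 ^ (d 3 + 6) by ring] at a1
      have a2 := Nat.le_of_mul_le_mul_right a1 (by positivity)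
      omega
    have hmain := h3 (SB.QS w) _ _ E n b _ (SB.monQS w) hn1 hcut (fun A B => h4 A B n b w E hn1 hw3)
    have hLL : gf {L | ∃ n, n ≤ 2 ^ (kc + J' + 3) ∧ L ∈ Brd n} ≤ ENNReal.ofReal (2 ^ (J' + 4) * Ub b) := by
      refine (gf_BU_le _).trans (ENNReal.ofReal_le_ofReal ?_)
      have a1 := TIP.Ub_steps b (J' + 4)
      rw [show b + (J' + 4) = kc + J' + 3 by omega] at a1
      exact a1
    have hRR : gf (FirstF (c' 0) (kc + J' + 1)) ≤ ENNReal.ofReal (C2 ^ J2 * Ub (kc + J' + 1)) * Xb (kc + J' + 1) := by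
      have a1 := h2 (kc - d 4 - 5) J2 (by omega) (by omega)
      rw [show kc - d 4 - 5 + 5 = c' 0 by omega, show kc - d 4 - 5 + J2 = kc + J' + 1 by omega] at a1
      exact a1
    have hx : C4 * (uu n / n) * (6 * ((9 * 2 ^ b + 1) * (4 * w + 1))) ≤
        C4 * (Ub b / n ^ 2) * (60 * 2 ^ b * (4 * w + 1)) := by
      refine SB.num_x hC4.le hn0 ?_ (uu_pos n).le (one_le_pow₀ (by norm_num)) (Nat.cast_nonneg w)
      refine (Num2Aux.mul_le_UU n).trans ?_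
      rw [hnd]
      exact Ub_mono (by omega)
    refine hmain.trans ?_
    have hbn : (2 : ℝ) ^ b = 2 ^ d 3 * n := by
      rw [hnd]
      push_cast
      rw [← pow_add]
      congr 1
      omega
    calc ENNReal.ofReal (C3 * (2 ^ b / (n * Ub b)) ^ 2) * (gf {L | ∃ n, n ≤ 2 ^ (kc + J' + 3) ∧ L ∈ Brd n} *
          gf (FirstF (c' 0) (kc + J' + 1)) * ENNReal.ofReal (C4 * (uu n / n) * (6 * ((9 * 2 ^ b + 1) * (4 * w + 1)))))
        ≤ ENNReal.ofReal (C3 * (2 ^ b / (n * Ub b)) ^ 2) * (ENNReal.ofReal (2 ^ (J' + 4) * Ub b) *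
          (ENNReal.ofReal (C2 ^ J2 * Ub (kc + J' + 1)) * Xb (kc + J' + 1)) *
            ENNReal.ofReal (C4 * (Ub b / n ^ 2) * (60 * 2 ^ b * (4 * w + 1)))) :=
          mul_le_mul' le_rfl (mul_le_mul' (mul_le_mul' hLL hRR) (ENNReal.ofReal_le_ofReal hx))
      _ = ENNReal.ofReal (C3 * (2 ^ b / (n * Ub b)) ^ 2 * (2 ^ (J' + 4) * Ub b) * (C2 ^ J2 * Ub (kc + J' + 1)) *
            (C4 * (Ub b / n ^ 2) * (60 * 2 ^ b * (4 * w + 1)))) * Xb (kc + J' + 1) := by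
          exact SB.mul4 (by positivity) (by positivity) (by positivity) _
      _ ≤ ENNReal.ofReal (e / 2 / Y * Ub (kc + J' + 1)) * Xb (kc + J' + 1) := by
          refine mul_le_mul' (ENNReal.ofReal_le_ofReal ?_) le_rfl
          have a1 : C3 * (2 ^ b / (n * Ub b)) ^ 2 * (2 ^ (J' + 4) * Ub b) * (C2 ^ J2 * Ub (kc + J' + 1)) *
              (C4 * (Ub b / n ^ 2) * (60 * 2 ^ b * (4 * w + 1))) =
              C3 * C4 * 60 * 2 ^ (J' + 4) * C2 ^ J2 * (2 ^ d 3) ^ 3 * ((4 * w + 1) / n) * Ub (kc + J' + 1) := by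
            rw [hbn]
            field_simp
          rw [a1]
          refine mul_le_mul_of_nonneg_right ?_ hUK1.le
          have a2 : (4 * (w : ℝ) + 1) / n ≤ 5 * 2 ^ (d 3 + 6) / 2 ^ c0 := by
            rw [div_le_div_iff₀ hn0 (by positivity)]
            exact hwn
          calc C3 * C4 * 60 * 2 ^ (J' + 4) * C2 ^ J2 * (2 ^ d 3) ^ 3 * ((4 * w + 1) / n)
              ≤ C3 * C4 * 60 * 2 ^ (J' + 4) * C2 ^ J2 * (2 ^ d 3) ^ 3 * (5 * 2 ^ (d 3 + 6) / 2 ^ c0) := by gcongr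
            _ = M / 2 ^ c0 := by rw [hM]; ring
            _ ≤ M / 2 ^ q := by
                refine div_le_div_of_nonneg_left hM0.le (by positivity) (pow_le_pow_right₀ (by norm_num) (by omega))
            _ ≤ e / 2 / Y := by
                rw [div_le_div_iff₀ (by positivity) hY0]
                rw [div_lt_iff₀ he] at hq
                linarith
      _ ≤ ENNReal.ofReal (e / 2 * Ub K) * Xb K := by
          refine (SB.up_fac hD hDX (x := e / 2 / Y) (by positivity) (K := K) (j := J + 2) (by omega)).trans (le_of_eq ?_)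
          congr 2
          rw [← hY]
          field_simp
  calc gf {R | R ∈ BotS c K ∧ StB c w R} ≤ gf (FirstR kc J' (EN.One S) ∪ E) := gf_mono hsub
    _ ≤ gf (FirstR kc J' (EN.One S)) + gf E := gf_union_le _ _
    _ ≤ ENNReal.ofReal (e / 2 * Ub K) * Xb K + ENNReal.ofReal (e / 2 * Ub K) * Xb K := add_le_add hF hEm
    _ = ENNReal.ofReal (e * Ub K) * Xb K := by
        rw [← add_mul, ← ENNReal.ofReal_add (by positivity) (by positivity)]
        congr 2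
        ring

end SLW

end HexObs
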