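import Mathlib

/-!
# Telescoping weights (helper91; MERGE_83 section 3)

`a b l ω ≥ 0` (`b < K` blocks, `l < M` levels), `T l = (1 / M) ∑_{j ∈ [l, M)} a j`, `gc c s` = `1` on `[0, c]`, `0` beyond
`2 c`, linear between, `R = (2 / (3 c)) (1 / M) ∑_l a l * gc c (T (l + 1))`.

* `tele1`: `|(1/M) ∑ a l * gc c (T (l+1)) - Gc c (T 0)| ≤ (1 / (2 c M²)) ∑ a l ²`, every `ω`;
* **`tele`**: for a finite measure with joint second moments `≤ C`:
  `∑ p |∏_b R_b - 1| ≤ ∑_b p {T 0 < 2 c} + 2 K² C / (3 c² M)`, if `K ≤ 3 c² M`;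
* **`tele_low`**: `p {T 0 < c} ≤ ε + (3 c / 2 + C / (2 c M)) / κ` if `κ (p {T (l+1) ≤ c} - ε) ≤ ∑ p a l gc (T (l+1))`.
-/

set_option autoImplicit false

open Finset

noncomputable section

namespace SLW

/-! ### the cutoff -/

/-- `(min s 2c - c)₊` -/
def vc (c s : ℝ) : ℝ := max (min s (2 * c) - c) 0

/-- `1` up to `c`, `0` beyond `2 c` -/
def gc (c s : ℝ) : ℝ := 1 - vc c s / c

/-- the primitive of `gc` -/
def Gc (c s : ℝ) : ℝ := min s (2 * c) - vc c s ^ 2 / (2 * c)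

variable {c : ℝ}

theorem vc_of_le (hc : 0 < c) {s : ℝ} (hs : s ≤ c) : vc c s = 0 := by
  unfold vc
  rw [min_eq_left (by linarith), max_eq_right (by linarith)]

theorem vc_mid (_hc : 0 < c) {s : ℝ} (hs : c ≤ s) (hs' : s ≤ 2 * c) : vc c s = s - c := by
  unfold vc
  rw [min_eq_left hs', max_eq_left (by linarith)]

theorem vc_of_ge (hc : 0 < c) {s : ℝ} (hs : 2 * c ≤ s) : vc c s = c := by
  unfold vc
  rw [min_eq_right hs, max_eq_left (by linarith)]
  ring

theorem vc_nonneg (s : ℝ) : 0 ≤ vc c s := le_max_right _ _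

theorem vc_le (hc : 0 < c) (s : ℝ) : vc c s ≤ c := by
  unfold vc
  refine max_le ?_ hc.le
  have := min_le_right s (2 * c)
  linarith

theorem gc_of_le (hc : 0 < c) {s : ℝ} (hs : s ≤ c) : gc c s = 1 := by
  unfold gc
  rw [vc_of_le hc hs]
  simp

theorem gc_nonneg (hc : 0 < c) (s : ℝ) : 0 ≤ gc c s := by
  unfold gc
  rw [sub_nonneg, div_le_one hc]
  exact vc_le hc s

theorem gc_le (hc : 0 < c) (s : ℝ) : gc c s ≤ 1 := by
  unfold gc
  have := div_nonneg (vc_nonneg (c := c) s) hc.le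
  linarith

theorem gc_of_ge (hc : 0 < c) {s : ℝ} (hs : 2 * c ≤ s) : gc c s = 0 := by
  unfold gc
  rw [vc_of_ge hc hs, div_self hc.ne', sub_self]

/-- `gc` is Lipschitz -/
theorem gc_lip (hc : 0 < c) (s t : ℝ) : |gc c s - gc c t| ≤ |s - t| / c := by
  unfold gc
  have h1 : |vc c s - vc c t| ≤ |s - t| := by
    unfold vc
    refine (abs_max_sub_max_le_abs _ _ _).trans ?_
    rw [sub_sub_sub_cancel_right]
    exact abs_min_sub_min_le_max s (2 * c) t (2 * c) |>.trans (by simp)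
  have e : 1 - vc c s / c - (1 - vc c t / c) = -((vc c s - vc c t) / c) := by ring
  rw [e, abs_neg, abs_div, abs_of_pos hc]
  exact div_le_div_of_nonneg_right h1 hc.le

theorem Gc_zero (hc : 0 < c) : Gc c 0 = 0 := by
  unfold Gc
  rw [vc_of_le hc hc.le, min_eq_left (by linarith)]
  simp

theorem Gc_of_ge (hc : 0 < c) {s : ℝ} (hs : 2 * c ≤ s) : Gc c s = 3 * c / 2 := by
  unfold Gc
  rw [vc_of_ge hc hs, min_eq_right hs]
  field_simp
  ring

theorem Gc_nonneg (hc : 0 < c) {s : ℝ} (hs : 0 ≤ s) : 0 ≤ Gc c s := by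
  unfold Gc
  have h1 := vc_nonneg (c := c) s
  have h2 := vc_le hc s
  have h3 : vc c s ≤ min s (2 * c) := by
    unfold vc
    refine max_le (by linarith) (le_min hs (by linarith))
  have h4 : vc c s ^ 2 / (2 * c) ≤ vc c s := by
    rw [div_le_iff₀ (by linarith)]
    nlinarith
  linarith

theorem Gc_le (hc : 0 < c) (s : ℝ) : Gc c s ≤ 3 * c / 2 := by
  rcases le_total (2 * c) s with h | h
  · exact (Gc_of_ge hc h).le
  rcases le_total c s with h1 | h1
  · unfold Gc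
    rw [vc_mid hc h1 h, min_eq_left h]
    have : (s - c) ^ 2 / (2 * c) = (s - c) ^ 2 * (1 / (2 * c)) := by ring
    have h2 : s - (s - c) ^ 2 / (2 * c) = 3 * c / 2 - (2 * c - s) ^ 2 / (2 * c) := by
      field_simp
      ring
    rw [h2]
    have : 0 ≤ (2 * c - s) ^ 2 / (2 * c) := by positivity
    linarith
  · unfold Gc
    rw [vc_of_le hc h1, min_eq_left h]
    simp
    linarith

/-- second order Taylor of `Gc` -/
theorem Gc_tay (hc : 0 < c) {s x : ℝ} (hx : 0 ≤ x) :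
    |x * gc c s - (Gc c (s + x) - Gc c s)| ≤ x ^ 2 / (2 * c) := by
  -- everything through `u = min · 2c` and `v`
  have key : ∀ A B : ℝ, A * (2 * c) = B → |B| ≤ x ^ 2 → |A| ≤ x ^ 2 / (2 * c) := by
    intro A B h1 h2
    rw [le_div_iff₀ (by linarith), ← abs_of_pos (show 0 < 2 * c by linarith), ← abs_mul, h1]
    exact h2
  rcases le_total (2 * c) s with h | h
  · rw [gc_of_ge hc h, Gc_of_ge hc h, Gc_of_ge hc (by linarith)]
    simp
    positivity
  rcases le_total c s with h1 | h1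
  · -- `c ≤ s ≤ 2c`
    rcases le_total (2 * c) (s + x) with h2 | h2
    · refine key _ (2 * x * (2 * c - s) - (2 * c - s) ^ 2) ?_ ?_
      · unfold gc Gc
        rw [vc_mid hc h1 h, vc_of_ge hc h2, min_eq_left h, min_eq_right h2]
        field_simp
        ring
      · rw [abs_le]
        constructor <;> nlinarith [mul_nonneg hx (show 0 ≤ 2 * c - s by linarith), sq_nonneg (x - (2 * c - s))]
    · refine key _ (x ^ 2) ?_ ?_
      · unfold gc Gc
        rw [vc_mid hc h1 h, vc_mid hc (by linarith) h2, min_eq_left h, min_eq_left h2]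
        field_simp
        ring
      · rw [abs_of_nonneg (by positivity)]
  · -- `s ≤ c`
    rcases le_total (2 * c) (s + x) with h2 | h2
    · refine key _ (2 * c * x - 3 * c ^ 2 + 2 * c * s) ?_ ?_
      · unfold gc Gc
        rw [vc_of_le hc h1, vc_of_ge hc h2, min_eq_left h, min_eq_right h2]
        field_simp
        ring
      · rw [abs_le]
        constructor
        · nlinarith [mul_nonneg hc.le (show 0 ≤ c - s by linarith), mul_nonneg hc.le hx, sq_nonneg (x - c)]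
        · nlinarith [mul_nonneg hc.le (show 0 ≤ c - s by linarith), sq_nonneg (x - c)]
    rcases le_total c (s + x) with h3 | h3
    · refine key _ ((s + x - c) ^ 2) ?_ ?_
      · unfold gc Gc
        rw [vc_of_le hc h1, vc_mid hc h3 h2, min_eq_left h, min_eq_left h2]
        field_simp
        ring
      · rw [abs_of_nonneg (by positivity)]
        nlinarith
    · unfold gc Gc
      rw [vc_of_le hc h1, vc_of_le hc h3, min_eq_left h, min_eq_left h2]
      have e : x * (1 - 0 / c) - (s + x - 0 ^ 2 / (2 * c) - (s - 0 ^ 2 / (2 * c))) = 0 := by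
        simp
      rw [e, abs_zero]
      positivity

/-! ### one block -/

/-- `(1 / M) ∑_{j ∈ [l, M)} a j` -/
def TT (M : ℕ) (a : ℕ → ℝ) (l : ℕ) : ℝ := (∑ j ∈ Ico l M, a j) / M

theorem TT_nonneg {M : ℕ} {a : ℕ → ℝ} (ha : ∀ j, 0 ≤ a j) (l : ℕ) : 0 ≤ TT M a l :=
  div_nonneg (sum_nonneg fun j _ => ha j) (Nat.cast_nonneg _)

theorem TT_succ {M : ℕ} {a : ℕ → ℝ} {l : ℕ} (hl : l < M) : TT M a l = TT M a (l + 1) + a l / M := by
  unfold TT
  rw [sum_eq_sum_Ico_succ_bot hl]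
  ring

theorem TT_anti {M : ℕ} {a : ℕ → ℝ} (ha : ∀ j, 0 ≤ a j) (l : ℕ) : TT M a l ≤ TT M a 0 := by
  unfold TT
  refine div_le_div_of_nonneg_right ?_ (Nat.cast_nonneg _)
  exact sum_le_sum_of_subset_of_nonneg (Ico_subset_Ico_left (Nat.zero_le _)) fun j _ _ => ha j

/-- the unnormalised weight -/
def QQ (c : ℝ) (M : ℕ) (a : ℕ → ℝ) : ℝ := (∑ l ∈ range M, a l * gc c (TT M a (l + 1))) / M

/-- **telescoping, every point** -/
theorem tele1 (hc : 0 < c) {M : ℕ} (hM : 0 < M) {a : ℕ → ℝ} (ha : ∀ j, 0 ≤ a j) :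
    |QQ c M a - Gc c (TT M a 0)| ≤ (∑ l ∈ range M, a l ^ 2) / (2 * c * (M : ℝ) ^ 2) := by
  have hMr : (0 : ℝ) < M := by exact_mod_cast hM
  have h0 : Gc c (TT M a 0) = ∑ l ∈ range M, (Gc c (TT M a l) - Gc c (TT M a (l + 1))) := by
    rw [sum_range_sub']
    have : TT M a M = 0 := by simp [TT]
    rw [this, Gc_zero hc, sub_zero]
  have h1 : QQ c M a - Gc c (TT M a 0) = ∑ l ∈ range M, (a l / M * gc c (TT M a (l + 1)) -
      (Gc c (TT M a (l + 1) + a l / M) - Gc c (TT M a (l + 1)))) := by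
    rw [sum_sub_distrib, h0]
    congr 1
    · unfold QQ
      rw [sum_div]
      refine sum_congr rfl fun l _ => ?_
      ring
    · refine sum_congr rfl fun l hl => ?_
      rw [← TT_succ (mem_range.1 hl)]
  rw [h1]
  refine (abs_sum_le_sum_abs _ _).trans ?_
  rw [sum_div]
  refine sum_le_sum fun l _ => ?_
  refine (Gc_tay hc (div_nonneg (ha l) hMr.le)).trans (le_of_eq ?_)
  field_simp

/-- the weight of one block -/
def RR (c : ℝ) (M : ℕ) (a : ℕ → ℝ) : ℝ := QQ c M a / (3 * c / 2)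

/-- the error of one block -/
def rr (c : ℝ) (M : ℕ) (a : ℕ → ℝ) : ℝ := (∑ l ∈ range M, a l ^ 2) / (3 * c ^ 2 * (M : ℝ) ^ 2)

theorem rr_nonneg (c : ℝ) (M : ℕ) (a : ℕ → ℝ) : 0 ≤ rr c M a := by
  unfold rr
  positivity

theorem QQ_nonneg (hc : 0 < c) {M : ℕ} {a : ℕ → ℝ} (ha : ∀ j, 0 ≤ a j) : 0 ≤ QQ c M a :=
  div_nonneg (sum_nonneg fun l _ => mul_nonneg (ha l) (gc_nonneg hc _)) (Nat.cast_nonneg _)

theorem RR_nonneg (hc : 0 < c) {M : ℕ} {a : ℕ → ℝ} (ha : ∀ j, 0 ≤ a j) : 0 ≤ RR c M a :=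
  div_nonneg (QQ_nonneg hc ha) (by positivity)

theorem RR_near (hc : 0 < c) {M : ℕ} (hM : 0 < M) {a : ℕ → ℝ} (ha : ∀ j, 0 ≤ a j) :
    |RR c M a - Gc c (TT M a 0) / (3 * c / 2)| ≤ rr c M a := by
  have h := tele1 hc hM ha
  have hMr : (0 : ℝ) < M := by exact_mod_cast hM
  unfold RR rr
  rw [← sub_div, abs_div, abs_of_pos (show 0 < 3 * c / 2 by positivity), div_le_iff₀ (by positivity)]
  refine h.trans (le_of_eq ?_)
  field_simp

theorem RR_le (hc : 0 < c) {M : ℕ} (hM : 0 < M) {a : ℕ → ℝ} (ha : ∀ j, 0 ≤ a j) : RR c M a ≤ 1 + rr c M a := by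
  have h := (abs_le.1 (RR_near hc hM ha)).2
  have h2 : Gc c (TT M a 0) / (3 * c / 2) ≤ 1 := by
    rw [div_le_one (by positivity)]
    exact Gc_le hc _
  linarith

/-- `|R - 1| ≤ ρ + 1_{T 0 < 2c}` -/
theorem RR_sub (hc : 0 < c) {M : ℕ} (hM : 0 < M) {a : ℕ → ℝ} (ha : ∀ j, 0 ≤ a j) :
    |RR c M a - 1| ≤ rr c M a + (if TT M a 0 < 2 * c then 1 else 0) := by
  have h := RR_near hc hM ha
  split_ifs with hT
  · have h1 := RR_le hc hM ha
    have h2 := RR_nonneg hc (M := M) ha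
    have h3 := rr_nonneg c M a
    rw [abs_le]
    constructor <;> linarith
  · have h4 : Gc c (TT M a 0) / (3 * c / 2) = 1 := by
      rw [Gc_of_ge hc (not_lt.1 hT)]
      exact div_self (by positivity)
    rw [h4] at h
    linarith

/-! ### several blocks -/

/-- `|∏ R - 1| ≤ ∑ bad + K (∏ (1 + ρ) - 1)` -/
theorem prod_sub {K : ℕ} {R ρ t : ℕ → ℝ} (hR : ∀ b, 0 ≤ R b) (hρ : ∀ b, 0 ≤ ρ b) (ht : ∀ b, 0 ≤ t b)
    (ht1 : ∀ b, t b ≤ 1) (h1 : ∀ b, R b ≤ 1 + ρ b) (h2 : ∀ b, |R b - 1| ≤ ρ b + t b) :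
    |∏ b ∈ range K, R b - 1| ≤ ∑ b ∈ range K, t b + K * (∏ b ∈ range K, (1 + ρ b) - 1) := by
  induction K with
  | zero => simp
  | succ K ih =>
    set P := ∏ b ∈ range K, R b with hP
    set Q := ∏ b ∈ range K, (1 + ρ b) with hQ
    have hP0 : 0 ≤ P := prod_nonneg fun b _ => hR b
    have hPQ : P ≤ Q := prod_le_prod (fun b _ => hR b) fun b _ => h1 b
    have hQ1 : 1 ≤ Q := by
      have := prod_le_prod (s := range K) (f := fun _ => (1 : ℝ)) (g := fun b => 1 + ρ b)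
        (fun _ _ => zero_le_one) fun b _ => by linarith [hρ b]
      simpa using this
    rw [prod_range_succ, prod_range_succ, sum_range_succ, ← hP, ← hQ]
    have e : P * R K - 1 = P * (R K - 1) + (P - 1) := by ring
    have h3 : |P * (R K - 1)| ≤ Q * (ρ K + t K) := by
      rw [abs_mul, abs_of_nonneg hP0]
      exact mul_le_mul hPQ (h2 K) (abs_nonneg _) (by linarith)
    have h4 : Q * (ρ K + t K) ≤ t K + (Q * (1 + ρ K) - 1) := by
      nlinarith [ht K, ht1 K, hρ K, mul_nonneg (show 0 ≤ Q - 1 by linarith) (show 0 ≤ 1 - t K by linarith [ht1 K])]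
    have h5 : (K : ℝ) * (Q - 1) ≤ K * (Q * (1 + ρ K) - 1) := by
      refine mul_le_mul_of_nonneg_left ?_ (Nat.cast_nonneg _)
      nlinarith [hρ K]
    rw [e]
    refine (abs_add_le _ _).trans ?_
    push_cast
    nlinarith

/-- the bad set of a block -/
def bad (c : ℝ) (M : ℕ) (a : ℕ → ℝ) : ℝ := if TT M a 0 < 2 * c then 1 else 0

theorem prod_rr_le {Ω : Type*} (S : Finset Ω) (p : Ω → ℝ) {K M : ℕ} (hM : 0 < M) {c C : ℝ} (hc : 0 < c)
    {a : ℕ → ℕ → Ω → ℝ}
    (hm : ∀ (B : Finset ℕ), B ⊆ range K → ∀ l : ℕ → ℕ, (∀ b, l b < M) →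
      ∑ ω ∈ S, p ω * ∏ b ∈ B, a b (l b) ω ^ 2 ≤ C) (B : Finset ℕ) (hB : B ⊆ range K) :
    ∑ ω ∈ S, p ω * ∏ b ∈ B, rr c M (fun l => a b l ω) ≤ C * (1 / (3 * c ^ 2 * M)) ^ B.card := by
  have hMr : (0 : ℝ) < M := by exact_mod_cast hM
  set q : ℝ := 1 / (3 * c ^ 2 * (M : ℝ) ^ 2) with hq
  have hq0 : 0 ≤ q := by rw [hq]; positivity
  have e1 : ∀ ω, ∏ b ∈ B, rr c M (fun l => a b l ω) =
      q ^ B.card * ∑ l ∈ B.pi (fun _ => range M), ∏ b ∈ B.attach, a b.1 (l b.1 b.2) ω ^ 2 := by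
    intro ω
    rw [← prod_sum B (fun _ => range M) (fun b l => a b l ω ^ 2), ← prod_const, ← prod_mul_distrib]
    refine prod_congr rfl fun b _ => ?_
    unfold rr
    rw [hq]
    ring
  have e2 : ∑ ω ∈ S, p ω * ∏ b ∈ B, rr c M (fun l => a b l ω) =
      q ^ B.card * ∑ l ∈ B.pi (fun _ => range M), ∑ ω ∈ S, p ω * ∏ b ∈ B.attach, a b.1 (l b.1 b.2) ω ^ 2 := by
    rw [sum_comm, mul_sum]
    refine sum_congr rfl fun ω _ => ?_
    rw [e1 ω, ← mul_sum]
    ring
  have h3 : ∀ l ∈ B.pi (fun _ => range M), ∑ ω ∈ S, p ω * ∏ b ∈ B.attach, a b.1 (l b.1 b.2) ω ^ 2 ≤ C := by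
    intro l hl
    rw [mem_pi] at hl
    set l' : ℕ → ℕ := fun b => if h : b ∈ B then l b h else 0 with hl'
    have h4 := hm B hB l' (by
      intro b
      by_cases h : b ∈ B
      · simp only [hl', h, dif_pos]
        exact mem_range.1 (hl b h)
      · simp only [hl', h, dif_neg, not_false_iff]
        exact hM)
    refine le_trans (le_of_eq (sum_congr rfl fun ω _ => ?_)) h4
    congr 1
    rw [← prod_attach B]
    refine prod_congr rfl fun b _ => ?_
    simp only [hl', b.2, dif_pos]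
  rw [e2]
  have h5 : ∑ l ∈ B.pi (fun _ => range M), ∑ ω ∈ S, p ω * ∏ b ∈ B.attach, a b.1 (l b.1 b.2) ω ^ 2 ≤
      (M : ℝ) ^ B.card * C := by
    refine (sum_le_card_nsmul _ _ _ h3).trans (le_of_eq ?_)
    rw [nsmul_eq_mul, card_pi, prod_const, card_range]
    push_cast
    ring
  calc _ ≤ q ^ B.card * ((M : ℝ) ^ B.card * C) := mul_le_mul_of_nonneg_left h5 (by positivity)
    _ = C * (q * M) ^ B.card := by rw [mul_pow]; ring
    _ = _ := by
        congr 2
        rw [hq]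
        field_simp

/-- **telescoping weights, `K` blocks** -/
theorem tele {Ω : Type*} (S : Finset Ω) (p : Ω → ℝ) (hp : ∀ ω ∈ S, 0 ≤ p ω) {K M : ℕ} (hM : 0 < M) {c C : ℝ}
    (hc : 0 < c) (hC : 0 ≤ C) {a : ℕ → ℕ → Ω → ℝ} (ha : ∀ b l ω, 0 ≤ a b l ω)
    (hm : ∀ (B : Finset ℕ), B ⊆ range K → ∀ l : ℕ → ℕ, (∀ b, l b < M) →
      ∑ ω ∈ S, p ω * ∏ b ∈ B, a b (l b) ω ^ 2 ≤ C) (hK : (K : ℝ) ≤ 3 * c ^ 2 * M) :
    ∑ ω ∈ S, p ω * |∏ b ∈ range K, RR c M (fun l => a b l ω) - 1| ≤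
      ∑ b ∈ range K, ∑ ω ∈ S, p ω * bad c M (fun l => a b l ω) + 2 * (K : ℝ) ^ 2 * C / (3 * c ^ 2 * M) := by
  have hMr : (0 : ℝ) < M := by exact_mod_cast hM
  set y : ℝ := 1 / (3 * c ^ 2 * M) with hy
  have hy0 : 0 < y := by rw [hy]; positivity
  have hKy : (K : ℝ) * y ≤ 1 := by
    rw [hy, mul_one_div, div_le_one (by positivity)]
    exact hK
  have h1 : ∀ ω ∈ S, p ω * |∏ b ∈ range K, RR c M (fun l => a b l ω) - 1| ≤
      ∑ b ∈ range K, p ω * bad c M (fun l => a b l ω) +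
        K * (p ω * (∏ b ∈ range K, (1 + rr c M (fun l => a b l ω)) - 1)) := by
    intro ω hω
    have h2 := prod_sub (K := K) (R := fun b => RR c M (fun l => a b l ω))
      (ρ := fun b => rr c M (fun l => a b l ω)) (t := fun b => bad c M (fun l => a b l ω))
      (fun b => RR_nonneg hc fun l => ha b l ω) (fun b => rr_nonneg _ _ _)
      (fun b => by unfold bad; split_ifs <;> norm_num) (fun b => by unfold bad; split_ifs <;> norm_num)
      (fun b => RR_le hc hM fun l => ha b l ω) (fun b => RR_sub hc hM fun l => ha b l ω)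
    have h3 := mul_le_mul_of_nonneg_left h2 (hp ω hω)
    refine h3.trans (le_of_eq ?_)
    rw [mul_add, mul_sum]
    ring
  refine (sum_le_sum h1).trans ?_
  rw [sum_add_distrib, sum_comm]
  refine add_le_add le_rfl ?_
  rw [← mul_sum]
  -- expansion of the product
  have h4 : ∑ ω ∈ S, p ω * (∏ b ∈ range K, (1 + rr c M (fun l => a b l ω)) - 1) =
      ∑ B ∈ (range K).powerset.erase ∅, ∑ ω ∈ S, p ω * ∏ b ∈ B, rr c M (fun l => a b l ω) := by
    rw [sum_comm]
    refine sum_congr rfl fun ω _ => ?_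
    have e : ∏ b ∈ range K, (1 + rr c M (fun l => a b l ω)) =
        ∑ B ∈ (range K).powerset, ∏ b ∈ B, rr c M (fun l => a b l ω) := by
      rw [prod_one_add]
    rw [e, ← add_sum_erase _ _ (empty_mem_powerset (range K)), prod_empty, add_sub_cancel_left, mul_sum]
  have h5 : ∑ B ∈ (range K).powerset.erase ∅, ∑ ω ∈ S, p ω * ∏ b ∈ B, rr c M (fun l => a b l ω) ≤
      ∑ B ∈ (range K).powerset.erase ∅, C * y ^ B.card := by
    refine sum_le_sum fun B hB => ?_
    exact prod_rr_le S p hM hc hm B (mem_powerset.1 (mem_of_mem_erase hB))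
  have h6 : ∑ B ∈ (range K).powerset.erase ∅, C * y ^ B.card = C * ((1 + y) ^ K - 1) := by
    rw [← mul_sum]
    congr 1
    have e : (1 + y) ^ K = ∑ B ∈ (range K).powerset, y ^ B.card := by
      have := prod_one_add (s := range K) (f := fun _ => y)
      rw [prod_const, card_range] at this
      rw [this]
      refine sum_congr rfl fun B _ => ?_
      rw [prod_const]
    rw [e, ← add_sum_erase _ _ (empty_mem_powerset (range K)), card_empty, pow_zero, add_sub_cancel_left]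
  have h7 : (1 + y) ^ K - 1 ≤ 2 * (K * y) := by
    have h8 : (1 + y) ^ K ≤ Real.exp (K * y) := by
      rw [Real.exp_nat_mul]
      refine pow_le_pow_left₀ (by positivity) ?_ K
      have := Real.add_one_le_exp y
      linarith
    have h9 := Real.abs_exp_sub_one_le (x := K * y) (by
      rw [abs_of_nonneg (by positivity)]
      exact hKy)
    rw [abs_of_nonneg (show 0 ≤ (K : ℝ) * y by positivity)] at h9
    have := (abs_le.1 h9).2
    linarith
  calc (K : ℝ) * ∑ ω ∈ S, p ω * (∏ b ∈ range K, (1 + rr c M (fun l => a b l ω)) - 1)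
      ≤ K * (C * (2 * (K * y))) := by
        rw [h4]
        refine mul_le_mul_of_nonneg_left (h5.trans ?_) (Nat.cast_nonneg _)
        rw [h6]
        exact mul_le_mul_of_nonneg_left h7 hC
    _ = _ := by
        rw [hy]
        ring

/-- **the total is not small** -/
theorem tele_low {Ω : Type*} (S : Finset Ω) (p : Ω → ℝ) (hp : ∀ ω ∈ S, 0 ≤ p ω) (hp1 : ∑ ω ∈ S, p ω ≤ 1) {M : ℕ}
    (hM : 0 < M) {c C κ ε : ℝ} (hc : 0 < c) (hκ : 0 < κ) {a : ℕ → Ω → ℝ} (ha : ∀ l ω, 0 ≤ a l ω)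
    (hm : ∀ l < M, ∑ ω ∈ S, p ω * a l ω ^ 2 ≤ C)
    (hlow : ∀ l < M, κ * (∑ ω ∈ S, p ω * (if TT M (fun j => a j ω) (l + 1) ≤ c then 1 else 0) - ε) ≤
      ∑ ω ∈ S, p ω * (a l ω * gc c (TT M (fun j => a j ω) (l + 1)))) :
    ∑ ω ∈ S, p ω * (if TT M (fun j => a j ω) 0 < c then 1 else 0) ≤ ε + (3 * c / 2 + C / (2 * c * M)) / κ := by
  have hMr : (0 : ℝ) < M := by exact_mod_cast hM
  set q := ∑ ω ∈ S, p ω * (if TT M (fun j => a j ω) 0 < c then (1 : ℝ) else 0) with hq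
  -- lower bound
  have h1 : κ * (q - ε) ≤ ∑ ω ∈ S, p ω * QQ c M (fun l => a l ω) := by
    have h2 : ∀ l ∈ range M, κ * (q - ε) ≤ ∑ ω ∈ S, p ω * (a l ω * gc c (TT M (fun j => a j ω) (l + 1))) := by
      intro l hl
      refine le_trans ?_ (hlow l (mem_range.1 hl))
      refine mul_le_mul_of_nonneg_left (sub_le_sub_right (sum_le_sum fun ω hω => ?_) _) hκ.le
      refine mul_le_mul_of_nonneg_left ?_ (hp ω hω)
      have h3 := TT_anti (M := M) (a := fun j => a j ω) (fun j => ha j ω) (l + 1)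
      split_ifs with h4 h5 h5
      · exact le_rfl
      · exact absurd (h3.trans h4.le) h5
      · norm_num
      · exact le_rfl
    have h3 : (M : ℝ) * (κ * (q - ε)) ≤
        ∑ l ∈ range M, ∑ ω ∈ S, p ω * (a l ω * gc c (TT M (fun j => a j ω) (l + 1))) := by
      have := card_nsmul_le_sum (range M) _ _ h2
      rwa [card_range, nsmul_eq_mul] at this
    have h4 : ∑ ω ∈ S, p ω * QQ c M (fun l => a l ω) =
        (∑ l ∈ range M, ∑ ω ∈ S, p ω * (a l ω * gc c (TT M (fun j => a j ω) (l + 1)))) / M := by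
      rw [sum_comm, sum_div]
      refine sum_congr rfl fun ω _ => ?_
      unfold QQ
      rw [← mul_sum]
      ring
    rw [h4, le_div_iff₀ hMr]
    linarith
  -- upper bound
  have h5 : ∑ ω ∈ S, p ω * QQ c M (fun l => a l ω) ≤ 3 * c / 2 + C / (2 * c * M) := by
    have h6 : ∀ ω ∈ S, p ω * QQ c M (fun l => a l ω) ≤
        p ω * (3 * c / 2) + (∑ l ∈ range M, p ω * a l ω ^ 2) / (2 * c * (M : ℝ) ^ 2) := by
      intro ω hω
      have h7 := (abs_le.1 (tele1 hc hM (a := fun l => a l ω) fun l => ha l ω)).2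
      have h8 := Gc_le hc (TT M (fun l => a l ω) 0)
      have h9 : QQ c M (fun l => a l ω) ≤ 3 * c / 2 + (∑ l ∈ range M, a l ω ^ 2) / (2 * c * (M : ℝ) ^ 2) := by
        linarith
      refine (mul_le_mul_of_nonneg_left h9 (hp ω hω)).trans (le_of_eq ?_)
      rw [mul_add, ← mul_sum]
      ring
    refine (sum_le_sum h6).trans ?_
    rw [sum_add_distrib, ← sum_mul, ← sum_div, sum_comm]
    refine add_le_add ?_ ?_
    · calc _ ≤ 1 * (3 * c / 2) := mul_le_mul_of_nonneg_right hp1 (by positivity)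
        _ = _ := one_mul _
    · have h10 : ∑ l ∈ range M, ∑ ω ∈ S, p ω * a l ω ^ 2 ≤ M * C := by
        have := sum_le_card_nsmul (range M) _ C fun l hl => hm l (mem_range.1 hl)
        rwa [card_range, nsmul_eq_mul] at this
      calc _ ≤ (M * C) / (2 * c * (M : ℝ) ^ 2) := div_le_div_of_nonneg_right h10 (by positivity)
        _ = _ := by field_simp
  have h11 : q - ε ≤ (3 * c / 2 + C / (2 * c * M)) / κ := by
    rw [le_div_iff₀ hκ]
    linarith
  linarith

end SLW
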