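import Mathlib

/-!
# SLW/TeleB (helper62): the telescoping weight of one block of levels

`Z i` (`i < M`, from the far level to the near level) are nonnegative functions on a finite weighted set,
`s i = (1/M) ∑_{j < i} Z j`, `ramp c` is `1` on `[0, c]`, `0` beyond `2 c`, and

`R = (1 / (rI c * M)) * ∑_{i < M} Z i * ramp c (s i)`,   `rI c = ∫_0^{2c} ramp c`.

`R` is `1 + O(1/M)` where `s M ≥ 2 c` (`R_sub_one`), the set `s M < 2 c` has small weight when near every level the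
weight of `nice` is controlled by `Z` (`tail_le`), and two weighted sets for which all the
`∑ p F Z_i ramp (s_i)` agree have nearly the same `∑ p F` (`tele`, `tele_main`).
-/

open Finset
open scoped BigOperators

namespace HexObs

namespace SLW

namespace TB

/-- the ramp: `1` on `[0, c]`, `0` beyond `2 c` -/
noncomputable def ramp (c x : ℝ) : ℝ := max 0 (min 1 (2 - x / c))

theorem ramp_nonneg (c x : ℝ) : 0 ≤ ramp c x := le_max_left _ _

theorem ramp_le_one (c x : ℝ) : ramp c x ≤ 1 := max_le zero_le_one (min_le_left _ _)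

theorem ramp_abs_le (c x : ℝ) : |ramp c x| ≤ 1 := by
  rw [abs_of_nonneg (ramp_nonneg c x)]; exact ramp_le_one c x

theorem ramp_of_le {c x : ℝ} (hc : 0 < c) (hx : x ≤ c) : ramp c x = 1 := by
  unfold ramp
  have h : x / c ≤ 1 := (div_le_one hc).2 hx
  rw [min_eq_left (by linarith), max_eq_right zero_le_one]

theorem ramp_of_ge {c x : ℝ} (hc : 0 < c) (hx : 2 * c ≤ x) : ramp c x = 0 := by
  unfold ramp
  have h : 2 ≤ x / c := by rw [le_div_iff₀ hc]; exact hx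
  rw [max_eq_left]
  exact le_trans (min_le_right _ _) (by linarith)

theorem ramp_lip {c : ℝ} (hc : 0 < c) (x y : ℝ) : |ramp c x - ramp c y| ≤ |x - y| / c := by
  unfold ramp
  have h1 : |max 0 (min 1 (2 - x / c)) - max 0 (min 1 (2 - y / c))| ≤ |min 1 (2 - x / c) - min 1 (2 - y / c)| := by
    have := abs_max_sub_max_le_max (0:ℝ) (min 1 (2 - x / c)) 0 (min 1 (2 - y / c))
    simpa using this
  have h2 : |min 1 (2 - x / c) - min 1 (2 - y / c)| ≤ |(2 - x / c) - (2 - y / c)| := by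
    have := abs_min_sub_min_le_max (1:ℝ) (2 - x / c) 1 (2 - y / c)
    simpa using this
  have h3 : |(2 - x / c) - (2 - y / c)| = |x - y| / c := by
    have : (2 - x / c) - (2 - y / c) = -((x - y) / c) := by ring
    rw [this, abs_neg, abs_div, abs_of_pos hc]
  linarith

theorem ramp_cont (c : ℝ) : Continuous (ramp c) := by
  unfold ramp; fun_prop

theorem ramp_int (c a b : ℝ) : IntervalIntegrable (ramp c) MeasureTheory.volume a b :=
  (ramp_cont c).intervalIntegrable a b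

/-- the integral of the ramp -/
noncomputable def rI (c : ℝ) : ℝ := ∫ y in (0:ℝ)..(2 * c), ramp c y

theorem le_rI {c : ℝ} (hc : 0 < c) : c ≤ rI c := by
  unfold rI
  rw [← intervalIntegral.integral_add_adjacent_intervals (ramp_int c 0 c) (ramp_int c c (2 * c))]
  have h1 : (∫ y in (0:ℝ)..c, ramp c y) = c := by
    have : (∫ y in (0:ℝ)..c, ramp c y) = ∫ y in (0:ℝ)..c, (1:ℝ) := by
      apply intervalIntegral.integral_congr
      intro y hy
      rw [Set.uIcc_of_le hc.le] at hy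
      exact ramp_of_le hc hy.2
    rw [this]; simp
  have h2 : 0 ≤ ∫ y in c..(2 * c), ramp c y :=
    intervalIntegral.integral_nonneg (by linarith) fun y _ => ramp_nonneg c y
  linarith

theorem rI_le {c : ℝ} (hc : 0 < c) : rI c ≤ 2 * c := by
  unfold rI
  have h := intervalIntegral.integral_mono_on (a := (0:ℝ)) (b := 2 * c) (by linarith) (ramp_int c 0 (2 * c))
    (intervalIntegrable_const (c := (1:ℝ)) (μ := MeasureTheory.volume)) fun y _ => ramp_le_one c y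
  simpa using h

theorem rI_pos {c : ℝ} (hc : 0 < c) : 0 < rI c := lt_of_lt_of_le hc (le_rI hc)

/-- the primitive of the ramp -/
noncomputable def rG (c x : ℝ) : ℝ := ∫ y in (0:ℝ)..x, ramp c y

theorem rG_zero (c : ℝ) : rG c 0 = 0 := by simp [rG]

theorem rG_sub (c a b : ℝ) : rG c b - rG c a = ∫ y in a..b, ramp c y := by
  unfold rG
  rw [intervalIntegral.integral_interval_sub_left (ramp_int c 0 b) (ramp_int c 0 a)]

theorem rG_of_ge {c x : ℝ} (hc : 0 < c) (hx : 2 * c ≤ x) : rG c x = rI c := by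
  have h := rG_sub c (2 * c) x
  have h0 : (∫ y in (2 * c)..x, ramp c y) = 0 := by
    have : (∫ y in (2 * c)..x, ramp c y) = ∫ y in (2 * c)..x, (0:ℝ) := by
      apply intervalIntegral.integral_congr
      intro y hy
      rw [Set.uIcc_of_le hx] at hy
      exact ramp_of_ge hc hy.1
    rw [this]; simp
  have : rG c (2 * c) = rI c := rfl
  linarith

theorem rG_nonneg {c x : ℝ} (hx : 0 ≤ x) : 0 ≤ rG c x :=
  intervalIntegral.integral_nonneg hx fun y _ => ramp_nonneg c y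

theorem rG_mono {c a b : ℝ} (hab : a ≤ b) : rG c a ≤ rG c b := by
  have h := rG_sub c a b
  have h2 : 0 ≤ ∫ y in a..b, ramp c y := intervalIntegral.integral_nonneg hab fun y _ => ramp_nonneg c y
  linarith

theorem rG_le {c : ℝ} (hc : 0 < c) (x : ℝ) : rG c x ≤ rI c := by
  rcases le_total x (2 * c) with h | h
  · exact (rG_mono h)
  · exact (rG_of_ge hc h).le

/-- one step of the Riemann sum -/
theorem rG_step {c : ℝ} (hc : 0 < c) {a b : ℝ} (hab : a ≤ b) :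
    |(b - a) * ramp c a - (rG c b - rG c a)| ≤ (b - a) ^ 2 / c := by
  rw [rG_sub]
  have h1 : (b - a) * ramp c a = ∫ _ in a..b, ramp c a := by
    rw [intervalIntegral.integral_const, smul_eq_mul]
  rw [h1, ← intervalIntegral.integral_sub intervalIntegrable_const (ramp_int c a b)]
  have h2 : ‖∫ y in a..b, (ramp c a - ramp c y)‖ ≤ ((b - a) / c) * |b - a| := by
    apply intervalIntegral.norm_integral_le_of_norm_le_const
    intro y hy
    rw [Set.uIoc_of_le hab] at hy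
    rw [Real.norm_eq_abs]
    refine le_trans (ramp_lip hc a y) ?_
    have : |a - y| ≤ b - a := by
      rw [abs_sub_comm, abs_of_nonneg (by linarith [hy.1])]
      linarith [hy.2]
    gcongr
  rw [Real.norm_eq_abs, abs_of_nonneg (by linarith : 0 ≤ b - a)] at h2
  calc _ ≤ (b - a) / c * (b - a) := h2
    _ = (b - a) ^ 2 / c := by ring

/-- the Riemann sum -/
theorem riemann {c : ℝ} (hc : 0 < c) (s : ℕ → ℝ) (h0 : s 0 = 0) (M : ℕ) (hs : ∀ i < M, s i ≤ s (i + 1)) :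
    |∑ i ∈ range M, (s (i + 1) - s i) * ramp c (s i) - rG c (s M)| ≤ ∑ i ∈ range M, (s (i + 1) - s i) ^ 2 / c := by
  have h1 : rG c (s M) = ∑ i ∈ range M, (rG c (s (i + 1)) - rG c (s i)) := by
    rw [Finset.sum_range_sub (fun i => rG c (s i)) M, h0, rG_zero, sub_zero]
  rw [h1, ← Finset.sum_sub_distrib]
  refine le_trans (Finset.abs_sum_le_sum_abs _ _) (Finset.sum_le_sum fun i hi => ?_)
  exact rG_step hc (hs i (mem_range.1 hi))

/-! ### functions on a set -/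

variable {α : Type*}

/-- the normalised sum over the farther levels -/
noncomputable def sfar (M : ℕ) (Z : ℕ → α → ℝ) (i : ℕ) (t : α) : ℝ := (∑ j ∈ range i, Z j t) / M

theorem sfar_zero (M : ℕ) (Z : ℕ → α → ℝ) (t : α) : sfar M Z 0 t = 0 := by simp [sfar]

theorem sfar_succ (M : ℕ) (Z : ℕ → α → ℝ) (i : ℕ) (t : α) : sfar M Z (i + 1) t - sfar M Z i t = Z i t / M := by
  unfold sfar; rw [Finset.sum_range_succ]; ring

theorem sfar_nonneg {M : ℕ} {Z : ℕ → α → ℝ} {t : α} (hZ : ∀ i < M, 0 ≤ Z i t) {i : ℕ} (hi : i ≤ M) :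
    0 ≤ sfar M Z i t :=
  div_nonneg (Finset.sum_nonneg fun j hj => hZ j (lt_of_lt_of_le (mem_range.1 hj) hi)) (Nat.cast_nonneg _)

theorem sfar_step {M : ℕ} {Z : ℕ → α → ℝ} {t : α} (hZ : ∀ i < M, 0 ≤ Z i t) {i : ℕ} (hi : i < M) :
    sfar M Z i t ≤ sfar M Z (i + 1) t := by
  have h := sfar_succ M Z i t
  have : 0 ≤ Z i t / M := div_nonneg (hZ i hi) (Nat.cast_nonneg _)
  linarith

theorem sfar_mono {M : ℕ} {Z : ℕ → α → ℝ} {t : α} (hZ : ∀ i < M, 0 ≤ Z i t) {i k : ℕ} (hik : i ≤ k) (hk : k ≤ M) :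
    sfar M Z i t ≤ sfar M Z k t := by
  unfold sfar
  refine div_le_div_of_nonneg_right ?_ (Nat.cast_nonneg _)
  refine Finset.sum_le_sum_of_subset_of_nonneg (Finset.range_mono hik) fun j hj _ => ?_
  exact hZ j (lt_of_lt_of_le (mem_range.1 hj) hk)

/-- the weight `R` of one block -/
noncomputable def RW (c : ℝ) (M : ℕ) (Z : ℕ → α → ℝ) (t : α) : ℝ :=
  (∑ i ∈ range M, Z i t * ramp c (sfar M Z i t)) / (rI c * M)

theorem RW_nonneg {c : ℝ} (hc : 0 < c) {M : ℕ} {Z : ℕ → α → ℝ} {t : α} (hZ : ∀ i < M, 0 ≤ Z i t) : 0 ≤ RW c M Z t :=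
  div_nonneg (Finset.sum_nonneg fun i hi => mul_nonneg (hZ i (mem_range.1 hi)) (ramp_nonneg _ _))
    (mul_nonneg (rI_pos hc).le (Nat.cast_nonneg _))

/-- the sum with `Z` against the primitive -/
theorem RW_rG {c : ℝ} (hc : 0 < c) {M : ℕ} (hM : 0 < M) {Z : ℕ → α → ℝ} {t : α} (hZ : ∀ i < M, 0 ≤ Z i t) :
    |(∑ i ∈ range M, Z i t * ramp c (sfar M Z i t)) / M - rG c (sfar M Z M t)| ≤
      (∑ i ∈ range M, Z i t ^ 2) / (c * M ^ 2) := by
  have hM' : (0:ℝ) < M := by exact_mod_cast hM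
  have h := riemann hc (fun i => sfar M Z i t) (sfar_zero M Z t) M fun i hi => sfar_step hZ hi
  simp only [sfar_succ] at h
  have e1 : ∑ i ∈ range M, Z i t / M * ramp c (sfar M Z i t) = (∑ i ∈ range M, Z i t * ramp c (sfar M Z i t)) / M := by
    rw [Finset.sum_div]; exact Finset.sum_congr rfl fun i _ => by ring
  have e2 : ∑ i ∈ range M, (Z i t / M) ^ 2 / c = (∑ i ∈ range M, Z i t ^ 2) / (c * M ^ 2) := by
    rw [Finset.sum_div]; exact Finset.sum_congr rfl fun i _ => by field_simp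
  rw [e1, e2] at h
  exact h

open Classical in
/-- `R` is `1` up to the squares where the sum of the levels is at least `2 c` -/
theorem RW_sub_one {c : ℝ} (hc : 0 < c) {M : ℕ} (hM : 0 < M) {Z : ℕ → α → ℝ} {t : α} (hZ : ∀ i < M, 0 ≤ Z i t) :
    |RW c M Z t - 1| ≤ (if sfar M Z M t < 2 * c then 1 else 0) + (∑ i ∈ range M, Z i t ^ 2) / (c ^ 2 * M ^ 2) := by
  have hM' : (0:ℝ) < M := by exact_mod_cast hM
  have hI := rI_pos hc
  have h := RW_rG hc hM hZ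
  set A := (∑ i ∈ range M, Z i t * ramp c (sfar M Z i t)) / (M:ℝ) with hA
  have e1 : RW c M Z t = A / rI c := by
    rw [hA]; unfold RW; rw [div_div, mul_comm (rI c)]
  have h1 : |A / rI c - rG c (sfar M Z M t) / rI c| ≤ (∑ i ∈ range M, Z i t ^ 2) / (c ^ 2 * M ^ 2) := by
    rw [← sub_div, abs_div, abs_of_pos hI]
    calc _ ≤ ((∑ i ∈ range M, Z i t ^ 2) / (c * M ^ 2)) / c := by
          apply div_le_div₀ (by positivity) h hc (le_rI hc)
      _ = _ := by field_simp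
  have h2 : |rG c (sfar M Z M t) / rI c - 1| ≤ (if sfar M Z M t < 2 * c then 1 else 0) := by
    by_cases hs : sfar M Z M t < 2 * c
    · rw [if_pos hs]
      have h3 : 0 ≤ rG c (sfar M Z M t) / rI c := div_nonneg (rG_nonneg (sfar_nonneg hZ le_rfl)) hI.le
      have h4 : rG c (sfar M Z M t) / rI c ≤ 1 := (div_le_one hI).2 (rG_le hc _)
      rw [abs_le]; constructor <;> linarith
    · rw [if_neg hs, rG_of_ge hc (not_lt.1 hs), div_self hI.ne']; simp
  rw [e1]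
  calc |A / rI c - 1| ≤ |A / rI c - rG c (sfar M Z M t) / rI c| + |rG c (sfar M Z M t) / rI c - 1| := abs_sub_le _ _ _
    _ ≤ _ := by linarith

/-! ### weighted sets -/

open Classical in
/-- the lower tail of the sum over the levels -/
theorem tail_le (S : Finset α) (p : α → ℝ) (hp : ∀ t ∈ S, 0 ≤ p t) {c : ℝ} (hc : 0 < c) {M : ℕ} (hM : 0 < M)
    {Z : ℕ → α → ℝ} (hZ : ∀ t ∈ S, ∀ i < M, 0 ≤ Z i t) (q : ℕ → α → ℝ) (hq0 : ∀ t ∈ S, ∀ i < M, 0 ≤ q i t)
    {m0 C1 C2 ε e : ℝ} (hC1 : 0 ≤ C1) (hm : ∑ t ∈ S, p t ≤ m0)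
    (h2 : ∀ i < M, ∑ t ∈ S, p t * Z i t ^ 2 ≤ C2)
    (hn : ∀ i < M, ∑ t ∈ S, p t * (1 - q i t) ≤ ε)
    (hq1 : ∀ t ∈ S, ∀ i < M, q i t ≤ 1)
    (hd : ∀ i < M, ∑ t ∈ S, p t * (q i t * ramp (2 * c) (sfar M Z i t)) ≤
      C1 * ∑ t ∈ S, p t * (Z i t * ramp (2 * c) (sfar M Z i t)) + e) :
    ∑ t ∈ S, p t * (if sfar M Z M t < 2 * c then 1 else 0) ≤ C1 * (4 * c * m0 + C2 / (2 * c * M)) + e + ε := by
  have hM' : (0:ℝ) < M := by exact_mod_cast hM
  set P := ∑ t ∈ S, p t * (if sfar M Z M t < 2 * c then (1:ℝ) else 0) with hP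
  -- every level
  have h1 : ∀ i < M, P ≤ C1 * ∑ t ∈ S, p t * (Z i t * ramp (2 * c) (sfar M Z i t)) + e + ε := by
    intro i hi
    have h3 : P ≤ ∑ t ∈ S, p t * (q i t * ramp (2 * c) (sfar M Z i t)) + ∑ t ∈ S, p t * (1 - q i t) := by
      rw [hP, ← Finset.sum_add_distrib]
      refine Finset.sum_le_sum fun t ht => ?_
      rw [← mul_add]
      refine mul_le_mul_of_nonneg_left ?_ (hp t ht)
      have hr0 := ramp_nonneg (2 * c) (sfar M Z i t)
      have hq0' := hq0 t ht i hi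
      have hq1' := hq1 t ht i hi
      by_cases hs : sfar M Z M t < 2 * c
      · rw [if_pos hs]
        have : sfar M Z i t ≤ 2 * c := le_trans (sfar_mono (hZ t ht) hi.le le_rfl) hs.le
        rw [ramp_of_le (by linarith) this]; linarith
      · rw [if_neg hs]
        have : 0 ≤ q i t * ramp (2 * c) (sfar M Z i t) := mul_nonneg hq0' hr0
        linarith
    have := hd i hi
    have := hn i hi
    linarith
  -- average
  have h2' : (M:ℝ) * P ≤ C1 * ∑ i ∈ range M, ∑ t ∈ S, p t * (Z i t * ramp (2 * c) (sfar M Z i t)) + M * e + M * ε := by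
    have : ∑ _i ∈ range M, P ≤ ∑ i ∈ range M, (C1 * ∑ t ∈ S, p t * (Z i t * ramp (2 * c) (sfar M Z i t)) + e + ε) :=
      Finset.sum_le_sum fun i hi => h1 i (mem_range.1 hi)
    rw [Finset.sum_const, card_range, nsmul_eq_mul, Finset.sum_add_distrib, Finset.sum_add_distrib, Finset.sum_const,
      Finset.sum_const, card_range, nsmul_eq_mul, nsmul_eq_mul, ← Finset.mul_sum] at this
    exact this
  -- the sum over the levels
  have h4 : ∑ i ∈ range M, ∑ t ∈ S, p t * (Z i t * ramp (2 * c) (sfar M Z i t)) ≤ M * (4 * c * m0 + C2 / (2 * c * M)) := by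
    rw [Finset.sum_comm]
    have h5 : ∀ t ∈ S, ∑ i ∈ range M, p t * (Z i t * ramp (2 * c) (sfar M Z i t)) ≤
        p t * (M * (4 * c)) + (∑ i ∈ range M, p t * Z i t ^ 2) / (2 * c * M) := by
      intro t ht
      have h6 := RW_rG (c := 2 * c) (by linarith) hM (hZ t ht)
      have h7 := rG_le (c := 2 * c) (by linarith) (sfar M Z M t)
      have h8 := rI_le (c := 2 * c) (by linarith)
      have h9 := (abs_le.1 h6).2
      rw [← Finset.mul_sum, ← Finset.mul_sum]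
      have h10 : (∑ i ∈ range M, Z i t * ramp (2 * c) (sfar M Z i t)) ≤
          M * (4 * c) + (∑ i ∈ range M, Z i t ^ 2) / (2 * c * M) := by
        have h11 : (∑ i ∈ range M, Z i t * ramp (2 * c) (sfar M Z i t)) / M ≤ 4 * c + (∑ i ∈ range M, Z i t ^ 2) / (2 * c * M ^ 2) := by
          linarith
        rw [div_le_iff₀ hM'] at h11
        refine le_trans h11 (le_of_eq ?_)
        field_simp
      calc _ ≤ p t * (M * (4 * c) + (∑ i ∈ range M, Z i t ^ 2) / (2 * c * M)) := mul_le_mul_of_nonneg_left h10 (hp t ht)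
        _ = _ := by ring
    refine le_trans (Finset.sum_le_sum h5) ?_
    rw [Finset.sum_add_distrib, ← Finset.sum_mul, ← Finset.sum_div, Finset.sum_comm]
    have h6 : ∑ i ∈ range M, ∑ t ∈ S, p t * Z i t ^ 2 ≤ M * C2 := by
      have : ∑ i ∈ range M, ∑ t ∈ S, p t * Z i t ^ 2 ≤ ∑ _i ∈ range M, C2 :=
        Finset.sum_le_sum fun i hi => h2 i (mem_range.1 hi)
      simpa using this
    have h7 : (∑ t ∈ S, p t) * (M * (4 * c)) ≤ m0 * (M * (4 * c)) := mul_le_mul_of_nonneg_right hm (by positivity)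
    have h8 : (∑ i ∈ range M, ∑ t ∈ S, p t * Z i t ^ 2) / (2 * c * M) ≤ (M * C2) / (2 * c * M) :=
      div_le_div_of_nonneg_right h6 (by positivity)
    calc _ ≤ m0 * (M * (4 * c)) + (M * C2) / (2 * c * M) := by linarith
      _ = _ := by ring
  have h5 : (M:ℝ) * P ≤ M * (C1 * (4 * c * m0 + C2 / (2 * c * M)) + e + ε) := by
    have := mul_le_mul_of_nonneg_left h4 hC1
    calc _ ≤ C1 * (M * (4 * c * m0 + C2 / (2 * c * M))) + M * e + M * ε := by linarith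
      _ = _ := by ring
  exact le_of_mul_le_mul_left h5 hM'

/-- the mean of `|R - 1|` -/
theorem mean_R (S : Finset α) (p : α → ℝ) (hp : ∀ t ∈ S, 0 ≤ p t) {c : ℝ} (hc : 0 < c) {M : ℕ} (hM : 0 < M)
    {Z : ℕ → α → ℝ} (hZ : ∀ t ∈ S, ∀ i < M, 0 ≤ Z i t) (q : ℕ → α → ℝ) (hq0 : ∀ t ∈ S, ∀ i < M, 0 ≤ q i t)
    {m0 C1 C2 ε e : ℝ} (hC1 : 0 ≤ C1) (hm : ∑ t ∈ S, p t ≤ m0)
    (h2 : ∀ i < M, ∑ t ∈ S, p t * Z i t ^ 2 ≤ C2)
    (hn : ∀ i < M, ∑ t ∈ S, p t * (1 - q i t) ≤ ε)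
    (hq1 : ∀ t ∈ S, ∀ i < M, q i t ≤ 1)
    (hd : ∀ i < M, ∑ t ∈ S, p t * (q i t * ramp (2 * c) (sfar M Z i t)) ≤
      C1 * ∑ t ∈ S, p t * (Z i t * ramp (2 * c) (sfar M Z i t)) + e) :
    ∑ t ∈ S, p t * |RW c M Z t - 1| ≤
      C1 * (4 * c * m0 + C2 / (2 * c * M)) + e + ε + C2 / (c ^ 2 * M) := by
  classical
  have hM' : (0:ℝ) < M := by exact_mod_cast hM
  have ht := tail_le S p hp hc hM hZ q hq0 hC1 hm h2 hn hq1 hd
  have h1 : ∑ t ∈ S, p t * |RW c M Z t - 1| ≤ ∑ t ∈ S, p t * (if sfar M Z M t < 2 * c then 1 else 0) +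
      (∑ i ∈ range M, ∑ t ∈ S, p t * Z i t ^ 2) / (c ^ 2 * M ^ 2) := by
    rw [Finset.sum_comm, Finset.sum_div, ← Finset.sum_add_distrib]
    refine Finset.sum_le_sum fun t ht => ?_
    rw [← Finset.mul_sum, mul_div_assoc, ← mul_add]
    exact mul_le_mul_of_nonneg_left (RW_sub_one hc hM (hZ t ht)) (hp t ht)
  have h6 : ∑ i ∈ range M, ∑ t ∈ S, p t * Z i t ^ 2 ≤ M * C2 := by
    have : ∑ i ∈ range M, ∑ t ∈ S, p t * Z i t ^ 2 ≤ ∑ _i ∈ range M, C2 :=
      Finset.sum_le_sum fun i hi => h2 i (mem_range.1 hi)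
    simpa using this
  have h8 : (∑ i ∈ range M, ∑ t ∈ S, p t * Z i t ^ 2) / (c ^ 2 * M ^ 2) ≤ (M * C2) / (c ^ 2 * M ^ 2) :=
    div_le_div_of_nonneg_right h6 (by positivity)
  have h9 : ((M:ℝ) * C2) / (c ^ 2 * M ^ 2) = C2 / (c ^ 2 * M) := by field_simp
  linarith

theorem diff_R (T : Finset α) (w : α → ℝ) {c : ℝ} {M : ℕ} (Y : ℕ → α → ℝ) (G : α → ℝ) {δ : ℝ}
    (hw : ∀ t ∈ T, 0 ≤ w t) (hG : ∀ t ∈ T, |G t| ≤ 1) (h : ∑ t ∈ T, w t * |RW c M Y t - 1| ≤ δ) :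
    |∑ t ∈ T, w t * G t - ∑ t ∈ T, w t * (G t * RW c M Y t)| ≤ δ := by
  rw [← Finset.sum_sub_distrib]
  refine le_trans (Finset.abs_sum_le_sum_abs _ _) (le_trans (Finset.sum_le_sum fun t ht => ?_) h)
  have e1 : w t * G t - w t * (G t * RW c M Y t) = -(w t * (G t * (RW c M Y t - 1))) := by ring
  rw [e1, abs_neg, abs_mul, abs_mul, abs_of_nonneg (hw t ht)]
  refine mul_le_mul_of_nonneg_left ?_ (hw t ht)
  calc _ ≤ 1 * |RW c M Y t - 1| := mul_le_mul_of_nonneg_right (hG t ht) (abs_nonneg _)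
    _ = _ := one_mul _

theorem exp_R (T : Finset α) (w : α → ℝ) (c : ℝ) (M : ℕ) (Y : ℕ → α → ℝ) (G : α → ℝ) :
    ∑ t ∈ T, w t * (G t * RW c M Y t) =
      (∑ i ∈ range M, ∑ t ∈ T, w t * (G t * (Y i t * ramp c (sfar M Y i t)))) / (rI c * M) := by
  rw [Finset.sum_comm, Finset.sum_div]
  refine Finset.sum_congr rfl fun t _ => ?_
  unfold RW
  rw [← Finset.mul_sum, ← Finset.mul_sum]
  ring

/-- two weighted sets for which the sums with `Z i * ramp (s i)` agree -/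
theorem tele {β : Type*} (S : Finset α) (p : α → ℝ) (S' : Finset β) (p' : β → ℝ) (hp : ∀ t ∈ S, 0 ≤ p t)
    (hp' : ∀ t ∈ S', 0 ≤ p' t) {c : ℝ} (hc : 0 < c) {M : ℕ} (hM : 0 < M) (Z : ℕ → α → ℝ) (Z' : ℕ → β → ℝ)
    (F : α → ℝ) (F' : β → ℝ) (hF : ∀ t ∈ S, |F t| ≤ 1) (hF' : ∀ t ∈ S', |F' t| ≤ 1) {δ e : ℝ}
    (hR : ∑ t ∈ S, p t * |RW c M Z t - 1| ≤ δ) (hR' : ∑ t ∈ S', p' t * |RW c M Z' t - 1| ≤ δ)
    (he : ∀ i < M, |∑ t ∈ S, p t * (F t * (Z i t * ramp c (sfar M Z i t))) -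
      ∑ t ∈ S', p' t * (F' t * (Z' i t * ramp c (sfar M Z' i t)))| ≤ e) :
    |∑ t ∈ S, p t * F t - ∑ t ∈ S', p' t * F' t| ≤ 2 * δ + e / c := by
  have hM' : (0:ℝ) < M := by exact_mod_cast hM
  have hI := rI_pos hc
  have k1 := diff_R S p Z F hp hF hR
  have k2 := diff_R S' p' Z' F' hp' hF' hR'
  have k3 : |∑ t ∈ S, p t * (F t * RW c M Z t) - ∑ t ∈ S', p' t * (F' t * RW c M Z' t)| ≤ e / c := by
    rw [exp_R S p c M Z F, exp_R S' p' c M Z' F', ← sub_div, ← Finset.sum_sub_distrib, abs_div, abs_of_pos (mul_pos hI hM')]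
    have h1 : |∑ i ∈ range M, (∑ t ∈ S, p t * (F t * (Z i t * ramp c (sfar M Z i t))) -
        ∑ t ∈ S', p' t * (F' t * (Z' i t * ramp c (sfar M Z' i t))))| ≤ M * e := by
      refine le_trans (Finset.abs_sum_le_sum_abs _ _) ?_
      have : ∑ i ∈ range M, |∑ t ∈ S, p t * (F t * (Z i t * ramp c (sfar M Z i t))) -
        ∑ t ∈ S', p' t * (F' t * (Z' i t * ramp c (sfar M Z' i t)))| ≤ ∑ _i ∈ range M, e :=
        Finset.sum_le_sum fun i hi => he i (mem_range.1 hi)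
      simpa using this
    have he0 : 0 ≤ e := le_trans (abs_nonneg _) (he 0 hM)
    calc _ ≤ (M * e) / (rI c * M) := div_le_div_of_nonneg_right h1 (mul_pos hI hM').le
      _ = e / rI c := by field_simp
      _ ≤ e / c := div_le_div_of_nonneg_left he0 hc (le_rI hc)
  have e2 : ∑ t ∈ S, p t * F t - ∑ t ∈ S', p' t * F' t =
      (∑ t ∈ S, p t * F t - ∑ t ∈ S, p t * (F t * RW c M Z t)) +
      (∑ t ∈ S, p t * (F t * RW c M Z t) - ∑ t ∈ S', p' t * (F' t * RW c M Z' t)) -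
      (∑ t ∈ S', p' t * F' t - ∑ t ∈ S', p' t * (F' t * RW c M Z' t)) := by ring
  rw [e2]
  refine le_trans (abs_sub _ _) ?_
  refine le_trans (add_le_add_left (abs_add_le _ _) _) ?_
  linarith

/-- the hypotheses on one weighted set: mass at most `m0`, second moments at most `C2`, `nice i` (a weight `q i` in
`[0, 1]`) outside weight `ε`, and the weight of `nice i` dominated by `Z i` -/
structure LevW (S : Finset α) (p : α → ℝ) (Z q : ℕ → α → ℝ) (M : ℕ) (c m0 C1 C2 ε e : ℝ) : Prop where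
  p0 : ∀ t ∈ S, 0 ≤ p t
  Z0 : ∀ t ∈ S, ∀ i < M, 0 ≤ Z i t
  q0 : ∀ t ∈ S, ∀ i < M, 0 ≤ q i t
  q1 : ∀ t ∈ S, ∀ i < M, q i t ≤ 1
  mass : ∑ t ∈ S, p t ≤ m0
  sq : ∀ i < M, ∑ t ∈ S, p t * Z i t ^ 2 ≤ C2
  nice : ∀ i < M, ∑ t ∈ S, p t * (1 - q i t) ≤ ε
  dom : ∀ i < M, ∑ t ∈ S, p t * (q i t * ramp (2 * c) (sfar M Z i t)) ≤
      C1 * ∑ t ∈ S, p t * (Z i t * ramp (2 * c) (sfar M Z i t)) + e

/-- the comparison of two weighted sets, the constants in the order `ε, m0, C1` then `c`, then `C2`, then `M` -/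
theorem tele_main {ε m0 C1 : ℝ} (hε : 0 < ε) (hm0 : 0 ≤ m0) (hC1 : 0 ≤ C1) :
    ∃ c : ℝ, 0 < c ∧ ∀ C2 : ℝ, ∃ M0 : ℕ, 0 < M0 ∧ ∀ M : ℕ, M0 ≤ M →
      ∀ {α β : Type} (S : Finset α) (p : α → ℝ) (Z q : ℕ → α → ℝ) (S' : Finset β) (p' : β → ℝ) (Z' q' : ℕ → β → ℝ)
        (F : α → ℝ) (F' : β → ℝ), LevW S p Z q M c m0 C1 C2 (ε / 8) (ε / 32) →
        LevW S' p' Z' q' M c m0 C1 C2 (ε / 8) (ε / 32) →
        (∀ t ∈ S, |F t| ≤ 1) → (∀ t ∈ S', |F' t| ≤ 1) →
        (∀ i < M, |∑ t ∈ S, p t * (F t * (Z i t * ramp c (sfar M Z i t))) -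
          ∑ t ∈ S', p' t * (F' t * (Z' i t * ramp c (sfar M Z' i t)))| ≤ c * ε / 32) →
        |∑ t ∈ S, p t * F t - ∑ t ∈ S', p' t * F' t| ≤ ε := by
  set c : ℝ := ε / (64 * (C1 * m0 + 1)) with hc
  have hd : 0 < 64 * (C1 * m0 + 1) := by positivity
  have hc0 : 0 < c := div_pos hε hd
  have hcc : C1 * (4 * c * m0) ≤ ε / 16 := by
    have h1 : c * (64 * (C1 * m0 + 1)) = ε := div_mul_cancel₀ _ hd.ne'
    nlinarith [mul_nonneg hC1 hm0, hc0.le]
  refine ⟨c, hc0, fun C2 => ?_⟩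
  obtain ⟨M1, hM1⟩ := exists_nat_gt (32 * (C1 * C2 / (2 * c)) / ε)
  obtain ⟨M2, hM2⟩ := exists_nat_gt (32 * (C2 / c ^ 2) / ε)
  refine ⟨M1 + M2 + 1, by omega, fun M hM => ?_⟩
  intro α β S p Z q S' p' Z' q' F F' h h' hF hF' he
  have hM0 : 0 < M := by omega
  have hM' : (0:ℝ) < M := by exact_mod_cast hM0
  have he2 : c * ε / 32 / c = ε / 32 := by field_simp
  have hMM1 : (M1:ℝ) ≤ M := by exact_mod_cast (by omega : M1 ≤ M)
  have hMM2 : (M2:ℝ) ≤ M := by exact_mod_cast (by omega : M2 ≤ M)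
  have b1 : C1 * (C2 / (2 * c * M)) ≤ ε / 32 := by
    have h1 : 32 * (C1 * C2 / (2 * c)) < ε * M := by
      rw [div_lt_iff₀ hε] at hM1; nlinarith
    have h2 : C1 * (C2 / (2 * c * M)) = (C1 * C2 / (2 * c)) / M := by field_simp
    rw [h2, div_le_iff₀ hM']; linarith
  have b2 : C2 / (c ^ 2 * M) ≤ ε / 32 := by
    have h1 : 32 * (C2 / c ^ 2) < ε * M := by
      rw [div_lt_iff₀ hε] at hM2; nlinarith
    have h2 : C2 / (c ^ 2 * M) = (C2 / c ^ 2) / M := by field_simp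
    rw [h2, div_le_iff₀ hM']; linarith
  have r1 := mean_R S p h.p0 hc0 hM0 h.Z0 q h.q0 hC1 h.mass h.sq h.nice h.q1 h.dom
  have r2 := mean_R S' p' h'.p0 hc0 hM0 h'.Z0 q' h'.q0 hC1 h'.mass h'.sq h'.nice h'.q1 h'.dom
  have b3 : C1 * (4 * c * m0 + C2 / (2 * c * M)) + ε / 32 + ε / 8 + C2 / (c ^ 2 * M) ≤
      ε / 16 + ε / 32 + ε / 32 + ε / 8 + ε / 32 := by
    rw [mul_add]; linarith
  have := tele S p S' p' h.p0 h'.p0 hc0 hM0 Z Z' F F' hF hF' (le_trans r1 b3) (le_trans r2 b3) he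
  linarith

end TB

end SLW

end HexObs
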