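import Pool.Agent.SLW.TransU

/-!
SLW, B2: transfer to exactly n letters (helper58).
-/

set_option autoImplicit false

namespace HexObs

namespace SLW

open Finset TS SDN HexObs.SIM NTA

open scoped ENNReal

namespace Tr

/-- right parts: words of the box k + C that start with a macroscopic bridge; the tip is far from this bridge -/
def Rt (k c C D : ℕ) : Set (List Bool) :=
  {R | R ∈ WL (k + C) ∧ ∃ H X, R = H ++ X ∧ H ∈ BU ∧ 2 ^ (k - c) ≤ hgt H ∧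
    ∀ i, i ≤ H.length → vx oo up R i ∉ Bl (TIP.tipv R) D}

/-- events near the tip -/
def LocD (D : ℕ) (Φ : Set (List Bool)) : Prop := ∀ L R,
  (∀ i, i ≤ L.length → vx oo up (L ++ R) i ∉ Bl (TIP.tipv (L ++ R)) D) → L ++ R ∈ Φ → R ∈ Φ

/-- transfer to exactly n letters -/
def TrB : Prop := ∀ ε : ℝ, 0 < ε → ∃ (c C d k0 : ℕ) (A : ℝ), 0 < A ∧ ∀ k n D : ℕ, k0 ≤ k → TIP.Sc k n → D * 2 ^ d ≤ 2 ^ k →
  ∀ Φ : Set (List Bool), LocD D Φ → ENNReal.ofReal (TOG.Pn n Φ) * (ENNReal.ofReal (Ub k) * NTA.Xb k) ≤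
    ENNReal.ofReal (ε * Ub k) * NTA.Xb k + ENNReal.ofReal A * gf {R | R ∈ Rt k c C D ∧ R ∈ Φ}

/-- **the cut near the start, for an event near the tip** -/
lemma cut_ofB {LL Φ : Set (List Bool)} {D N k c C K1 : ℕ} {t X0 H H2 X1 : List Bool} (hloc : LocD D Φ)
    (ht : t ∈ WL K1) (hK : K1 + 3 ≤ k + C) (he : t = X0 ++ (H ++ (H2 ++ X1))) (hH : H ∈ BU) (hH2 : H2 ∈ BU)
    (h1 : 2 ^ (k - c) ≤ hgt H) (h2 : 2 ^ (k - c) ≤ hgt H2) (h3 : hgt H ≤ 2 ^ N)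
    (hLL : ∀ A1 B1, A1 ∈ BU → B1 ∈ BU → H = A1 ++ B1 → X0 ++ A1 ∈ LL)
    (hfar : ∀ i, i ≤ (X0 ++ (H ++ H2)).length → vx oo up t i ∉ Bl (TIP.tipv t) (4 * D)) (hΦ : t ∈ Φ) :
    Cut1 LL {R | R ∈ Rt k c C D ∧ R ∈ Φ} (2 ^ (k - c)) (2 ^ N) t := by
  refine ⟨X0, H, H2 ++ X1, hgt H, he, TIP.BU_hgt hH, h1, h3, hLL, fun A1 B1 hA hB hAB => ?_⟩
  obtain ⟨R, hR⟩ : ∃ R, R = B1 ++ (H2 ++ X1) := ⟨_, rfl⟩
  obtain ⟨L0, hL0⟩ : ∃ L0, L0 = X0 ++ A1 := ⟨_, rfl⟩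
  have htR : t = L0 ++ R := by
    rw [he, hL0, hR, hAB]
    simp only [List.append_assoc]
  have hlen : L0.length + (B1 ++ H2).length = (X0 ++ (H ++ H2)).length := by
    rw [hL0, hAB]
    simp only [List.length_append]
    omega
  have hmono : ∀ {p y : Pt} {r s : ℕ}, r ≤ s → p ∈ Bl y r → p ∈ Bl y s := by
    rintro p y r s hrs ⟨m1, m2⟩
    have : (r : ℤ) ≤ s := by exact_mod_cast hrs
    exact ⟨m1.trans this, m2.trans this⟩
  rw [← hR]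
  refine ⟨⟨?_, B1 ++ H2, X1, by rw [hR, List.append_assoc], ?_, ?_, fun i hi hmem => ?_⟩, ?_⟩
  · have h4 := TIP.NgC.drop_box ht (a := L0.length) (by rw [htR, List.length_append]; omega)
    rw [htR, List.drop_left' rfl] at h4
    exact ⟨h4.1, fun i hi dir => (h4.2 i hi dir).trans (pow_le_pow_right₀ (by norm_num) hK)⟩
  · exact TIP.BU_app hB hH2
  · rw [TIP.hgt_app hB hH2]
    omega
  · have h7 := ball_drop (L := L0) (D := D) (hmono (by omega) hmem)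
    rw [← htR] at h7
    exact hfar (L0.length + i) (by omega) h7
  · refine hloc L0 R (fun i hi hmem => ?_) (by rw [← htR]; exact hΦ)
    rw [← htR] at hmem
    exact hfar i (by omega) (hmono (by omega) hmem)

end Tr

open Tr TIP.NgA in
/-- **B2** -/
theorem trB_of (hS : TIP.StrU) : TrB := by
  intro ε hε
  obtain ⟨c1, C1, k0, d, A, LB, hA, hLB, hstr⟩ := hS ε hε
  obtain ⟨Cc, hCc, hcore⟩ := cut1_exact
  obtain ⟨cl, κ, k1, hcl, -, hbig⟩ := EN.factsX_M.big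
  have hm : ∀ k, 0 < PW.mZ (2 ^ k) := fun k => PW.mZ_pos Nat.one_le_two_pow
  have hCc0 : 0 < Cc := by linarith
  refine ⟨c1, C1 + 3, d, k0 + k1 + c1 + d, Cc * 2 ^ c1 * A / cl, by positivity, fun k n D hk hsc hD Φ hΦ => ?_⟩
  obtain ⟨B, hB, hstr⟩ := hstr k n (by omega) hsc
  obtain ⟨hk1, hk2⟩ := hsc
  have hUk := TS.Ub_pos k
  have hmk := hm k
  obtain ⟨G, hG⟩ : ∃ G : ℝ≥0∞, G = gf {R | R ∈ Rt k c1 (C1 + 3) D ∧ R ∈ Φ} := ⟨_, rfl⟩
  obtain ⟨P, hP⟩ : ∃ P : Set (List Bool), P = {t | t ∈ Φ ∧ t ∉ B} := ⟨_, rfl⟩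
  rw [← hG]
  have h1 : gf {t | t ∈ SawN n ∧ t ∈ P} ≤ ENNReal.ofReal (Cc * (2 ^ k / ((2 ^ (k - c1) : ℕ) * Ub k))) *
      ((ENNReal.ofReal (A * (Ub k / PW.mZ (2 ^ k))) * Xb k) * G) := by
    rw [hG]
    refine hcore (LB k) _ _ (2 ^ (k - c1)) k n _ Nat.one_le_two_pow (fun t ht => ?_) fun l => ?_
    · obtain ⟨ht1, ht2⟩ := ht
      rw [hP] at ht2
      obtain ⟨hW, X0, H, H2, X1, e1, e2, e3, e4, e5, e6, e7, e8, e9⟩ := hstr t ht1 ht2.2
      exact ⟨cut_ofB (K1 := k + C1) hΦ hW (by omega) e1 e2 e3 e4 e5 e6 e8 (e9 D hD) ht2.1, ht1.1⟩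
    · refine le_trans (gf_mono fun L hL => ?_) (hLB k l (by omega))
      exact ⟨hL.2, hL.1⟩
  have h4 : ENNReal.ofReal cl * (ENNReal.ofReal (Ub k / PW.mZ (2 ^ k)) * Xb k ^ 2) ≤ gf (SawN n) :=
    (hbig k n (by omega) hk1 hk2).trans (gf_mono fun t ht => ht.1)
  have hnum : Cc * (2 ^ k / ((2 ^ (k - c1) : ℕ) * Ub k)) * (A * (Ub k / PW.mZ (2 ^ k))) =
      (cl / PW.mZ (2 ^ k)) * (Cc * 2 ^ c1 * A / cl) := by
    have h5 : (2 : ℝ) ^ k = 2 ^ c1 * ((2 ^ (k - c1) : ℕ) : ℝ) := by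
      push_cast
      rw [← pow_add]
      congr 1
      omega
    have h6 : (0 : ℝ) < ((2 ^ (k - c1) : ℕ) : ℝ) := by positivity
    rw [h5]
    field_simp
  have h2 : ENNReal.ofReal (TOG.Pn n P) * (ENNReal.ofReal (Ub k) * Xb k) ≤ ENNReal.ofReal (Cc * 2 ^ c1 * A / cl) * G := by
    have hz : ENNReal.ofReal (cl / PW.mZ (2 ^ k)) * Xb k ≠ 0 :=
      mul_ne_zero (by rw [Ne, ENNReal.ofReal_eq_zero, not_le]; positivity) (Xb_ne_zero k)
    have hz' : ENNReal.ofReal (cl / PW.mZ (2 ^ k)) * Xb k ≠ ⊤ := ENNReal.mul_ne_top ENNReal.ofReal_ne_top (Xb_ne_top k)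
    refine (ENNReal.mul_le_mul_iff_right hz hz').1 ?_
    calc ENNReal.ofReal (cl / PW.mZ (2 ^ k)) * Xb k * (ENNReal.ofReal (TOG.Pn n P) * (ENNReal.ofReal (Ub k) * Xb k))
        = (ENNReal.ofReal (cl / PW.mZ (2 ^ k)) * ENNReal.ofReal (Ub k)) * Xb k ^ 2 * ENNReal.ofReal (TOG.Pn n P) := by ring
      _ = ENNReal.ofReal cl * (ENNReal.ofReal (Ub k / PW.mZ (2 ^ k)) * Xb k ^ 2) * ENNReal.ofReal (TOG.Pn n P) := by
          rw [← ENNReal.ofReal_mul (by positivity), show cl / PW.mZ (2 ^ k) * Ub k = cl * (Ub k / PW.mZ (2 ^ k)) by ring,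
            ENNReal.ofReal_mul hcl.le]
          ring
      _ ≤ gf (SawN n) * ENNReal.ofReal (TOG.Pn n P) := mul_le_mul' h4 le_rfl
      _ = gf {t | t ∈ SawN n ∧ t ∈ P} := Pn_mul n P
      _ ≤ ENNReal.ofReal (Cc * (2 ^ k / ((2 ^ (k - c1) : ℕ) * Ub k))) *
          ((ENNReal.ofReal (A * (Ub k / PW.mZ (2 ^ k))) * Xb k) * G) := h1
      _ = ENNReal.ofReal (Cc * (2 ^ k / ((2 ^ (k - c1) : ℕ) * Ub k)) * (A * (Ub k / PW.mZ (2 ^ k)))) * (Xb k * G) := by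
          rw [ENNReal.ofReal_mul (p := Cc * (2 ^ k / ((2 ^ (k - c1) : ℕ) * Ub k))) (by positivity)]
          ring
      _ = _ := by
          rw [hnum, ENNReal.ofReal_mul (p := cl / PW.mZ (2 ^ k)) (by positivity)]
          ring
  have h3 : TOG.Pn n Φ ≤ ε + TOG.Pn n P := by
    have h5 := TIP.NgU.Pn_union n B P
    have h6 : TOG.Pn n Φ ≤ TOG.Pn n (B ∪ P) := by
      unfold TOG.Pn
      refine div_le_div_of_nonneg_right ?_ (Nat.cast_nonneg _)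
      have hfin : {t | t ∈ SawN n ∧ t ∈ B ∪ P}.Finite := by
        refine Set.Finite.subset ?_ (fun t ht => ht.1)
        by_contra hinf
        have h7 : (cS n : ℕ) = 0 := Set.Infinite.ncard hinf
        have h8 := TOG.cS_pos n
        omega
      have h7 := Set.ncard_le_ncard (s := {t | t ∈ SawN n ∧ t ∈ Φ}) (t := {t | t ∈ SawN n ∧ t ∈ B ∪ P}) (by
        rintro t ⟨t1, t2⟩
        refine ⟨t1, ?_⟩
        by_cases hb : t ∈ B
        · exact Or.inl hb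
        · right
          rw [hP]
          exact ⟨t2, hb⟩) hfin
      exact_mod_cast h7
    linarith
  have hPn : 0 ≤ TOG.Pn n P := by
    unfold TOG.Pn
    positivity
  calc ENNReal.ofReal (TOG.Pn n Φ) * (ENNReal.ofReal (Ub k) * Xb k)
      ≤ (ENNReal.ofReal ε + ENNReal.ofReal (TOG.Pn n P)) * (ENNReal.ofReal (Ub k) * Xb k) := by
        refine mul_le_mul' ?_ le_rfl
        rw [← ENNReal.ofReal_add hε.le hPn]
        exact ENNReal.ofReal_le_ofReal h3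
    _ = ENNReal.ofReal (ε * Ub k) * Xb k + ENNReal.ofReal (TOG.Pn n P) * (ENNReal.ofReal (Ub k) * Xb k) := by
        rw [ENNReal.ofReal_mul hε.le]
        ring
    _ ≤ _ := add_le_add le_rfl h2

end SLW

end HexObs
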